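import Mathlib
import Pool.Agent.R202.Rot

set_option autoImplicit false

open MeasureTheory Filter Topology Set Real

namespace Pool.Agent.Zk32

lemma circ_norm_le_half (x : UnitAddCircle) : ‖x‖ ≤ 1 / 2 := by
  have := AddCircle.norm_le_half_period (1 : ℝ) (x := x) one_ne_zero
  simpa using this

lemma circ_coe_norm_eq {y : ℝ} (h : |y| ≤ 1 / 2) : ‖(y : UnitAddCircle)‖ = |y| := by
  have := (AddCircle.norm_coe_eq_abs_iff (1 : ℝ) (x := y) one_ne_zero).mpr (by simpa using h)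
  exact this

lemma circ_rep (x : UnitAddCircle) : ∃ y : ℝ, |y| ≤ 1 / 2 ∧ (y : UnitAddCircle) = x := by
  obtain ⟨z, rfl⟩ := QuotientAddGroup.mk_surjective x
  refine ⟨z - round z, abs_sub_round z, ?_⟩
  rw [AddCircle.coe_sub]
  have : (((round z : ℤ) : ℝ) : UnitAddCircle) = 0 := by
    rw [AddCircle.coe_eq_zero_iff]
    exact ⟨round z, by simp⟩
  rw [this, sub_zero]

lemma zsmul_norm_eq {x : UnitAddCircle} (n : ℤ) (h : |(n : ℝ)| * ‖x‖ ≤ 1 / 2) :
    ‖n • x‖ = |(n : ℝ)| * ‖x‖ := by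
  obtain ⟨y, hy, rfl⟩ := circ_rep x
  rw [circ_coe_norm_eq hy] at h ⊢
  have e : n • (y : UnitAddCircle) = ((n * y : ℝ) : UnitAddCircle) := by
    rw [← AddCircle.coe_zsmul, zsmul_eq_mul]
  have h2 : |(n : ℝ) * y| = |(n : ℝ)| * |y| := abs_mul _ _
  rw [e, circ_coe_norm_eq (by rw [h2]; exact h), h2]

lemma nsmul_norm_eq {x : UnitAddCircle} (n : ℕ) (h : (n : ℝ) * ‖x‖ ≤ 1 / 2) :
    ‖n • x‖ = n * ‖x‖ := by
  have h1 : |((n : ℤ) : ℝ)| = n := by simp
  have := zsmul_norm_eq (x := x) (n : ℤ) (by rw [h1]; exact h)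
  rwa [h1, natCast_zsmul] at this

lemma zsmul_norm_le (x : UnitAddCircle) (n : ℤ) : ‖n • x‖ ≤ |(n : ℝ)| * ‖x‖ := by
  by_cases h : |(n : ℝ)| * ‖x‖ ≤ 1 / 2
  · exact (zsmul_norm_eq n h).le
  · push Not at h
    exact (circ_norm_le_half _).trans h.le

lemma norm_fou (m : ℤ) (x : UnitAddCircle) : ‖(fourier m x : ℂ)‖ = 1 := by
  rw [fourier_apply]; exact Circle.norm_coe _

lemma fou_add' (m : ℤ) (x y : UnitAddCircle) :
    (fourier m (x + y) : ℂ) = fourier m x * fourier m y := by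
  rw [fourier_apply, fourier_apply, fourier_apply, smul_add, AddCircle.toCircle_add]
  simp

lemma fou_smul (m c : ℤ) (x : UnitAddCircle) :
    (fourier m (c • x) : ℂ) = fourier (c * m) x := by
  rw [fourier_apply, fourier_apply, smul_smul, mul_comm]

lemma fou_nsmul (m : ℤ) (c : ℕ) (x : UnitAddCircle) :
    (fourier m (c • x) : ℂ) = fourier (c * m) x := by
  rw [← natCast_zsmul, fou_smul]

lemma fou_meas (m : ℤ) : Measurable (fun x : UnitAddCircle => (fourier m x : ℂ)) :=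
  (fourier m).continuous.measurable

lemma re_eq (m : ℤ) (x : UnitAddCircle) :
    1 - (fourier m x : ℂ).re = ‖(fourier m x : ℂ) - 1‖ ^ 2 / 2 := by
  have h := norm_fou m x
  have h1 : ‖(fourier m x : ℂ)‖ ^ 2 = (fourier m x : ℂ).re ^ 2 + (fourier m x : ℂ).im ^ 2 := by
    rw [← Complex.normSq_eq_norm_sq, Complex.normSq_apply]; ring
  have h2 : ‖(fourier m x : ℂ) - 1‖ ^ 2 =
      ((fourier m x : ℂ).re - 1) ^ 2 + (fourier m x : ℂ).im ^ 2 := by
    rw [← Complex.normSq_eq_norm_sq, Complex.normSq_apply]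
    simp only [Complex.sub_re, Complex.one_re, Complex.sub_im, Complex.one_im]
    ring
  rw [h, one_pow] at h1
  rw [h2]
  linarith

lemma norm_fou_sub (a b : ℤ) (x : UnitAddCircle) :
    ‖(fourier a x : ℂ) - fourier b x‖ = ‖(fourier (a - b) x : ℂ) - 1‖ := by
  have e : (fourier a x : ℂ) = fourier (a - b) x * fourier b x := by
    rw [← fourier_add]; congr 1; congr 1; ring
  rw [e]
  have : (fourier (a - b) x : ℂ) * fourier b x - fourier b x =
      ((fourier (a - b) x : ℂ) - 1) * fourier b x := by ring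
  rw [this, norm_mul, norm_fou, mul_one]

lemma re_nonneg (m : ℤ) (x : UnitAddCircle) : 0 ≤ 1 - (fourier m x : ℂ).re := by
  rw [re_eq]; positivity

lemma re_le_two (m : ℤ) (x : UnitAddCircle) : 1 - (fourier m x : ℂ).re ≤ 2 := by
  have := Complex.abs_re_le_norm (fourier m x : ℂ)
  rw [norm_fou] at this
  have := abs_le.mp this
  linarith [this.1]

lemma fou_mul_sub_one (p : ℕ) (m : ℤ) (x : UnitAddCircle) :
    ‖(fourier ((p : ℤ) * m) x : ℂ) - 1‖ ≤ p * ‖(fourier m x : ℂ) - 1‖ := by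
  induction p with
  | zero => simp
  | succ n ih =>
    have e : (fourier (((n + 1 : ℕ) : ℤ) * m) x : ℂ) = fourier ((n : ℤ) * m) x * fourier m x := by
      rw [← fourier_add]; congr 1; congr 1; push_cast; ring
    rw [e]
    calc ‖(fourier ((n : ℤ) * m) x : ℂ) * fourier m x - 1‖
        = ‖((fourier ((n : ℤ) * m) x : ℂ) - 1) * fourier m x + ((fourier m x : ℂ) - 1)‖ := by
          congr 1; ring
      _ ≤ ‖((fourier ((n : ℤ) * m) x : ℂ) - 1) * fourier m x‖ + ‖(fourier m x : ℂ) - 1‖ :=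
          norm_add_le _ _
      _ ≤ n * ‖(fourier m x : ℂ) - 1‖ + ‖(fourier m x : ℂ) - 1‖ := by
          rw [norm_mul, norm_fou, mul_one]
          linarith
      _ = ((n + 1 : ℕ) : ℝ) * ‖(fourier m x : ℂ) - 1‖ := by push_cast; ring

lemma re_mul (p : ℕ) (m : ℤ) (x : UnitAddCircle) :
    1 - (fourier ((p : ℤ) * m) x : ℂ).re ≤ p ^ 2 * (1 - (fourier m x : ℂ).re) := by
  rw [re_eq, re_eq]
  have h1 := fou_mul_sub_one p m x
  have h2 : ‖(fourier ((p : ℤ) * m) x : ℂ) - 1‖ ^ 2 ≤ (p * ‖(fourier m x : ℂ) - 1‖) ^ 2 :=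
    pow_le_pow_left₀ (norm_nonneg _) h1 2
  rw [mul_pow] at h2
  linarith

lemma four_norm_le (m : ℤ) (x : UnitAddCircle) : 4 * ‖m • x‖ ≤ ‖(fourier m x : ℂ) - 1‖ := by
  obtain ⟨y, hy, hyx⟩ := circ_rep (m • x)
  have e0 : (fourier m x : ℂ) = fourier 1 (m • x) := by rw [fou_smul, mul_one]
  rw [e0, ← hyx, circ_coe_norm_eq hy, fourier_coe_apply]
  have e2 : (2 * (π : ℂ) * Complex.I * ((1 : ℤ) : ℂ) * (y : ℂ) / ((1 : ℝ) : ℂ)) =
      Complex.I * ((2 * π * y : ℝ) : ℂ) := by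
    push_cast; ring
  rw [e2, Complex.norm_exp_I_mul_ofReal_sub_one]
  have e3 : 2 * π * y / 2 = π * y := by ring
  rw [e3, norm_mul, Real.norm_eq_abs, Real.norm_eq_abs, abs_of_pos (by norm_num : (0 : ℝ) < 2)]
  have h2 : |π * y| ≤ π / 2 := by
    rw [abs_mul, abs_of_pos Real.pi_pos]
    have := mul_le_mul_of_nonneg_left hy Real.pi_pos.le
    linarith
  have h3 := Real.mul_abs_le_abs_sin h2
  rw [abs_mul, abs_of_pos Real.pi_pos] at h3
  have h4 : 2 / π * (π * |y|) = 2 * |y| := by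
    field_simp
  rw [h4] at h3
  linarith

lemma re_lower (m : ℤ) (x : UnitAddCircle) : 8 * ‖m • x‖ ^ 2 ≤ 1 - (fourier m x : ℂ).re := by
  have h := four_norm_le m x
  have h0 := norm_nonneg (m • x)
  have h1 : (4 * ‖m • x‖) ^ 2 ≤ ‖(fourier m x : ℂ) - 1‖ ^ 2 := pow_le_pow_left₀ (by positivity) h 2
  rw [re_eq]
  nlinarith

lemma int_fou_zero {m : ℤ} (hm : m ≠ 0) :
    ∫ x : UnitAddCircle, (fourier m x : ℂ) ∂volume = 0 := by
  refine Pool.Agent.R202.coeff_zero (θ := Real.sqrt 2) irrational_sqrt_two ?_ hm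
  exact (measurePreserving_add_right volume _).map_eq

/-- a measure other than Lebesgue has a non-zero coefficient -/
lemma exists_coeff {μ : Measure UnitAddCircle} [IsProbabilityMeasure μ] (h : μ ≠ volume) :
    ∃ m : ℤ, m ≠ 0 ∧ ∫ x, (fourier m x : ℂ) ∂μ ≠ 0 := by
  by_contra hcon
  push Not at hcon
  apply h
  refine Pool.Agent.R202.ext_fourier fun m => ?_
  rcases eq_or_ne m 0 with rfl | hm
  · simp [Measure.real, UnitAddCircle.measure_univ]
  · rw [hcon m hm, int_fou_zero hm]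

lemma zsmul_meas (m : ℤ) : Measurable (fun x : UnitAddCircle => m • x) := by
  have : Continuous (fun x : UnitAddCircle => m • x) := by fun_prop
  exact this.measurable

lemma nsmul_meas (m : ℕ) : Measurable (fun x : UnitAddCircle => m • x) := by
  have : Continuous (fun x : UnitAddCircle => m • x) := by fun_prop
  exact this.measurable

end Pool.Agent.Zk32
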