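import Mathlib
import Pool.Agent.Zk32.Circ

set_option autoImplicit false

open MeasureTheory Filter Topology Set
open scoped ENNReal

namespace Pool.Agent.Zk32

/-- the far mass of the dilated measure -/
noncomputable def far (μ : Measure UnitAddCircle) (H : ℤ) (y : ℝ) : ℝ :=
  μ.real {x : UnitAddCircle | y < ‖H • x‖}

lemma far_set_meas (H : ℤ) (y : ℝ) : MeasurableSet {x : UnitAddCircle | y < ‖H • x‖} :=
  measurableSet_lt measurable_const (zsmul_meas H).norm

lemma norm_set_meas (y : ℝ) : MeasurableSet {x : UnitAddCircle | y < ‖x‖} :=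
  measurableSet_lt measurable_const measurable_norm

lemma far_nonneg (μ : Measure UnitAddCircle) (H : ℤ) (y : ℝ) : 0 ≤ far μ H y := measureReal_nonneg

lemma far_anti (μ : Measure UnitAddCircle) [IsFiniteMeasure μ] (H : ℤ) {y y' : ℝ} (h : y ≤ y') :
    far μ H y' ≤ far μ H y :=
  measureReal_mono (fun _ hx => lt_of_le_of_lt h hx)

/-- the trivial growth bound -/
lemma far_growth {p : ℕ} (hp : 2 ≤ p) (μ : Measure UnitAddCircle) [IsProbabilityMeasure μ]
    (hμp : MeasurePreserving (fun x : UnitAddCircle => p • x) μ μ) (H : ℤ) (j : ℕ) :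
    far μ H (1 / (2 * p) / p ^ j) ≤ (j + 1) * far μ H (1 / (2 * p)) := by
  have hpR : (2 : ℝ) ≤ p := by exact_mod_cast hp
  have hp0 : (0 : ℝ) < p := by linarith
  induction j with
  | zero => simp
  | succ j ih =>
    have hsub : {x : UnitAddCircle | 1 / (2 * (p : ℝ)) / p ^ (j + 1) < ‖H • x‖} ⊆
        {x : UnitAddCircle | 1 / (2 * (p : ℝ)) < ‖H • x‖} ∪
          (fun x : UnitAddCircle => p • x) ⁻¹'
            {x : UnitAddCircle | 1 / (2 * (p : ℝ)) / p ^ j < ‖H • x‖} := by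
      intro x hx
      by_cases h : 1 / (2 * (p : ℝ)) < ‖H • x‖
      · left; exact h
      · right
        push Not at h
        have h1 : (p : ℝ) * ‖H • x‖ ≤ 1 / 2 := by
          calc (p : ℝ) * ‖H • x‖ ≤ p * (1 / (2 * p)) := by gcongr
            _ = 1 / 2 := by field_simp
        have h2 := nsmul_norm_eq (x := H • x) p h1
        change 1 / (2 * (p : ℝ)) / p ^ j < ‖H • (p • x)‖
        rw [smul_comm, h2]
        have hx' : 1 / (2 * (p : ℝ)) / p ^ (j + 1) < ‖H • x‖ := hx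
        calc 1 / (2 * (p : ℝ)) / p ^ j = p * (1 / (2 * (p : ℝ)) / p ^ (j + 1)) := by
              rw [pow_succ]; field_simp
          _ < p * ‖H • x‖ := by gcongr
    have h1 : far μ H (1 / (2 * p) / p ^ (j + 1)) ≤
        far μ H (1 / (2 * p)) + far μ H (1 / (2 * p) / p ^ j) := by
      refine (measureReal_mono hsub).trans ?_
      refine (measureReal_union_le _ _).trans ?_
      have : μ.real ((fun x : UnitAddCircle => p • x) ⁻¹'
            {x : UnitAddCircle | 1 / (2 * (p : ℝ)) / p ^ j < ‖H • x‖}) =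
          far μ H (1 / (2 * p) / p ^ j) := by
        unfold far Measure.real
        rw [hμp.measure_preimage (far_set_meas _ _).nullMeasurableSet]
      rw [this]
      rfl
    push_cast
    linarith

/-- dilation -/
lemma far_mul (μ : Measure UnitAddCircle) [IsFiniteMeasure μ] {K : ℝ} (hK : 0 < K) {c : ℤ}
    (hc : |(c : ℝ)| ≤ K) (H : ℤ) (y : ℝ) : far μ (c * H) y ≤ far μ H (y / K) := by
  refine measureReal_mono (fun x hx => ?_)
  have hx' : y < ‖(c * H) • x‖ := hx
  change y / K < ‖H • x‖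
  rw [div_lt_iff₀ hK]
  rw [mul_smul] at hx'
  have h1 := zsmul_norm_le (H • x) c
  have h2 := norm_nonneg (H • x)
  nlinarith

/-- the branching inequality -/
lemma far_branch {μ : Measure UnitAddCircle} [IsProbabilityMeasure μ]
    {N : Measure (UnitAddCircle × UnitAddCircle × UnitAddCircle)} [IsProbabilityMeasure N]
    {c₁ c₂ : ℤ}
    (hNs : MeasurePreserving
      (fun z : UnitAddCircle × UnitAddCircle × UnitAddCircle => c₁ • z.1 + c₂ • z.2.1 + z.2.2) N μ)
    (hN1 : MeasurePreserving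
      (fun z : UnitAddCircle × UnitAddCircle × UnitAddCircle => z.1) N μ)
    (hN2 : MeasurePreserving
      (fun z : UnitAddCircle × UnitAddCircle × UnitAddCircle => z.2.1) N μ)
    {C : ℝ} (hC : 0 < C)
    (r12 : ∀ B B' : Set UnitAddCircle, MeasurableSet B → MeasurableSet B' →
          N.real {z | z.1 ∈ B ∧ z.2.1 ∈ B'} ≤ C * (μ.real B * μ.real B'))
    (r13 : ∀ B B' : Set UnitAddCircle, MeasurableSet B → MeasurableSet B' →
          N.real {z | z.1 ∈ B ∧ z.2.2 ∈ B'} ≤ C * (μ.real B * N.real {z | z.2.2 ∈ B'}))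
    (r23 : ∀ B B' : Set UnitAddCircle, MeasurableSet B → MeasurableSet B' →
          N.real {z | z.2.1 ∈ B ∧ z.2.2 ∈ B'} ≤ C * (μ.real B * N.real {z | z.2.2 ∈ B'}))
    {K : ℝ} (hK : 1 ≤ K) (hc₁ : |(c₁ : ℝ)| ≤ K) (hc₂ : |(c₂ : ℝ)| ≤ K) (H : ℤ) {y : ℝ}
    (hy : 0 ≤ y) :
    far μ (c₁ * H) (3 * y) + far μ (c₂ * H) (3 * y) ≤
      far μ H y + 8 * C * far μ H (y / (3 * K)) ^ 2 := by
  have hK0 : 0 < K := by linarith
  set G := far μ H (y / (3 * K)) with hG
  have hG0 : 0 ≤ G := far_nonneg _ _ _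
  have m1 : Measurable (fun z : UnitAddCircle × UnitAddCircle × UnitAddCircle => z.1) :=
    measurable_fst
  have m2 : Measurable (fun z : UnitAddCircle × UnitAddCircle × UnitAddCircle => z.2.1) :=
    measurable_fst.comp measurable_snd
  have m3 : Measurable (fun z : UnitAddCircle × UnitAddCircle × UnitAddCircle => z.2.2) :=
    measurable_snd.comp measurable_snd
  -- masses on N
  have n1 : ∀ (J : ℤ) (t : ℝ), N.real {z | t < ‖J • z.1‖} = far μ J t := by
    intro J t
    unfold far Measure.real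
    rw [← hN1.measure_preimage (far_set_meas J t).nullMeasurableSet]
    rfl
  have n2 : ∀ (J : ℤ) (t : ℝ), N.real {z | t < ‖J • z.2.1‖} = far μ J t := by
    intro J t
    unfold far Measure.real
    rw [← hN2.measure_preimage (far_set_meas J t).nullMeasurableSet]
    rfl
  have ns : ∀ (J : ℤ) (t : ℝ),
      N.real {z | t < ‖J • (c₁ • z.1 + c₂ • z.2.1 + z.2.2)‖} = far μ J t := by
    intro J t
    unfold far Measure.real
    rw [← hNs.measure_preimage (far_set_meas J t).nullMeasurableSet]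
    rfl
  -- every far mass is at most G
  have g1 : ∀ t, y / 3 ≤ t → far μ (c₁ * H) t ≤ G := by
    intro t ht
    refine (far_mul μ hK0 hc₁ H t).trans (far_anti μ H ?_)
    rw [div_mul_eq_div_div]
    gcongr
  have g2 : ∀ t, y / 3 ≤ t → far μ (c₂ * H) t ≤ G := by
    intro t ht
    refine (far_mul μ hK0 hc₂ H t).trans (far_anti μ H ?_)
    rw [div_mul_eq_div_div]
    gcongr
  have g0 : far μ H (y / 3) ≤ G := by
    apply far_anti
    rw [div_mul_eq_div_div]
    exact div_le_self (by positivity) hK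
  set W := N.real {z : UnitAddCircle × UnitAddCircle × UnitAddCircle | y < ‖H • z.2.2‖} with hW
  have hW3 : W ≤ 3 * G := by
    have hsub : {z : UnitAddCircle × UnitAddCircle × UnitAddCircle | y < ‖H • z.2.2‖} ⊆
        ({z | y / 3 < ‖H • (c₁ • z.1 + c₂ • z.2.1 + z.2.2)‖} ∪ {z | y / 3 < ‖(c₁ * H) • z.1‖}) ∪
          {z | y / 3 < ‖(c₂ * H) • z.2.1‖} := by
      intro z hz
      by_contra hcon
      simp only [Set.mem_union, Set.mem_ofPred_eq, not_or, not_lt] at hcon
      obtain ⟨⟨a1, a2⟩, a3⟩ := hcon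
      have e : H • z.2.2 = H • (c₁ • z.1 + c₂ • z.2.1 + z.2.2) - (c₁ * H) • z.1 -
          (c₂ * H) • z.2.1 := by
        rw [smul_add, smul_add, mul_comm c₁, mul_comm c₂, mul_smul, mul_smul]
        abel
      have hz' : y < ‖H • z.2.2‖ := hz
      have h1 := norm_sub_le (H • (c₁ • z.1 + c₂ • z.2.1 + z.2.2) - (c₁ * H) • z.1)
        ((c₂ * H) • z.2.1)
      have h2 := norm_sub_le (H • (c₁ • z.1 + c₂ • z.2.1 + z.2.2)) ((c₁ * H) • z.1)
      rw [← e] at h1
      linarith
    calc W ≤ _ := measureReal_mono hsub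
      _ ≤ _ := measureReal_union_le _ _
      _ ≤ _ := add_le_add_left (measureReal_union_le _ _) _
      _ = far μ H (y / 3) + far μ (c₁ * H) (y / 3) + far μ (c₂ * H) (y / 3) := by
          rw [ns, n1, n2]
      _ ≤ 3 * G := by
          have := g1 (y / 3) le_rfl
          have := g2 (y / 3) le_rfl
          linarith
  have hW0 : 0 ≤ W := measureReal_nonneg
  -- the sets
  set T := UnitAddCircle × UnitAddCircle × UnitAddCircle
  set E1 : Set T := {z | 3 * y < ‖(c₁ * H) • z.1‖} with hE1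
  set E2 : Set T := {z | 3 * y < ‖(c₂ * H) • z.2.1‖} with hE2
  set X12 : Set T := {z | z.1 ∈ {x : UnitAddCircle | 3 * y < ‖(c₁ * H) • x‖} ∧
    z.2.1 ∈ {x : UnitAddCircle | y < ‖(c₂ * H) • x‖}} with hX12
  set X13 : Set T := {z | z.1 ∈ {x : UnitAddCircle | 3 * y < ‖(c₁ * H) • x‖} ∧
    z.2.2 ∈ {x : UnitAddCircle | y < ‖H • x‖}} with hX13
  set X21 : Set T := {z | z.1 ∈ {x : UnitAddCircle | y < ‖(c₁ * H) • x‖} ∧
    z.2.1 ∈ {x : UnitAddCircle | 3 * y < ‖(c₂ * H) • x‖}} with hX21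
  set X23 : Set T := {z | z.2.1 ∈ {x : UnitAddCircle | 3 * y < ‖(c₂ * H) • x‖} ∧
    z.2.2 ∈ {x : UnitAddCircle | y < ‖H • x‖}} with hX23
  set S1 : Set T := {z | 3 * y < ‖(c₁ * H) • z.1‖ ∧ ‖(c₂ * H) • z.2.1‖ ≤ y ∧ ‖H • z.2.2‖ ≤ y}
    with hS1
  set S2 : Set T := {z | 3 * y < ‖(c₂ * H) • z.2.1‖ ∧ ‖(c₁ * H) • z.1‖ ≤ y ∧ ‖H • z.2.2‖ ≤ y}
    with hS2
  have b1 : N.real E1 ≤ N.real S1 + N.real X12 + N.real X13 := by
    have hsub : E1 ⊆ (S1 ∪ X12) ∪ X13 := by
      intro z hz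
      by_cases h2 : y < ‖(c₂ * H) • z.2.1‖
      · left; right; exact ⟨hz, h2⟩
      · by_cases h3 : y < ‖H • z.2.2‖
        · right; exact ⟨hz, h3⟩
        · left; left; exact ⟨hz, not_lt.mp h2, not_lt.mp h3⟩
    calc N.real E1 ≤ _ := measureReal_mono hsub
      _ ≤ _ := measureReal_union_le _ _
      _ ≤ _ := add_le_add_left (measureReal_union_le _ _) _
  have b2 : N.real E2 ≤ N.real S2 + N.real X21 + N.real X23 := by
    have hsub : E2 ⊆ (S2 ∪ X21) ∪ X23 := by
      intro z hz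
      by_cases h2 : y < ‖(c₁ * H) • z.1‖
      · left; right; exact ⟨h2, hz⟩
      · by_cases h3 : y < ‖H • z.2.2‖
        · right; exact ⟨hz, h3⟩
        · left; left; exact ⟨hz, not_lt.mp h2, not_lt.mp h3⟩
    calc N.real E2 ≤ _ := measureReal_mono hsub
      _ ≤ _ := measureReal_union_le _ _
      _ ≤ _ := add_le_add_left (measureReal_union_le _ _) _
  have e1 : N.real E1 = far μ (c₁ * H) (3 * y) := n1 _ _
  have e2 : N.real E2 = far μ (c₂ * H) (3 * y) := n2 _ _
  have x12 : N.real X12 ≤ C * (G * G) := by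
    refine (r12 _ _ (far_set_meas _ _) (far_set_meas _ _)).trans ?_
    have h1 := g1 (3 * y) (by linarith)
    have h2 := g2 y (by linarith)
    have h3 := far_nonneg μ (c₁ * H) (3 * y)
    have h4 := far_nonneg μ (c₂ * H) y
    exact mul_le_mul_of_nonneg_left (mul_le_mul h1 h2 h4 hG0) hC.le
  have x21 : N.real X21 ≤ C * (G * G) := by
    refine (r12 _ _ (far_set_meas _ _) (far_set_meas _ _)).trans ?_
    have h1 := g1 y (by linarith)
    have h2 := g2 (3 * y) (by linarith)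
    have h4 := far_nonneg μ (c₂ * H) (3 * y)
    exact mul_le_mul_of_nonneg_left (mul_le_mul h1 h2 h4 hG0) hC.le
  have x13 : N.real X13 ≤ C * (G * (3 * G)) := by
    refine (r13 _ _ (far_set_meas _ _) (far_set_meas _ _)).trans ?_
    have h1 := g1 (3 * y) (by linarith)
    exact mul_le_mul_of_nonneg_left (mul_le_mul h1 hW3 hW0 hG0) hC.le
  have x23 : N.real X23 ≤ C * (G * (3 * G)) := by
    refine (r23 _ _ (far_set_meas _ _) (far_set_meas _ _)).trans ?_
    have h1 := g2 (3 * y) (by linarith)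
    exact mul_le_mul_of_nonneg_left (mul_le_mul h1 hW3 hW0 hG0) hC.le
  have hdisj : Disjoint S1 S2 := by
    rw [Set.disjoint_left]
    rintro z ⟨a1, -, -⟩ ⟨-, a2, -⟩
    linarith
  have hS2m : MeasurableSet S2 := by
    have q1 : MeasurableSet {z : T | 3 * y < ‖(c₂ * H) • z.2.1‖} := m2 (far_set_meas _ _)
    have q2 : MeasurableSet {z : T | ‖(c₁ * H) • z.1‖ ≤ y} :=
      measurableSet_le (((zsmul_meas _).comp m1).norm) measurable_const
    have q3 : MeasurableSet {z : T | ‖H • z.2.2‖ ≤ y} :=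
      measurableSet_le (((zsmul_meas _).comp m3).norm) measurable_const
    exact q1.inter (q2.inter q3)
  have hS : N.real S1 + N.real S2 ≤ far μ H y := by
    rw [← measureReal_union hdisj hS2m, ← ns H y]
    refine measureReal_mono ?_ (measure_ne_top _ _)
    have e : ∀ z : T, H • (c₁ • z.1 + c₂ • z.2.1 + z.2.2) =
        (c₁ * H) • z.1 + (c₂ * H) • z.2.1 + H • z.2.2 := by
      intro z
      have hcs : ∀ (c : ℤ) (x : UnitAddCircle), (c * H) • x = H • (c • x) := by
        intro c x; rw [mul_comm, mul_smul]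
      rw [hcs, hcs, smul_add, smul_add]
    rintro z (⟨a1, a2, a3⟩ | ⟨a1, a2, a3⟩)
    · change y < ‖H • (c₁ • z.1 + c₂ • z.2.1 + z.2.2)‖
      rw [e]
      have h1 : ‖(c₁ * H) • z.1‖ ≤ ‖(c₁ * H) • z.1 + (c₂ * H) • z.2.1 + H • z.2.2‖ +
          ‖(c₂ * H) • z.2.1‖ + ‖H • z.2.2‖ := by
        have h2 := norm_sub_le ((c₁ * H) • z.1 + (c₂ * H) • z.2.1 + H • z.2.2 -
          (c₂ * H) • z.2.1) (H • z.2.2)
        have h3 := norm_sub_le ((c₁ * H) • z.1 + (c₂ * H) • z.2.1 + H • z.2.2)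
          ((c₂ * H) • z.2.1)
        have h4 : (c₁ * H) • z.1 + (c₂ * H) • z.2.1 + H • z.2.2 - (c₂ * H) • z.2.1 -
          H • z.2.2 = (c₁ * H) • z.1 := by abel
        rw [h4] at h2
        linarith
      linarith
    · change y < ‖H • (c₁ • z.1 + c₂ • z.2.1 + z.2.2)‖
      rw [e]
      have h1 : ‖(c₂ * H) • z.2.1‖ ≤ ‖(c₁ * H) • z.1 + (c₂ * H) • z.2.1 + H • z.2.2‖ +
          ‖(c₁ * H) • z.1‖ + ‖H • z.2.2‖ := by
        have h2 := norm_sub_le ((c₁ * H) • z.1 + (c₂ * H) • z.2.1 + H • z.2.2 -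
          (c₁ * H) • z.1) (H • z.2.2)
        have h3 := norm_sub_le ((c₁ * H) • z.1 + (c₂ * H) • z.2.1 + H • z.2.2)
          ((c₁ * H) • z.1)
        have h4 : (c₁ * H) • z.1 + (c₂ * H) • z.2.1 + H • z.2.2 - (c₁ * H) • z.1 -
          H • z.2.2 = (c₂ * H) • z.2.1 := by abel
        rw [h4] at h2
        linarith
      linarith
  nlinarith

end Pool.Agent.Zk32
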