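import Mathlib

set_option autoImplicit false

open MeasureTheory Filter Topology Set
open scoped ENNReal

namespace Pool.Agent.Zk32

set_option linter.unusedSectionVars false

variable {X : Type*} [MeasurableSpace X]

/-- the strictly invariant version of a set -/
def inv (f g : X → X) (A : Set X) : Set X :=
  {x | ∃ k : ℕ, ∀ a b : ℕ, k ≤ a → k ≤ b → f^[a] (g^[b] x) ∈ A}

lemma inv_eq (f g : X → X) (A : Set X) :
    inv f g A = ⋃ k : ℕ, ⋂ a : ℕ, ⋂ b : ℕ, ⋂ (_ : k ≤ a), ⋂ (_ : k ≤ b),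
      (fun x => f^[a] (g^[b] x)) ⁻¹' A := by
  ext x
  simp [inv]

lemma inv_meas {f g : X → X} (hf : Measurable f) (hg : Measurable g) {A : Set X}
    (hA : MeasurableSet A) : MeasurableSet (inv f g A) := by
  rw [inv_eq]
  refine MeasurableSet.iUnion fun k => MeasurableSet.iInter fun a => MeasurableSet.iInter fun b =>
    MeasurableSet.iInter fun _ => MeasurableSet.iInter fun _ => ?_
  exact ((hf.iterate a).comp (hg.iterate b)) hA

lemma iter_comm {f g : X → X} (h : ∀ x, f (g x) = g (f x)) (a b : ℕ) (x : X) :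
    f^[a] (g^[b] x) = g^[b] (f^[a] x) := by
  have h' : Function.Commute f g := h
  exact (h'.iterate_iterate a b) x

lemma inv_f {f g : X → X} (h : ∀ x, f (g x) = g (f x)) (A : Set X) :
    f ⁻¹' (inv f g A) = inv f g A := by
  ext x
  simp only [inv, Set.mem_preimage, Set.mem_ofPred_eq]
  have e : ∀ a b : ℕ, f^[a] (g^[b] (f x)) = f^[a + 1] (g^[b] x) := by
    intro a b
    rw [iter_comm h, ← Function.iterate_succ_apply, ← iter_comm h]
  constructor
  · rintro ⟨k, hk⟩
    refine ⟨k + 1, fun a b ha hb => ?_⟩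
    obtain ⟨a', rfl⟩ : ∃ a', a = a' + 1 := ⟨a - 1, by omega⟩
    rw [← e]
    exact hk a' b (by omega) (by omega)
  · rintro ⟨k, hk⟩
    refine ⟨k, fun a b ha hb => ?_⟩
    rw [e]
    exact hk (a + 1) b (by omega) hb

lemma inv_g {f g : X → X} (A : Set X) :
    g ⁻¹' (inv f g A) = inv f g A := by
  ext x
  simp only [inv, Set.mem_preimage, Set.mem_ofPred_eq]
  have e : ∀ a b : ℕ, f^[a] (g^[b] (g x)) = f^[a] (g^[b + 1] x) := by
    intro a b
    rw [Function.iterate_succ_apply]
  constructor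
  · rintro ⟨k, hk⟩
    refine ⟨k + 1, fun a b ha hb => ?_⟩
    obtain ⟨b', rfl⟩ : ∃ b', b = b' + 1 := ⟨b - 1, by omega⟩
    rw [← e]
    exact hk a b' (by omega) (by omega)
  · rintro ⟨k, hk⟩
    refine ⟨k, fun a b ha hb => ?_⟩
    rw [e]
    exact hk a (b + 1) ha (by omega)

lemma mp_iter {f g : X → X} {μ : Measure X} (hf : MeasurePreserving f μ μ)
    (hg : MeasurePreserving g μ μ) (a b : ℕ) :
    MeasurePreserving (fun x => f^[a] (g^[b] x)) μ μ :=
  (hf.iterate a).comp (hg.iterate b)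

/-- joint ergodicity of two maps -/
def JE (f g : X → X) (μ : Measure X) : Prop :=
  ∀ E : Set X, MeasurableSet E → f ⁻¹' E = E → g ⁻¹' E = E → μ E = 0 ∨ μ E = 1

lemma inv_ae {f g : X → X} {μ : Measure X} (hf : MeasurePreserving f μ μ)
    (hg : MeasurePreserving g μ μ) {A : Set X}
    (h1 : f ⁻¹' A =ᵐ[μ] A) (h2 : g ⁻¹' A =ᵐ[μ] A) : inv f g A =ᵐ[μ] A := by
  have hfa : ∀ a : ℕ, (f^[a]) ⁻¹' A =ᵐ[μ] A := by
    intro a
    exact hf.quasiMeasurePreserving.preimage_iterate_ae_eq a h1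
  have hgb : ∀ b : ℕ, (g^[b]) ⁻¹' A =ᵐ[μ] A := by
    intro b
    exact hg.quasiMeasurePreserving.preimage_iterate_ae_eq b h2
  have hab : ∀ a b : ℕ, (fun x => f^[a] (g^[b] x)) ⁻¹' A =ᵐ[μ] A := by
    intro a b
    have e : (fun x => f^[a] (g^[b] x)) ⁻¹' A = (g^[b]) ⁻¹' ((f^[a]) ⁻¹' A) := rfl
    rw [e]
    exact ((hg.iterate b).quasiMeasurePreserving.preimage_ae_eq (hfa a)).trans (hgb b)
  have hall : ∀ᵐ x ∂μ, ∀ a b : ℕ, (f^[a] (g^[b] x) ∈ A ↔ x ∈ A) := by
    rw [ae_all_iff]; intro a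
    rw [ae_all_iff]; intro b
    exact (hab a b).mem_iff
  filter_upwards [hall] with x hx
  apply propext
  constructor
  · rintro ⟨k, hk⟩
    exact (hx k k).mp (hk k k le_rfl le_rfl)
  · intro h
    exact ⟨0, fun a b _ _ => (hx a b).mpr h⟩

lemma JE.ae {f g : X → X} {μ : Measure X} (hJ : JE f g μ)
    (hc : ∀ x, f (g x) = g (f x)) (hf : MeasurePreserving f μ μ)
    (hg : MeasurePreserving g μ μ) {A : Set X} (hA : MeasurableSet A)
    (h1 : f ⁻¹' A =ᵐ[μ] A) (h2 : g ⁻¹' A =ᵐ[μ] A) : μ A = 0 ∨ μ A = 1 := by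
  have h3 := inv_ae hf hg h1 h2
  rw [← measure_congr h3]
  exact hJ _ (inv_meas hf.measurable hg.measurable hA) (inv_f hc A) (inv_g A)

lemma JE.const {f g : X → X} {μ : Measure X} [IsProbabilityMeasure μ] (hJ : JE f g μ)
    (hc : ∀ x, f (g x) = g (f x)) (hf : MeasurePreserving f μ μ)
    (hg : MeasurePreserving g μ μ) {h : X → ℝ≥0∞} (hm : Measurable h)
    (h1 : h ∘ f =ᵐ[μ] h) (h2 : h ∘ g =ᵐ[μ] h) : ∃ c, h =ᵐ[μ] Function.const X c := by
  refine exists_eventuallyEq_const_of_forall_separating MeasurableSet fun U hU => ?_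
  have hA : MeasurableSet (h ⁻¹' U) := hm hU
  have e1 : f ⁻¹' (h ⁻¹' U) =ᵐ[μ] h ⁻¹' U := by
    filter_upwards [h1] with x hx
    apply propext
    change h (f x) ∈ U ↔ h x ∈ U
    rw [show h (f x) = h x from hx]
  have e2 : g ⁻¹' (h ⁻¹' U) =ᵐ[μ] h ⁻¹' U := by
    filter_upwards [h2] with x hx
    apply propext
    change h (g x) ∈ U ↔ h x ∈ U
    rw [show h (g x) = h x from hx]
  rcases hJ.ae hc hf hg hA e1 e2 with h0 | h0
  · right
    rw [ae_iff]
    refine measure_mono_null (fun a ha => ?_) h0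
    exact not_not.mp ha
  · left
    have := (prob_compl_eq_zero_iff hA).mpr h0
    rw [ae_iff]
    exact this

/-- an invariant measure absolutely continuous with respect to a jointly ergodic one is a
multiple of it -/
lemma JE.eq_smul {f g : X → X} {μ : Measure X} [IsProbabilityMeasure μ] (hJ : JE f g μ)
    (hc : ∀ x, f (g x) = g (f x)) (hf : MeasurePreserving f μ μ)
    (hg : MeasurePreserving g μ μ) {ν : Measure X} [IsFiniteMeasure ν]
    (hνf : MeasurePreserving f ν ν) (hνg : MeasurePreserving g ν ν) (hac : ν ≪ μ) :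
    ν = ν Set.univ • μ := by
  have h1 := hνf.rnDeriv_comp_aeEq hf
  have h2 := hνg.rnDeriv_comp_aeEq hg
  obtain ⟨c, hcc⟩ := hJ.const hc hf hg (Measure.measurable_rnDeriv ν μ) h1 h2
  have e : ν = c • μ := by
    ext s hs
    calc
      ν s = ∫⁻ a in s, ν.rnDeriv μ a ∂μ := .symm <| Measure.setLIntegral_rnDeriv hac _
      _ = ∫⁻ _ in s, c ∂μ := lintegral_congr_ae <| hcc.filter_mono <|
        ae_mono Measure.restrict_le_self
      _ = (c • μ) s := by simp
  have e2 : ν Set.univ = c := by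
    rw [e]; simp
  rw [e2]; exact e

lemma JE.eq {f g : X → X} {μ : Measure X} [IsProbabilityMeasure μ] (hJ : JE f g μ)
    (hc : ∀ x, f (g x) = g (f x)) (hf : MeasurePreserving f μ μ)
    (hg : MeasurePreserving g μ μ) {ν : Measure X} [IsProbabilityMeasure ν]
    (hνf : MeasurePreserving f ν ν) (hνg : MeasurePreserving g ν ν) (hac : ν ≪ μ) :
    ν = μ := by
  have := hJ.eq_smul hc hf hg hνf hνg hac
  rw [measure_univ, one_smul] at this
  exact this

/-- the dichotomy: an invariant measure which is not singular to a jointly ergodic one contains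
a multiple of it, cut out by a strictly invariant set -/
theorem JE.dichotomy {f g : X → X} {μ : Measure X} [IsProbabilityMeasure μ] (hJ : JE f g μ)
    (hc : ∀ x, f (g x) = g (f x)) (hf : MeasurePreserving f μ μ)
    (hg : MeasurePreserving g μ μ) {ν : Measure X} [IsFiniteMeasure ν]
    (hνf : MeasurePreserving f ν ν) (hνg : MeasurePreserving g ν ν) (hs : ¬ μ.MutuallySingular ν) :
    ∃ A : Set X, MeasurableSet A ∧ f ⁻¹' A = A ∧ g ⁻¹' A = A ∧ μ Aᶜ = 0 ∧
      ν A ≠ 0 ∧ ν.restrict A = ν A • μ := by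
  obtain ⟨N, hN, hN1, hN2⟩ := Measure.mutuallySingular_singularPart ν μ
  set σ := ν.singularPart μ with hσ
  set τ := μ.withDensity (ν.rnDeriv μ) with hτ
  have hdec : ν = σ + τ := Measure.haveLebesgueDecomposition_add ν μ
  have hτμ : τ ≪ μ := withDensity_absolutelyContinuous _ _
  have hστ : ∀ B, ν B = σ B + τ B := fun B => by
    conv_lhs => rw [hdec]
    rfl
  have key : ∀ a b : ℕ, σ ((fun x => f^[a] (g^[b] x)) ⁻¹' N) = 0 ∧
      μ ((fun x => f^[a] (g^[b] x)) ⁻¹' N)ᶜ = 0 := by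
    intro a b
    set u : X → X := fun x => f^[a] (g^[b] x) with hu
    have hmu : MeasurePreserving u μ μ := mp_iter hf hg a b
    have hnu : MeasurePreserving u ν ν := mp_iter hνf hνg a b
    have h2 : μ (u ⁻¹' N)ᶜ = 0 := by
      rw [← Set.preimage_compl, hmu.measure_preimage hN.compl.nullMeasurableSet]
      exact hN2
    refine ⟨?_, h2⟩
    have e1 : ν (u ⁻¹' N) = ν N := hnu.measure_preimage hN.nullMeasurableSet
    have e2 : τ N = τ Set.univ := by
      rw [← measure_add_measure_compl hN, hτμ hN2, add_zero]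
    have huN : MeasurableSet (u ⁻¹' N) := hmu.measurable hN
    have e3 : τ (u ⁻¹' N) = τ Set.univ := by
      rw [← measure_add_measure_compl huN, hτμ h2, add_zero]
    rw [hστ, hστ, hN1, zero_add, e2, e3] at e1
    have hfin : τ Set.univ ≠ ∞ := by
      have : τ Set.univ ≤ ν Set.univ := by rw [hστ Set.univ]; exact le_add_self
      exact ne_top_of_le_ne_top (measure_ne_top ν _) this
    have : σ (u ⁻¹' N) + τ Set.univ = 0 + τ Set.univ := by rw [e1, zero_add]
    exact (ENNReal.add_left_inj hfin).mp this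
  set A := inv f g N with hA
  have hAm : MeasurableSet A := inv_meas hf.measurable hg.measurable hN
  have hσA : σ A = 0 := by
    refine measure_mono_null (t := ⋃ a : ℕ, ⋃ b : ℕ, (fun x => f^[a] (g^[b] x)) ⁻¹' N) ?_ ?_
    · rintro x ⟨k, hk⟩
      simp only [Set.mem_iUnion]
      exact ⟨k, k, hk k k le_rfl le_rfl⟩
    · simp only [measure_iUnion_null_iff]
      exact fun a b => (key a b).1
  have hμA : μ Aᶜ = 0 := by
    refine measure_mono_null (t := ⋃ a : ℕ, ⋃ b : ℕ, ((fun x => f^[a] (g^[b] x)) ⁻¹' N)ᶜ) ?_ ?_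
    · intro x hx
      by_contra hcon
      apply hx
      simp only [Set.mem_iUnion, not_exists, Set.mem_compl_iff, not_not] at hcon
      exact ⟨0, fun a b _ _ => hcon a b⟩
    · simp only [measure_iUnion_null_iff]
      exact fun a b => (key a b).2
  have hfA : f ⁻¹' A = A := inv_f hc N
  have hgA : g ⁻¹' A = A := inv_g N
  have hac : ν.restrict A ≪ μ := by
    intro B hB
    rw [← nonpos_iff_eq_zero]
    obtain ⟨B', hBB', hB'm, hB'0⟩ := exists_measurable_superset_of_null hB
    calc ν.restrict A B ≤ ν.restrict A B' := measure_mono hBB'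
      _ = ν (B' ∩ A) := Measure.restrict_apply hB'm
      _ = σ (B' ∩ A) + τ (B' ∩ A) := hστ _
      _ ≤ σ A + τ B' := add_le_add (measure_mono Set.inter_subset_right)
          (measure_mono Set.inter_subset_left)
      _ = 0 := by rw [hσA, hτμ hB'0, add_zero]
  refine ⟨A, hAm, hfA, hgA, hμA, ?_, ?_⟩
  · intro h0
    apply hs
    exact ⟨Aᶜ, hAm.compl, hμA, by rw [compl_compl]; exact h0⟩
  · have hrf : MeasurePreserving f (ν.restrict A) (ν.restrict A) := by
      have := hνf.restrict_preimage hAm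
      rwa [hfA] at this
    have hrg : MeasurePreserving g (ν.restrict A) (ν.restrict A) := by
      have := hνg.restrict_preimage hAm
      rwa [hgA] at this
    have := hJ.eq_smul hc hf hg hrf hrg hac
    rw [Measure.restrict_apply_univ] at this
    exact this

end Pool.Agent.Zk32
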