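import Mathlib
import Pool.Agent.Zk32.Erg2

set_option autoImplicit false

open MeasureTheory Filter Topology Set
open scoped ENNReal

namespace Pool.Agent.Zk32

variable {X : Type*} [MeasurableSpace X]

/-- the joining produced by a non-singular relation -/
theorem joining {f g : X → X} (hc : ∀ x, f (g x) = g (f x)) {μ ω : Measure X}
    [IsProbabilityMeasure μ] [IsProbabilityMeasure ω] (hJ : JE f g μ)
    (hf : MeasurePreserving f μ μ) (hg : MeasurePreserving g μ μ)
    (hωf : MeasurePreserving f ω ω) (hωg : MeasurePreserving g ω ω)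
    {s : X × X × X → X} (hs : Measurable s)
    (hsf : ∀ z : X × X × X, s (f z.1, f z.2.1, f z.2.2) = f (s z))
    (hsg : ∀ z : X × X × X, s (g z.1, g z.2.1, g z.2.2) = g (s z))
    (hns : ¬ μ.MutuallySingular ((μ.prod (μ.prod ω)).map s)) :
    ∃ N : Measure (X × X × X), IsProbabilityMeasure N ∧ N ≪ μ.prod (μ.prod ω) ∧
      MeasurePreserving s N μ ∧ MeasurePreserving (fun z => z.1) N μ ∧
      MeasurePreserving (fun z => z.2.1) N μ ∧
      ∃ C : ℝ, 0 < C ∧
        (∀ B B' : Set X, MeasurableSet B → MeasurableSet B' →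
          N.real {z | z.1 ∈ B ∧ z.2.1 ∈ B'} ≤ C * (μ.real B * μ.real B')) ∧
        (∀ B B' : Set X, MeasurableSet B → MeasurableSet B' →
          N.real {z | z.1 ∈ B ∧ z.2.2 ∈ B'} ≤ C * (μ.real B * N.real {z | z.2.2 ∈ B'})) ∧
        (∀ B B' : Set X, MeasurableSet B → MeasurableSet B' →
          N.real {z | z.2.1 ∈ B ∧ z.2.2 ∈ B'} ≤ C * (μ.real B * N.real {z | z.2.2 ∈ B'})) := by
  set M := μ.prod (μ.prod ω) with hM
  set F : X × X × X → X × X × X := fun z => (f z.1, f z.2.1, f z.2.2) with hF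
  set G : X × X × X → X × X × X := fun z => (g z.1, g z.2.1, g z.2.2) with hG
  have hMF : MeasurePreserving F M M := hf.prod (hf.prod hωf)
  have hMG : MeasurePreserving G M M := hg.prod (hg.prod hωg)
  have m1 : Measurable (fun z : X × X × X => z.1) := measurable_fst
  have m2 : Measurable (fun z : X × X × X => z.2.1) := measurable_fst.comp measurable_snd
  have m3 : Measurable (fun z : X × X × X => z.2.2) := measurable_snd.comp measurable_snd
  have hM1 : M.map (fun z => z.1) = μ := by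
    have := (measurePreserving_fst (μ := μ) (ν := μ.prod ω)).map_eq
    exact this
  have hM23 : M.map (fun z => z.2) = μ.prod ω := by
    exact (measurePreserving_snd (μ := μ) (ν := μ.prod ω)).map_eq
  have hM2 : M.map (fun z => z.2.1) = μ := by
    have h1 := (measurePreserving_snd (μ := μ) (ν := μ.prod ω))
    have h2 := (measurePreserving_fst (μ := μ) (ν := ω))
    exact (h2.comp h1).map_eq
  have hM3 : M.map (fun z => z.2.2) = ω := by
    have h1 := (measurePreserving_snd (μ := μ) (ν := μ.prod ω))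
    have h2 := (measurePreserving_snd (μ := μ) (ν := ω))
    exact (h2.comp h1).map_eq
  set ν := M.map s with hν
  have hMs : MeasurePreserving s M ν := hs.measurePreserving M
  have : IsFiniteMeasure ν := by rw [hν]; infer_instance
  have hνf : MeasurePreserving f ν ν := hMs.of_semiconj hMF hsf hf.measurable
  have hνg : MeasurePreserving g ν ν := hMs.of_semiconj hMG hsg hg.measurable
  obtain ⟨A, hA, hfA, hgA, hμA, hη, hres⟩ := hJ.dichotomy hc hf hg hνf hνg hns
  set K1 := M.restrict (s ⁻¹' A) with hK1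
  have hK1s : K1.map s = ν A • μ := by
    rw [hK1, ← Measure.restrict_map hs hA]; exact hres
  have hK1M : K1 ≤ M := Measure.restrict_le_self
  have hK1F : MeasurePreserving F K1 K1 := by
    have := hMF.restrict_preimage (hs hA)
    have e : F ⁻¹' (s ⁻¹' A) = s ⁻¹' A := by
      ext z
      change s (F z) ∈ A ↔ s z ∈ A
      rw [show s (F z) = f (s z) from hsf z]
      change s z ∈ f ⁻¹' A ↔ _
      rw [hfA]
    rwa [e] at this
  have hK1G : MeasurePreserving G K1 K1 := by
    have := hMG.restrict_preimage (hs hA)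
    have e : G ⁻¹' (s ⁻¹' A) = s ⁻¹' A := by
      ext z
      change s (G z) ∈ A ↔ s z ∈ A
      rw [show s (G z) = g (s z) from hsg z]
      change s z ∈ g ⁻¹' A ↔ _
      rw [hgA]
    rwa [e] at this
  set ω1 := K1.map (fun z => z.2.2) with hω1
  have hω1ω : ω1 ≤ ω := by
    rw [hω1, ← hM3]
    exact Measure.map_mono hK1M m3
  have : IsFiniteMeasure ω1 := by rw [hω1]; infer_instance
  have hω1ac : ω1 ≪ ω := hω1ω.absolutelyContinuous
  have hω1f : MeasurePreserving f ω1 ω1 :=
    (m3.measurePreserving K1).of_semiconj hK1F (fun _ => rfl) hf.measurable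
  have hω1g : MeasurePreserving g ω1 ω1 :=
    (m3.measurePreserving K1).of_semiconj hK1G (fun _ => rfl) hg.measurable
  set h := ω1.rnDeriv ω with hh
  have hhm : Measurable h := Measure.measurable_rnDeriv _ _
  have hhf := hω1f.rnDeriv_comp_aeEq hωf
  have hhg := hω1g.rnDeriv_comp_aeEq hωg
  have hset : ∀ B : Set X, MeasurableSet B → ∫⁻ x in B, h x ∂ω = ω1 B := fun B _ =>
    Measure.setLIntegral_rnDeriv hω1ac _
  have hmass : ω1 Set.univ = ν A := by
    rw [hω1, Measure.map_apply m3 MeasurableSet.univ, Set.preimage_univ]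
    rw [hK1, Measure.restrict_apply_univ, hν, Measure.map_apply hs hA]
  -- the level
  obtain ⟨n, hn⟩ : ∃ n : ℕ, ω1 {x | ((n : ℝ≥0∞) + 1)⁻¹ ≤ h x} ≠ 0 := by
    by_contra hcon
    push Not at hcon
    apply hη
    rw [← hmass]
    have h0 : ω1 {x | h x = 0} = 0 := by
      have hm0 : MeasurableSet {x | h x = 0} := hhm (measurableSet_singleton 0)
      rw [← hset _ hm0]
      rw [setLIntegral_congr_fun hm0 (g := fun _ => 0) (fun x hx => hx)]
      simp
    refine measure_mono_null (t := {x | h x = 0} ∪ ⋃ n : ℕ, {x | ((n : ℝ≥0∞) + 1)⁻¹ ≤ h x}) ?_ ?_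
    · intro x _
      by_cases hx : h x = 0
      · left; exact hx
      · right
        obtain ⟨n, hn⟩ := ENNReal.exists_inv_nat_lt hx
        rw [Set.mem_iUnion]
        refine ⟨n, ?_⟩
        change ((n : ℝ≥0∞) + 1)⁻¹ ≤ h x
        refine le_trans ?_ hn.le
        exact ENNReal.inv_le_inv.mpr (le_add_right le_rfl)
    · rw [measure_union_null_iff]
      exact ⟨h0, by rw [measure_iUnion_null_iff]; exact hcon⟩
  set κ : ℝ≥0∞ := ((n : ℝ≥0∞) + 1)⁻¹ with hκ
  have hκ0 : κ ≠ 0 := by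
    rw [hκ]; exact ENNReal.inv_ne_zero.mpr (by finiteness)
  have hκt : κ ≠ ∞ := by
    rw [hκ]; exact ENNReal.inv_ne_top.mpr (by simp)
  set W0 : Set X := {x | κ ≤ h x} with hW0
  have hW0m : MeasurableSet W0 := measurableSet_le measurable_const hhm
  have e1 : f ⁻¹' W0 =ᵐ[ω] W0 := by
    filter_upwards [hhf] with x hx
    apply propext
    change κ ≤ h (f x) ↔ κ ≤ h x
    rw [show h (f x) = h x from hx]
  have e2 : g ⁻¹' W0 =ᵐ[ω] W0 := by
    filter_upwards [hhg] with x hx
    apply propext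
    change κ ≤ h (g x) ↔ κ ≤ h x
    rw [show h (g x) = h x from hx]
  set W := inv f g W0 with hW
  have hWm : MeasurableSet W := inv_meas hf.measurable hg.measurable hW0m
  have hWW : W =ᵐ[ω] W0 := inv_ae hωf hωg e1 e2
  have hfW : f ⁻¹' W = W := inv_f hc W0
  have hgW : g ⁻¹' W = W := inv_g W0
  have hθ : ω1 W ≠ 0 := by
    rw [measure_congr (hω1ac.ae_eq hWW)]
    exact hn
  have hθt : ω1 W ≠ ∞ := measure_ne_top _ _
  set θ := ω1 W with hθd
  set K2 := K1.restrict ((fun z : X × X × X => z.2.2) ⁻¹' W) with hK2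
  have hK2M : K2 ≤ M := Measure.restrict_le_self.trans hK1M
  have hK2K : K2 ≤ K1 := Measure.restrict_le_self
  have hK2F : MeasurePreserving F K2 K2 := by
    have := hK1F.restrict_preimage (m3 hWm)
    have e : F ⁻¹' ((fun z : X × X × X => z.2.2) ⁻¹' W) = (fun z : X × X × X => z.2.2) ⁻¹' W := by
      ext z
      change z.2.2 ∈ f ⁻¹' W ↔ _
      rw [hfW]; rfl
    rwa [e] at this
  have hK2G : MeasurePreserving G K2 K2 := by
    have := hK1G.restrict_preimage (m3 hWm)
    have e : G ⁻¹' ((fun z : X × X × X => z.2.2) ⁻¹' W) = (fun z : X × X × X => z.2.2) ⁻¹' W := by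
      ext z
      change z.2.2 ∈ g ⁻¹' W ↔ _
      rw [hgW]; rfl
    rwa [e] at this
  have hK2u : K2 Set.univ = θ := by
    rw [hK2, Measure.restrict_apply_univ, hθd, hω1, Measure.map_apply m3 hWm]
  set N := θ⁻¹ • K2 with hN
  have hNp : IsProbabilityMeasure N := by
    constructor
    rw [hN, Measure.smul_apply, hK2u, smul_eq_mul, ENNReal.inv_mul_cancel hθ hθt]
  have hNF : MeasurePreserving F N N := hK2F.smul_measure _
  have hNG : MeasurePreserving G N N := hK2G.smul_measure _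
  have hNac : ∀ {π : X × X × X → X}, Measurable π → K1.map π ≪ μ → N.map π ≪ μ := by
    intro π hπ hac
    rw [hN, Measure.map_smul]
    exact (Measure.smul_absolutelyContinuous).trans
      ((Measure.map_mono hK2K hπ).absolutelyContinuous.trans hac)
  have hmp : ∀ {π : X × X × X → X}, Measurable π → (∀ z, π (F z) = f (π z)) →
      (∀ z, π (G z) = g (π z)) → K1.map π ≪ μ → MeasurePreserving π N μ := by
    intro π hπ hπf hπg hac
    have a1 : MeasurePreserving f (N.map π) (N.map π) :=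
      (hπ.measurePreserving N).of_semiconj hNF hπf hf.measurable
    have a2 : MeasurePreserving g (N.map π) (N.map π) :=
      (hπ.measurePreserving N).of_semiconj hNG hπg hg.measurable
    have : IsProbabilityMeasure (N.map π) := Measure.isProbabilityMeasure_map hπ.aemeasurable
    exact ⟨hπ, hJ.eq hc hf hg a1 a2 (hNac hπ hac)⟩
  -- the inequalities
  have hNle : ∀ B, N B ≤ θ⁻¹ * M B := by
    intro B
    rw [hN, Measure.smul_apply, smul_eq_mul]
    exact mul_le_mul_right (hK2M B) _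
  have hω2 : ∀ B, MeasurableSet B → ω (B ∩ W) ≤ κ⁻¹ * (θ * N {z | z.2.2 ∈ B}) := by
    intro B hB
    have a1 : θ * N {z | z.2.2 ∈ B} = ω1 (B ∩ W) := by
      rw [hN, Measure.smul_apply, smul_eq_mul, ← mul_assoc, ENNReal.mul_inv_cancel hθ hθt, one_mul,
        hω1, Measure.map_apply m3 (hB.inter hWm), hK2]
      exact Measure.restrict_apply (m3 hB)
    rw [a1, ← hset _ (hB.inter hWm)]
    have a2 : ∫⁻ _ in B ∩ W, κ ∂ω ≤ ∫⁻ x in B ∩ W, h x ∂ω := by
      apply lintegral_mono_ae
      have : ∀ᵐ x ∂ω, x ∈ W → κ ≤ h x := by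
        filter_upwards [hWW.mem_iff] with x hx hxW
        exact hx.mp hxW
      filter_upwards [ae_restrict_mem (hB.inter hWm), ae_restrict_of_ae this] with x hx1 hx2
      exact hx2 hx1.2
    rw [setLIntegral_const] at a2
    calc ω (B ∩ W) = κ⁻¹ * (κ * ω (B ∩ W)) := by
          rw [← mul_assoc, ENNReal.inv_mul_cancel hκ0 hκt, one_mul]
      _ ≤ κ⁻¹ * ∫⁻ x in B ∩ W, h x ∂ω := by gcongr
  have hNW : ∀ B, MeasurableSet B → N B ≤ θ⁻¹ * M (B ∩ (fun z : X × X × X => z.2.2) ⁻¹' W) := by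
    intro B hB
    rw [hN, Measure.smul_apply, smul_eq_mul, hK2, Measure.restrict_apply hB]
    exact mul_le_mul_right (hK1M _) _
  have hcan : ∀ x y : ℝ≥0∞, θ⁻¹ * (x * (κ⁻¹ * (θ * y))) = κ⁻¹ * (x * y) := by
    intro x y
    calc θ⁻¹ * (x * (κ⁻¹ * (θ * y))) = (θ⁻¹ * θ) * (κ⁻¹ * (x * y)) := by ring
      _ = κ⁻¹ * (x * y) := by rw [ENNReal.inv_mul_cancel hθ hθt, one_mul]
  set C : ℝ≥0∞ := θ⁻¹ + κ⁻¹ with hC
  have hCt : C ≠ ∞ := by
    rw [hC]; exact ENNReal.add_ne_top.mpr ⟨ENNReal.inv_ne_top.mpr hθ, ENNReal.inv_ne_top.mpr hκ0⟩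
  have hC0 : C ≠ 0 := by
    rw [hC]
    intro h0
    have := (add_eq_zero.mp h0).1
    exact hθt (ENNReal.inv_eq_zero.mp this)
  have r12 : ∀ B B' : Set X, MeasurableSet B → MeasurableSet B' →
      N {z | z.1 ∈ B ∧ z.2.1 ∈ B'} ≤ C * (μ B * μ B') := by
    intro B B' hB hB'
    refine (hNle _).trans ?_
    have : {z : X × X × X | z.1 ∈ B ∧ z.2.1 ∈ B'} = B ×ˢ (B' ×ˢ Set.univ) := by
      ext z; simp
    rw [this, hM, Measure.prod_prod, Measure.prod_prod, measure_univ, mul_one]
    gcongr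
    exact le_self_add
  have r13 : ∀ B B' : Set X, MeasurableSet B → MeasurableSet B' →
      N {z | z.1 ∈ B ∧ z.2.2 ∈ B'} ≤ C * (μ B * N {z | z.2.2 ∈ B'}) := by
    intro B B' hB hB'
    refine (hNW {z : X × X × X | z.1 ∈ B ∧ z.2.2 ∈ B'} ((m1 hB).inter (m3 hB'))).trans ?_
    have : {z : X × X × X | z.1 ∈ B ∧ z.2.2 ∈ B'} ∩ (fun z : X × X × X => z.2.2) ⁻¹' W =
        B ×ˢ (Set.univ ×ˢ (B' ∩ W)) := by
      ext z; simp [and_assoc]
    rw [this, hM, Measure.prod_prod, Measure.prod_prod, measure_univ, one_mul]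
    calc θ⁻¹ * (μ B * ω (B' ∩ W)) ≤ θ⁻¹ * (μ B * (κ⁻¹ * (θ * N {z | z.2.2 ∈ B'}))) := by
          gcongr
          exact hω2 _ hB'
      _ = κ⁻¹ * (μ B * N {z | z.2.2 ∈ B'}) := hcan _ _
      _ ≤ C * (μ B * N {z | z.2.2 ∈ B'}) := by
          gcongr
          exact le_add_self
  have r23 : ∀ B B' : Set X, MeasurableSet B → MeasurableSet B' →
      N {z | z.2.1 ∈ B ∧ z.2.2 ∈ B'} ≤ C * (μ B * N {z | z.2.2 ∈ B'}) := by
    intro B B' hB hB'
    refine (hNW {z : X × X × X | z.2.1 ∈ B ∧ z.2.2 ∈ B'} ((m2 hB).inter (m3 hB'))).trans ?_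
    have : {z : X × X × X | z.2.1 ∈ B ∧ z.2.2 ∈ B'} ∩ (fun z : X × X × X => z.2.2) ⁻¹' W =
        Set.univ ×ˢ (B ×ˢ (B' ∩ W)) := by
      ext z; simp [and_assoc]
    rw [this, hM, Measure.prod_prod, Measure.prod_prod, measure_univ, one_mul]
    calc θ⁻¹ * (μ B * ω (B' ∩ W)) ≤ θ⁻¹ * (μ B * (κ⁻¹ * (θ * N {z | z.2.2 ∈ B'}))) := by
          gcongr
          exact hω2 _ hB'
      _ = κ⁻¹ * (μ B * N {z | z.2.2 ∈ B'}) := hcan _ _
      _ ≤ C * (μ B * N {z | z.2.2 ∈ B'}) := by
          gcongr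
          exact le_add_self
  refine ⟨N, hNp, ?_, hmp hs hsf hsg ?_, hmp m1 (fun _ => rfl) (fun _ => rfl) ?_,
    hmp m2 (fun _ => rfl) (fun _ => rfl) ?_, C.toReal, ENNReal.toReal_pos hC0 hCt, ?_, ?_, ?_⟩
  · exact Measure.smul_absolutelyContinuous.trans hK2M.absolutelyContinuous
  · rw [hK1s]; exact Measure.smul_absolutelyContinuous
  · have := Measure.map_mono hK1M m1
    rw [hM1] at this
    exact this.absolutelyContinuous
  · have := Measure.map_mono hK1M m2
    rw [hM2] at this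
    exact this.absolutelyContinuous
  · intro B B' hB hB'
    simp only [Measure.real]
    rw [← ENNReal.toReal_mul, ← ENNReal.toReal_mul]
    exact ENNReal.toReal_mono (by finiteness) (r12 B B' hB hB')
  · intro B B' hB hB'
    simp only [Measure.real]
    rw [← ENNReal.toReal_mul, ← ENNReal.toReal_mul]
    exact ENNReal.toReal_mono (by finiteness) (r13 B B' hB hB')
  · intro B B' hB hB'
    simp only [Measure.real]
    rw [← ENNReal.toReal_mul, ← ENNReal.toReal_mul]
    exact ENNReal.toReal_mono (by finiteness) (r23 B B' hB hB')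

end Pool.Agent.Zk32
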