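import Mathlib

set_option autoImplicit false

open MeasureTheory Filter Topology Set
open scoped ENNReal

namespace Pool.Agent.Zk32

variable {X Y : Type*} [MeasurableSpace X] [MeasurableSpace Y] {𝕜 : Type*} [RCLike 𝕜]

/-- weak convergence of a bounded sequence of functions along a filter, tested against
integrable functions -/
def WL (𝒰 : Filter ℕ) (μ : Measure X) (f : ℕ → X → 𝕜) (a : X → 𝕜) : Prop :=
  ∀ g : X → 𝕜, Integrable g μ →
    Tendsto (fun i => ∫ x, f i x * g x ∂μ) 𝒰 (𝓝 (∫ x, a x * g x ∂μ))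

lemma int_bdd_mul {μ : Measure X} {f g : X → 𝕜} (hf : Measurable f) (hb : ∀ x, ‖f x‖ ≤ 1)
    (hg : Integrable g μ) : Integrable (fun x => f x * g x) μ :=
  hg.bdd_mul (c := 1) hf.aestronglyMeasurable (Eventually.of_forall hb)

lemma norm_int_bdd {μ : Measure X} {f g : X → 𝕜} (hf : Measurable f) (hb : ∀ x, ‖f x‖ ≤ 1)
    (hg : Integrable g μ) : ‖∫ x, f x * g x ∂μ‖ ≤ ∫ x, ‖g x‖ ∂μ := by
  calc ‖∫ x, f x * g x ∂μ‖ ≤ ∫ x, ‖f x * g x‖ ∂μ := norm_integral_le_integral_norm _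
    _ ≤ ∫ x, ‖g x‖ ∂μ := by
      apply integral_mono (int_bdd_mul hf hb hg).norm hg.norm
      intro x
      simp only [norm_mul]
      have := hb x
      have h2 := norm_nonneg (g x)
      nlinarith

/-- it is enough to test on sets -/
lemma WL.of_sets {𝒰 : Filter ℕ} {μ : Measure X} [IsFiniteMeasure μ] {f : ℕ → X → 𝕜} {a : X → 𝕜}
    (hf : ∀ i, Measurable (f i)) (hfb : ∀ i x, ‖f i x‖ ≤ 1)
    (ha : Measurable a) (hab : ∀ x, ‖a x‖ ≤ 1)
    (h : ∀ S, MeasurableSet S →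
      Tendsto (fun i => ∫ x in S, f i x ∂μ) 𝒰 (𝓝 (∫ x in S, a x ∂μ))) : WL 𝒰 μ f a := by
  intro g hg
  refine Integrable.induction (P := fun g => Tendsto (fun i => ∫ x, f i x * g x ∂μ) 𝒰
    (𝓝 (∫ x, a x * g x ∂μ))) ?_ ?_ ?_ ?_ hg
  · intro c s hs _
    have key : ∀ u : X → 𝕜, ∫ x, u x * s.indicator (fun _ => c) x ∂μ = (∫ x in s, u x ∂μ) * c := by
      intro u
      have e : (fun x => u x * s.indicator (fun _ => c) x) = s.indicator (fun x => u x * c) := by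
        funext x
        by_cases hx : x ∈ s <;> simp [hx]
      rw [e, integral_indicator hs, integral_mul_const]
    simp only [key]
    exact (h s hs).mul_const c
  · intro g1 g2 _ h1 h2 ht1 ht2
    have key : ∀ u : X → 𝕜, Measurable u → (∀ x, ‖u x‖ ≤ 1) →
        ∫ x, u x * (g1 + g2) x ∂μ = (∫ x, u x * g1 x ∂μ) + ∫ x, u x * g2 x ∂μ := by
      intro u hu hub
      rw [← integral_add (int_bdd_mul hu hub h1) (int_bdd_mul hu hub h2)]
      congr 1; funext x; simp [mul_add]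
    simp only [key _ (hf _) (hfb _), key _ ha hab]
    exact ht1.add ht2
  · -- closedness
    rw [← isSeqClosed_iff_isClosed]
    intro G G0 hG hlim
    simp only [Set.mem_ofPred_eq] at hG ⊢
    rw [Metric.tendsto_nhds]
    intro ε hε
    rw [Metric.tendsto_atTop] at hlim
    obtain ⟨n, hn⟩ := hlim (ε / 3) (by positivity)
    have hn := hn n le_rfl
    have hd : ∫ x, ‖G n x - G0 x‖ ∂μ < ε / 3 := by
      rw [dist_eq_norm, L1.norm_eq_integral_norm] at hn
      refine lt_of_le_of_lt (le_of_eq ?_) hn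
      apply integral_congr_ae
      filter_upwards [Lp.coeFn_sub (G n) G0] with x hx
      rw [hx]; rfl
    have key : ∀ u : X → 𝕜, Measurable u → (∀ x, ‖u x‖ ≤ 1) →
        ‖(∫ x, u x * G n x ∂μ) - ∫ x, u x * G0 x ∂μ‖ < ε / 3 := by
      intro u hu hub
      rw [← integral_sub (int_bdd_mul hu hub (L1.integrable_coeFn _))
        (int_bdd_mul hu hub (L1.integrable_coeFn _))]
      have e : (fun x => u x * G n x - u x * G0 x) = fun x => u x * (G n x - G0 x) := by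
        funext x; ring
      rw [e]
      exact lt_of_le_of_lt (norm_int_bdd hu hub
        ((L1.integrable_coeFn _).sub (L1.integrable_coeFn _))) hd
    have h1 := hG n
    rw [Metric.tendsto_nhds] at h1
    filter_upwards [h1 (ε / 3) (by positivity)] with i hi
    have a1 := key _ (hf i) (hfb i)
    have a2 := key _ ha hab
    rw [dist_eq_norm] at hi ⊢
    calc ‖(∫ x, f i x * G0 x ∂μ) - ∫ x, a x * G0 x ∂μ‖
        = ‖-((∫ x, f i x * G n x ∂μ) - ∫ x, f i x * G0 x ∂μ) +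
            ((∫ x, f i x * G n x ∂μ) - ∫ x, a x * G n x ∂μ) +
            ((∫ x, a x * G n x ∂μ) - ∫ x, a x * G0 x ∂μ)‖ := by congr 1; ring
      _ ≤ ‖-((∫ x, f i x * G n x ∂μ) - ∫ x, f i x * G0 x ∂μ)‖ +
            ‖((∫ x, f i x * G n x ∂μ) - ∫ x, a x * G n x ∂μ)‖ +
            ‖((∫ x, a x * G n x ∂μ) - ∫ x, a x * G0 x ∂μ)‖ := norm_add₃_le
      _ < ε := by rw [norm_neg]; linarith
  · intro g1 g2 he _ h1
    have key : ∀ u : X → 𝕜, ∫ x, u x * g1 x ∂μ = ∫ x, u x * g2 x ∂μ := by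
      intro u
      apply integral_congr_ae
      filter_upwards [he] with x hx
      rw [hx]
    simpa only [key] using h1

lemma WL.sets {𝒰 : Filter ℕ} {μ : Measure X} [IsFiniteMeasure μ] {f : ℕ → X → 𝕜} {a : X → 𝕜}
    (h : WL 𝒰 μ f a) {S : Set X} (hS : MeasurableSet S) :
    Tendsto (fun i => ∫ x in S, f i x ∂μ) 𝒰 (𝓝 (∫ x in S, a x ∂μ)) := by
  have h1 := h (S.indicator (fun _ => (1 : 𝕜))) ((integrable_const (1 : 𝕜)).indicator hS)
  have key : ∀ u : X → 𝕜, ∫ x, u x * S.indicator (fun _ => (1 : 𝕜)) x ∂μ = ∫ x in S, u x ∂μ := by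
    intro u
    rw [← integral_indicator hS]
    congr 1; funext x
    by_cases hx : x ∈ S <;> simp [hx]
  simpa only [key] using h1

lemma WL.univ {𝒰 : Filter ℕ} {μ : Measure X} [IsFiniteMeasure μ] {f : ℕ → X → 𝕜} {a : X → 𝕜}
    (h : WL 𝒰 μ f a) : Tendsto (fun i => ∫ x, f i x ∂μ) 𝒰 (𝓝 (∫ x, a x ∂μ)) := by
  have := h.sets MeasurableSet.univ
  simpa using this

/-- composition with a nonsingular map -/
lemma WL.comp {𝒰 : Filter ℕ} {μ : Measure X} [IsFiniteMeasure μ] {f : ℕ → X → 𝕜} {a : X → 𝕜}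
    (h : WL 𝒰 μ f a) (hf : ∀ i, Measurable (f i)) (hfb : ∀ i x, ‖f i x‖ ≤ 1)
    (ha : Measurable a) (hab : ∀ x, ‖a x‖ ≤ 1) {ν : Measure Y} [IsFiniteMeasure ν]
    {π : Y → X} (hπ : Measurable π) (hac : ν.map π ≪ μ) :
    WL 𝒰 ν (fun i y => f i (π y)) (fun y => a (π y)) := by
  refine WL.of_sets (fun i => (hf i).comp hπ) (fun i y => hfb i _) (ha.comp hπ)
    (fun y => hab _) (fun S hS => ?_)
  set ρ : Measure X := (ν.restrict S).map π with hρ
  have hρμ : ρ ≪ μ := (Measure.map_mono Measure.restrict_le_self hπ).absolutelyContinuous.trans hac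
  have key : ∀ u : X → 𝕜, Measurable u → ∫ y in S, u (π y) ∂ν =
      ∫ x, u x * (((ρ.rnDeriv μ x).toReal : ℝ) : 𝕜) ∂μ := by
    intro u hu
    rw [← integral_map (μ := ν.restrict S) hπ.aemeasurable hu.aestronglyMeasurable,
      ← integral_rnDeriv_smul hρμ]
    congr 1; funext x
    rw [RCLike.real_smul_eq_coe_mul, mul_comm]
  simp only [key _ (hf _), key _ ha]
  apply h
  exact (Measure.integrable_toReal_rnDeriv (μ := ρ) (ν := μ)).ofReal

/-- uniqueness of weak limits -/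
lemma WL.unique {𝒰 : Filter ℕ} [NeBot 𝒰] {μ : Measure X} [IsFiniteMeasure μ] {f : ℕ → X → 𝕜}
    {a b : X → 𝕜} (h1 : WL 𝒰 μ f a) (h2 : WL 𝒰 μ f b) (ha : Measurable a) (hb : Measurable b)
    (hab : ∀ x, ‖a x‖ ≤ 1) (hbb : ∀ x, ‖b x‖ ≤ 1) : a =ᵐ[μ] b := by
  have ia : Integrable a μ := Integrable.of_bound ha.aestronglyMeasurable 1
    (Eventually.of_forall hab)
  have ib : Integrable b μ := Integrable.of_bound hb.aestronglyMeasurable 1
    (Eventually.of_forall hbb)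
  refine Integrable.ae_eq_of_forall_setIntegral_eq a b ia ib (fun S hS _ => ?_)
  exact tendsto_nhds_unique (h1.sets hS) (h2.sets hS)

/-- products of independent weakly convergent sequences converge weakly -/
lemma WL.prod {𝒰 : Filter ℕ} {μ : Measure X} [IsFiniteMeasure μ] {ν : Measure Y}
    [IsFiniteMeasure ν] {f : ℕ → X → 𝕜} {a : X → 𝕜} {f' : ℕ → Y → 𝕜} {a' : Y → 𝕜}
    (h : WL 𝒰 μ f a) (h' : WL 𝒰 ν f' a')
    (hf : ∀ i, Measurable (f i)) (hfb : ∀ i x, ‖f i x‖ ≤ 1)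
    (ha : Measurable a) (hab : ∀ x, ‖a x‖ ≤ 1)
    (hf' : ∀ i, Measurable (f' i)) (hfb' : ∀ i x, ‖f' i x‖ ≤ 1)
    (ha' : Measurable a') (hab' : ∀ x, ‖a' x‖ ≤ 1) :
    WL 𝒰 (μ.prod ν) (fun i z => f i z.1 * f' i z.2) (fun z => a z.1 * a' z.2) := by
  set F : ℕ → X × Y → 𝕜 := fun i z => f i z.1 * f' i z.2 with hF
  set A : X × Y → 𝕜 := fun z => a z.1 * a' z.2 with hA
  have mF : ∀ i, Measurable (F i) := fun i =>
    ((hf i).comp measurable_fst).mul ((hf' i).comp measurable_snd)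
  have mA : Measurable A := (ha.comp measurable_fst).mul (ha'.comp measurable_snd)
  have bF : ∀ i z, ‖F i z‖ ≤ 1 := fun i z => by
    simp only [hF, norm_mul]
    exact mul_le_one₀ (hfb _ _) (norm_nonneg _) (hfb' _ _)
  have bA : ∀ z, ‖A z‖ ≤ 1 := fun z => by
    simp only [hA, norm_mul]
    exact mul_le_one₀ (hab _) (norm_nonneg _) (hab' _)
  have iF : ∀ i, Integrable (F i) (μ.prod ν) := fun i =>
    Integrable.of_bound (mF i).aestronglyMeasurable 1 (Eventually.of_forall (bF i))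
  have iA : Integrable A (μ.prod ν) :=
    Integrable.of_bound mA.aestronglyMeasurable 1 (Eventually.of_forall bA)
  refine WL.of_sets mF bF mA bA (fun S hS => ?_)
  have hgen : (inferInstance : MeasurableSpace (X × Y)) = MeasurableSpace.generateFrom
      (image2 (· ×ˢ ·) {s : Set X | MeasurableSet s} {t : Set Y | MeasurableSet t}) :=
    generateFrom_prod.symm
  have hrect : ∀ s t, MeasurableSet s → MeasurableSet t →
      Tendsto (fun i => ∫ z in s ×ˢ t, F i z ∂(μ.prod ν)) 𝒰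
        (𝓝 (∫ z in s ×ˢ t, A z ∂(μ.prod ν))) := by
    intro s t hs ht
    have key : ∀ (u : X → 𝕜) (v : Y → 𝕜), ∫ z in s ×ˢ t, u z.1 * v z.2 ∂(μ.prod ν) =
        (∫ x in s, u x ∂μ) * ∫ y in t, v y ∂ν := by
      intro u v
      exact setIntegral_prod_mul (μ := μ) (ν := ν) u v s t
    simp only [hF, hA, key]
    exact (h.sets hs).mul (h'.sets ht)
  induction S, hS using MeasurableSpace.induction_on_inter hgen isPiSystem_prod with
  | empty => simpa using tendsto_const_nhds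
  | basic t ht =>
    obtain ⟨s, hs, t', ht', rfl⟩ := ht
    exact hrect s t' hs ht'
  | compl t ht ih =>
    have key : ∀ u : X × Y → 𝕜, Integrable u (μ.prod ν) →
        ∫ z in tᶜ, u z ∂(μ.prod ν) = (∫ z, u z ∂(μ.prod ν)) - ∫ z in t, u z ∂(μ.prod ν) := by
      intro u hu
      rw [← integral_add_compl ht hu]; ring
    have huniv := hrect Set.univ Set.univ MeasurableSet.univ MeasurableSet.univ
    simp only [univ_prod_univ, Measure.restrict_univ] at huniv
    simp only [key _ (iF _), key _ iA]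
    exact huniv.sub ih
  | iUnion t hd ht ih =>
    have key : ∀ u : X × Y → 𝕜, Integrable u (μ.prod ν) →
        ∫ z in ⋃ n, t n, u z ∂(μ.prod ν) = ∑' n, ∫ z in t n, u z ∂(μ.prod ν) := by
      intro u hu
      exact integral_iUnion ht hd hu.integrableOn
    simp only [key _ (iF _), key _ iA]
    refine tendsto_tsum_of_dominated_convergence (bound := fun n => (μ.prod ν).real (t n)) ?_ ?_ ?_
    · apply ENNReal.summable_toReal
      rw [← measure_iUnion hd ht]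
      exact measure_ne_top _ _
    · exact ih
    · refine Eventually.of_forall (fun i n => ?_)
      have := norm_setIntegral_le_of_norm_le_const (μ := μ.prod ν) (s := t n) (f := F i) (C := 1)
        (measure_lt_top _ _) (fun z _ => bF i z)
      simpa using this

/-- passing to an absolutely continuous measure -/
lemma WL.ac {𝒰 : Filter ℕ} {μ : Measure X} [IsFiniteMeasure μ] {f : ℕ → X → 𝕜} {a : X → 𝕜}
    (h : WL 𝒰 μ f a) (hf : ∀ i, Measurable (f i)) (hfb : ∀ i x, ‖f i x‖ ≤ 1)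
    (ha : Measurable a) (hab : ∀ x, ‖a x‖ ≤ 1) {ν : Measure X} [IsFiniteMeasure ν]
    (hac : ν ≪ μ) : WL 𝒰 ν f a := by
  have := h.comp (π := fun z => z) (ν := ν) hf hfb ha hab measurable_id (by
    rw [Measure.map_id']; exact hac)
  exact this

/-- three factors -/
lemma WL.prod3 {Z : Type*} [MeasurableSpace Z] {𝒰 : Filter ℕ} {μ : Measure X}
    [IsFiniteMeasure μ] {ν : Measure Y} [IsFiniteMeasure ν] {ω : Measure Z} [IsFiniteMeasure ω]
    {f1 : ℕ → X → 𝕜} {a1 : X → 𝕜} {f2 : ℕ → Y → 𝕜} {a2 : Y → 𝕜} {f3 : ℕ → Z → 𝕜} {a3 : Z → 𝕜}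
    (h1 : WL 𝒰 μ f1 a1) (h2 : WL 𝒰 ν f2 a2) (h3 : WL 𝒰 ω f3 a3)
    (hf1 : ∀ i, Measurable (f1 i)) (hb1 : ∀ i x, ‖f1 i x‖ ≤ 1)
    (ha1 : Measurable a1) (hc1 : ∀ x, ‖a1 x‖ ≤ 1)
    (hf2 : ∀ i, Measurable (f2 i)) (hb2 : ∀ i x, ‖f2 i x‖ ≤ 1)
    (ha2 : Measurable a2) (hc2 : ∀ x, ‖a2 x‖ ≤ 1)
    (hf3 : ∀ i, Measurable (f3 i)) (hb3 : ∀ i x, ‖f3 i x‖ ≤ 1)
    (ha3 : Measurable a3) (hc3 : ∀ x, ‖a3 x‖ ≤ 1)
    {N : Measure (X × Y × Z)} [IsFiniteMeasure N] (hN : N ≪ μ.prod (ν.prod ω)) :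
    WL 𝒰 N (fun i z => f1 i z.1 * (f2 i z.2.1 * f3 i z.2.2))
      (fun z => a1 z.1 * (a2 z.2.1 * a3 z.2.2)) := by
  have h23 := h2.prod h3 hf2 hb2 ha2 hc2 hf3 hb3 ha3 hc3
  have q1 : ∀ i, Measurable (fun z : Y × Z => f2 i z.1 * f3 i z.2) := fun i =>
    ((hf2 i).comp measurable_fst).mul ((hf3 i).comp measurable_snd)
  have q2 : ∀ i (z : Y × Z), ‖f2 i z.1 * f3 i z.2‖ ≤ 1 := by
    intro i z
    rw [norm_mul]; exact mul_le_one₀ (hb2 _ _) (norm_nonneg _) (hb3 _ _)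
  have q3 : Measurable (fun z : Y × Z => a2 z.1 * a3 z.2) :=
    (ha2.comp measurable_fst).mul (ha3.comp measurable_snd)
  have q4 : ∀ z : Y × Z, ‖a2 z.1 * a3 z.2‖ ≤ 1 := by
    intro z
    rw [norm_mul]; exact mul_le_one₀ (hc2 _) (norm_nonneg _) (hc3 _)
  have h123 := h1.prod h23 hf1 hb1 ha1 hc1 q1 q2 q3 q4
  refine h123.ac (fun i => ?_) (fun i z => ?_) ?_ (fun z => ?_) hN
  · exact ((hf1 i).comp measurable_fst).mul ((q1 i).comp measurable_snd)
  · rw [norm_mul]; exact mul_le_one₀ (hb1 _ _) (norm_nonneg _) (q2 _ _)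
  · exact (ha1.comp measurable_fst).mul (q3.comp measurable_snd)
  · rw [norm_mul]; exact mul_le_one₀ (hc1 _) (norm_nonneg _) (q4 _)

end Pool.Agent.Zk32
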