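import Mathlib
import Pool.Agent.Zk32.WL

set_option autoImplicit false

open MeasureTheory Filter Topology Set
open scoped ENNReal

namespace Pool.Agent.Zk32

variable {X : Type*} [MeasurableSpace X] {𝕜 : Type*} [RCLike 𝕜]

/-- existence of weak limits along ultrafilters -/
theorem exists_WL (𝒰 : Ultrafilter ℕ) (μ : Measure X) [IsFiniteMeasure μ] {f : ℕ → X → 𝕜}
    (hf : ∀ i, Measurable (f i)) (hfb : ∀ i x, ‖f i x‖ ≤ 1) :
    ∃ a : X → 𝕜, Measurable a ∧ (∀ x, ‖a x‖ ≤ 1) ∧ WL (𝒰 : Filter ℕ) μ f a := by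
  classical
  have hm : ∀ i, MemLp (fun x => (starRingEnd 𝕜) (f i x)) 2 μ := fun i =>
    MemLp.of_bound (RCLike.continuous_conj.measurable.comp (hf i)).aestronglyMeasurable 1
      (Eventually.of_forall (fun x => by simpa using hfb i x))
  set F : ℕ → Lp 𝕜 2 μ := fun i => (hm i).toLp _ with hF
  set R : ℝ := (μ.real Set.univ) ^ ((2 : ℝ≥0∞).toReal)⁻¹ * 1 with hR
  have hFn : ∀ i, ‖F i‖ ≤ R := by
    intro i
    refine Lp.norm_le_of_ae_bound (by norm_num) ?_
    filter_upwards [(hm i).coeFn_toLp] with x hx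
    rw [hx]
    simpa using hfb i x
  set D : ℕ → WeakDual 𝕜 (Lp 𝕜 2 μ) := fun i =>
    StrongDual.toWeakDual (InnerProductSpace.toDual 𝕜 (Lp 𝕜 2 μ) (F i)) with hD
  have hK := WeakDual.isCompact_closedBall (𝕜 := 𝕜) (E := Lp 𝕜 2 μ) 0 R
  have hmem : ∀ i, D i ∈ (WeakDual.toStrongDual ⁻¹' Metric.closedBall (0 : StrongDual 𝕜 (Lp 𝕜 2 μ)) R) := by
    intro i
    simp only [Set.mem_preimage, Metric.mem_closedBall, dist_zero_right, hD]
    have : WeakDual.toStrongDual (StrongDual.toWeakDual (InnerProductSpace.toDual 𝕜 (Lp 𝕜 2 μ) (F i)))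
      = InnerProductSpace.toDual 𝕜 (Lp 𝕜 2 μ) (F i) := rfl
    rw [this, LinearIsometryEquiv.norm_map]
    exact hFn i
  obtain ⟨L, -, hL⟩ := hK.ultrafilter_le_nhds (𝒰.map D) (by
    rw [le_principal_iff]
    exact Filter.mem_map.mpr (Filter.univ_mem' hmem))
  set A : Lp 𝕜 2 μ := (InnerProductSpace.toDual 𝕜 (Lp 𝕜 2 μ)).symm (WeakDual.toStrongDual L) with hA
  have hlim : ∀ g : Lp 𝕜 2 μ, Tendsto (fun i => inner 𝕜 (F i) g) (𝒰 : Filter ℕ) (𝓝 (inner 𝕜 A g)) := by
    intro g
    have h1 : Tendsto D (𝒰 : Filter ℕ) (𝓝 L) := hL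
    have h2 := ((WeakDual.eval_continuous g).tendsto L).comp h1
    have e1 : L g = inner 𝕜 A g := by
      have : InnerProductSpace.toDual 𝕜 (Lp 𝕜 2 μ) A g = WeakDual.toStrongDual L g := by
        rw [hA, LinearIsometryEquiv.apply_symm_apply]
      rw [InnerProductSpace.toDual_apply_apply] at this
      rw [this]; rfl
    rw [← e1]
    exact h2
  set a0 : X → 𝕜 := fun x => (starRingEnd 𝕜) (A x) with ha0
  have ha0m : AEStronglyMeasurable a0 μ :=
    RCLike.continuous_conj.comp_aestronglyMeasurable (Lp.aestronglyMeasurable A)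
  have hlim2 : ∀ g : X → 𝕜, MemLp g 2 μ →
      Tendsto (fun i => ∫ x, f i x * g x ∂μ) (𝒰 : Filter ℕ) (𝓝 (∫ x, a0 x * g x ∂μ)) := by
    intro g hg
    have h1 := hlim (hg.toLp g)
    have e1 : ∀ i, inner 𝕜 (F i) (hg.toLp g) = ∫ x, f i x * g x ∂μ := by
      intro i
      rw [L2.inner_def]
      apply integral_congr_ae
      filter_upwards [(hm i).coeFn_toLp, hg.coeFn_toLp] with x h1 h2
      rw [h1, h2, RCLike.inner_apply, RCLike.conj_conj, mul_comm]
    have e2 : inner 𝕜 A (hg.toLp g) = ∫ x, a0 x * g x ∂μ := by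
      rw [L2.inner_def]
      apply integral_congr_ae
      filter_upwards [hg.coeFn_toLp] with x h2
      rw [h2, RCLike.inner_apply, mul_comm]
    simp only [e1, e2] at h1
    exact h1
  -- a measurable version
  set a1 : X → 𝕜 := ha0m.mk a0 with ha1
  have ha1m : Measurable a1 := ha0m.stronglyMeasurable_mk.measurable
  have hae : a0 =ᵐ[μ] a1 := ha0m.ae_eq_mk
  -- the bound
  have hbd : ∀ᵐ x ∂μ, ‖a1 x‖ ≤ 1 := by
    set S : Set X := {x | 1 < ‖a1 x‖} with hS
    have hSm : MeasurableSet S := measurableSet_lt measurable_const ha1m.norm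
    set g : X → 𝕜 := S.indicator (fun x => (starRingEnd 𝕜) (a1 x) / (‖a1 x‖ : 𝕜)) with hg
    have hgm : Measurable g := by
      refine Measurable.indicator ?_ hSm
      exact (RCLike.continuous_conj.measurable.comp ha1m).div
        (RCLike.continuous_ofReal.measurable.comp ha1m.norm)
    have hgb : ∀ x, ‖g x‖ ≤ S.indicator (fun _ => (1 : ℝ)) x := by
      intro x
      by_cases hx : x ∈ S
      · rw [hg, Set.indicator_of_mem hx, Set.indicator_of_mem hx, norm_div, RCLike.norm_conj,
          RCLike.norm_ofReal, abs_norm]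
        exact div_self_le_one _
      · rw [hg, Set.indicator_of_notMem hx, Set.indicator_of_notMem hx, norm_zero]
    have hgb1 : ∀ x, ‖g x‖ ≤ 1 := fun x => (hgb x).trans (by
      by_cases hx : x ∈ S <;> simp [hx])
    have hgL : MemLp g 2 μ := MemLp.of_bound hgm.aestronglyMeasurable 1 (Eventually.of_forall hgb1)
    have hgI : Integrable g μ := Integrable.of_bound hgm.aestronglyMeasurable 1
      (Eventually.of_forall hgb1)
    have h1 := (hlim2 g hgL).norm
    have h2 : ∀ i, ‖∫ x, f i x * g x ∂μ‖ ≤ μ.real S := by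
      intro i
      refine (norm_int_bdd (hf i) (hfb i) hgI).trans ?_
      calc ∫ x, ‖g x‖ ∂μ ≤ ∫ x, S.indicator (fun _ => (1 : ℝ)) x ∂μ := by
            apply integral_mono hgI.norm ((integrable_const (1 : ℝ)).indicator hSm)
            exact hgb
        _ = μ.real S := by rw [integral_indicator_const _ hSm]; simp
    have h3 : ‖∫ x, a0 x * g x ∂μ‖ ≤ μ.real S := le_of_tendsto h1 (Eventually.of_forall h2)
    have h4 : ∫ x, a0 x * g x ∂μ = ((∫ x in S, ‖a1 x‖ ∂μ : ℝ) : 𝕜) := by
      rw [← integral_ofReal, ← integral_indicator hSm]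
      apply integral_congr_ae
      filter_upwards [hae] with x hx
      rw [hx]
      by_cases hxS : x ∈ S
      · rw [hg, Set.indicator_of_mem hxS, Set.indicator_of_mem hxS]
        have hpos : (0 : ℝ) < ‖a1 x‖ := lt_trans zero_lt_one hxS
        have hne : ((‖a1 x‖ : ℝ) : 𝕜) ≠ 0 := by exact_mod_cast hpos.ne'
        rw [← mul_div_assoc, RCLike.mul_conj, div_eq_iff hne]
        ring
      · rw [hg, Set.indicator_of_notMem hxS, Set.indicator_of_notMem hxS, mul_zero]
    have ha1I : Integrable a1 μ := by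
      have : MemLp a1 2 μ := by
        have hA2 : MemLp a0 2 μ := by
          refine (Lp.memLp A).of_le ha0m (Eventually.of_forall (fun x => ?_))
          rw [ha0, RCLike.norm_conj]
        exact (memLp_congr_ae hae).mp hA2
      exact this.integrable (by norm_num)
    have h5 : ∫ x in S, (‖a1 x‖ - 1) ∂μ ≤ 0 := by
      rw [integral_sub ha1I.norm.integrableOn (integrable_const _)]
      rw [h4, RCLike.norm_ofReal] at h3
      have := le_abs_self (∫ x in S, ‖a1 x‖ ∂μ)
      simp only [integral_const, MeasurableSet.univ, measureReal_restrict_apply, Set.univ_inter,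
        smul_eq_mul, mul_one]
      linarith
    have h6 : 0 ≤ᵐ[μ.restrict S] fun x => ‖a1 x‖ - 1 := by
      filter_upwards [ae_restrict_mem hSm] with x hx
      simp only [Pi.zero_apply]
      have : 1 < ‖a1 x‖ := hx
      linarith
    have h7 : ∫ x in S, (‖a1 x‖ - 1) ∂μ = 0 :=
      le_antisymm h5 (integral_nonneg_of_ae h6)
    rw [integral_eq_zero_iff_of_nonneg_ae h6
      ((ha1I.norm.sub (integrable_const _)).integrableOn)] at h7
    have h8 : ∀ᵐ x ∂(μ.restrict S), False := by
      filter_upwards [h7, ae_restrict_mem hSm] with x hx hxS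
      simp only [Pi.zero_apply] at hx
      have : 1 < ‖a1 x‖ := hxS
      linarith
    have h9 : μ S = 0 := by
      have := ae_iff.mp h8
      simpa using this
    rw [ae_iff]
    simpa [hS, not_le] using h9
  refine ⟨fun x => if ‖a1 x‖ ≤ 1 then a1 x else 0, ?_, ?_, ?_⟩
  · exact Measurable.ite (measurableSet_le ha1m.norm measurable_const) ha1m measurable_const
  · intro x
    by_cases hx : ‖a1 x‖ ≤ 1
    · simp [hx]
    · simp [hx]
  · refine WL.of_sets hf hfb ?_ ?_ ?_
    · exact Measurable.ite (measurableSet_le ha1m.norm measurable_const) ha1m measurable_const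
    · intro x
      by_cases hx : ‖a1 x‖ ≤ 1
      · simp [hx]
      · simp [hx]
    · intro S hS
      have h1 := hlim2 (S.indicator (fun _ => (1 : 𝕜)))
        (MemLp.indicator hS (memLp_const (1 : 𝕜)))
      have key : ∀ u : X → 𝕜,
          ∫ x, u x * S.indicator (fun _ => (1 : 𝕜)) x ∂μ = ∫ x in S, u x ∂μ := by
        intro u
        rw [← integral_indicator hS]
        congr 1; funext x
        by_cases hx : x ∈ S <;> simp [hx]
      simp only [key] at h1
      have e : ∫ x in S, a0 x ∂μ = ∫ x in S, (if ‖a1 x‖ ≤ 1 then a1 x else 0) ∂μ := by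
        apply integral_congr_ae
        apply ae_restrict_of_ae
        filter_upwards [hae, hbd] with x h1 h2
        rw [h1, if_pos h2]
      rw [← e]
      exact h1

end Pool.Agent.Zk32
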