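import Mathlib
import Pool.Agent.Zk32.WLE
import Pool.Agent.Zk32.Circ
import Pool.Agent.Zk32.Erg2

set_option autoImplicit false

open MeasureTheory Filter Topology Set
open scoped ENNReal

namespace Pool.Agent.Zk32



/-- the relation, at the level of weak limits -/
theorem exists_weak_chars {p : ℕ} {μ ω : Measure UnitAddCircle}
    [IsProbabilityMeasure μ] [IsProbabilityMeasure ω]
    {N : Measure (UnitAddCircle × UnitAddCircle × UnitAddCircle)} [IsProbabilityMeasure N]
    (hNac : N ≪ μ.prod (μ.prod ω)) {c₁ c₂ : ℤ}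
    (hNs : MeasurePreserving (fun z : UnitAddCircle × UnitAddCircle × UnitAddCircle => c₁ • z.1 + c₂ • z.2.1 + z.2.2) N μ)
    (𝒰 : Ultrafilter ℕ) :
    ∃ a : ℤ → UnitAddCircle → ℂ, (∀ k, Measurable (a k)) ∧ (∀ k x, ‖a k x‖ ≤ 1) ∧
      (∀ k, WL (𝒰 : Filter ℕ) μ (fun i x => (fourier (k * (p : ℤ) ^ i) x : ℂ)) (a k)) ∧
      ∀ k, ∀ᵐ z ∂N, ‖a k (c₁ • z.1 + c₂ • z.2.1 + z.2.2)‖ ≤
        ‖a (c₁ * k) z.1‖ * ‖a (c₂ * k) z.2.1‖ := by
  have hex : ∀ k : ℤ, ∃ a : UnitAddCircle → ℂ, Measurable a ∧ (∀ x, ‖a x‖ ≤ 1) ∧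
      WL (𝒰 : Filter ℕ) μ (fun i x => (fourier (k * (p : ℤ) ^ i) x : ℂ)) a := fun k =>
    exists_WL 𝒰 μ (fun i => fou_meas _) (fun i x => (norm_fou _ x).le)
  choose a ha hab hWa using hex
  refine ⟨a, ha, hab, hWa, fun k => ?_⟩
  obtain ⟨b, hb, hbb, hWb⟩ := exists_WL 𝒰 ω
    (f := fun i x => (fourier (k * (p : ℤ) ^ i) x : ℂ)) (fun i => fou_meas _)
    (fun i x => (norm_fou _ x).le)
  have hs := hNs.measurable
  -- the left side
  have h1 : WL (𝒰 : Filter ℕ) N
      (fun i z => (fourier (k * (p : ℤ) ^ i) (c₁ • z.1 + c₂ • z.2.1 + z.2.2) : ℂ))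
      (fun z => a k (c₁ • z.1 + c₂ • z.2.1 + z.2.2)) := by
    refine (hWa k).comp (fun i => fou_meas _) (fun i x => (norm_fou _ x).le) (ha k) (hab k) hs ?_
    rw [hNs.map_eq]
  -- the right side
  have m1 : Measurable (fun z : UnitAddCircle × UnitAddCircle × UnitAddCircle => z.1) :=
    measurable_fst
  have m2 : Measurable (fun z : UnitAddCircle × UnitAddCircle × UnitAddCircle => z.2.1) :=
    measurable_fst.comp measurable_snd
  have m3 : Measurable (fun z : UnitAddCircle × UnitAddCircle × UnitAddCircle => z.2.2) :=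
    measurable_snd.comp measurable_snd
  have mR : Measurable (fun z : UnitAddCircle × UnitAddCircle × UnitAddCircle =>
      a (c₁ * k) z.1 * (a (c₂ * k) z.2.1 * b z.2.2)) :=
    ((ha _).comp m1).mul (((ha _).comp m2).mul (hb.comp m3))
  have bR : ∀ z : UnitAddCircle × UnitAddCircle × UnitAddCircle,
      ‖a (c₁ * k) z.1 * (a (c₂ * k) z.2.1 * b z.2.2)‖ ≤ 1 := by
    intro z
    rw [norm_mul, norm_mul]
    exact mul_le_one₀ (hab _ _) (by positivity) (mul_le_one₀ (hab _ _) (norm_nonneg _) (hbb _))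
  have h4 := WL.prod3 (hWa (c₁ * k)) (hWa (c₂ * k)) hWb
    (fun i => fou_meas _) (fun i x => (norm_fou _ x).le) (ha (c₁ * k)) (hab (c₁ * k))
    (fun i => fou_meas _) (fun i x => (norm_fou _ x).le) (ha (c₂ * k)) (hab (c₂ * k))
    (fun i => fou_meas _) (fun i x => (norm_fou _ x).le) hb hbb hNac
  have e : (fun (i : ℕ) (z : UnitAddCircle × UnitAddCircle × UnitAddCircle) =>
        (fourier (k * (p : ℤ) ^ i) (c₁ • z.1 + c₂ • z.2.1 + z.2.2) : ℂ)) =
      (fun i z => (fourier (c₁ * k * (p : ℤ) ^ i) z.1 : ℂ) *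
        ((fourier (c₂ * k * (p : ℤ) ^ i) z.2.1 : ℂ) * fourier (k * (p : ℤ) ^ i) z.2.2)) := by
    funext i z
    rw [fou_add', fou_add', fou_smul, fou_smul, mul_assoc, ← mul_assoc c₁, ← mul_assoc c₂]
  rw [e] at h1
  have h5 := h1.unique h4 ((ha k).comp hs) mR (fun z => hab _ _) bR
  filter_upwards [h5] with z hz
  rw [hz, norm_mul, norm_mul, ← mul_assoc]
  have h6 := hbb z.2.2
  have h7 : 0 ≤ ‖a (c₁ * k) z.1‖ * ‖a (c₂ * k) z.2.1‖ := by positivity
  nlinarith

/-- a set on which characters are almost periodic -/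
theorem exists_rigid_set {p : ℕ} (hp : 2 ≤ p) {μ ω : Measure UnitAddCircle}
    [IsProbabilityMeasure μ] [IsProbabilityMeasure ω]
    (hμp : MeasurePreserving (fun x : UnitAddCircle => p • x) μ μ)
    {N : Measure (UnitAddCircle × UnitAddCircle × UnitAddCircle)} [IsProbabilityMeasure N]
    (hNac : N ≪ μ.prod (μ.prod ω)) {c₁ c₂ : ℤ} (hc₁ : c₁ ≠ 0) (hc₂ : c₂ ≠ 0)
    (hNs : MeasurePreserving (fun z : UnitAddCircle × UnitAddCircle × UnitAddCircle => c₁ • z.1 + c₂ • z.2.1 + z.2.2) N μ)
    (hN1 : MeasurePreserving (fun z : UnitAddCircle × UnitAddCircle × UnitAddCircle => z.1) N μ)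
    (hN2 : MeasurePreserving (fun z : UnitAddCircle × UnitAddCircle × UnitAddCircle => z.2.1) N μ)
    (hμ : μ ≠ volume) :
    ∃ A : Set UnitAddCircle, MeasurableSet A ∧ μ A ≠ 0 ∧ ∀ δ : ℝ, 0 < δ →
      ∃ H : ℤ, H ≠ 0 ∧ ∫ x in A, (1 - (fourier H x : ℂ).re) ∂μ < δ := by
  obtain ⟨m, hm0, hm⟩ := exists_coeff hμ
  set 𝒰 : Ultrafilter ℕ := Filter.hyperfilter ℕ with h𝒰
  have hUtop : (𝒰 : Filter ℕ) ≤ atTop := by
    rw [← Nat.cofinite_eq_atTop]; exact Filter.hyperfilter_le_cofinite
  obtain ⟨a, ha, hab, hWa, hrel⟩ := exists_weak_chars (p := p) hNac hNs 𝒰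
  -- integrability of bounded functions
  have hib : ∀ {Y : Type} [MeasurableSpace Y] (κ : Measure Y) [IsFiniteMeasure κ] (u : Y → ℝ),
      Measurable u → (∀ y, ‖u y‖ ≤ 1) → Integrable u κ := by
    intro Y _ κ _ u hu hub
    exact Integrable.of_bound hu.aestronglyMeasurable 1 (Eventually.of_forall hub)
  set s2 : ℤ → UnitAddCircle → ℝ := fun k x => ‖a k x‖ ^ 2 with hs2
  have hs2m : ∀ k, Measurable (s2 k) := fun k => (ha k).norm.pow_const 2
  have hs2n : ∀ k x, 0 ≤ s2 k x := fun k x => by positivity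
  have hs21 : ∀ k x, s2 k x ≤ 1 := fun k x => pow_le_one₀ (norm_nonneg _) (hab k x)
  have hs2b : ∀ k x, ‖s2 k x‖ ≤ 1 := fun k x => by
    rw [Real.norm_eq_abs, abs_of_nonneg (hs2n k x)]; exact hs21 k x
  set g : ℤ → ℝ := fun k => ∫ x, s2 k x ∂μ with hg
  have hg1 : ∀ k, g k ≤ 1 := by
    intro k
    calc g k ≤ ∫ _, (1 : ℝ) ∂μ := integral_mono (hib μ _ (hs2m k) (hs2b k)) (integrable_const _)
          (hs21 k)
      _ = 1 := by simp
  -- the transfer identities
  have tr1 : ∀ u : UnitAddCircle → ℝ, Measurable u → ∫ z, u z.1 ∂N = ∫ x, u x ∂μ := by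
    intro u hu
    have := integral_map (μ := N) hN1.measurable.aemeasurable (f := u) hu.aestronglyMeasurable
    rw [hN1.map_eq] at this
    exact this.symm
  have tr2 : ∀ u : UnitAddCircle → ℝ, Measurable u → ∫ z, u z.2.1 ∂N = ∫ x, u x ∂μ := by
    intro u hu
    have := integral_map (μ := N) hN2.measurable.aemeasurable (f := u) hu.aestronglyMeasurable
    rw [hN2.map_eq] at this
    exact this.symm
  have trs : ∀ u : UnitAddCircle → ℝ, Measurable u →
      ∫ z : UnitAddCircle × UnitAddCircle × UnitAddCircle, u (c₁ • z.1 + c₂ • z.2.1 + z.2.2) ∂N = ∫ x, u x ∂μ := by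
    intro u hu
    have := integral_map (μ := N) hNs.measurable.aemeasurable (f := u) hu.aestronglyMeasurable
    rw [hNs.map_eq] at this
    exact this.symm
  have m1 : Measurable (fun z : UnitAddCircle × UnitAddCircle × UnitAddCircle => z.1) := measurable_fst
  have m2 : Measurable (fun z : UnitAddCircle × UnitAddCircle × UnitAddCircle => z.2.1) := measurable_fst.comp measurable_snd
  -- the key inequality
  have hkey : ∀ k, ∫ z, s2 (c₁ * k) z.1 * (1 - s2 (c₂ * k) z.2.1) ∂N ≤ g (c₁ * k) - g k := by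
    intro k
    have i1 : Integrable (fun z : UnitAddCircle × UnitAddCircle × UnitAddCircle => s2 (c₁ * k) z.1) N :=
      hib N _ ((hs2m _).comp m1) (fun z => hs2b _ _)
    have i2 : Integrable (fun z : UnitAddCircle × UnitAddCircle × UnitAddCircle => s2 (c₁ * k) z.1 * s2 (c₂ * k) z.2.1) N := by
      refine hib N _ (((hs2m _).comp m1).mul ((hs2m _).comp m2)) (fun z => ?_)
      rw [norm_mul]; exact mul_le_one₀ (hs2b _ _) (norm_nonneg _) (hs2b _ _)
    have i3 : Integrable (fun z : UnitAddCircle × UnitAddCircle × UnitAddCircle => s2 k (c₁ • z.1 + c₂ • z.2.1 + z.2.2)) N :=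
      hib N _ ((hs2m _).comp hNs.measurable) (fun z => hs2b _ _)
    have e : ∫ z, s2 (c₁ * k) z.1 * (1 - s2 (c₂ * k) z.2.1) ∂N =
        ∫ z, s2 (c₁ * k) z.1 ∂N - ∫ z, s2 (c₁ * k) z.1 * s2 (c₂ * k) z.2.1 ∂N := by
      rw [← integral_sub i1 i2]
      congr 1; funext z; ring
    rw [e, tr1 _ (hs2m _)]
    have h1 : g k ≤ ∫ z, s2 (c₁ * k) z.1 * s2 (c₂ * k) z.2.1 ∂N := by
      rw [hg]
      simp only
      rw [← trs _ (hs2m k)]
      apply integral_mono_ae i3 i2
      filter_upwards [hrel k] with z hz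
      simp only [hs2]
      calc ‖a k (c₁ • z.1 + c₂ • z.2.1 + z.2.2)‖ ^ 2 ≤
            (‖a (c₁ * k) z.1‖ * ‖a (c₂ * k) z.2.1‖) ^ 2 := pow_le_pow_left₀ (norm_nonneg _) hz 2
        _ = ‖a (c₁ * k) z.1‖ ^ 2 * ‖a (c₂ * k) z.2.1‖ ^ 2 := by ring
    linarith
  have hmono : ∀ k, g k ≤ g (c₁ * k) := by
    intro k
    have h1 := hkey k
    have h2 : 0 ≤ ∫ z, s2 (c₁ * k) z.1 * (1 - s2 (c₂ * k) z.2.1) ∂N := by
      apply integral_nonneg
      intro z
      have := hs21 (c₂ * k) z.2.1
      exact mul_nonneg (hs2n _ _) (by linarith)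
    linarith
  -- positivity of the first one
  have hgm : 0 < g m := by
    have h1 := (hWa m).univ
    have h2 : ∀ i : ℕ, ∫ x, (fourier (m * (p : ℤ) ^ i) x : ℂ) ∂μ = ∫ x, (fourier m x : ℂ) ∂μ := by
      intro i
      induction i with
      | zero => simp
      | succ i ih =>
        rw [← ih]
        have := integral_map (μ := μ) hμp.measurable.aemeasurable
          (f := fun x => (fourier (m * (p : ℤ) ^ i) x : ℂ)) (fou_meas _).aestronglyMeasurable
        rw [hμp.map_eq] at this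
        rw [this]
        congr 1; funext x
        rw [fou_nsmul]
        congr 1; congr 1; ring
    simp only [h2] at h1
    have h3 : ∫ x, a m x ∂μ = ∫ x, (fourier m x : ℂ) ∂μ :=
      tendsto_nhds_unique h1 tendsto_const_nhds |>.symm ▸ rfl
    by_contra hcon
    have h4 : g m = 0 := le_antisymm (not_lt.mp hcon)
      (integral_nonneg (fun x => hs2n m x))
    rw [hg] at h4
    simp only at h4
    rw [integral_eq_zero_iff_of_nonneg (fun x => hs2n m x) (hib μ _ (hs2m m) (hs2b m))] at h4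
    apply hm
    rw [← h3]
    have : a m =ᵐ[μ] fun _ => 0 := by
      filter_upwards [h4] with x hx
      simpa [hs2] using hx
    rw [integral_congr_ae this]
    simp
  -- the sequence
  set kj : ℕ → ℤ := fun j => c₁ ^ j * m with hkj
  have hkjs : ∀ j, c₁ * kj j = kj (j + 1) := fun j => by simp only [hkj]; ring
  have hgmono : Monotone (fun j => g (kj j)) := by
    apply monotone_nat_of_le_succ
    intro j
    rw [← hkjs]; exact hmono _
  have hbdd : BddAbove (Set.range (fun j => g (kj j))) := ⟨1, by rintro _ ⟨j, rfl⟩; exact hg1 _⟩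
  have hlim := tendsto_atTop_ciSup hgmono hbdd
  set L := ⨆ j, g (kj j) with hL
  have hLpos : 0 < L := by
    have : g (kj 0) ≤ L := le_ciSup hbdd 0
    have h0 : kj 0 = m := by simp [hkj]
    rw [h0] at this
    linarith
  have hlimU : Tendsto (fun j => g (kj j)) (𝒰 : Filter ℕ) (𝓝 L) := hlim.mono_left hUtop
  have hlimU1 : Tendsto (fun j => g (kj (j + 1))) (𝒰 : Filter ℕ) (𝓝 L) :=
    (hlim.comp (tendsto_add_atTop_nat 1)).mono_left hUtop
  obtain ⟨u, hu, hub, hWu⟩ := exists_WL 𝒰 μ (f := fun j => s2 (kj (j + 1))) (fun j => hs2m _)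
    (fun j x => hs2b _ x)
  obtain ⟨v, hv, hvb, hWv⟩ := exists_WL 𝒰 μ (f := fun j => s2 (c₂ * kj j)) (fun j => hs2m _)
    (fun j x => hs2b _ x)
  have hu0 : 0 ≤ᵐ[μ] u := by
    refine ae_nonneg_of_forall_setIntegral_nonneg (hib μ u hu hub) (fun S hS _ => ?_)
    refine ge_of_tendsto (hWu.sets hS) (Eventually.of_forall fun j => ?_)
    exact integral_nonneg (fun x => hs2n _ x)
  have hv1 : ∀ x, v x ≤ 1 := fun x => (abs_le.mp (by simpa using hvb x)).2
  -- limits on N
  have hWuN : WL (𝒰 : Filter ℕ) N (fun j (z : UnitAddCircle × UnitAddCircle × UnitAddCircle) => s2 (kj (j + 1)) z.1)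
      (fun z => u z.1) :=
    hWu.comp (fun j => hs2m _) (fun j x => hs2b _ x) hu hub m1 (by rw [hN1.map_eq])
  have hWvM : WL (𝒰 : Filter ℕ) (μ.prod ω) (fun j (z : UnitAddCircle × UnitAddCircle) => s2 (c₂ * kj j) z.1)
      (fun z => v z.1) := by
    refine hWv.comp (fun j => hs2m _) (fun j x => hs2b _ x) hv hvb measurable_fst ?_
    rw [(measurePreserving_fst (μ := μ) (ν := ω)).map_eq]
  have hWuv : WL (𝒰 : Filter ℕ) (μ.prod (μ.prod ω))
      (fun j (z : UnitAddCircle × UnitAddCircle × UnitAddCircle) => s2 (kj (j + 1)) z.1 * s2 (c₂ * kj j) z.2.1)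
      (fun z => u z.1 * v z.2.1) :=
    hWu.prod hWvM (fun j => hs2m _) (fun j x => hs2b _ x) hu hub
      (fun j => (hs2m _).comp measurable_fst) (fun j x => hs2b _ _) (hv.comp measurable_fst)
      (fun x => hvb _)
  have hWuvN : WL (𝒰 : Filter ℕ) N
      (fun j (z : UnitAddCircle × UnitAddCircle × UnitAddCircle) => s2 (kj (j + 1)) z.1 * s2 (c₂ * kj j) z.2.1)
      (fun z => u z.1 * v z.2.1) := by
    refine hWuv.comp (π := fun z => z) (fun j => ((hs2m _).comp m1).mul ((hs2m _).comp m2))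
      (fun j z => ?_) ((hu.comp m1).mul (hv.comp m2)) (fun z => ?_) measurable_id ?_
    · rw [norm_mul]; exact mul_le_one₀ (hs2b _ _) (norm_nonneg _) (hs2b _ _)
    · rw [norm_mul]; exact mul_le_one₀ (hub _) (norm_nonneg _) (hvb _)
    · rw [Measure.map_id']; exact hNac
  have iu : Integrable (fun z : UnitAddCircle × UnitAddCircle × UnitAddCircle => u z.1) N := hib N _ (hu.comp m1) (fun z => hub _)
  have iuv : Integrable (fun z : UnitAddCircle × UnitAddCircle × UnitAddCircle => u z.1 * v z.2.1) N := by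
    refine hib N _ ((hu.comp m1).mul (hv.comp m2)) (fun z => ?_)
    rw [norm_mul]; exact mul_le_one₀ (hub _) (norm_nonneg _) (hvb _)
  have hzero : ∫ z : UnitAddCircle × UnitAddCircle × UnitAddCircle, u z.1 * (1 - v z.2.1) ∂N ≤ 0 := by
    have e : ∫ z : UnitAddCircle × UnitAddCircle × UnitAddCircle, u z.1 * (1 - v z.2.1) ∂N =
        ∫ z : UnitAddCircle × UnitAddCircle × UnitAddCircle, u z.1 ∂N - ∫ z : UnitAddCircle × UnitAddCircle × UnitAddCircle, u z.1 * v z.2.1 ∂N := by
      rw [← integral_sub iu iuv]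
      congr 1; funext z; ring
    rw [e]
    have h1 := hWuN.univ.sub hWuvN.univ
    have h2 : Tendsto (fun j => g (kj (j + 1)) - g (kj j)) (𝒰 : Filter ℕ) (𝓝 (L - L)) :=
      hlimU1.sub hlimU
    rw [sub_self] at h2
    refine le_of_tendsto_of_tendsto h1 h2 (Eventually.of_forall fun j => ?_)
    have h3 := hkey (kj j)
    rw [hkjs] at h3
    have i1 : Integrable (fun z : UnitAddCircle × UnitAddCircle × UnitAddCircle => s2 (kj (j + 1)) z.1) N :=
      hib N _ ((hs2m _).comp m1) (fun z => hs2b _ _)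
    have i2 : Integrable (fun z : UnitAddCircle × UnitAddCircle × UnitAddCircle => s2 (kj (j + 1)) z.1 * s2 (c₂ * kj j) z.2.1) N := by
      refine hib N _ (((hs2m _).comp m1).mul ((hs2m _).comp m2)) (fun z => ?_)
      rw [norm_mul]; exact mul_le_one₀ (hs2b _ _) (norm_nonneg _) (hs2b _ _)
    have e4 : ∫ z, s2 (kj (j + 1)) z.1 * (1 - s2 (c₂ * kj j) z.2.1) ∂N =
        ∫ z, s2 (kj (j + 1)) z.1 ∂N - ∫ z, s2 (kj (j + 1)) z.1 * s2 (c₂ * kj j) z.2.1 ∂N := by
      rw [← integral_sub i1 i2]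
      congr 1; funext z; ring
    rw [e4] at h3
    exact h3
  have hae0 : ∀ᵐ z ∂N, u z.1 * (1 - v z.2.1) = 0 := by
    have hnn : 0 ≤ᵐ[N] fun z : UnitAddCircle × UnitAddCircle × UnitAddCircle => u z.1 * (1 - v z.2.1) := by
      have : ∀ᵐ z ∂N, 0 ≤ u z.1 := by
        have h1 : ∀ᵐ x ∂(N.map (fun z : UnitAddCircle × UnitAddCircle × UnitAddCircle => z.1)), 0 ≤ u x := by
          rw [hN1.map_eq]; exact hu0
        exact ae_of_ae_map m1.aemeasurable h1
      filter_upwards [this] with z hz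
      have := hv1 z.2.1
      exact mul_nonneg hz (by linarith)
    have hi : Integrable (fun z : UnitAddCircle × UnitAddCircle × UnitAddCircle => u z.1 * (1 - v z.2.1)) N := by
      have : (fun z : UnitAddCircle × UnitAddCircle × UnitAddCircle => u z.1 * (1 - v z.2.1)) =
          fun z : UnitAddCircle × UnitAddCircle × UnitAddCircle => u z.1 - u z.1 * v z.2.1 := by funext z; ring
      rw [this]; exact iu.sub iuv
    have h1 : ∫ z : UnitAddCircle × UnitAddCircle × UnitAddCircle, u z.1 * (1 - v z.2.1) ∂N = 0 :=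
      le_antisymm hzero (integral_nonneg_of_ae hnn)
    rw [integral_eq_zero_iff_of_nonneg_ae hnn hi] at h1
    filter_upwards [h1] with z hz
    simpa using hz
  have huint : ∫ z : UnitAddCircle × UnitAddCircle × UnitAddCircle, u z.1 ∂N = L := by
    rw [tr1 _ hu]
    exact tendsto_nhds_unique hWu.univ hlimU1
  set A : Set UnitAddCircle := {x | v x = 1} with hA
  have hAm : MeasurableSet A := hv (measurableSet_singleton 1)
  refine ⟨A, hAm, ?_, ?_⟩
  · intro h0
    have h1 : ∀ᵐ z ∂N, v z.2.1 ≠ 1 := by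
      have h2 : ∀ᵐ x ∂(N.map (fun z : UnitAddCircle × UnitAddCircle × UnitAddCircle => z.2.1)), v x ≠ 1 := by
        rw [hN2.map_eq, ae_iff]
        simpa [hA] using h0
      exact ae_of_ae_map m2.aemeasurable h2
    have h3 : ∀ᵐ z ∂N, u z.1 = 0 := by
      filter_upwards [hae0, h1] with z hz hz1
      rcases mul_eq_zero.mp hz with h | h
      · exact h
      · exact absurd (by linarith) hz1
    have h4 : ∫ z : UnitAddCircle × UnitAddCircle × UnitAddCircle, u z.1 ∂N = 0 := by
      have : (fun z : UnitAddCircle × UnitAddCircle × UnitAddCircle => u z.1) =ᵐ[N] fun _ => 0 := h3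
      rw [integral_congr_ae this]; simp
    rw [huint] at h4
    linarith
  · intro δ hδ
    -- a good j
    have hA1 : Tendsto (fun j => ∫ x in A, s2 (c₂ * kj j) x ∂μ) (𝒰 : Filter ℕ)
        (𝓝 (∫ x in A, v x ∂μ)) := hWv.sets hAm
    have hA2 : ∫ x in A, v x ∂μ = μ.real A := by
      rw [setIntegral_congr_fun hAm (g := fun _ => (1 : ℝ)) (fun x hx => hx)]
      simp
    rw [hA2] at hA1
    have hev : ∀ᶠ j in (𝒰 : Filter ℕ), μ.real A - δ / 4 < ∫ x in A, s2 (c₂ * kj j) x ∂μ :=
      (tendsto_order.mp hA1).1 _ (by linarith)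
    obtain ⟨j, hj⟩ := hev.exists
    set n : ℤ := c₂ * kj j with hn
    have hn0 : n ≠ 0 := mul_ne_zero hc₂ (mul_ne_zero (pow_ne_zero _ hc₁) hm0)
    -- strong convergence
    have hWn := hWa n
    set D : ℕ → ℝ := fun i => ∫ x in A, ‖(fourier (n * (p : ℤ) ^ i) x : ℂ) - a n x‖ ^ 2 ∂μ with hD
    have ia : Integrable (fun x => a n x) μ :=
      Integrable.of_bound (ha n).aestronglyMeasurable 1 (Eventually.of_forall (hab n))
    have ica : Integrable (A.indicator (fun x => (starRingEnd ℂ) (a n x))) μ := by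
      refine Integrable.indicator ?_ hAm
      exact Integrable.of_bound (Complex.continuous_conj.measurable.comp (ha n)).aestronglyMeasurable
        1 (Eventually.of_forall (fun x => by simpa using hab n x))
    have hD1 : ∀ w : UnitAddCircle → ℂ, Measurable w → (∀ x, ‖w x‖ ≤ 1) →
        (∫ x, w x * A.indicator (fun x => (starRingEnd ℂ) (a n x)) x ∂μ).re =
          ∫ x in A, (w x * (starRingEnd ℂ) (a n x)).re ∂μ := by
      intro w hw hwb
      have hi := int_bdd_mul hw hwb ica
      have e1 : (∫ x, w x * A.indicator (fun x => (starRingEnd ℂ) (a n x)) x ∂μ).re =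
          ∫ x, (w x * A.indicator (fun x => (starRingEnd ℂ) (a n x)) x).re ∂μ := by
        have := integral_re hi
        simpa using this.symm
      rw [e1, ← integral_indicator hAm]
      congr 1; funext x
      by_cases hx : x ∈ A <;> simp [hx]
    have hDlim : Tendsto D (𝒰 : Filter ℕ) (𝓝 (μ.real A - ∫ x in A, s2 n x ∂μ)) := by
      have h1 := hWn _ ica
      have h2 := (Complex.continuous_re.tendsto _).comp h1
      simp only [Function.comp_def] at h2
      rw [hD1 _ (ha n) (hab n)] at h2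
      have h3 : ∀ i, (∫ x, (fourier (n * (p : ℤ) ^ i) x : ℂ) *
          A.indicator (fun x => (starRingEnd ℂ) (a n x)) x ∂μ).re =
          ∫ x in A, ((fourier (n * (p : ℤ) ^ i) x : ℂ) * (starRingEnd ℂ) (a n x)).re ∂μ :=
        fun i => hD1 _ (fou_meas _) (fun x => (norm_fou _ x).le)
      simp only [h3] at h2
      have h4 : ∫ x in A, (a n x * (starRingEnd ℂ) (a n x)).re ∂μ = ∫ x in A, s2 n x ∂μ := by
        congr 1; funext x
        rw [Complex.mul_conj, Complex.normSq_eq_norm_sq, Complex.ofReal_re]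
      rw [h4] at h2
      have is2 : IntegrableOn (s2 n) A μ := (hib μ _ (hs2m n) (hs2b n)).integrableOn
      have h5 : ∀ i, D i = μ.real A + (∫ x in A, s2 n x ∂μ) -
          2 * ∫ x in A, ((fourier (n * (p : ℤ) ^ i) x : ℂ) * (starRingEnd ℂ) (a n x)).re ∂μ := by
        intro i
        have im : Measurable (fun x : UnitAddCircle =>
            ((fourier (n * (p : ℤ) ^ i) x : ℂ) * (starRingEnd ℂ) (a n x)).re) :=
          Complex.measurable_re.comp ((fou_meas _).mul
            (Complex.continuous_conj.measurable.comp (ha n)))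
        have ii : IntegrableOn (fun x : UnitAddCircle =>
            ((fourier (n * (p : ℤ) ^ i) x : ℂ) * (starRingEnd ℂ) (a n x)).re) A μ := by
          refine (hib μ _ im (fun x => ?_)).integrableOn
          rw [Real.norm_eq_abs]
          refine (Complex.abs_re_le_norm _).trans ?_
          rw [norm_mul, norm_fou, one_mul, RCLike.norm_conj]
          exact hab n x
        have e1 : ∀ x : UnitAddCircle, ‖(fourier (n * (p : ℤ) ^ i) x : ℂ) - a n x‖ ^ 2 =
            (1 + s2 n x) - 2 * ((fourier (n * (p : ℤ) ^ i) x : ℂ) * (starRingEnd ℂ) (a n x)).re := by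
          intro x
          rw [← Complex.normSq_eq_norm_sq, Complex.normSq_sub, Complex.normSq_eq_norm_sq,
            Complex.normSq_eq_norm_sq, norm_fou, one_pow]
        simp only [hD, e1]
        have ic : IntegrableOn (fun x => 1 + s2 n x) A μ := (integrable_const _).add is2
        rw [integral_sub ic (ii.const_mul 2), integral_const_mul,
          integral_add (integrable_const _) is2]
        simp
      have h6 := (tendsto_const_nhds (x := μ.real A + (∫ x in A, s2 n x ∂μ))
        (f := (𝒰 : Filter ℕ))).sub (h2.const_mul 2)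
      have h7 : D = fun i => μ.real A + (∫ x in A, s2 n x ∂μ) -
          2 * ∫ x in A, ((fourier (n * (p : ℤ) ^ i) x : ℂ) * (starRingEnd ℂ) (a n x)).re ∂μ :=
        funext h5
      rw [h7]
      convert h6 using 2
      ring
    have hev2 : ∀ᶠ i in (𝒰 : Filter ℕ), D i < δ / 4 := (tendsto_order.mp hDlim).2 _ (by linarith)
    obtain ⟨i, hi⟩ := hev2.exists
    obtain ⟨i', hi', hii'⟩ := (hev2.and (hUtop (eventually_gt_atTop i))).exists
    refine ⟨n * (p : ℤ) ^ i' - n * (p : ℤ) ^ i, ?_, ?_⟩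
    · rw [← mul_sub]
      refine mul_ne_zero hn0 (sub_ne_zero.mpr ?_)
      intro h
      have hp1 : (1 : ℤ) < p := by exact_mod_cast hp
      exact absurd (Int.pow_right_injective (by simpa using hp1) h) (by
        have := hii'
        omega)
    · have iD : ∀ i, IntegrableOn (fun x => ‖(fourier (n * (p : ℤ) ^ i) x : ℂ) - a n x‖ ^ 2) A μ := by
        intro i
        have im : Measurable (fun x : UnitAddCircle => ‖(fourier (n * (p : ℤ) ^ i) x : ℂ) - a n x‖ ^ 2) :=
          (((fou_meas _).sub (ha n)).norm).pow_const 2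
        refine (Integrable.of_bound im.aestronglyMeasurable 4
          (Eventually.of_forall fun x => ?_)).integrableOn
        rw [Real.norm_eq_abs, abs_of_nonneg (by positivity)]
        have h1 : ‖(fourier (n * (p : ℤ) ^ i) x : ℂ) - a n x‖ ≤ 2 := by
          refine (norm_sub_le _ _).trans ?_
          rw [norm_fou]
          linarith [hab n x]
        nlinarith [norm_nonneg ((fourier (n * (p : ℤ) ^ i) x : ℂ) - a n x)]
      calc ∫ x in A, (1 - (fourier (n * (p : ℤ) ^ i' - n * (p : ℤ) ^ i) x : ℂ).re) ∂μ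
          ≤ ∫ x in A, (‖(fourier (n * (p : ℤ) ^ i') x : ℂ) - a n x‖ ^ 2 +
              ‖(fourier (n * (p : ℤ) ^ i) x : ℂ) - a n x‖ ^ 2) ∂μ := by
            apply integral_mono_of_nonneg
            · exact Eventually.of_forall fun x => re_nonneg _ x
            · exact (iD i').add (iD i)
            · refine Eventually.of_forall fun x => ?_
              simp only
              rw [re_eq, ← norm_fou_sub]
              have h1 : ‖(fourier (n * (p : ℤ) ^ i') x : ℂ) - fourier (n * (p : ℤ) ^ i) x‖ ≤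
                  ‖(fourier (n * (p : ℤ) ^ i') x : ℂ) - a n x‖ +
                    ‖(fourier (n * (p : ℤ) ^ i) x : ℂ) - a n x‖ := by
                rw [← norm_neg ((fourier (n * (p : ℤ) ^ i) x : ℂ) - a n x)]
                refine le_trans (le_of_eq ?_) (norm_add_le _ _)
                congr 1; ring
              have h2 := pow_le_pow_left₀ (norm_nonneg _) h1 2
              nlinarith [sq_nonneg (‖(fourier (n * (p : ℤ) ^ i') x : ℂ) - a n x‖ -
                    ‖(fourier (n * (p : ℤ) ^ i) x : ℂ) - a n x‖)]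
        _ = D i' + D i := by rw [integral_add (iD i') (iD i)]
        _ < δ := by linarith

end Pool.Agent.Zk32
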