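import Mathlib
import Pool.Agent.Zk32.Rigid

set_option autoImplicit false

open MeasureTheory Filter Topology Set
open scoped ENNReal

namespace Pool.Agent.Zk32

lemma circ_comm (p q : ℕ) (x : UnitAddCircle) : p • (q • x) = q • (p • x) := smul_comm _ _ _

/-- almost periodicity on a set of positive measure is almost periodicity everywhere -/
theorem rigid_of_set {p q : ℕ} {μ : Measure UnitAddCircle} [IsProbabilityMeasure μ]
    (hJ : JE (fun x : UnitAddCircle => p • x) (fun x : UnitAddCircle => q • x) μ)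
    (hμp : MeasurePreserving (fun x : UnitAddCircle => p • x) μ μ)
    (hμq : MeasurePreserving (fun x : UnitAddCircle => q • x) μ μ)
    {A : Set UnitAddCircle} (hA : MeasurableSet A) (hA0 : μ A ≠ 0)
    (h : ∀ δ : ℝ, 0 < δ → ∃ H : ℤ, H ≠ 0 ∧ ∫ x in A, (1 - (fourier H x : ℂ).re) ∂μ < δ)
    {δ : ℝ} (hδ : 0 < δ) :
    ∃ H : ℤ, H ≠ 0 ∧ ∫ x, (1 - (fourier H x : ℂ).re) ∂μ < δ := by
  have h' : ∀ l : ℕ, ∃ H : ℤ, H ≠ 0 ∧
      ∫ x in A, (1 - (fourier H x : ℂ).re) ∂μ < 1 / ((l : ℝ) + 1) := fun l => h _ (by positivity)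
  choose H hH0 hH using h'
  set 𝒰 : Ultrafilter ℕ := Filter.hyperfilter ℕ with h𝒰
  have hUtop : (𝒰 : Filter ℕ) ≤ atTop := by
    rw [← Nat.cofinite_eq_atTop]; exact Filter.hyperfilter_le_cofinite
  set w : ℤ → UnitAddCircle → ℝ := fun n x => (1 - (fourier n x : ℂ).re) / 2 with hw
  have wm : ∀ n, Measurable (w n) := fun n =>
    (measurable_const.sub (Complex.measurable_re.comp (fou_meas n))).div_const 2
  have w0 : ∀ n x, 0 ≤ w n x := fun n x => by
    have := re_nonneg n x
    simp only [hw]; linarith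
  have wb : ∀ n x, ‖w n x‖ ≤ 1 := fun n x => by
    rw [Real.norm_eq_abs, abs_of_nonneg (w0 n x)]
    have := re_le_two n x
    simp only [hw]; linarith
  have wi : ∀ n, Integrable (w n) μ := fun n =>
    Integrable.of_bound (wm n).aestronglyMeasurable 1 (Eventually.of_forall (wb n))
  obtain ⟨g, hg, hgb, hW⟩ := exists_WL 𝒰 μ (f := fun l => w (H l)) (fun l => wm _)
    (fun l x => wb _ x)
  have gi : Integrable g μ :=
    Integrable.of_bound hg.aestronglyMeasurable 1 (Eventually.of_forall hgb)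
  have hg0 : 0 ≤ᵐ[μ] g := by
    refine ae_nonneg_of_forall_setIntegral_nonneg gi (fun S hS _ => ?_)
    refine ge_of_tendsto (hW.sets hS) (Eventually.of_forall fun j => ?_)
    exact integral_nonneg (fun x => w0 _ x)
  have hgA : ∫ x in A, g x ∂μ = 0 := by
    have h1 := hW.sets hA
    have h2 : Tendsto (fun l : ℕ => ∫ x in A, w (H l) x ∂μ) (𝒰 : Filter ℕ) (𝓝 0) := by
      have h3 : Tendsto (fun l : ℕ => 1 / ((l : ℝ) + 1)) (𝒰 : Filter ℕ) (𝓝 0) :=
        tendsto_one_div_add_atTop_nhds_zero_nat.mono_left hUtop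
      refine squeeze_zero (fun l => integral_nonneg (fun x => w0 _ x)) (fun l => ?_) h3
      have h4 := (hH l).le
      have e : ∫ x in A, w (H l) x ∂μ = (∫ x in A, (1 - (fourier (H l) x : ℂ).re) ∂μ) / 2 := by
        rw [← integral_div]
      have h5 : 0 ≤ ∫ x in A, (1 - (fourier (H l) x : ℂ).re) ∂μ :=
        integral_nonneg (fun x => re_nonneg _ x)
      rw [e]; linarith
    exact tendsto_nhds_unique h1 h2
  set B : Set UnitAddCircle := {x | g x ≤ 0} with hB
  have hBm : MeasurableSet B := measurableSet_le hg measurable_const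
  have hAB : ∀ᵐ x ∂μ, x ∈ A → x ∈ B := by
    have h1 : 0 ≤ᵐ[μ.restrict A] g := ae_restrict_of_ae hg0
    rw [integral_eq_zero_iff_of_nonneg_ae h1 gi.integrableOn] at hgA
    have h2 := (ae_restrict_iff' hA).mp hgA
    filter_upwards [h2] with x hx hxA
    exact (hx hxA).le
  have hB0 : μ B ≠ 0 := by
    intro h0
    apply hA0
    have : A ≤ᵐ[μ] B := hAB
    exact le_antisymm ((measure_mono_ae this).trans h0.le) (zero_le)
  have hgB : ∫ x in B, g x ∂μ ≤ 0 := by
    apply setIntegral_nonpos hBm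
    intro x hx
    exact hx
  -- invariance
  have hinv : ∀ {r : ℕ}, MeasurePreserving (fun x : UnitAddCircle => r • x) μ μ →
      (fun x : UnitAddCircle => r • x) ⁻¹' B =ᵐ[μ] B := by
    intro r hr
    have h1 : WL (𝒰 : Filter ℕ) μ (fun l (x : UnitAddCircle) => w (H l) (r • x))
        (fun x => g (r • x)) :=
      hW.comp (fun l => wm _) (fun l x => wb _ x) hg hgb hr.measurable (by rw [hr.map_eq])
    have h2 : ∫ x in B, g (r • x) ∂μ ≤ 0 := by
      have h3 : ∀ l, ∫ x in B, w (H l) (r • x) ∂μ ≤ (r : ℝ) ^ 2 * ∫ x in B, w (H l) x ∂μ := by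
        intro l
        rw [← integral_const_mul]
        have hmr : Measurable (fun x : UnitAddCircle => w (H l) (r • x)) :=
          (wm _).comp hr.measurable
        apply integral_mono
        · exact (Integrable.of_bound hmr.aestronglyMeasurable 1
            (Eventually.of_forall (fun x => wb _ _))).integrableOn
        · exact ((wi _).const_mul _).integrableOn
        · intro x
          simp only [hw]
          have := re_mul r (H l) x
          rw [fou_nsmul]
          linarith
      have h4 := hW.sets hBm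
      have h5 := h4.const_mul ((r : ℝ) ^ 2)
      have h6 := le_of_tendsto_of_tendsto (h1.sets hBm) h5 (Eventually.of_forall h3)
      have h7 : (r : ℝ) ^ 2 * ∫ x in B, g x ∂μ ≤ 0 := mul_nonpos_of_nonneg_of_nonpos
        (by positivity) hgB
      linarith
    have hgr : Integrable (fun x => g (r • x)) μ := by
      have : Measurable (fun x : UnitAddCircle => g (r • x)) := hg.comp hr.measurable
      exact Integrable.of_bound this.aestronglyMeasurable 1
        (Eventually.of_forall (fun x => hgb _))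
    have hgr0 : 0 ≤ᵐ[μ] fun x => g (r • x) := by
      have : ∀ᵐ x ∂(μ.map (fun x : UnitAddCircle => r • x)), 0 ≤ g x := by
        rw [hr.map_eq]; exact hg0
      exact ae_of_ae_map hr.measurable.aemeasurable this
    have h8 : ∫ x in B, g (r • x) ∂μ = 0 :=
      le_antisymm h2 (integral_nonneg_of_ae (ae_restrict_of_ae hgr0))
    rw [integral_eq_zero_iff_of_nonneg_ae (ae_restrict_of_ae hgr0) hgr.integrableOn] at h8
    have h9 := (ae_restrict_iff' hBm).mp h8
    have h10 : B ≤ᵐ[μ] (fun x : UnitAddCircle => r • x) ⁻¹' B := by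
      filter_upwards [h9] with x hx hxB
      exact (hx hxB).le
    have h11 : μ ((fun x : UnitAddCircle => r • x) ⁻¹' B) = μ B :=
      hr.measure_preimage hBm.nullMeasurableSet
    exact (ae_eq_of_ae_subset_of_measure_ge h10 h11.le hBm.nullMeasurableSet
      (measure_ne_top _ _)).symm
  have hB1 : μ B = 1 := by
    rcases hJ.ae (fun x => circ_comm p q x) hμp hμq hBm (hinv hμp) (hinv hμq) with h0 | h1
    · exact absurd h0 hB0
    · exact h1
  have hBall : ∀ᵐ x ∂μ, x ∈ B := by
    rw [ae_iff]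
    have := (prob_compl_eq_zero_iff hBm).mpr hB1
    exact this
  have hgint : ∫ x, g x ∂μ ≤ 0 := by
    apply integral_nonpos_of_ae
    filter_upwards [hBall] with x hx
    exact hx
  have hlim := hW.univ
  have hev : ∀ᶠ l in (𝒰 : Filter ℕ), ∫ x, w (H l) x ∂μ < δ / 2 :=
    (tendsto_order.mp hlim).2 _ (by linarith)
  obtain ⟨l, hl⟩ := hev.exists
  refine ⟨H l, hH0 l, ?_⟩
  have e : ∫ x, w (H l) x ∂μ = (∫ x, (1 - (fourier (H l) x : ℂ).re) ∂μ) / 2 := by
    rw [← integral_div]
  rw [e] at hl
  linarith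

end Pool.Agent.Zk32
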