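import Mathlib
import Pool.Agent.Zk32.Grow
import Pool.Agent.Zk32.Rigid2
import Pool.Agent.Zk32.Join

set_option autoImplicit false

open MeasureTheory Filter Topology Set
open scoped ENNReal

namespace Pool.Agent.Zk32

/-- following the lighter branch -/
lemma far_path {μ : Measure UnitAddCircle} [IsProbabilityMeasure μ] {c₁ c₂ : ℤ} (hc₁ : c₁ ≠ 0)
    (hc₂ : c₂ ≠ 0) {C K : ℝ} (hC : 0 < C) (hK : 1 ≤ K) (hk₁ : |(c₁ : ℝ)| ≤ K)
    (hk₂ : |(c₂ : ℝ)| ≤ K)
    (hb : ∀ (H : ℤ) (y : ℝ), 0 ≤ y → far μ (c₁ * H) (3 * y) + far μ (c₂ * H) (3 * y) ≤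
      far μ H y + 8 * C * far μ H (y / (3 * K)) ^ 2) (l : ℕ) :
    ∀ (H : ℤ) (y : ℝ), 0 ≤ y → ∃ t : ℤ, t ≠ 0 ∧ |(t : ℝ)| ≤ K ^ l ∧
      2 ^ l * far μ (t * H) (3 ^ l * y) ≤
        far μ H y + (2 ^ l - 1) * (8 * C) * far μ H (y / (3 * K) ^ (l + 1)) ^ 2 := by
  have hK0 : 0 < K := by linarith
  induction l with
  | zero =>
    intro H y _
    exact ⟨1, one_ne_zero, by simp, by simp⟩
  | succ l ih =>
    intro H y hy
    obtain ⟨c, hc0, hck, hc⟩ : ∃ c : ℤ, c ≠ 0 ∧ |(c : ℝ)| ≤ K ∧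
        2 * far μ (c * H) (3 * y) ≤ far μ H y + 8 * C * far μ H (y / (3 * K)) ^ 2 := by
      have h1 := hb H y hy
      rcases le_total (far μ (c₁ * H) (3 * y)) (far μ (c₂ * H) (3 * y)) with h | h
      · exact ⟨c₁, hc₁, hk₁, by linarith⟩
      · exact ⟨c₂, hc₂, hk₂, by linarith⟩
    obtain ⟨t, ht0, htk, ht⟩ := ih (c * H) (3 * y) (by positivity)
    set G := far μ H (y / (3 * K) ^ (l + 1 + 1)) with hG
    have hG0 : 0 ≤ G := far_nonneg _ _ _
    have a1 : far μ (c * H) (3 * y / (3 * K) ^ (l + 1)) ≤ G := by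
      refine (far_mul μ hK0 hck H _).trans (far_anti μ H ?_)
      rw [div_div]
      have h3 : (3 * K) ^ (l + 1 + 1) = (3 * K) ^ (l + 1) * (3 * K) := pow_succ _ _
      rw [h3, div_le_div_iff₀ (by positivity) (by positivity)]
      have h4 : 0 ≤ y * ((3 * K) ^ (l + 1) * K) := by positivity
      nlinarith
    have a2 : far μ H (y / (3 * K)) ≤ G := by
      apply far_anti
      have h3 : (3 * K) ≤ (3 * K) ^ (l + 1 + 1) := by
        calc 3 * K = (3 * K) ^ 1 := (pow_one _).symm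
          _ ≤ _ := pow_le_pow_right₀ (by linarith) (by omega)
      gcongr
    have a1' : far μ (c * H) (3 * y / (3 * K) ^ (l + 1)) ^ 2 ≤ G ^ 2 :=
      pow_le_pow_left₀ (far_nonneg _ _ _) a1 2
    have a2' : far μ H (y / (3 * K)) ^ 2 ≤ G ^ 2 := pow_le_pow_left₀ (far_nonneg _ _ _) a2 2
    refine ⟨t * c, mul_ne_zero ht0 hc0, ?_, ?_⟩
    · push_cast
      rw [abs_mul, pow_succ]
      exact mul_le_mul htk hck (abs_nonneg _) (by positivity)
    · have e1 : t * c * H = t * (c * H) := by ring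
      have e2 : (3 : ℝ) ^ (l + 1) * y = 3 ^ l * (3 * y) := by ring
      rw [e1, e2]
      have h2l : (1 : ℝ) ≤ 2 ^ l := one_le_pow₀ (by norm_num)
      have h5 : (2 ^ l - 1) * (8 * C) * far μ (c * H) (3 * y / (3 * K) ^ (l + 1)) ^ 2 ≤
          (2 ^ l - 1) * (8 * C) * G ^ 2 := by
        apply mul_le_mul_of_nonneg_left a1'
        have : (0 : ℝ) ≤ 2 ^ l - 1 := by linarith
        positivity
      have h6 : 8 * C * far μ H (y / (3 * K)) ^ 2 ≤ 8 * C * G ^ 2 := by gcongr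
      calc (2 : ℝ) ^ (l + 1) * far μ (t * (c * H)) (3 ^ l * (3 * y))
          = 2 * (2 ^ l * far μ (t * (c * H)) (3 ^ l * (3 * y))) := by ring
        _ ≤ 2 * (far μ (c * H) (3 * y) + (2 ^ l - 1) * (8 * C) *
              far μ (c * H) (3 * y / (3 * K) ^ (l + 1)) ^ 2) := by gcongr
        _ ≤ far μ H y + 8 * C * G ^ 2 + 2 * ((2 ^ l - 1) * (8 * C) * G ^ 2) := by linarith
        _ = far μ H y + (2 ^ (l + 1) - 1) * (8 * C) * G ^ 2 := by ring

/-- the growth argument: a branching inequality and almost periods produce torsion -/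
theorem atom_of_branch {p : ℕ} (hp : 2 ≤ p) {μ : Measure UnitAddCircle} [IsProbabilityMeasure μ]
    (hμp : MeasurePreserving (fun x : UnitAddCircle => p • x) μ μ)
    {c₁ c₂ : ℤ} (hc₁ : c₁ ≠ 0)
    (hc₂ : c₂ ≠ 0) {C K : ℝ} (hC : 0 < C) (hK : 1 ≤ K) (hk₁ : |(c₁ : ℝ)| ≤ K)
    (hk₂ : |(c₂ : ℝ)| ≤ K)
    (hb : ∀ (H : ℤ) (y : ℝ), 0 ≤ y → far μ (c₁ * H) (3 * y) + far μ (c₂ * H) (3 * y) ≤
      far μ H y + 8 * C * far μ H (y / (3 * K)) ^ 2)
    (hr : ∀ δ : ℝ, 0 < δ → ∃ H : ℤ, H ≠ 0 ∧ ∫ x, (1 - (fourier H x : ℂ).re) ∂μ < δ) :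
    ∃ x : UnitAddCircle, μ {x} ≠ 0 := by
  have hK0 : 0 < K := by linarith
  have hpR : (2 : ℝ) ≤ p := by exact_mod_cast hp
  have hp0 : (0 : ℝ) < p := by linarith
  have hp1 : (1 : ℝ) < p := by linarith
  set ρ : ℝ := 1 / (2 * p) with hρ
  have hρ0 : 0 < ρ := by positivity
  obtain ⟨J, hJ⟩ : ∃ J : ℕ, (3 : ℝ) ^ 8 * (3 * K) ^ 9 < p ^ J := pow_unbounded_of_one_lt _ hp1
  set δ₀ : ℝ := 1 / (64 * C * (J + 1) ^ 2) with hδ₀
  have hδ₀0 : 0 < δ₀ := by positivity
  -- one step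
  have hstep : ∀ H : ℤ, far μ H ρ ≤ δ₀ → ∃ t : ℤ, t ≠ 0 ∧ |(t : ℝ)| ≤ K ^ 8 ∧
      far μ (t * H) ρ ≤ far μ H ρ / 4 := by
    intro H hH
    obtain ⟨t, ht0, htk, ht⟩ := far_path hc₁ hc₂ hC hK hk₁ hk₂ hb 8 H (ρ / 3 ^ 8) (by positivity)
    refine ⟨t, ht0, htk, ?_⟩
    have e1 : (3 : ℝ) ^ 8 * (ρ / 3 ^ 8) = ρ := by field_simp
    rw [e1] at ht
    set F := far μ H ρ with hF
    have hF0 : 0 ≤ F := far_nonneg _ _ _
    have h1 : far μ H (ρ / 3 ^ 8) ≤ 17 * F := by
      have h2 : far μ H (ρ / 3 ^ 8) ≤ far μ H (ρ / p ^ 16) := by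
        apply far_anti
        have h3 : (3 : ℝ) ^ 8 ≤ (p : ℝ) ^ 16 := by
          calc (3 : ℝ) ^ 8 ≤ ((p : ℝ) ^ 2) ^ 8 := by
                apply pow_le_pow_left₀ (by norm_num)
                nlinarith
            _ = (p : ℝ) ^ 16 := by rw [← pow_mul]
        gcongr
      have h4 := far_growth hp μ hμp H 16
      have h5 : ((16 : ℕ) : ℝ) + 1 = 17 := by norm_num
      rw [h5] at h4
      exact h2.trans h4
    have h6 : far μ H (ρ / 3 ^ 8 / (3 * K) ^ (8 + 1)) ≤ (J + 1) * F := by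
      have h7 : far μ H (ρ / 3 ^ 8 / (3 * K) ^ (8 + 1)) ≤ far μ H (ρ / p ^ J) := by
        apply far_anti
        have e2 : ρ / 3 ^ 8 / (3 * K) ^ (8 + 1) = ρ / (3 ^ 8 * (3 * K) ^ 9) := by rw [div_div]
        rw [e2]
        exact div_le_div_of_nonneg_left hρ0.le (by positivity) hJ.le
      exact h7.trans (far_growth hp μ hμp H J)
    have h7 : far μ H (ρ / 3 ^ 8 / (3 * K) ^ (8 + 1)) ^ 2 ≤ ((J + 1) * F) ^ 2 :=
      pow_le_pow_left₀ (far_nonneg _ _ _) h6 2
    have h8 : (2 ^ 8 - 1) * (8 * C) * far μ H (ρ / 3 ^ 8 / (3 * K) ^ (8 + 1)) ^ 2 ≤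
        2 ^ 8 * (8 * C) * ((J + 1) * F) ^ 2 := by
      apply mul_le_mul _ h7 (by positivity) (by positivity)
      have : (0 : ℝ) ≤ 8 * C := by positivity
      nlinarith
    have h9 : 8 * C * ((J + 1) * F) ^ 2 ≤ F / 8 := by
      have h10 : 64 * C * (J + 1) ^ 2 * F ≤ 1 := by
        calc 64 * C * (J + 1) ^ 2 * F ≤ 64 * C * (J + 1) ^ 2 * δ₀ := by gcongr
          _ = 1 := by rw [hδ₀]; field_simp
      have h11 : 8 * C * ((J + 1) * F) ^ 2 = (64 * C * (J + 1) ^ 2 * F) * F / 8 := by ring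
      rw [h11]
      have := mul_le_mul_of_nonneg_right h10 hF0
      linarith
    have h12 : (2 : ℝ) ^ 8 = 256 := by norm_num
    rw [h12] at ht h8
    linarith
  choose! f hf0 hfk hff using hstep
  -- the start
  obtain ⟨H₀, hH₀, hsm⟩ := hr (8 * ρ ^ 2 * δ₀) (by positivity)
  have hfar0 : far μ H₀ ρ ≤ δ₀ := by
    have h1 : 8 * ρ ^ 2 * far μ H₀ ρ ≤ ∫ x, (1 - (fourier H₀ x : ℂ).re) ∂μ := by
      have hi : Integrable (fun x : UnitAddCircle => 1 - (fourier H₀ x : ℂ).re) μ := by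
        refine Integrable.of_bound (measurable_const.sub
          (Complex.measurable_re.comp (fou_meas H₀))).aestronglyMeasurable 2
          (Eventually.of_forall fun x => ?_)
        rw [Real.norm_eq_abs, abs_of_nonneg (re_nonneg _ x)]
        exact re_le_two _ x
      have h2 : ∫ x, ({x : UnitAddCircle | ρ < ‖H₀ • x‖}).indicator (fun _ => 8 * ρ ^ 2) x ∂μ ≤
          ∫ x, (1 - (fourier H₀ x : ℂ).re) ∂μ := by
        apply integral_mono ((integrable_const _).indicator (far_set_meas _ _)) hi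
        intro x
        by_cases hx : ρ < ‖H₀ • x‖
        · simp only
          rw [Set.indicator_of_mem (by exact hx)]
          refine le_trans ?_ (re_lower H₀ x)
          have := pow_le_pow_left₀ hρ0.le hx.le 2
          linarith
        · simp only
          rw [Set.indicator_of_notMem (by exact hx)]
          exact re_nonneg _ x
      rw [integral_indicator_const _ (far_set_meas _ _), smul_eq_mul] at h2
      unfold far
      linarith
    have h3 : 8 * ρ ^ 2 * far μ H₀ ρ < 8 * ρ ^ 2 * δ₀ := lt_of_le_of_lt h1 hsm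
    exact (lt_of_mul_lt_mul_left h3 (by positivity)).le
  set Hs : ℕ → ℤ := fun k => Nat.rec H₀ (fun _ H => f H * H) k with hHs
  have hHs0 : Hs 0 = H₀ := rfl
  have hHss : ∀ k, Hs (k + 1) = f (Hs k) * Hs k := fun k => rfl
  have hdec : ∀ k, far μ (Hs k) ρ ≤ δ₀ / 4 ^ k := by
    intro k
    induction k with
    | zero => simpa [hHs0] using hfar0
    | succ k ih =>
      have h1 : far μ (Hs k) ρ ≤ δ₀ := ih.trans (div_le_self hδ₀0.le (one_le_pow₀ (by norm_num)))
      rw [hHss]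
      calc far μ (f (Hs k) * Hs k) ρ ≤ far μ (Hs k) ρ / 4 := hff _ h1
        _ ≤ δ₀ / 4 ^ k / 4 := by gcongr
        _ = δ₀ / 4 ^ (k + 1) := by rw [pow_succ, div_div]
  have hle : ∀ k, far μ (Hs k) ρ ≤ δ₀ := fun k =>
    (hdec k).trans (div_le_self hδ₀0.le (one_le_pow₀ (by norm_num)))
  have hne : ∀ k, Hs k ≠ 0 := by
    intro k
    induction k with
    | zero => exact hH₀
    | succ k ih => rw [hHss]; exact mul_ne_zero (hf0 _ (hle k)) ih
  obtain ⟨b, hbb⟩ : ∃ b : ℕ, K ^ 8 < (p : ℝ) ^ b := pow_unbounded_of_one_lt _ hp1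
  set s : ℕ → Set UnitAddCircle := fun k => {x | ρ / p ^ (k + b) < ‖Hs k • x‖} with hs
  have hsum : ∑' k, μ (s k) ≠ ∞ := by
    have h1 : ∀ k, μ (s k) ≤ ENNReal.ofReal ((k + b + 1) * (δ₀ / 4 ^ k)) := by
      intro k
      have h2 := far_growth hp μ hμp (Hs k) (k + b)
      have h3 : far μ (Hs k) (ρ / p ^ (k + b)) ≤ (k + b + 1) * (δ₀ / 4 ^ k) := by
        refine h2.trans ?_
        push_cast
        exact mul_le_mul_of_nonneg_left (hdec k) (by positivity)
      rw [← ENNReal.ofReal_toReal (measure_ne_top μ (s k))]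
      exact ENNReal.ofReal_le_ofReal h3
    refine ne_top_of_le_ne_top ?_ (ENNReal.tsum_le_tsum h1)
    have hsu : Summable (fun k : ℕ => ((k : ℝ) + b + 1) * (δ₀ / 4 ^ k)) := by
      have s1 : Summable (fun k : ℕ => (k : ℝ) ^ 1 * (1 / 4 : ℝ) ^ k) :=
        summable_pow_mul_geometric_of_norm_lt_one 1 (by norm_num)
      have s2 : Summable (fun k : ℕ => (1 / 4 : ℝ) ^ k) :=
        summable_geometric_of_lt_one (by norm_num) (by norm_num)
      refine ((s1.mul_left δ₀).add (s2.mul_left (δ₀ * (b + 1)))).congr (fun k => ?_)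
      rw [one_div, inv_pow]
      field_simp
      ring
    rw [← ENNReal.ofReal_tsum_of_nonneg (fun k => by positivity) hsu]
    exact ENNReal.ofReal_ne_top
  have hBC := ae_eventually_notMem hsum
  -- torsion
  have htor : ∀ᵐ x ∂μ, ∃ k, Hs k • x = 0 := by
    filter_upwards [hBC] with x hx
    obtain ⟨k₀, hk₀⟩ := eventually_atTop.mp hx
    refine ⟨k₀, ?_⟩
    have h1 : ∀ k, k₀ ≤ k → ‖Hs k • x‖ ≤ ρ / p ^ (k + b) := fun k hk => not_lt.mp (hk₀ k hk)
    have h2 : ∀ j, ‖Hs k₀ • x‖ ≤ ‖Hs (k₀ + j) • x‖ := by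
      intro j
      induction j with
      | zero => exact le_rfl
      | succ j ih =>
        refine ih.trans ?_
        have e1 : Hs (k₀ + (j + 1)) = f (Hs (k₀ + j)) * Hs (k₀ + j) := hHss _
        rw [e1, mul_smul]
        have h3 := h1 (k₀ + j) (by omega)
        have h4 := hfk _ (hle (k₀ + j))
        have h5 : |(f (Hs (k₀ + j)) : ℝ)| * ‖Hs (k₀ + j) • x‖ ≤ 1 / 2 := by
          calc |(f (Hs (k₀ + j)) : ℝ)| * ‖Hs (k₀ + j) • x‖
              ≤ (p : ℝ) ^ b * (ρ / p ^ (k₀ + j + b)) :=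
                mul_le_mul (h4.trans hbb.le) h3 (norm_nonneg _) (by positivity)
            _ = ρ / p ^ (k₀ + j) := by
                rw [pow_add _ (k₀ + j) b]; field_simp
            _ ≤ ρ := div_le_self hρ0.le (one_le_pow₀ hp1.le)
            _ ≤ 1 / 2 := by
                rw [hρ]
                apply one_div_le_one_div_of_le (by norm_num)
                linarith
        rw [zsmul_norm_eq _ h5]
        have h6 : (1 : ℝ) ≤ |(f (Hs (k₀ + j)) : ℝ)| := by
          have := Int.one_le_abs (hf0 _ (hle (k₀ + j)))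
          exact_mod_cast this
        have := norm_nonneg (Hs (k₀ + j) • x)
        nlinarith
    have h3 : ‖Hs k₀ • x‖ ≤ 0 := by
      have hlim : Tendsto (fun j : ℕ => ρ / (p : ℝ) ^ (k₀ + j + b)) atTop (𝓝 0) := by
        have h4 : Tendsto (fun j : ℕ => ρ / (p : ℝ) ^ (k₀ + b) * (1 / p : ℝ) ^ j) atTop
            (𝓝 (ρ / (p : ℝ) ^ (k₀ + b) * 0)) := by
          apply Tendsto.const_mul
          apply tendsto_pow_atTop_nhds_zero_of_lt_one (by positivity)
          rw [div_lt_one hp0]; exact hp1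
        rw [mul_zero] at h4
        refine h4.congr (fun j => ?_)
        rw [one_div, inv_pow, show k₀ + j + b = (k₀ + b) + j by ring, pow_add _ (k₀ + b) j]
        field_simp
      exact ge_of_tendsto' hlim (fun j => (h2 j).trans (h1 _ (by omega)))
    exact norm_le_zero_iff.mp h3
  by_contra hcon
  push Not at hcon
  have hcount : (⋃ k, {x : UnitAddCircle | Hs k • x = 0}).Countable := by
    apply Set.countable_iUnion
    intro k
    have h1 : 0 < (Hs k).natAbs := Int.natAbs_pos.mpr (hne k)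
    have h2 : {x : UnitAddCircle | Hs k • x = 0} ⊆
        {x : UnitAddCircle | (Hs k).natAbs • x = 0} := by
      intro x hx
      have hx' : Hs k • x = 0 := hx
      change (Hs k).natAbs • x = 0
      rcases Int.natAbs_eq (Hs k) with h | h
      · rw [← natCast_zsmul, ← h]; exact hx'
      · rw [← natCast_zsmul]
        have : (((Hs k).natAbs : ℤ)) = - Hs k := by omega
        rw [this, neg_smul, hx', neg_zero]
    exact ((AddCircle.finite_torsion (1 : ℝ) h1).subset h2).countable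
  have hz : μ (⋃ k, {x : UnitAddCircle | Hs k • x = 0}) = 0 := by
    rw [measure_null_iff_singleton hcount]
    exact fun x _ => hcon x
  have h1 : μ Set.univ = 0 := by
    refine measure_mono_null (t := (⋃ k, {x : UnitAddCircle | Hs k • x = 0}) ∪
      (⋃ k, {x : UnitAddCircle | Hs k • x = 0})ᶜ) (by rw [Set.union_compl_self]) ?_
    rw [measure_union_null_iff]
    refine ⟨hz, ?_⟩
    have := ae_iff.mp htor
    refine measure_mono_null ?_ this
    intro x hx
    simpa using hx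
  rw [measure_univ] at h1
  exact one_ne_zero h1

/-- **Singularity of linear images.** -/
theorem singular_main {p q : ℕ} (hp : 2 ≤ p) {μ : Measure UnitAddCircle}
    [IsProbabilityMeasure μ]
    (hμp : MeasurePreserving (fun x : UnitAddCircle => p • x) μ μ)
    (hμq : MeasurePreserving (fun x : UnitAddCircle => q • x) μ μ)
    (hJ : ∀ E : Set UnitAddCircle, MeasurableSet E →
      (fun x : UnitAddCircle => p • x) ⁻¹' E = E → (fun x : UnitAddCircle => q • x) ⁻¹' E = E →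
        μ E = 0 ∨ μ E = 1)
    (hat : ∀ x : UnitAddCircle, μ {x} = 0) (hvol : μ ≠ volume)
    {c₁ c₂ : ℤ} (hc₁ : c₁ ≠ 0) (hc₂ : c₂ ≠ 0)
    {ω : Measure UnitAddCircle} [IsProbabilityMeasure ω]
    (hωp : MeasurePreserving (fun x : UnitAddCircle => p • x) ω ω)
    (hωq : MeasurePreserving (fun x : UnitAddCircle => q • x) ω ω) :
    μ.MutuallySingular ((μ.prod (μ.prod ω)).map
      (fun z : UnitAddCircle × UnitAddCircle × UnitAddCircle =>
        c₁ • z.1 + c₂ • z.2.1 + z.2.2)) := by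
  by_contra hns
  have m1 : Measurable (fun z : UnitAddCircle × UnitAddCircle × UnitAddCircle => z.1) :=
    measurable_fst
  have m2 : Measurable (fun z : UnitAddCircle × UnitAddCircle × UnitAddCircle => z.2.1) :=
    measurable_fst.comp measurable_snd
  have m3 : Measurable (fun z : UnitAddCircle × UnitAddCircle × UnitAddCircle => z.2.2) :=
    measurable_snd.comp measurable_snd
  have hs : Measurable (fun z : UnitAddCircle × UnitAddCircle × UnitAddCircle =>
        c₁ • z.1 + c₂ • z.2.1 + z.2.2) :=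
    (((zsmul_meas c₁).comp m1).add ((zsmul_meas c₂).comp m2)).add m3
  have hJ' : JE (fun x : UnitAddCircle => p • x) (fun x : UnitAddCircle => q • x) μ := hJ
  have heq : ∀ (r : ℕ) (z : UnitAddCircle × UnitAddCircle × UnitAddCircle),
      c₁ • (r • z.1) + c₂ • (r • z.2.1) + r • z.2.2 = r • (c₁ • z.1 + c₂ • z.2.1 + z.2.2) := by
    intro r z
    rw [smul_add, smul_add, smul_comm c₁ r, smul_comm c₂ r]
  obtain ⟨N, hN, hNac, hNs, hN1, hN2, C, hC, r12, r13, r23⟩ :=
    joining (fun x => circ_comm p q x) hJ' hμp hμq hωp hωq hs (fun z => heq p z)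
      (fun z => heq q z) hns
  obtain ⟨A, hA, hA0, hAr⟩ := exists_rigid_set hp hμp hNac hc₁ hc₂ hNs hN1 hN2 hvol
  set K : ℝ := max |(c₁ : ℝ)| |(c₂ : ℝ)| with hK
  have hK1 : 1 ≤ K := by
    refine le_trans ?_ (le_max_left _ _)
    have := Int.one_le_abs hc₁
    exact_mod_cast this
  obtain ⟨x, hx⟩ := atom_of_branch hp hμp hc₁ hc₂ hC hK1 (le_max_left _ _) (le_max_right _ _)
    (fun H y hy => far_branch hNs hN1 hN2 hC r12 r13 r23 hK1 (le_max_left _ _)
      (le_max_right _ _) H hy)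
    (fun δ hδ => rigid_of_set hJ' hμp hμq hA hA0 hAr hδ)
  exact hx (hat x)

end Pool.Agent.Zk32
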