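import Mathlib
import Pool.Agent.Zk32.Circ

set_option autoImplicit false

open MeasureTheory Filter Topology Set
open scoped ENNReal BoundedContinuousFunction NNReal

namespace Pool.Agent.Zk32

lemma int_cont (κ : Measure UnitAddCircle) [IsFiniteMeasure κ] (g : C(UnitAddCircle, ℝ)) :
    Integrable g κ :=
  g.continuous.integrable_of_hasCompactSupport (HasCompactSupport.of_compactSpace g)

/-- approximating a closed set from above by continuous functions -/
lemma exists_cont_above (σ : Measure UnitAddCircle) [IsFiniteMeasure σ] {F : Set UnitAddCircle}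
    (hF : IsClosed F) {ε : ℝ} (hε : 0 < ε) :
    ∃ g : C(UnitAddCircle, ℝ), (∀ x, 0 ≤ g x) ∧ (∀ x, g x ≤ 1) ∧ (∀ x ∈ F, g x = 1) ∧
      ∫ x, g x ∂σ < σ.real F + ε := by
  have hpos : ∀ n : ℕ, (0 : ℝ) < 1 / ((n : ℝ) + 1) := fun n => by positivity
  have h := tendsto_integral_thickenedIndicator_of_isClosed σ hF hpos
    tendsto_one_div_add_atTop_nhds_zero_nat
  have hev := (tendsto_order.mp h).2 (σ.real F + ε) (by linarith)
  obtain ⟨n, hn⟩ := hev.exists
  refine ⟨⟨fun x => ((thickenedIndicator (hpos n) F x : ℝ≥0) : ℝ), ?_⟩, ?_, ?_, ?_, ?_⟩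
  · exact NNReal.continuous_coe.comp (thickenedIndicator (hpos n) F).continuous
  · intro x; exact NNReal.coe_nonneg _
  · intro x
    have := thickenedIndicator_le_one (hpos n) F x
    exact_mod_cast this
  · intro x hx
    have := thickenedIndicator_one (hpos n) F hx
    change ((thickenedIndicator (hpos n) F x : ℝ≥0) : ℝ) = 1
    rw [this]; rfl
  · exact hn

/-- domination of integrals of continuous functions implies absolute continuity -/
lemma ac_of_le {κ σ : Measure UnitAddCircle} [IsFiniteMeasure κ] [IsFiniteMeasure σ] {D : ℝ}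
    (hD : 0 < D) (h : ∀ g : C(UnitAddCircle, ℝ), (∀ x, 0 ≤ g x) → ∫ x, g x ∂κ ≤ D * ∫ x, g x ∂σ) :
    κ ≪ σ := by
  intro S hS
  obtain ⟨S', hSS', hS'm, hS'0⟩ := exists_measurable_superset_of_null hS
  refine measure_mono_null hSS' ?_
  rw [hS'm.measure_eq_iSup_isClosed_of_ne_top (measure_ne_top κ _)]
  simp only [ENNReal.iSup_eq_zero]
  intro F hFS hF
  have hσF : σ.real F = 0 := by
    rw [Measure.real, measure_mono_null hFS hS'0]; rfl
  have hκ : κ.real F ≤ 0 := by
    refine le_of_forall_pos_le_add (fun ε hε => ?_)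
    obtain ⟨g, hg0, hg1, hgF, hg⟩ := exists_cont_above σ hF (ε := ε / D) (by positivity)
    have h1 := h g hg0
    have h2 : κ.real F ≤ ∫ x, g x ∂κ := by
      have : ∫ x, F.indicator (fun _ => (1 : ℝ)) x ∂κ ≤ ∫ x, g x ∂κ := by
        apply integral_mono ((integrable_const _).indicator hF.measurableSet) (int_cont κ g)
        intro x
        by_cases hx : x ∈ F
        · simp only; rw [Set.indicator_of_mem hx, hgF x hx]
        · simp only; rw [Set.indicator_of_notMem hx]; exact hg0 x
      rw [integral_indicator_const _ hF.measurableSet] at this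
      simpa using this
    have h3 : D * ∫ x, g x ∂σ ≤ D * (ε / D) := by
      apply mul_le_mul_of_nonneg_left _ hD.le
      rw [hσF] at hg
      linarith
    have h4 : D * (ε / D) = ε := by field_simp
    linarith
  have h5 : κ.real F = 0 := le_antisymm hκ measureReal_nonneg
  exact (measureReal_eq_zero_iff (measure_ne_top κ F)).mp h5

/-- the smoothing of a function by `θ` -/
noncomputable def smo (θ : Measure UnitAddCircle) [IsFiniteMeasure θ] (g : C(UnitAddCircle, ℝ)) :
    C(UnitAddCircle, ℝ) where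
  toFun w := ∫ x, g (x + w) ∂θ
  continuous_toFun := by
    obtain ⟨B, hB⟩ := (isCompact_univ (X := UnitAddCircle)).exists_bound_of_continuousOn
      g.continuous.continuousOn
    apply continuous_of_dominated (bound := fun _ => B)
    · intro w
      exact (g.continuous.comp (continuous_id.add continuous_const)).aestronglyMeasurable
    · intro w
      exact Eventually.of_forall fun x => hB _ (Set.mem_univ _)
    · exact integrable_const _
    · exact Eventually.of_forall fun x => g.continuous.comp (continuous_const.add continuous_id)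

lemma smo_apply (θ : Measure UnitAddCircle) [IsFiniteMeasure θ] (g : C(UnitAddCircle, ℝ))
    (w : UnitAddCircle) : smo θ g w = ∫ x, g (x + w) ∂θ := rfl

/-- multiplication as a continuous map -/
def mulC (n : ℕ) : C(UnitAddCircle, UnitAddCircle) := ⟨fun x => n • x, by fun_prop⟩

lemma mulC_apply (n : ℕ) (x : UnitAddCircle) : mulC n x = n • x := rfl

lemma smo_mul {θ : Measure UnitAddCircle} [IsFiniteMeasure θ] {n : ℕ}
    (hθ : MeasurePreserving (fun x : UnitAddCircle => n • x) θ θ) (g : C(UnitAddCircle, ℝ))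
    (w : UnitAddCircle) : smo θ (g.comp (mulC n)) w = smo θ g (n • w) := by
  rw [smo_apply, smo_apply]
  have := integral_map (μ := θ) hθ.measurable.aemeasurable (f := fun x => g (x + n • w))
    (g.continuous.comp (continuous_id.add continuous_const)).aestronglyMeasurable
  rw [hθ.map_eq] at this
  rw [this]
  congr 1; funext x
  simp only [ContinuousMap.comp_apply, mulC_apply, smul_add]

/-- the two dominations -/
def Dom (μ θ : Measure UnitAddCircle) [IsFiniteMeasure θ] (D : ℝ)
    (κ ω : Measure UnitAddCircle) : Prop :=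
  (∀ g : C(UnitAddCircle, ℝ), (∀ x, 0 ≤ g x) → ∫ x, g x ∂κ ≤ D * ∫ x, g x ∂μ) ∧
  (∀ g : C(UnitAddCircle, ℝ), (∀ x, 0 ≤ g x) → ∫ x, g x ∂κ ≤ D * ∫ w, smo θ g w ∂ω)

lemma inv_iff {κ : Measure UnitAddCircle} [IsFiniteMeasure κ] (n : ℕ) :
    MeasurePreserving (fun x : UnitAddCircle => n • x) κ κ ↔
      ∀ g : C(UnitAddCircle, ℝ), ∫ x, g (n • x) ∂κ = ∫ x, g x ∂κ := by
  constructor
  · intro h g
    have := integral_map (μ := κ) h.measurable.aemeasurable (f := g)
      g.continuous.aestronglyMeasurable
    rw [h.map_eq] at this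
    exact this.symm
  · intro h
    refine ⟨nsmul_meas n, ?_⟩
    have : IsFiniteMeasure (κ.map (fun x : UnitAddCircle => n • x)) := by infer_instance
    refine ext_of_forall_integral_eq_of_IsFiniteMeasure fun f => ?_
    rw [integral_map (nsmul_meas n).aemeasurable f.continuous.aestronglyMeasurable]
    exact h f.toContinuousMap

/-- averaging: one step of the Krylov and Bogolyubov argument -/
lemma Dom.avg {μ θ : Measure UnitAddCircle} [IsProbabilityMeasure μ] [IsProbabilityMeasure θ]
    {D : ℝ} (n : ℕ)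
    (hμ : MeasurePreserving (fun x : UnitAddCircle => n • x) μ μ)
    (hθ : MeasurePreserving (fun x : UnitAddCircle => n • x) θ θ)
    (κ ω : ProbabilityMeasure UnitAddCircle)
    (h : Dom μ θ D (κ : Measure UnitAddCircle) (ω : Measure UnitAddCircle)) :
    ∃ κ' ω' : ProbabilityMeasure UnitAddCircle,
      Dom μ θ D (κ' : Measure UnitAddCircle) (ω' : Measure UnitAddCircle) ∧
      MeasurePreserving (fun x : UnitAddCircle => n • x) (κ' : Measure UnitAddCircle)
        (κ' : Measure UnitAddCircle) ∧
      MeasurePreserving (fun x : UnitAddCircle => n • x) (ω' : Measure UnitAddCircle)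
        (ω' : Measure UnitAddCircle) ∧
      (∀ m : ℕ, MeasurePreserving (fun x : UnitAddCircle => m • x) (κ : Measure UnitAddCircle)
        (κ : Measure UnitAddCircle) →
        MeasurePreserving (fun x : UnitAddCircle => m • x) (κ' : Measure UnitAddCircle)
        (κ' : Measure UnitAddCircle)) ∧
      (∀ m : ℕ, MeasurePreserving (fun x : UnitAddCircle => m • x) (ω : Measure UnitAddCircle)
        (ω : Measure UnitAddCircle) →
        MeasurePreserving (fun x : UnitAddCircle => m • x) (ω' : Measure UnitAddCircle)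
        (ω' : Measure UnitAddCircle)) := by
  -- averages of a measure
  have hpa : ∀ (κ : ProbabilityMeasure UnitAddCircle) (N : ℕ),
      ∃ κN : ProbabilityMeasure UnitAddCircle, ∀ g : C(UnitAddCircle, ℝ),
        ∫ x, g x ∂(κN : Measure UnitAddCircle) =
          (N + 1 : ℝ)⁻¹ * ∑ a ∈ Finset.range (N + 1),
            ∫ x, g (n ^ a • x) ∂(κ : Measure UnitAddCircle) := by
    intro κ N
    set ν : Measure UnitAddCircle := ((N + 1 : ℝ≥0) : ℝ≥0∞)⁻¹ • ∑ a ∈ Finset.range (N + 1),
      (κ : Measure UnitAddCircle).map (fun x : UnitAddCircle => n ^ a • x) with hν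
    have hp : IsProbabilityMeasure ν := by
      constructor
      rw [hν, Measure.smul_apply, Measure.finsetSum_apply]
      have : ∀ a ∈ Finset.range (N + 1), (κ : Measure UnitAddCircle).map
          (fun x : UnitAddCircle => n ^ a • x) Set.univ = 1 := by
        intro a _
        rw [Measure.map_apply (nsmul_meas _) MeasurableSet.univ, Set.preimage_univ, measure_univ]
      rw [Finset.sum_congr rfl this]
      simp only [Finset.sum_const, Finset.card_range, smul_eq_mul, nsmul_eq_mul, mul_one]
      rw [show (((N + 1 : ℕ) : ℝ≥0∞)) = ((N + 1 : ℝ≥0) : ℝ≥0∞) by push_cast; rfl]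
      exact ENNReal.inv_mul_cancel (by positivity) ENNReal.coe_ne_top
    refine ⟨⟨ν, hp⟩, fun g => ?_⟩
    change ∫ x, g x ∂ν = _
    rw [hν, integral_smul_measure, integral_finsetSum_measure]
    · congr 1
      · rw [ENNReal.toReal_inv]
        rfl
      · refine Finset.sum_congr rfl fun a _ => ?_
        rw [integral_map (nsmul_meas _).aemeasurable g.continuous.aestronglyMeasurable]
    · intro a _
      exact int_cont _ g
  choose avg havg using hpa
  set 𝒰 : Ultrafilter ℕ := Filter.hyperfilter ℕ with h𝒰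
  have hUtop : (𝒰 : Filter ℕ) ≤ atTop := by
    rw [← Nat.cofinite_eq_atTop]; exact Filter.hyperfilter_le_cofinite
  have hlim : ∀ κ : ProbabilityMeasure UnitAddCircle, ∃ κ' : ProbabilityMeasure UnitAddCircle,
      ∀ g : C(UnitAddCircle, ℝ), Tendsto (fun N => ∫ x, g x ∂(avg κ N : Measure UnitAddCircle))
        (𝒰 : Filter ℕ) (𝓝 (∫ x, g x ∂(κ' : Measure UnitAddCircle))) := by
    intro κ
    obtain ⟨κ', -, hκ'⟩ := (isCompact_univ (X := ProbabilityMeasure UnitAddCircle)).ultrafilter_le_nhds
      (𝒰.map (avg κ)) (by simp)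
    refine ⟨κ', fun g => ?_⟩
    have h1 : Tendsto (avg κ) (𝒰 : Filter ℕ) (𝓝 κ') := hκ'
    rw [ProbabilityMeasure.tendsto_iff_forall_integral_tendsto] at h1
    exact h1 (BoundedContinuousFunction.mkOfCompact g)
  obtain ⟨κ', hκ'⟩ := hlim κ
  obtain ⟨ω', hω'⟩ := hlim ω
  -- powers preserve
  have hpow : ∀ {σ : Measure UnitAddCircle}, MeasurePreserving (fun x : UnitAddCircle => n • x) σ σ →
      ∀ a : ℕ, MeasurePreserving (fun x : UnitAddCircle => n ^ a • x) σ σ := by
    intro σ hσ a
    induction a with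
    | zero =>
      simp only [pow_zero, one_smul]
      exact MeasurePreserving.id σ
    | succ a ih =>
      have := hσ.comp ih
      convert this using 1
      funext x
      simp only [Function.comp]
      rw [pow_succ', mul_smul]
  have hinvn : ∀ (κ κ' : ProbabilityMeasure UnitAddCircle),
      (∀ g : C(UnitAddCircle, ℝ), Tendsto (fun N => ∫ x, g x ∂(avg κ N : Measure UnitAddCircle))
        (𝒰 : Filter ℕ) (𝓝 (∫ x, g x ∂(κ' : Measure UnitAddCircle)))) →
      MeasurePreserving (fun x : UnitAddCircle => n • x) (κ' : Measure UnitAddCircle)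
        (κ' : Measure UnitAddCircle) := by
    intro κ κ' hκ'
    rw [inv_iff]
    intro g
    obtain ⟨B, hB⟩ := (isCompact_univ (X := UnitAddCircle)).exists_bound_of_continuousOn
      g.continuous.continuousOn
    have hB' : ∀ x, ‖g x‖ ≤ B := fun x => hB x (Set.mem_univ _)
    have h1 := (hκ' (g.comp (mulC n))).sub (hκ' g)
    have h2 : Tendsto (fun N => ∫ x, (g.comp (mulC n)) x ∂(avg κ N : Measure UnitAddCircle) -
        ∫ x, g x ∂(avg κ N : Measure UnitAddCircle)) (𝒰 : Filter ℕ) (𝓝 0) := by
      have h3 : Tendsto (fun N : ℕ => 2 * B * (1 / ((N : ℝ) + 1))) (𝒰 : Filter ℕ) (𝓝 0) := by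
        have := (tendsto_one_div_add_atTop_nhds_zero_nat (𝕜 := ℝ)).const_mul (2 * B)
        rw [mul_zero] at this
        exact this.mono_left hUtop
      refine squeeze_zero_norm (fun N => ?_) h3
      rw [havg, havg, ← mul_sub, ← Finset.sum_sub_distrib]
      have e : ∀ a ∈ Finset.range (N + 1),
          ∫ x, (g.comp (mulC n)) (n ^ a • x) ∂(κ : Measure UnitAddCircle) -
            ∫ x, g (n ^ a • x) ∂(κ : Measure UnitAddCircle) =
          ∫ x, g (n ^ (a + 1) • x) ∂(κ : Measure UnitAddCircle) -
            ∫ x, g (n ^ a • x) ∂(κ : Measure UnitAddCircle) := by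
        intro a _
        congr 2; funext x
        simp only [ContinuousMap.comp_apply, mulC_apply, smul_smul, pow_succ']
      rw [Finset.sum_congr rfl e,
        Finset.sum_range_sub (fun a => ∫ x, g (n ^ a • x) ∂(κ : Measure UnitAddCircle)),
        norm_mul]
      have hb : ∀ a : ℕ, ‖∫ x, g (n ^ a • x) ∂(κ : Measure UnitAddCircle)‖ ≤ B := by
        intro a
        have := norm_integral_le_of_norm_le_const (μ := (κ : Measure UnitAddCircle))
          (f := fun x => g (n ^ a • x)) (C := B) (Eventually.of_forall fun x => hB' _)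
        simpa using this
      have h4 := norm_sub_le (∫ x, g (n ^ (N + 1) • x) ∂(κ : Measure UnitAddCircle))
        (∫ x, g (n ^ 0 • x) ∂(κ : Measure UnitAddCircle))
      have h5 := hb (N + 1)
      have h6 := hb 0
      have h7 : ‖(N + 1 : ℝ)⁻¹‖ = 1 / ((N : ℝ) + 1) := by
        rw [Real.norm_eq_abs, abs_of_nonneg (by positivity), one_div]
      rw [h7]
      have h8 : (0 : ℝ) ≤ 1 / ((N : ℝ) + 1) := by positivity
      nlinarith
    have h9 := tendsto_nhds_unique h1 h2
    have h10 : ∫ x, (g.comp (mulC n)) x ∂(κ' : Measure UnitAddCircle) =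
      ∫ x, g x ∂(κ' : Measure UnitAddCircle) := by linarith
    exact h10
  have hinvm : ∀ (κ κ' : ProbabilityMeasure UnitAddCircle),
      (∀ g : C(UnitAddCircle, ℝ), Tendsto (fun N => ∫ x, g x ∂(avg κ N : Measure UnitAddCircle))
        (𝒰 : Filter ℕ) (𝓝 (∫ x, g x ∂(κ' : Measure UnitAddCircle)))) → ∀ m : ℕ,
      MeasurePreserving (fun x : UnitAddCircle => m • x) (κ : Measure UnitAddCircle)
        (κ : Measure UnitAddCircle) →
      MeasurePreserving (fun x : UnitAddCircle => m • x) (κ' : Measure UnitAddCircle)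
        (κ' : Measure UnitAddCircle) := by
    intro κ κ' hκ' m hm
    rw [inv_iff] at hm ⊢
    intro g
    have h1 := hκ' (g.comp (mulC m))
    have h2 := hκ' g
    have h3 : ∀ N, ∫ x, (g.comp (mulC m)) x ∂(avg κ N : Measure UnitAddCircle) =
        ∫ x, g x ∂(avg κ N : Measure UnitAddCircle) := by
      intro N
      rw [havg, havg]
      congr 1
      refine Finset.sum_congr rfl fun a _ => ?_
      have h4 := hm (g.comp (mulC (n ^ a)))
      simp only [ContinuousMap.comp_apply, mulC_apply] at h4 ⊢
      rw [← h4]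
      congr 1; funext x
      rw [smul_comm]
    simp only [h3] at h1
    exact tendsto_nhds_unique h1 h2
  refine ⟨κ', ω', ⟨fun g hg => ?_, fun g hg => ?_⟩, hinvn κ κ' hκ', hinvn ω ω' hω',
    fun m hm => hinvm κ κ' hκ' m hm, fun m hm => hinvm ω ω' hω' m hm⟩
  · refine le_of_tendsto (hκ' g) (Eventually.of_forall fun N => ?_)
    rw [havg]
    have h1 : ∀ a ∈ Finset.range (N + 1), ∫ x, g (n ^ a • x) ∂(κ : Measure UnitAddCircle) ≤
        D * ∫ x, g x ∂μ := by
      intro a _
      have h2 := h.1 (g.comp (mulC (n ^ a))) (fun x => hg _)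
      have h3 := (inv_iff (n ^ a)).mp (hpow hμ a) g
      simp only [ContinuousMap.comp_apply, mulC_apply] at h2
      rw [h3] at h2
      exact h2
    calc (N + 1 : ℝ)⁻¹ * ∑ a ∈ Finset.range (N + 1),
          ∫ x, g (n ^ a • x) ∂(κ : Measure UnitAddCircle)
        ≤ (N + 1 : ℝ)⁻¹ * ∑ _a ∈ Finset.range (N + 1), D * ∫ x, g x ∂μ := by
          gcongr with a ha; exact h1 a ha
      _ = D * ∫ x, g x ∂μ := by
          rw [Finset.sum_const, Finset.card_range, nsmul_eq_mul]
          push_cast
          field_simp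
  · refine le_of_tendsto_of_tendsto (hκ' g) ((hω' (smo θ g)).const_mul D)
      (Eventually.of_forall fun N => ?_)
    simp only
    rw [havg, havg]
    have h1 : ∀ a ∈ Finset.range (N + 1), ∫ x, g (n ^ a • x) ∂(κ : Measure UnitAddCircle) ≤
        D * ∫ x, smo θ g (n ^ a • x) ∂(ω : Measure UnitAddCircle) := by
      intro a _
      have h2 := h.2 (g.comp (mulC (n ^ a))) (fun x => hg _)
      simp only [smo_mul (hpow hθ a)] at h2
      exact h2
    calc (N + 1 : ℝ)⁻¹ * ∑ a ∈ Finset.range (N + 1),
          ∫ x, g (n ^ a • x) ∂(κ : Measure UnitAddCircle)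
        ≤ (N + 1 : ℝ)⁻¹ * ∑ a ∈ Finset.range (N + 1),
            D * ∫ x, smo θ g (n ^ a • x) ∂(ω : Measure UnitAddCircle) := by
          gcongr with a ha; exact h1 a ha
      _ = D * ((N + 1 : ℝ)⁻¹ * ∑ a ∈ Finset.range (N + 1),
            ∫ x, smo θ g (n ^ a • x) ∂(ω : Measure UnitAddCircle)) := by
          rw [← Finset.mul_sum]; ring

end Pool.Agent.Zk32
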