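import Mathlib
import Pool.Agent.Zk32.Kry
import Pool.Agent.Zk32.Final

set_option autoImplicit false

open MeasureTheory Filter Topology Set
open scoped ENNReal BoundedContinuousFunction NNReal

namespace Pool.Agent.Zk32

/-- the law of `c₁ x + c₂ y` -/
noncomputable def lin (μ : Measure UnitAddCircle) (c₁ c₂ : ℤ) : Measure UnitAddCircle :=
  (μ.prod μ).map (fun z : UnitAddCircle × UnitAddCircle => c₁ • z.1 + c₂ • z.2)

lemma lin_meas (c₁ c₂ : ℤ) :
    Measurable (fun z : UnitAddCircle × UnitAddCircle => c₁ • z.1 + c₂ • z.2) :=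
  ((zsmul_meas c₁).comp measurable_fst).add ((zsmul_meas c₂).comp measurable_snd)

instance lin_prob (μ : Measure UnitAddCircle) [IsProbabilityMeasure μ] (c₁ c₂ : ℤ) :
    IsProbabilityMeasure (lin μ c₁ c₂) :=
  Measure.isProbabilityMeasure_map (lin_meas c₁ c₂).aemeasurable

lemma lin_inv {μ : Measure UnitAddCircle} [IsProbabilityMeasure μ] (c₁ c₂ : ℤ) {n : ℕ}
    (h : MeasurePreserving (fun x : UnitAddCircle => n • x) μ μ) :
    MeasurePreserving (fun x : UnitAddCircle => n • x) (lin μ c₁ c₂) (lin μ c₁ c₂) := by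
  refine ((lin_meas c₁ c₂).measurePreserving (μ.prod μ)).of_semiconj (h.prod h) ?_ (nsmul_meas n)
  intro z
  simp only [Prod.map]
  rw [smul_comm c₁ n, smul_comm c₂ n, smul_add]

lemma law_eq (μ ω : Measure UnitAddCircle) [IsProbabilityMeasure μ] [IsProbabilityMeasure ω]
    (c₁ c₂ : ℤ) :
    (μ.prod (μ.prod ω)).map (fun z : UnitAddCircle × UnitAddCircle × UnitAddCircle =>
        c₁ • z.1 + c₂ • z.2.1 + z.2.2) =
      ((lin μ c₁ c₂).prod ω).map (fun z : UnitAddCircle × UnitAddCircle => z.1 + z.2) := by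
  have m1 : Measurable (fun z : UnitAddCircle × UnitAddCircle × UnitAddCircle => z.1) :=
    measurable_fst
  have m2 : Measurable (fun z : UnitAddCircle × UnitAddCircle × UnitAddCircle => z.2.1) :=
    measurable_fst.comp measurable_snd
  have m3 : Measurable (fun z : UnitAddCircle × UnitAddCircle × UnitAddCircle => z.2.2) :=
    measurable_snd.comp measurable_snd
  have hs : Measurable (fun z : UnitAddCircle × UnitAddCircle × UnitAddCircle =>
        c₁ • z.1 + c₂ • z.2.1 + z.2.2) :=
    (((zsmul_meas c₁).comp m1).add ((zsmul_meas c₂).comp m2)).add m3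
  have hadd : Measurable (fun z : UnitAddCircle × UnitAddCircle => z.1 + z.2) :=
    measurable_fst.add measurable_snd
  have e1 : (lin μ c₁ c₂).prod ω = ((μ.prod μ).prod ω).map
      (Prod.map (fun z : UnitAddCircle × UnitAddCircle => c₁ • z.1 + c₂ • z.2) id) := by
    rw [← Measure.map_prod_map _ _ (lin_meas c₁ c₂) measurable_id, Measure.map_id]
    rfl
  rw [e1, Measure.map_map hadd ((lin_meas c₁ c₂).prodMap measurable_id),
    ← Measure.prodAssoc_prod, Measure.map_map hs (MeasurableEquiv.measurable _)]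
  rfl

lemma int_law (θ ω : Measure UnitAddCircle) [IsProbabilityMeasure θ] [IsProbabilityMeasure ω]
    (g : C(UnitAddCircle, ℝ)) :
    ∫ x, g x ∂((θ.prod ω).map (fun z : UnitAddCircle × UnitAddCircle => z.1 + z.2)) =
      ∫ w, smo θ g w ∂ω := by
  have hadd : Measurable (fun z : UnitAddCircle × UnitAddCircle => z.1 + z.2) :=
    measurable_fst.add measurable_snd
  rw [integral_map hadd.aemeasurable g.continuous.aestronglyMeasurable]
  have hi : Integrable (fun z : UnitAddCircle × UnitAddCircle => g (z.1 + z.2)) (θ.prod ω) := by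
    have hc : Continuous (fun z : UnitAddCircle × UnitAddCircle => g (z.1 + z.2)) := by fun_prop
    exact hc.integrable_of_hasCompactSupport (HasCompactSupport.of_compactSpace _)
  rw [integral_prod_symm _ hi]
  rfl

/-- from a non-singular relation to a dominated pair -/
lemma dom_of_not_singular {μ θ ω : Measure UnitAddCircle} [IsProbabilityMeasure μ]
    [IsProbabilityMeasure θ] [IsProbabilityMeasure ω]
    (hns : ¬ μ.MutuallySingular
      ((θ.prod ω).map (fun z : UnitAddCircle × UnitAddCircle => z.1 + z.2))) :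
    ∃ D : ℝ, 0 < D ∧ ∃ κ : ProbabilityMeasure UnitAddCircle,
      Dom μ θ D (κ : Measure UnitAddCircle) ω := by
  set ν := (θ.prod ω).map (fun z : UnitAddCircle × UnitAddCircle => z.1 + z.2) with hν
  have hadd : Measurable (fun z : UnitAddCircle × UnitAddCircle => z.1 + z.2) :=
    measurable_fst.add measurable_snd
  have hνp : IsProbabilityMeasure ν := Measure.isProbabilityMeasure_map hadd.aemeasurable
  set h := ν.rnDeriv μ with hh
  have hm : Measurable h := Measure.measurable_rnDeriv _ _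
  set κ₀ := μ.withDensity (fun x => min (h x) 1) with hκ₀
  have k1 : κ₀ ≤ μ := by
    refine Measure.le_iff.mpr fun s hs => ?_
    rw [hκ₀, withDensity_apply _ hs]
    calc ∫⁻ x in s, min (h x) 1 ∂μ ≤ ∫⁻ _ in s, 1 ∂μ := lintegral_mono (fun x => min_le_right _ _)
      _ = μ s := by simp
  have k2 : κ₀ ≤ ν := by
    refine Measure.le_iff.mpr fun s hs => ?_
    rw [hκ₀, withDensity_apply _ hs]
    calc ∫⁻ x in s, min (h x) 1 ∂μ ≤ ∫⁻ x in s, h x ∂μ := lintegral_mono (fun x => min_le_left _ _)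
      _ ≤ ν s := Measure.setLIntegral_rnDeriv_le _
  have k0 : κ₀ Set.univ ≠ 0 := by
    intro h0
    rw [Measure.measure_univ_eq_zero, hκ₀, withDensity_eq_zero_iff
      (hm.min measurable_const).aemeasurable] at h0
    apply hns
    apply Measure.MutuallySingular.symm
    have hld : ν.HaveLebesgueDecomposition μ :=
      Measure.haveLebesgueDecomposition_of_sigmaFinite ν μ
    refine (Measure.rnDeriv_eq_zero ν μ).mp ?_
    filter_upwards [h0] with x hx
    simp only [Pi.zero_apply] at hx ⊢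
    rcases min_choice (h x) 1 with h1 | h1
    · change h x = 0
      rw [← h1]; exact hx
    · rw [h1] at hx; exact absurd hx one_ne_zero
  have kt : κ₀ Set.univ ≠ ∞ := by
    have : κ₀ Set.univ ≤ 1 := (k1 _).trans_eq measure_univ
    exact ne_top_of_le_ne_top ENNReal.one_ne_top this
  have : IsFiniteMeasure κ₀ := ⟨lt_top_iff_ne_top.mpr kt⟩
  have hκp : IsProbabilityMeasure ((κ₀ Set.univ)⁻¹ • κ₀) := by
    constructor
    rw [Measure.smul_apply, smul_eq_mul, ENNReal.inv_mul_cancel k0 kt]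
  set D : ℝ := ((κ₀ Set.univ)⁻¹).toReal with hD
  have hD0 : 0 < D := ENNReal.toReal_pos (ENNReal.inv_ne_zero.mpr kt) (ENNReal.inv_ne_top.mpr k0)
  refine ⟨D, hD0, ⟨(κ₀ Set.univ)⁻¹ • κ₀, hκp⟩, ⟨fun g hg => ?_, fun g hg => ?_⟩⟩
  · change ∫ x, g x ∂((κ₀ Set.univ)⁻¹ • κ₀) ≤ _
    rw [integral_smul_measure, smul_eq_mul]
    apply mul_le_mul_of_nonneg_left _ hD0.le
    exact integral_mono_measure k1 (Eventually.of_forall hg) (int_cont μ g)
  · change ∫ x, g x ∂((κ₀ Set.univ)⁻¹ • κ₀) ≤ _
    rw [integral_smul_measure, smul_eq_mul]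
    apply mul_le_mul_of_nonneg_left _ hD0.le
    rw [← int_law θ ω g]
    exact integral_mono_measure k2 (Eventually.of_forall hg) (int_cont ν g)

/-- **Singularity, without invariance of the third factor.** -/
theorem singular_all {p q : ℕ} (hp : 2 ≤ p) {μ : Measure UnitAddCircle}
    [IsProbabilityMeasure μ]
    (hμp : MeasurePreserving (fun x : UnitAddCircle => p • x) μ μ)
    (hμq : MeasurePreserving (fun x : UnitAddCircle => q • x) μ μ)
    (hJ : ∀ E : Set UnitAddCircle, MeasurableSet E →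
      (fun x : UnitAddCircle => p • x) ⁻¹' E = E → (fun x : UnitAddCircle => q • x) ⁻¹' E = E →
        μ E = 0 ∨ μ E = 1)
    (hat : ∀ x : UnitAddCircle, μ {x} = 0) (hvol : μ ≠ volume)
    {c₁ c₂ : ℤ} (hc₁ : c₁ ≠ 0) (hc₂ : c₂ ≠ 0)
    (ω : Measure UnitAddCircle) [IsProbabilityMeasure ω] :
    μ.MutuallySingular
      (((lin μ c₁ c₂).prod ω).map (fun z : UnitAddCircle × UnitAddCircle => z.1 + z.2)) := by
  by_contra hns
  obtain ⟨D, hD, κ, hκ⟩ := dom_of_not_singular hns
  obtain ⟨κ₁, ω₁, d1, i1, j1, -, -⟩ := Dom.avg p hμp (lin_inv c₁ c₂ hμp) κ ⟨ω, inferInstance⟩ hκ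
  obtain ⟨κ₂, ω₂, d2, i2, j2, i3, j3⟩ := Dom.avg q hμq (lin_inv c₁ c₂ hμq) κ₁ ω₁ d1
  have i4 := i3 p i1
  have j4 := j3 p j1
  have hJ' : JE (fun x : UnitAddCircle => p • x) (fun x : UnitAddCircle => q • x) μ := hJ
  have hκμ : (κ₂ : Measure UnitAddCircle) = μ :=
    hJ'.eq (fun x => circ_comm p q x) hμp hμq i4 i2 (ac_of_le hD d2.1)
  have hsing := singular_main (q := q) hp hμp hμq hJ hat hvol hc₁ hc₂ (ω := (ω₂ : Measure UnitAddCircle))
    j4 j2
  rw [law_eq] at hsing
  have hadd : Measurable (fun z : UnitAddCircle × UnitAddCircle => z.1 + z.2) :=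
    measurable_fst.add measurable_snd
  have : IsProbabilityMeasure (((lin μ c₁ c₂).prod (ω₂ : Measure UnitAddCircle)).map
      (fun z : UnitAddCircle × UnitAddCircle => z.1 + z.2)) :=
    Measure.isProbabilityMeasure_map hadd.aemeasurable
  have hac : μ ≪ (((lin μ c₁ c₂).prod (ω₂ : Measure UnitAddCircle)).map
      (fun z : UnitAddCircle × UnitAddCircle => z.1 + z.2)) := by
    refine ac_of_le hD (fun g hg => ?_)
    have h1 := d2.2 g hg
    rw [hκμ] at h1
    rw [int_law]
    exact h1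
  have h0 : μ = 0 := Measure.eq_zero_of_absolutelyContinuous_of_mutuallySingular hac hsing
  have : μ Set.univ = 1 := measure_univ
  rw [h0] at this
  simp at this

end Pool.Agent.Zk32
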