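import Mathlib
import Pool.Agent.Zk32.Sing

set_option autoImplicit false

open MeasureTheory Filter Topology Set
open scoped ENNReal BoundedContinuousFunction NNReal CompactlySupported

namespace Pool.Agent.Zk32

lemma smo_add (θ : Measure UnitAddCircle) [IsFiniteMeasure θ] (g h : C(UnitAddCircle, ℝ)) :
    smo θ (g + h) = smo θ g + smo θ h := by
  ext w
  rw [ContinuousMap.add_apply, smo_apply, smo_apply, smo_apply]
  have hi : ∀ g : C(UnitAddCircle, ℝ), Integrable (fun x => g (x + w)) θ := fun g =>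
    int_cont θ (g.comp ⟨fun x => x + w, by fun_prop⟩)
  rw [← integral_add (hi g) (hi h)]
  rfl

lemma smo_smul (θ : Measure UnitAddCircle) [IsFiniteMeasure θ] (c : ℝ) (g : C(UnitAddCircle, ℝ)) :
    smo θ (c • g) = c • smo θ g := by
  ext w
  rw [ContinuousMap.smul_apply, smo_apply, smo_apply, smul_eq_mul, ← integral_const_mul]
  rfl

lemma smo_nonneg (θ : Measure UnitAddCircle) [IsFiniteMeasure θ] {g : C(UnitAddCircle, ℝ)}
    (h : ∀ x, 0 ≤ g x) (w : UnitAddCircle) : 0 ≤ smo θ g w := by
  rw [smo_apply]; exact integral_nonneg (fun x => h _)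

/-- positive functionals on the circle come from probability measures -/
lemma riesz_prob (L : C(UnitAddCircle, ℝ) →L[ℝ] ℝ) (hpos : ∀ g : C(UnitAddCircle, ℝ),
    (∀ x, 0 ≤ g x) → 0 ≤ L g) (h1 : L 1 = 1) :
    ∃ ω : Measure UnitAddCircle, IsProbabilityMeasure ω ∧ ∀ g : C(UnitAddCircle, ℝ),
      ∫ x, g x ∂ω = L g := by
  let Λ : C_c(UnitAddCircle, ℝ) →ₚ[ℝ] ℝ :=
  { toFun := fun g => L g.toContinuousMap
    map_add' := fun g g' => by
      have : (g + g').toContinuousMap = g.toContinuousMap + g'.toContinuousMap := rfl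
      rw [this, map_add]
    map_smul' := fun c g => by
      have : (c • g).toContinuousMap = c • g.toContinuousMap := rfl
      rw [this, map_smul]; rfl
    monotone' := fun g g' hgg' => by
      have h2 : 0 ≤ L (g'.toContinuousMap - g.toContinuousMap) := by
        apply hpos
        intro x
        have : g x ≤ g' x := hgg' x
        simp only [ContinuousMap.sub_apply]
        exact sub_nonneg.mpr this
      rw [map_sub] at h2
      exact sub_nonneg.mp h2 }
  have hint : ∀ g : C(UnitAddCircle, ℝ), ∫ x, g x ∂(RealRMK.rieszMeasure Λ) = L g := by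
    intro g
    let g' : C_c(UnitAddCircle, ℝ) :=
    { toFun := g
      hasCompactSupport' := HasCompactSupport.of_compactSpace _ }
    have := RealRMK.integral_rieszMeasure Λ g'
    exact this
  have hfin : IsFiniteMeasure (RealRMK.rieszMeasure Λ) := by
    constructor
    let o : C_c(UnitAddCircle, ℝ) :=
    { toFun := 1
      hasCompactSupport' := HasCompactSupport.of_compactSpace 1 }
    have : RealRMK.rieszMeasure Λ Set.univ ≤ ENNReal.ofReal (Λ o) :=
      RealRMK.rieszMeasure_le_of_eq_one Λ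
      (fun x ↦ by simp [o]) isCompact_univ (fun x ↦ by simp [o])
    exact this.trans_lt ENNReal.ofReal_lt_top
  refine ⟨RealRMK.rieszMeasure Λ, ⟨?_⟩, hint⟩
  have h2 := hint 1
  rw [h1] at h2
  simp only [ContinuousMap.one_apply, integral_const, smul_eq_mul, mul_one] at h2
  have h3 : ((RealRMK.rieszMeasure Λ) Set.univ).toReal = 1 := h2
  rw [← ENNReal.ofReal_toReal (measure_ne_top (RealRMK.rieszMeasure Λ) Set.univ), h3,
    ENNReal.ofReal_one]

/-- the minimax step -/
theorem unif_cont {μ θ : Measure UnitAddCircle} [IsProbabilityMeasure μ] [IsProbabilityMeasure θ]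
    (h : ∀ ω : Measure UnitAddCircle, IsProbabilityMeasure ω → μ.MutuallySingular
      ((θ.prod ω).map (fun z : UnitAddCircle × UnitAddCircle => z.1 + z.2)))
    {ε : ℝ} (hε : 0 < ε) :
    ∃ g : C(UnitAddCircle, ℝ), (∀ x, 0 ≤ g x) ∧ (∀ x, g x ≤ 1) ∧ (∀ t, smo θ g t < ε) ∧
      1 - ∫ x, g x ∂μ < ε := by
  by_contra hcon
  push Not at hcon
  have hc0 : ∀ g : C(UnitAddCircle, ℝ), (∀ x, g x ≤ 1) → 0 ≤ 1 - ∫ x, g x ∂μ := by
    intro g hg
    have : ∫ x, g x ∂μ ≤ ∫ _, (1 : ℝ) ∂μ := integral_mono (int_cont μ g) (integrable_const _) hg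
    simp only [integral_const, probReal_univ, smul_eq_mul, mul_one] at this
    linarith
  set O : Set C(UnitAddCircle, ℝ) := {f | MapsTo f Set.univ (Set.Iio ε)} with hO
  set S : Set C(UnitAddCircle, ℝ) := {f | ∃ g : C(UnitAddCircle, ℝ), (∀ x, 0 ≤ g x) ∧
    (∀ x, g x ≤ 1) ∧ ∀ t, f t = smo θ g t + (1 - ∫ x, g x ∂μ)} with hS
  have hOo : IsOpen O := ContinuousMap.isOpen_setOfPred_mapsTo isCompact_univ isOpen_Iio
  have hOc : Convex ℝ O := by
    intro f hf g hg a b ha hb hab x _
    have h1 : f x < ε := hf (Set.mem_univ x)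
    have h2 : g x < ε := hg (Set.mem_univ x)
    change a * f x + b * g x < ε
    rcases ha.eq_or_lt with h0 | h0
    · rw [← h0] at hab ⊢
      have : b = 1 := by linarith
      rw [this]; linarith
    · nlinarith
  have hSc : Convex ℝ S := by
    rintro f ⟨g, hg0, hg1, hg⟩ f' ⟨g', hg0', hg1', hg'⟩ a b ha hb hab
    refine ⟨a • g + b • g', fun x => ?_, fun x => ?_, fun t => ?_⟩
    · change 0 ≤ a * g x + b * g' x
      have := mul_nonneg ha (hg0 x)
      have := mul_nonneg hb (hg0' x)
      linarith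
    · change a * g x + b * g' x ≤ 1
      have := mul_le_mul_of_nonneg_left (hg1 x) ha
      have := mul_le_mul_of_nonneg_left (hg1' x) hb
      linarith
    · rw [smo_add, smo_smul, smo_smul]
      change a * f t + b * f' t = (a * smo θ g t + b * smo θ g' t) + _
      have h3 : ∫ x, (a • g + b • g') x ∂μ = a * ∫ x, g x ∂μ + b * ∫ x, g' x ∂μ := by
        rw [← integral_const_mul, ← integral_const_mul,
          ← integral_add ((int_cont μ g).const_mul a) ((int_cont μ g').const_mul b)]
        rfl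
      rw [h3, hg t, hg' t]
      linear_combination hab
  have hdis : Disjoint O S := by
    rw [Set.disjoint_left]
    rintro f hf ⟨g, hg0, hg1, hg⟩
    have h1 : ∀ t, f t < ε := fun t => hf (Set.mem_univ t)
    have h2 := hc0 g hg1
    have h3 : ∀ t, smo θ g t < ε := fun t => by
      have := h1 t
      rw [hg t] at this
      linarith
    have h4 := hcon g hg0 hg1 h3
    have h5 := h1 0
    rw [hg 0] at h5
    have h6 := smo_nonneg θ hg0 0
    linarith
  obtain ⟨L, u, hL1, hL2⟩ := geometric_hahn_banach_open hOc hOo hSc hdis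
  have h0O : (0 : C(UnitAddCircle, ℝ)) ∈ O := fun x _ => hε
  have hu0 : 0 < u := by
    have := hL1 0 h0O
    rwa [map_zero] at this
  have hpos : ∀ g : C(UnitAddCircle, ℝ), (∀ x, 0 ≤ g x) → 0 ≤ L g := by
    intro g hg
    by_contra hneg
    push Not at hneg
    have h1 : ∀ t : ℝ, 0 ≤ t → -t * L g < u := by
      intro t ht
      have h2 : (-t) • g ∈ O := by
        intro x _
        change -t * g x < ε
        have := mul_nonneg ht (hg x)
        linarith
      have h3 := hL1 _ h2
      rw [map_smul] at h3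
      exact h3
    have h2 := h1 (u / (-L g)) (by
      apply div_nonneg hu0.le; linarith)
    have h3 : -(u / (-L g)) * L g = u := by
      have : L g ≠ 0 := hneg.ne
      field_simp
    linarith
  have hS0 : ∃ f, f ∈ S := by
    refine ⟨⟨fun _ => 1, continuous_const⟩, 0, fun x => le_rfl, fun x => zero_le_one, fun t => ?_⟩
    rw [smo_apply]
    simp
  have hL1pos : 0 < L 1 := by
    have h1 : 0 ≤ L 1 := hpos 1 (fun x => zero_le_one)
    rcases h1.eq_or_lt with h2 | h2
    · exfalso
      obtain ⟨f, hf⟩ := hS0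
      have h3 := hL2 f hf
      have h4 : L f ≤ 0 := by
        have h5 : 0 ≤ L (‖f‖ • (1 : C(UnitAddCircle, ℝ)) - f) := by
          apply hpos
          intro x
          change 0 ≤ ‖f‖ * 1 - f x
          have := (abs_le.mp (by simpa using f.norm_coe_le_norm x : |f x| ≤ ‖f‖)).2
          linarith
        rw [map_sub, map_smul, ← h2, smul_zero] at h5
        linarith
      linarith
    · exact h2
  set L' : C(UnitAddCircle, ℝ) →L[ℝ] ℝ := (L 1)⁻¹ • L with hL'
  have hL'a : ∀ g, L' g = (L 1)⁻¹ * L g := fun g => rfl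
  obtain ⟨ω, hω, hωL⟩ := riesz_prob L' (fun g hg => by
    rw [hL'a]; exact mul_nonneg (inv_nonneg.mpr hL1pos.le) (hpos g hg)) (by
    rw [hL'a, inv_mul_cancel₀ hL1pos.ne'])
  have hue : ε ≤ (L 1)⁻¹ * u := by
    refine le_of_forall_pos_lt_add (fun η hη => ?_)
    have h1 : (ε - η) • (1 : C(UnitAddCircle, ℝ)) ∈ O := by
      intro x _
      change (ε - η) * 1 < ε
      linarith
    have h2 := hL1 _ h1
    rw [map_smul, smul_eq_mul] at h2
    have h3 : (ε - η) < (L 1)⁻¹ * u := by
      rw [inv_mul_eq_div, lt_div_iff₀ hL1pos]; exact h2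
    linarith
  have hkey : ∀ g : C(UnitAddCircle, ℝ), (∀ x, 0 ≤ g x) → (∀ x, g x ≤ 1) →
      ε ≤ ∫ w, smo θ g w ∂ω + (1 - ∫ x, g x ∂μ) := by
    intro g hg0 hg1
    have h1 : smo θ g + (1 - ∫ x, g x ∂μ) • (1 : C(UnitAddCircle, ℝ)) ∈ S := by
      refine ⟨g, hg0, hg1, fun t => ?_⟩
      change smo θ g t + (1 - ∫ x, g x ∂μ) * 1 = _
      rw [mul_one]
    have h2 := hL2 _ h1
    have h3 : (L 1)⁻¹ * u ≤ L' (smo θ g + (1 - ∫ x, g x ∂μ) • (1 : C(UnitAddCircle, ℝ))) := by
      rw [hL'a]
      exact mul_le_mul_of_nonneg_left h2 (inv_nonneg.mpr hL1pos.le)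
    rw [map_add, map_smul, ← hωL, hL'a 1, inv_mul_cancel₀ hL1pos.ne', smul_eq_mul, mul_one] at h3
    linarith
  -- the contradiction
  set ν := (θ.prod ω).map (fun z : UnitAddCircle × UnitAddCircle => z.1 + z.2) with hν
  have hadd : Measurable (fun z : UnitAddCircle × UnitAddCircle => z.1 + z.2) :=
    measurable_fst.add measurable_snd
  have hνp : IsProbabilityMeasure ν := Measure.isProbabilityMeasure_map hadd.aemeasurable
  obtain ⟨B, hB, hB1, hB2⟩ := h ω hω
  -- B is μ-null and its complement is ν-null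
  have hμB : μ Bᶜ = 1 := (prob_compl_eq_one_iff hB).mpr hB1
  obtain ⟨F, hFB, hF, hFμ⟩ : ∃ F ⊆ Bᶜ, IsClosed F ∧ 1 - ENNReal.ofReal (ε / 2) < μ F := by
    apply hB.compl.exists_lt_isClosed_of_ne_top (measure_ne_top _ _)
    rw [hμB]
    apply ENNReal.sub_lt_self ENNReal.one_ne_top one_ne_zero
    simpa using hε
  obtain ⟨g, hg0, hg1, hgF, hg⟩ := exists_cont_above ν hF (ε := ε / 2) (by linarith)
  have hνF : ν.real F = 0 := by
    rw [Measure.real, measure_mono_null hFB hB2]; rfl
  rw [hνF, zero_add, int_law θ ω g] at hg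
  have h1 := hkey g hg0 hg1
  have h2 : μ.real F ≤ ∫ x, g x ∂μ := by
    have : ∫ x, F.indicator (fun _ => (1 : ℝ)) x ∂μ ≤ ∫ x, g x ∂μ := by
      apply integral_mono ((integrable_const _).indicator hF.measurableSet) (int_cont μ g)
      intro x
      by_cases hx : x ∈ F
      · simp only; rw [Set.indicator_of_mem hx, hgF x hx]
      · simp only; rw [Set.indicator_of_notMem hx]; exact hg0 x
    rw [integral_indicator_const _ hF.measurableSet] at this
    simpa using this
  have h3 : 1 - ε / 2 ≤ μ.real F := by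
    have h4 : (1 : ℝ≥0∞) ≤ μ F + ENNReal.ofReal (ε / 2) := by
      exact tsub_le_iff_right.mp hFμ.le
    have h5 := ENNReal.toReal_mono (by finiteness) h4
    rw [ENNReal.toReal_one, ENNReal.toReal_add (measure_ne_top _ _) ENNReal.ofReal_ne_top,
      ENNReal.toReal_ofReal (by linarith)] at h5
    change 1 - ε / 2 ≤ (μ F).toReal
    linarith
  linarith

/-- one set for all translates -/
theorem unif_set {μ θ : Measure UnitAddCircle} [IsProbabilityMeasure μ] [IsProbabilityMeasure θ]
    (h : ∀ ω : Measure UnitAddCircle, IsProbabilityMeasure ω → μ.MutuallySingular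
      ((θ.prod ω).map (fun z : UnitAddCircle × UnitAddCircle => z.1 + z.2))) :
    ∃ A : Set UnitAddCircle, MeasurableSet A ∧ μ Aᶜ = 0 ∧
      ∀ t : UnitAddCircle, θ {x | x + t ∈ A} = 0 := by
  have hex : ∀ n : ℕ, ∃ g : C(UnitAddCircle, ℝ), (∀ x, 0 ≤ g x) ∧ (∀ x, g x ≤ 1) ∧
      (∀ t, smo θ g t < (1 / 2) ^ n) ∧ 1 - ∫ x, g x ∂μ < (1 / 2) ^ n := fun n =>
    unif_cont h (by positivity)
  choose g hg0 hg1 hgt hgμ using hex
  set F : ℕ → Set UnitAddCircle := fun n => {x | 1 / 2 ≤ g n x} with hF
  have hFm : ∀ n, MeasurableSet (F n) := fun n =>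
    measurableSet_le measurable_const (g n).continuous.measurable
  -- Borel and Cantelli for μ
  have hμ : ∀ n, μ (F n)ᶜ ≤ ENNReal.ofReal (2 * (1 / 2) ^ n) := by
    intro n
    have h1 : 1 / 2 * μ.real (F n)ᶜ ≤ 1 - ∫ x, g n x ∂μ := by
      have h2 : ∫ x, (F n)ᶜ.indicator (fun _ => (1 / 2 : ℝ)) x ∂μ ≤ ∫ x, (1 - g n x) ∂μ := by
        apply integral_mono ((integrable_const _).indicator (hFm n).compl)
          ((integrable_const _).sub (int_cont μ (g n)))
        intro x
        by_cases hx : x ∈ F n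
        · change (F n)ᶜ.indicator (fun _ => (1 / 2 : ℝ)) x ≤ 1 - g n x
          rw [Set.indicator_of_notMem (by simpa using hx)]
          linarith [hg1 n x]
        · change (F n)ᶜ.indicator (fun _ => (1 / 2 : ℝ)) x ≤ 1 - g n x
          rw [Set.indicator_of_mem (by simpa using hx)]
          have : g n x < 1 / 2 := not_le.mp hx
          linarith
      rw [integral_indicator_const _ (hFm n).compl, integral_sub (integrable_const _)
        (int_cont μ (g n))] at h2
      simp only [smul_eq_mul, integral_const, probReal_univ, mul_one] at h2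
      linarith
    have h3 := hgμ n
    rw [← ENNReal.ofReal_toReal (measure_ne_top μ (F n)ᶜ)]
    apply ENNReal.ofReal_le_ofReal
    change μ.real (F n)ᶜ ≤ _
    linarith
  have hsum : ∑' n, ENNReal.ofReal (2 * (1 / 2 : ℝ) ^ n) ≠ ∞ := by
    have hs : Summable (fun n : ℕ => 2 * (1 / 2 : ℝ) ^ n) :=
      (summable_geometric_of_lt_one (by norm_num) (by norm_num)).mul_left 2
    rw [← ENNReal.ofReal_tsum_of_nonneg (fun n => by positivity) hs]
    exact ENNReal.ofReal_ne_top
  have hBC := ae_eventually_notMem (μ := μ) (s := fun n => (F n)ᶜ)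
    (ne_top_of_le_ne_top hsum (ENNReal.tsum_le_tsum hμ))
  set A : Set UnitAddCircle := ⋃ m : ℕ, ⋂ n : ℕ, ⋂ (_ : m ≤ n), F n with hA
  refine ⟨A, MeasurableSet.iUnion fun m => MeasurableSet.iInter fun n =>
    MeasurableSet.iInter fun _ => hFm n, ?_, fun t => ?_⟩
  · have : ∀ᵐ x ∂μ, x ∈ A := by
      filter_upwards [hBC] with x hx
      obtain ⟨m, hm⟩ := eventually_atTop.mp hx
      rw [hA, Set.mem_iUnion]
      refine ⟨m, ?_⟩
      simp only [Set.mem_iInter]
      intro n hn
      have := hm n hn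
      simpa using this
    exact this
  · have e : {x : UnitAddCircle | x + t ∈ A} =
        ⋃ m : ℕ, ⋂ n : ℕ, ⋂ (_ : m ≤ n), {x | x + t ∈ F n} := by
      ext x
      simp [hA]
    rw [e, measure_iUnion_null_iff]
    intro m
    have hle : ∀ n : ℕ, m ≤ n → θ (⋂ n : ℕ, ⋂ (_ : m ≤ n), {x | x + t ∈ F n}) ≤
        ENNReal.ofReal (2 * (1 / 2) ^ n) := by
      intro n hn
      have hsub : (⋂ n : ℕ, ⋂ (_ : m ≤ n), {x | x + t ∈ F n}) ⊆ {x | x + t ∈ F n} := by
        intro x hx
        simp only [Set.mem_iInter] at hx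
        exact hx n hn
      refine (measure_mono hsub).trans ?_
      have hm' : MeasurableSet {x : UnitAddCircle | x + t ∈ F n} := by
        have : Measurable (fun x : UnitAddCircle => x + t) := by fun_prop
        exact this (hFm n)
      have h1 : 1 / 2 * θ.real {x : UnitAddCircle | x + t ∈ F n} ≤ smo θ (g n) t := by
        rw [smo_apply]
        have h2 : ∫ x, {x : UnitAddCircle | x + t ∈ F n}.indicator (fun _ => (1 / 2 : ℝ)) x ∂θ ≤
            ∫ x, g n (x + t) ∂θ := by
          apply integral_mono ((integrable_const _).indicator hm')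
            (int_cont θ ((g n).comp ⟨fun x => x + t, by fun_prop⟩))
          intro x
          by_cases hx : x + t ∈ F n
          · simp only
            rw [Set.indicator_of_mem (by exact hx)]
            exact hx
          · simp only
            rw [Set.indicator_of_notMem (by exact hx)]
            exact hg0 n _
        rw [integral_indicator_const _ hm', smul_eq_mul] at h2
        linarith
      have h3 := hgt n t
      rw [← ENNReal.ofReal_toReal (measure_ne_top θ _)]
      apply ENNReal.ofReal_le_ofReal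
      change θ.real {x : UnitAddCircle | x + t ∈ F n} ≤ _
      linarith
    have hlim : Tendsto (fun n : ℕ => ENNReal.ofReal (2 * (1 / 2 : ℝ) ^ n)) atTop (𝓝 0) := by
      have h1 : Tendsto (fun n : ℕ => 2 * (1 / 2 : ℝ) ^ n) atTop (𝓝 (2 * 0)) :=
        (tendsto_pow_atTop_nhds_zero_of_lt_one (by norm_num) (by norm_num)).const_mul 2
      rw [mul_zero] at h1
      have h2 := ENNReal.tendsto_ofReal h1
      rwa [ENNReal.ofReal_zero] at h2
    refine le_antisymm (ge_of_tendsto hlim ?_) (zero_le)
    filter_upwards [eventually_ge_atTop m] with n hn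
    exact hle n hn

end Pool.Agent.Zk32
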