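import Mathlib
import Pool.Agent.Zk32.WLE

set_option autoImplicit false

open MeasureTheory Filter Topology Set
open scoped ENNReal

namespace Pool.Agent.Zk32

/-- additive idempotence of an ultrafilter on the natural numbers -/
def Idem (𝒱 : Ultrafilter ℕ) : Prop :=
  ∀ P : ℕ → Prop, (∀ᶠ i in (𝒱 : Filter ℕ), P i) →
    ∀ᶠ i in (𝒱 : Filter ℕ), ∀ᶠ j in (𝒱 : Filter ℕ), P (i + j)

attribute [local instance] Ultrafilter.add Ultrafilter.addSemigroup in
theorem exists_idem : ∃ 𝒱 : Ultrafilter ℕ, Idem 𝒱 ∧ (𝒱 : Filter ℕ) ≤ atTop := by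
  obtain ⟨U, hU, -⟩ := Hindman.exists_idempotent_ultrafilter_le_FS (M := ℕ+) (Stream'.const 1)
  refine ⟨U.map (fun k : ℕ+ => (k : ℕ)), fun P hP => ?_, ?_⟩
  · have h1 : ∀ᶠ k : ℕ+ in (U : Filter ℕ+), P k := hP
    have h2 : ∀ᶠ k : ℕ+ in ((U + U : Ultrafilter ℕ+) : Filter ℕ+), P k := by rw [hU]; exact h1
    rw [Ultrafilter.eventually_add] at h2
    change ∀ᶠ k : ℕ+ in (U : Filter ℕ+), ∀ᶠ l : ℕ+ in (U : Filter ℕ+), P ((k : ℕ) + (l : ℕ))
    filter_upwards [h2] with k hk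
    filter_upwards [hk] with l hl
    have : ((k + l : ℕ+) : ℕ) = (k : ℕ) + (l : ℕ) := PNat.add_coe k l
    rw [← this]; exact hl
  · -- non principal
    have hne : ∀ k : ℕ+, U ≠ pure k := by
      intro k hk
      have h1 : ∀ᶠ l : ℕ+ in ((U + U : Ultrafilter ℕ+) : Filter ℕ+), l = k := by
        rw [hU, hk]; exact rfl
      rw [Ultrafilter.eventually_add, hk] at h1
      have h2 : k + k = k := h1
      have h3 : ((k + k : ℕ+) : ℕ) = k := by rw [h2]
      rw [PNat.add_coe] at h3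
      have := k.pos
      omega
    rw [← Nat.cofinite_eq_atTop]
    intro s hs
    rw [Filter.mem_cofinite] at hs
    by_contra hns
    have h1 : (sᶜ : Set ℕ) ∈ U.map (fun k : ℕ+ => (k : ℕ)) :=
      Ultrafilter.compl_mem_iff_notMem.mpr hns
    have h2 : ((fun k : ℕ+ => (k : ℕ)) ⁻¹' sᶜ) ∈ U := h1
    have h3 : ((fun k : ℕ+ => (k : ℕ)) ⁻¹' sᶜ).Finite :=
      hs.preimage (PNat.coe_injective.injOn)
    obtain ⟨k, -, hk⟩ := Ultrafilter.eq_pure_of_finite_mem h3 h2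
    exact hne k hk

end Pool.Agent.Zk32
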