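import Mathlib
import Pool.Agent.Zk32.Chn1

set_option autoImplicit false

open MeasureTheory Filter Topology Set
open scoped ENNReal

namespace Pool.Agent.Zk32

variable {X : Type*} [MeasurableSpace X]

/-- an additive family of measure preserving maps -/
structure Act (ν : Measure X) (Tf : ℕ → X → X) : Prop where
  mp : ∀ i, MeasurePreserving (Tf i) ν ν
  add : ∀ i j x, Tf (i + j) x = Tf i (Tf j x)

lemma bi {ν : Measure X} [IsFiniteMeasure ν] {f : X → ℂ} (hf : Measurable f) {C : ℝ}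
    (hb : ∀ x, ‖f x‖ ≤ C) : Integrable f ν :=
  Integrable.of_bound hf.aestronglyMeasurable C (Eventually.of_forall hb)

lemma bir {ν : Measure X} [IsFiniteMeasure ν] {f : X → ℝ} (hf : Measurable f) {C : ℝ}
    (hb : ∀ x, |f x| ≤ C) : Integrable f ν :=
  Integrable.of_bound hf.aestronglyMeasurable C (Eventually.of_forall hb)

lemma conj_meas {f : X → ℂ} (hf : Measurable f) :
    Measurable (fun x => (starRingEnd ℂ) (f x)) :=
  RCLike.continuous_conj.measurable.comp hf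

lemma nsq_sub (a b : ℂ) : ‖a - b‖ ^ 2 = ‖a‖ ^ 2 + ‖b‖ ^ 2 - 2 * (a * (starRingEnd ℂ) b).re := by
  rw [← Complex.normSq_eq_norm_sq, ← Complex.normSq_eq_norm_sq, ← Complex.normSq_eq_norm_sq,
    Complex.normSq_sub]

lemma mul_conj_re (a : ℂ) : (a * (starRingEnd ℂ) a).re = ‖a‖ ^ 2 := by
  rw [Complex.mul_conj, Complex.ofReal_re, Complex.normSq_eq_norm_sq]

lemma re_int {ν : Measure X} {f : X → ℂ} (hf : Integrable f ν) :
    ∫ x, (f x).re ∂ν = (∫ x, f x ∂ν).re := by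
  have := integral_re (μ := ν) (𝕜 := ℂ) hf
  simpa using this

lemma int_lin {ν : Measure X} {f : X → ℝ} {h : X → ℂ} (hf : Integrable f ν)
    (hh : Integrable h ν) :
    ∫ x, (f x - 2 * (h x).re) ∂ν = (∫ x, f x ∂ν) - 2 * (∫ x, h x ∂ν).re := by
  have h1 : Integrable (fun x => (h x).re) ν := hh.re
  rw [integral_sub hf (h1.const_mul 2), integral_const_mul, re_int hh]

lemma rig_comp {ν : Measure X} {Tf : ℕ → X → X} (hT : Act ν Tf) (i : ℕ) {f : X → ℝ}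
    (hf : Measurable f) : ∫ x, f (Tf i x) ∂ν = ∫ x, f x ∂ν := by
  have := integral_map (μ := ν) (hT.mp i).measurable.aemeasurable (f := f)
    hf.aestronglyMeasurable
  rw [(hT.mp i).map_eq] at this
  exact this.symm

lemma rig_compC {ν : Measure X} {Tf : ℕ → X → X} (hT : Act ν Tf) (i : ℕ) {f : X → ℂ}
    (hf : Measurable f) : ∫ x, f (Tf i x) ∂ν = ∫ x, f x ∂ν := by
  have := integral_map (μ := ν) (hT.mp i).measurable.aemeasurable (f := f)
    hf.aestronglyMeasurable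
  rw [(hT.mp i).map_eq] at this
  exact this.symm

section
variable {ν : Measure X} [IsFiniteMeasure ν] {Tf : ℕ → X → X} {𝒱 : Ultrafilter ℕ}
  {e B : X → ℂ}

lemma rig_weak (hT : Act ν Tf) (h𝒱 : Idem 𝒱) (he : Measurable e) (heb : ∀ x, ‖e x‖ ≤ 1)
    (hB : Measurable B) (hBb : ∀ x, ‖B x‖ ≤ 1)
    (hw : WL (𝒱 : Filter ℕ) ν (fun i x => e (Tf i x)) B) :
    WL (𝒱 : Filter ℕ) ν (fun i x => B (Tf i x)) B := by
  refine WL.of_sets (fun i => hB.comp (hT.mp i).measurable) (fun i x => hBb _) hB hBb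
    (fun S hS => ?_)
  rw [Metric.tendsto_nhds]
  intro ε hε
  have h1 := hw.sets hS
  rw [Metric.tendsto_nhds] at h1
  have h2 := h𝒱 _ (h1 (ε / 2) (by linarith))
  filter_upwards [h2] with i hi
  have h3 : WL (𝒱 : Filter ℕ) ν (fun j x => e (Tf j (Tf i x))) (fun x => B (Tf i x)) :=
    hw.comp (fun j => he.comp (hT.mp j).measurable) (fun j x => heb _) hB hBb
      (hT.mp i).measurable (by rw [(hT.mp i).map_eq])
  have h4 := h3.sets hS
  have h5 : ∀ j, ∫ x in S, e (Tf j (Tf i x)) ∂ν = ∫ x in S, e (Tf (i + j) x) ∂ν := by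
    intro j
    congr 1; funext x
    rw [← hT.add, add_comm]
  simp only [h5] at h4
  have h6 : dist (∫ x in S, B (Tf i x) ∂ν) (∫ x in S, B x ∂ν) ≤ ε / 2 := by
    refine le_of_tendsto (h4.dist tendsto_const_nhds) ?_
    filter_upwards [hi] with j hj
    exact hj.le
  linarith

/-- the limit of weighted square distances -/
lemma rig_dist_lim (hT : Act ν Tf) {F G : X → ℂ} (hF : Measurable F) (hFb : ∀ x, ‖F x‖ = 1)
    (hG : Measurable G) (hGb : ∀ x, ‖G x‖ ≤ 1) {Y : X → ℂ} (hY : Measurable Y)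
    (hYb : ∀ x, ‖Y x‖ ≤ 1) (hw : WL (𝒱 : Filter ℕ) ν (fun i x => F (Tf i x)) G)
    {S : Set X} (hS : MeasurableSet S) :
    Tendsto (fun i => ∫ x in S, ‖F (Tf i x) - Y x‖ ^ 2 ∂ν) (𝒱 : Filter ℕ)
      (𝓝 (∫ x in S, (1 + ‖Y x‖ ^ 2 - 2 * (G x * (starRingEnd ℂ) (Y x)).re) ∂ν)) := by
  have hYc : Measurable (fun x => (starRingEnd ℂ) (Y x)) := conj_meas hY
  have hYcb : ∀ x, ‖(starRingEnd ℂ) (Y x)‖ ≤ 1 := fun x => by rw [RCLike.norm_conj]; exact hYb x
  have i1 : Integrable (fun x => 1 + ‖Y x‖ ^ 2) (ν.restrict S) := by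
    refine bir (measurable_const.add (hY.norm.pow_const 2)) (C := 2) fun x => ?_
    have := hYb x
    have := norm_nonneg (Y x)
    rw [abs_of_nonneg (by positivity)]
    nlinarith
  have key : ∀ Z : X → ℂ, Measurable Z → (∀ x, ‖Z x‖ ≤ 1) →
      ∫ x in S, (1 + ‖Y x‖ ^ 2 - 2 * (Z x * (starRingEnd ℂ) (Y x)).re) ∂ν =
        (∫ x in S, (1 + ‖Y x‖ ^ 2) ∂ν) - 2 * (∫ x in S, Z x * (starRingEnd ℂ) (Y x) ∂ν).re := by
    intro Z hZ hZb
    have i2 : Integrable (fun x => Z x * (starRingEnd ℂ) (Y x)) (ν.restrict S) := by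
      refine bi (hZ.mul hYc) (C := 1) fun x => ?_
      rw [norm_mul]
      exact mul_le_one₀ (hZb x) (norm_nonneg _) (hYcb x)
    exact int_lin i1 i2
  have h1 : ∀ i, ∫ x in S, ‖F (Tf i x) - Y x‖ ^ 2 ∂ν =
      (∫ x in S, (1 + ‖Y x‖ ^ 2) ∂ν) -
        2 * (∫ x in S, F (Tf i x) * (starRingEnd ℂ) (Y x) ∂ν).re := by
    intro i
    rw [← key (fun x => F (Tf i x)) (hF.comp (hT.mp i).measurable) (fun x => (hFb _).le)]
    congr 1; funext x
    rw [nsq_sub, hFb]; ring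
  simp only [h1]
  rw [key G hG hGb]
  have h2 := hw (S.indicator fun x => (starRingEnd ℂ) (Y x)) ((bi hYc hYcb).indicator hS)
  have h3 : ∀ Z : X → ℂ, ∫ x, Z x * S.indicator (fun x => (starRingEnd ℂ) (Y x)) x ∂ν =
      ∫ x in S, Z x * (starRingEnd ℂ) (Y x) ∂ν := by
    intro Z
    rw [← integral_indicator hS]
    congr 1; funext x
    by_cases hx : x ∈ S <;> simp [hx]
  simp only [h3] at h2
  exact tendsto_const_nhds.sub (((Complex.continuous_re.tendsto _).comp h2).const_mul 2)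

lemma rig_strong (hT : Act ν Tf) (h𝒱 : Idem 𝒱) (he : Measurable e) (heb : ∀ x, ‖e x‖ ≤ 1)
    (hB : Measurable B) (hBb : ∀ x, ‖B x‖ ≤ 1)
    (hw : WL (𝒱 : Filter ℕ) ν (fun i x => e (Tf i x)) B) :
    Tendsto (fun i => ∫ x, ‖B (Tf i x) - B x‖ ^ 2 ∂ν) (𝒱 : Filter ℕ) (𝓝 0) := by
  have hBc : Measurable (fun x => (starRingEnd ℂ) (B x)) := conj_meas hB
  have hBcb : ∀ x, ‖(starRingEnd ℂ) (B x)‖ ≤ 1 := fun x => by rw [RCLike.norm_conj]; exact hBb x
  have hn2 : Integrable (fun x => ‖B x‖ ^ 2) ν := by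
    refine bir (hB.norm.pow_const 2) (C := 1) fun x => ?_
    rw [abs_of_nonneg (by positivity)]
    exact pow_le_one₀ (norm_nonneg _) (hBb x)
  have h1 : ∀ i, ∫ x, ‖B (Tf i x) - B x‖ ^ 2 ∂ν =
      2 * (∫ x, ‖B x‖ ^ 2 ∂ν) - 2 * (∫ x, B (Tf i x) * (starRingEnd ℂ) (B x) ∂ν).re := by
    intro i
    have i2 : Integrable (fun x => B (Tf i x) * (starRingEnd ℂ) (B x)) ν := by
      refine bi ((hB.comp (hT.mp i).measurable).mul hBc) (C := 1) fun x => ?_
      rw [norm_mul]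
      exact mul_le_one₀ (hBb _) (norm_nonneg _) (hBcb x)
    have i3 : Integrable (fun x => ‖B (Tf i x)‖ ^ 2) ν := by
      refine bir ((hB.comp (hT.mp i).measurable).norm.pow_const 2) (C := 1) fun x => ?_
      rw [abs_of_nonneg (by positivity)]
      exact pow_le_one₀ (norm_nonneg _) (hBb _)
    have e1 : ∫ x, ‖B (Tf i x) - B x‖ ^ 2 ∂ν = ∫ x, (‖B (Tf i x)‖ ^ 2 + ‖B x‖ ^ 2 -
        2 * (B (Tf i x) * (starRingEnd ℂ) (B x)).re) ∂ν := by
      congr 1; funext x; rw [nsq_sub]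
    have i4 : Integrable (fun x => ‖B (Tf i x)‖ ^ 2 + ‖B x‖ ^ 2) ν := i3.add hn2
    rw [e1, int_lin i4 i2, integral_add i3 hn2]
    have e2 := rig_comp hT i (f := fun x => ‖B x‖ ^ 2) (hB.norm.pow_const 2)
    rw [e2]
    ring
  simp only [h1]
  have h2 := rig_weak hT h𝒱 he heb hB hBb hw _ (bi hBc hBcb)
  have h3 : (∫ x, B x * (starRingEnd ℂ) (B x) ∂ν).re = ∫ x, ‖B x‖ ^ 2 ∂ν := by
    have i2 : Integrable (fun x => B x * (starRingEnd ℂ) (B x)) ν := by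
      refine bi (hB.mul hBc) (C := 1) fun x => ?_
      rw [norm_mul]
      exact mul_le_one₀ (hBb _) (norm_nonneg _) (hBcb x)
    rw [← re_int i2]
    congr 1; funext x
    exact mul_conj_re _
  have h4 := (tendsto_const_nhds (x := 2 * ∫ x, ‖B x‖ ^ 2 ∂ν)).sub
    (((Complex.continuous_re.tendsto _).comp h2).const_mul 2)
  rw [h3] at h4
  have e5 : 2 * (∫ x, ‖B x‖ ^ 2 ∂ν) - 2 * (∫ x, ‖B x‖ ^ 2 ∂ν) = 0 := by ring
  rw [e5] at h4
  exact h4

end

end Pool.Agent.Zk32
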