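import Mathlib
import Pool.Agent.Zk32.Chn2

set_option autoImplicit false

open MeasureTheory Filter Topology Set
open scoped ENNReal

namespace Pool.Agent.Zk32

variable {X : Type*} [MeasurableSpace X]

lemma cs_one {ν : Measure X} [IsFiniteMeasure ν] {f : X → ℝ} (hf : Measurable f) {C : ℝ}
    (hb : ∀ x, |f x| ≤ C) :
    (∫ x, f x ∂ν) ^ 2 ≤ ν.real Set.univ * ∫ x, f x ^ 2 ∂ν := by
  have i1 : Integrable f ν := bir hf hb
  have i2 : Integrable (fun x => f x ^ 2) ν := by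
    refine bir (hf.pow_const 2) (C := C ^ 2) fun x => ?_
    rw [abs_pow]
    exact pow_le_pow_left₀ (abs_nonneg _) (hb x) 2
  set M := ν.real Set.univ with hM
  set I := ∫ x, f x ∂ν with hI
  set J := ∫ x, f x ^ 2 ∂ν with hJ
  have hM0 : 0 ≤ M := measureReal_nonneg
  have h1 : 0 ≤ ∫ x, (M * f x - I) ^ 2 ∂ν := integral_nonneg fun x => by positivity
  have h2 : ∫ x, (M * f x - I) ^ 2 ∂ν = M * (M * J - I ^ 2) := by
    have e : ∀ x, (M * f x - I) ^ 2 = M ^ 2 * f x ^ 2 - (2 * M * I * f x - I ^ 2) := fun x => by ring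
    simp only [e]
    have i4 : Integrable (fun x => M ^ 2 * f x ^ 2) ν := i2.const_mul _
    have i5 : Integrable (fun x => 2 * M * I * f x) ν := i1.const_mul _
    have i6 : Integrable (fun _ : X => I ^ 2) ν := integrable_const _
    have i3 : Integrable (fun x => 2 * M * I * f x - I ^ 2) ν := i5.sub i6
    rw [integral_sub i4 i3, integral_sub i5 i6, integral_const_mul, integral_const_mul,
      integral_const, smul_eq_mul, ← hJ, ← hI, ← hM]
    ring
  rcases hM0.eq_or_lt with h0 | h0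
  · have h3 : ν = 0 := by
      rw [← Measure.measure_univ_eq_zero]
      exact (measureReal_eq_zero_iff (measure_ne_top _ _)).mp h0.symm
    have h4 : I = 0 := by rw [hI, h3, integral_zero_measure]
    rw [h4, ← h0]; simp
  · rw [h2] at h1
    have := (mul_nonneg_iff_of_pos_left h0).mp h1
    linarith

section
variable {ν : Measure X} [IsFiniteMeasure ν] {Tf : ℕ → X → X} {𝒱 : Ultrafilter ℕ}
  {e B : X → ℂ}

lemma rig_strong1 (hT : Act ν Tf) (h𝒱 : Idem 𝒱) (he : Measurable e) (heb : ∀ x, ‖e x‖ ≤ 1)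
    (hB : Measurable B) (hBb : ∀ x, ‖B x‖ ≤ 1)
    (hw : WL (𝒱 : Filter ℕ) ν (fun i x => e (Tf i x)) B) :
    Tendsto (fun i => ∫ x, ‖B (Tf i x) - B x‖ ∂ν) (𝒱 : Filter ℕ) (𝓝 0) := by
  have h1 := rig_strong hT h𝒱 he heb hB hBb hw
  have hm : ∀ i, Measurable (fun x => ‖B (Tf i x) - B x‖) := fun i =>
    ((hB.comp (hT.mp i).measurable).sub hB).norm
  have hb : ∀ i x, |‖B (Tf i x) - B x‖| ≤ 2 := fun i x => by
    rw [abs_norm]
    have := norm_sub_le (B (Tf i x)) (B x)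
    linarith [hBb (Tf i x), hBb x]
  have h2 : Tendsto (fun i => Real.sqrt (ν.real Set.univ * ∫ x, ‖B (Tf i x) - B x‖ ^ 2 ∂ν))
      (𝒱 : Filter ℕ) (𝓝 0) := by
    have h3 := (Real.continuous_sqrt.tendsto _).comp (h1.const_mul (ν.real Set.univ))
    rw [mul_zero, Real.sqrt_zero] at h3
    exact h3
  refine squeeze_zero (fun i => integral_nonneg fun x => norm_nonneg _) (fun i => ?_) h2
  exact Real.le_sqrt_of_sq_le (cs_one (hm i) (hb i))

lemma rig_dist (hT : Act ν Tf) (h𝒱 : Idem 𝒱) (he : Measurable e) (heb : ∀ x, ‖e x‖ = 1)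
    (hB : Measurable B) (hBb : ∀ x, ‖B x‖ ≤ 1)
    (hw : WL (𝒱 : Filter ℕ) ν (fun i x => e (Tf i x)) B) :
    ∫ x, ‖e x - B x‖ ^ 2 ∂ν = ∫ x, (1 - ‖B x‖ ^ 2) ∂ν := by
  have hBc : Measurable (fun x => (starRingEnd ℂ) (B x)) := conj_meas hB
  have hBcb : ∀ x, ‖(starRingEnd ℂ) (B x)‖ ≤ 1 := fun x => by rw [RCLike.norm_conj]; exact hBb x
  have ie : ∀ i, Integrable (fun x => e (Tf i x) * (starRingEnd ℂ) (B x)) ν := fun i => by
    refine bi ((he.comp (hT.mp i).measurable).mul hBc) (C := 1) fun x => ?_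
    rw [norm_mul]
    exact mul_le_one₀ (heb _).le (norm_nonneg _) (hBcb x)
  have ie2 : ∀ i, Integrable (fun x => e (Tf i x) * (starRingEnd ℂ) (B (Tf i x))) ν := fun i => by
    refine bi ((he.comp (hT.mp i).measurable).mul (hBc.comp (hT.mp i).measurable)) (C := 1)
      fun x => ?_
    rw [norm_mul]
    exact mul_le_one₀ (heb _).le (norm_nonneg _) (hBcb _)
  have h1 : Tendsto (fun i => ∫ x, e (Tf i x) * (starRingEnd ℂ) (B x) ∂ν) (𝒱 : Filter ℕ)
      (𝓝 (∫ x, e x * (starRingEnd ℂ) (B x) ∂ν)) := by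
    rw [tendsto_iff_norm_sub_tendsto_zero]
    refine squeeze_zero (fun i => norm_nonneg _) (fun i => ?_)
      (rig_strong1 hT h𝒱 he (fun x => (heb x).le) hB hBb hw)
    have e1 : ∫ x, e x * (starRingEnd ℂ) (B x) ∂ν =
        ∫ x, e (Tf i x) * (starRingEnd ℂ) (B (Tf i x)) ∂ν :=
      (rig_compC hT i (f := fun x => e x * (starRingEnd ℂ) (B x)) (he.mul hBc)).symm
    rw [e1, ← integral_sub (ie i) (ie2 i)]
    refine norm_integral_le_of_norm_le ?_ (Eventually.of_forall fun x => ?_)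
    · refine bir ((hB.comp (hT.mp i).measurable).sub hB).norm (C := 2) fun x => ?_
      rw [abs_norm]
      have := norm_sub_le (B (Tf i x)) (B x)
      linarith [hBb (Tf i x), hBb x]
    · rw [← mul_sub, norm_mul, heb, one_mul, ← map_sub, RCLike.norm_conj, norm_sub_rev]
  have h2 := hw _ (bi hBc hBcb)
  have h3 := tendsto_nhds_unique h1 h2
  have hn2 : Integrable (fun x => 1 + ‖B x‖ ^ 2) ν := by
    refine bir (measurable_const.add (hB.norm.pow_const 2)) (C := 2) fun x => ?_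
    have := hBb x
    have := norm_nonneg (B x)
    rw [abs_of_nonneg (by positivity)]
    nlinarith
  have ib : Integrable (fun x => B x * (starRingEnd ℂ) (B x)) ν := by
    refine bi (hB.mul hBc) (C := 1) fun x => ?_
    rw [norm_mul]
    exact mul_le_one₀ (hBb _) (norm_nonneg _) (hBcb x)
  have ie0 : Integrable (fun x => e x * (starRingEnd ℂ) (B x)) ν := by
    refine bi (he.mul hBc) (C := 1) fun x => ?_
    rw [norm_mul]
    exact mul_le_one₀ (heb _).le (norm_nonneg _) (hBcb x)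
  have e1 : ∫ x, ‖e x - B x‖ ^ 2 ∂ν =
      ∫ x, ((1 + ‖B x‖ ^ 2) - 2 * (e x * (starRingEnd ℂ) (B x)).re) ∂ν := by
    congr 1; funext x; rw [nsq_sub, heb]; ring
  have e2 : ∫ x, (1 - ‖B x‖ ^ 2) ∂ν =
      ∫ x, ((1 + ‖B x‖ ^ 2) - 2 * (B x * (starRingEnd ℂ) (B x)).re) ∂ν := by
    congr 1; funext x; rw [mul_conj_re]; ring
  rw [e1, e2, int_lin hn2 ie0, int_lin hn2 ib, h3]

lemma rig_L1 (hT : Act ν Tf) (he : Measurable e) (heb : ∀ x, ‖e x‖ ≤ 1)
    (hB : Measurable B) (hBb : ∀ x, ‖B x‖ ≤ 1)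
    (hw : WL (𝒱 : Filter ℕ) ν (fun i x => e (Tf i x)) B) (i : ℕ) :
    ∫ x, ‖B (Tf i x) - B x‖ ∂ν ≤ ∫ x, ‖e (Tf i x) - e x‖ ∂ν := by
  set D : X → ℂ := fun x => B (Tf i x) - B x with hD
  have hDm : Measurable D := (hB.comp (hT.mp i).measurable).sub hB
  set g : X → ℂ := fun x => (starRingEnd ℂ) (D x) / ((‖D x‖ : ℝ) : ℂ) with hg
  have hgm : Measurable g := (conj_meas hDm).div (Complex.measurable_ofReal.comp hDm.norm)
  have hgb : ∀ x, ‖g x‖ ≤ 1 := fun x => by
    rw [hg]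
    simp only [norm_div, RCLike.norm_conj, Complex.norm_real, norm_norm]
    exact div_self_le_one _
  have hgD : ∀ x, D x * g x = ((‖D x‖ : ℝ) : ℂ) := by
    intro x
    rw [hg]
    by_cases hx : D x = 0
    · simp [hx]
    · have : ((‖D x‖ : ℝ) : ℂ) ≠ 0 := by
        rw [Complex.ofReal_ne_zero]; exact norm_ne_zero_iff.mpr hx
      rw [← mul_div_assoc, Complex.mul_conj, Complex.normSq_eq_norm_sq]
      rw [div_eq_iff this]
      push_cast; ring
  have ig : Integrable g ν := bi hgm hgb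
  have w1 : WL (𝒱 : Filter ℕ) ν (fun j x => e (Tf j (Tf i x))) (fun x => B (Tf i x)) :=
    hw.comp (fun j => he.comp (hT.mp j).measurable) (fun j x => heb _) hB hBb
      (hT.mp i).measurable (by rw [(hT.mp i).map_eq])
  have h1 := (w1 g ig).sub (hw g ig)
  have i1 : ∀ j, Integrable (fun x => e (Tf j (Tf i x)) * g x) ν := fun j => by
    refine int_bdd_mul ((he.comp (hT.mp j).measurable).comp (hT.mp i).measurable)
      (fun x => heb _) ig
  have i2 : ∀ j, Integrable (fun x => e (Tf j x) * g x) ν := fun j =>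
    int_bdd_mul (he.comp (hT.mp j).measurable) (fun x => heb _) ig
  have i3 : Integrable (fun x => B (Tf i x) * g x) ν :=
    int_bdd_mul (hB.comp (hT.mp i).measurable) (fun x => hBb _) ig
  have i4 : Integrable (fun x => B x * g x) ν := int_bdd_mul hB (fun x => hBb _) ig
  have e1 : (∫ x, B (Tf i x) * g x ∂ν) - ∫ x, B x * g x ∂ν = ((∫ x, ‖D x‖ ∂ν : ℝ) : ℂ) := by
    have e0 : ((∫ x, ‖D x‖ ∂ν : ℝ) : ℂ) = ∫ x, ((‖D x‖ : ℝ) : ℂ) ∂ν := integral_ofReal.symm
    rw [← integral_sub i3 i4, e0]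
    congr 1; funext x
    rw [← sub_mul]
    exact hgD x
  rw [e1] at h1
  have h2 : ‖((∫ x, ‖D x‖ ∂ν : ℝ) : ℂ)‖ ≤ ∫ x, ‖e (Tf i x) - e x‖ ∂ν := by
    refine le_of_tendsto h1.norm (Eventually.of_forall fun j => ?_)
    rw [← integral_sub (i1 j) (i2 j)]
    have e2 : ∫ x, ‖e (Tf i x) - e x‖ ∂ν = ∫ x, ‖e (Tf i (Tf j x)) - e (Tf j x)‖ ∂ν :=
      (rig_comp hT j (f := fun x => ‖e (Tf i x) - e x‖)
        ((he.comp (hT.mp i).measurable).sub he).norm).symm
    rw [e2]
    refine norm_integral_le_of_norm_le ?_ (Eventually.of_forall fun x => ?_)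
    · refine bir (((he.comp (hT.mp i).measurable).comp (hT.mp j).measurable).sub
        (he.comp (hT.mp j).measurable)).norm (C := 2) fun x => ?_
      rw [abs_norm]
      have := norm_sub_le (e (Tf i (Tf j x))) (e (Tf j x))
      linarith [heb (Tf i (Tf j x)), heb (Tf j x)]
    · rw [← sub_mul, norm_mul, ← hT.add, ← hT.add, add_comm i j]
      have := hgb x
      have h5 := norm_nonneg (e (Tf (j + i) x) - e (Tf j x))
      nlinarith [norm_nonneg (g x)]
  rw [Complex.norm_real, Real.norm_eq_abs, abs_of_nonneg (integral_nonneg fun x => norm_nonneg _)]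
    at h2
  exact h2

lemma pow_sub_pow_le {z w : ℂ} (hz : ‖z‖ ≤ 1) (hw : ‖w‖ ≤ 1) (k : ℕ) :
    ‖z ^ k - w ^ k‖ ≤ k * ‖z - w‖ := by
  induction k with
  | zero => simp
  | succ k ih =>
    have e : z ^ (k + 1) - w ^ (k + 1) = z ^ k * (z - w) + (z ^ k - w ^ k) * w := by ring
    rw [e]
    refine (norm_add_le _ _).trans ?_
    rw [norm_mul, norm_mul, norm_pow]
    have h1 : ‖z‖ ^ k ≤ 1 := pow_le_one₀ (norm_nonneg _) hz
    have h2 := norm_nonneg (z - w)
    have h3 := norm_nonneg (z ^ k - w ^ k)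
    push_cast
    nlinarith [norm_nonneg w]

/-- the limits of powers -/
lemma rig_pow (hT : Act ν Tf) {k : ℕ} {e' B' : X → ℂ} (he : Measurable e)
    (heb : ∀ x, ‖e x‖ = 1) (hB : Measurable B) (hBb : ∀ x, ‖B x‖ ≤ 1)
    (hw : WL (𝒱 : Filter ℕ) ν (fun i x => e (Tf i x)) B) (hek : ∀ x, e' x = e x ^ k)
    (hB' : Measurable B') (hBb' : ∀ x, ‖B' x‖ ≤ 1)
    (hw' : WL (𝒱 : Filter ℕ) ν (fun i x => e' (Tf i x)) B') :
    ∀ᵐ x ∂ν, 1 - ‖B' x‖ ^ 2 ≤ (k : ℝ) ^ 2 * (1 - ‖B x‖ ^ 2) := by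
  have he' : Measurable e' := by
    have : e' = fun x => e x ^ k := funext hek
    rw [this]; exact he.pow_const k
  have heb' : ∀ x, ‖e' x‖ = 1 := fun x => by rw [hek, norm_pow, heb, one_pow]
  have hn : ∀ {Z : X → ℂ}, Measurable Z → (∀ x, ‖Z x‖ ≤ 1) →
      Integrable (fun x => 1 - ‖Z x‖ ^ 2) ν := by
    intro Z hZ hZb
    refine bir (measurable_const.sub (hZ.norm.pow_const 2)) (C := 1) fun x => ?_
    have h1 := hZb x
    have h2 := norm_nonneg (Z x)
    have h3 : ‖Z x‖ ^ 2 ≤ 1 := pow_le_one₀ h2 h1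
    have h4 : 0 ≤ ‖Z x‖ ^ 2 := by positivity
    rw [abs_le]; constructor <;> linarith
  refine ae_le_of_forall_setIntegral_le (hn hB' hBb') ((hn hB hBb).const_mul _) fun S hS _ => ?_
  have l1 := rig_dist_lim hT he' heb' hB' hBb' (Y := fun x => B x ^ k) (hB.pow_const k)
    (fun x => by rw [norm_pow]; exact pow_le_one₀ (norm_nonneg _) (hBb x)) hw' hS
  have l2 := (rig_dist_lim hT he heb hB hBb hB hBb hw hS).const_mul ((k : ℝ) ^ 2)
  have h1 := le_of_tendsto_of_tendsto' l1 l2 (fun i => by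
    rw [← integral_const_mul]
    refine integral_mono ?_ ?_ fun x => ?_
    · refine bir (((he'.comp (hT.mp i).measurable).sub (hB.pow_const k)).norm.pow_const 2)
        (C := 4) fun x => ?_
      rw [abs_of_nonneg (by positivity)]
      have h2 := norm_sub_le (e' (Tf i x)) (B x ^ k)
      have h3 : ‖B x ^ k‖ ≤ 1 := by rw [norm_pow]; exact pow_le_one₀ (norm_nonneg _) (hBb x)
      have h4 := norm_nonneg (e' (Tf i x) - B x ^ k)
      rw [heb'] at h2
      nlinarith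
    · refine (bir (((he.comp (hT.mp i).measurable).sub hB).norm.pow_const 2)
        (C := 4) fun x => ?_).const_mul _
      rw [abs_of_nonneg (by positivity)]
      have h2 := norm_sub_le (e (Tf i x)) (B x)
      have h4 := norm_nonneg (e (Tf i x) - B x)
      rw [heb] at h2
      have h5 := hBb x
      change ‖e (Tf i x) - B x‖ ^ 2 ≤ 4
      nlinarith
    · simp only [hek]
      have h2 := pow_sub_pow_le (heb (Tf i x)).le (hBb x) k
      rw [← mul_pow]
      exact pow_le_pow_left₀ (norm_nonneg _) h2 2)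
  have e2 : ∫ x in S, (k : ℝ) ^ 2 * (1 - ‖B x‖ ^ 2) ∂ν =
      (k : ℝ) ^ 2 * ∫ x in S, (1 + ‖B x‖ ^ 2 - 2 * (B x * (starRingEnd ℂ) (B x)).re) ∂ν := by
    rw [integral_const_mul]
    congr 2; funext x
    rw [mul_conj_re]; ring
  rw [e2]
  refine le_trans ?_ h1
  refine integral_mono (hn hB' hBb').restrict ?_ fun x => ?_
  · have hc : Measurable (fun x => (starRingEnd ℂ) (B x ^ k)) := conj_meas (hB.pow_const k)
    refine bir ((measurable_const.add ((hB.pow_const k).norm.pow_const 2)).sub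
      ((Complex.measurable_re.comp (hB'.mul hc)).const_mul 2)) (C := 4) fun x => ?_
    have h3 : ‖B x ^ k‖ ≤ 1 := by rw [norm_pow]; exact pow_le_one₀ (norm_nonneg _) (hBb x)
    have h4 := norm_nonneg (B x ^ k)
    have h5 := Complex.abs_re_le_norm (B' x * (starRingEnd ℂ) (B x ^ k))
    rw [norm_mul, RCLike.norm_conj] at h5
    have h6 : ‖B' x‖ * ‖B x ^ k‖ ≤ 1 := mul_le_one₀ (hBb' x) h4 h3
    have h7 := abs_le.mp (h5.trans h6)
    rw [abs_le]; constructor <;> nlinarith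
  · have h2 := nsq_sub (B' x) (B x ^ k)
    have h3 : 0 ≤ ‖B' x - B x ^ k‖ ^ 2 := by positivity
    simp only
    linarith

end

end Pool.Agent.Zk32
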