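import Mathlib

set_option autoImplicit false

open Filter Topology Set

namespace Pool.Agent.Zk32

/-- the bootstrap -/
lemma bootstrap {k c₄ P C : ℝ} (hk : 0 < k) (hc₄ : 0 < c₄) (hP : 0 < P) (hC : 0 ≤ C) :
    ∃ δ : ℝ, 0 < δ ∧ ∀ (α φ σ : ℕ → ℝ), (∀ j, 0 ≤ α j) → (∀ j, 0 ≤ φ j) → (∀ j, 0 ≤ σ j) →
      (∀ J, ∑ j ∈ Finset.range J, σ j ≤ δ) → α 0 ≤ δ → φ 0 ≤ δ →
      (∀ j, α (j + 1) ≤ α j + σ j - (c₄ - 2 * P * Real.sqrt (α (j + 1) / k)) * φ j) →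
      (∀ j, α (j + 1) ≤ 2 * α j + 4 * P * φ j + σ j) →
      (∀ j, φ (j + 1) ≤ C * φ j) → ∀ J, ∑ j ∈ Finset.range J, φ j ≤ 4 * δ / c₄ := by
  set K₁ : ℝ := 4 + 4 * P * (1 + 4 * C / c₄) + 1 with hK₁
  have hK₁0 : 0 < K₁ := by positivity
  set δ : ℝ := k * (c₄ / (4 * P)) ^ 2 / K₁ with hδ
  have hδ0 : 0 < δ := by positivity
  refine ⟨δ, hδ0, fun α φ σ hα hφ hσ hsum hα0 hφ0 hR hA hCC => ?_⟩
  have hσδ : ∀ j, σ j ≤ δ := by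
    intro j
    refine le_trans ?_ (hsum (j + 1))
    exact Finset.single_le_sum (f := σ) (fun i _ => hσ i) (Finset.mem_range.mpr (Nat.lt_succ_self j))
  have key : ∀ J, α J + c₄ / 2 * ∑ j ∈ Finset.range J, φ j ≤ α 0 + ∑ j ∈ Finset.range J, σ j := by
    intro J
    induction J with
    | zero => simp
    | succ J ih =>
      have hs0 : 0 ≤ ∑ j ∈ Finset.range J, φ j := Finset.sum_nonneg fun j _ => hφ j
      have h1 := hsum J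
      have h2 : α J ≤ 2 * δ := by nlinarith
      have h3 : φ J ≤ δ * (1 + 4 * C / c₄) := by
        rcases J with _ | J
        · have : 0 ≤ δ * (4 * C / c₄) := by positivity
          linarith
        · have h4 : φ J ≤ ∑ j ∈ Finset.range (J + 1), φ j :=
            Finset.single_le_sum (f := φ) (fun i _ => hφ i)
              (Finset.mem_range.mpr (Nat.lt_succ_self J))
          have h5 : c₄ / 2 * φ J ≤ 2 * δ := by
            have := hα (J + 1)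
            nlinarith
          have h6 : φ J ≤ 4 * δ / c₄ := by
            rw [le_div_iff₀ hc₄]; linarith
          have h7 : C * φ J ≤ C * (4 * δ / c₄) := mul_le_mul_of_nonneg_left h6 hC
          have h8 : C * (4 * δ / c₄) = δ * (4 * C / c₄) := by ring
          have := hCC J
          linarith
      have h4 : α (J + 1) ≤ K₁ * δ := by
        have h5 := hA J
        have h6 := hσδ J
        have h7 : 4 * P * φ J ≤ 4 * P * (δ * (1 + 4 * C / c₄)) :=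
          mul_le_mul_of_nonneg_left h3 (by positivity)
        have h8 : K₁ * δ = 4 * δ + 4 * P * (δ * (1 + 4 * C / c₄)) + δ := by rw [hK₁]; ring
        linarith
      have h5 : Real.sqrt (α (J + 1) / k) ≤ c₄ / (4 * P) := by
        rw [Real.sqrt_le_left (by positivity), div_le_iff₀ hk]
        have : K₁ * δ = (c₄ / (4 * P)) ^ 2 * k := by
          rw [hδ]; field_simp
        linarith
      have h6 : 2 * P * Real.sqrt (α (J + 1) / k) ≤ c₄ / 2 := by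
        have h7 : 2 * P * Real.sqrt (α (J + 1) / k) ≤ 2 * P * (c₄ / (4 * P)) :=
          mul_le_mul_of_nonneg_left h5 (by positivity)
        have h8 : 2 * P * (c₄ / (4 * P)) = c₄ / 2 := by field_simp; ring
        linarith
      have h7 := hR J
      have h8 : c₄ / 2 * φ J ≤ (c₄ - 2 * P * Real.sqrt (α (J + 1) / k)) * φ J :=
        mul_le_mul_of_nonneg_right (by linarith) (hφ J)
      rw [Finset.sum_range_succ, Finset.sum_range_succ, mul_add]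
      linarith
  intro J
  have h1 := key J
  have h2 := hα J
  have h3 := hsum J
  rw [le_div_iff₀ hc₄]
  linarith

/-- the pointwise inequality for the step -/
lemma step_pt {X X' Y Y' e e' : ℂ} (hX : ‖X‖ ≤ 1) (hX' : ‖X'‖ ≤ 1) (hY : ‖Y‖ ≤ 1)
    (hY' : ‖Y'‖ ≤ 1) :
    ‖X' - X‖ ^ 2 ≤ ‖X' * Y' - X * Y‖ ^ 2 + (‖X'‖ ^ 2 - ‖X' * Y'‖ ^ 2) + (‖X‖ ^ 2 - ‖X * Y‖ ^ 2)
      - ‖X‖ ^ 2 * (‖e' - e‖ ^ 2 / 2) + 2 * ‖e' - Y'‖ ^ 2 + 2 * ‖e - Y‖ ^ 2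
      + 4 * (1 - ‖Y‖ ^ 2) + 2 * (‖X' - X‖ * ‖Y' - Y‖) := by
  have n2 : ∀ z : ℂ, ‖z‖ ^ 2 = z.re ^ 2 + z.im ^ 2 := fun z => by
    rw [← Complex.normSq_eq_norm_sq, Complex.normSq_apply]; ring
  -- the difference
  set R : ℝ := (X' * (starRingEnd ℂ) X * (1 - Y' * (starRingEnd ℂ) Y)).re with hR
  have h1 : ‖X' - X‖ ^ 2 - ‖X' * Y' - X * Y‖ ^ 2 =
      (‖X'‖ ^ 2 - ‖X' * Y'‖ ^ 2) + (‖X‖ ^ 2 - ‖X * Y‖ ^ 2) - 2 * R := by
    rw [hR]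
    simp only [n2, Complex.sub_re, Complex.sub_im, Complex.mul_re, Complex.mul_im,
      Complex.conj_re, Complex.conj_im, Complex.one_re, Complex.one_im]
    ring
  set R1 : ℝ := ((X' - X) * (starRingEnd ℂ) X * (1 - Y' * (starRingEnd ℂ) Y)).re with hR1
  have h2 : 2 * R = ‖X‖ ^ 2 * (2 - ‖Y'‖ ^ 2 - ‖Y‖ ^ 2 + ‖Y' - Y‖ ^ 2) + 2 * R1 := by
    rw [hR, hR1]
    simp only [n2, Complex.sub_re, Complex.sub_im, Complex.mul_re, Complex.mul_im,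
      Complex.conj_re, Complex.conj_im, Complex.one_re, Complex.one_im]
    ring
  have y1 : ‖Y‖ ^ 2 ≤ 1 := pow_le_one₀ (norm_nonneg _) hY
  have y2 : ‖Y'‖ ^ 2 ≤ 1 := pow_le_one₀ (norm_nonneg _) hY'
  have x1 : ‖X‖ ^ 2 ≤ 1 := pow_le_one₀ (norm_nonneg _) hX
  have x0 : 0 ≤ ‖X‖ ^ 2 := by positivity
  have h3 : |R1| ≤ ‖X' - X‖ * ((1 - ‖Y‖ ^ 2) + ‖Y' - Y‖) := by
    have e1 : (1 - Y' * (starRingEnd ℂ) Y) =
        (((1 - ‖Y‖ ^ 2 : ℝ)) : ℂ) - (Y' - Y) * (starRingEnd ℂ) Y := by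
      have : Y * (starRingEnd ℂ) Y = ((‖Y‖ ^ 2 : ℝ) : ℂ) := by
        rw [Complex.mul_conj, Complex.normSq_eq_norm_sq]
      push_cast at this ⊢
      rw [sub_mul, this]; ring
    have e2 : ‖(1 - Y' * (starRingEnd ℂ) Y)‖ ≤ (1 - ‖Y‖ ^ 2) + ‖Y' - Y‖ := by
      rw [e1]
      refine (norm_sub_le _ _).trans ?_
      rw [Complex.norm_real, Real.norm_eq_abs, abs_of_nonneg (by linarith), norm_mul,
        RCLike.norm_conj]
      have := norm_nonneg (Y' - Y)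
      nlinarith [norm_nonneg Y]
    refine (Complex.abs_re_le_norm _).trans ?_
    rw [norm_mul, norm_mul, RCLike.norm_conj]
    have z1 := norm_nonneg (X' - X)
    have z2 := norm_nonneg (1 - Y' * (starRingEnd ℂ) Y)
    have z3 : ‖X' - X‖ * ‖X‖ ≤ ‖X' - X‖ := by nlinarith [norm_nonneg X]
    calc ‖X' - X‖ * ‖X‖ * ‖1 - Y' * (starRingEnd ℂ) Y‖
        ≤ ‖X' - X‖ * ‖1 - Y' * (starRingEnd ℂ) Y‖ := mul_le_mul_of_nonneg_right z3 z2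
      _ ≤ _ := mul_le_mul_of_nonneg_left e2 z1
  have h4 : ‖X' - X‖ ≤ 2 := by
    have := norm_sub_le X' X
    linarith
  have h5 : ‖X' - X‖ * (1 - ‖Y‖ ^ 2) ≤ 2 * (1 - ‖Y‖ ^ 2) :=
    mul_le_mul_of_nonneg_right h4 (by linarith)
  have h6 : ‖e' - e‖ ^ 2 / 2 ≤ ‖Y' - Y‖ ^ 2 + (2 * ‖e' - Y'‖ ^ 2 + 2 * ‖e - Y‖ ^ 2) := by
    have e1 : e' - e = (Y' - Y) + ((e' - Y') - (e - Y)) := by ring
    have e2 : ‖e' - e‖ ≤ ‖Y' - Y‖ + (‖e' - Y'‖ + ‖e - Y‖) := by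
      rw [e1]
      exact (norm_add_le _ _).trans (by linarith [norm_sub_le (e' - Y') (e - Y)])
    have := norm_nonneg (e' - e)
    nlinarith [sq_nonneg (‖Y' - Y‖ - (‖e' - Y'‖ + ‖e - Y‖)), sq_nonneg (‖e' - Y'‖ - ‖e - Y‖)]
  have h7 : ‖X‖ ^ 2 * (‖e' - e‖ ^ 2 / 2) ≤ ‖X‖ ^ 2 * ‖Y' - Y‖ ^ 2 +
      (2 * ‖e' - Y'‖ ^ 2 + 2 * ‖e - Y‖ ^ 2) := by
    have t0 : 0 ≤ 2 * ‖e' - Y'‖ ^ 2 + 2 * ‖e - Y‖ ^ 2 := by positivity
    have t1 := mul_le_mul_of_nonneg_left h6 x0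
    nlinarith
  have h8 : 0 ≤ ‖X‖ ^ 2 * (2 - ‖Y'‖ ^ 2 - ‖Y‖ ^ 2) := mul_nonneg x0 (by linarith)
  have h9 := abs_le.mp h3
  nlinarith

/-- the rough pointwise inequality -/
lemma rough_pt {X X' Y Y' : ℂ} (hX : ‖X‖ ≤ 1) (hX' : ‖X'‖ ≤ 1) (hY : ‖Y‖ ≤ 1)
    (hY' : ‖Y'‖ ≤ 1) :
    ‖X' - X‖ ^ 2 ≤ 2 * ‖X' * Y' - X * Y‖ ^ 2 + 4 * ‖Y' - Y‖ + 4 * (1 - ‖Y‖ ^ 2) := by
  have y1 : ‖Y‖ ^ 2 ≤ 1 := pow_le_one₀ (norm_nonneg _) hY
  have h4 : ‖X' - X‖ ≤ 2 := by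
    have := norm_sub_le X' X
    linarith
  have h5 : ‖Y' - Y‖ ≤ 2 := by
    have := norm_sub_le Y' Y
    linarith
  have h0 := norm_nonneg (X' - X)
  have h0' := norm_nonneg (Y' - Y)
  have h1 : ‖X' - X‖ ^ 2 * (1 - ‖Y‖ ^ 2) ≤ 4 * (1 - ‖Y‖ ^ 2) :=
    mul_le_mul_of_nonneg_right (by nlinarith) (by linarith)
  have e1 : (X' - X) * Y = (X' * Y' - X * Y) - X' * (Y' - Y) := by ring
  have h2 : ‖(X' - X) * Y‖ ≤ ‖X' * Y' - X * Y‖ + ‖Y' - Y‖ := by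
    rw [e1]
    refine (norm_sub_le _ _).trans ?_
    rw [norm_mul]
    nlinarith
  have h3 : ‖X' - X‖ ^ 2 * ‖Y‖ ^ 2 ≤ 2 * ‖X' * Y' - X * Y‖ ^ 2 + 2 * ‖Y' - Y‖ ^ 2 := by
    rw [← mul_pow, ← norm_mul]
    have := norm_nonneg ((X' - X) * Y)
    nlinarith [sq_nonneg (‖X' * Y' - X * Y‖ - ‖Y' - Y‖)]
  nlinarith

end Pool.Agent.Zk32
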