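import Mathlib
import Pool.Agent.R202.TM

set_option autoImplicit false
set_option linter.unusedSectionVars false

open MeasureTheory Filter Topology Set
open scoped ENNReal InnerProductSpace

namespace Pool.Agent.Zk32

open Pool.Agent.R202.TM (mean)

section Hilbert

variable {H : Type*} [NormedAddCommGroup H] [InnerProductSpace ℂ H] [CompleteSpace H]

/-- the average of the iterates `α, …, α + N - 1` -/
noncomputable def av (U : H →L[ℂ] H) (α N : ℕ) (f : H) : H :=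
  (N : ℂ)⁻¹ • ∑ i ∈ Finset.range N, (⇑U)^[α + i] f

lemma norm_iter {U : H →L[ℂ] H} (hU : ∀ x, ‖U x‖ = ‖x‖) (n : ℕ) (x : H) :
    ‖(⇑U)^[n] x‖ = ‖x‖ := by
  induction n with
  | zero => rfl
  | succ n ih => rw [Function.iterate_succ_apply', hU, ih]

lemma iter_sub (U : H →L[ℂ] H) (n : ℕ) (x y : H) :
    (⇑U)^[n] (x - y) = (⇑U)^[n] x - (⇑U)^[n] y := by
  induction n with
  | zero => rfl
  | succ n ih =>
    rw [Function.iterate_succ_apply', ih, map_sub]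
    simp only [← Function.iterate_succ_apply']

lemma iter_smul' (U : H →L[ℂ] H) (n : ℕ) (c : ℂ) (x : H) :
    (⇑U)^[n] (c • x) = c • (⇑U)^[n] x := by
  induction n with
  | zero => rfl
  | succ n ih =>
    rw [Function.iterate_succ_apply', ih, map_smul]
    simp only [← Function.iterate_succ_apply']

lemma iter_sum (U : H →L[ℂ] H) (n : ℕ) {ι : Type*} (s : Finset ι) (x : ι → H) :
    (⇑U)^[n] (∑ i ∈ s, x i) = ∑ i ∈ s, (⇑U)^[n] (x i) := by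
  induction n with
  | zero => rfl
  | succ n ih =>
    rw [Function.iterate_succ_apply', ih, map_sum]
    simp only [← Function.iterate_succ_apply']

lemma iter_fix {U : H →L[ℂ] H} {x : H} (h : U x = x) (n : ℕ) : (⇑U)^[n] x = x :=
  Function.iterate_fixed h n

lemma norm_av_le {U : H →L[ℂ] H} (hU : ∀ x, ‖U x‖ = ‖x‖) (α N : ℕ) (f : H) :
    ‖av U α N f‖ ≤ ‖f‖ := by
  rcases Nat.eq_zero_or_pos N with h | h
  · subst h
    simp [av]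
  · unfold av
    have hN : (0 : ℝ) < N := by exact_mod_cast h
    rw [norm_smul, norm_inv, Complex.norm_natCast, inv_mul_le_iff₀ hN]
    calc ‖∑ i ∈ Finset.range N, (⇑U)^[α + i] f‖ ≤ ∑ i ∈ Finset.range N, ‖(⇑U)^[α + i] f‖ :=
          norm_sum_le _ _
      _ = N * ‖f‖ := by
          simp [norm_iter hU]

lemma av_sub (U : H →L[ℂ] H) (α N : ℕ) (f g : H) : av U α N (f - g) = av U α N f - av U α N g := by
  unfold av
  simp only [iter_sub, Finset.sum_sub_distrib, smul_sub]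

lemma av_fix {U : H →L[ℂ] H} {f : H} (h : U f = f) (α : ℕ) {N : ℕ} (hN : 1 ≤ N) :
    av U α N f = f := by
  unfold av
  simp only [iter_fix h, Finset.sum_const, Finset.card_range]
  rw [← Nat.cast_smul_eq_nsmul ℂ, smul_smul, inv_mul_cancel₀, one_smul]
  exact_mod_cast (by omega : N ≠ 0)

lemma av_comm {U V : H →L[ℂ] H} (hUV : ∀ x, U (V x) = V (U x)) (α N β M : ℕ) (f : H) :
    av U α N (av V β M f) = av V β M (av U α N f) := by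
  have hc : Function.Commute (⇑U) (⇑V) := hUV
  unfold av
  simp only [iter_smul', iter_sum]
  rw [← Finset.smul_sum, ← Finset.smul_sum, Finset.sum_comm, smul_comm]
  congr 2
  refine Finset.sum_congr rfl fun j _ => Finset.sum_congr rfl fun i _ => ?_
  exact (hc.iterate_iterate (α + i) (β + j)) f

lemma av_comm1 {U V : H →L[ℂ] H} (hUV : ∀ x, U (V x) = V (U x)) (α N : ℕ) (f : H) :
    V (av U α N f) = av U α N (V f) := by
  have hc : Function.Commute (⇑U) (⇑V) := hUV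
  unfold av
  rw [map_smul, map_sum]
  congr 1
  refine Finset.sum_congr rfl fun i _ => ?_
  exact ((hc.iterate_left (α + i)) f).symm

/-- averages far out are averages of shifts -/
lemma av_shift {U : H →L[ℂ] H} (α N : ℕ) (f : H) :
    av U α N f = (⇑U)^[α] (birkhoffAverage ℂ (⇑U) _root_.id N f) := by
  unfold av birkhoffAverage birkhoffSum
  rw [iter_smul', iter_sum]
  congr 1
  refine Finset.sum_congr rfl fun i _ => ?_
  rw [Function.iterate_add_apply]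
  rfl

/-- the mean ergodic theorem, uniformly in the starting point -/
lemma av_close {U : H →L[ℂ] H} (hU : ∀ x, ‖U x‖ = ‖x‖) {f g : H}
    (hP : Tendsto (birkhoffAverage ℂ (⇑U) _root_.id · f) atTop (𝓝 g)) (hg : U g = g)
    {ε : ℝ} (hε : 0 < ε) : ∃ N₀ : ℕ, ∀ N, N₀ ≤ N → ∀ α : ℕ, ‖av U α N f - g‖ ≤ ε := by
  obtain ⟨N₀, hN₀⟩ := (Metric.tendsto_atTop.mp hP) ε hε
  refine ⟨N₀, fun N hN α => ?_⟩
  have h1 := hN₀ N hN
  rw [dist_eq_norm] at h1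
  rw [av_shift]
  have h2 : (⇑U)^[α] (birkhoffAverage ℂ (⇑U) _root_.id N f) - g =
      (⇑U)^[α] (birkhoffAverage ℂ (⇑U) _root_.id N f - g) := by
    rw [iter_sub, iter_fix hg]
  rw [h2, norm_iter hU]
  exact h1.le

/-- the two projections -/
lemma two_proj {U V : H →L[ℂ] H} (hU : ∀ x, ‖U x‖ = ‖x‖) (hV : ∀ x, ‖V x‖ = ‖x‖)
    (hUV : ∀ x, U (V x) = V (U x)) {e : H} (h1 : U e = e) (h2 : V e = e)
    (herg : ∀ w, U w = w → V w = w → w = ⟪e, w⟫_ℂ • e) :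
    ∃ P Q : H → H,
      (∀ x, Tendsto (birkhoffAverage ℂ (⇑U) _root_.id · x) atTop (𝓝 (P x))) ∧
      (∀ x, Tendsto (birkhoffAverage ℂ (⇑V) _root_.id · x) atTop (𝓝 (Q x))) ∧
      (∀ x, U (P x) = P x) ∧ (∀ x, V (Q x) = Q x) ∧
      (∀ x, P (Q x) = ⟪e, x⟫_ℂ • e) ∧ (∀ x y, ⟪P x, Q y⟫_ℂ = ⟪x, e⟫_ℂ * ⟪e, y⟫_ℂ) ∧
      (∀ x, ‖P x‖ ≤ ‖x‖) ∧ (∀ x, ‖Q x‖ ≤ ‖x‖) := by
  have hU1 : ‖U‖ ≤ 1 := ContinuousLinearMap.opNorm_le_bound _ zero_le_one fun w => by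
    rw [one_mul, hU]
  have hV1 : ‖V‖ ≤ 1 := ContinuousLinearMap.opNorm_le_bound _ zero_le_one fun w => by
    rw [one_mul, hV]
  obtain ⟨P, hP, hPf, hPe, hPs⟩ := mean U hU1
  obtain ⟨Q, hQ, hQf, hQe, hQs⟩ := mean V hV1
  have hcommP : ∀ x, V (P x) = P (V x) := by
    intro x
    have hC := (V.continuous.tendsto _).comp (hP x)
    refine tendsto_nhds_unique hC ((hP (V x)).congr fun N => ?_)
    simp only [Function.comp_apply]
    have h3 := av_comm1 hUV 0 N x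
    rw [av_shift, av_shift] at h3
    exact h3.symm
  have hPQ : ∀ x, P (Q x) = ⟪e, x⟫_ℂ • e := by
    intro x
    have h3 := herg (P (Q x)) (hPf _) (by rw [hcommP, hQf])
    rw [h3]
    congr 1
    rw [← hPs, hPe e h1, ← hQs, hQe e h2]
  have hnb : ∀ (W : H →L[ℂ] H) (R : H → H), (∀ x, ‖W x‖ = ‖x‖) →
      (∀ x, Tendsto (birkhoffAverage ℂ (⇑W) _root_.id · x) atTop (𝓝 (R x))) →
      ∀ x, ‖R x‖ ≤ ‖x‖ := by
    intro W R hW hR x
    refine le_of_tendsto (hR x).norm (Eventually.of_forall fun N => ?_)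
    have h3 := norm_av_le hW 0 N x
    rw [av_shift] at h3
    exact h3
  refine ⟨P, Q, hP, hQ, hPf, hQf, hPQ, fun x y => ?_, hnb U P hU hP, hnb V Q hV hQ⟩
  rw [hPs, hPQ, inner_smul_right, mul_comm]

/-- means over large boxes, uniformly in the corner -/
theorem box_mean {U V : H →L[ℂ] H} (hU : ∀ x, ‖U x‖ = ‖x‖) (hV : ∀ x, ‖V x‖ = ‖x‖)
    (hUV : ∀ x, U (V x) = V (U x)) {e : H} (h1 : U e = e) (h2 : V e = e)
    (herg : ∀ w, U w = w → V w = w → w = ⟪e, w⟫_ℂ • e) (f : H) {ε : ℝ} (hε : 0 < ε) :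
    ∃ N₀ : ℕ, ∀ N M, N₀ ≤ N → N₀ ≤ M → ∀ α β : ℕ,
      ‖av U α N (av V β M f) - ⟪e, f⟫_ℂ • e‖ ≤ ε := by
  obtain ⟨P, Q, hP, hQ, hPf, hQf, hPQ, -, -, -⟩ := two_proj hU hV hUV h1 h2 herg
  obtain ⟨n₁, hn₁⟩ := av_close hV (hQ f) (hQf f) (half_pos hε)
  obtain ⟨n₂, hn₂⟩ := av_close hU (hP (Q f)) (hPf (Q f)) (half_pos hε)
  refine ⟨max n₁ n₂, fun N M hN hM α β => ?_⟩
  have a1 := hn₁ M (le_of_max_le_left hM) β
  have a2 := hn₂ N (le_of_max_le_right hN) α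
  rw [hPQ] at a2
  have e1 : av U α N (av V β M f) - ⟪e, f⟫_ℂ • e =
      av U α N (av V β M f - Q f) + (av U α N (Q f) - ⟪e, f⟫_ℂ • e) := by
    rw [av_sub]; abel
  rw [e1]
  refine (norm_add_le _ _).trans ?_
  have a3 := (norm_av_le hU α N (av V β M f - Q f)).trans a1
  linarith

lemma inner_av {U V : H →L[ℂ] H} (hU : ∀ x, ‖U x‖ = ‖x‖) (hV : ∀ x, ‖V x‖ = ‖x‖)
    (hUV : ∀ x, U (V x) = V (U x)) {a b : H} (ha : U a = a) (hb : V b = b)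
    (β γ : ℕ) {M N : ℕ} (hM : 1 ≤ M) (hN : 1 ≤ N) :
    ⟪av V β M a, av U γ N b⟫_ℂ = ⟪a, b⟫_ℂ := by
  have hUi : ∀ x y, ⟪U x, U y⟫_ℂ = ⟪x, y⟫_ℂ := by
    intro x y
    exact (LinearIsometry.mk U.toLinearMap hU).inner_map_map x y
  have hVi : ∀ x y, ⟪V x, V y⟫_ℂ = ⟪x, y⟫_ℂ := by
    intro x y
    exact (LinearIsometry.mk V.toLinearMap hV).inner_map_map x y
  have hUn : ∀ (n : ℕ) x y, ⟪(⇑U)^[n] x, (⇑U)^[n] y⟫_ℂ = ⟪x, y⟫_ℂ := by
    intro n x y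
    induction n with
    | zero => rfl
    | succ n ih => rw [Function.iterate_succ_apply', Function.iterate_succ_apply', hUi, ih]
  have hVn : ∀ (n : ℕ) x y, ⟪(⇑V)^[n] x, (⇑V)^[n] y⟫_ℂ = ⟪x, y⟫_ℂ := by
    intro n x y
    induction n with
    | zero => rfl
    | succ n ih => rw [Function.iterate_succ_apply', Function.iterate_succ_apply', hVi, ih]
  have hc : Function.Commute (⇑U) (⇑V) := hUV
  have key : ∀ m n : ℕ, ⟪(⇑V)^[m] a, (⇑U)^[n] b⟫_ℂ = ⟪a, b⟫_ℂ := by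
    intro m n
    have e1 : (⇑V)^[m] a = (⇑U)^[n] ((⇑V)^[m] a) := by
      have := (hc.iterate_iterate n m) a
      rw [this, iter_fix ha]
    rw [e1, hUn]
    conv_lhs => rw [← iter_fix hb m]
    rw [hVn]
  unfold av
  rw [inner_smul_left, inner_smul_right, sum_inner]
  simp_rw [inner_sum, key]
  simp only [Finset.sum_const, Finset.card_range, nsmul_eq_mul, map_inv₀, Complex.conj_natCast]
  have hM' : (M : ℂ) ≠ 0 := by exact_mod_cast (by omega : M ≠ 0)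
  have hN' : (N : ℂ) ≠ 0 := by exact_mod_cast (by omega : N ≠ 0)
  field_simp

/-- the crossed case -/
theorem cross_mean {U V : H →L[ℂ] H} (hU : ∀ x, ‖U x‖ = ‖x‖) (hV : ∀ x, ‖V x‖ = ‖x‖)
    (hUV : ∀ x, U (V x) = V (U x)) {e : H} (h1 : U e = e) (h2 : V e = e)
    (herg : ∀ w, U w = w → V w = w → w = ⟪e, w⟫_ℂ • e) (f g : H) (hf : ‖f‖ ≤ 1) (hg : ‖g‖ ≤ 1)
    {ε : ℝ} (hε : 0 < ε) :
    ∃ N₀ : ℕ, ∀ N₁ N₂ N₃ N₄, N₀ ≤ N₁ → N₀ ≤ N₄ → 1 ≤ N₂ → 1 ≤ N₃ → ∀ α β γ δ : ℕ,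
      ‖⟪av U α N₁ (av V β N₂ f), av U γ N₃ (av V δ N₄ g)⟫_ℂ - ⟪f, e⟫_ℂ * ⟪e, g⟫_ℂ‖ ≤ ε := by
  obtain ⟨P, Q, hP, hQ, hPf, hQf, hPQ, hin, hPn, hQn⟩ := two_proj hU hV hUV h1 h2 herg
  obtain ⟨n₁, hn₁⟩ := av_close hU (hP f) (hPf f) (half_pos hε)
  obtain ⟨n₂, hn₂⟩ := av_close hV (hQ g) (hQf g) (half_pos hε)
  refine ⟨max n₁ n₂, fun N₁ N₂ N₃ N₄ hN₁ hN₄ hN₂ hN₃ α β γ δ => ?_⟩
  have a1 := hn₁ N₁ (le_of_max_le_left hN₁) α
  have a2 := hn₂ N₄ (le_of_max_le_right hN₄) δ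
  rw [av_comm hUV α N₁ β N₂ f]
  set B₁ := av V β N₂ (av U α N₁ f) with hB₁
  set B₂ := av U γ N₃ (av V δ N₄ g) with hB₂
  set C₁ := av V β N₂ (P f) with hC₁
  set C₂ := av U γ N₃ (Q g) with hC₂
  have b1 : ‖B₁ - C₁‖ ≤ ε / 2 := by
    rw [hB₁, hC₁, ← av_sub]
    exact (norm_av_le hV _ _ _).trans a1
  have b2 : ‖B₂ - C₂‖ ≤ ε / 2 := by
    rw [hB₂, hC₂, ← av_sub]
    exact (norm_av_le hU _ _ _).trans a2
  have b3 : ‖B₂‖ ≤ 1 := ((norm_av_le hU _ _ _).trans (norm_av_le hV _ _ _)).trans hg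
  have b4 : ‖C₁‖ ≤ 1 := ((norm_av_le hV _ _ _).trans (hPn f)).trans hf
  have b5 : ⟪C₁, C₂⟫_ℂ = ⟪f, e⟫_ℂ * ⟪e, g⟫_ℂ := by
    rw [hC₁, hC₂, inner_av hU hV hUV (hPf f) (hQf g) β γ hN₂ hN₃, hin]
  have b6 : ⟪B₁, B₂⟫_ℂ - ⟪f, e⟫_ℂ * ⟪e, g⟫_ℂ = ⟪B₁ - C₁, B₂⟫_ℂ + ⟪C₁, B₂ - C₂⟫_ℂ := by
    rw [← b5, inner_sub_left, inner_sub_right]; ring
  rw [b6]
  refine (norm_add_le _ _).trans ?_
  have c1 := norm_inner_le_norm (𝕜 := ℂ) (B₁ - C₁) B₂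
  have c2 := norm_inner_le_norm (𝕜 := ℂ) C₁ (B₂ - C₂)
  have c3 : ‖B₁ - C₁‖ * ‖B₂‖ ≤ ε / 2 * 1 :=
    mul_le_mul b1 b3 (norm_nonneg _) (by positivity)
  have c4 : ‖C₁‖ * ‖B₂ - C₂‖ ≤ 1 * (ε / 2) :=
    mul_le_mul b4 b2 (norm_nonneg _) zero_le_one
  linarith

end Hilbert

end Pool.Agent.Zk32
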