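import Mathlib
import Pool.Agent.Zk32.Mean

set_option autoImplicit false
set_option linter.unusedSectionVars false

open MeasureTheory Filter Topology Set
open scoped ENNReal InnerProductSpace

namespace Pool.Agent.Zk32

open Pool.Agent.R202.TM (comp comp_coe comp_norm comp_iter JointErg const_of_inv)

variable {X : Type*} [MeasurableSpace X]

/-- the average of a function over a box of iterates -/
noncomputable def AVf (S T : X → X) (f : X → ℂ) (α N β M : ℕ) (x : X) : ℂ :=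
  (N : ℂ)⁻¹ * ∑ i ∈ Finset.range N, ((M : ℂ)⁻¹ * ∑ j ∈ Finset.range M, f (T^[β + j] (S^[α + i] x)))

lemma AVf_meas {S T : X → X} (hS : Measurable S) (hT : Measurable T) {f : X → ℂ}
    (hf : Measurable f) (α N β M : ℕ) : Measurable (AVf S T f α N β M) := by
  unfold AVf
  refine Measurable.const_mul (Finset.measurable_fun_sum _ fun i _ => ?_) _
  refine Measurable.const_mul (Finset.measurable_fun_sum _ fun j _ => ?_) _
  exact hf.comp ((hT.iterate _).comp (hS.iterate _))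

lemma mean_le {N : ℕ} {g : ℕ → ℂ} (h : ∀ i, ‖g i‖ ≤ 1) :
    ‖(N : ℂ)⁻¹ * ∑ i ∈ Finset.range N, g i‖ ≤ 1 := by
  rcases Nat.eq_zero_or_pos N with h0 | h0
  · subst h0; simp
  · have hN : (0 : ℝ) < N := by exact_mod_cast h0
    rw [norm_mul, norm_inv, Complex.norm_natCast, inv_mul_le_iff₀ hN, mul_one]
    calc ‖∑ i ∈ Finset.range N, g i‖ ≤ ∑ i ∈ Finset.range N, ‖g i‖ := norm_sum_le _ _
      _ ≤ ∑ _i ∈ Finset.range N, (1 : ℝ) := Finset.sum_le_sum fun i _ => h i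
      _ = N := by simp

lemma AVf_le {S T : X → X} {f : X → ℂ} (hf : ∀ x, ‖f x‖ ≤ 1) (α N β M : ℕ) (x : X) :
    ‖AVf S T f α N β M x‖ ≤ 1 :=
  mean_le fun _ => mean_le fun _ => hf _

lemma comp_isom {S : X → X} {μ : Measure X} (hS : MeasurePreserving S μ μ) (w : Lp ℂ 2 μ) :
    ‖comp hS w‖ = ‖w‖ := (Lp.compMeasurePreservingₗᵢ ℂ S hS).norm_map w

lemma av_coe {S : X → X} {μ : Measure X} (hS : MeasurePreserving S μ μ) (α N : ℕ) (w : Lp ℂ 2 μ) :
    ((av (comp hS) α N w : Lp ℂ 2 μ) : X → ℂ) =ᵐ[μ]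
      fun x => (N : ℂ)⁻¹ * ∑ i ∈ Finset.range N, w (S^[α + i] x) := by
  unfold av
  have hsum : ∀ n : ℕ, ((∑ i ∈ Finset.range n, (⇑(comp hS))^[α + i] w : Lp ℂ 2 μ) : X → ℂ) =ᵐ[μ]
      fun x => ∑ i ∈ Finset.range n, w (S^[α + i] x) := by
    intro n
    induction n with
    | zero =>
      simp only [Finset.range_zero, Finset.sum_empty]
      exact Lp.coeFn_zero _ _ _
    | succ n ih =>
      rw [Finset.sum_range_succ]
      filter_upwards [Lp.coeFn_add (∑ i ∈ Finset.range n, (⇑(comp hS))^[α + i] w)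
        ((⇑(comp hS))^[α + n] w), ih, comp_iter hS w (α + n)] with x a b c
      rw [a, Pi.add_apply, b, c, Finset.sum_range_succ]
      rfl
  filter_upwards [Lp.coeFn_smul ((N : ℂ)⁻¹) (∑ i ∈ Finset.range N, (⇑(comp hS))^[α + i] w),
    hsum N] with x a b
  rw [a, Pi.smul_apply, b, smul_eq_mul]

lemma av_av_coe {S T : X → X} {μ : Measure X} (hS : MeasurePreserving S μ μ)
    (hT : MeasurePreserving T μ μ) (α N β M : ℕ) {f : X → ℂ} {w : Lp ℂ 2 μ}
    (hw : (w : X → ℂ) =ᵐ[μ] f) :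
    ((av (comp hS) α N (av (comp hT) β M w) : Lp ℂ 2 μ) : X → ℂ) =ᵐ[μ] AVf S T f α N β M := by
  have h1 := av_coe hS α N (av (comp hT) β M w)
  have h2 := av_coe hT β M w
  have h3 : ∀ᵐ x ∂μ, ∀ i : ℕ, ((av (comp hT) β M w : Lp ℂ 2 μ) : X → ℂ) (S^[α + i] x) =
      (M : ℂ)⁻¹ * ∑ j ∈ Finset.range M, w (T^[β + j] (S^[α + i] x)) := by
    rw [ae_all_iff]
    intro i
    exact (hS.iterate (α + i)).quasiMeasurePreserving.ae h2
  have h4 : ∀ᵐ x ∂μ, ∀ i j : ℕ, w (T^[β + j] (S^[α + i] x)) = f (T^[β + j] (S^[α + i] x)) := by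
    rw [ae_all_iff]; intro i
    rw [ae_all_iff]; intro j
    exact ((hT.iterate (β + j)).comp (hS.iterate (α + i))).quasiMeasurePreserving.ae hw
  filter_upwards [h1, h3, h4] with x a b c
  rw [a]
  unfold AVf
  simp only [b, c]

/-- common invariant vectors are constant -/
lemma herg_of {S T : X → X} {μ : Measure X} [IsProbabilityMeasure μ] (h : JointErg S T μ)
    (hS : MeasurePreserving S μ μ) (hT : MeasurePreserving T μ μ) (hST : ∀ x, S (T x) = T (S x))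
    {e : Lp ℂ 2 μ} (hee : ∀ᵐ x ∂μ, (e : X → ℂ) x = 1) :
    ∀ w : Lp ℂ 2 μ, comp hS w = w → comp hT w = w → w = ⟪e, w⟫_ℂ • e := by
  intro w h1 h2
  set u : X → ℂ := (Lp.aestronglyMeasurable w).mk w with hu
  have hum : Measurable u := (Lp.aestronglyMeasurable w).stronglyMeasurable_mk.measurable
  have hue : ∀ᵐ x ∂μ, w x = u x := (Lp.aestronglyMeasurable w).ae_eq_mk
  have hSu : ∀ᵐ x ∂μ, u (S x) = u x := by
    have h3 := comp_coe hS w
    rw [h1] at h3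
    filter_upwards [h3, hue, hS.quasiMeasurePreserving.ae hue] with x a b c
    rw [← c, ← b, a]
    rfl
  have hTu : ∀ᵐ x ∂μ, u (T x) = u x := by
    have h3 := comp_coe hT w
    rw [h2] at h3
    filter_upwards [h3, hue, hT.quasiMeasurePreserving.ae hue] with x a b c
    rw [← c, ← b, a]
    rfl
  obtain ⟨c, hc⟩ := const_of_inv h hS hT hST hum hSu hTu
  have hwc : ∀ᵐ x ∂μ, w x = c := by
    filter_upwards [hue, hc] with x a b
    rw [a, b]
  have hin : ⟪e, w⟫_ℂ = c := by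
    rw [L2.inner_def]
    have : ∀ᵐ x ∂μ, ⟪(e : X → ℂ) x, w x⟫_ℂ = c := by
      filter_upwards [hee, hwc] with x a b
      rw [a, b]
      simp
    rw [integral_congr_ae this, integral_const, probReal_univ, one_smul]
  rw [hin]
  apply Lp.ext
  filter_upwards [hwc, hee, Lp.coeFn_smul c e] with x a b d
  rw [d, Pi.smul_apply, b, a, smul_eq_mul, mul_one]

lemma memLp_bdd {μ : Measure X} [IsFiniteMeasure μ] {f : X → ℂ} (hf : Measurable f)
    (hb : ∀ x, ‖f x‖ ≤ 1) : MemLp f 2 μ :=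
  MemLp.of_bound hf.aestronglyMeasurable 1 (Eventually.of_forall hb)

lemma norm_toLp_bdd {μ : Measure X} [IsProbabilityMeasure μ] {f : X → ℂ}
    (hb : ∀ x, ‖f x‖ ≤ 1) (h : MemLp f 2 μ) : ‖h.toLp f‖ ≤ 1 := by
  rw [Lp.norm_toLp]
  have h1 : eLpNorm f 2 μ ≤ ENNReal.ofReal 1 := by
    refine (eLpNorm_le_of_ae_bound (Eventually.of_forall hb)).trans ?_
    simp
  exact ENNReal.toReal_le_of_le_ofReal zero_le_one h1

/-- means over large boxes, in the mean of order one -/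
theorem fn_box {S T : X → X} {μ : Measure X} [IsProbabilityMeasure μ] (h : JointErg S T μ)
    (hS : MeasurePreserving S μ μ) (hT : MeasurePreserving T μ μ) (hST : ∀ x, S (T x) = T (S x))
    {f : X → ℂ} (hf : Measurable f) (hb : ∀ x, ‖f x‖ ≤ 1) {ε : ℝ} (hε : 0 < ε) :
    ∃ N₀ : ℕ, ∀ N M, N₀ ≤ N → N₀ ≤ M → ∀ α β : ℕ,
      ∫ x, ‖AVf S T f α N β M x - ∫ y, f y ∂μ‖ ∂μ ≤ ε := by
  have h1m : MemLp (fun _ : X => (1 : ℂ)) 2 μ := memLp_const 1
  set e := h1m.toLp with he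
  have hf2 : MemLp f 2 μ := memLp_bdd hf hb
  set F := hf2.toLp with hF
  have hee : ∀ᵐ x ∂μ, (e : X → ℂ) x = 1 := h1m.coeFn_toLp
  have hFe : (F : X → ℂ) =ᵐ[μ] f := hf2.coeFn_toLp
  have hfix : ∀ {R : X → X} (hR : MeasurePreserving R μ μ), comp hR e = e := by
    intro R hR
    apply Lp.ext
    filter_upwards [comp_coe hR e, hee, hR.quasiMeasurePreserving.ae hee] with x h1 h2 h3
    rw [h1, h2]
    exact h3
  have hcomm : ∀ w, comp hS (comp hT w) = comp hT (comp hS w) := by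
    intro w
    apply Lp.ext
    filter_upwards [comp_coe hS (comp hT w), comp_coe hT (comp hS w),
      hS.quasiMeasurePreserving.ae_eq_comp (comp_coe hT w),
      hT.quasiMeasurePreserving.ae_eq_comp (comp_coe hS w)] with x h1 h2 h3 h4
    rw [h1, h2, h3, h4]
    show w (T (S x)) = w (S (T x))
    rw [hST]
  obtain ⟨N₀, hN₀⟩ := box_mean (comp_isom hS) (comp_isom hT) hcomm (hfix hS) (hfix hT)
    (herg_of h hS hT hST hee) F hε
  refine ⟨N₀, fun N M hN hM α β => ?_⟩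
  have h1 := hN₀ N M hN hM α β
  have hv : ⟪e, F⟫_ℂ = ∫ x, f x ∂μ := by
    rw [L2.inner_def]
    refine integral_congr_ae ?_
    filter_upwards [hee, hFe] with x a b
    rw [a, b]
    simp
  set G := av (comp hS) α N (av (comp hT) β M F) - ⟪e, F⟫_ℂ • e with hG
  have hGe : ∀ᵐ x ∂μ, (G : X → ℂ) x = AVf S T f α N β M x - ∫ y, f y ∂μ := by
    filter_upwards [Lp.coeFn_sub (av (comp hS) α N (av (comp hT) β M F)) (⟪e, F⟫_ℂ • e),
      av_av_coe hS hT α N β M hFe, Lp.coeFn_smul (⟪e, F⟫_ℂ) e, hee] with x a b c d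
    rw [hG, a, Pi.sub_apply, b, c, Pi.smul_apply, d, smul_eq_mul, mul_one, hv]
  have h2 : ∫ x, ‖AVf S T f α N β M x - ∫ y, f y ∂μ‖ ∂μ = ∫ x, ‖(G : X → ℂ) x‖ ∂μ := by
    refine integral_congr_ae ?_
    filter_upwards [hGe] with x hx
    rw [hx]
  rw [h2]
  refine le_trans ?_ h1
  rw [Lp.norm_def]
  have h3 : ∫ x, ‖(G : X → ℂ) x‖ ∂μ = (eLpNorm (G : X → ℂ) 1 μ).toReal := by
    rw [integral_norm_eq_lintegral_enorm (Lp.aestronglyMeasurable G), eLpNorm_one_eq_lintegral_enorm]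
  rw [h3]
  refine ENNReal.toReal_mono (Lp.eLpNorm_ne_top G) ?_
  exact eLpNorm_le_eLpNorm_of_exponent_le (by norm_num) (Lp.aestronglyMeasurable G)

/-- the crossed case for functions -/
theorem fn_cross {S T : X → X} {μ : Measure X} [IsProbabilityMeasure μ] (h : JointErg S T μ)
    (hS : MeasurePreserving S μ μ) (hT : MeasurePreserving T μ μ) (hST : ∀ x, S (T x) = T (S x))
    {f g : X → ℂ} (hf : Measurable f) (hfb : ∀ x, ‖f x‖ ≤ 1) (hg : Measurable g)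
    (hgb : ∀ x, ‖g x‖ ≤ 1) {ε : ℝ} (hε : 0 < ε) :
    ∃ N₀ : ℕ, ∀ N₁ N₂ N₃ N₄, N₀ ≤ N₁ → N₀ ≤ N₄ → 1 ≤ N₂ → 1 ≤ N₃ → ∀ α β γ δ : ℕ,
      ‖∫ x, AVf S T f α N₁ β N₂ x * AVf S T g γ N₃ δ N₄ x ∂μ -
        (∫ y, f y ∂μ) * ∫ y, g y ∂μ‖ ≤ ε := by
  have h1m : MemLp (fun _ : X => (1 : ℂ)) 2 μ := memLp_const 1
  set e := h1m.toLp with he
  set f' : X → ℂ := fun x => (starRingEnd ℂ) (f x) with hf'
  have hf'm : Measurable f' := Complex.continuous_conj.measurable.comp hf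
  have hf'b : ∀ x, ‖f' x‖ ≤ 1 := fun x => by simpa [hf'] using hfb x
  have hf2 : MemLp f' 2 μ := memLp_bdd hf'm hf'b
  have hg2 : MemLp g 2 μ := memLp_bdd hg hgb
  set F := hf2.toLp with hF
  set G := hg2.toLp with hG
  have hee : ∀ᵐ x ∂μ, (e : X → ℂ) x = 1 := h1m.coeFn_toLp
  have hFe : (F : X → ℂ) =ᵐ[μ] f' := hf2.coeFn_toLp
  have hGe : (G : X → ℂ) =ᵐ[μ] g := hg2.coeFn_toLp
  have hfix : ∀ {R : X → X} (hR : MeasurePreserving R μ μ), comp hR e = e := by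
    intro R hR
    apply Lp.ext
    filter_upwards [comp_coe hR e, hee, hR.quasiMeasurePreserving.ae hee] with x h1 h2 h3
    rw [h1, h2]
    exact h3
  have hcomm : ∀ w, comp hS (comp hT w) = comp hT (comp hS w) := by
    intro w
    apply Lp.ext
    filter_upwards [comp_coe hS (comp hT w), comp_coe hT (comp hS w),
      hS.quasiMeasurePreserving.ae_eq_comp (comp_coe hT w),
      hT.quasiMeasurePreserving.ae_eq_comp (comp_coe hS w)] with x h1 h2 h3 h4
    rw [h1, h2, h3, h4]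
    show w (T (S x)) = w (S (T x))
    rw [hST]
  obtain ⟨N₀, hN₀⟩ := cross_mean (comp_isom hS) (comp_isom hT) hcomm (hfix hS) (hfix hT)
    (herg_of h hS hT hST hee) F G (norm_toLp_bdd hf'b hf2) (norm_toLp_bdd hgb hg2) hε
  refine ⟨N₀, fun N₁ N₂ N₃ N₄ hN₁ hN₄ hN₂ hN₃ α β γ δ => ?_⟩
  have h1 := hN₀ N₁ N₂ N₃ N₄ hN₁ hN₄ hN₂ hN₃ α β γ δ
  have hv1 : ⟪F, e⟫_ℂ = ∫ x, f x ∂μ := by
    rw [L2.inner_def]
    refine integral_congr_ae ?_
    filter_upwards [hee, hFe] with x a b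
    rw [a, b]
    simp [hf']
  have hv2 : ⟪e, G⟫_ℂ = ∫ x, g x ∂μ := by
    rw [L2.inner_def]
    refine integral_congr_ae ?_
    filter_upwards [hee, hGe] with x a b
    rw [a, b]
    simp
  have hstar : ∀ (α N β M : ℕ) (x : X), AVf S T f' α N β M x =
      (starRingEnd ℂ) (AVf S T f α N β M x) := by
    intro α N β M x
    unfold AVf
    simp only [map_mul, map_inv₀, Complex.conj_natCast, map_sum, hf']
  have hv3 : ⟪av (comp hS) α N₁ (av (comp hT) β N₂ F), av (comp hS) γ N₃ (av (comp hT) δ N₄ G)⟫_ℂ =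
      ∫ x, AVf S T f α N₁ β N₂ x * AVf S T g γ N₃ δ N₄ x ∂μ := by
    rw [L2.inner_def]
    refine integral_congr_ae ?_
    filter_upwards [av_av_coe hS hT α N₁ β N₂ hFe, av_av_coe hS hT γ N₃ δ N₄ hGe] with x a b
    rw [a, b, hstar]
    simp [mul_comm]
  rw [hv1, hv2, hv3] at h1
  exact h1

end Pool.Agent.Zk32
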