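import Mathlib
import Pool.Agent.Zk32.MeanF
import Pool.Agent.Zk32.Sing

set_option autoImplicit false

open MeasureTheory Filter Topology Set
open scoped ENNReal BoundedContinuousFunction NNReal

namespace Pool.Agent.Zk32

open Pool.Agent.R202.TM (JointErg)

/-- the image of `μ` under `x ↦ n x` -/
noncomputable def img (μ : Measure UnitAddCircle) (n : ℤ) : Measure UnitAddCircle :=
  μ.map (fun x : UnitAddCircle => n • x)

instance img_prob (μ : Measure UnitAddCircle) [IsProbabilityMeasure μ] (n : ℤ) :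
    IsProbabilityMeasure (img μ n) :=
  Measure.isProbabilityMeasure_map (zsmul_meas n).aemeasurable

lemma img_inv {μ : Measure UnitAddCircle} (n : ℤ) {r : ℕ}
    (h : MeasurePreserving (fun x : UnitAddCircle => r • x) μ μ) :
    MeasurePreserving (fun x : UnitAddCircle => r • x) (img μ n) (img μ n) := by
  refine ((zsmul_meas n).measurePreserving μ).of_semiconj h ?_ (nsmul_meas r)
  intro x
  exact smul_comm n r x

/-- an image which is not singular to `μ` is `μ` -/
lemma img_eq {p q : ℕ} {μ : Measure UnitAddCircle} [IsProbabilityMeasure μ]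
    (hJ : JE (fun x : UnitAddCircle => p • x) (fun x : UnitAddCircle => q • x) μ)
    (hμp : MeasurePreserving (fun x : UnitAddCircle => p • x) μ μ)
    (hμq : MeasurePreserving (fun x : UnitAddCircle => q • x) μ μ) {n : ℤ}
    (hns : ¬ (img μ n).MutuallySingular μ) : img μ n = μ := by
  obtain ⟨A, hA, hfA, hgA, hμA, hη, hres⟩ := hJ.dichotomy (fun x => circ_comm p q x) hμp hμq
    (img_inv n hμp) (img_inv n hμq) (fun h => hns h.symm)
  have h1 : img μ n A = μ ((fun x : UnitAddCircle => n • x) ⁻¹' A) := by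
    rw [img, Measure.map_apply (zsmul_meas n) hA]
  have h2 : img μ n A = 1 := by
    have h3 := hJ ((fun x : UnitAddCircle => n • x) ⁻¹' A) (zsmul_meas n hA) (by
      ext x
      change n • (p • x) ∈ A ↔ n • x ∈ A
      rw [smul_comm n p x]
      change n • x ∈ (fun x : UnitAddCircle => p • x) ⁻¹' A ↔ _
      rw [hfA]) (by
      ext x
      change n • (q • x) ∈ A ↔ n • x ∈ A
      rw [smul_comm n q x]
      change n • x ∈ (fun x : UnitAddCircle => q • x) ⁻¹' A ↔ _
      rw [hgA])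
    rw [← h1] at h3
    rcases h3 with h3 | h3
    · exact absurd h3 hη
    · exact h3
  have h3 : img μ n Aᶜ = 0 := (prob_compl_eq_zero_iff hA).mpr h2
  have h4 : (img μ n).restrict A = img μ n := by
    apply Measure.restrict_eq_self_of_ae_mem
    rw [ae_iff]
    exact h3
  rw [h4, h2, one_smul] at hres
  exact hres

/-- averages of images -/
lemma exists_avg (μ : Measure UnitAddCircle) [IsProbabilityMeasure μ] {ι : Type*} (Q : Finset ι)
    (hQ : Q.Nonempty) (n : ι → ℤ) : ∃ M : ProbabilityMeasure UnitAddCircle,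
      (∀ g : C(UnitAddCircle, ℝ), ∫ x, g x ∂(M : Measure UnitAddCircle) =
        (Q.card : ℝ)⁻¹ * ∑ v ∈ Q, ∫ x, g (n v • x) ∂μ) ∧
      (∀ m : ℤ, ∫ x, (fourier m x : ℂ) ∂(M : Measure UnitAddCircle) =
        (Q.card : ℂ)⁻¹ * ∑ v ∈ Q, ∫ x, (fourier (m * n v) x : ℂ) ∂μ) := by
  have hc : 0 < Q.card := Finset.card_pos.mpr hQ
  set ν : Measure UnitAddCircle := ((Q.card : ℝ≥0) : ℝ≥0∞)⁻¹ • ∑ v ∈ Q, img μ (n v) with hν
  have hp : IsProbabilityMeasure ν := by
    constructor
    rw [hν, Measure.smul_apply, Measure.finsetSum_apply]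
    simp only [measure_univ, Finset.sum_const, nsmul_eq_mul, mul_one, smul_eq_mul]
    rw [show ((Q.card : ℕ) : ℝ≥0∞) = ((Q.card : ℝ≥0) : ℝ≥0∞) by push_cast; rfl]
    refine ENNReal.inv_mul_cancel ?_ ENNReal.coe_ne_top
    simpa using hc.ne'
  refine ⟨⟨ν, hp⟩, fun g => ?_, fun m => ?_⟩
  · change ∫ x, g x ∂ν = _
    rw [hν, integral_smul_measure, integral_finsetSum_measure]
    · congr 1
      · rw [ENNReal.toReal_inv]
        rfl
      · refine Finset.sum_congr rfl fun v _ => ?_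
        rw [img, integral_map (zsmul_meas _).aemeasurable g.continuous.aestronglyMeasurable]
    · intro v _
      exact int_cont _ g
  · change ∫ x, (fourier m x : ℂ) ∂ν = _
    rw [hν, integral_smul_measure, integral_finsetSum_measure]
    · rw [Complex.real_smul]
      congr 1
      · rw [ENNReal.toReal_inv]
        simp
      · refine Finset.sum_congr rfl fun v _ => ?_
        rw [img, integral_map (zsmul_meas _).aemeasurable (fou_meas m).aestronglyMeasurable]
        congr 1; funext x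
        rw [fou_smul, mul_comm]
    · intro v _
      exact Integrable.of_bound (fou_meas m).aestronglyMeasurable 1
        (Eventually.of_forall fun x => (norm_fou m x).le)

/-- the indices of a box -/
def boxQ (N : Fin 4 → ℕ) : Finset ((ℕ × ℕ) × (ℕ × ℕ)) :=
  (Finset.range (N 0) ×ˢ Finset.range (N 1)) ×ˢ (Finset.range (N 2) ×ˢ Finset.range (N 3))

/-- the multipliers -/
def mlt (p q : ℕ) (c₁ c₂ r : ℤ) (α : Fin 4 → ℕ) (v : (ℕ × ℕ) × (ℕ × ℕ)) : ℤ :=
  r + c₁ * ((p : ℤ) ^ (α 0 + v.1.1) * (q : ℤ) ^ (α 1 + v.1.2)) +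
    c₂ * ((p : ℤ) ^ (α 2 + v.2.1) * (q : ℤ) ^ (α 3 + v.2.2))

lemma iter_p (p : ℕ) (i : ℕ) (x : UnitAddCircle) :
    (fun x : UnitAddCircle => p • x)^[i] x = (p ^ i) • x := by
  induction i with
  | zero => simp
  | succ i ih =>
    rw [Function.iterate_succ_apply', ih]
    show p • (p ^ i) • x = _
    rw [smul_smul, pow_succ']

lemma AV_eq (p q : ℕ) (k : ℤ) (α N β M : ℕ) (x : UnitAddCircle) :
    AVf (fun x : UnitAddCircle => p • x) (fun x : UnitAddCircle => q • x)
      (fun x => (fourier k x : ℂ)) α N β M x =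
    ((N : ℂ) * M)⁻¹ * ∑ v ∈ Finset.range N ×ˢ Finset.range M,
      (fourier (k * ((p : ℤ) ^ (α + v.1) * (q : ℤ) ^ (β + v.2))) x : ℂ) := by
  unfold AVf
  rw [Finset.sum_product, mul_inv, mul_assoc, ← Finset.mul_sum]
  congr 2
  refine Finset.sum_congr rfl fun i _ => Finset.sum_congr rfl fun j _ => ?_
  rw [iter_p, iter_p, smul_smul]
  change (fourier k ((q ^ (β + j) * p ^ (α + i)) • x) : ℂ) = _
  rw [fou_nsmul]
  congr 1; congr 1
  push_cast; ring

/-- the averaged coefficient as an integral of a product -/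
lemma avg_eq (p q : ℕ) (μ : Measure UnitAddCircle) [IsProbabilityMeasure μ] (c₁ c₂ r m : ℤ)
    (α N : Fin 4 → ℕ) :
    ((boxQ N).card : ℂ)⁻¹ * ∑ v ∈ boxQ N, ∫ x, (fourier (m * mlt p q c₁ c₂ r α v) x : ℂ) ∂μ =
      ∫ x, (fourier (m * r) x : ℂ) *
        (AVf (fun x : UnitAddCircle => p • x) (fun x : UnitAddCircle => q • x)
          (fun x => (fourier (m * c₁) x : ℂ)) (α 0) (N 0) (α 1) (N 1) x *
        AVf (fun x : UnitAddCircle => p • x) (fun x : UnitAddCircle => q • x)
          (fun x => (fourier (m * c₂) x : ℂ)) (α 2) (N 2) (α 3) (N 3) x) ∂μ := by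
  have hcard : ((boxQ N).card : ℂ) = ((N 0 : ℂ) * N 1) * ((N 2 : ℂ) * N 3) := by
    unfold boxQ
    rw [Finset.card_product, Finset.card_product, Finset.card_product]
    simp only [Finset.card_range]
    push_cast; ring
  rw [← integral_finsetSum, ← integral_const_mul]
  · congr 1; funext x
    rw [AV_eq, AV_eq, hcard]
    have h1 : ∑ v ∈ boxQ N, (fourier (m * mlt p q c₁ c₂ r α v) x : ℂ) =
        (fourier (m * r) x : ℂ) * ((∑ v ∈ Finset.range (N 0) ×ˢ Finset.range (N 1),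
          (fourier (m * c₁ * ((p : ℤ) ^ (α 0 + v.1) * (q : ℤ) ^ (α 1 + v.2))) x : ℂ)) *
        ∑ v ∈ Finset.range (N 2) ×ˢ Finset.range (N 3),
          (fourier (m * c₂ * ((p : ℤ) ^ (α 2 + v.1) * (q : ℤ) ^ (α 3 + v.2))) x : ℂ)) := by
      rw [Finset.sum_mul_sum, boxQ, Finset.sum_product, Finset.mul_sum]
      refine Finset.sum_congr rfl fun a _ => ?_
      rw [Finset.mul_sum]
      refine Finset.sum_congr rfl fun b _ => ?_
      rw [← fourier_add, ← fourier_add]
      congr 1; congr 1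
      unfold mlt
      simp only
      ring
    rw [h1]
    ring
  · intro v _
    exact Integrable.of_bound (fou_meas _).aestronglyMeasurable 1
      (Eventually.of_forall fun x => (norm_fou _ x).le)

/-- the condition on the sides of the boxes -/
def Big4 (N₀ : ℕ) (r : ℤ) (N : Fin 4 → ℕ) : Prop :=
  (∀ i, N₀ ≤ N i) ∨ (r = 0 ∧ (N₀ ≤ N 0 ∨ N₀ ≤ N 2) ∧ (N₀ ≤ N 1 ∨ N₀ ≤ N 3))

lemma Big4.mono {N₀ N₁ : ℕ} (h : N₀ ≤ N₁) {r : ℤ} {N : Fin 4 → ℕ} (hN : Big4 N₁ r N) :
    Big4 N₀ r N := by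
  rcases hN with h1 | ⟨h1, h2, h3⟩
  · left; exact fun i => h.trans (h1 i)
  · right
    exact ⟨h1, h2.imp h.trans h.trans, h3.imp h.trans h.trans⟩

/-- the averaged coefficients -/
theorem coef_lim {p q : ℕ} {μ : Measure UnitAddCircle} [IsProbabilityMeasure μ]
    (hJ : JE (fun x : UnitAddCircle => p • x) (fun x : UnitAddCircle => q • x) μ)
    (hμp : MeasurePreserving (fun x : UnitAddCircle => p • x) μ μ)
    (hμq : MeasurePreserving (fun x : UnitAddCircle => q • x) μ μ) (c₁ c₂ m : ℤ) {ε : ℝ}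
    (hε : 0 < ε) : ∃ N₀ : ℕ, ∀ (r : ℤ) (α N : Fin 4 → ℕ), (∀ i, 1 ≤ N i) → Big4 N₀ r N →
      ‖((boxQ N).card : ℂ)⁻¹ * ∑ v ∈ boxQ N, ∫ x, (fourier (m * mlt p q c₁ c₂ r α v) x : ℂ) ∂μ -
        (∫ x, (fourier (m * c₁) x : ℂ) ∂μ) * (∫ x, (fourier (m * c₂) x : ℂ) ∂μ) *
          ∫ x, (fourier (m * r) x : ℂ) ∂μ‖ ≤ ε := by
  have hJ' : JointErg (fun x : UnitAddCircle => p • x) (fun x : UnitAddCircle => q • x) μ := hJ
  have hJs : JointErg (fun x : UnitAddCircle => q • x) (fun x : UnitAddCircle => p • x) μ :=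
    fun E hE h1 h2 => hJ E hE h2 h1
  have hcomm := fun x : UnitAddCircle => circ_comm p q x
  have e2 : 0 < ε / 2 := by positivity
  obtain ⟨n₁, hn₁⟩ := fn_box hJ' hμp hμq hcomm (fou_meas (m * c₁))
    (fun x => (norm_fou (m * c₁) x).le) e2
  obtain ⟨n₂, hn₂⟩ := fn_box hJ' hμp hμq hcomm (fou_meas (m * c₂))
    (fun x => (norm_fou (m * c₂) x).le) e2
  obtain ⟨n₃, hn₃⟩ := fn_cross hJ' hμp hμq hcomm (fou_meas (m * c₁))
    (fun x => (norm_fou (m * c₁) x).le) (fou_meas (m * c₂)) (fun x => (norm_fou (m * c₂) x).le) hε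
  obtain ⟨n₄, hn₄⟩ := fn_cross hJ' hμp hμq hcomm (fou_meas (m * c₂))
    (fun x => (norm_fou (m * c₂) x).le) (fou_meas (m * c₁)) (fun x => (norm_fou (m * c₁) x).le) hε
  refine ⟨max (max n₁ n₂) (max n₃ n₄), fun r α N hN1 hN => ?_⟩
  rw [avg_eq]
  set S := (fun x : UnitAddCircle => p • x) with hS
  set T := (fun x : UnitAddCircle => q • x) with hT
  set A₁ := AVf S T (fun x => (fourier (m * c₁) x : ℂ)) (α 0) (N 0) (α 1) (N 1) with hA₁
  set A₂ := AVf S T (fun x => (fourier (m * c₂) x : ℂ)) (α 2) (N 2) (α 3) (N 3) with hA₂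
  set a₁ := ∫ x, (fourier (m * c₁) x : ℂ) ∂μ with ha₁
  set a₂ := ∫ x, (fourier (m * c₂) x : ℂ) ∂μ with ha₂
  have mS : Measurable S := nsmul_meas p
  have mT : Measurable T := nsmul_meas q
  have mA₁ : Measurable A₁ := AVf_meas mS mT (fou_meas _) _ _ _ _
  have mA₂ : Measurable A₂ := AVf_meas mS mT (fou_meas _) _ _ _ _
  have bA₁ : ∀ x, ‖A₁ x‖ ≤ 1 := fun x => AVf_le (fun x => (norm_fou _ x).le) _ _ _ _ x
  have bA₂ : ∀ x, ‖A₂ x‖ ≤ 1 := fun x => AVf_le (fun x => (norm_fou _ x).le) _ _ _ _ x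
  have ib : ∀ {u : UnitAddCircle → ℂ} {C : ℝ}, Measurable u → (∀ x, ‖u x‖ ≤ C) → Integrable u μ :=
    fun hu hb => Integrable.of_bound hu.aestronglyMeasurable _ (Eventually.of_forall hb)
  have hmean : ∀ k : ℤ, ‖∫ x, (fourier k x : ℂ) ∂μ‖ ≤ 1 := by
    intro k
    have := norm_integral_le_of_norm_le_const (μ := μ) (f := fun x => (fourier k x : ℂ)) (C := 1)
      (Eventually.of_forall fun x => (norm_fou k x).le)
    simpa using this
  -- integrals of the averages
  have hint : ∀ (k : ℤ) (α N β M : ℕ), 1 ≤ N → 1 ≤ M →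
      ∫ x, AVf S T (fun x => (fourier k x : ℂ)) α N β M x ∂μ = ∫ x, (fourier k x : ℂ) ∂μ := by
    intro k α N β M hN hM
    unfold AVf
    rw [integral_const_mul, integral_finsetSum]
    · have h1 : ∀ i ∈ Finset.range N, ∫ x, (M : ℂ)⁻¹ * ∑ j ∈ Finset.range M,
          (fourier k (T^[β + j] (S^[α + i] x)) : ℂ) ∂μ = ∫ x, (fourier k x : ℂ) ∂μ := by
        intro i _
        rw [integral_const_mul, integral_finsetSum]
        · have h2 : ∀ j ∈ Finset.range M, ∫ x, (fourier k (T^[β + j] (S^[α + i] x)) : ℂ) ∂μ =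
              ∫ x, (fourier k x : ℂ) ∂μ := by
            intro j _
            have h3 := (hμq.iterate (β + j)).comp (hμp.iterate (α + i))
            have h4 := integral_map (μ := μ) h3.measurable.aemeasurable
              (f := fun x => (fourier k x : ℂ)) (fou_meas k).aestronglyMeasurable
            rw [h3.map_eq] at h4
            exact h4.symm
          rw [Finset.sum_congr rfl h2, Finset.sum_const, Finset.card_range, nsmul_eq_mul,
            ← mul_assoc, inv_mul_cancel₀ (by exact_mod_cast (by omega : M ≠ 0)), one_mul]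
        · intro j _
          exact ib ((fou_meas k).comp ((mT.iterate _).comp (mS.iterate _)))
            (fun x => (norm_fou k _).le)
      rw [Finset.sum_congr rfl h1, Finset.sum_const, Finset.card_range, nsmul_eq_mul,
            ← mul_assoc, inv_mul_cancel₀ (by exact_mod_cast (by omega : N ≠ 0)), one_mul]
    · intro i _
      refine ib (C := 1) (Measurable.const_mul (Finset.measurable_fun_sum _ fun j _ => ?_) _)
        (fun x => mean_le fun j => (norm_fou _ _).le)
      exact (fou_meas k).comp ((mT.iterate _).comp (mS.iterate _))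
  have i₁ : ∫ x, A₁ x ∂μ = a₁ := hint _ _ _ _ _ (hN1 0) (hN1 1)
  have i₂ : ∫ x, A₂ x ∂μ = a₂ := hint _ _ _ _ _ (hN1 2) (hN1 3)
  have hd₁ : Integrable (fun x => A₁ x - a₁) μ := (ib mA₁ bA₁).sub (integrable_const _)
  have hd₂ : Integrable (fun x => A₂ x - a₂) μ := (ib mA₂ bA₂).sub (integrable_const _)
  -- small integrals against bounded functions
  have hsm : ∀ {w d : UnitAddCircle → ℂ} {δ : ℝ}, Measurable w → (∀ x, ‖w x‖ ≤ 1) →
      Integrable d μ → ∫ x, ‖d x‖ ∂μ ≤ δ → ‖∫ x, w x * d x ∂μ‖ ≤ δ := by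
    intro w d δ hw hwb hd hdd
    refine (norm_integral_le_integral_norm _).trans (le_trans ?_ hdd)
    refine integral_mono_of_nonneg (Eventually.of_forall fun x => norm_nonneg _) hd.norm
      (Eventually.of_forall fun x => ?_)
    simp only [norm_mul]
    have := hwb x
    have := norm_nonneg (d x)
    nlinarith
  rcases hN with hN | ⟨hr, hN⟩
  · have a1 := hn₁ (N 0) (N 1) ((le_of_max_le_left (le_of_max_le_left (hN 0))))
      ((le_of_max_le_left (le_of_max_le_left (hN 1)))) (α 0) (α 1)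
    have a2 := hn₂ (N 2) (N 3) ((le_of_max_le_right (le_of_max_le_left (hN 2))))
      ((le_of_max_le_right (le_of_max_le_left (hN 3)))) (α 2) (α 3)
    have b1 := hsm (w := fun x => (fourier (m * r) x : ℂ) * A₂ x) (d := fun x => A₁ x - a₁)
      ((fou_meas _).mul mA₂) (fun x => by
        rw [norm_mul, norm_fou, one_mul]; exact bA₂ x) hd₁ a1
    have b2 := hsm (w := fun x => (fourier (m * r) x : ℂ)) (d := fun x => A₂ x - a₂)
      (fou_meas _) (fun x => (norm_fou _ x).le) hd₂ a2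
    have iF : Integrable (fun x => (fourier (m * r) x : ℂ)) μ :=
      ib (fou_meas _) (fun x => (norm_fou _ x).le)
    have iFA : Integrable (fun x => (fourier (m * r) x : ℂ) * A₂ x) μ :=
      ib (C := 1) ((fou_meas _).mul mA₂) (fun x => by
        rw [norm_mul, norm_fou, one_mul]; exact bA₂ x)
    have iFAA : Integrable (fun x => (fourier (m * r) x : ℂ) * (A₁ x * A₂ x)) μ :=
      ib (C := 1) ((fou_meas _).mul (mA₁.mul mA₂)) (fun x => by
        rw [norm_mul, norm_fou, one_mul, norm_mul]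
        exact mul_le_one₀ (bA₁ x) (norm_nonneg _) (bA₂ x))
    have egen : ∀ b₁ b₂ : ℂ, ∫ x, (fourier (m * r) x : ℂ) * (A₁ x * A₂ x) ∂μ -
        b₁ * b₂ * ∫ x, (fourier (m * r) x : ℂ) ∂μ =
        ∫ x, (fourier (m * r) x : ℂ) * A₂ x * (A₁ x - b₁) ∂μ +
          b₁ * ∫ x, (fourier (m * r) x : ℂ) * (A₂ x - b₂) ∂μ := by
      intro b₁ b₂
      have t1 : ∫ x, (fourier (m * r) x : ℂ) * A₂ x * (A₁ x - b₁) ∂μ =
          ∫ x, (fourier (m * r) x : ℂ) * (A₁ x * A₂ x) ∂μ -
            b₁ * ∫ x, (fourier (m * r) x : ℂ) * A₂ x ∂μ := by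
        rw [← integral_const_mul, ← integral_sub iFAA (iFA.const_mul _)]
        congr 1; funext x; ring
      have t2 : ∫ x, (fourier (m * r) x : ℂ) * (A₂ x - b₂) ∂μ =
          ∫ x, (fourier (m * r) x : ℂ) * A₂ x ∂μ - b₂ * ∫ x, (fourier (m * r) x : ℂ) ∂μ := by
        rw [← integral_const_mul, ← integral_sub iFA (iF.const_mul _)]
        congr 1; funext x; ring
      rw [t1, t2]; ring
    have e1 := egen a₁ a₂
    rw [e1]
    refine (norm_add_le _ _).trans ?_
    rw [norm_mul]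
    have h1 := hmean (m * c₁)
    have h2 : ‖a₁‖ * ‖∫ x, (fourier (m * r) x : ℂ) * (A₂ x - a₂) ∂μ‖ ≤ 1 * (ε / 2) :=
      mul_le_mul h1 b2 (norm_nonneg _) zero_le_one
    linarith
  · subst hr
    have e0 : ∫ x, (fourier (m * 0) x : ℂ) ∂μ = 1 := by simp
    rw [e0, mul_one]
    have e1 : ∫ x, (fourier (m * 0) x : ℂ) * (A₁ x * A₂ x) ∂μ = ∫ x, A₁ x * A₂ x ∂μ := by
      congr 1; funext x; simp
    rw [e1]
    have hprod : Integrable (fun x => A₁ x * A₂ x) μ := ib (C := 1) (mA₁.mul mA₂) (fun x => by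
      rw [norm_mul]; exact mul_le_one₀ (bA₁ x) (norm_nonneg _) (bA₂ x))
    rcases hN with ⟨h0 | h0, h1 | h1⟩
    · -- the first average converges
      have a1 := hn₁ (N 0) (N 1) ((le_of_max_le_left (le_of_max_le_left h0)))
        ((le_of_max_le_left (le_of_max_le_left h1))) (α 0) (α 1)
      have b1 := hsm (w := A₂) (d := fun x => A₁ x - a₁) mA₂ bA₂ hd₁ a1
      have e2 : ∫ x, A₁ x * A₂ x ∂μ - a₁ * a₂ = ∫ x, A₂ x * (A₁ x - a₁) ∂μ := by
        rw [← i₂, ← integral_const_mul, ← integral_sub hprod ((ib mA₂ bA₂).const_mul _)]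
        congr 1; funext x; ring
      rw [e2]
      exact b1.trans (by linarith)
    · exact hn₃ (N 0) (N 1) (N 2) (N 3) (le_of_max_le_left (le_of_max_le_right h0))
        (le_of_max_le_left (le_of_max_le_right h1)) (hN1 1) (hN1 2) _ _ _ _
    · have h2 := hn₄ (N 2) (N 3) (N 0) (N 1) (le_of_max_le_right (le_of_max_le_right h0))
        (le_of_max_le_right (le_of_max_le_right h1)) (hN1 3) (hN1 0) (α 2) (α 3) (α 0) (α 1)
      have e2 : ∫ x, A₂ x * A₁ x ∂μ = ∫ x, A₁ x * A₂ x ∂μ := by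
        congr 1; funext x; ring
      rw [e2, mul_comm (∫ y, (fourier (m * c₂) y : ℂ) ∂μ)] at h2
      exact h2
    · -- the second average converges
      have a1 := hn₂ (N 2) (N 3) ((le_of_max_le_right (le_of_max_le_left h0)))
        ((le_of_max_le_right (le_of_max_le_left h1))) (α 2) (α 3)
      have b1 := hsm (w := A₁) (d := fun x => A₂ x - a₂) mA₁ bA₁ hd₂ a1
      have e2 : ∫ x, A₁ x * A₂ x ∂μ - a₁ * a₂ = ∫ x, A₁ x * (A₂ x - a₂) ∂μ := by
        rw [mul_comm a₁, ← i₁, ← integral_const_mul,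
          ← integral_sub hprod ((ib mA₁ bA₁).const_mul _)]
        congr 1; funext x; ring
      rw [e2]
      exact b1.trans (by linarith)

end Pool.Agent.Zk32
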