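import Mathlib
import Pool.Agent.Zk32.Circ
import Pool.Agent.Zk32.WLE

set_option autoImplicit false

open MeasureTheory Filter Topology Set
open scoped ENNReal

namespace Pool.Agent.Zk32

/-! ### Growth -/

lemma pow_sub_one_near {z : ℂ} (hz : ‖z‖ = 1) (n : ℕ) :
    ‖(z ^ n - 1) - n * (z - 1)‖ ≤ (n : ℝ) ^ 2 / 2 * ‖z - 1‖ ^ 2 := by
  induction n with
  | zero => simp
  | succ n ih =>
    have e : (z ^ (n + 1) - 1) - ((n + 1 : ℕ) : ℂ) * (z - 1) =
        z * ((z ^ n - 1) - n * (z - 1)) + n * (z - 1) ^ 2 := by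
      push_cast; ring
    rw [e]
    calc ‖z * ((z ^ n - 1) - n * (z - 1)) + n * (z - 1) ^ 2‖
        ≤ ‖z * ((z ^ n - 1) - n * (z - 1))‖ + ‖(n : ℂ) * (z - 1) ^ 2‖ := norm_add_le _ _
      _ = ‖(z ^ n - 1) - n * (z - 1)‖ + n * ‖z - 1‖ ^ 2 := by
          rw [norm_mul, hz, one_mul, norm_mul, norm_pow, Complex.norm_natCast]
      _ ≤ (n : ℝ) ^ 2 / 2 * ‖z - 1‖ ^ 2 + n * ‖z - 1‖ ^ 2 := by linarith
      _ ≤ ((n + 1 : ℕ) : ℝ) ^ 2 / 2 * ‖z - 1‖ ^ 2 := by
          push_cast
          have := sq_nonneg ‖z - 1‖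
          nlinarith

lemma fou_pow (H : ℤ) (p : ℕ) (x : UnitAddCircle) :
    (fourier H (p • x) : ℂ) = (fourier H x : ℂ) ^ p := by
  induction p with
  | zero => simp
  | succ n ih =>
    rw [succ_nsmul, fou_add', ih, pow_succ]

lemma growth_pt (H : ℤ) (p : ℕ) (x : UnitAddCircle) :
    p * ‖(fourier H x : ℂ) - 1‖ - p ^ 2 * (1 - (fourier H x : ℂ).re) ≤
      ‖(fourier H (p • x) : ℂ) - 1‖ := by
  have h1 := pow_sub_one_near (norm_fou H x) p
  rw [fou_pow, re_eq]
  have h2 : ‖(p : ℂ) * ((fourier H x : ℂ) - 1)‖ = p * ‖(fourier H x : ℂ) - 1‖ := by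
    rw [norm_mul, Complex.norm_natCast]
  have h3 : ‖(p : ℂ) * ((fourier H x : ℂ) - 1)‖ ≤ ‖(fourier H x : ℂ) ^ p - 1‖ +
      ‖((fourier H x : ℂ) ^ p - 1) - p * ((fourier H x : ℂ) - 1)‖ := by
    have := norm_sub_le ((fourier H x : ℂ) ^ p - 1)
      (((fourier H x : ℂ) ^ p - 1) - p * ((fourier H x : ℂ) - 1))
    rwa [sub_sub_cancel] at this
  rw [h2] at h3
  linarith

lemma fou_sub_integrable (κ : Measure UnitAddCircle) [IsFiniteMeasure κ] (H : ℤ) :
    Integrable (fun x : UnitAddCircle => ‖(fourier H x : ℂ) - 1‖) κ := by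
  refine Integrable.of_bound ((fou_meas H).sub measurable_const).norm.aestronglyMeasurable 2
    (Eventually.of_forall fun x => ?_)
  rw [norm_norm]
  refine (norm_sub_le _ _).trans ?_
  rw [norm_fou, norm_one]; norm_num

lemma re_integrable (κ : Measure UnitAddCircle) [IsFiniteMeasure κ] (H : ℤ) :
    Integrable (fun x : UnitAddCircle => 1 - (fourier H x : ℂ).re) κ := by
  refine Integrable.of_bound (measurable_const.sub
    (Complex.measurable_re.comp (fou_meas H))).aestronglyMeasurable 2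
    (Eventually.of_forall fun x => ?_)
  rw [Real.norm_eq_abs, abs_of_nonneg (re_nonneg _ x)]
  exact re_le_two _ x

/-- for invariant measures the first moment is controlled by the second one -/
lemma growth {p : ℕ} (hp : 2 ≤ p) {κ : Measure UnitAddCircle} [IsFiniteMeasure κ]
    (h : MeasurePreserving (fun x : UnitAddCircle => p • x) κ κ) (H : ℤ) :
    ∫ x, ‖(fourier H x : ℂ) - 1‖ ∂κ ≤ p ^ 2 * ∫ x, (1 - (fourier H x : ℂ).re) ∂κ := by
  have h1 : ∫ x, ‖(fourier H (p • x) : ℂ) - 1‖ ∂κ = ∫ x, ‖(fourier H x : ℂ) - 1‖ ∂κ := by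
    have := integral_map (μ := κ) h.measurable.aemeasurable
      (f := fun x : UnitAddCircle => ‖(fourier H x : ℂ) - 1‖)
      ((fou_meas H).sub measurable_const).norm.aestronglyMeasurable
    rw [h.map_eq] at this
    exact this.symm
  have hi := fou_sub_integrable κ H
  have hj := re_integrable κ H
  have hi2 : Integrable (fun x : UnitAddCircle => ‖(fourier H (p • x) : ℂ) - 1‖) κ :=
    h.integrable_comp_of_integrable hi
  have h2 : ∫ x, (p * ‖(fourier H x : ℂ) - 1‖ - p ^ 2 * (1 - (fourier H x : ℂ).re)) ∂κ ≤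
      ∫ x, ‖(fourier H (p • x) : ℂ) - 1‖ ∂κ :=
    integral_mono ((hi.const_mul _).sub (hj.const_mul _)) hi2 (fun x => growth_pt H p x)
  rw [integral_sub (hi.const_mul _) (hj.const_mul _), integral_const_mul, integral_const_mul,
    h1] at h2
  have h3 : 0 ≤ ∫ x, ‖(fourier H x : ℂ) - 1‖ ∂κ := integral_nonneg fun x => norm_nonneg _
  have h4 : (2 : ℝ) ≤ p := by exact_mod_cast hp
  nlinarith

/-! ### Finite nets -/

/-- a set on which all balls have a fixed positive measure has a finite net -/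
lemma exists_net {Y : Type*} [MeasurableSpace Y] (ω : Measure Y) [IsProbabilityMeasure ω]
    (d : Y → Y → ℝ) (h0 : ∀ u, d u u = 0) (hs : ∀ u v, d u v = d v u)
    (ht : ∀ u v w, d u w ≤ d u v + d v w) (hm : ∀ u, Measurable (d u)) {ε θ : ℝ} (hε : 0 < ε)
    (hθ : 0 < θ) {U : Set Y} (hU : ∀ u ∈ U, θ ≤ ω.real {v | d u v < ε}) :
    ∃ F : Finset Y, (∀ v ∈ F, v ∈ U) ∧ ∀ u ∈ U, ∃ v ∈ F, d v u < 2 * ε := by
  classical
  by_contra hcon
  push Not at hcon
  have key : ∀ n : ℕ, ∃ F : Finset Y, F.card = n ∧ (∀ v ∈ F, v ∈ U) ∧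
      ∀ v ∈ F, ∀ w ∈ F, v ≠ w → 2 * ε ≤ d v w := by
    intro n
    induction n with
    | zero => exact ⟨∅, rfl, by simp, by simp⟩
    | succ n ih =>
      obtain ⟨F, hc, hFU, hF⟩ := ih
      obtain ⟨u, hu, hFu⟩ := hcon F hFU
      have hnot : u ∉ F := by
        intro h
        have := hFu u h
        rw [h0] at this
        linarith
      refine ⟨insert u F, by rw [Finset.card_insert_of_notMem hnot, hc], ?_, ?_⟩
      · intro v hv
        rcases Finset.mem_insert.mp hv with rfl | hv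
        · exact hu
        · exact hFU v hv
      · intro v hv w hw hvw
        rcases Finset.mem_insert.mp hv with hv1 | hv1
        · rcases Finset.mem_insert.mp hw with hw1 | hw1
          · exact absurd (hv1.trans hw1.symm) hvw
          · rw [hs, hv1]; exact hFu w hw1
        · rcases Finset.mem_insert.mp hw with hw1 | hw1
          · rw [hw1]; exact hFu v hv1
          · exact hF v hv1 w hw1 hvw
  obtain ⟨n, hn⟩ := exists_nat_gt (1 / θ)
  obtain ⟨F, hc, hFU, hF⟩ := key n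
  have hB : ∀ u, MeasurableSet {v | d u v < ε} := fun u =>
    measurableSet_lt (hm u) measurable_const
  have hdis : (F : Set Y).PairwiseDisjoint (fun u => {v | d u v < ε}) := by
    intro v hv w hw hvw
    rw [Function.onFun, Set.disjoint_left]
    intro x hx hx'
    have h1 : d v x < ε := hx
    have h2 : d w x < ε := hx'
    have h3 := hF v hv w hw hvw
    have h4 := ht v x w
    rw [hs x w] at h4
    linarith
  have h1 : ω.real (⋃ u ∈ F, {v | d u v < ε}) = ∑ u ∈ F, ω.real {v | d u v < ε} :=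
    measureReal_biUnion_finset hdis (fun u _ => hB u)
  have h2 : (n : ℝ) * θ ≤ ∑ u ∈ F, ω.real {v | d u v < ε} := by
    rw [← hc, ← nsmul_eq_mul]
    exact Finset.card_nsmul_le_sum _ _ _ (fun u hu => hU u (hFU u hu))
  have h3 : ω.real (⋃ u ∈ F, {v | d u v < ε}) ≤ 1 := measureReal_le_one
  rw [div_lt_iff₀ hθ] at hn
  linarith

/-! ### Balls have positive measure -/

lemma ball_pos {X Y : Type*} [MeasurableSpace X] [MeasurableSpace.CountablyGenerated X]
    [MeasurableSpace Y] (μ : Measure X) [IsFiniteMeasure μ] (ω : Measure Y)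
    [IsFiniteMeasure ω] {E : Y → Set X} (hE : ∀ u, MeasurableSet (E u)) {ε : ℝ} (hε : 0 < ε) :
    ∀ᵐ u ∂ω, 0 < ω.real {v | μ.real (symmDiff (E u) (E v)) < ε} := by
  obtain ⟨𝒜, h𝒜c, h𝒜⟩ := exists_countable_measureDense (μ := μ)
  set B : Set X → Set Y := fun t => {u | μ.real (symmDiff (E u) t) < ε / 2} with hB
  have hcov : ∀ u, ∃ t ∈ 𝒜, u ∈ B t := by
    intro u
    obtain ⟨t, ht, ht2⟩ := h𝒜.approx (E u) (hE u) (measure_ne_top _ _) (ε / 2) (by linarith)
    refine ⟨t, ht, ?_⟩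
    change (μ (symmDiff (E u) t)).toReal < ε / 2
    exact (ENNReal.toReal_lt_of_lt_ofReal ht2)
  have hnull : ω (⋃ t ∈ {t ∈ 𝒜 | ω (B t) = 0}, B t) = 0 := by
    rw [measure_biUnion_null_iff (h𝒜c.mono (fun t ht => ht.1))]
    exact fun t ht => ht.2
  rw [ae_iff]
  refine measure_mono_null (fun u hu => ?_) hnull
  have hu0 : ω.real {v | μ.real (symmDiff (E u) (E v)) < ε} = 0 :=
    le_antisymm (not_lt.mp hu) measureReal_nonneg
  obtain ⟨t, ht, hut⟩ := hcov u
  simp only [Set.mem_iUnion]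
  refine ⟨t, ⟨ht, ?_⟩, hut⟩
  refine measure_mono_null (fun v hv => ?_) ((measureReal_eq_zero_iff (measure_ne_top _ _)).mp hu0)
  have h1 : μ.real (symmDiff (E u) t) < ε / 2 := hut
  have h2 : μ.real (symmDiff (E v) t) < ε / 2 := hv
  change μ.real (symmDiff (E u) (E v)) < ε
  have h3 : symmDiff (E u) (E v) ⊆ symmDiff (E u) t ∪ symmDiff (E v) t := by
    rw [symmDiff_comm (E v) t]
    exact symmDiff_triangle (E u) t (E v)
  have h4 := measureReal_mono h3 (measure_ne_top μ _)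
  have h5 := measureReal_union_le (μ := μ) (symmDiff (E u) t) (symmDiff (E v) t)
  linarith

/-! ### Two characters -/

/-- weak limits of products of two far apart characters on finitely many sets -/
lemma two_char {μ : Measure UnitAddCircle} [IsProbabilityMeasure μ] {𝒰 : Ultrafilter ℕ}
    (h𝒰 : (𝒰 : Filter ℕ) ≤ atTop) {n : ℕ → ℤ} {a : UnitAddCircle → ℂ} (ha : Measurable a)
    (hab : ∀ x, ‖a x‖ ≤ 1)
    (hw : WL (𝒰 : Filter ℕ) μ (fun i x => (fourier (n i) x : ℂ)) a)
    {ι : Type*} (F : Finset ι) {E : ι → Set UnitAddCircle} (hE : ∀ v, MeasurableSet (E v)) {ε : ℝ}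
    (hε : 0 < ε) :
    ∃ i i' : ℕ, i < i' ∧ ∀ v ∈ F,
      ‖∫ x in E v, ((fourier (n i' - n i) x : ℂ) - ((‖a x‖ ^ 2 : ℝ) : ℂ)) ∂μ‖ < ε := by
  have hcI : ∀ (m : ℤ), Integrable (fun x : UnitAddCircle => (starRingEnd ℂ) (fourier m x : ℂ)) μ :=
    fun m => Integrable.of_bound
      (Complex.continuous_conj.measurable.comp (fou_meas m)).aestronglyMeasurable 1
      (Eventually.of_forall fun x => by rw [RCLike.norm_conj, norm_fou])
  have hcA : Integrable (fun x : UnitAddCircle => (starRingEnd ℂ) (a x)) μ :=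
    Integrable.of_bound (Complex.continuous_conj.measurable.comp ha).aestronglyMeasurable 1
      (Eventually.of_forall fun x => by rw [RCLike.norm_conj]; exact hab x)
  -- restriction to a set as a test function
  have hind : ∀ (v : ι) (f g : UnitAddCircle → ℂ),
      ∫ x, f x * (E v).indicator g x ∂μ = ∫ x in E v, f x * g x ∂μ := by
    intro v f g
    rw [← integral_indicator (hE v)]
    congr 1; funext x
    by_cases hx : x ∈ E v <;> simp [hx]
  have h2 : ∀ (v : ι) (i : ℕ), Tendsto (fun i' => ∫ x in E v, (fourier (n i' - n i) x : ℂ) ∂μ)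
      (𝒰 : Filter ℕ) (𝓝 (∫ x in E v, a x * (starRingEnd ℂ) (fourier (n i) x : ℂ) ∂μ)) := by
    intro v i
    have h3 := hw ((E v).indicator (fun x => (starRingEnd ℂ) (fourier (n i) x : ℂ)))
      ((hcI _).indicator (hE v))
    simp only [hind] at h3
    refine h3.congr (fun i' => ?_)
    congr 1; funext x
    rw [← fourier_neg, ← fourier_add, sub_eq_add_neg]
  have h1 : ∀ v : ι, Tendsto (fun i => ∫ x in E v, a x * (starRingEnd ℂ) (fourier (n i) x : ℂ) ∂μ)
      (𝒰 : Filter ℕ) (𝓝 (∫ x in E v, ((‖a x‖ ^ 2 : ℝ) : ℂ) ∂μ)) := by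
    intro v
    have h3 := hw ((E v).indicator (fun x => (starRingEnd ℂ) (a x))) (hcA.indicator (hE v))
    simp only [hind] at h3
    have h4 := (Complex.continuous_conj.tendsto _).comp h3
    have e1 : (starRingEnd ℂ) (∫ x in E v, a x * (starRingEnd ℂ) (a x) ∂μ) =
        ∫ x in E v, ((‖a x‖ ^ 2 : ℝ) : ℂ) ∂μ := by
      rw [← integral_conj]
      congr 1; funext x
      rw [map_mul, Complex.conj_conj, ← Complex.normSq_eq_conj_mul_self,
        Complex.normSq_eq_norm_sq]
    rw [e1] at h4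
    refine h4.congr (fun i => ?_)
    simp only [Function.comp]
    rw [← integral_conj]
    congr 1; funext x
    rw [map_mul, Complex.conj_conj, mul_comm]
  -- the choice of the first index
  have c1 : ∀ᶠ i in (𝒰 : Filter ℕ), ∀ v ∈ F,
      ‖(∫ x in E v, a x * (starRingEnd ℂ) (fourier (n i) x : ℂ) ∂μ) -
        ∫ x in E v, ((‖a x‖ ^ 2 : ℝ) : ℂ) ∂μ‖ < ε / 2 := by
    rw [Filter.eventually_all_finset]
    intro v _
    have := Metric.tendsto_nhds.mp (h1 v) (ε / 2) (by linarith)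
    simpa only [dist_eq_norm] using this
  obtain ⟨i, hi⟩ := c1.exists
  have c2 : ∀ᶠ i' in (𝒰 : Filter ℕ), ∀ v ∈ F,
      ‖(∫ x in E v, (fourier (n i' - n i) x : ℂ) ∂μ) -
        ∫ x in E v, a x * (starRingEnd ℂ) (fourier (n i) x : ℂ) ∂μ‖ < ε / 2 := by
    rw [Filter.eventually_all_finset]
    intro v _
    have := Metric.tendsto_nhds.mp (h2 v i) (ε / 2) (by linarith)
    simpa only [dist_eq_norm] using this
  obtain ⟨i', hi', hii⟩ := (c2.and (h𝒰 (eventually_gt_atTop i))).exists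
  refine ⟨i, i', hii, fun v hv => ?_⟩
  have hfI : Integrable (fun x : UnitAddCircle => (fourier (n i' - n i) x : ℂ)) (μ.restrict (E v)) :=
    Integrable.of_bound (fou_meas _).aestronglyMeasurable 1
      (Eventually.of_forall fun x => (norm_fou _ x).le)
  have haI : Integrable (fun x : UnitAddCircle => ((‖a x‖ ^ 2 : ℝ) : ℂ)) (μ.restrict (E v)) := by
    refine Integrable.of_bound
      (Complex.measurable_ofReal.comp (ha.norm.pow_const 2)).aestronglyMeasurable 1
      (Eventually.of_forall fun x => ?_)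
    rw [Complex.norm_real, Real.norm_eq_abs, abs_of_nonneg (by positivity)]
    exact pow_le_one₀ (norm_nonneg _) (hab x)
  rw [integral_sub hfI haI]
  have h3 := hi v hv
  have h4 := hi' v hv
  have h5 := norm_add_le ((∫ x in E v, (fourier (n i' - n i) x : ℂ) ∂μ) -
        ∫ x in E v, a x * (starRingEnd ℂ) (fourier (n i) x : ℂ) ∂μ)
        ((∫ x in E v, a x * (starRingEnd ℂ) (fourier (n i) x : ℂ) ∂μ) -
        ∫ x in E v, ((‖a x‖ ^ 2 : ℝ) : ℂ) ∂μ)
  rw [sub_add_sub_cancel] at h5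
  linarith

end Pool.Agent.Zk32
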