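import Mathlib
import Pool.Agent.Zk32.Noise1
import Pool.Agent.Zk32.Sing
import Pool.Agent.Zk32.MeanF

set_option autoImplicit false

open MeasureTheory Filter Topology Set
open scoped ENNReal

namespace Pool.Agent.Zk32

/-- the slices of the set `{c x + u ∈ A}` -/
def sl (c : ℤ) (A : Set UnitAddCircle) (u : UnitAddCircle) : Set UnitAddCircle :=
  {x | c • x + u ∈ A}

lemma lc_meas (c : ℤ) : Measurable (fun z : UnitAddCircle × UnitAddCircle => c • z.1 + z.2) :=
  ((zsmul_meas c).comp measurable_fst).add measurable_snd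

lemma sl_meas {c : ℤ} {A : Set UnitAddCircle} (hA : MeasurableSet A) (u : UnitAddCircle) :
    MeasurableSet (sl c A u) :=
  ((zsmul_meas c).add_const u) hA

/-- multiplication by `n` preserves both measures and the set -/
structure Sy (μ ω : Measure UnitAddCircle) (A : Set UnitAddCircle) (n : ℕ) : Prop where
  mu : MeasurePreserving (fun x : UnitAddCircle => n • x) μ μ
  om : MeasurePreserving (fun x : UnitAddCircle => n • x) ω ω
  st : ∀ x : UnitAddCircle, n • x ∈ A ↔ x ∈ A

lemma Sy.one (μ ω : Measure UnitAddCircle) (A : Set UnitAddCircle) : Sy μ ω A 1 := by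
  refine ⟨?_, ?_, fun x => by rw [one_smul]⟩
  · simp only [one_smul]; exact MeasurePreserving.id μ
  · simp only [one_smul]; exact MeasurePreserving.id ω

lemma Sy.mul {μ ω : Measure UnitAddCircle} {A : Set UnitAddCircle} {m n : ℕ} (hm : Sy μ ω A m)
    (hn : Sy μ ω A n) : Sy μ ω A (m * n) := by
  refine ⟨?_, ?_, fun x => ?_⟩
  · have := hm.mu.comp hn.mu
    convert this using 1
    funext x
    simp only [Function.comp, mul_smul]
  · have := hm.om.comp hn.om
    convert this using 1
    funext x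
    simp only [Function.comp, mul_smul]
  · rw [mul_smul, hm.st, hn.st]

lemma Sy.pow {μ ω : Measure UnitAddCircle} {A : Set UnitAddCircle} {m : ℕ} (hm : Sy μ ω A m)
    (k : ℕ) : Sy μ ω A (m ^ k) := by
  induction k with
  | zero => rw [pow_zero]; exact Sy.one μ ω A
  | succ k ih => rw [pow_succ]; exact ih.mul hm

lemma Sy.sl {μ ω : Measure UnitAddCircle} {A : Set UnitAddCircle} {n : ℕ} (h : Sy μ ω A n)
    (c : ℤ) (x u : UnitAddCircle) : n • x ∈ sl c A (n • u) ↔ x ∈ sl c A u := by
  change c • (n • x) + n • u ∈ A ↔ c • x + u ∈ A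
  rw [smul_comm c n x, ← smul_add, h.st]

lemma Sy.sl_pre {μ ω : Measure UnitAddCircle} {A : Set UnitAddCircle} {n : ℕ} (h : Sy μ ω A n)
    (c : ℤ) (u : UnitAddCircle) :
    (fun x : UnitAddCircle => n • x) ⁻¹' (Zk32.sl c A (n • u)) = Zk32.sl c A u := by
  ext x
  exact h.sl c x u

section
variable {𝕜 : Type*} [RCLike 𝕜]

lemma ind_int {μ : Measure UnitAddCircle} {c : ℤ} {A : Set UnitAddCircle} (hA : MeasurableSet A)
    (f : UnitAddCircle → 𝕜) (u : UnitAddCircle) :
    ∫ x in sl c A u, f x ∂μ = ∫ x, {z : UnitAddCircle × UnitAddCircle |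
      c • z.1 + z.2 ∈ A}.indicator (fun z => f z.1) (x, u) ∂μ := by
  rw [← integral_indicator (sl_meas hA u)]
  rfl

lemma Sy.int {μ ω : Measure UnitAddCircle} {A : Set UnitAddCircle} {n : ℕ} (h : Sy μ ω A n)
    (hA : MeasurableSet A) (c : ℤ) {f : UnitAddCircle → 𝕜} (hf : Measurable f)
    (u : UnitAddCircle) :
    ∫ x in Zk32.sl c A (n • u), f x ∂μ = ∫ x in Zk32.sl c A u, f (n • x) ∂μ := by
  rw [← integral_indicator (sl_meas hA _), ← integral_indicator (sl_meas hA _)]
  have := integral_map (μ := μ) h.mu.measurable.aemeasurable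
    (f := (Zk32.sl c A (n • u)).indicator f) (hf.indicator (sl_meas hA _)).aestronglyMeasurable
  rw [h.mu.map_eq] at this
  rw [this]
  congr 1; funext x
  by_cases hx : x ∈ Zk32.sl c A u
  · rw [Set.indicator_of_mem hx, Set.indicator_of_mem ((h.sl c x u).mpr hx)]
  · rw [Set.indicator_of_notMem hx, Set.indicator_of_notMem (fun hh => hx ((h.sl c x u).mp hh))]

lemma int_sl_meas (μ : Measure UnitAddCircle) [IsFiniteMeasure μ] {c : ℤ}
    {A : Set UnitAddCircle} (hA : MeasurableSet A) {f : UnitAddCircle → 𝕜} (hf : Measurable f) :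
    Measurable (fun u => ∫ x in sl c A u, f x ∂μ) := by
  have hE : MeasurableSet {z : UnitAddCircle × UnitAddCircle | c • z.1 + z.2 ∈ A} :=
    lc_meas c hA
  have h1 : StronglyMeasurable (fun z : UnitAddCircle × UnitAddCircle =>
      {z : UnitAddCircle × UnitAddCircle | c • z.1 + z.2 ∈ A}.indicator (fun z => f z.1) z) :=
    ((hf.comp measurable_fst).indicator hE).stronglyMeasurable
  have h2 := h1.integral_prod_left' (μ := μ)
  have h3 : (fun u => ∫ x in sl c A u, f x ∂μ) = fun u => ∫ x, {z : UnitAddCircle × UnitAddCircle |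
      c • z.1 + z.2 ∈ A}.indicator (fun z => f z.1) (x, u) ∂μ := by
    funext u
    exact ind_int hA f u
  rw [h3]
  exact h2.measurable

end

lemma Sy.mass {μ ω : Measure UnitAddCircle} {A : Set UnitAddCircle} {n : ℕ} (h : Sy μ ω A n)
    (hA : MeasurableSet A) (c : ℤ) (u : UnitAddCircle) :
    μ.real (Zk32.sl c A (n • u)) = μ.real (Zk32.sl c A u) := by
  have := h.mu.measure_preimage (sl_meas (c := c) hA (n • u)).nullMeasurableSet
  rw [h.sl_pre] at this
  rw [Measure.real, Measure.real, this]

lemma Sy.dist {μ ω : Measure UnitAddCircle} {A : Set UnitAddCircle} {n : ℕ} (h : Sy μ ω A n)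
    (hA : MeasurableSet A) (c : ℤ) (u v : UnitAddCircle) :
    μ.real (symmDiff (Zk32.sl c A (n • u)) (Zk32.sl c A (n • v))) =
      μ.real (symmDiff (Zk32.sl c A u) (Zk32.sl c A v)) := by
  have := h.mu.measure_preimage (((sl_meas (c := c) hA (n • u)).symmDiff
    (sl_meas (c := c) hA (n • v))).nullMeasurableSet)
  rw [Measure.real, Measure.real, ← this]
  congr 2
  ext x
  simp only [Set.mem_preimage, Set.mem_symmDiff, h.sl]

/-- joint measurability of the distance -/
lemma dist_meas (μ : Measure UnitAddCircle) [IsFiniteMeasure μ] {c : ℤ}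
    {A : Set UnitAddCircle} (hA : MeasurableSet A) :
    Measurable (fun z : UnitAddCircle × UnitAddCircle =>
      μ.real (symmDiff (sl c A z.1) (sl c A z.2))) := by
  have m1 : Measurable (fun w : (UnitAddCircle × UnitAddCircle) × UnitAddCircle =>
      c • w.2 + w.1.1) :=
    ((zsmul_meas c).comp measurable_snd).add (measurable_fst.comp measurable_fst)
  have m2 : Measurable (fun w : (UnitAddCircle × UnitAddCircle) × UnitAddCircle =>
      c • w.2 + w.1.2) :=
    ((zsmul_meas c).comp measurable_snd).add (measurable_snd.comp measurable_fst)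
  have hS : MeasurableSet (symmDiff
      {w : (UnitAddCircle × UnitAddCircle) × UnitAddCircle | c • w.2 + w.1.1 ∈ A}
      {w : (UnitAddCircle × UnitAddCircle) × UnitAddCircle | c • w.2 + w.1.2 ∈ A}) :=
    (m1 hA).symmDiff (m2 hA)
  have h1 := measurable_measure_prodMk_left (ν := μ) hS
  exact h1.ennreal_toReal

/-- iterated integrals over the region -/
lemma int_region (μ ω : Measure UnitAddCircle) [IsProbabilityMeasure μ] [IsProbabilityMeasure ω]
    {c : ℤ} {A U : Set UnitAddCircle} (hA : MeasurableSet A) (hU : MeasurableSet U)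
    {g : UnitAddCircle × UnitAddCircle → ℂ} (hg : Measurable g) (hgb : ∀ z, ‖g z‖ ≤ 1) :
    ∫ z in {z : UnitAddCircle × UnitAddCircle | c • z.1 + z.2 ∈ A ∧ z.2 ∈ U}, g z ∂(μ.prod ω) =
      ∫ u in U, (∫ x in sl c A u, g (x, u) ∂μ) ∂ω := by
  have hW : MeasurableSet {z : UnitAddCircle × UnitAddCircle | c • z.1 + z.2 ∈ A ∧ z.2 ∈ U} :=
    (lc_meas c hA).inter (measurable_snd hU)
  rw [← integral_indicator hW, ← integral_indicator hU]
  have hi : Integrable ({z : UnitAddCircle × UnitAddCircle |
      c • z.1 + z.2 ∈ A ∧ z.2 ∈ U}.indicator g) (μ.prod ω) := by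
    refine (Integrable.of_bound hg.aestronglyMeasurable 1 (Eventually.of_forall hgb)).indicator hW
  rw [integral_prod_symm _ hi]
  congr 1; funext u
  by_cases hu : u ∈ U
  · rw [Set.indicator_of_mem hu, ← integral_indicator (sl_meas hA u)]
    congr 1; funext x
    by_cases hx : x ∈ sl c A u
    · rw [Set.indicator_of_mem hx, Set.indicator_of_mem]
      exact ⟨hx, hu⟩
    · rw [Set.indicator_of_notMem hx, Set.indicator_of_notMem]
      exact fun h => hx h.1
  · rw [Set.indicator_of_notMem hu]
    have : ∀ x, {z : UnitAddCircle × UnitAddCircle |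
        c • z.1 + z.2 ∈ A ∧ z.2 ∈ U}.indicator g (x, u) = 0 := by
      intro x
      rw [Set.indicator_of_notMem]
      exact fun h => hu h.2
    simp only [this, integral_zero]

/-- both coordinates have the same law on an invariant region -/
lemma two_laws {p q : ℕ} {μ ω : Measure UnitAddCircle} [IsProbabilityMeasure μ]
    [IsProbabilityMeasure ω]
    (hJ : JE (fun x : UnitAddCircle => p • x) (fun x : UnitAddCircle => q • x) μ)
    {c : ℤ} {A U : Set UnitAddCircle} (hA : MeasurableSet A) (hU : MeasurableSet U)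
    (hp : Sy μ ω A p) (hq : Sy μ ω A q) (hUp : ∀ u : UnitAddCircle, p • u ∈ U ↔ u ∈ U)
    (hUq : ∀ u : UnitAddCircle, q • u ∈ U ↔ u ∈ U)
    {k : ℝ≥0∞} (hres : ((μ.prod ω).map (fun z : UnitAddCircle × UnitAddCircle =>
      c • z.1 + z.2)).restrict A = k • μ) (H : ℤ) :
    ∫ u in U, (∫ x in sl c A u, (fourier H (c • x + u) : ℂ) ∂μ) ∂ω =
      ∫ u in U, (∫ x in sl c A u, (fourier H x : ℂ) ∂μ) ∂ω := by
  have hs := lc_meas c
  set W : Set (UnitAddCircle × UnitAddCircle) :=
    {z : UnitAddCircle × UnitAddCircle | c • z.1 + z.2 ∈ A ∧ z.2 ∈ U} with hWdef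
  have hW : MeasurableSet W := (lc_meas c hA).inter (measurable_snd hU)
  set η := (μ.prod ω).restrict W with hη
  -- invariance of the region
  have hinv : ∀ {r : ℕ}, Sy μ ω A r → (∀ u : UnitAddCircle, r • u ∈ U ↔ u ∈ U) →
      MeasurePreserving (Prod.map (fun x : UnitAddCircle => r • x)
        (fun x : UnitAddCircle => r • x)) η η := by
    intro r hr hUr
    have h1 := hr.mu.prod hr.om
    have h2 := h1.restrict_preimage hW
    have h3 : (Prod.map (fun x : UnitAddCircle => r • x) (fun x : UnitAddCircle => r • x)) ⁻¹' W =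
        W := by
      ext z
      simp only [hWdef, Set.mem_preimage, Set.mem_ofPred_eq, Prod.map_fst, Prod.map_snd]
      rw [smul_comm c r z.1, ← smul_add, hr.st, hUr]
    rw [h3] at h2
    exact h2
  have hR1 : ∀ {r : ℕ}, Sy μ ω A r → (∀ u : UnitAddCircle, r • u ∈ U ↔ u ∈ U) →
      MeasurePreserving (fun x : UnitAddCircle => r • x)
        (η.map (fun z : UnitAddCircle × UnitAddCircle => c • z.1 + z.2))
        (η.map (fun z : UnitAddCircle × UnitAddCircle => c • z.1 + z.2)) := by
    intro r hr hUr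
    refine (hs.measurePreserving η).of_semiconj (hinv hr hUr) ?_ (nsmul_meas r)
    intro z
    simp only [Prod.map]
    rw [smul_comm c r, smul_add]
  have hR2 : ∀ {r : ℕ}, Sy μ ω A r → (∀ u : UnitAddCircle, r • u ∈ U ↔ u ∈ U) →
      MeasurePreserving (fun x : UnitAddCircle => r • x) (η.map Prod.fst) (η.map Prod.fst) := by
    intro r hr hUr
    exact (measurable_fst.measurePreserving η).of_semiconj (hinv hr hUr) (fun z => rfl)
      (nsmul_meas r)
  have hac1 : η.map (fun z : UnitAddCircle × UnitAddCircle => c • z.1 + z.2) ≪ μ := by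
    refine Measure.AbsolutelyContinuous.mk fun B hB hB0 => ?_
    rw [Measure.map_apply hs hB, hη, Measure.restrict_apply (hs hB)]
    have h1 : ((μ.prod ω).map (fun z : UnitAddCircle × UnitAddCircle =>
      c • z.1 + z.2)) (B ∩ A) = 0 := by
      rw [← Measure.restrict_apply hB, hres, Measure.smul_apply, hB0, smul_zero]
    rw [Measure.map_apply hs (hB.inter hA)] at h1
    refine measure_mono_null (fun z hz => ?_) h1
    exact ⟨hz.1, hz.2.1⟩
  have hac2 : η.map Prod.fst ≪ μ := by
    refine Measure.AbsolutelyContinuous.mk fun B hB hB0 => ?_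
    rw [Measure.map_apply measurable_fst hB]
    have h1 : (μ.prod ω) (Prod.fst ⁻¹' B) = 0 := by
      have h2 : Prod.fst ⁻¹' B = B ×ˢ (Set.univ : Set UnitAddCircle) := by
        ext z; simp
      rw [h2, Measure.prod_prod, hB0, zero_mul]
    exact Measure.absolutelyContinuous_of_le Measure.restrict_le_self h1
  have e1 := hJ.eq_smul (fun x => circ_comm p q x) hp.mu hq.mu (hR1 hp hUp) (hR1 hq hUq) hac1
  have e2 := hJ.eq_smul (fun x => circ_comm p q x) hp.mu hq.mu (hR2 hp hUp) (hR2 hq hUq) hac2
  rw [Measure.map_apply hs MeasurableSet.univ, Set.preimage_univ] at e1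
  rw [Measure.map_apply measurable_fst MeasurableSet.univ, Set.preimage_univ] at e2
  have e3 : ∫ z, (fourier H (c • z.1 + z.2) : ℂ) ∂η = ∫ z, (fourier H z.1 : ℂ) ∂η := by
    have i1 := integral_map (μ := η) hs.aemeasurable (f := fun x : UnitAddCircle =>
      (fourier H x : ℂ)) (fou_meas H).aestronglyMeasurable
    have i2 := integral_map (μ := η) measurable_fst.aemeasurable (f := fun x : UnitAddCircle =>
      (fourier H x : ℂ)) (fou_meas H).aestronglyMeasurable
    rw [e1, ← e2] at i1
    rw [← i1, ← i2]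
  have f1 := int_region μ ω (c := c) hA hU (g := fun z : UnitAddCircle × UnitAddCircle =>
    (fourier H (c • z.1 + z.2) : ℂ)) ((fou_meas H).comp hs) (fun z => (norm_fou _ _).le)
  have f2 := int_region μ ω (c := c) hA hU (g := fun z : UnitAddCircle × UnitAddCircle =>
    (fourier H z.1 : ℂ)) ((fou_meas H).comp measurable_fst) (fun z => (norm_fou _ _).le)
  exact f1.symm.trans (e3.trans f2)

end Pool.Agent.Zk32
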