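import Mathlib
import Pool.Agent.Zk32.Noise2
import Pool.Agent.Zk32.Extra

set_option autoImplicit false

open MeasureTheory Filter Topology Set
open scoped ENNReal

namespace Pool.Agent.Zk32

open Pool.Agent.R202.TM (JointErg)

/-- some multiplier of a fixed box makes the weight of the slice large -/
lemma box_hit {p q : ℕ} {μ ω : Measure UnitAddCircle} [IsProbabilityMeasure μ]
    (hJ : JE (fun x : UnitAddCircle => p • x) (fun x : UnitAddCircle => q • x) μ)
    {c : ℤ} {A : Set UnitAddCircle} (hA : MeasurableSet A) (hp : Sy μ ω A p) (hq : Sy μ ω A q)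
    {b : UnitAddCircle → ℝ} (hb : Measurable b) (hb0 : ∀ x, 0 ≤ b x) (hb1 : ∀ x, b x ≤ 1)
    {κ : ℝ} (hκ : 0 < κ) (hint : 0 < ∫ x, b x ∂μ) :
    ∃ L : ℕ, ∀ u, κ ≤ μ.real (sl c A u) → ∃ i < L, ∃ j < L,
      (∫ x, b x ∂μ) * κ / 2 ≤ ∫ x in sl c A ((p ^ i * q ^ j) • u), b x ∂μ := by
  set g := ∫ x, b x ∂μ with hg
  have hJ' : JointErg (fun x : UnitAddCircle => p • x) (fun x : UnitAddCircle => q • x) μ := hJ
  have hfm : Measurable (fun x : UnitAddCircle => ((b x : ℝ) : ℂ)) :=
    Complex.measurable_ofReal.comp hb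
  have hfb : ∀ x : UnitAddCircle, ‖((b x : ℝ) : ℂ)‖ ≤ 1 := fun x => by
    rw [Complex.norm_real, Real.norm_eq_abs, abs_of_nonneg (hb0 x)]; exact hb1 x
  obtain ⟨N₀, hN₀⟩ := fn_box hJ' hp.mu hq.mu (fun x => circ_comm p q x) hfm hfb
    (ε := g * κ / 2) (by positivity)
  set L := max N₀ 1 with hL
  have hL1 : 1 ≤ L := le_max_right _ _
  have hLR : (0 : ℝ) < L := by exact_mod_cast hL1
  refine ⟨L, fun u hu => ?_⟩
  by_contra hcon
  push Not at hcon
  have hbox := hN₀ L L (le_max_left _ _) (le_max_left _ _) 0 0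
  set B : UnitAddCircle → ℝ := fun x => (L : ℝ)⁻¹ * ∑ i ∈ Finset.range L,
    ((L : ℝ)⁻¹ * ∑ j ∈ Finset.range L, b ((p ^ i * q ^ j) • x)) with hB
  have hAV : ∀ x, AVf (fun x : UnitAddCircle => p • x) (fun x : UnitAddCircle => q • x)
      (fun x => ((b x : ℝ) : ℂ)) 0 L 0 L x = ((B x : ℝ) : ℂ) := by
    intro x
    unfold AVf
    rw [hB]
    push_cast
    congr 1
    refine Finset.sum_congr rfl fun i _ => ?_
    congr 1
    refine Finset.sum_congr rfl fun j _ => ?_
    rw [iter_p, iter_p, smul_smul, zero_add, zero_add, mul_comm]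
  have hbi : ∀ (n : ℕ), Integrable (fun x : UnitAddCircle => b (n • x)) μ := fun n =>
    Integrable.of_bound (hb.comp (nsmul_meas n)).aestronglyMeasurable 1
      (Eventually.of_forall fun x => by
        rw [Real.norm_eq_abs, abs_of_nonneg (hb0 _)]; exact hb1 _)
  have hBm : Measurable B := by
    rw [hB]
    refine Measurable.const_mul (Finset.measurable_fun_sum _ fun i _ => ?_) _
    refine Measurable.const_mul (Finset.measurable_fun_sum _ fun j _ => ?_) _
    exact hb.comp (nsmul_meas _)
  have hBi : Integrable B μ := by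
    rw [hB]
    refine Integrable.const_mul (integrable_finsetSum _ fun i _ => ?_) _
    refine Integrable.const_mul (integrable_finsetSum _ fun j _ => ?_) _
    exact hbi _
  have hgc : ∫ y, ((b y : ℝ) : ℂ) ∂μ = ((g : ℝ) : ℂ) := integral_ofReal
  have hd : Integrable (fun x => |B x - g|) μ := (hBi.sub (integrable_const _)).abs
  have h1 : ∫ x, |B x - g| ∂μ ≤ g * κ / 2 := by
    refine le_trans (le_of_eq ?_) hbox
    congr 1; funext x
    rw [hAV, hgc]
    rw [← Complex.ofReal_sub, Complex.norm_real, Real.norm_eq_abs]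
  -- the average over the slice is small
  have h2 : ∫ x in sl c A u, B x ∂μ < g * κ / 2 := by
    have e1 : ∫ x in sl c A u, B x ∂μ = (L : ℝ)⁻¹ * ∑ i ∈ Finset.range L,
        ((L : ℝ)⁻¹ * ∑ j ∈ Finset.range L, ∫ x in sl c A ((p ^ i * q ^ j) • u), b x ∂μ) := by
      rw [hB, integral_const_mul, integral_finsetSum]
      · congr 1
        refine Finset.sum_congr rfl fun i _ => ?_
        rw [integral_const_mul, integral_finsetSum]
        · congr 1
          refine Finset.sum_congr rfl fun j _ => ?_
          rw [((hp.pow i).mul (hq.pow j)).int hA c hb u]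
        · intro j _; exact (hbi _).integrableOn
      · intro i _
        exact Integrable.const_mul (integrable_finsetSum _ fun j _ => (hbi _).integrableOn) _
    rw [e1]
    have hin : ∀ i ∈ Finset.range L, (L : ℝ)⁻¹ * ∑ j ∈ Finset.range L,
        ∫ x in sl c A ((p ^ i * q ^ j) • u), b x ∂μ < g * κ / 2 := by
      intro i hi
      rw [inv_mul_lt_iff₀ hLR]
      calc ∑ j ∈ Finset.range L, ∫ x in sl c A ((p ^ i * q ^ j) • u), b x ∂μ
          < ∑ _j ∈ Finset.range L, g * κ / 2 := by
            apply Finset.sum_lt_sum_of_nonempty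
            · exact Finset.nonempty_range_iff.mpr (by omega)
            · intro j hj
              exact hcon i (Finset.mem_range.mp hi) j (Finset.mem_range.mp hj)
        _ = L * (g * κ / 2) := by rw [Finset.sum_const, Finset.card_range, nsmul_eq_mul]
    rw [inv_mul_lt_iff₀ hLR]
    calc ∑ i ∈ Finset.range L, ((L : ℝ)⁻¹ * ∑ j ∈ Finset.range L,
          ∫ x in sl c A ((p ^ i * q ^ j) • u), b x ∂μ)
        < ∑ _i ∈ Finset.range L, g * κ / 2 := by
          apply Finset.sum_lt_sum_of_nonempty
          · exact Finset.nonempty_range_iff.mpr (by omega)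
          · exact hin
      _ = L * (g * κ / 2) := by rw [Finset.sum_const, Finset.card_range, nsmul_eq_mul]
  have h3 : g * κ - g * κ / 2 ≤ ∫ x in sl c A u, B x ∂μ := by
    have i1 : Integrable (fun x => g - |B x - g|) μ := (integrable_const _).sub hd
    have h4 : ∫ x in sl c A u, (g - |B x - g|) ∂μ ≤ ∫ x in sl c A u, B x ∂μ := by
      apply integral_mono i1.integrableOn hBi.integrableOn
      intro x
      simp only
      have := neg_abs_le (B x - g)
      linarith
    refine le_trans ?_ h4
    rw [integral_sub (integrable_const _) hd.integrableOn]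
    have h5 : ∫ x in sl c A u, |B x - g| ∂μ ≤ ∫ x, |B x - g| ∂μ :=
      setIntegral_le_integral hd (Eventually.of_forall fun x => abs_nonneg _)
    have h6 : ∫ x in sl c A u, g ∂μ = μ.real (sl c A u) * g := by
      rw [integral_const, smul_eq_mul, measureReal_restrict_apply_univ]
    rw [h6]
    have h7 : g * κ ≤ μ.real (sl c A u) * g := by
      rw [mul_comm]; exact mul_le_mul_of_nonneg_right hu hint.le
    linarith
  linarith

end Pool.Agent.Zk32
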