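import Mathlib
import Pool.Agent.Zk32.Noise3

set_option autoImplicit false

open MeasureTheory Filter Topology Set
open scoped ENNReal

namespace Pool.Agent.Zk32

lemma norm_int_symm_le {X : Type*} [MeasurableSpace X] {μ : Measure X} [IsFiniteMeasure μ]
    {h : X → ℂ} (hm : Measurable h) {C : ℝ} (hb : ∀ x, ‖h x‖ ≤ C) {S T : Set X}
    (hS : MeasurableSet S) (hT : MeasurableSet T) :
    ‖(∫ x in S, h x ∂μ) - ∫ x in T, h x ∂μ‖ ≤ C * μ.real (symmDiff S T) := by
  have hi : Integrable h μ := Integrable.of_bound hm.aestronglyMeasurable C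
    (Eventually.of_forall hb)
  rw [← integral_indicator hS, ← integral_indicator hT,
    ← integral_sub (hi.indicator hS) (hi.indicator hT)]
  calc ‖∫ x, (S.indicator h x - T.indicator h x) ∂μ‖
      ≤ ∫ x, (symmDiff S T).indicator (fun _ => C) x ∂μ := by
        apply norm_integral_le_of_norm_le ((integrable_const C).indicator (hS.symmDiff hT))
        refine Eventually.of_forall fun x => ?_
        by_cases h1 : x ∈ S <;> by_cases h2 : x ∈ T <;> simp [h1, h2, Set.mem_symmDiff, hb x]
    _ = C * μ.real (symmDiff S T) := by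
        rw [integral_indicator_const _ (hS.symmDiff hT), smul_eq_mul, mul_comm]

lemma torsion_null {ω : Measure UnitAddCircle} (hat : ∀ x : UnitAddCircle, ω {x} = 0) {H : ℤ}
    (hH : H ≠ 0) : ω {x : UnitAddCircle | H • x = 0} = 0 := by
  have h1 : 0 < H.natAbs := Int.natAbs_pos.mpr hH
  have h2 : {x : UnitAddCircle | H • x = 0} ⊆ {x : UnitAddCircle | H.natAbs • x = 0} := by
    intro x hx
    have hx' : H • x = 0 := hx
    change H.natAbs • x = 0
    rcases Int.natAbs_eq H with h | h
    · rw [← natCast_zsmul, ← h]; exact hx'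
    · rw [← natCast_zsmul]
      have : ((H.natAbs : ℤ)) = - H := by omega
      rw [this, neg_smul, hx', neg_zero]
  rw [measure_null_iff_singleton ((AddCircle.finite_torsion (1 : ℝ) h1).subset h2).countable]
  exact fun x _ => hat x

/-- the last step: an approximate identity on an invariant set forces torsion -/
lemma noise_end {p q : ℕ} (hp2 : 2 ≤ p) {μ ω : Measure UnitAddCircle} [IsProbabilityMeasure μ]
    [IsProbabilityMeasure ω] {c : ℤ} (hc : c = 1 ∨ c = -1)
    (hJ : JE (fun x : UnitAddCircle => p • x) (fun x : UnitAddCircle => q • x) μ)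
    {A U : Set UnitAddCircle} (hA : MeasurableSet A) (hU : MeasurableSet U)
    (hp : Sy μ ω A p) (hq : Sy μ ω A q) (hUp : ∀ u : UnitAddCircle, p • u ∈ U ↔ u ∈ U)
    (hUq : ∀ u : UnitAddCircle, q • u ∈ U ↔ u ∈ U)
    {k : ℝ≥0∞} (hres : ((μ.prod ω).map (fun z : UnitAddCircle × UnitAddCircle =>
      c • z.1 + z.2)).restrict A = k • μ)
    {b : UnitAddCircle → ℝ} (hb : Measurable b) (hb0 : ∀ x, 0 ≤ b x) (hb1 : ∀ x, b x ≤ 1)
    {q₀ ε₁ : ℝ} (hq₀ : 0 < q₀) (hε₁ : 0 < ε₁) {L : ℕ}
    (hbox : ∀ u ∈ U, ∃ i < L, ∃ j < L, q₀ ≤ ∫ x in sl c A ((p ^ i * q ^ j) • u), b x ∂μ)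
    (hsmall : (∑ i ∈ Finset.range L, ∑ j ∈ Finset.range L,
      (((p ^ (L - i) * q ^ (L - j) : ℕ) : ℝ)) ^ 2) * (ε₁ * p ^ 2) ≤ q₀ / 2)
    {H₀ : ℤ} (hκ : ∀ u ∈ U, ‖∫ x in sl c A u, ((fourier H₀ x : ℂ) - ((b x : ℝ) : ℂ)) ∂μ‖ ≤ ε₁) :
    ∀ᵐ u ∂(ω.restrict U), H₀ • u = 0 := by
  set H := c * H₀ with hH
  set f : UnitAddCircle → ℝ := fun u => 1 - (fourier H u : ℂ).re with hf
  have hcc : c * H = H₀ := by
    rcases hc with rfl | rfl <;> simp [hH]
  -- the restricted measure is invariant
  have hinv : ∀ {n : ℕ}, Sy μ ω A n → (∀ u : UnitAddCircle, n • u ∈ U ↔ u ∈ U) →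
      MeasurePreserving (fun x : UnitAddCircle => n • x) (ω.restrict U) (ω.restrict U) := by
    intro n hn hUn
    have h2 := hn.om.restrict_preimage hU
    have h3 : (fun x : UnitAddCircle => n • x) ⁻¹' U = U := by
      ext z; exact hUn z
    rw [h3] at h2
    exact h2
  have hUmul : ∀ i j : ℕ, ∀ u : UnitAddCircle, (p ^ i * q ^ j) • u ∈ U ↔ u ∈ U := by
    have h1 : ∀ (r : ℕ), (∀ u : UnitAddCircle, r • u ∈ U ↔ u ∈ U) → ∀ (i : ℕ) (u : UnitAddCircle),
        (r ^ i) • u ∈ U ↔ u ∈ U := by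
      intro r hr i
      induction i with
      | zero => intro u; rw [pow_zero, one_smul]
      | succ i ih => intro u; rw [pow_succ, mul_smul, ih, hr]
    intro i j u
    rw [mul_smul, h1 p hUp, h1 q hUq]
  have hfm : Measurable f := measurable_const.sub (Complex.measurable_re.comp (fou_meas H))
  have hf0 : ∀ u, 0 ≤ f u := fun u => re_nonneg H u
  have hf2 : ∀ u, f u ≤ 2 := fun u => re_le_two H u
  have hfi : ∀ (κ : Measure UnitAddCircle) [IsFiniteMeasure κ], Integrable f κ := fun κ _ =>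
    re_integrable κ H
  set G : UnitAddCircle → ℂ := fun u => ∫ x in sl c A u, (fourier H₀ x : ℂ) ∂μ with hG
  set Q : UnitAddCircle → ℝ := fun u => ∫ x in sl c A u, b x ∂μ with hQ
  have hGm : Measurable G := int_sl_meas μ hA (fou_meas H₀)
  have hQm : Measurable Q := int_sl_meas μ hA hb
  have hbi : Integrable b μ := Integrable.of_bound hb.aestronglyMeasurable 1
    (Eventually.of_forall fun x => by rw [Real.norm_eq_abs, abs_of_nonneg (hb0 x)]; exact hb1 x)
  have hbc : Integrable (fun x : UnitAddCircle => ((b x : ℝ) : ℂ)) μ := hbi.ofReal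
  have hfoui : ∀ (H : ℤ), Integrable (fun x : UnitAddCircle => (fourier H x : ℂ)) μ := fun H =>
    Integrable.of_bound (fou_meas H).aestronglyMeasurable 1
      (Eventually.of_forall fun x => (norm_fou H x).le)
  have hQ0 : ∀ u, 0 ≤ Q u := fun u => integral_nonneg fun x => hb0 x
  have hQ1 : ∀ u, Q u ≤ 1 := by
    intro u
    calc ∫ x in sl c A u, b x ∂μ ≤ ∫ x, b x ∂μ :=
          setIntegral_le_integral hbi (Eventually.of_forall hb0)
      _ ≤ ∫ _, (1 : ℝ) ∂μ := integral_mono hbi (integrable_const _) hb1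
      _ = 1 := by simp
  have hG1 : ∀ u, ‖G u‖ ≤ 1 := by
    intro u
    calc ‖∫ x in sl c A u, (fourier H₀ x : ℂ) ∂μ‖
        ≤ ∫ x in sl c A u, ‖(fourier H₀ x : ℂ)‖ ∂μ := norm_integral_le_integral_norm _
      _ ≤ ∫ x, ‖(fourier H₀ x : ℂ)‖ ∂μ :=
          setIntegral_le_integral (hfoui H₀).norm (Eventually.of_forall fun x => norm_nonneg _)
      _ = 1 := by simp only [norm_fou]; simp
  -- the identity
  have hid := two_laws (c := c) hJ hA hU hp hq hUp hUq hres H
  have e1 : ∀ u, ∫ x in sl c A u, (fourier H (c • x + u) : ℂ) ∂μ = G u * fourier H u := by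
    intro u
    rw [hG, ← integral_mul_const]
    congr 1; funext x
    rw [fou_add', fou_smul, hcc]
  have e2 : (∫ u in U, (∫ x in sl c A u, (fourier H x : ℂ) ∂μ) ∂ω).re = (∫ u in U, G u ∂ω).re := by
    rcases hc with h1 | h1
    · have : H = H₀ := by rw [hH, h1, one_mul]
      rw [this]
    · have h2 : H = -H₀ := by rw [hH, h1]; ring
      have h3 : ∀ u, ∫ x in sl c A u, (fourier H x : ℂ) ∂μ = (starRingEnd ℂ) (G u) := by
        intro u
        rw [hG, ← integral_conj, h2]
        congr 1; funext x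
        rw [fourier_neg]
      simp only [h3]
      rw [integral_conj, Complex.conj_re]
  simp only [e1] at hid
  have e3 : (∫ u in U, G u * fourier H u ∂ω).re = (∫ u in U, G u ∂ω).re := by
    rw [hid]; exact e2
  have i1 : Integrable G (ω.restrict U) := Integrable.of_bound hGm.aestronglyMeasurable 1
    (Eventually.of_forall hG1)
  have i2 : Integrable (fun u => G u * (fourier H u : ℂ)) (ω.restrict U) :=
    Integrable.of_bound (hGm.mul (fou_meas H)).aestronglyMeasurable 1
      (Eventually.of_forall fun u => by rw [norm_mul, norm_fou, mul_one]; exact hG1 u)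
  have e4 : ∫ u in U, (G u - G u * (fourier H u : ℂ)).re ∂ω = 0 := by
    have h1 : ∫ u in U, (G u - G u * (fourier H u : ℂ)).re ∂ω =
        (∫ u in U, (G u - G u * (fourier H u : ℂ)) ∂ω).re := by
      have := integral_re (𝕜 := ℂ) (i1.sub i2)
      exact this
    rw [h1, integral_sub i1 i2, Complex.sub_re, e3, sub_self]
  -- the lower bound
  set φ := ∫ u in U, f u ∂ω with hφ
  have hφ0 : 0 ≤ φ := integral_nonneg hf0
  have hgr := growth hp2 (hinv hp hUp) H
  have iQf : Integrable (fun u => Q u * f u) (ω.restrict U) :=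
    Integrable.of_bound (hQm.mul hfm).aestronglyMeasurable 2
      (Eventually.of_forall fun u => by
        rw [Real.norm_eq_abs, abs_of_nonneg (mul_nonneg (hQ0 u) (hf0 u))]
        have := mul_le_mul (hQ1 u) (hf2 u) (hf0 u) zero_le_one
        linarith)
  have hQf : ∫ u in U, Q u * f u ∂ω ≤ ε₁ * (p ^ 2 * φ) := by
    have h1 : ∫ u in U, (Q u * f u - ε₁ * ‖(fourier H u : ℂ) - 1‖) ∂ω ≤
        ∫ u in U, (G u - G u * (fourier H u : ℂ)).re ∂ω := by
      apply setIntegral_mono_on (iQf.sub ((fou_sub_integrable _ H).const_mul _))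
        (i1.sub i2).re hU
      intro u hu
      have h2 := hκ u hu
      have hqc : ∫ x in sl c A u, ((b x : ℝ) : ℂ) ∂μ = ((Q u : ℝ) : ℂ) := integral_ofReal
      rw [integral_sub (hfoui H₀).integrableOn hbc.integrableOn, hqc] at h2
      change ‖G u - ((Q u : ℝ) : ℂ)‖ ≤ ε₁ at h2
      change Q u * f u - ε₁ * ‖(fourier H u : ℂ) - 1‖ ≤ (G u - G u * (fourier H u : ℂ)).re
      have h3 : G u - G u * (fourier H u : ℂ) = ((Q u : ℝ) : ℂ) * (1 - (fourier H u : ℂ)) -
          (G u - ((Q u : ℝ) : ℂ)) * ((fourier H u : ℂ) - 1) := by ring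
      rw [h3, Complex.sub_re, Complex.re_ofReal_mul, Complex.sub_re, Complex.one_re]
      have h4 := Complex.re_le_norm ((G u - ((Q u : ℝ) : ℂ)) * ((fourier H u : ℂ) - 1))
      rw [norm_mul] at h4
      have h5 := mul_le_mul_of_nonneg_right h2 (norm_nonneg ((fourier H u : ℂ) - 1))
      change Q u * (1 - (fourier H u : ℂ).re) - _ ≤ _
      linarith
    rw [e4, integral_sub iQf ((fou_sub_integrable _ H).const_mul _), integral_const_mul] at h1
    have h6 := mul_le_mul_of_nonneg_left hgr hε₁.le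
    change _ ≤ ε₁ * (p ^ 2 * φ) at h6
    linarith
  -- the good set
  set D : Set UnitAddCircle := U ∩ {u | q₀ ≤ Q u} with hD
  have hDm : MeasurableSet D := hU.inter (measurableSet_le measurable_const hQm)
  set ψ := ∫ u, D.indicator f u ∂ω with hψ
  have hDf : Measurable (D.indicator f) := hfm.indicator hDm
  have hDf0 : ∀ u, 0 ≤ D.indicator f u := fun u => Set.indicator_nonneg (fun u _ => hf0 u) u
  have hDf2 : ∀ u, D.indicator f u ≤ 2 := by
    intro u
    by_cases hu : u ∈ D
    · rw [Set.indicator_of_mem hu]; exact hf2 u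
    · rw [Set.indicator_of_notMem hu]; norm_num
  have hDfi : ∀ (κ : Measure UnitAddCircle) [IsFiniteMeasure κ] (n : ℕ),
      Integrable (fun u : UnitAddCircle => D.indicator f (n • u)) κ := fun κ _ n =>
    Integrable.of_bound (hDf.comp (nsmul_meas n)).aestronglyMeasurable 2
      (Eventually.of_forall fun u => by
        rw [Real.norm_eq_abs, abs_of_nonneg (hDf0 _)]; exact hDf2 _)
  have hψ1 : q₀ * ψ ≤ ε₁ * (p ^ 2 * φ) := by
    refine le_trans ?_ hQf
    rw [hψ, ← integral_const_mul, ← integral_indicator hU]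
    apply integral_mono
    · have := (hDfi ω 1).const_mul q₀
      simpa only [one_smul] using this
    · exact (integrable_indicator_iff hU).mpr iQf
    · intro u
      simp only
      by_cases hu : u ∈ D
      · rw [Set.indicator_of_mem hu, Set.indicator_of_mem hu.1]
        exact mul_le_mul_of_nonneg_right hu.2 (hf0 u)
      · rw [Set.indicator_of_notMem hu, mul_zero]
        exact Set.indicator_nonneg (fun u _ => mul_nonneg (hQ0 u) (hf0 u)) u
  -- transport to the good set
  set N := p ^ L * q ^ L with hN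
  have hφN : φ = ∫ u in U, f (N • u) ∂ω := by
    have h1 := hinv ((hp.pow L).mul (hq.pow L)) (hUmul L L)
    have := integral_map (μ := ω.restrict U) h1.measurable.aemeasurable (f := f)
      hfm.aestronglyMeasurable
    rw [h1.map_eq] at this
    exact this
  have hpt : ∀ u ∈ U, f (N • u) ≤ ∑ i ∈ Finset.range L, ∑ j ∈ Finset.range L,
      (((p ^ (L - i) * q ^ (L - j) : ℕ) : ℝ)) ^ 2 * D.indicator f ((p ^ i * q ^ j) • u) := by
    intro u hu
    obtain ⟨i, hi, j, hj, hij⟩ := hbox u hu
    have hmem : (p ^ i * q ^ j) • u ∈ D := ⟨(hUmul i j u).mpr hu, hij⟩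
    have h1 : f (N • u) ≤ (((p ^ (L - i) * q ^ (L - j) : ℕ) : ℝ)) ^ 2 *
        D.indicator f ((p ^ i * q ^ j) • u) := by
      rw [Set.indicator_of_mem hmem]
      have h2 : N = (p ^ (L - i) * q ^ (L - j)) * (p ^ i * q ^ j) := by
        rw [hN]
        calc p ^ L * q ^ L = p ^ (L - i + i) * q ^ (L - j + j) := by
              rw [Nat.sub_add_cancel hi.le, Nat.sub_add_cancel hj.le]
          _ = _ := by rw [pow_add, pow_add]; ring
      rw [h2, mul_smul, hf]
      simp only
      rw [fou_nsmul]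
      exact re_mul _ _ _
    refine h1.trans ?_
    have h3 : ∀ i' ∈ Finset.range L, 0 ≤ ∑ j ∈ Finset.range L,
      (((p ^ (L - i') * q ^ (L - j) : ℕ) : ℝ)) ^ 2 * D.indicator f ((p ^ i' * q ^ j) • u) :=
      fun i' _ => Finset.sum_nonneg fun j _ => mul_nonneg (by positivity) (hDf0 _)
    refine le_trans ?_ (Finset.single_le_sum h3 (Finset.mem_range.mpr hi))
    exact Finset.single_le_sum (f := fun j => (((p ^ (L - i) * q ^ (L - j) : ℕ) : ℝ)) ^ 2 *
      D.indicator f ((p ^ i * q ^ j) • u)) (fun j _ => mul_nonneg (by positivity) (hDf0 _))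
      (Finset.mem_range.mpr hj)
  have hφψ : φ ≤ (∑ i ∈ Finset.range L, ∑ j ∈ Finset.range L,
      (((p ^ (L - i) * q ^ (L - j) : ℕ) : ℝ)) ^ 2) * ψ := by
    rw [hφN]
    have iN : Integrable (fun u : UnitAddCircle => f (N • u)) (ω.restrict U) :=
      Integrable.of_bound (hfm.comp (nsmul_meas N)).aestronglyMeasurable 2
      (Eventually.of_forall fun u => by
        rw [Real.norm_eq_abs, abs_of_nonneg (hf0 _)]; exact hf2 _)
    have iS : ∀ i j : ℕ, Integrable (fun u : UnitAddCircle =>
        (((p ^ (L - i) * q ^ (L - j) : ℕ) : ℝ)) ^ 2 * D.indicator f ((p ^ i * q ^ j) • u))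
        (ω.restrict U) := fun i j => (hDfi _ _).const_mul _
    calc ∫ u in U, f (N • u) ∂ω ≤ ∫ u in U, (∑ i ∈ Finset.range L, ∑ j ∈ Finset.range L,
          (((p ^ (L - i) * q ^ (L - j) : ℕ) : ℝ)) ^ 2 *
            D.indicator f ((p ^ i * q ^ j) • u)) ∂ω := by
          apply setIntegral_mono_on iN (integrable_finsetSum _ fun i _ =>
            integrable_finsetSum _ fun j _ => iS i j) hU hpt
      _ = ∑ i ∈ Finset.range L, ∑ j ∈ Finset.range L,
          (((p ^ (L - i) * q ^ (L - j) : ℕ) : ℝ)) ^ 2 *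
            ∫ u in U, D.indicator f ((p ^ i * q ^ j) • u) ∂ω := by
          rw [integral_finsetSum _ (fun i _ => integrable_finsetSum _ fun j _ => iS i j)]
          refine Finset.sum_congr rfl fun i _ => ?_
          rw [integral_finsetSum _ (fun j _ => iS i j)]
          refine Finset.sum_congr rfl fun j _ => ?_
          rw [integral_const_mul]
      _ ≤ ∑ i ∈ Finset.range L, ∑ j ∈ Finset.range L,
          (((p ^ (L - i) * q ^ (L - j) : ℕ) : ℝ)) ^ 2 * ψ := by
          refine Finset.sum_le_sum fun i _ => Finset.sum_le_sum fun j _ => ?_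
          apply mul_le_mul_of_nonneg_left _ (by positivity)
          have h1 : ∫ u in U, D.indicator f ((p ^ i * q ^ j) • u) ∂ω ≤
              ∫ u, D.indicator f ((p ^ i * q ^ j) • u) ∂ω :=
            setIntegral_le_integral (hDfi ω _) (Eventually.of_forall fun u => hDf0 _)
          refine h1.trans (le_of_eq ?_)
          have h2 := ((hp.pow i).mul (hq.pow j)).om
          have := integral_map (μ := ω) h2.measurable.aemeasurable (f := D.indicator f)
            hDf.aestronglyMeasurable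
          rw [h2.map_eq] at this
          exact this.symm
      _ = _ := by
          rw [Finset.sum_mul]
          refine Finset.sum_congr rfl fun i _ => ?_
          rw [Finset.sum_mul]
  have hφz : φ = 0 := by
    set S := ∑ i ∈ Finset.range L, ∑ j ∈ Finset.range L,
      (((p ^ (L - i) * q ^ (L - j) : ℕ) : ℝ)) ^ 2 with hS
    have hS0 : 0 ≤ S := Finset.sum_nonneg fun i _ => Finset.sum_nonneg fun j _ => by positivity
    have h1 : q₀ * φ ≤ S * (ε₁ * p ^ 2) * φ := by
      calc q₀ * φ ≤ q₀ * (S * ψ) := mul_le_mul_of_nonneg_left hφψ hq₀.le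
        _ = S * (q₀ * ψ) := by ring
        _ ≤ S * (ε₁ * (p ^ 2 * φ)) := mul_le_mul_of_nonneg_left hψ1 hS0
        _ = S * (ε₁ * p ^ 2) * φ := by ring
    have h2 := mul_le_mul_of_nonneg_right hsmall hφ0
    have h3 : q₀ * φ ≤ 0 := by linarith
    have h4 : φ ≤ 0 := by
      by_contra h5
      push Not at h5
      have := mul_pos hq₀ h5
      linarith
    exact le_antisymm h4 hφ0
  have hae := (integral_eq_zero_iff_of_nonneg hf0 (hfi (ω.restrict U))).mp hφz
  filter_upwards [hae] with u hu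
  have h1 : f u = 0 := hu
  have h2 := re_lower H u
  change 8 * ‖H • u‖ ^ 2 ≤ f u at h2
  rw [h1] at h2
  have h3 : ‖H • u‖ = 0 := by
    have := sq_nonneg ‖H • u‖
    have h4 : ‖H • u‖ ^ 2 = 0 := by linarith
    exact pow_eq_zero_iff (two_ne_zero) |>.mp h4
  have h5 : H • u = 0 := norm_eq_zero.mp h3
  rw [← hcc, mul_smul, h5, smul_zero]

end Pool.Agent.Zk32
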