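import Mathlib
import Pool.Agent.Zk32.Noise4

set_option autoImplicit false

open MeasureTheory Filter Topology Set
open scoped ENNReal

namespace Pool.Agent.Zk32

/-- an increasing sequence of levels -/
lemma exists_level {Y : Type*} [MeasurableSpace Y] {ω : Measure Y} {S : Set Y} {f : Y → ℝ}
    (h : ω (S ∩ {u | 0 < f u}) ≠ 0) : ∃ κ : ℝ, 0 < κ ∧ ω (S ∩ {u | κ ≤ f u}) ≠ 0 := by
  by_contra hcon
  push Not at hcon
  apply h
  have hsub : S ∩ {u | 0 < f u} ⊆ ⋃ n : ℕ, S ∩ {u | 1 / ((n : ℝ) + 1) ≤ f u} := by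
    intro u hu
    have hu2 : 0 < f u := hu.2
    obtain ⟨n, hn⟩ := exists_nat_one_div_lt hu2
    exact Set.mem_iUnion.mpr ⟨n, hu.1, hn.le⟩
  refine measure_mono_null hsub ?_
  rw [measure_iUnion_null_iff]
  exact fun n => hcon _ (by positivity)

/-- a slice distance, as a function of the second point -/
lemma dist_meas_right (μ : Measure UnitAddCircle) [IsFiniteMeasure μ] {c : ℤ}
    {A : Set UnitAddCircle} (hA : MeasurableSet A) (u : UnitAddCircle) :
    Measurable (fun v => μ.real (symmDiff (sl c A u) (sl c A v))) := by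
  have h : Measurable (fun v : UnitAddCircle => (u, v)) := measurable_const.prodMk measurable_id
  have h2 := (dist_meas μ (c := c) hA).comp h
  have h3 : ((fun z : UnitAddCircle × UnitAddCircle =>
      μ.real (symmDiff (sl c A z.1) (sl c A z.2))) ∘ fun v : UnitAddCircle => (u, v)) =
      fun v => μ.real (symmDiff (sl c A u) (sl c A v)) := rfl
  rw [h3] at h2
  exact h2

lemma net_sl (μ ω : Measure UnitAddCircle) [IsProbabilityMeasure μ] [IsProbabilityMeasure ω]
    {c : ℤ} {A : Set UnitAddCircle} (hA : MeasurableSet A) {ε θ : ℝ} (hε : 0 < ε) (hθ : 0 < θ)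
    {U : Set UnitAddCircle}
    (hU : ∀ u ∈ U, θ ≤ ω.real {v | μ.real (symmDiff (sl c A u) (sl c A v)) < ε}) :
    ∃ F : Finset UnitAddCircle, (∀ v ∈ F, v ∈ U) ∧
      ∀ u ∈ U, ∃ v ∈ F, μ.real (symmDiff (sl c A v) (sl c A u)) < 2 * ε := by
  refine exists_net ω (fun u v => μ.real (symmDiff (sl c A u) (sl c A v))) ?_ ?_ ?_ ?_ hε hθ hU
  · intro u
    simp only [symmDiff_self]
    exact measureReal_empty
  · intro u v
    simp only [symmDiff_comm]
  · intro u v w
    have h3 := symmDiff_triangle (sl c A u) (sl c A v) (sl c A w)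
    have h4 := measureReal_mono (μ := μ) h3 (measure_ne_top μ _)
    exact h4.trans (measureReal_union_le _ _)
  · exact fun u => dist_meas_right μ hA u

/-- an invariant set of positive measure on which the balls of slices are uniformly large -/
lemma exists_inv_set {p q : ℕ} {μ ω : Measure UnitAddCircle} [IsProbabilityMeasure μ]
    [IsProbabilityMeasure ω] {c : ℤ} {A : Set UnitAddCircle} (hA : MeasurableSet A)
    (hSp : Sy μ ω A p) (hSq : Sy μ ω A q) {κ₁ : ℝ}
    (hω1 : ω {u | κ₁ ≤ μ.real (sl c A u)} ≠ 0) {ε₃ : ℝ} (hε₃0 : 0 < ε₃) :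
    ∃ (U : Set UnitAddCircle) (θ : ℝ), MeasurableSet U ∧ 0 < θ ∧
      (∀ u ∈ U, κ₁ ≤ μ.real (sl c A u)) ∧
      (∀ u ∈ U, θ ≤ ω.real {v | μ.real (symmDiff (sl c A u) (sl c A v)) < ε₃}) ∧
      (∀ u : UnitAddCircle, p • u ∈ U ↔ u ∈ U) ∧ (∀ u : UnitAddCircle, q • u ∈ U ↔ u ∈ U) ∧
      ω U ≠ 0 := by
  have hs := lc_meas c
  set mb : UnitAddCircle → ℝ := fun u =>
    ω.real {v | μ.real (symmDiff (sl c A u) (sl c A v)) < ε₃} with hmb
  have hmbm : Measurable mb := by
    have h1 : MeasurableSet {z : UnitAddCircle × UnitAddCircle |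
        μ.real (symmDiff (sl c A z.1) (sl c A z.2)) < ε₃} :=
      measurableSet_lt (dist_meas μ hA) measurable_const
    exact (measurable_measure_prodMk_left (ν := ω) h1).ennreal_toReal
  obtain ⟨θ, hθ, hω2⟩ : ∃ κ : ℝ, 0 < κ ∧ ω ({u | κ₁ ≤ μ.real (sl c A u)} ∩ {u | κ ≤ mb u}) ≠ 0 := by
    apply exists_level
    have h1 := ball_pos μ ω (E := fun u => sl c A u) (fun u => sl_meas hA u) hε₃0
    intro h0
    apply hω1
    refine measure_mono_null (t := ({u | κ₁ ≤ μ.real (sl c A u)} ∩ {u | 0 < mb u}) ∪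
      {u | ¬ (0 < mb u)}) ?_ ?_
    · intro u hu
      by_cases h2 : 0 < mb u
      · exact Or.inl ⟨hu, h2⟩
      · exact Or.inr h2
    · rw [measure_union_null_iff]
      exact ⟨h0, ae_iff.mp h1⟩
  set U : Set UnitAddCircle := {u | κ₁ ≤ μ.real (sl c A u)} ∩ {u | θ ≤ mb u} with hU
  have hem : Measurable (fun u => μ.real (sl c A u)) := by
    have h1 : MeasurableSet {z : UnitAddCircle × UnitAddCircle | c • z.1 + z.2 ∈ A} := hs hA
    exact (measurable_measure_prodMk_right (μ := μ) h1).ennreal_toReal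
  have hUm : MeasurableSet U :=
    (measurableSet_le measurable_const hem).inter (measurableSet_le measurable_const hmbm)
  have hUinv : ∀ {r : ℕ}, Sy μ ω A r → ∀ u : UnitAddCircle, r • u ∈ U ↔ u ∈ U := by
    intro r hr u
    have h1 : mb (r • u) = mb u := by
      have h2 : MeasurableSet {v | μ.real (symmDiff (sl c A (r • u)) (sl c A v)) < ε₃} :=
        measurableSet_lt (dist_meas_right μ hA _) measurable_const
      have h3 := hr.om.measure_preimage h2.nullMeasurableSet
      have h4 : (fun x : UnitAddCircle => r • x) ⁻¹'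
          {v | μ.real (symmDiff (sl c A (r • u)) (sl c A v)) < ε₃} =
          {v | μ.real (symmDiff (sl c A u) (sl c A v)) < ε₃} := by
        ext v
        change μ.real (symmDiff (sl c A (r • u)) (sl c A (r • v))) < ε₃ ↔
          μ.real (symmDiff (sl c A u) (sl c A v)) < ε₃
        rw [hr.dist hA c u v]
      rw [h4] at h3
      change (ω {v | μ.real (symmDiff (sl c A (r • u)) (sl c A v)) < ε₃}).toReal =
        (ω {v | μ.real (symmDiff (sl c A u) (sl c A v)) < ε₃}).toReal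
      rw [h3]
    constructor
    · rintro ⟨h2, h3⟩
      refine ⟨?_, ?_⟩
      · change κ₁ ≤ μ.real (sl c A (r • u)) at h2
        rw [hr.mass hA] at h2
        exact h2
      · change θ ≤ mb (r • u) at h3
        rw [h1] at h3
        exact h3
    · rintro ⟨h2, h3⟩
      refine ⟨?_, ?_⟩
      · change κ₁ ≤ μ.real (sl c A (r • u))
        rw [hr.mass hA]
        exact h2
      · change θ ≤ mb (r • u)
        rw [h1]
        exact h3
  exact ⟨U, θ, hUm, hθ, fun u hu => hu.1, fun u hu => hu.2, hUinv hSp, hUinv hSq, hω2⟩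

theorem noise_core {p q : ℕ} (hp : 2 ≤ p) {μ ω : Measure UnitAddCircle}
    [IsProbabilityMeasure μ] [IsProbabilityMeasure ω]
    (hμp : MeasurePreserving (fun x : UnitAddCircle => p • x) μ μ)
    (hμq : MeasurePreserving (fun x : UnitAddCircle => q • x) μ μ)
    (hJ : ∀ E : Set UnitAddCircle, MeasurableSet E →
      (fun x : UnitAddCircle => p • x) ⁻¹' E = E → (fun x : UnitAddCircle => q • x) ⁻¹' E = E →
        μ E = 0 ∨ μ E = 1)
    (hvol : μ ≠ volume)
    (hωp : MeasurePreserving (fun x : UnitAddCircle => p • x) ω ω)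
    (hωq : MeasurePreserving (fun x : UnitAddCircle => q • x) ω ω)
    (hat : ∀ x : UnitAddCircle, ω {x} = 0) {c : ℤ} (hc : c = 1 ∨ c = -1) :
    μ.MutuallySingular ((μ.prod ω).map (fun z : UnitAddCircle × UnitAddCircle =>
      c • z.1 + z.2)) := by
  by_contra hns
  have hJ' : JE (fun x : UnitAddCircle => p • x) (fun x : UnitAddCircle => q • x) μ := hJ
  have hs := lc_meas c
  have hρ : ∀ {r : ℕ}, MeasurePreserving (fun x : UnitAddCircle => r • x) μ μ →
      MeasurePreserving (fun x : UnitAddCircle => r • x) ω ω →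
      MeasurePreserving (fun x : UnitAddCircle => r • x)
        ((μ.prod ω).map (fun z : UnitAddCircle × UnitAddCircle => c • z.1 + z.2))
        ((μ.prod ω).map (fun z : UnitAddCircle × UnitAddCircle => c • z.1 + z.2)) := by
    intro r h1 h2
    refine (hs.measurePreserving (μ.prod ω)).of_semiconj (h1.prod h2) ?_ (nsmul_meas r)
    intro z
    simp only [Prod.map]
    rw [smul_comm c r, smul_add]
  have hprob : IsProbabilityMeasure
      ((μ.prod ω).map (fun z : UnitAddCircle × UnitAddCircle => c • z.1 + z.2)) :=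
    Measure.isProbabilityMeasure_map hs.aemeasurable
  obtain ⟨A, hA, hfA, hgA, -, hρA, hres⟩ := hJ'.dichotomy (fun x => circ_comm p q x) hμp hμq
    (hρ hμp hωp) (hρ hμq hωq) hns
  have hSp : Sy μ ω A p := ⟨hμp, hωp, fun x => by
    change x ∈ (fun x : UnitAddCircle => p • x) ⁻¹' A ↔ _
    rw [hfA]⟩
  have hSq : Sy μ ω A q := ⟨hμq, hωq, fun x => by
    change x ∈ (fun x : UnitAddCircle => q • x) ⁻¹' A ↔ _
    rw [hgA]⟩
  -- the character
  obtain ⟨m, hm0, hm⟩ := exists_coeff hvol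
  set 𝒰 : Ultrafilter ℕ := Filter.hyperfilter ℕ with h𝒰
  have hUtop : (𝒰 : Filter ℕ) ≤ atTop := by
    rw [← Nat.cofinite_eq_atTop]; exact Filter.hyperfilter_le_cofinite
  set n : ℕ → ℤ := fun i => m * (p : ℤ) ^ i with hn
  obtain ⟨a, ham, hab, hw⟩ := exists_WL (𝕜 := ℂ) 𝒰 μ
    (f := fun i (x : UnitAddCircle) => (fourier (n i) x : ℂ)) (fun i => fou_meas _)
    (fun i x => (norm_fou _ x).le)
  have hint : ∫ x, a x ∂μ = ∫ x, (fourier m x : ℂ) ∂μ := by
    have h1 := hw.univ
    have h2 : ∀ i, ∫ x, (fourier (n i) x : ℂ) ∂μ = ∫ x, (fourier m x : ℂ) ∂μ := by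
      intro i
      have h3 := (hSp.pow i).mu
      have h4 := integral_map (μ := μ) h3.measurable.aemeasurable
        (f := fun x : UnitAddCircle => (fourier m x : ℂ)) (fou_meas m).aestronglyMeasurable
      rw [h3.map_eq] at h4
      rw [h4]
      congr 1; funext x
      rw [fou_nsmul, hn]
      congr 1; congr 1
      push_cast; ring
    simp only [h2] at h1
    exact tendsto_nhds_unique h1 tendsto_const_nhds
  set b : UnitAddCircle → ℝ := fun x => ‖a x‖ ^ 2 with hb
  have hbm : Measurable b := ham.norm.pow_const 2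
  have hb0 : ∀ x, 0 ≤ b x := fun x => by positivity
  have hb1 : ∀ x, b x ≤ 1 := fun x => pow_le_one₀ (norm_nonneg _) (hab x)
  have hbi : Integrable b μ := Integrable.of_bound hbm.aestronglyMeasurable 1
    (Eventually.of_forall fun x => by rw [Real.norm_eq_abs, abs_of_nonneg (hb0 x)]; exact hb1 x)
  have hg : 0 < ∫ x, b x ∂μ := by
    rcases (integral_nonneg hb0 : 0 ≤ ∫ x, b x ∂μ).eq_or_lt with h1 | h1
    · exfalso
      have h2 := (integral_eq_zero_iff_of_nonneg hb0 hbi).mp h1.symm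
      apply hm
      rw [← hint]
      have h3 : a =ᵐ[μ] fun _ => (0 : ℂ) := by
        filter_upwards [h2] with x hx
        have h4 : ‖a x‖ ^ 2 = 0 := hx
        exact norm_eq_zero.mp (pow_eq_zero_iff two_ne_zero |>.mp h4)
      rw [integral_congr_ae h3, integral_zero]
    · exact h1
  -- the first level
  obtain ⟨κ₁, hκ₁, hω1⟩ : ∃ κ : ℝ, 0 < κ ∧ ω (Set.univ ∩ {u | κ ≤ μ.real (sl c A u)}) ≠ 0 := by
    apply exists_level
    intro h0
    apply hρA
    rw [Measure.map_apply hs hA, Measure.prod_apply_symm (hs hA), lintegral_eq_zero_iff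
      (measurable_measure_prodMk_right (hs hA))]
    have h1 : ∀ᵐ u ∂ω, ¬ (0 < μ.real (sl c A u)) := by
      rw [ae_iff]
      simpa using h0
    filter_upwards [h1] with u hu
    have h2 : μ.real (sl c A u) = 0 := le_antisymm (not_lt.mp hu) measureReal_nonneg
    exact (measureReal_eq_zero_iff (measure_ne_top _ _)).mp h2
  rw [Set.univ_inter] at hω1
  obtain ⟨L, hL⟩ := box_hit (c := c) hJ' hA hSp hSq hbm hb0 hb1 hκ₁ hg
  set q₀ := (∫ x, b x ∂μ) * κ₁ / 2 with hq₀
  have hq₀0 : 0 < q₀ := by positivity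
  set S := ∑ i ∈ Finset.range L, ∑ j ∈ Finset.range L,
      (((p ^ (L - i) * q ^ (L - j) : ℕ) : ℝ)) ^ 2 with hS
  have hS0 : 0 ≤ S := Finset.sum_nonneg fun i _ => Finset.sum_nonneg fun j _ => by positivity
  have hpR : (0 : ℝ) < p := by
    have : (2 : ℝ) ≤ p := by exact_mod_cast hp
    linarith
  set ε₁ := q₀ / (2 * (S + 1) * p ^ 2) with hε₁
  have hε₁0 : 0 < ε₁ := by positivity
  have hsmall : S * (ε₁ * p ^ 2) ≤ q₀ / 2 := by
    have e1 : S * (ε₁ * p ^ 2) = q₀ / 2 * (S / (S + 1)) := by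
      rw [hε₁]; field_simp
    rw [e1]
    have h1 : S / (S + 1) ≤ 1 := by
      rw [div_le_one (by linarith)]; linarith
    have h2 : (0 : ℝ) < q₀ / 2 := by positivity
    nlinarith
  -- the second level
  set ε₃ := ε₁ / 8 with hε₃
  have hε₃0 : 0 < ε₃ := by positivity
  obtain ⟨U, θ, hUm, hθ, hU1, hU2, hUp, hUq, hω2⟩ := exists_inv_set hA hSp hSq hω1 hε₃0
  -- the net
  obtain ⟨F, hFU, hF⟩ := net_sl μ ω (c := c) hA hε₃0 hθ hU2
  obtain ⟨i, i', hii, hFi⟩ := two_char hUtop ham hab hw F (E := fun v => sl c A v)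
    (fun v => sl_meas hA v) (ε := ε₁ / 2) (by linarith)
  set H₀ := n i' - n i with hH₀
  have hH₀0 : H₀ ≠ 0 := by
    rw [hH₀, hn]
    simp only
    rw [← mul_sub]
    apply mul_ne_zero hm0
    have h1 : (p : ℤ) ^ i < (p : ℤ) ^ i' := pow_lt_pow_right₀ (by exact_mod_cast hp) hii
    omega
  have hκ : ∀ u ∈ U, ‖∫ x in sl c A u, ((fourier H₀ x : ℂ) - ((b x : ℝ) : ℂ)) ∂μ‖ ≤ ε₁ := by
    intro u hu
    obtain ⟨v, hvF, hv⟩ := hF u hu
    have h1 := hFi v hvF
    have h2 := norm_int_symm_le (μ := μ) (h := fun x : UnitAddCircle =>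
      (fourier H₀ x : ℂ) - ((b x : ℝ) : ℂ)) ((fou_meas H₀).sub
      (Complex.measurable_ofReal.comp hbm)) (C := 2) (fun x => by
        refine (norm_sub_le _ _).trans ?_
        rw [norm_fou, Complex.norm_real, Real.norm_eq_abs, abs_of_nonneg (hb0 x)]
        have := hb1 x
        linarith) (sl_meas (c := c) hA u) (sl_meas (c := c) hA v)
    have h3 : μ.real (symmDiff (sl c A u) (sl c A v)) < 2 * ε₃ := by
      rw [symmDiff_comm]; exact hv
    have h4 := norm_add_le ((∫ x in sl c A u, ((fourier H₀ x : ℂ) - ((b x : ℝ) : ℂ)) ∂μ) -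
      ∫ x in sl c A v, ((fourier H₀ x : ℂ) - ((b x : ℝ) : ℂ)) ∂μ)
      (∫ x in sl c A v, ((fourier H₀ x : ℂ) - ((b x : ℝ) : ℂ)) ∂μ)
    rw [sub_add_cancel] at h4
    have h5 : ‖∫ x in sl c A v, ((fourier H₀ x : ℂ) - ((b x : ℝ) : ℂ)) ∂μ‖ < ε₁ / 2 := h1
    linarith
  have hend := noise_end hp hc hJ' hA hUm hSp hSq hUp hUq hres hbm hb0 hb1 hq₀0
    hε₁0 (fun u hu => hL u (hU1 u hu)) hsmall hκ
  apply hω2
  have h1 : (ω.restrict U) {u : UnitAddCircle | H₀ • u = 0}ᶜ = 0 := ae_iff.mp hend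
  rw [Measure.restrict_apply₀'] at h1
  · refine measure_mono_null (t := ({u : UnitAddCircle | H₀ • u = 0}ᶜ ∩ U) ∪
      {u : UnitAddCircle | H₀ • u = 0}) ?_ ?_
    · intro u hu
      by_cases h2 : H₀ • u = 0
      · exact Or.inr h2
      · exact Or.inl ⟨h2, hu⟩
    · rw [measure_union_null_iff]
      exact ⟨h1, torsion_null hat hH₀0⟩
  · exact hUm.nullMeasurableSet

end Pool.Agent.Zk32
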