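import Mathlib
import Pool.Agent.Zk32.Chn3
import Pool.Agent.Zk32.Chn4
import Pool.Agent.Zk32.Noise5

set_option autoImplicit false

open MeasureTheory Filter Topology Set
open scoped ENNReal

namespace Pool.Agent.Zk32

/-- the family of the weak limits of the characters along powers of `p` -/
structure Fam (p : ℕ) (𝒱 : Ultrafilter ℕ) (κ : Measure UnitAddCircle)
    (a : ℤ → UnitAddCircle → ℂ) : Prop where
  meas : ∀ n, Measurable (a n)
  bd : ∀ n x, ‖a n x‖ ≤ 1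
  wl : ∀ n, WL (𝒱 : Filter ℕ) κ (fun i (x : UnitAddCircle) => (fourier n (p ^ i • x) : ℂ)) (a n)

lemma fou_p_meas (n : ℤ) (r : ℕ) : Measurable (fun x : UnitAddCircle => (fourier n (r • x) : ℂ)) :=
  (fou_meas n).comp (nsmul_meas r)

lemma exists_fam (p : ℕ) (𝒱 : Ultrafilter ℕ) (κ : Measure UnitAddCircle) [IsFiniteMeasure κ] :
    ∃ a, Fam p 𝒱 κ a := by
  have h : ∀ n : ℤ, ∃ a : UnitAddCircle → ℂ, Measurable a ∧ (∀ x, ‖a x‖ ≤ 1) ∧
      WL (𝒱 : Filter ℕ) κ (fun i (x : UnitAddCircle) => (fourier n (p ^ i • x) : ℂ)) a := fun n =>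
    exists_WL (𝕜 := ℂ) 𝒱 κ (f := fun i (x : UnitAddCircle) => (fourier n (p ^ i • x) : ℂ))
      (fun i => fou_p_meas n _) (fun i x => (norm_fou _ _).le)
  choose a h1 h2 h3 using h
  exact ⟨a, h1, h2, h3⟩

lemma act_pow {p : ℕ} {κ : Measure UnitAddCircle}
    (h : MeasurePreserving (fun x : UnitAddCircle => p • x) κ κ) :
    Act κ (fun (i : ℕ) (x : UnitAddCircle) => p ^ i • x) := by
  refine ⟨fun i => ?_, fun i j x => ?_⟩
  · induction i with
    | zero => simp only [pow_zero, one_smul]; exact MeasurePreserving.id κ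
    | succ i ih =>
      have := ih.comp h
      convert this using 1
      funext x
      simp only [Function.comp, pow_succ, mul_smul]
  · simp only [pow_add, mul_smul]

section
variable {p : ℕ} {𝒱 : Ultrafilter ℕ} {κ : Measure UnitAddCircle} [IsFiniteMeasure κ]
  {a : ℤ → UnitAddCircle → ℂ}

lemma Fam.mul (ha : Fam p 𝒱 κ a) {r : ℕ}
    (hr : MeasurePreserving (fun x : UnitAddCircle => r • x) κ κ) (n : ℤ) :
    ∀ᵐ x ∂κ, a n (r • x) = a (r * n) x := by
  have h1 : WL (𝒱 : Filter ℕ) κ (fun i (x : UnitAddCircle) => (fourier n (p ^ i • (r • x)) : ℂ))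
      (fun x => a n (r • x)) :=
    (ha.wl n).comp (fun i => fou_p_meas n _) (fun i x => (norm_fou _ _).le) (ha.meas n) (ha.bd n)
      (nsmul_meas r) (by rw [hr.map_eq])
  have h2 : (fun i (x : UnitAddCircle) => (fourier n (p ^ i • (r • x)) : ℂ)) =
      fun i (x : UnitAddCircle) => (fourier (r * n) (p ^ i • x) : ℂ) := by
    funext i x
    rw [smul_comm, fou_nsmul]
  rw [h2] at h1
  exact h1.unique (ha.wl _) ((ha.meas n).comp (nsmul_meas r)) (ha.meas _) (fun x => ha.bd _ _)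
    (ha.bd _)

lemma Fam.grow (ha : Fam p 𝒱 κ a)
    (hp : MeasurePreserving (fun x : UnitAddCircle => p • x) κ κ) {r : ℕ}
    (hr : MeasurePreserving (fun x : UnitAddCircle => r • x) κ κ) (n : ℤ) :
    ∀ᵐ x ∂κ, 1 - ‖a n (r • x)‖ ^ 2 ≤ (r : ℝ) ^ 2 * (1 - ‖a n x‖ ^ 2) := by
  have h1 := rig_pow (act_pow hp) (k := r) (e := fun x : UnitAddCircle => (fourier n x : ℂ))
    (e' := fun x : UnitAddCircle => (fourier (r * n) x : ℂ)) (B := a n) (B' := a (r * n))
    (fou_meas n) (fun x => norm_fou n x) (ha.meas n) (ha.bd n) (ha.wl n)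
    (fun x => by
      rw [← fou_nsmul, fou_pow]) (ha.meas _) (ha.bd _) (ha.wl _)
  filter_upwards [h1, ha.mul hr n] with x h2 h3
  rw [h3]
  exact h2

lemma Fam.dist (ha : Fam p 𝒱 κ a) (h𝒱 : Idem 𝒱)
    (hp : MeasurePreserving (fun x : UnitAddCircle => p • x) κ κ) (n : ℤ) :
    ∫ x, ‖(fourier n x : ℂ) - a n x‖ ^ 2 ∂κ = ∫ x, (1 - ‖a n x‖ ^ 2) ∂κ :=
  rig_dist (act_pow hp) h𝒱 (fou_meas n) (fun x => norm_fou n x) (ha.meas n) (ha.bd n) (ha.wl n)

lemma Fam.L1 (ha : Fam p 𝒱 κ a)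
    (hp : MeasurePreserving (fun x : UnitAddCircle => p • x) κ κ) (n : ℤ) (i : ℕ) :
    ∫ x, ‖a n (p ^ i • x) - a n x‖ ∂κ ≤
      ∫ x, ‖(fourier n (p ^ i • x) : ℂ) - fourier n x‖ ∂κ :=
  rig_L1 (act_pow hp) (fou_meas n) (fun x => (norm_fou n x).le) (ha.meas n) (ha.bd n) (ha.wl n) i

lemma Fam.strong (ha : Fam p 𝒱 κ a) (h𝒱 : Idem 𝒱)
    (hp : MeasurePreserving (fun x : UnitAddCircle => p • x) κ κ) (n : ℤ) :
    Tendsto (fun i : ℕ => ∫ x, ‖a n (p ^ i • x) - a n x‖ ^ 2 ∂κ) (𝒱 : Filter ℕ) (𝓝 0) :=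
  rig_strong (act_pow hp) h𝒱 (fou_meas n) (fun x => (norm_fou n x).le) (ha.meas n) (ha.bd n)
    (ha.wl n)

lemma Fam.int (ha : Fam p 𝒱 κ a)
    (hp : MeasurePreserving (fun x : UnitAddCircle => p • x) κ κ) (n : ℤ) :
    ∫ x, a n x ∂κ = ∫ x, (fourier n x : ℂ) ∂κ := by
  have h1 := (ha.wl n).univ
  have h2 : ∀ i : ℕ, ∫ x, (fourier n (p ^ i • x) : ℂ) ∂κ = ∫ x, (fourier n x : ℂ) ∂κ := fun i =>
    rig_compC (act_pow hp) i (fou_meas n)
  simp only [h2] at h1
  exact tendsto_nhds_unique h1 tendsto_const_nhds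

omit [IsFiniteMeasure κ] in
lemma Fam.nsq_meas (ha : Fam p 𝒱 κ a) (n : ℤ) : Measurable (fun x => ‖a n x‖ ^ 2) :=
  (ha.meas n).norm.pow_const 2

omit [IsFiniteMeasure κ] in
lemma Fam.nsq_le (ha : Fam p 𝒱 κ a) (n : ℤ) (x : UnitAddCircle) : ‖a n x‖ ^ 2 ≤ 1 :=
  pow_le_one₀ (norm_nonneg _) (ha.bd n x)

end

/-- the restriction of the product to the region `c x + u ∈ A` -/
noncomputable def NN (c : ℤ) (μ ν : Measure UnitAddCircle) (A : Set UnitAddCircle) :
    Measure (UnitAddCircle × UnitAddCircle) :=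
  (μ.prod ν).restrict {z : UnitAddCircle × UnitAddCircle | c • z.1 + z.2 ∈ A}

/-- a coupling: both `x` and `c x + u` have the law `k μ` on the region -/
structure Cp (p q : ℕ) (c : ℤ) (μ ν : Measure UnitAddCircle) (A : Set UnitAddCircle) (k : ℝ) :
    Prop where
  pr : IsProbabilityMeasure μ
  fin : IsFiniteMeasure ν
  hA : MeasurableSet A
  sp : Sy μ ν A p
  sq : Sy μ ν A q
  kp : 0 < k
  ls : (NN c μ ν A).map (fun z : UnitAddCircle × UnitAddCircle => c • z.1 + z.2) =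
    ENNReal.ofReal k • μ
  lf : (NN c μ ν A).map Prod.fst = ENNReal.ofReal k • μ

section
variable {c : ℤ} {μ ν : Measure UnitAddCircle} {A : Set UnitAddCircle} {k : ℝ}

lemma NN_meas_set (hA : MeasurableSet A) :
    MeasurableSet {z : UnitAddCircle × UnitAddCircle | c • z.1 + z.2 ∈ A} := lc_meas c hA

instance [IsFiniteMeasure μ] [IsFiniteMeasure ν] : IsFiniteMeasure (NN c μ ν A) := by
  unfold NN; infer_instance

lemma NN_ac : NN c μ ν A ≪ μ.prod ν := by
  unfold NN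
  exact Measure.absolutelyContinuous_of_le Measure.restrict_le_self

/-- iterated integrals -/
lemma NN_int [IsFiniteMeasure μ] [IsFiniteMeasure ν] (hA : MeasurableSet A)
    {g : UnitAddCircle × UnitAddCircle → ℝ} (hg : Measurable g) {C : ℝ} (hgb : ∀ z, |g z| ≤ C) :
    ∫ z, g z ∂(NN c μ ν A) = ∫ u, (∫ x in sl c A u, g (x, u) ∂μ) ∂ν := by
  have hW := NN_meas_set (c := c) hA
  unfold NN
  rw [← integral_indicator hW]
  have hi : Integrable ({z : UnitAddCircle × UnitAddCircle | c • z.1 + z.2 ∈ A}.indicator g)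
      (μ.prod ν) := (bir hg hgb).indicator hW
  rw [integral_prod_symm _ hi]
  congr 1; funext u
  rw [← integral_indicator (sl_meas hA u)]
  congr 1

/-- the invariance of the region -/
lemma Sy.nn {n : ℕ} [IsFiniteMeasure μ] [IsFiniteMeasure ν] (h : Sy μ ν A n)
    (hA : MeasurableSet A) :
    MeasurePreserving (Prod.map (fun x : UnitAddCircle => n • x)
      (fun x : UnitAddCircle => n • x)) (NN c μ ν A) (NN c μ ν A) := by
  have hW := NN_meas_set (c := c) hA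
  have h1 := h.mu.prod h.om
  have h2 := h1.restrict_preimage hW
  have h3 : (Prod.map (fun x : UnitAddCircle => n • x) (fun x : UnitAddCircle => n • x)) ⁻¹'
      {z : UnitAddCircle × UnitAddCircle | c • z.1 + z.2 ∈ A} =
      {z : UnitAddCircle × UnitAddCircle | c • z.1 + z.2 ∈ A} := by
    ext z
    simp only [Set.mem_preimage, Set.mem_ofPred_eq, Prod.map_fst, Prod.map_snd]
    rw [smul_comm c n z.1, ← smul_add, h.st]
  rw [h3] at h2
  exact h2

/-- the laws -/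
lemma NN_ls {p q : ℕ} [IsProbabilityMeasure μ] [IsFiniteMeasure ν]
    (hJ : JE (fun x : UnitAddCircle => p • x) (fun x : UnitAddCircle => q • x) μ)
    (hA : MeasurableSet A) (hp : Sy μ ν A p) (hq : Sy μ ν A q)
    (hac : (NN c μ ν A).map (fun z : UnitAddCircle × UnitAddCircle => c • z.1 + z.2) ≪ μ) :
    (NN c μ ν A).map (fun z : UnitAddCircle × UnitAddCircle => c • z.1 + z.2) =
      (NN c μ ν A) Set.univ • μ := by
  have hs := lc_meas c
  have hR1 : ∀ {r : ℕ}, Sy μ ν A r →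
      MeasurePreserving (fun x : UnitAddCircle => r • x)
        ((NN c μ ν A).map (fun z : UnitAddCircle × UnitAddCircle => c • z.1 + z.2))
        ((NN c μ ν A).map (fun z : UnitAddCircle × UnitAddCircle => c • z.1 + z.2)) := by
    intro r hr
    refine (hs.measurePreserving (NN c μ ν A)).of_semiconj (hr.nn hA) ?_ (nsmul_meas r)
    intro z
    simp only [Prod.map]
    rw [smul_comm c r, smul_add]
  have e1 := hJ.eq_smul (fun x => circ_comm p q x) hp.mu hq.mu (hR1 hp) (hR1 hq) hac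
  rw [Measure.map_apply hs MeasurableSet.univ, Set.preimage_univ] at e1
  exact e1

lemma NN_lf {p q : ℕ} [IsProbabilityMeasure μ] [IsFiniteMeasure ν]
    (hJ : JE (fun x : UnitAddCircle => p • x) (fun x : UnitAddCircle => q • x) μ)
    (hA : MeasurableSet A) (hp : Sy μ ν A p) (hq : Sy μ ν A q) :
    (NN c μ ν A).map Prod.fst = (NN c μ ν A) Set.univ • μ := by
  have hR2 : ∀ {r : ℕ}, Sy μ ν A r →
      MeasurePreserving (fun x : UnitAddCircle => r • x) ((NN c μ ν A).map Prod.fst)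
        ((NN c μ ν A).map Prod.fst) := by
    intro r hr
    exact (measurable_fst.measurePreserving (NN c μ ν A)).of_semiconj (hr.nn hA) (fun z => rfl)
      (nsmul_meas r)
  have hac2 : (NN c μ ν A).map Prod.fst ≪ μ := by
    refine Measure.AbsolutelyContinuous.mk fun B hB hB0 => ?_
    rw [Measure.map_apply measurable_fst hB]
    have h1 : (μ.prod ν) (Prod.fst ⁻¹' B) = 0 := by
      have h2 : Prod.fst ⁻¹' B = B ×ˢ (Set.univ : Set UnitAddCircle) := by
        ext z; simp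
      rw [h2, Measure.prod_prod, hB0, zero_mul]
    exact Measure.absolutelyContinuous_of_le Measure.restrict_le_self h1
  have e2 := hJ.eq_smul (fun x => circ_comm p q x) hp.mu hq.mu (hR2 hp) (hR2 hq) hac2
  rw [Measure.map_apply measurable_fst MeasurableSet.univ, Set.preimage_univ] at e2
  exact e2

end

section
variable {p q : ℕ} {c : ℤ} {μ ν : Measure UnitAddCircle} {A : Set UnitAddCircle} {k : ℝ}

lemma Cp.int_s (h : Cp p q c μ ν A k) {f : UnitAddCircle → ℝ} (hf : Measurable f) :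
    ∫ z, f (c • z.1 + z.2) ∂(NN c μ ν A) = k * ∫ x, f x ∂μ := by
  have h1 := integral_map (μ := NN c μ ν A) (lc_meas c).aemeasurable (f := f)
    hf.aestronglyMeasurable
  rw [h.ls, integral_smul_measure, ENNReal.toReal_ofReal h.kp.le, smul_eq_mul] at h1
  exact h1.symm

lemma Cp.int_f (h : Cp p q c μ ν A k) {f : UnitAddCircle → ℝ} (hf : Measurable f) :
    ∫ z, f z.1 ∂(NN c μ ν A) = k * ∫ x, f x ∂μ := by
  have h1 := integral_map (μ := NN c μ ν A) measurable_fst.aemeasurable (f := f)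
    hf.aestronglyMeasurable
  rw [h.lf, integral_smul_measure, ENNReal.toReal_ofReal h.kp.le, smul_eq_mul] at h1
  exact h1.symm

lemma Cp.int_g (h : Cp p q c μ ν A k) {g : UnitAddCircle → ℝ} (hg : Measurable g) {C : ℝ}
    (hgb : ∀ x, |g x| ≤ C) (hg0 : ∀ x, 0 ≤ g x) :
    ∫ z, g z.2 ∂(NN c μ ν A) ≤ ∫ u, g u ∂ν := by
  have := h.pr
  have := h.fin
  have h1 : ∫ z, g z.2 ∂(NN c μ ν A) ≤ ∫ z, g z.2 ∂(μ.prod ν) := by
    unfold NN
    exact setIntegral_le_integral (bir (hg.comp measurable_snd) (fun z => hgb _))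
      (Eventually.of_forall fun z => hg0 _)
  refine h1.trans (le_of_eq ?_)
  rw [integral_fun_snd]
  simp

lemma Cp.int_fg (h : Cp p q c μ ν A k) {f g : UnitAddCircle → ℝ} (hf : Measurable f)
    (hg : Measurable g) {C D : ℝ} (hfb : ∀ x, |f x| ≤ C) (hgb : ∀ x, |g x| ≤ D) :
    ∫ z, f z.1 * g z.2 ∂(NN c μ ν A) = ∫ u, g u * (∫ x in sl c A u, f x ∂μ) ∂ν := by
  have := h.pr
  have := h.fin
  have hb : ∀ z : UnitAddCircle × UnitAddCircle, |f z.1 * g z.2| ≤ C * D := by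
    intro z
    rw [abs_mul]
    exact mul_le_mul (hfb _) (hgb _) (abs_nonneg _) ((abs_nonneg _).trans (hfb z.1))
  rw [NN_int (g := fun z : UnitAddCircle × UnitAddCircle => f z.1 * g z.2) h.hA
    ((hf.comp measurable_fst).mul (hg.comp measurable_snd)) hb]
  congr 1; funext u
  simp only
  rw [integral_mul_const, mul_comm]

/-- products of characters -/
lemma NN_rel2 [IsFiniteMeasure μ] [IsFiniteMeasure ν]
    {𝒱 : Ultrafilter ℕ} {a b : ℤ → UnitAddCircle → ℂ}
    (ha : Fam p 𝒱 μ a) (hb : Fam p 𝒱 ν b) (n : ℤ) :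
    WL (𝒱 : Filter ℕ) (μ.prod ν) (fun i z =>
        (fourier (c * n) (p ^ i • z.1) : ℂ) * (fourier n (p ^ i • z.2) : ℂ))
      (fun z => a (c * n) z.1 * b n z.2) := by
  have m1 : ∀ i : ℕ, Measurable (fun x : UnitAddCircle => (fourier (c * n) (p ^ i • x) : ℂ)) :=
    fun i => fou_p_meas _ _
  have m2 : ∀ i : ℕ, Measurable (fun x : UnitAddCircle => (fourier (n) (p ^ i • x) : ℂ)) :=
    fun i => fou_p_meas _ _
  have b1 : ∀ (i : ℕ) (x : UnitAddCircle), ‖(fourier (c * n) (p ^ i • x) : ℂ)‖ ≤ 1 :=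
    fun i x => (norm_fou _ _).le
  have b2 : ∀ (i : ℕ) (x : UnitAddCircle), ‖(fourier (n) (p ^ i • x) : ℂ)‖ ≤ 1 :=
    fun i x => (norm_fou _ _).le
  exact WL.prod (f := fun (i : ℕ) (x : UnitAddCircle) => (fourier (c * n) (p ^ i • x) : ℂ))
    (f' := fun (i : ℕ) (x : UnitAddCircle) => (fourier n (p ^ i • x) : ℂ)) (a := a (c * n))
    (a' := b n) (ha.wl (c * n)) (hb.wl n) m1 b1 (ha.meas _) (ha.bd _) m2 b2 (hb.meas n) (hb.bd n)

/-- the relation between the limits -/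
lemma NN_rel [IsFiniteMeasure μ] [IsFiniteMeasure ν]
    (hac : (NN c μ ν A).map (fun z : UnitAddCircle × UnitAddCircle => c • z.1 + z.2) ≪ μ)
    {𝒱 : Ultrafilter ℕ} {a b : ℤ → UnitAddCircle → ℂ}
    (ha : Fam p 𝒱 μ a) (hb : Fam p 𝒱 ν b) (n : ℤ) :
    ∀ᵐ z ∂(NN c μ ν A), a n (c • z.1 + z.2) = a (c * n) z.1 * b n z.2 := by
  have hs := lc_meas c
  set G : ℕ → UnitAddCircle × UnitAddCircle → ℂ := fun i z =>
        (fourier (c * n) (p ^ i • z.1) : ℂ) * (fourier n (p ^ i • z.2) : ℂ) with hG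
  have h1 : WL (𝒱 : Filter ℕ) (NN c μ ν A)
      (fun i (z : UnitAddCircle × UnitAddCircle) => (fourier n (p ^ i • (c • z.1 + z.2)) : ℂ))
      (fun z => a n (c • z.1 + z.2)) :=
    (ha.wl n).comp (fun i => fou_p_meas n _) (fun i x => (norm_fou _ _).le) (ha.meas n) (ha.bd n)
      hs hac
  have h2 : WL (𝒱 : Filter ℕ) (μ.prod ν) G (fun z => a (c * n) z.1 * b n z.2) :=
    NN_rel2 ha hb n
  have m2 : ∀ i : ℕ, Measurable (G i) := fun i =>
    ((fou_p_meas (c * n) (p ^ i)).comp measurable_fst).mul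
      ((fou_p_meas n (p ^ i)).comp measurable_snd)
  have b2 : ∀ i z, ‖G i z‖ ≤ 1 := fun i z => by
    rw [hG]
    simp only
    rw [norm_mul, norm_fou, norm_fou, mul_one]
  have m3 : Measurable (fun z : UnitAddCircle × UnitAddCircle => a (c * n) z.1 * b n z.2) :=
    ((ha.meas _).comp measurable_fst).mul ((hb.meas _).comp measurable_snd)
  have b3 : ∀ z : UnitAddCircle × UnitAddCircle, ‖a (c * n) z.1 * b n z.2‖ ≤ 1 := fun z => by
    rw [norm_mul]; exact mul_le_one₀ (ha.bd _ _) (norm_nonneg _) (hb.bd _ _)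
  have h3 : WL (𝒱 : Filter ℕ) (NN c μ ν A) G (fun z => a (c * n) z.1 * b n z.2) :=
    h2.ac m2 b2 m3 b3 NN_ac
  have h4 : (fun i (z : UnitAddCircle × UnitAddCircle) =>
      (fourier n (p ^ i • (c • z.1 + z.2)) : ℂ)) = G := by
    funext i z
    rw [hG]
    simp only
    rw [smul_add, fou_add', smul_comm (p ^ i) c z.1, fou_smul]
  rw [h4] at h1
  exact h1.unique h3 ((ha.meas n).comp hs) m3 (fun z => ha.bd _ _) b3

lemma Cp.rel (h : Cp p q c μ ν A k) {𝒱 : Ultrafilter ℕ} {a b : ℤ → UnitAddCircle → ℂ}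
    (ha : Fam p 𝒱 μ a) (hb : Fam p 𝒱 ν b) (n : ℤ) :
    ∀ᵐ z ∂(NN c μ ν A), a n (c • z.1 + z.2) = a (c * n) z.1 * b n z.2 := by
  have := h.pr
  have := h.fin
  have hac : (NN c μ ν A).map (fun z : UnitAddCircle × UnitAddCircle => c • z.1 + z.2) ≪ μ := by
    rw [h.ls]
    exact Measure.smul_absolutelyContinuous
  exact NN_rel hac ha hb n

end

end Pool.Agent.Zk32
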