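import Mathlib
import Pool.Agent.Zk32.Chn5

set_option autoImplicit false

open MeasureTheory Filter Topology Set
open scoped ENNReal

namespace Pool.Agent.Zk32

noncomputable def ww (μ : Measure UnitAddCircle) (a : ℤ → UnitAddCircle → ℂ) (n : ℤ) : ℝ :=
  ∫ x, ‖a n x‖ ^ 2 ∂μ

noncomputable def zz (ν : Measure UnitAddCircle) (b : ℤ → UnitAddCircle → ℂ) (n : ℤ) : ℝ :=
  ∫ u, (1 - ‖b n u‖ ^ 2) ∂ν

noncomputable def ph (ν : Measure UnitAddCircle) (H : ℤ) : ℝ :=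
  ∫ u, (1 - (fourier H u : ℂ).re) ∂ν

noncomputable def al (μ : Measure UnitAddCircle) (k : ℝ) (a : ℤ → UnitAddCircle → ℂ) (t : ℕ)
    (n : ℤ) : ℝ := k * ∫ x, ‖a n (t • x) - a n x‖ ^ 2 ∂μ

lemma int8 {X : Type*} [MeasurableSpace X] {N : Measure X} {f1 f2 f3 f4 f5 f6 f7 f8 : X → ℝ}
    (i1 : Integrable f1 N) (i2 : Integrable f2 N) (i3 : Integrable f3 N) (i4 : Integrable f4 N)
    (i5 : Integrable f5 N) (i6 : Integrable f6 N) (i7 : Integrable f7 N) (i8 : Integrable f8 N) :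
    Integrable (fun z => f1 z + f2 z + f3 z - f4 z + 2 * f5 z + 2 * f6 z + 4 * f7 z + 2 * f8 z) N ∧
    ∫ z, (f1 z + f2 z + f3 z - f4 z + 2 * f5 z + 2 * f6 z + 4 * f7 z + 2 * f8 z) ∂N =
      (∫ z, f1 z ∂N) + (∫ z, f2 z ∂N) + (∫ z, f3 z ∂N) - (∫ z, f4 z ∂N) + 2 * (∫ z, f5 z ∂N)
        + 2 * (∫ z, f6 z ∂N) + 4 * (∫ z, f7 z ∂N) + 2 * (∫ z, f8 z ∂N) := by
  have j2 := i1.add i2
  have j3 := j2.add i3
  have j4 := j3.sub i4
  have j5 := j4.add (i5.const_mul 2)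
  have j6 := j5.add (i6.const_mul 2)
  have j7 := j6.add (i7.const_mul 4)
  have j8 := j7.add (i8.const_mul 2)
  refine ⟨j8, ?_⟩
  have e8 := integral_add j7 (i8.const_mul 2)
  have e7 := integral_add j6 (i7.const_mul 4)
  have e6 := integral_add j5 (i6.const_mul 2)
  have e5 := integral_add j4 (i5.const_mul 2)
  have e4 := integral_sub j3 i4
  have e3 := integral_add j2 i3
  have e2 := integral_add i1 i2
  simp only [Pi.add_apply, Pi.sub_apply, integral_const_mul] at e2 e3 e4 e5 e6 e7 e8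
  rw [e8, e7, e6, e5, e4, e3, e2]

section
variable {p q : ℕ} {c : ℤ} {μ ν : Measure UnitAddCircle} {A : Set UnitAddCircle} {k : ℝ}
  {𝒱 : Ultrafilter ℕ} {a b : ℤ → UnitAddCircle → ℂ}

lemma nsq_abs {f : UnitAddCircle → ℂ} (hf : ∀ x, ‖f x‖ ≤ 1) (x : UnitAddCircle) :
    |‖f x‖ ^ 2| ≤ 1 := by
  rw [abs_of_nonneg (by positivity)]
  exact pow_le_one₀ (norm_nonneg _) (hf x)

lemma one_sub_nonneg {f : UnitAddCircle → ℂ} (hf : ∀ x, ‖f x‖ ≤ 1) (x : UnitAddCircle) :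
    0 ≤ 1 - ‖f x‖ ^ 2 := by
  have : ‖f x‖ ^ 2 ≤ 1 := pow_le_one₀ (norm_nonneg _) (hf x)
  linarith

lemma one_sub_abs {f : UnitAddCircle → ℂ} (hf : ∀ x, ‖f x‖ ≤ 1) (x : UnitAddCircle) :
    |1 - ‖f x‖ ^ 2| ≤ 1 := by
  rw [abs_of_nonneg (one_sub_nonneg hf x)]
  have : 0 ≤ ‖f x‖ ^ 2 := by positivity
  linarith

/-- the defect -/
lemma Cp.diff (h : Cp p q c μ ν A k) (ha : Fam p 𝒱 μ a) (hb : Fam p 𝒱 ν b) (n : ℤ) :
    k * (ww μ a (c * n) - ww μ a n) =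
      ∫ u, (1 - ‖b n u‖ ^ 2) * (∫ x in sl c A u, ‖a (c * n) x‖ ^ 2 ∂μ) ∂ν := by
  have := h.pr
  have := h.fin
  have m1 := ha.nsq_meas (c * n)
  have m2 := ha.nsq_meas n
  have m3 := hb.nsq_meas n
  rw [mul_sub]
  unfold ww
  rw [← h.int_f m1, ← h.int_s m2,
    ← h.int_fg (g := fun u => 1 - ‖b n u‖ ^ 2) m1 (measurable_const.sub m3) (nsq_abs (ha.bd _))
      (one_sub_abs (hb.bd n))]
  have e1 : ∫ z, ‖a n (c • z.1 + z.2)‖ ^ 2 ∂(NN c μ ν A) =
      ∫ z, ‖a (c * n) z.1‖ ^ 2 * ‖b n z.2‖ ^ 2 ∂(NN c μ ν A) := by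
    refine integral_congr_ae ?_
    filter_upwards [h.rel ha hb n] with z hz
    rw [hz, norm_mul, mul_pow]
  rw [e1, ← integral_sub]
  · congr 1; funext z; ring
  · exact bir (m1.comp measurable_fst) (fun z => nsq_abs (ha.bd _) z.1)
  · refine bir (C := 1 * 1) ((m1.comp measurable_fst).mul (m3.comp measurable_snd)) (fun z => ?_)
    rw [abs_mul]
    exact mul_le_mul (nsq_abs (ha.bd _) z.1) (nsq_abs (hb.bd _) z.2) (abs_nonneg _) zero_le_one

lemma sl_int_nonneg {β : UnitAddCircle → ℝ} (hβ0 : ∀ x, 0 ≤ β x) (u : UnitAddCircle) :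
    0 ≤ ∫ x in sl c A u, β x ∂μ := integral_nonneg hβ0

lemma sl_int_le [IsProbabilityMeasure μ] {β : UnitAddCircle → ℝ} (hβ : Measurable β)
    (hβ0 : ∀ x, 0 ≤ β x) (hβ1 : ∀ x, β x ≤ 1) (u : UnitAddCircle) :
    ∫ x in sl c A u, β x ∂μ ≤ 1 := by
  have hi : Integrable β μ := bir hβ (C := 1) fun x => by
    rw [abs_of_nonneg (hβ0 x)]; exact hβ1 x
  calc ∫ x in sl c A u, β x ∂μ ≤ ∫ x, β x ∂μ :=
        setIntegral_le_integral hi (Eventually.of_forall hβ0)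
    _ ≤ ∫ _, (1 : ℝ) ∂μ := integral_mono hi (integrable_const _) hβ1
    _ = 1 := by simp

/-- the box inequality -/
lemma Cp.box (h : Cp p q c μ ν A k) {L : ℕ} (hL : 0 < L) {q₀ Kc : ℝ}
    {β : UnitAddCircle → ℝ} (hβ : Measurable β) (hβ0 : ∀ x, 0 ≤ β x) (hβ1 : ∀ x, β x ≤ 1)
    (hbox : ∀ᵐ u ∂ν, (L : ℝ) ^ 2 * q₀ ≤ ∑ i ∈ Finset.range L, ∑ l ∈ Finset.range L,
      ∫ x in sl c A ((p ^ i * q ^ l) • u), β x ∂μ)
    {ψ : UnitAddCircle → ℝ} (hψ : Measurable ψ) (hψ0 : ∀ x, 0 ≤ ψ x) {C : ℝ}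
    (hψC : ∀ x, ψ x ≤ C)
    (hψs : ∀ᵐ u ∂ν, ∀ i < L, ∀ l < L, ψ ((p ^ L * q ^ L) • u) ≤ Kc * ψ ((p ^ i * q ^ l) • u)) :
    q₀ * ∫ u, ψ u ∂ν ≤ Kc * ∫ u, ψ u * (∫ x in sl c A u, β x ∂μ) ∂ν := by
  have := h.pr
  have := h.fin
  have hLR : (0 : ℝ) < L := by exact_mod_cast hL
  set W : UnitAddCircle → ℝ := fun u => ∫ x in sl c A u, β x ∂μ with hW
  have hWm : Measurable W := int_sl_meas μ h.hA hβ
  have hW0 : ∀ u, 0 ≤ W u := fun u => sl_int_nonneg hβ0 u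
  have hW1 : ∀ u, W u ≤ 1 := fun u => sl_int_le hβ hβ0 hβ1 u
  have hC : 0 ≤ C := (hψ0 0).trans (hψC 0)
  have hmp : ∀ i l : ℕ, MeasurePreserving (fun x : UnitAddCircle => (p ^ i * q ^ l) • x) ν ν :=
    fun i l => ((h.sp.pow i).mul (h.sq.pow l)).om
  have comp : ∀ (i l : ℕ) {f : UnitAddCircle → ℝ}, Measurable f →
      ∫ u, f ((p ^ i * q ^ l) • u) ∂ν = ∫ u, f u ∂ν := by
    intro i l f hf
    have := integral_map (μ := ν) (hmp i l).measurable.aemeasurable (f := f)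
      hf.aestronglyMeasurable
    rw [(hmp i l).map_eq] at this
    exact this.symm
  have hψWm : Measurable (fun u => ψ u * W u) := hψ.mul hWm
  have hψWb : ∀ u, |ψ u * W u| ≤ C := by
    intro u
    rw [abs_of_nonneg (mul_nonneg (hψ0 u) (hW0 u))]
    have := mul_le_mul (hψC u) (hW1 u) (hW0 u) hC
    linarith
  have iψ : ∀ i l : ℕ, Integrable (fun u : UnitAddCircle => ψ ((p ^ i * q ^ l) • u)) ν := fun i l =>
    bir (hψ.comp (nsmul_meas _)) (C := C) fun u => by rw [abs_of_nonneg (hψ0 _)]; exact hψC _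
  have iψW : ∀ i l : ℕ, Integrable (fun u : UnitAddCircle => Kc * (ψ ((p ^ i * q ^ l) • u) *
      W ((p ^ i * q ^ l) • u))) ν := fun i l =>
    (bir (hψWm.comp (nsmul_meas _)) (C := C) fun u => hψWb _).const_mul Kc
  have h1 : ∫ u, ((L : ℝ) ^ 2 * q₀) * ψ ((p ^ L * q ^ L) • u) ∂ν ≤
      ∫ u, (∑ i ∈ Finset.range L, ∑ l ∈ Finset.range L,
        Kc * (ψ ((p ^ i * q ^ l) • u) * W ((p ^ i * q ^ l) • u))) ∂ν := by
    refine integral_mono_ae ((iψ L L).const_mul _) (integrable_finsetSum _ fun i _ =>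
      integrable_finsetSum _ fun l _ => iψW i l) ?_
    filter_upwards [hbox, hψs] with u hu1 hu2
    calc ((L : ℝ) ^ 2 * q₀) * ψ ((p ^ L * q ^ L) • u)
        ≤ (∑ i ∈ Finset.range L, ∑ l ∈ Finset.range L, W ((p ^ i * q ^ l) • u)) *
            ψ ((p ^ L * q ^ L) • u) := mul_le_mul_of_nonneg_right hu1 (hψ0 _)
      _ = ∑ i ∈ Finset.range L, ∑ l ∈ Finset.range L, W ((p ^ i * q ^ l) • u) *
            ψ ((p ^ L * q ^ L) • u) := by
          rw [Finset.sum_mul]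
          refine Finset.sum_congr rfl fun i _ => ?_
          rw [Finset.sum_mul]
      _ ≤ _ := by
          refine Finset.sum_le_sum fun i hi => Finset.sum_le_sum fun l hl => ?_
          have h3 := hu2 i (Finset.mem_range.mp hi) l (Finset.mem_range.mp hl)
          have h4 := mul_le_mul_of_nonneg_left h3 (hW0 ((p ^ i * q ^ l) • u))
          refine h4.trans (le_of_eq ?_)
          ring
  rw [integral_const_mul, comp L L hψ, integral_finsetSum _ (fun i _ =>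
    integrable_finsetSum _ fun l _ => iψW i l)] at h1
  have h2 : ∑ i ∈ Finset.range L, ∫ u, (∑ l ∈ Finset.range L,
        Kc * (ψ ((p ^ i * q ^ l) • u) * W ((p ^ i * q ^ l) • u))) ∂ν =
      (L : ℝ) ^ 2 * (Kc * ∫ u, ψ u * W u ∂ν) := by
    have h3 : ∀ i ∈ Finset.range L, ∫ u, (∑ l ∈ Finset.range L,
        Kc * (ψ ((p ^ i * q ^ l) • u) * W ((p ^ i * q ^ l) • u))) ∂ν =
        L * (Kc * ∫ u, ψ u * W u ∂ν) := by
      intro i _
      rw [integral_finsetSum _ (fun l _ => iψW i l)]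
      have h4 : ∀ l ∈ Finset.range L, ∫ u, Kc * (ψ ((p ^ i * q ^ l) • u) *
          W ((p ^ i * q ^ l) • u)) ∂ν = Kc * ∫ u, ψ u * W u ∂ν := by
        intro l _
        rw [integral_const_mul]
        congr 1
        exact comp i l hψWm
      rw [Finset.sum_congr rfl h4, Finset.sum_const, Finset.card_range, nsmul_eq_mul]
    rw [Finset.sum_congr rfl h3, Finset.sum_const, Finset.card_range, nsmul_eq_mul]
    ring
  rw [h2, mul_assoc] at h1
  exact le_of_mul_le_mul_left h1 (by positivity)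

/-- the relation at the image point -/
lemma Cp.rel_t (h : Cp p q c μ ν A k) (ha : Fam p 𝒱 μ a) (hb : Fam p 𝒱 ν b) (n : ℤ) {t : ℕ}
    (ht : Sy μ ν A t) :
    ∀ᵐ z ∂(NN c μ ν A), a n (t • (c • z.1 + z.2)) = a (c * n) (t • z.1) * b n (t • z.2) := by
  have := h.pr
  have := h.fin
  have h1 := (ht.nn (c := c) h.hA).quasiMeasurePreserving.ae (h.rel ha hb n)
  filter_upwards [h1] with z hz
  simp only [Prod.map] at hz
  rw [smul_add, ← smul_comm c t z.1]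
  exact hz

lemma comp_t {κ : Measure UnitAddCircle} {t : ℕ}
    (ht : MeasurePreserving (fun x : UnitAddCircle => t • x) κ κ) {f : UnitAddCircle → ℝ}
    (hf : Measurable f) : ∫ x, f (t • x) ∂κ = ∫ x, f x ∂κ := by
  have := integral_map (μ := κ) ht.measurable.aemeasurable (f := f) hf.aestronglyMeasurable
  rw [ht.map_eq] at this
  exact this.symm

lemma norm_sub_two {f g : ℂ} (hf : ‖f‖ ≤ 1) (hg : ‖g‖ ≤ 1) : ‖f - g‖ ≤ 2 :=
  (norm_sub_le _ _).trans (by linarith)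

lemma nsub_meas {f g : UnitAddCircle → ℂ} (hf : Measurable f) (hg : Measurable g) :
    Measurable (fun x => ‖f x - g x‖) := (hf.sub hg).norm

/-- the product of differences -/
lemma Cp.cross (h : Cp p q c μ ν A k) {f g : UnitAddCircle → ℝ} (hf : Measurable f)
    (hg : Measurable g) {C D : ℝ} (hf0 : ∀ x, 0 ≤ f x) (hg0 : ∀ x, 0 ≤ g x)
    (hfb : ∀ x, f x ≤ C) (hgb : ∀ x, g x ≤ D) :
    ∫ z, f z.1 * g z.2 ∂(NN c μ ν A) ≤ Real.sqrt (∫ x, f x ^ 2 ∂μ) * ∫ u, g u ∂ν := by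
  have := h.pr
  have := h.fin
  have hfa : ∀ x, |f x| ≤ C := fun x => by rw [abs_of_nonneg (hf0 x)]; exact hfb x
  have hga : ∀ x, |g x| ≤ D := fun x => by rw [abs_of_nonneg (hg0 x)]; exact hgb x
  have fi : Integrable f μ := bir hf hfa
  have gi : Integrable g ν := bir hg hga
  rw [h.int_fg hf hg hfa hga]
  set S := Real.sqrt (∫ x, f x ^ 2 ∂μ) with hS
  have h1 : ∫ x, f x ∂μ ≤ S := by
    apply Real.le_sqrt_of_sq_le
    have := cs_one (ν := μ) hf hfa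
    rw [probReal_univ, one_mul] at this
    exact this
  have h2 : ∀ u, ∫ x in sl c A u, f x ∂μ ≤ S := fun u =>
    (setIntegral_le_integral fi (Eventually.of_forall hf0)).trans h1
  rw [mul_comm, ← integral_mul_const]
  refine integral_mono ?_ (gi.mul_const S) (fun u => mul_le_mul_of_nonneg_left (h2 u) (hg0 u))
  refine bir (hg.mul (int_sl_meas μ h.hA hf)) (C := D * S) (fun u => ?_)
  have h3 : 0 ≤ ∫ x in sl c A u, f x ∂μ := integral_nonneg hf0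
  rw [abs_of_nonneg (mul_nonneg (hg0 u) h3)]
  exact mul_le_mul (hgb u) (h2 u) h3 ((hg0 u).trans (hgb u))

end

end Pool.Agent.Zk32
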