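import Mathlib
import Pool.Agent.Zk32.Chn6

set_option autoImplicit false

open MeasureTheory Filter Topology Set
open scoped ENNReal

namespace Pool.Agent.Zk32

section
variable {p q : ℕ} {c : ℤ} {μ ν : Measure UnitAddCircle} {A : Set UnitAddCircle} {k : ℝ}
  {𝒱 : Ultrafilter ℕ} {a b : ℤ → UnitAddCircle → ℂ}

lemma fou_diff (n : ℤ) (t : ℕ) (u : UnitAddCircle) :
    ‖(fourier n (t • u) : ℂ) - fourier n u‖ = ‖(fourier (t * n - n) u : ℂ) - 1‖ := by
  rw [fou_nsmul, norm_fou_sub]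

lemma L1_le (hp2 : 2 ≤ p) (hνp : MeasurePreserving (fun x : UnitAddCircle => p • x) ν ν)
    [IsFiniteMeasure ν] (hb : Fam p 𝒱 ν b) (n : ℤ) (i : ℕ) :
    ∫ x, ‖b n (p ^ i • x) - b n x‖ ∂ν ≤ (p : ℝ) ^ 2 * ph ν (((p ^ i : ℕ) : ℤ) * n - n) := by
  refine (hb.L1 hνp n i).trans ?_
  have h1 := growth hp2 hνp (((p ^ i : ℕ) : ℤ) * n - n)
  refine le_trans (le_of_eq ?_) h1
  congr 1; funext x
  exact fou_diff n (p ^ i) x

/-- the parts over the noise -/
lemma Cp.parts (h : Cp p q c μ ν A k) (h𝒱 : Idem 𝒱) (hb : Fam p 𝒱 ν b)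
    (n : ℤ) {t : ℕ} (ht : Sy μ ν A t) :
    (∫ z, ‖(fourier n (t • z.2) : ℂ) - b n (t • z.2)‖ ^ 2 ∂(NN c μ ν A) ≤ zz ν b n) ∧
    (∫ z, ‖(fourier n z.2 : ℂ) - b n z.2‖ ^ 2 ∂(NN c μ ν A) ≤ zz ν b n) ∧
    (∫ z, (1 - ‖b n z.2‖ ^ 2) ∂(NN c μ ν A) ≤ zz ν b n) := by
  have := h.pr
  have := h.fin
  have hf : Measurable (fun x : UnitAddCircle => ‖(fourier n x : ℂ) - b n x‖ ^ 2) :=
    (nsub_meas (fou_meas n) (hb.meas n)).pow_const 2
  have hfb : ∀ x : UnitAddCircle, |‖(fourier n x : ℂ) - b n x‖ ^ 2| ≤ 4 := fun x => by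
    rw [abs_of_nonneg (by positivity)]
    have h1 := norm_sub_two (norm_fou n x).le (hb.bd n x)
    have h2 := norm_nonneg ((fourier n x : ℂ) - b n x)
    nlinarith
  refine ⟨?_, ?_, ?_⟩
  · have h1 := h.int_g (g := fun x : UnitAddCircle => ‖(fourier n (t • x) : ℂ) - b n (t • x)‖ ^ 2)
      (hf.comp (nsmul_meas t)) (fun x => hfb _) (fun x => by positivity)
    have h2 := comp_t ht.om hf
    rw [h2, hb.dist h𝒱 h.sp.om n] at h1
    exact h1
  · have h1 := h.int_g hf hfb (fun x => by positivity)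
    rw [hb.dist h𝒱 h.sp.om n] at h1
    exact h1
  · exact h.int_g (g := fun x => 1 - ‖b n x‖ ^ 2) (measurable_const.sub (hb.nsq_meas n))
      (one_sub_abs (hb.bd n)) (one_sub_nonneg (hb.bd n))

/-- **the step** -/
lemma Cp.step (h : Cp p q c μ ν A k) (hp2 : 2 ≤ p) (h𝒱 : Idem 𝒱) (ha : Fam p 𝒱 μ a)
    (hb : Fam p 𝒱 ν b) (n : ℤ) (i : ℕ) :
    al μ k a (p ^ i) (c * n) ≤ al μ k a (p ^ i) n + (2 * (k * (ww μ a (c * n) - ww μ a n)) +
        8 * zz ν b n) -
      (∫ u, (1 - (fourier (((p ^ i : ℕ) : ℤ) * n - n) u : ℂ).re) *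
        (∫ x in sl c A u, ‖a (c * n) x‖ ^ 2 ∂μ) ∂ν) +
      2 * (Real.sqrt (al μ k a (p ^ i) (c * n) / k) *
        ((p : ℝ) ^ 2 * ph ν (((p ^ i : ℕ) : ℤ) * n - n))) := by
  have := h.pr
  have := h.fin
  have ht : Sy μ ν A (p ^ i) := h.sp.pow i
  set t : ℕ := p ^ i with htdef
  set N := NN c μ ν A with hN
  have hs := lc_meas c
  -- measurability
  have ma : ∀ m, Measurable (a m) := ha.meas
  have mat : ∀ m, Measurable (fun x => a m (t • x)) := fun m => (ha.meas m).comp (nsmul_meas t)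
  have mb : Measurable (b n) := hb.meas n
  have mbt : Measurable (fun x => b n (t • x)) := (hb.meas n).comp (nsmul_meas t)
  have mda : ∀ m, Measurable (fun x => ‖a m (t • x) - a m x‖) := fun m => nsub_meas (mat m) (ma m)
  have mdb : Measurable (fun x => ‖b n (t • x) - b n x‖) := nsub_meas mbt mb
  have bda : ∀ m x, ‖a m (t • x) - a m x‖ ≤ 2 := fun m x => norm_sub_two (ha.bd _ _) (ha.bd _ _)
  have bdb : ∀ x, ‖b n (t • x) - b n x‖ ≤ 2 := fun x => norm_sub_two (hb.bd _ _) (hb.bd _ _)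
  have sq4 : ∀ {y : ℝ}, 0 ≤ y → y ≤ 2 → |y ^ 2| ≤ 4 := fun {y} h0 h1 => by
    rw [abs_of_nonneg (by positivity)]; nlinarith
  -- the functions
  set f1 : UnitAddCircle × UnitAddCircle → ℝ :=
    fun z => ‖a n (t • (c • z.1 + z.2)) - a n (c • z.1 + z.2)‖ ^ 2 with hf1
  set f2 : UnitAddCircle × UnitAddCircle → ℝ :=
    fun z => ‖a (c * n) (t • z.1)‖ ^ 2 - ‖a n (t • (c • z.1 + z.2))‖ ^ 2 with hf2
  set f3 : UnitAddCircle × UnitAddCircle → ℝ :=
    fun z => ‖a (c * n) z.1‖ ^ 2 - ‖a n (c • z.1 + z.2)‖ ^ 2 with hf3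
  set f4 : UnitAddCircle × UnitAddCircle → ℝ :=
    fun z => ‖a (c * n) z.1‖ ^ 2 * (1 - (fourier ((t : ℤ) * n - n) z.2 : ℂ).re) with hf4
  set f5 : UnitAddCircle × UnitAddCircle → ℝ :=
    fun z => ‖(fourier n (t • z.2) : ℂ) - b n (t • z.2)‖ ^ 2 with hf5
  set f6 : UnitAddCircle × UnitAddCircle → ℝ :=
    fun z => ‖(fourier n z.2 : ℂ) - b n z.2‖ ^ 2 with hf6
  set f7 : UnitAddCircle × UnitAddCircle → ℝ := fun z => 1 - ‖b n z.2‖ ^ 2 with hf7
  set f8 : UnitAddCircle × UnitAddCircle → ℝ :=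
    fun z => ‖a (c * n) (t • z.1) - a (c * n) z.1‖ * ‖b n (t • z.2) - b n z.2‖ with hf8
  have g2 : Measurable (fun z : UnitAddCircle × UnitAddCircle => ‖a (c * n) (t • z.1)‖ ^ 2) :=
    ((mat (c * n)).comp measurable_fst).norm.pow_const 2
  have g2' : Measurable (fun z : UnitAddCircle × UnitAddCircle =>
    ‖a n (t • (c • z.1 + z.2))‖ ^ 2) := ((mat n).comp hs).norm.pow_const 2
  have g3 : Measurable (fun z : UnitAddCircle × UnitAddCircle => ‖a (c * n) z.1‖ ^ 2) :=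
    ((ma (c * n)).comp measurable_fst).norm.pow_const 2
  have g3' : Measurable (fun z : UnitAddCircle × UnitAddCircle => ‖a n (c • z.1 + z.2)‖ ^ 2) :=
    ((ma n).comp hs).norm.pow_const 2
  have j2 : Integrable (fun z : UnitAddCircle × UnitAddCircle => ‖a (c * n) (t • z.1)‖ ^ 2) N :=
    bir g2 fun z => nsq_abs (ha.bd (c * n)) _
  have j2' : Integrable (fun z : UnitAddCircle × UnitAddCircle =>
    ‖a n (t • (c • z.1 + z.2))‖ ^ 2) N := bir g2' fun z => nsq_abs (ha.bd n) _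
  have j3 : Integrable (fun z : UnitAddCircle × UnitAddCircle => ‖a (c * n) z.1‖ ^ 2) N :=
    bir g3 fun z => nsq_abs (ha.bd (c * n)) _
  have j3' : Integrable (fun z : UnitAddCircle × UnitAddCircle => ‖a n (c • z.1 + z.2)‖ ^ 2) N :=
    bir g3' fun z => nsq_abs (ha.bd n) _
  have i1 : Integrable f1 N :=
    bir (((mda n).comp hs).pow_const 2) (fun z => sq4 (norm_nonneg _) (bda n _))
  have i2 : Integrable f2 N := j2.sub j2'
  have i3 : Integrable f3 N := j3.sub j3'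
  have i4 : Integrable f4 N := by
    refine bir (C := 1 * 2) (g3.mul ((measurable_const.sub
      (Complex.measurable_re.comp (fou_meas _))).comp measurable_snd)) (fun z => ?_)
    rw [hf4]
    simp only
    rw [abs_mul]
    refine mul_le_mul (nsq_abs (ha.bd (c * n)) _) ?_ (abs_nonneg _) zero_le_one
    rw [abs_of_nonneg (re_nonneg _ _)]
    exact re_le_two _ _
  have mf6 : Measurable (fun x : UnitAddCircle => ‖(fourier n x : ℂ) - b n x‖ ^ 2) :=
    (nsub_meas (fou_meas n) (hb.meas n)).pow_const 2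
  have i5 : Integrable f5 N := bir ((mf6.comp (nsmul_meas t)).comp measurable_snd)
    (fun z => sq4 (norm_nonneg _) (norm_sub_two (norm_fou n _).le (hb.bd n _)))
  have i6 : Integrable f6 N := bir (mf6.comp measurable_snd)
    (fun z => sq4 (norm_nonneg _) (norm_sub_two (norm_fou n _).le (hb.bd n _)))
  have i7 : Integrable f7 N := bir ((measurable_const.sub (hb.nsq_meas n)).comp measurable_snd)
    (fun z => one_sub_abs (hb.bd n) _)
  have i8 : Integrable f8 N := by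
    refine bir (C := 2 * 2) (((mda (c * n)).comp measurable_fst).mul (mdb.comp measurable_snd))
      (fun z => ?_)
    rw [hf8]
    simp only
    rw [abs_of_nonneg (by positivity)]
    exact mul_le_mul (bda _ _) (bdb _) (norm_nonneg _) (by norm_num)
  obtain ⟨i9, e9⟩ := int8 i1 i2 i3 i4 i5 i6 i7 i8
  -- the left hand side
  have e0 : ∫ z, ‖a (c * n) (t • z.1) - a (c * n) z.1‖ ^ 2 ∂N = al μ k a t (c * n) :=
    h.int_f (f := fun x => ‖a (c * n) (t • x) - a (c * n) x‖ ^ 2) ((mda (c * n)).pow_const 2)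
  have e1 : ∫ z, f1 z ∂N = al μ k a t n :=
    h.int_s (f := fun x => ‖a n (t • x) - a n x‖ ^ 2) ((mda n).pow_const 2)
  have e3 : ∫ z, f3 z ∂N = k * (ww μ a (c * n) - ww μ a n) := by
    rw [hf3, integral_sub j3 j3']
    have r1 := h.int_f (f := fun x => ‖a (c * n) x‖ ^ 2) (ha.nsq_meas _)
    have r2 := h.int_s (f := fun x => ‖a n x‖ ^ 2) (ha.nsq_meas _)
    rw [← hN] at r1 r2
    rw [r1, r2, mul_sub]
    rfl
  have e2 : ∫ z, f2 z ∂N = k * (ww μ a (c * n) - ww μ a n) := by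
    rw [hf2, integral_sub j2 j2']
    have r1 := h.int_f (f := fun x => ‖a (c * n) (t • x)‖ ^ 2) ((mat _).norm.pow_const 2)
    have r2 := h.int_s (f := fun x => ‖a n (t • x)‖ ^ 2) ((mat _).norm.pow_const 2)
    have r3 := comp_t ht.mu (ha.nsq_meas (c * n))
    have r4 := comp_t ht.mu (ha.nsq_meas n)
    rw [← hN] at r1 r2
    rw [r1, r2, r3, r4, mul_sub]
    rfl
  have e4 : ∫ z, f4 z ∂N = ∫ u, (1 - (fourier ((t : ℤ) * n - n) u : ℂ).re) *
        (∫ x in sl c A u, ‖a (c * n) x‖ ^ 2 ∂μ) ∂ν :=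
    h.int_fg (f := fun x => ‖a (c * n) x‖ ^ 2)
      (g := fun u => 1 - (fourier ((t : ℤ) * n - n) u : ℂ).re) (ha.nsq_meas _)
      (measurable_const.sub (Complex.measurable_re.comp (fou_meas _)))
      (nsq_abs (ha.bd (c * n))) (D := 2) (fun x => by
        rw [abs_of_nonneg (re_nonneg _ _)]
        exact re_le_two _ _)
  obtain ⟨e5, e6, e7⟩ := h.parts h𝒱 hb n ht
  have e8 : ∫ z, f8 z ∂N ≤ Real.sqrt (al μ k a t (c * n) / k) *
      ((p : ℝ) ^ 2 * ph ν ((t : ℤ) * n - n)) := by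
    have r1 := h.cross (mda (c * n)) mdb (fun x => norm_nonneg _) (fun x => norm_nonneg _)
      (bda (c * n)) bdb
    have r2 : ∫ x, ‖a (c * n) (t • x) - a (c * n) x‖ ^ 2 ∂μ = al μ k a t (c * n) / k := by
      rw [al, mul_div_cancel_left₀ _ h.kp.ne']
    rw [r2] at r1
    exact r1.trans (mul_le_mul_of_nonneg_left (L1_le hp2 h.sp.om hb n i) (Real.sqrt_nonneg _))
  have hmain : ∫ z, ‖a (c * n) (t • z.1) - a (c * n) z.1‖ ^ 2 ∂N ≤
      ∫ z, (f1 z + f2 z + f3 z - f4 z + 2 * f5 z + 2 * f6 z + 4 * f7 z + 2 * f8 z) ∂N := by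
    refine integral_mono_ae ?_ i9 ?_
    · exact bir (((mda (c * n)).comp measurable_fst).pow_const 2)
        (fun z => sq4 (norm_nonneg _) (bda _ _))
    · filter_upwards [h.rel ha hb n, h.rel_t ha hb n ht] with z hz1 hz2
      have r := step_pt (X := a (c * n) z.1) (X' := a (c * n) (t • z.1)) (Y := b n z.2)
        (Y' := b n (t • z.2)) (e := (fourier n z.2 : ℂ)) (e' := (fourier n (t • z.2) : ℂ))
        (ha.bd _ _) (ha.bd _ _) (hb.bd _ _) (hb.bd _ _)
      rw [← hz1, ← hz2, fou_diff, ← re_eq] at r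
      simp only [hf1, hf2, hf3, hf4, hf5, hf6, hf7, hf8]
      linarith
  rw [e0, e9, e1, e2, e3, e4] at hmain
  linarith

/-- the rough bound -/
lemma Cp.rough (h : Cp p q c μ ν A k) (hp2 : 2 ≤ p) (h𝒱 : Idem 𝒱) (ha : Fam p 𝒱 μ a)
    (hb : Fam p 𝒱 ν b) (n : ℤ) (i : ℕ) :
    al μ k a (p ^ i) (c * n) ≤ 2 * al μ k a (p ^ i) n +
      4 * ((p : ℝ) ^ 2 * ph ν (((p ^ i : ℕ) : ℤ) * n - n)) + 4 * zz ν b n := by
  have := h.pr
  have := h.fin
  have ht : Sy μ ν A (p ^ i) := h.sp.pow i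
  set t : ℕ := p ^ i with htdef
  set N := NN c μ ν A with hN
  have hs := lc_meas c
  have mat : ∀ m, Measurable (fun x => a m (t • x)) := fun m => (ha.meas m).comp (nsmul_meas t)
  have mbt : Measurable (fun x => b n (t • x)) := (hb.meas n).comp (nsmul_meas t)
  have mda : ∀ m, Measurable (fun x => ‖a m (t • x) - a m x‖) := fun m =>
    nsub_meas (mat m) (ha.meas m)
  have mdb : Measurable (fun x => ‖b n (t • x) - b n x‖) := nsub_meas mbt (hb.meas n)
  have bda : ∀ m x, ‖a m (t • x) - a m x‖ ≤ 2 := fun m x => norm_sub_two (ha.bd _ _) (ha.bd _ _)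
  have bdb : ∀ x, ‖b n (t • x) - b n x‖ ≤ 2 := fun x => norm_sub_two (hb.bd _ _) (hb.bd _ _)
  have sq4 : ∀ {y : ℝ}, 0 ≤ y → y ≤ 2 → |y ^ 2| ≤ 4 := fun {y} h0 h1 => by
    rw [abs_of_nonneg (by positivity)]; nlinarith
  have i1 : Integrable (fun z : UnitAddCircle × UnitAddCircle =>
      ‖a n (t • (c • z.1 + z.2)) - a n (c • z.1 + z.2)‖ ^ 2) N :=
    bir (((mda n).comp hs).pow_const 2) (fun z => sq4 (norm_nonneg _) (bda n _))
  have i2 : Integrable (fun z : UnitAddCircle × UnitAddCircle =>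
      ‖b n (t • z.2) - b n z.2‖) N :=
    bir (mdb.comp measurable_snd) (C := 2) (fun z => by rw [abs_norm]; exact bdb _)
  have i3 : Integrable (fun z : UnitAddCircle × UnitAddCircle => 1 - ‖b n z.2‖ ^ 2) N :=
    bir ((measurable_const.sub (hb.nsq_meas n)).comp measurable_snd)
      (fun z => one_sub_abs (hb.bd n) _)
  have i4 : Integrable (fun z : UnitAddCircle × UnitAddCircle =>
      2 * ‖a n (t • (c • z.1 + z.2)) - a n (c • z.1 + z.2)‖ ^ 2 +
        4 * ‖b n (t • z.2) - b n z.2‖) N := (i1.const_mul 2).add (i2.const_mul 4)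
  have i5 : Integrable (fun z : UnitAddCircle × UnitAddCircle =>
      2 * ‖a n (t • (c • z.1 + z.2)) - a n (c • z.1 + z.2)‖ ^ 2 +
        4 * ‖b n (t • z.2) - b n z.2‖ + 4 * (1 - ‖b n z.2‖ ^ 2)) N := i4.add (i3.const_mul 4)
  have hmain : ∫ z, ‖a (c * n) (t • z.1) - a (c * n) z.1‖ ^ 2 ∂N ≤
      ∫ z, (2 * ‖a n (t • (c • z.1 + z.2)) - a n (c • z.1 + z.2)‖ ^ 2 +
        4 * ‖b n (t • z.2) - b n z.2‖ + 4 * (1 - ‖b n z.2‖ ^ 2)) ∂N := by
    refine integral_mono_ae ?_ i5 ?_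
    · exact bir (((mda (c * n)).comp measurable_fst).pow_const 2)
        (fun z => sq4 (norm_nonneg _) (bda _ _))
    · filter_upwards [h.rel ha hb n, h.rel_t ha hb n ht] with z hz1 hz2
      have r := rough_pt (X := a (c * n) z.1) (X' := a (c * n) (t • z.1)) (Y := b n z.2)
        (Y' := b n (t • z.2)) (ha.bd _ _) (ha.bd _ _) (hb.bd _ _) (hb.bd _ _)
      rw [← hz1, ← hz2] at r
      exact r
  have e0 : ∫ z, ‖a (c * n) (t • z.1) - a (c * n) z.1‖ ^ 2 ∂N = al μ k a t (c * n) :=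
    h.int_f (f := fun x => ‖a (c * n) (t • x) - a (c * n) x‖ ^ 2) ((mda (c * n)).pow_const 2)
  have e1 : ∫ z, ‖a n (t • (c • z.1 + z.2)) - a n (c • z.1 + z.2)‖ ^ 2 ∂N = al μ k a t n :=
    h.int_s (f := fun x => ‖a n (t • x) - a n x‖ ^ 2) ((mda n).pow_const 2)
  have e2 : ∫ z, ‖b n (t • z.2) - b n z.2‖ ∂N ≤ (p : ℝ) ^ 2 * ph ν ((t : ℤ) * n - n) := by
    refine le_trans ?_ (L1_le hp2 h.sp.om hb n i)
    exact h.int_g (g := fun x => ‖b n (t • x) - b n x‖) mdb (C := 2)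
      (fun x => by rw [abs_norm]; exact bdb _) (fun x => norm_nonneg _)
  obtain ⟨-, -, e3⟩ := h.parts h𝒱 hb n ht
  rw [e0, integral_add i4 (i3.const_mul 4), integral_add (i1.const_mul 2) (i2.const_mul 4),
    integral_const_mul, integral_const_mul, integral_const_mul, e1] at hmain
  linarith

/-- the start of the induction -/
lemma ph_start [IsFiniteMeasure ν] (h𝒱 : Idem 𝒱) (hb : Fam p 𝒱 ν b)
    (hνp : MeasurePreserving (fun x : UnitAddCircle => p • x) ν ν) (n : ℤ) (i : ℕ) :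
    ph ν (((p ^ i : ℕ) : ℤ) * n - n) ≤
      (∫ x, ‖b n (p ^ i • x) - b n x‖ ^ 2 ∂ν) + 4 * zz ν b n := by
  have ht : MeasurePreserving (fun x : UnitAddCircle => (p ^ i) • x) ν ν := (act_pow hνp).mp i
  set t : ℕ := p ^ i with htdef
  have mbt : Measurable (fun x => b n (t • x)) := (hb.meas n).comp (nsmul_meas t)
  have mdb : Measurable (fun x => ‖b n (t • x) - b n x‖ ^ 2) :=
    (nsub_meas mbt (hb.meas n)).pow_const 2
  have mf : Measurable (fun x : UnitAddCircle => ‖(fourier n x : ℂ) - b n x‖ ^ 2) :=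
    (nsub_meas (fou_meas n) (hb.meas n)).pow_const 2
  have sq4 : ∀ {y : ℝ}, 0 ≤ y → y ≤ 2 → |y ^ 2| ≤ 4 := fun {y} h0 h1 => by
    rw [abs_of_nonneg (by positivity)]; nlinarith
  have i1 : Integrable (fun x => ‖b n (t • x) - b n x‖ ^ 2) ν :=
    bir mdb (fun x => sq4 (norm_nonneg _) (norm_sub_two (hb.bd _ _) (hb.bd _ _)))
  have i2 : Integrable (fun x : UnitAddCircle => ‖(fourier n x : ℂ) - b n x‖ ^ 2) ν :=
    bir mf (fun x => sq4 (norm_nonneg _) (norm_sub_two (norm_fou _ _).le (hb.bd _ _)))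
  have i3 : Integrable (fun x : UnitAddCircle =>
      ‖(fourier n (t • x) : ℂ) - b n (t • x)‖ ^ 2) ν :=
    bir (mf.comp (nsmul_meas t))
      (fun x => sq4 (norm_nonneg _) (norm_sub_two (norm_fou _ _).le (hb.bd _ _)))
  have e1 : ∫ x, ‖(fourier n x : ℂ) - b n x‖ ^ 2 ∂ν = zz ν b n := hb.dist h𝒱 hνp n
  have e2 : ∫ x, ‖(fourier n (t • x) : ℂ) - b n (t • x)‖ ^ 2 ∂ν = zz ν b n := by
    rw [← e1]; exact comp_t ht mf
  have i4 : Integrable (fun x : UnitAddCircle => ‖b n (t • x) - b n x‖ ^ 2 +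
      2 * ‖(fourier n (t • x) : ℂ) - b n (t • x)‖ ^ 2) ν := i1.add (i3.const_mul 2)
  have h1 : ph ν ((t : ℤ) * n - n) ≤ ∫ x, (‖b n (t • x) - b n x‖ ^ 2 +
      2 * ‖(fourier n (t • x) : ℂ) - b n (t • x)‖ ^ 2 +
      2 * ‖(fourier n x : ℂ) - b n x‖ ^ 2) ∂ν := by
    refine integral_mono (re_integrable ν _) (i4.add (i2.const_mul 2)) fun x => ?_
    simp only
    rw [re_eq, ← fou_diff]
    have e3 : (fourier n (t • x) : ℂ) - fourier n x = (b n (t • x) - b n x) +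
      (((fourier n (t • x) : ℂ) - b n (t • x)) - ((fourier n x : ℂ) - b n x)) := by ring
    have e4 : ‖(fourier n (t • x) : ℂ) - fourier n x‖ ≤ ‖b n (t • x) - b n x‖ +
        (‖(fourier n (t • x) : ℂ) - b n (t • x)‖ + ‖(fourier n x : ℂ) - b n x‖) := by
      rw [e3]
      exact (norm_add_le _ _).trans (by
        linarith [norm_sub_le ((fourier n (t • x) : ℂ) - b n (t • x))
          ((fourier n x : ℂ) - b n x)])
    have := norm_nonneg ((fourier n (t • x) : ℂ) - fourier n x)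
    nlinarith [sq_nonneg (‖b n (t • x) - b n x‖ -
      (‖(fourier n (t • x) : ℂ) - b n (t • x)‖ + ‖(fourier n x : ℂ) - b n x‖)),
      sq_nonneg (‖(fourier n (t • x) : ℂ) - b n (t • x)‖ - ‖(fourier n x : ℂ) - b n x‖)]
  rw [integral_add i4 (i2.const_mul 2), integral_add i1 (i3.const_mul 2), integral_const_mul,
    integral_const_mul, e1, e2] at h1
  linarith

/-- multiplying the frequency -/
lemma ph_mul [IsFiniteMeasure ν] (c H : ℤ) : ph ν (c * H) ≤ (c : ℝ) ^ 2 * ph ν H := by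
  unfold ph
  rw [← integral_const_mul]
  refine integral_mono (re_integrable ν _) ((re_integrable ν _).const_mul _) fun x => ?_
  simp only
  have h1 : ∀ (K : ℤ), (fourier (-K) x : ℂ).re = (fourier K x : ℂ).re := by
    intro K
    rw [fourier_neg, Complex.conj_re]
  rcases Int.natAbs_eq c with h | h
  · have h2 := re_mul c.natAbs H x
    have e1 : ((c.natAbs : ℝ)) ^ 2 = (c : ℝ) ^ 2 := by
      rw [← Int.cast_natCast (R := ℝ) c.natAbs, Int.natCast_natAbs, Int.cast_abs, sq_abs]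
    rw [e1, ← h] at h2
    exact h2
  · have h2 := re_mul c.natAbs H x
    have e1 : ((c.natAbs : ℝ)) ^ 2 = (c : ℝ) ^ 2 := by
      rw [← Int.cast_natCast (R := ℝ) c.natAbs, Int.natCast_natAbs, Int.cast_abs, sq_abs]
    have e2 : c * H = -((c.natAbs : ℤ) * H) := by
      rw [← neg_mul, ← h]
    rw [e1] at h2
    rw [e2, h1]
    exact h2

end

end Pool.Agent.Zk32
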