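import Mathlib
import Pool.Agent.Zk32.Chn7

set_option autoImplicit false

open MeasureTheory Filter Topology Set
open scoped ENNReal

namespace Pool.Agent.Zk32

/-- a summable sequence of rigidity integrals forces torsion -/
lemma torsion_of_sum {ν : Measure UnitAddCircle} [IsFiniteMeasure ν] {c : ℤ} (hc : c ≠ 0) (H : ℤ)
    {B : ℝ} (hB : ∀ J, ∑ j ∈ Finset.range J, ph ν (c ^ j * H) ≤ B) :
    ∀ᵐ u ∂ν, ∃ j : ℕ, (c ^ j * H) • u = 0 := by
  have hm : ∀ j : ℕ, Measurable (fun u : UnitAddCircle => ENNReal.ofReal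
      (1 - (fourier (c ^ j * H) u : ℂ).re)) := fun j =>
    (measurable_const.sub (Complex.measurable_re.comp (fou_meas _))).ennreal_ofReal
  have h1 : ∫⁻ u, ∑' j : ℕ, ENNReal.ofReal (1 - (fourier (c ^ j * H) u : ℂ).re) ∂ν ≠ ∞ := by
    rw [lintegral_tsum (fun j => (hm j).aemeasurable)]
    have h2 : ∀ j : ℕ, ∫⁻ u, ENNReal.ofReal (1 - (fourier (c ^ j * H) u : ℂ).re) ∂ν =
        ENNReal.ofReal (ph ν (c ^ j * H)) := by
      intro j
      rw [ph, ofReal_integral_eq_lintegral_ofReal (re_integrable ν _)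
        (Eventually.of_forall fun u => re_nonneg _ u)]
    simp only [h2]
    have h3 : ∑' j : ℕ, ENNReal.ofReal (ph ν (c ^ j * H)) ≤ ENNReal.ofReal B := by
      refine ENNReal.tsum_le_of_sum_range_le fun J => ?_
      have h4 : ∀ j ∈ Finset.range J, 0 ≤ ph ν (c ^ j * H) := fun j _ =>
        integral_nonneg fun u => re_nonneg _ u
      rw [← ENNReal.ofReal_sum_of_nonneg h4]
      exact ENNReal.ofReal_le_ofReal (hB J)
    exact ne_top_of_le_ne_top ENNReal.ofReal_ne_top h3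
  have h2 := ae_lt_top (Measurable.tsum hm) h1
  filter_upwards [h2] with u hu
  have h3 := ENNReal.tendsto_atTop_zero_of_tsum_ne_top hu.ne
  have h4 : Tendsto (fun j : ℕ => 1 - (fourier (c ^ j * H) u : ℂ).re) atTop (𝓝 0) := by
    have h5 := (ENNReal.tendsto_toReal ENNReal.zero_ne_top).comp h3
    rw [ENNReal.toReal_zero] at h5
    refine h5.congr fun j => ?_
    simp only [Function.comp]
    rw [ENNReal.toReal_ofReal (re_nonneg _ u)]
  set y : ℕ → ℝ := fun j => ‖(c ^ j * H) • u‖ with hy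
  have hy0 : ∀ j, 0 ≤ y j := fun j => norm_nonneg _
  have h5 : Tendsto y atTop (𝓝 0) := by
    have h6 : Tendsto (fun j : ℕ => Real.sqrt ((1 - (fourier (c ^ j * H) u : ℂ).re) / 8)) atTop
        (𝓝 0) := by
      have h7 := (Real.continuous_sqrt.tendsto _).comp (h4.div_const 8)
      rw [zero_div, Real.sqrt_zero] at h7
      exact h7
    refine squeeze_zero hy0 (fun j => ?_) h6
    apply Real.le_sqrt_of_sq_le
    have := re_lower (c ^ j * H) u
    rw [le_div_iff₀ (by norm_num)]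
    change ‖(c ^ j * H) • u‖ ^ 2 * 8 ≤ _
    linarith
  have hcR : (1 : ℝ) ≤ |(c : ℝ)| := by
    have h6 : 1 ≤ |c| := Int.one_le_abs hc
    rw [← Int.cast_abs]
    exact_mod_cast h6
  have h6 : ∀ᶠ j in atTop, |(c : ℝ)| * y j ≤ 1 / 2 := by
    have h7 := h5.const_mul |(c : ℝ)|
    rw [mul_zero] at h7
    exact h7.eventually (eventually_le_nhds (by norm_num))
  obtain ⟨J, hJ⟩ := eventually_atTop.mp h6
  have h7 : ∀ j, J ≤ j → y j ≤ y (j + 1) := by
    intro j hj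
    have h8 := zsmul_norm_eq (x := (c ^ j * H) • u) c (hJ j hj)
    have h9 : c • (c ^ j * H) • u = (c ^ (j + 1) * H) • u := by
      rw [smul_smul]; congr 1; ring
    rw [h9] at h8
    change y (j + 1) = |(c : ℝ)| * y j at h8
    rw [h8]
    have := hy0 j
    nlinarith
  have h8 : ∀ i, y J ≤ y (J + i) := by
    intro i
    induction i with
    | zero => exact le_rfl
    | succ i ih => exact ih.trans (h7 (J + i) (by omega))
  have h9 : y J ≤ 0 := by
    refine ge_of_tendsto h5 ?_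
    filter_upwards [eventually_ge_atTop J] with j hj
    obtain ⟨i, rfl⟩ := Nat.exists_eq_add_of_le hj
    exact h8 i
  exact ⟨J, norm_eq_zero.mp (le_antisymm h9 (hy0 J))⟩

section
variable {p q : ℕ} {c : ℤ} {μ ν : Measure UnitAddCircle} {A : Set UnitAddCircle} {k : ℝ}
  {𝒱 : Ultrafilter ℕ} {a b : ℤ → UnitAddCircle → ℂ}

/-- the box hypothesis -/
def BoxH (p q : ℕ) (c : ℤ) (μ ν : Measure UnitAddCircle) (A : Set UnitAddCircle) (L : ℕ)
    (w₀ q₀ : ℝ) : Prop :=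
  ∀ β : UnitAddCircle → ℝ, Measurable β → (∀ x, 0 ≤ β x) → (∀ x, β x ≤ 1) → w₀ ≤ ∫ x, β x ∂μ →
    ∀ᵐ u ∂ν, (L : ℝ) ^ 2 * q₀ ≤ ∑ i ∈ Finset.range L, ∑ l ∈ Finset.range L,
      ∫ x in sl c A ((p ^ i * q ^ l) • u), β x ∂μ

lemma box_factor {p q L i l : ℕ} (hi : i < L) (hl : l < L) :
    p ^ L * q ^ L = (p ^ (L - i) * q ^ (L - l)) * (p ^ i * q ^ l) := by
  calc p ^ L * q ^ L = p ^ (L - i + i) * q ^ (L - l + l) := by
        rw [Nat.sub_add_cancel hi.le, Nat.sub_add_cancel hl.le]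
    _ = _ := by rw [pow_add, pow_add]; ring

lemma box_smul {p q L i l : ℕ} (hi : i < L) (hl : l < L) (u : UnitAddCircle) :
    (p ^ L * q ^ L) • u = (p ^ (L - i) * q ^ (L - l)) • ((p ^ i * q ^ l) • u) := by
  rw [← mul_smul, ← box_factor hi hl]

lemma box_le {p q L i l : ℕ} (hp : 0 < p) (hq : 0 < q) :
    ((p ^ (L - i) * q ^ (L - l) : ℕ) : ℝ) ^ 2 ≤ ((p ^ L * q ^ L : ℕ) : ℝ) ^ 2 := by
  have h1 : p ^ (L - i) * q ^ (L - l) ≤ p ^ L * q ^ L :=
    Nat.mul_le_mul (Nat.pow_le_pow_right hp (Nat.sub_le _ _))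
      (Nat.pow_le_pow_right hq (Nat.sub_le _ _))
  have h2 : ((p ^ (L - i) * q ^ (L - l) : ℕ) : ℝ) ≤ ((p ^ L * q ^ L : ℕ) : ℝ) := by
    exact_mod_cast h1
  exact pow_le_pow_left₀ (by positivity) h2 2

/-- the box inequality for the noise characters -/
lemma Cp.box_ph (h : Cp p q c μ ν A k) (hp0 : 0 < p) (hq0 : 0 < q) {L : ℕ} (hL : 0 < L)
    {w₀ q₀ : ℝ} (hbox : BoxH p q c μ ν A L w₀ q₀) (ha : Fam p 𝒱 μ a) {n : ℤ}
    (hw : w₀ ≤ ww μ a n) (H : ℤ) :
    q₀ * ph ν H ≤ ((p ^ L * q ^ L : ℕ) : ℝ) ^ 2 *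
      ∫ u, (1 - (fourier H u : ℂ).re) * (∫ x in sl c A u, ‖a n x‖ ^ 2 ∂μ) ∂ν := by
  refine h.box hL (ha.nsq_meas n) (fun x => by positivity) (ha.nsq_le n)
    (hbox _ (ha.nsq_meas n) (fun x => by positivity) (ha.nsq_le n) hw)
    (measurable_const.sub (Complex.measurable_re.comp (fou_meas H))) (fun x => re_nonneg H x)
    (fun x => re_le_two H x) (Eventually.of_forall fun u i hi l hl => ?_)
  rw [box_smul hi hl, fou_nsmul]
  exact (re_mul _ _ _).trans (mul_le_mul_of_nonneg_right (box_le hp0 hq0) (re_nonneg _ _))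

/-- the box inequality for the defect -/
lemma Cp.box_zz (h : Cp p q c μ ν A k) (hp0 : 0 < p) (hq0 : 0 < q) {L : ℕ} (hL : 0 < L)
    {w₀ q₀ : ℝ} (hbox : BoxH p q c μ ν A L w₀ q₀) (ha : Fam p 𝒱 μ a) (hb : Fam p 𝒱 ν b) {n : ℤ}
    (hw : w₀ ≤ ww μ a (c * n)) :
    q₀ * zz ν b n ≤ ((p ^ L * q ^ L : ℕ) : ℝ) ^ 2 * (k * (ww μ a (c * n) - ww μ a n)) := by
  have := h.pr
  have := h.fin
  rw [h.diff ha hb n]
  refine h.box hL (ha.nsq_meas _) (fun x => by positivity) (ha.nsq_le _)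
    (hbox _ (ha.nsq_meas _) (fun x => by positivity) (ha.nsq_le _) hw)
    (measurable_const.sub (hb.nsq_meas n)) (one_sub_nonneg (hb.bd n)) (C := 1)
    (fun x => by have := one_sub_abs (hb.bd n) x; exact (le_abs_self _).trans this) ?_
  have key : ∀ᵐ u ∂ν, ∀ i l : ℕ, ∀ i' l' : ℕ, 1 - ‖b n ((p ^ i' * q ^ l') • ((p ^ i * q ^ l) • u))‖ ^ 2 ≤
      ((p ^ i' * q ^ l' : ℕ) : ℝ) ^ 2 * (1 - ‖b n ((p ^ i * q ^ l) • u)‖ ^ 2) := by
    rw [ae_all_iff]; intro i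
    rw [ae_all_iff]; intro l
    rw [ae_all_iff]; intro i'
    rw [ae_all_iff]; intro l'
    have h1 := hb.grow h.sp.om ((h.sp.pow i').mul (h.sq.pow l')).om n
    exact ((h.sp.pow i).mul (h.sq.pow l)).om.quasiMeasurePreserving.ae h1
  filter_upwards [key] with u hu i hi l hl
  rw [box_smul hi hl]
  exact (hu i l (L - i) (L - l)).trans (mul_le_mul_of_nonneg_right (box_le hp0 hq0)
    (one_sub_nonneg (hb.bd n) _))

end

end Pool.Agent.Zk32
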