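import Mathlib
import Pool.Agent.Zk32.Chn8

set_option autoImplicit false

open MeasureTheory Filter Topology Set
open scoped ENNReal

namespace Pool.Agent.Zk32

section
variable {p q : ℕ} {c : ℤ} {μ ν : Measure UnitAddCircle} {A : Set UnitAddCircle} {k : ℝ}
  {𝒱 : Ultrafilter ℕ} {a b : ℤ → UnitAddCircle → ℂ}

lemma zz_nonneg (hb : Fam p 𝒱 ν b) (n : ℤ) : 0 ≤ zz ν b n :=
  integral_nonneg (one_sub_nonneg (hb.bd n))

lemma ww_nonneg (μ : Measure UnitAddCircle) (a : ℤ → UnitAddCircle → ℂ) (n : ℤ) :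
    0 ≤ ww μ a n := integral_nonneg fun x => by positivity

lemma ww_le_one [IsProbabilityMeasure μ] (ha : Fam p 𝒱 μ a) (n : ℤ) : ww μ a n ≤ 1 := by
  have hi : Integrable (fun x => ‖a n x‖ ^ 2) μ := bir (ha.nsq_meas n) (nsq_abs (ha.bd n))
  calc ∫ x, ‖a n x‖ ^ 2 ∂μ ≤ ∫ _, (1 : ℝ) ∂μ :=
        integral_mono hi (integrable_const _) (ha.nsq_le n)
    _ = 1 := by simp

lemma Cp.mono (h : Cp p q c μ ν A k) (ha : Fam p 𝒱 μ a) (hb : Fam p 𝒱 ν b) (n : ℤ) :
    0 ≤ ww μ a (c * n) - ww μ a n := by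
  have h1 := h.diff ha hb n
  have h2 : 0 ≤ ∫ u, (1 - ‖b n u‖ ^ 2) * (∫ x in sl c A u, ‖a (c * n) x‖ ^ 2 ∂μ) ∂ν :=
    integral_nonneg fun u => mul_nonneg (one_sub_nonneg (hb.bd n) u)
      (integral_nonneg fun x => by positivity)
  rw [← h1] at h2
  exact (mul_nonneg_iff_of_pos_left h.kp).mp h2

/-- a bounded increasing sequence is almost constant from some point on -/
lemma exists_tail {w : ℕ → ℝ} (hm : ∀ j, w j ≤ w (j + 1)) (hb : ∀ j, w j ≤ 1) {ε : ℝ}
    (hε : 0 < ε) : ∃ j₀, ∀ J, w (j₀ + J) - w j₀ ≤ ε := by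
  have hmono : Monotone w := monotone_nat_of_le_succ hm
  have hbd : BddAbove (Set.range w) := ⟨1, by rintro _ ⟨j, rfl⟩; exact hb j⟩
  obtain ⟨j₀, hj₀⟩ := exists_lt_of_lt_ciSup (show (⨆ j, w j) - ε < ⨆ j, w j by linarith)
  refine ⟨j₀, fun J => ?_⟩
  have := le_ciSup hbd (j₀ + J)
  linarith

/-- **torsion of the noise** -/
theorem Cp.torsion (h : Cp p q c μ ν A k) (hp2 : 2 ≤ p) (hq0 : 0 < q) (hc : c ≠ 0)
    (h𝒱 : Idem 𝒱) (htop : (𝒱 : Filter ℕ) ≤ atTop) (ha : Fam p 𝒱 μ a) (hb : Fam p 𝒱 ν b)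
    {m : ℤ} (hm0 : m ≠ 0) {L : ℕ} (hL : 0 < L) {q₀ : ℝ} (hq₀ : 0 < q₀)
    (hbox : BoxH p q c μ ν A L (ww μ a m) q₀) :
    ∀ᵐ u ∂ν, ∃ K : ℤ, K ≠ 0 ∧ K • u = 0 := by
  have := h.pr
  have := h.fin
  have hp0 : 0 < p := by omega
  have hkp := h.kp
  set Kc : ℝ := ((p ^ L * q ^ L : ℕ) : ℝ) ^ 2 with hKc
  have hKc0 : 0 < Kc := by
    have : 0 < p ^ L * q ^ L := Nat.mul_pos (pow_pos hp0 _) (pow_pos hq0 _)
    have : (0 : ℝ) < ((p ^ L * q ^ L : ℕ) : ℝ) := by exact_mod_cast this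
    positivity
  set c₄ : ℝ := q₀ / Kc with hc₄
  have hc₄0 : 0 < c₄ := by positivity
  have hpR : (0 : ℝ) < p := by exact_mod_cast hp0
  -- the frequencies
  set n : ℕ → ℤ := fun j => c ^ j * m with hn
  have hns : ∀ j, n (j + 1) = c * n j := fun j => by rw [hn]; simp only; ring
  have hmono : ∀ j, ww μ a (n j) ≤ ww μ a (n (j + 1)) := by
    intro j
    have := h.mono ha hb (n j)
    rw [hns]; linarith
  have hw0 : ∀ j, ww μ a m ≤ ww μ a (n j) := by
    intro j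
    induction j with
    | zero => rw [hn]; simp
    | succ j ih => exact ih.trans (hmono j)
  have hz : ∀ j, zz ν b (n j) ≤ k / c₄ * (ww μ a (n (j + 1)) - ww μ a (n j)) := by
    intro j
    have h1 := h.box_zz hp0 hq0 hL hbox ha hb (n := n j) (by rw [← hns]; exact hw0 _)
    rw [← hns] at h1
    have e1 : k / c₄ * (ww μ a (n (j + 1)) - ww μ a (n j)) =
        Kc * (k * (ww μ a (n (j + 1)) - ww μ a (n j))) / q₀ := by
      rw [hc₄]; field_simp
    rw [e1, le_div_iff₀ hq₀, mul_comm]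
    exact h1
  have hph : ∀ j (H : ℤ), c₄ * ph ν H ≤ ∫ u, (1 - (fourier H u : ℂ).re) *
      (∫ x in sl c A u, ‖a (n (j + 1)) x‖ ^ 2 ∂μ) ∂ν := by
    intro j H
    have h1 := h.box_ph hp0 hq0 hL hbox ha (hw0 (j + 1)) H
    rw [hc₄, div_mul_eq_mul_div, div_le_iff₀ hKc0, mul_comm _ Kc]
    exact h1
  -- the constants
  obtain ⟨δ, hδ, hboot⟩ := bootstrap (k := k) (c₄ := c₄) (P := (p : ℝ) ^ 2) (C := (c : ℝ) ^ 2)
    hkp hc₄0 (by positivity) (by positivity)
  set ε : ℝ := δ / (2 * (2 * k + 8 * (k / c₄))) with hε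
  have hε0 : 0 < ε := by positivity
  have hεδ : (2 * k + 8 * (k / c₄)) * ε = δ / 2 := by
    rw [hε]; field_simp
  obtain ⟨j₀, hj₀⟩ := exists_tail hmono (fun j => ww_le_one ha _) hε0
  have hz0 : 4 * zz ν b (n j₀) ≤ δ / 2 := by
    have h1 := hz j₀
    have h2 := hj₀ 1
    have h3 : k / c₄ * (ww μ a (n (j₀ + 1)) - ww μ a (n j₀)) ≤ k / c₄ * ε :=
      mul_le_mul_of_nonneg_left h2 (by positivity)
    have h4 : 0 < k * ε := by positivity
    have h5 : 0 < k / c₄ * ε := by positivity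
    have h6 : (2 * k + 8 * (k / c₄)) * ε = 2 * (k * ε) + 8 * (k / c₄ * ε) := by ring
    linarith
  -- the time
  have s1 : ∀ᶠ i in (𝒱 : Filter ℕ), al μ k a (p ^ i) (n j₀) ≤ δ := by
    have h1 := (ha.strong h𝒱 h.sp.mu (n j₀)).const_mul k
    rw [mul_zero] at h1
    filter_upwards [h1.eventually (eventually_le_nhds hδ)] with i hi
    exact hi
  have s2 : ∀ᶠ i in (𝒱 : Filter ℕ), ∫ x, ‖b (n j₀) (p ^ i • x) - b (n j₀) x‖ ^ 2 ∂ν ≤ δ / 2 :=
    (hb.strong h𝒱 h.sp.om (n j₀)).eventually (eventually_le_nhds (by linarith))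
  obtain ⟨i, hi1, hi2, hi3⟩ := (s1.and (s2.and (htop (eventually_ge_atTop 1)))).exists
  set t : ℤ := ((p ^ i : ℕ) : ℤ) with ht
  have ht1 : t - 1 ≠ 0 := by
    have h1 : 1 < p ^ i := Nat.one_lt_pow (by omega) (by omega)
    have h2 : (1 : ℤ) < t := by rw [ht]; exact_mod_cast h1
    omega
  set H : ℕ → ℤ := fun j => t * n (j₀ + j) - n (j₀ + j) with hH
  have hHs : ∀ j, H (j + 1) = c * H j := by
    intro j
    rw [hH]
    simp only
    rw [← add_assoc, hns]; ring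
  have hHj : ∀ j, H j = c ^ j * H 0 := by
    intro j
    induction j with
    | zero => simp
    | succ j ih => rw [hHs, ih]; ring
  have hH0 : H 0 ≠ 0 := by
    have e1 : H 0 = (t - 1) * (c ^ j₀ * m) := by
      rw [hH, hn]; simp only [add_zero]; ring
    rw [e1]
    exact mul_ne_zero ht1 (mul_ne_zero (pow_ne_zero _ hc) hm0)
  have hfin := hboot (fun j => al μ k a (p ^ i) (n (j₀ + j))) (fun j => ph ν (H j))
    (fun j => 2 * (k * (ww μ a (n (j₀ + j + 1)) - ww μ a (n (j₀ + j)))) +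
      8 * zz ν b (n (j₀ + j)))
    (fun j => mul_nonneg hkp.le (integral_nonneg fun x => by positivity))
    (fun j => integral_nonneg fun u => re_nonneg _ u)
    (fun j => by
      have h1 := hmono (j₀ + j)
      have h2 := zz_nonneg hb (n (j₀ + j))
      have h3 : 0 ≤ k * (ww μ a (n (j₀ + j + 1)) - ww μ a (n (j₀ + j))) :=
        mul_nonneg hkp.le (by linarith)
      linarith)
    (fun J => by
      have h1 : ∑ j ∈ Finset.range J, (2 * (k * (ww μ a (n (j₀ + j + 1)) - ww μ a (n (j₀ + j)))) +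
          8 * zz ν b (n (j₀ + j))) ≤ ∑ j ∈ Finset.range J, (2 * k + 8 * (k / c₄)) *
            (ww μ a (n (j₀ + (j + 1))) - ww μ a (n (j₀ + j))) := by
        refine Finset.sum_le_sum fun j _ => ?_
        have h2 := hz (j₀ + j)
        rw [← add_assoc]
        have e1 : (2 * k + 8 * (k / c₄)) * (ww μ a (n (j₀ + j + 1)) - ww μ a (n (j₀ + j))) =
          2 * (k * (ww μ a (n (j₀ + j + 1)) - ww μ a (n (j₀ + j)))) +
            8 * (k / c₄ * (ww μ a (n (j₀ + j + 1)) - ww μ a (n (j₀ + j)))) := by ring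
        rw [e1]
        linarith
      refine h1.trans ?_
      rw [← Finset.mul_sum, Finset.sum_range_sub (fun j => ww μ a (n (j₀ + j)))]
      have h2 := hj₀ J
      have h3 : (2 * k + 8 * (k / c₄)) * (ww μ a (n (j₀ + J)) - ww μ a (n j₀)) ≤
          (2 * k + 8 * (k / c₄)) * ε := mul_le_mul_of_nonneg_left h2 (by positivity)
      rw [add_zero]
      linarith)
    (by simpa using hi1)
    (by
      have h1 := ph_start h𝒱 hb h.sp.om (n j₀) i
      change ph ν (t * n (j₀ + 0) - n (j₀ + 0)) ≤ δ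
      rw [add_zero]
      linarith)
    (fun j => by
      have h1 := h.step hp2 h𝒱 ha hb (n (j₀ + j)) i
      have h2 := hph (j₀ + j) (H j)
      rw [← hns] at h1
      rw [← add_assoc]
      change al μ k a (p ^ i) (n (j₀ + j + 1)) ≤ _
      change c₄ * ph ν (t * n (j₀ + j) - n (j₀ + j)) ≤ _ at h2
      change _ ≤ _ - (c₄ - 2 * (p : ℝ) ^ 2 * Real.sqrt (al μ k a (p ^ i) (n (j₀ + j + 1)) / k)) *
        ph ν (t * n (j₀ + j) - n (j₀ + j))
      linarith)
    (fun j => by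
      have h1 := h.rough hp2 h𝒱 ha hb (n (j₀ + j)) i
      have h2 := zz_nonneg hb (n (j₀ + j))
      have h3 : 0 ≤ k * (ww μ a (n (j₀ + j + 1)) - ww μ a (n (j₀ + j))) := by
        have := hmono (j₀ + j)
        exact mul_nonneg hkp.le (by linarith)
      rw [← hns] at h1
      rw [← add_assoc]
      change _ ≤ _ + 4 * (p : ℝ) ^ 2 * ph ν (t * n (j₀ + j) - n (j₀ + j)) + _
      linarith)
    (fun j => by
      rw [hHs]
      exact ph_mul c (H j))
  have hlast := torsion_of_sum (ν := ν) hc (H 0) (B := 4 * δ / c₄) (fun J => by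
    have h1 := hfin J
    refine le_trans (le_of_eq ?_) h1
    refine Finset.sum_congr rfl fun j _ => ?_
    rw [hHj j])
  filter_upwards [hlast] with u hu
  obtain ⟨j, hj⟩ := hu
  exact ⟨c ^ j * H 0, mul_ne_zero (pow_ne_zero _ hc) hH0, hj⟩

end

end Pool.Agent.Zk32
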