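import Mathlib
import Pool.Agent.Zk32.Chn9

set_option autoImplicit false

open MeasureTheory Filter Topology Set
open scoped ENNReal

namespace Pool.Agent.Zk32

lemma shift_sum {f : ℕ → ℕ → ℝ} (h0 : ∀ i l, 0 ≤ f i l) (h1 : ∀ i l, f i l ≤ 1) (L : ℕ) :
    |(∑ i ∈ Finset.range L, ∑ l ∈ Finset.range L, f (i + 1) l) -
      ∑ i ∈ Finset.range L, ∑ l ∈ Finset.range L, f i l| ≤ L := by
  have e : (∑ i ∈ Finset.range L, ∑ l ∈ Finset.range L, f (i + 1) l) -
      ∑ i ∈ Finset.range L, ∑ l ∈ Finset.range L, f i l =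
      (∑ l ∈ Finset.range L, f L l) - ∑ l ∈ Finset.range L, f 0 l := by
    rw [← Finset.sum_sub_distrib]
    exact Finset.sum_range_sub (fun i => ∑ l ∈ Finset.range L, f i l) L
  have b : ∀ i, 0 ≤ ∑ l ∈ Finset.range L, f i l ∧ ∑ l ∈ Finset.range L, f i l ≤ L := by
    intro i
    refine ⟨Finset.sum_nonneg fun l _ => h0 i l, ?_⟩
    calc ∑ l ∈ Finset.range L, f i l ≤ ∑ _l ∈ Finset.range L, (1 : ℝ) :=
          Finset.sum_le_sum fun l _ => h1 i l
      _ = L := by simp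
  rw [e, abs_le]
  constructor <;> linarith [(b L).1, (b L).2, (b 0).1, (b 0).2]

/-- the averages over a box -/
noncomputable def AB (p q L : ℕ) (β : UnitAddCircle → ℝ) (x : UnitAddCircle) : ℝ :=
  ((L : ℝ) ^ 2)⁻¹ * ∑ i ∈ Finset.range L, ∑ l ∈ Finset.range L, β ((p ^ i * q ^ l) • x)

section
variable {p q L : ℕ} {β : UnitAddCircle → ℝ}

lemma AB_meas (hβ : Measurable β) : Measurable (AB p q L β) := by
  unfold AB
  refine Measurable.const_mul (Finset.measurable_fun_sum _ fun i _ => ?_) _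
  exact Finset.measurable_fun_sum _ fun j _ => hβ.comp (nsmul_meas _)

lemma AB_nonneg (h0 : ∀ x, 0 ≤ β x) (x : UnitAddCircle) : 0 ≤ AB p q L β x := by
  unfold AB
  exact mul_nonneg (by positivity) (Finset.sum_nonneg fun i _ => Finset.sum_nonneg fun l _ => h0 _)

lemma AB_le_one (h1 : ∀ x, β x ≤ 1) (x : UnitAddCircle) : AB p q L β x ≤ 1 := by
  unfold AB
  have h2 : ∑ i ∈ Finset.range L, ∑ l ∈ Finset.range L, β ((p ^ i * q ^ l) • x) ≤ (L : ℝ) ^ 2 := by
    calc ∑ i ∈ Finset.range L, ∑ l ∈ Finset.range L, β ((p ^ i * q ^ l) • x)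
        ≤ ∑ _i ∈ Finset.range L, ∑ _l ∈ Finset.range L, (1 : ℝ) :=
          Finset.sum_le_sum fun i _ => Finset.sum_le_sum fun l _ => h1 _
      _ = (L : ℝ) ^ 2 := by simp; ring
  rcases Nat.eq_zero_or_pos L with h | h
  · simp [h]
  · have hL : (0 : ℝ) < (L : ℝ) ^ 2 := by positivity
    rw [inv_mul_le_iff₀ hL, mul_one]
    exact h2

lemma AB_p (hL : 0 < L) (h0 : ∀ x, 0 ≤ β x) (h1 : ∀ x, β x ≤ 1) (x : UnitAddCircle) :
    |AB p q L β (p • x) - AB p q L β x| ≤ (L : ℝ)⁻¹ := by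
  have hLR : (0 : ℝ) < L := by exact_mod_cast hL
  have h2 := shift_sum (f := fun i l => β ((p ^ i * q ^ l) • x)) (fun i l => h0 _)
    (fun i l => h1 _) L
  have e : ∀ i l : ℕ, (p ^ i * q ^ l) • (p • x) = (p ^ (i + 1) * q ^ l) • x := by
    intro i l
    rw [smul_smul]; congr 1; ring
  unfold AB
  simp only [e]
  rw [← mul_sub, abs_mul, abs_of_nonneg (by positivity : (0 : ℝ) ≤ ((L : ℝ) ^ 2)⁻¹)]
  calc ((L : ℝ) ^ 2)⁻¹ * _ ≤ ((L : ℝ) ^ 2)⁻¹ * L := mul_le_mul_of_nonneg_left h2 (by positivity)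
    _ = (L : ℝ)⁻¹ := by field_simp

lemma AB_q (hL : 0 < L) (h0 : ∀ x, 0 ≤ β x) (h1 : ∀ x, β x ≤ 1) (x : UnitAddCircle) :
    |AB p q L β (q • x) - AB p q L β x| ≤ (L : ℝ)⁻¹ := by
  have h2 := AB_p (p := q) (q := p) hL h0 h1 x
  have e : ∀ y, AB p q L β y = AB q p L β y := by
    intro y
    unfold AB
    rw [Finset.sum_comm]
    simp only [mul_comm (p ^ _) (q ^ _)]
  rw [e, e]
  exact h2

lemma AB_int {μ ω : Measure UnitAddCircle} [IsProbabilityMeasure μ] {c : ℤ}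
    {A : Set UnitAddCircle} (hA : MeasurableSet A) (hp : Sy μ ω A p) (hq : Sy μ ω A q)
    (hβ : Measurable β) (h0 : ∀ x, 0 ≤ β x) (h1 : ∀ x, β x ≤ 1) (u : UnitAddCircle) :
    ∫ x in sl c A u, AB p q L β x ∂μ = ((L : ℝ) ^ 2)⁻¹ * ∑ i ∈ Finset.range L,
      ∑ l ∈ Finset.range L, ∫ x in sl c A ((p ^ i * q ^ l) • u), β x ∂μ := by
  have hbi : ∀ (n : ℕ), Integrable (fun x : UnitAddCircle => β (n • x)) μ := fun n =>
    bir (hβ.comp (nsmul_meas n)) (C := 1) fun x => by rw [abs_of_nonneg (h0 _)]; exact h1 _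
  unfold AB
  rw [integral_const_mul, integral_finsetSum]
  · congr 1
    refine Finset.sum_congr rfl fun i _ => ?_
    rw [integral_finsetSum]
    · refine Finset.sum_congr rfl fun j _ => ?_
      rw [((hp.pow i).mul (hq.pow j)).int hA c hβ u]
    · intro j _; exact (hbi _).integrableOn
  · intro i _
    exact integrable_finsetSum _ fun j _ => (hbi _).integrableOn

lemma AB_int_univ {μ : Measure UnitAddCircle} [IsProbabilityMeasure μ]
    (hp : MeasurePreserving (fun x : UnitAddCircle => p • x) μ μ)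
    (hq : MeasurePreserving (fun x : UnitAddCircle => q • x) μ μ) (hL : 0 < L)
    (hβ : Measurable β) (h0 : ∀ x, 0 ≤ β x) (h1 : ∀ x, β x ≤ 1) :
    ∫ x, AB p q L β x ∂μ = ∫ x, β x ∂μ := by
  have hLR : (0 : ℝ) < L := by exact_mod_cast hL
  have hbi : ∀ (n : ℕ), Integrable (fun x : UnitAddCircle => β (n • x)) μ := fun n =>
    bir (hβ.comp (nsmul_meas n)) (C := 1) fun x => by rw [abs_of_nonneg (h0 _)]; exact h1 _
  have hmp : ∀ i l : ℕ, MeasurePreserving (fun x : UnitAddCircle => (p ^ i * q ^ l) • x) μ μ := by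
    intro i l
    have h2 := ((act_pow hp).mp i).comp ((act_pow hq).mp l)
    convert h2 using 1
    funext x
    simp only [Function.comp, mul_smul]
  unfold AB
  rw [integral_const_mul, integral_finsetSum _ (fun i _ => integrable_finsetSum _
    fun l _ => hbi _)]
  have h2 : ∀ i ∈ Finset.range L, ∫ x, (∑ l ∈ Finset.range L, β ((p ^ i * q ^ l) • x)) ∂μ =
      L * ∫ x, β x ∂μ := by
    intro i _
    rw [integral_finsetSum _ (fun l _ => hbi _)]
    have h3 : ∀ l ∈ Finset.range L, ∫ x, β ((p ^ i * q ^ l) • x) ∂μ = ∫ x, β x ∂μ := fun l _ =>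
      comp_t (hmp i l) hβ
    rw [Finset.sum_congr rfl h3, Finset.sum_const, Finset.card_range, nsmul_eq_mul]
  rw [Finset.sum_congr rfl h2, Finset.sum_const, Finset.card_range, nsmul_eq_mul]
  field_simp

end

lemma ultra_finite {X : Type*} {𝒰 : Ultrafilter ℕ} (F : Finset X) {v : ℕ → X}
    (h : ∀ i, v i ∈ F) : ∃ w ∈ F, ∀ᶠ i in (𝒰 : Filter ℕ), v i = w := by
  have h1 : (⋃ w ∈ (F : Set X), {i | v i = w}) ∈ 𝒰 := by
    have h2 : (⋃ w ∈ (F : Set X), {i | v i = w}) = Set.univ := by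
      ext i
      simp only [Set.mem_iUnion, Set.mem_univ, iff_true]
      exact ⟨v i, h i, rfl⟩
    rw [h2]
    exact (Filter.univ_mem : Set.univ ∈ (𝒰 : Filter ℕ))
  rw [Ultrafilter.finite_biUnion_mem_iff F.finite_toSet] at h1
  obtain ⟨w, hw, hw2⟩ := h1
  exact ⟨w, hw, hw2⟩

/-- an invariant weak limit of functions is constant -/
lemma WL_const {p q : ℕ} {μ : Measure UnitAddCircle} [IsProbabilityMeasure μ]
    (hJ : JE (fun x : UnitAddCircle => p • x) (fun x : UnitAddCircle => q • x) μ)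
    (hp : MeasurePreserving (fun x : UnitAddCircle => p • x) μ μ)
    (hq : MeasurePreserving (fun x : UnitAddCircle => q • x) μ μ)
    {𝒰 : Ultrafilter ℕ} {f : ℕ → UnitAddCircle → ℝ} {g : UnitAddCircle → ℝ}
    (hf : ∀ i, Measurable (f i)) (hfb : ∀ i x, ‖f i x‖ ≤ 1) (hg : Measurable g)
    (hgb : ∀ x, ‖g x‖ ≤ 1) (hw : WL (𝒰 : Filter ℕ) μ f g) {r : ℕ → ℝ}
    (hr : Tendsto r (𝒰 : Filter ℕ) (𝓝 0))
    (hfp : ∀ i x, |f i (p • x) - f i x| ≤ r i) (hfq : ∀ i x, |f i (q • x) - f i x| ≤ r i) :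
    ∃ g₀ : ℝ, g =ᵐ[μ] fun _ => g₀ := by
  have key : ∀ {n : ℕ}, MeasurePreserving (fun x : UnitAddCircle => n • x) μ μ →
      (∀ i x, |f i (n • x) - f i x| ≤ r i) → ∀ᵐ x ∂μ, g (n • x) = g x := by
    intro n hn hfn
    have h1 : WL (𝒰 : Filter ℕ) μ (fun i x => f i (n • x)) (fun x => g (n • x)) :=
      hw.comp hf hfb hg hgb (nsmul_meas n) (by rw [hn.map_eq])
    have h2 : WL (𝒰 : Filter ℕ) μ (fun i x => f i (n • x)) g := by
      refine WL.of_sets (fun i => (hf i).comp (nsmul_meas n)) (fun i x => hfb i _) hg hgb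
        (fun S hS => ?_)
      have h3 := hw.sets hS
      have i1 : ∀ i, Integrable (fun x : UnitAddCircle => f i (n • x)) (μ.restrict S) := fun i =>
        bir ((hf i).comp (nsmul_meas n)) (C := 1) (fun x => hfb i _)
      have i2 : ∀ i, Integrable (f i) (μ.restrict S) := fun i => bir (hf i) (C := 1) (hfb i)
      have h4 : Tendsto (fun i => (∫ x in S, f i (n • x) ∂μ) - ∫ x in S, f i x ∂μ)
          (𝒰 : Filter ℕ) (𝓝 0) := by
        refine squeeze_zero_norm (fun i => ?_) hr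
        rw [← integral_sub (i1 i) (i2 i)]
        have h5 := norm_integral_le_of_norm_le_const (μ := μ.restrict S)
          (f := fun x : UnitAddCircle => f i (n • x) - f i x) (C := r i)
          (Eventually.of_forall fun x => hfn i x)
        refine h5.trans ?_
        have h6 : (μ.restrict S).real Set.univ ≤ 1 := by
          rw [measureReal_restrict_apply_univ]; exact measureReal_le_one
        have h7 : 0 ≤ r i := (abs_nonneg _).trans (hfn i 0)
        nlinarith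
      have h5 := h4.add h3
      rw [zero_add] at h5
      refine h5.congr fun i => ?_
      ring
    exact h1.unique h2 (hg.comp (nsmul_meas n)) hg (fun x => hgb _) hgb
  have kp := key hp hfp
  have kq := key hq hfq
  have hm : Measurable (fun x => ENNReal.ofReal (1 + g x)) :=
    (measurable_const.add hg).ennreal_ofReal
  obtain ⟨C, hC⟩ := hJ.const (fun x => circ_comm p q x) hp hq hm
    (by filter_upwards [kp] with x hx; simp only [Function.comp]; rw [hx])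
    (by filter_upwards [kq] with x hx; simp only [Function.comp]; rw [hx])
  refine ⟨C.toReal - 1, ?_⟩
  filter_upwards [hC] with x hx
  have h1 : ENNReal.ofReal (1 + g x) = C := hx
  have h2 : 0 ≤ 1 + g x := by
    have := abs_le.mp (hgb x)
    linarith [this.1]
  rw [← h1, ENNReal.toReal_ofReal h2]
  ring

/-- **the uniform box** -/
theorem unif_box {p q : ℕ} {μ ω : Measure UnitAddCircle} [IsProbabilityMeasure μ]
    (hJ : JE (fun x : UnitAddCircle => p • x) (fun x : UnitAddCircle => q • x) μ)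
    {c : ℤ} {A : Set UnitAddCircle} (hA : MeasurableSet A) (hp : Sy μ ω A p) (hq : Sy μ ω A q)
    {κ₁ w₀ : ℝ} (hκ : 0 < κ₁) (hw : 0 < w₀) {U : Set UnitAddCircle}
    (hU1 : ∀ u ∈ U, κ₁ ≤ μ.real (sl c A u)) {F : Finset UnitAddCircle} (hFU : ∀ v ∈ F, v ∈ U)
    (hF : ∀ u ∈ U, ∃ v ∈ F, μ.real (symmDiff (sl c A v) (sl c A u)) < w₀ * κ₁ / 4) :
    ∃ L : ℕ, 0 < L ∧ ∀ β : UnitAddCircle → ℝ, Measurable β → (∀ x, 0 ≤ β x) → (∀ x, β x ≤ 1) →
      w₀ ≤ ∫ x, β x ∂μ → ∀ u ∈ U, (L : ℝ) ^ 2 * (w₀ * κ₁ / 2) ≤ ∑ i ∈ Finset.range L,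
        ∑ l ∈ Finset.range L, ∫ x in sl c A ((p ^ i * q ^ l) • u), β x ∂μ := by
  by_contra hcon
  push Not at hcon
  choose! β hβm hβ0 hβ1 hβw u huU hlt using hcon
  choose! v hvF hv using hF
  set 𝒰 : Ultrafilter ℕ := Filter.hyperfilter ℕ with h𝒰
  have hUtop : (𝒰 : Filter ℕ) ≤ atTop := by
    rw [← Nat.cofinite_eq_atTop]; exact Filter.hyperfilter_le_cofinite
  set f : ℕ → UnitAddCircle → ℝ := fun n => AB p q (n + 1) (β (n + 1)) with hf
  have hn1 : ∀ n : ℕ, 0 < n + 1 := fun n => Nat.succ_pos n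
  have hfm : ∀ n, Measurable (f n) := fun n => AB_meas (hβm _ (hn1 n))
  have hf0 : ∀ n x, 0 ≤ f n x := fun n x => AB_nonneg (hβ0 _ (hn1 n)) x
  have hf1 : ∀ n x, f n x ≤ 1 := fun n x => AB_le_one (hβ1 _ (hn1 n)) x
  have hfb : ∀ n x, ‖f n x‖ ≤ 1 := fun n x => by
    rw [Real.norm_eq_abs, abs_of_nonneg (hf0 n x)]; exact hf1 n x
  obtain ⟨g, hg, hgb, hwl⟩ := exists_WL (𝕜 := ℝ) 𝒰 μ hfm hfb
  have hr : Tendsto (fun n : ℕ => (((n + 1 : ℕ) : ℝ))⁻¹) (𝒰 : Filter ℕ) (𝓝 0) := by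
    have h1 : Tendsto (fun n : ℕ => (((n + 1 : ℕ) : ℝ))⁻¹) atTop (𝓝 0) := by
      have := tendsto_inv_atTop_nhds_zero_nat (𝕜 := ℝ)
      exact (tendsto_add_atTop_iff_nat 1).mpr this
    exact h1.mono_left hUtop
  obtain ⟨g₀, hg₀⟩ := WL_const hJ hp.mu hq.mu hfm hfb hg hgb hwl hr
    (fun n x => AB_p (hn1 n) (hβ0 _ (hn1 n)) (hβ1 _ (hn1 n)) x)
    (fun n x => AB_q (hn1 n) (hβ0 _ (hn1 n)) (hβ1 _ (hn1 n)) x)
  -- the constant is large
  have hg₀w : w₀ ≤ g₀ := by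
    have h1 := hwl.univ
    have h2 : ∫ x, g x ∂μ = g₀ := by
      rw [integral_congr_ae hg₀]; simp
    rw [h2] at h1
    refine ge_of_tendsto h1 (Eventually.of_forall fun n => ?_)
    rw [hf]
    simp only
    rw [AB_int_univ hp.mu hq.mu (hn1 n) (hβm _ (hn1 n)) (hβ0 _ (hn1 n)) (hβ1 _ (hn1 n))]
    exact hβw _ (hn1 n)
  obtain ⟨w, hwF, hweq⟩ := ultra_finite (𝒰 := 𝒰) F (v := fun n => v (u (n + 1)))
    (fun n => hvF _ (huU _ (hn1 n)))
  have h3 := hwl.sets (sl_meas (c := c) hA w)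
  have h4 : ∫ x in sl c A w, g x ∂μ = μ.real (sl c A w) * g₀ := by
    rw [integral_congr_ae (ae_restrict_of_ae hg₀), integral_const, smul_eq_mul,
      measureReal_restrict_apply_univ]
  have h5 : w₀ * κ₁ ≤ μ.real (sl c A w) * g₀ := by
    rw [mul_comm]
    exact mul_le_mul (hU1 w (hFU w hwF)) hg₀w hw.le measureReal_nonneg
  have h6 : ∫ x in sl c A w, g x ∂μ ≤ w₀ * κ₁ / 2 + w₀ * κ₁ / 4 := by
    refine le_of_tendsto h3 ?_
    filter_upwards [hweq] with n hn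
    have h7 := hlt (n + 1) (hn1 n)
    have h8 := AB_int (c := c) (L := n + 1) hA hp hq (hβm _ (hn1 n)) (hβ0 _ (hn1 n))
      (hβ1 _ (hn1 n)) (u (n + 1))
    have hpos : (0 : ℝ) < (((n + 1 : ℕ) : ℝ)) ^ 2 := by positivity
    have h9 : ∫ x in sl c A (u (n + 1)), f n x ∂μ ≤ w₀ * κ₁ / 2 := by
      rw [hf]
      simp only
      rw [h8, inv_mul_le_iff₀ hpos]
      exact h7.le
    have h10 := hv (u (n + 1)) (huU _ (hn1 n))
    rw [hn] at h10
    have h11 := norm_int_symm_le (μ := μ) (h := fun x => ((f n x : ℝ) : ℂ))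
      (Complex.measurable_ofReal.comp (hfm n)) (C := 1) (fun x => by
        rw [Complex.norm_real]; exact hfb n x) (sl_meas (c := c) hA w)
      (sl_meas (c := c) hA (u (n + 1)))
    have e1 : ∀ S : Set UnitAddCircle, ∫ x in S, ((f n x : ℝ) : ℂ) ∂μ =
        ((∫ x in S, f n x ∂μ : ℝ) : ℂ) := fun S => integral_ofReal
    rw [e1, e1, ← Complex.ofReal_sub, Complex.norm_real, one_mul] at h11
    have h12 := (le_abs_self _).trans h11
    linarith
  rw [h4] at h6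
  have h7 : 0 < w₀ * κ₁ := mul_pos hw hκ
  linarith

end Pool.Agent.Zk32
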