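import Mathlib
import Pool.Agent.Zk32.Noise5
import Pool.Agent.Zk32.Unif

set_option autoImplicit false

open MeasureTheory Filter Topology Set
open scoped ENNReal

namespace Pool.Agent.Zk32

lemma add_meas : Measurable (fun z : UnitAddCircle × UnitAddCircle => z.1 + z.2) :=
  measurable_fst.add measurable_snd

/-- regrouping the three summands -/
lemma regroup (μ ν ω : Measure UnitAddCircle) [IsProbabilityMeasure μ] [IsProbabilityMeasure ν]
    [IsProbabilityMeasure ω] (c : ℤ) :
    (((μ.prod ν).map (fun z : UnitAddCircle × UnitAddCircle => c • z.1 + z.2)).prod ω).map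
        (fun z : UnitAddCircle × UnitAddCircle => z.1 + z.2) =
      (μ.prod ((ν.prod ω).map (fun z : UnitAddCircle × UnitAddCircle => z.1 + z.2))).map
        (fun z : UnitAddCircle × UnitAddCircle => c • z.1 + z.2) := by
  have hs := lc_meas c
  have ha := add_meas
  have p1 : IsProbabilityMeasure ((μ.prod ν).map (fun z : UnitAddCircle × UnitAddCircle =>
    c • z.1 + z.2)) := Measure.isProbabilityMeasure_map hs.aemeasurable
  have p2 : IsProbabilityMeasure ((ν.prod ω).map (fun z : UnitAddCircle × UnitAddCircle =>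
    z.1 + z.2)) := Measure.isProbabilityMeasure_map ha.aemeasurable
  have e1 : ((μ.prod ν).map (fun z : UnitAddCircle × UnitAddCircle => c • z.1 + z.2)).prod ω =
      ((μ.prod ν).prod ω).map
        (Prod.map (fun z : UnitAddCircle × UnitAddCircle => c • z.1 + z.2) id) := by
    rw [← Measure.map_prod_map _ _ hs measurable_id, Measure.map_id]
  have e2 : μ.prod ((ν.prod ω).map (fun z : UnitAddCircle × UnitAddCircle => z.1 + z.2)) =
      (μ.prod (ν.prod ω)).map
        (Prod.map id (fun z : UnitAddCircle × UnitAddCircle => z.1 + z.2)) := by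
    rw [← Measure.map_prod_map _ _ measurable_id ha, Measure.map_id]
  rw [e1, e2, Measure.map_map ha (hs.prodMap measurable_id),
    Measure.map_map hs (measurable_id.prodMap ha), ← Measure.prodAssoc_prod,
    Measure.map_map (hs.comp (measurable_id.prodMap ha)) (MeasurableEquiv.measurable _)]
  congr 1
  funext z
  simp only [Function.comp, Prod.map, id]
  exact add_assoc _ _ _

/-- **Invariant noise, and an arbitrary independent summand.** -/
theorem noise_all {p q : ℕ} (hp : 2 ≤ p) {μ ν : Measure UnitAddCircle}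
    [IsProbabilityMeasure μ] [IsProbabilityMeasure ν]
    (hμp : MeasurePreserving (fun x : UnitAddCircle => p • x) μ μ)
    (hμq : MeasurePreserving (fun x : UnitAddCircle => q • x) μ μ)
    (hJ : ∀ E : Set UnitAddCircle, MeasurableSet E →
      (fun x : UnitAddCircle => p • x) ⁻¹' E = E → (fun x : UnitAddCircle => q • x) ⁻¹' E = E →
        μ E = 0 ∨ μ E = 1)
    (hvol : μ ≠ volume)
    (hνp : MeasurePreserving (fun x : UnitAddCircle => p • x) ν ν)
    (hνq : MeasurePreserving (fun x : UnitAddCircle => q • x) ν ν)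
    (hat : ∀ x : UnitAddCircle, ν {x} = 0) {c : ℤ} (hc : c = 1 ∨ c = -1)
    (ω : Measure UnitAddCircle) [IsProbabilityMeasure ω] :
    μ.MutuallySingular
      ((((μ.prod ν).map (fun z : UnitAddCircle × UnitAddCircle => c • z.1 + z.2)).prod ω).map
        (fun z : UnitAddCircle × UnitAddCircle => z.1 + z.2)) := by
  have hs := lc_meas c
  have ha := add_meas
  set θ := (μ.prod ν).map (fun z : UnitAddCircle × UnitAddCircle => c • z.1 + z.2) with hθ
  have hθprob : IsProbabilityMeasure θ := Measure.isProbabilityMeasure_map hs.aemeasurable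
  have hθinv : ∀ {r : ℕ}, MeasurePreserving (fun x : UnitAddCircle => r • x) μ μ →
      MeasurePreserving (fun x : UnitAddCircle => r • x) ν ν →
      MeasurePreserving (fun x : UnitAddCircle => r • x) θ θ := by
    intro r h1 h2
    refine (hs.measurePreserving (μ.prod ν)).of_semiconj (h1.prod h2) ?_ (nsmul_meas r)
    intro z
    simp only [Prod.map]
    rw [smul_comm c r, smul_add]
  by_contra hns
  obtain ⟨D, hD, κ, hκ⟩ := dom_of_not_singular hns
  obtain ⟨κ₁, ω₁, d1, i1, j1, -, -⟩ := Dom.avg p hμp (hθinv hμp hνp) κ ⟨ω, inferInstance⟩ hκ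
  obtain ⟨κ₂, ω₂, d2, i2, j2, i3, j3⟩ := Dom.avg q hμq (hθinv hμq hνq) κ₁ ω₁ d1
  have i4 := i3 p i1
  have j4 := j3 p j1
  have hJ' : JE (fun x : UnitAddCircle => p • x) (fun x : UnitAddCircle => q • x) μ := hJ
  have hκμ : (κ₂ : Measure UnitAddCircle) = μ :=
    hJ'.eq (fun x => circ_comm p q x) hμp hμq i4 i2 (ac_of_le hD d2.1)
  set ν₂ := (ν.prod (ω₂ : Measure UnitAddCircle)).map
    (fun z : UnitAddCircle × UnitAddCircle => z.1 + z.2) with hν₂
  have hν₂prob : IsProbabilityMeasure ν₂ := Measure.isProbabilityMeasure_map ha.aemeasurable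
  have hν₂inv : ∀ {r : ℕ}, MeasurePreserving (fun x : UnitAddCircle => r • x) ν ν →
      MeasurePreserving (fun x : UnitAddCircle => r • x) (ω₂ : Measure UnitAddCircle) ω₂ →
      MeasurePreserving (fun x : UnitAddCircle => r • x) ν₂ ν₂ := by
    intro r h1 h2
    refine (ha.measurePreserving (ν.prod (ω₂ : Measure UnitAddCircle))).of_semiconj
      (h1.prod h2) ?_ (nsmul_meas r)
    intro z
    simp only [Prod.map]
    rw [smul_add]
  have hν₂at : ∀ x : UnitAddCircle, ν₂ {x} = 0 := by
    intro x
    rw [hν₂, Measure.map_apply ha (measurableSet_singleton x),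
      Measure.prod_apply_symm (ha (measurableSet_singleton x))]
    have h1 : ∀ w : UnitAddCircle, ν ((fun y => (y, w)) ⁻¹'
        ((fun z : UnitAddCircle × UnitAddCircle => z.1 + z.2) ⁻¹' {x})) = 0 := by
      intro w
      have h2 : ((fun y => (y, w)) ⁻¹'
        ((fun z : UnitAddCircle × UnitAddCircle => z.1 + z.2) ⁻¹' {x})) = {x - w} := by
        ext y
        simp only [Set.mem_preimage, Set.mem_singleton_iff]
        exact eq_sub_iff_add_eq.symm
      rw [h2]; exact hat _
    simp only [h1, lintegral_zero]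
  have hsing := noise_core (q := q) hp hμp hμq hJ hvol (ω := ν₂) (hν₂inv hνp j4) (hν₂inv hνq j2)
    hν₂at hc
  rw [hν₂, ← regroup μ ν (ω₂ : Measure UnitAddCircle) c] at hsing
  have : IsProbabilityMeasure ((θ.prod (ω₂ : Measure UnitAddCircle)).map
      (fun z : UnitAddCircle × UnitAddCircle => z.1 + z.2)) :=
    Measure.isProbabilityMeasure_map ha.aemeasurable
  have hac : μ ≪ ((θ.prod (ω₂ : Measure UnitAddCircle)).map
      (fun z : UnitAddCircle × UnitAddCircle => z.1 + z.2)) := by
    refine ac_of_le hD (fun g hg => ?_)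
    have h1 := d2.2 g hg
    rw [hκμ] at h1
    rw [int_law]
    exact h1
  have h0 : μ = 0 := Measure.eq_zero_of_absolutelyContinuous_of_mutuallySingular hac hsing
  have : μ Set.univ = 1 := measure_univ
  rw [h0] at this
  simp at this

end Pool.Agent.Zk32
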