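import Mathlib
import Pool.Agent.Zk32.Chn10
import Pool.Agent.Zk32.Noise6

set_option autoImplicit false

open MeasureTheory Filter Topology Set
open scoped ENNReal

namespace Pool.Agent.Zk32

lemma Sy.restrict {μ ω : Measure UnitAddCircle} {A U : Set UnitAddCircle} {n : ℕ}
    (h : Sy μ ω A n) (hU : MeasurableSet U) (hUn : ∀ u : UnitAddCircle, n • u ∈ U ↔ u ∈ U) :
    Sy μ (ω.restrict U) A n := by
  refine ⟨h.mu, ?_, h.st⟩
  have h2 := h.om.restrict_preimage hU
  have h3 : (fun x : UnitAddCircle => n • x) ⁻¹' U = U := by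
    ext z; exact hUn z
  rw [h3] at h2
  exact h2

/-- an atomless measure does not charge the torsion points -/
lemma torsion_all_null {ω : Measure UnitAddCircle} (hat : ∀ x : UnitAddCircle, ω {x} = 0) :
    ∀ᵐ u ∂ω, ¬ ∃ K : ℤ, K ≠ 0 ∧ K • u = 0 := by
  have h1 : ∀ᵐ u ∂ω, ∀ K : ℤ, K ≠ 0 → ¬ (K • u = 0) := by
    rw [ae_all_iff]
    intro K
    by_cases hK : K = 0
    · exact Eventually.of_forall fun u h => absurd hK h
    · have h2 := torsion_null hat hK
      rw [ae_iff]
      refine measure_mono_null (fun u hu => ?_) h2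
      simp only [Set.mem_ofPred_eq, not_forall, not_not] at hu
      exact hu.2
  filter_upwards [h1] with u hu
  rintro ⟨K, hK, hKu⟩
  exact hu K hK hKu

/-- **The core theorem.** -/
theorem noise_core2 {p q : ℕ} (hp : 2 ≤ p) {μ ω : Measure UnitAddCircle}
    [IsProbabilityMeasure μ] [IsProbabilityMeasure ω]
    (hμp : MeasurePreserving (fun x : UnitAddCircle => p • x) μ μ)
    (hμq : MeasurePreserving (fun x : UnitAddCircle => q • x) μ μ)
    (hJ : ∀ E : Set UnitAddCircle, MeasurableSet E →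
      (fun x : UnitAddCircle => p • x) ⁻¹' E = E → (fun x : UnitAddCircle => q • x) ⁻¹' E = E →
        μ E = 0 ∨ μ E = 1)
    (hvol : μ ≠ volume)
    (hωp : MeasurePreserving (fun x : UnitAddCircle => p • x) ω ω)
    (hωq : MeasurePreserving (fun x : UnitAddCircle => q • x) ω ω)
    (hat : ∀ x : UnitAddCircle, ω {x} = 0) {c : ℤ} (hc : c ≠ 0) :
    μ.MutuallySingular ((μ.prod ω).map (fun z : UnitAddCircle × UnitAddCircle =>
      c • z.1 + z.2)) := by
  by_contra hns
  have hq0 : 0 < q := by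
    rcases Nat.eq_zero_or_pos q with h0 | h0
    · exfalso
      have h1 := hωq.measure_preimage (measurableSet_singleton (0 : UnitAddCircle)).nullMeasurableSet
      have h2 : (fun x : UnitAddCircle => q • x) ⁻¹' {0} = Set.univ := by
        ext x; simp [h0]
      rw [h2, hat, measure_univ] at h1
      exact one_ne_zero h1
    · exact h0
  have hJ' : JE (fun x : UnitAddCircle => p • x) (fun x : UnitAddCircle => q • x) μ := hJ
  have hs := lc_meas c
  have hρ : ∀ {r : ℕ}, MeasurePreserving (fun x : UnitAddCircle => r • x) μ μ →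
      MeasurePreserving (fun x : UnitAddCircle => r • x) ω ω →
      MeasurePreserving (fun x : UnitAddCircle => r • x)
        ((μ.prod ω).map (fun z : UnitAddCircle × UnitAddCircle => c • z.1 + z.2))
        ((μ.prod ω).map (fun z : UnitAddCircle × UnitAddCircle => c • z.1 + z.2)) := by
    intro r h1 h2
    refine (hs.measurePreserving (μ.prod ω)).of_semiconj (h1.prod h2) ?_ (nsmul_meas r)
    intro z
    simp only [Prod.map]
    rw [smul_comm c r, smul_add]
  have hprob : IsProbabilityMeasure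
      ((μ.prod ω).map (fun z : UnitAddCircle × UnitAddCircle => c • z.1 + z.2)) :=
    Measure.isProbabilityMeasure_map hs.aemeasurable
  obtain ⟨A, hA, hfA, hgA, -, hρA, hres⟩ := hJ'.dichotomy (fun x => circ_comm p q x) hμp hμq
    (hρ hμp hωp) (hρ hμq hωq) hns
  have hSp : Sy μ ω A p := ⟨hμp, hωp, fun x => by
    change x ∈ (fun x : UnitAddCircle => p • x) ⁻¹' A ↔ _
    rw [hfA]⟩
  have hSq : Sy μ ω A q := ⟨hμq, hωq, fun x => by
    change x ∈ (fun x : UnitAddCircle => q • x) ⁻¹' A ↔ _
    rw [hgA]⟩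
  -- the character
  obtain ⟨m, hm0, hm⟩ := exists_coeff hvol
  obtain ⟨𝒱, h𝒱, htop⟩ := exists_idem
  obtain ⟨a, ha⟩ := exists_fam p 𝒱 μ
  have hw0 : 0 < ww μ a m := by
    rcases (ww_nonneg μ a m).eq_or_lt with h1 | h1
    · exfalso
      have hi : Integrable (fun x => ‖a m x‖ ^ 2) μ := bir (ha.nsq_meas m) (nsq_abs (ha.bd m))
      have h2 := (integral_eq_zero_iff_of_nonneg (fun x => by positivity) hi).mp h1.symm
      apply hm
      rw [← ha.int hμp m]
      have h3 : a m =ᵐ[μ] fun _ => (0 : ℂ) := by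
        filter_upwards [h2] with x hx
        have h4 : ‖a m x‖ ^ 2 = 0 := hx
        exact norm_eq_zero.mp (pow_eq_zero_iff two_ne_zero |>.mp h4)
      rw [integral_congr_ae h3, integral_zero]
    · exact h1
  set w₀ := ww μ a m with hw₀
  -- the first level
  obtain ⟨κ₁, hκ₁, hω1⟩ : ∃ κ : ℝ, 0 < κ ∧ ω (Set.univ ∩ {u | κ ≤ μ.real (sl c A u)}) ≠ 0 := by
    apply exists_level
    intro h0
    apply hρA
    rw [Measure.map_apply hs hA, Measure.prod_apply_symm (hs hA), lintegral_eq_zero_iff
      (measurable_measure_prodMk_right (hs hA))]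
    have h1 : ∀ᵐ u ∂ω, ¬ (0 < μ.real (sl c A u)) := by
      rw [ae_iff]
      simpa using h0
    filter_upwards [h1] with u hu
    have h2 : μ.real (sl c A u) = 0 := le_antisymm (not_lt.mp hu) measureReal_nonneg
    exact (measureReal_eq_zero_iff (measure_ne_top _ _)).mp h2
  rw [Set.univ_inter] at hω1
  have hε : 0 < w₀ * κ₁ / 8 := by positivity
  obtain ⟨U, θ, hUm, hθ, hU1, hU2, hUp, hUq, hω2⟩ := exists_inv_set hA hSp hSq hω1 hε
  obtain ⟨F, hFU, hF⟩ := net_sl μ ω (c := c) hA hε hθ hU2
  obtain ⟨L, hL, hLbox⟩ := unif_box (c := c) hJ' hA hSp hSq hκ₁ hw0 hU1 hFU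
    (fun u hu => by
      obtain ⟨v, hv, hv2⟩ := hF u hu
      refine ⟨v, hv, ?_⟩
      linarith)
  -- the coupling
  set ν : Measure UnitAddCircle := ω.restrict U with hν
  have hνp : Sy μ ν A p := hSp.restrict hUm hUp
  have hνq : Sy μ ν A q := hSq.restrict hUm hUq
  have hac : (NN c μ ν A).map (fun z : UnitAddCircle × UnitAddCircle => c • z.1 + z.2) ≪ μ := by
    refine Measure.AbsolutelyContinuous.mk fun B hB hB0 => ?_
    have hW := NN_meas_set (c := c) hA
    rw [Measure.map_apply hs hB]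
    unfold NN
    rw [Measure.restrict_apply (hs hB)]
    have h1 : ((μ.prod ω).map (fun z : UnitAddCircle × UnitAddCircle =>
      c • z.1 + z.2)) (B ∩ A) = 0 := by
      rw [← Measure.restrict_apply hB, hres, Measure.smul_apply, hB0, smul_zero]
    rw [Measure.map_apply hs (hB.inter hA)] at h1
    have h2 : μ.prod ν ≪ μ.prod ω :=
      Measure.AbsolutelyContinuous.rfl.prod
        (Measure.absolutelyContinuous_of_le Measure.restrict_le_self)
    have h3 := h2 h1
    refine measure_mono_null (t := (fun z : UnitAddCircle × UnitAddCircle =>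
      c • z.1 + z.2) ⁻¹' (B ∩ A)) (fun z hz => ?_) h3
    exact ⟨hz.1, hz.2⟩
  have e1 := NN_ls (c := c) hJ' hA hνp hνq hac
  have e2 := NN_lf (c := c) hJ' hA hνp hνq
  set k : ℝ := (NN c μ ν A).real Set.univ with hk
  have hkk : ENNReal.ofReal k = (NN c μ ν A) Set.univ := by
    rw [hk, Measure.real, ENNReal.ofReal_toReal (measure_ne_top _ _)]
  have hk0 : 0 < k := by
    rcases (measureReal_nonneg : 0 ≤ (NN c μ ν A).real Set.univ).eq_or_lt with h1 | h1
    · exfalso
      have h2 : (NN c μ ν A) Set.univ = 0 :=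
        (measureReal_eq_zero_iff (measure_ne_top _ _)).mp h1.symm
      unfold NN at h2
      rw [Measure.restrict_apply_univ, Measure.prod_apply_symm (NN_meas_set hA),
        lintegral_eq_zero_iff (measurable_measure_prodMk_right (NN_meas_set hA))] at h2
      apply hω2
      have h3 : ∀ᵐ u ∂ν, u ∈ U := ae_restrict_mem hUm
      have h4 : ∀ᵐ u ∂ν, False := by
        filter_upwards [h2, h3] with u h5 h6
        have h7 := hU1 u h6
        have h8 : μ (sl c A u) = 0 := h5
        rw [Measure.real, h8, ENNReal.toReal_zero] at h7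
        linarith
      rw [ae_iff] at h4
      simp only [not_false_eq_true] at h4
      have h5 : ν Set.univ = 0 := by
        rw [← h4]; rfl
      rw [hν, Measure.restrict_apply_univ] at h5
      exact h5
    · exact h1
  have hCp : Cp p q c μ ν A k := by
    refine ⟨inferInstance, inferInstance, hA, hνp, hνq, hk0, ?_, ?_⟩
    · rw [hkk]; exact e1
    · rw [hkk]; exact e2
  obtain ⟨b, hb⟩ := exists_fam p 𝒱 ν
  have hbox : BoxH p q c μ ν A L w₀ (w₀ * κ₁ / 2) := by
    intro β h1 h2 h3 h4
    filter_upwards [ae_restrict_mem hUm] with u hu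
    exact hLbox β h1 h2 h3 h4 u hu
  have hend := hCp.torsion hp hq0 hc h𝒱 htop ha hb hm0 hL (by positivity) hbox
  have h1 : ∀ᵐ u ∂ν, ¬ ∃ K : ℤ, K ≠ 0 ∧ K • u = 0 := ae_restrict_of_ae (torsion_all_null hat)
  have h4 : ∀ᵐ u ∂ν, False := by
    filter_upwards [hend, h1] with u h5 h6
    exact h6 h5
  rw [ae_iff] at h4
  simp only [not_false_eq_true] at h4
  have h5 : ν Set.univ = 0 := by
    rw [← h4]; rfl
  rw [hν, Measure.restrict_apply_univ] at h5
  exact hω2 h5

end Pool.Agent.Zk32
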