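import Mathlib
import Pool.Agent.Zk32.Chn11

set_option autoImplicit false

open MeasureTheory Filter Topology Set
open scoped ENNReal NNReal BoundedContinuousFunction

namespace Pool.Agent.Zk32

/-- the average of the images of a measure over a rectangle of multipliers, on a function -/
noncomputable def RA (p q a b L M : ℕ) (σ : Measure UnitAddCircle) (g : UnitAddCircle → ℝ) : ℝ :=
  ((L : ℝ) * M)⁻¹ * ∑ i ∈ Finset.range L, ∑ j ∈ Finset.range M,
    ∫ x, g ((p ^ (a + i) * q ^ (b + j)) • x) ∂σ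

lemma shift_sum2 {f : ℕ → ℕ → ℝ} {B : ℝ} (h : ∀ i l, |f i l| ≤ B) (L M : ℕ) :
    |(∑ i ∈ Finset.range L, ∑ l ∈ Finset.range M, f (i + 1) l) -
      ∑ i ∈ Finset.range L, ∑ l ∈ Finset.range M, f i l| ≤ 2 * B * M := by
  have e : (∑ i ∈ Finset.range L, ∑ l ∈ Finset.range M, f (i + 1) l) -
      ∑ i ∈ Finset.range L, ∑ l ∈ Finset.range M, f i l =
      (∑ l ∈ Finset.range M, f L l) - ∑ l ∈ Finset.range M, f 0 l := by
    rw [← Finset.sum_sub_distrib]
    exact Finset.sum_range_sub (fun i => ∑ l ∈ Finset.range M, f i l) L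
  have b : ∀ i, |∑ l ∈ Finset.range M, f i l| ≤ B * M := by
    intro i
    calc |∑ l ∈ Finset.range M, f i l| ≤ ∑ l ∈ Finset.range M, |f i l| :=
          Finset.abs_sum_le_sum_abs _ _
      _ ≤ ∑ _l ∈ Finset.range M, B := Finset.sum_le_sum fun l _ => h i l
      _ = B * M := by rw [Finset.sum_const, Finset.card_range, nsmul_eq_mul]; ring
  rw [e]
  have h1 := abs_sub (∑ l ∈ Finset.range M, f L l) (∑ l ∈ Finset.range M, f 0 l)
  linarith [b L, b 0]

section
variable {p q a b L M : ℕ}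

lemma RA_swap (σ : Measure UnitAddCircle) (g : UnitAddCircle → ℝ) :
    RA p q a b L M σ g = RA q p b a M L σ g := by
  unfold RA
  rw [Finset.sum_comm, mul_comm (L : ℝ) M]
  simp only [mul_comm (p ^ _) (q ^ _)]

lemma cont_bound (g : C(UnitAddCircle, ℝ)) : ∃ B : ℝ, 0 ≤ B ∧ ∀ x, |g x| ≤ B := by
  obtain ⟨B, hB⟩ := (isCompact_univ (X := UnitAddCircle)).exists_bound_of_continuousOn
    g.continuous.continuousOn
  exact ⟨B, (norm_nonneg _).trans (hB 0 (Set.mem_univ _)), fun x => hB x (Set.mem_univ _)⟩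

lemma int_bound (σ : Measure UnitAddCircle) [IsProbabilityMeasure σ] {g : UnitAddCircle → ℝ}
    {B : ℝ} (h : ∀ x, |g x| ≤ B) (n : ℕ) : |∫ x, g (n • x) ∂σ| ≤ B := by
  have := norm_integral_le_of_norm_le_const (μ := σ) (f := fun x => g (n • x)) (C := B)
    (Eventually.of_forall fun x => h _)
  simpa using this

/-- the averages are almost invariant -/
lemma RA_shift (hL : 0 < L) (hM : 0 < M) (σ : Measure UnitAddCircle) [IsProbabilityMeasure σ]
    {g : UnitAddCircle → ℝ} {B : ℝ} (h : ∀ x, |g x| ≤ B) :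
    |RA p q a b L M σ (fun x => g (p • x)) - RA p q a b L M σ g| ≤ 2 * B * (L : ℝ)⁻¹ := by
  have hLR : (0 : ℝ) < L := by exact_mod_cast hL
  have hMR : (0 : ℝ) < M := by exact_mod_cast hM
  have h2 := shift_sum2 (f := fun i l => ∫ x, g ((p ^ (a + i) * q ^ (b + l)) • x) ∂σ)
    (B := B) (fun i l => int_bound σ h _) L M
  have e : ∀ i l : ℕ, ∫ x, g (p • ((p ^ (a + i) * q ^ (b + l)) • x)) ∂σ =
      ∫ x, g ((p ^ (a + (i + 1)) * q ^ (b + l)) • x) ∂σ := by
    intro i l
    congr 1; funext x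
    rw [smul_smul]; congr 2; ring
  unfold RA
  simp only [e]
  rw [← mul_sub, abs_mul, abs_of_nonneg (by positivity : (0 : ℝ) ≤ ((L : ℝ) * M)⁻¹)]
  calc ((L : ℝ) * M)⁻¹ * _ ≤ ((L : ℝ) * M)⁻¹ * (2 * B * M) :=
        mul_le_mul_of_nonneg_left h2 (by positivity)
    _ = 2 * B * (L : ℝ)⁻¹ := by field_simp

/-- the averages are given by a probability measure -/
lemma RA_exists (hL : 0 < L) (hM : 0 < M) (σ : ProbabilityMeasure UnitAddCircle) :
    ∃ τ : ProbabilityMeasure UnitAddCircle, ∀ g : C(UnitAddCircle, ℝ),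
      ∫ x, g x ∂(τ : Measure UnitAddCircle) = RA p q a b L M (σ : Measure UnitAddCircle) g := by
  set ν : Measure UnitAddCircle := (((L : ℝ≥0) * M : ℝ≥0) : ℝ≥0∞)⁻¹ • ∑ i ∈ Finset.range L,
    ∑ j ∈ Finset.range M, (σ : Measure UnitAddCircle).map
      (fun x : UnitAddCircle => (p ^ (a + i) * q ^ (b + j)) • x) with hν
  have hLR : (0 : ℝ≥0) < L := by exact_mod_cast hL
  have hMR : (0 : ℝ≥0) < M := by exact_mod_cast hM
  have hp : IsProbabilityMeasure ν := by
    constructor
    rw [hν, Measure.smul_apply, Measure.finsetSum_apply]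
    have h1 : ∀ i ∈ Finset.range L, (∑ j ∈ Finset.range M, (σ : Measure UnitAddCircle).map
        (fun x : UnitAddCircle => (p ^ (a + i) * q ^ (b + j)) • x)) Set.univ = M := by
      intro i _
      rw [Measure.finsetSum_apply]
      have h2 : ∀ j ∈ Finset.range M, (σ : Measure UnitAddCircle).map
          (fun x : UnitAddCircle => (p ^ (a + i) * q ^ (b + j)) • x) Set.univ = 1 := by
        intro j _
        rw [Measure.map_apply (nsmul_meas _) MeasurableSet.univ, Set.preimage_univ, measure_univ]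
      rw [Finset.sum_congr rfl h2]
      simp
    rw [Finset.sum_congr rfl h1]
    simp only [Finset.sum_const, Finset.card_range, smul_eq_mul, nsmul_eq_mul]
    rw [show ((L : ℝ≥0∞) * M) = (((L : ℝ≥0) * M : ℝ≥0) : ℝ≥0∞) by push_cast; rfl]
    exact ENNReal.inv_mul_cancel (by
      rw [ENNReal.coe_ne_zero]
      exact (mul_pos hLR hMR).ne') ENNReal.coe_ne_top
  refine ⟨⟨ν, hp⟩, fun g => ?_⟩
  change ∫ x, g x ∂ν = _
  rw [hν, integral_smul_measure, integral_finsetSum_measure]
  · unfold RA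
    rw [smul_eq_mul]
    congr 1
    · rw [ENNReal.toReal_inv]
      rfl
    · refine Finset.sum_congr rfl fun i _ => ?_
      rw [integral_finsetSum_measure (fun j _ => int_cont _ g)]
      refine Finset.sum_congr rfl fun j _ => ?_
      rw [integral_map (nsmul_meas _).aemeasurable g.continuous.aestronglyMeasurable]
  · intro i _
    exact integrable_finsetSum_measure.mpr fun j _ => int_cont _ g

end

/-- limits of averages over large rectangles are invariant -/
lemma RA_inv {p q : ℕ} {a b L M : ℕ → ℕ} {𝒰 : Filter ℕ} [NeBot 𝒰] (hL : Tendsto L 𝒰 atTop)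
    (hM : Tendsto M 𝒰 atTop) {σ σ' : Measure UnitAddCircle} [IsProbabilityMeasure σ]
    [IsProbabilityMeasure σ'] (h : ∀ g : C(UnitAddCircle, ℝ), Tendsto (fun k =>
      RA p q (a k) (b k) (L k) (M k) σ g) 𝒰 (𝓝 (∫ x, g x ∂σ'))) :
    MeasurePreserving (fun x : UnitAddCircle => p • x) σ' σ' := by
  rw [inv_iff]
  intro g
  obtain ⟨B, hB0, hB⟩ := cont_bound g
  have h1 := (h (g.comp (mulC p))).sub (h g)
  have h2 : Tendsto (fun k => RA p q (a k) (b k) (L k) (M k) σ (g.comp (mulC p)) -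
      RA p q (a k) (b k) (L k) (M k) σ g) 𝒰 (𝓝 0) := by
    have h3 : Tendsto (fun k => 2 * B * ((L k : ℝ))⁻¹) 𝒰 (𝓝 0) := by
      have := (tendsto_inv_atTop_nhds_zero_nat (𝕜 := ℝ)).comp hL
      have h4 := this.const_mul (2 * B)
      rw [mul_zero] at h4
      exact h4
    refine squeeze_zero_norm' ?_ h3
    filter_upwards [hL.eventually (eventually_gt_atTop 0),
      hM.eventually (eventually_gt_atTop 0)] with k hk1 hk2
    exact RA_shift hk1 hk2 σ hB
  have h3 := tendsto_nhds_unique h1 h2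
  have h4 : ∫ x, (g.comp (mulC p)) x ∂σ' = ∫ x, g x ∂σ' := by linarith
  exact h4

lemma RA_inv' {p q : ℕ} {a b L M : ℕ → ℕ} {𝒰 : Filter ℕ} [NeBot 𝒰] (hL : Tendsto L 𝒰 atTop)
    (hM : Tendsto M 𝒰 atTop) {σ σ' : Measure UnitAddCircle} [IsProbabilityMeasure σ]
    [IsProbabilityMeasure σ'] (h : ∀ g : C(UnitAddCircle, ℝ), Tendsto (fun k =>
      RA p q (a k) (b k) (L k) (M k) σ g) 𝒰 (𝓝 (∫ x, g x ∂σ'))) :
    MeasurePreserving (fun x : UnitAddCircle => q • x) σ' σ' := by
  refine RA_inv (p := q) (q := p) (a := b) (b := a) hM hL (σ := σ) fun g => ?_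
  refine (h g).congr fun k => ?_
  exact RA_swap _ _

/-- the law of `c x + w` as a convolution -/
lemma law_conv (μ ω : Measure UnitAddCircle) [IsProbabilityMeasure μ] [IsProbabilityMeasure ω]
    (c : ℤ) : ((μ.map (fun x : UnitAddCircle => c • x)).prod ω).map
        (fun z : UnitAddCircle × UnitAddCircle => z.1 + z.2) =
      (μ.prod ω).map (fun z : UnitAddCircle × UnitAddCircle => c • z.1 + z.2) := by
  have e1 : (μ.map (fun x : UnitAddCircle => c • x)).prod ω =
      (μ.prod ω).map (Prod.map (fun x : UnitAddCircle => c • x) id) := by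
    rw [← Measure.map_prod_map _ _ (zsmul_meas c) measurable_id, Measure.map_id]
  rw [e1, Measure.map_map add_meas ((zsmul_meas c).prodMap measurable_id)]
  rfl

/-- **Noise with diffuse averages.** -/
theorem noise_limit {p q : ℕ} (hp : 2 ≤ p) {μ : Measure UnitAddCircle} [IsProbabilityMeasure μ]
    (hμp : MeasurePreserving (fun x : UnitAddCircle => p • x) μ μ)
    (hμq : MeasurePreserving (fun x : UnitAddCircle => q • x) μ μ)
    (hJ : ∀ E : Set UnitAddCircle, MeasurableSet E →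
      (fun x : UnitAddCircle => p • x) ⁻¹' E = E → (fun x : UnitAddCircle => q • x) ⁻¹' E = E →
        μ E = 0 ∨ μ E = 1)
    (hvol : μ ≠ volume) {c : ℤ} (hc : c ≠ 0) (ω ω' : Measure UnitAddCircle)
    [IsProbabilityMeasure ω] [IsProbabilityMeasure ω'] (hat : ∀ x : UnitAddCircle, ω' {x} = 0)
    {a b L M : ℕ → ℕ} (hL : Tendsto L atTop atTop) (hM : Tendsto M atTop atTop)
    (hlim : ∀ g : C(UnitAddCircle, ℝ), Tendsto (fun k =>
      RA p q (a k) (b k) (L k) (M k) ω g) atTop (𝓝 (∫ x, g x ∂ω'))) :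
    μ.MutuallySingular ((μ.prod ω).map (fun z : UnitAddCircle × UnitAddCircle =>
      c • z.1 + z.2)) := by
  have hωp := RA_inv hL hM hlim
  have hωq := RA_inv' hL hM hlim
  set θ := μ.map (fun x : UnitAddCircle => c • x) with hθ
  have hθprob : IsProbabilityMeasure θ := Measure.isProbabilityMeasure_map (zsmul_meas c).aemeasurable
  have hθinv : ∀ {r : ℕ}, MeasurePreserving (fun x : UnitAddCircle => r • x) μ μ →
      MeasurePreserving (fun x : UnitAddCircle => r • x) θ θ := by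
    intro r h1
    refine ((zsmul_meas c).measurePreserving μ).of_semiconj h1 ?_ (nsmul_meas r)
    intro z
    exact smul_comm c r z
  have hS : ∀ {σ : Measure UnitAddCircle}, MeasurePreserving (fun x : UnitAddCircle => p • x) σ σ →
      MeasurePreserving (fun x : UnitAddCircle => q • x) σ σ → ∀ i j : ℕ,
      MeasurePreserving (fun x : UnitAddCircle => (p ^ i * q ^ j) • x) σ σ := by
    intro σ h1 h2 i j
    have h3 := ((act_pow h1).mp i).comp ((act_pow h2).mp j)
    convert h3 using 1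
    funext x
    simp only [Function.comp, mul_smul]
  by_contra hns
  rw [← law_conv] at hns
  obtain ⟨D, hD, κ, hκ⟩ := dom_of_not_singular hns
  -- the averages of κ
  set 𝒰 : Ultrafilter ℕ := Filter.hyperfilter ℕ with h𝒰
  have hUtop : (𝒰 : Filter ℕ) ≤ atTop := by
    rw [← Nat.cofinite_eq_atTop]; exact Filter.hyperfilter_le_cofinite
  have hex : ∀ k : ℕ, ∃ τ : ProbabilityMeasure UnitAddCircle, 0 < L k → 0 < M k →
      ∀ g : C(UnitAddCircle, ℝ), ∫ x, g x ∂(τ : Measure UnitAddCircle) =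
        RA p q (a k) (b k) (L k) (M k) (κ : Measure UnitAddCircle) g := by
    intro k
    by_cases h1 : 0 < L k ∧ 0 < M k
    · obtain ⟨τ, hτ⟩ := RA_exists (p := p) (q := q) (a := a k) (b := b k) h1.1 h1.2 κ
      exact ⟨τ, fun _ _ => hτ⟩
    · exact ⟨κ, fun h2 h3 => absurd ⟨h2, h3⟩ h1⟩
  choose τ hτ using hex
  obtain ⟨κ', -, hκ'⟩ := (isCompact_univ (X := ProbabilityMeasure UnitAddCircle)).ultrafilter_le_nhds
      (𝒰.map τ) (by simp)
  have hpos : ∀ᶠ k in (𝒰 : Filter ℕ), 0 < L k ∧ 0 < M k :=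
    hUtop ((hL.eventually (eventually_gt_atTop 0)).and (hM.eventually (eventually_gt_atTop 0)))
  have hlim2 : ∀ g : C(UnitAddCircle, ℝ), Tendsto (fun k =>
      RA p q (a k) (b k) (L k) (M k) (κ : Measure UnitAddCircle) g) (𝒰 : Filter ℕ)
        (𝓝 (∫ x, g x ∂(κ' : Measure UnitAddCircle))) := by
    intro g
    have h1 : Tendsto τ (𝒰 : Filter ℕ) (𝓝 κ') := hκ'
    rw [ProbabilityMeasure.tendsto_iff_forall_integral_tendsto] at h1
    refine (h1 (BoundedContinuousFunction.mkOfCompact g)).congr' ?_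
    filter_upwards [hpos] with k hk
    exact hτ k hk.1 hk.2 g
  have hκp := RA_inv (hL.mono_left hUtop) (hM.mono_left hUtop) hlim2
  have hκq := RA_inv' (hL.mono_left hUtop) (hM.mono_left hUtop) hlim2
  have d1 : ∀ g : C(UnitAddCircle, ℝ), (∀ x, 0 ≤ g x) →
      ∫ x, g x ∂(κ' : Measure UnitAddCircle) ≤ D * ∫ x, g x ∂μ := by
    intro g hg
    refine le_of_tendsto (hlim2 g) ?_
    filter_upwards [hpos] with k hk
    have hLR : (0 : ℝ) < L k := by exact_mod_cast hk.1
    have hMR : (0 : ℝ) < M k := by exact_mod_cast hk.2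
    have h1 : ∀ i j : ℕ, ∫ x, g ((p ^ (a k + i) * q ^ (b k + j)) • x)
        ∂(κ : Measure UnitAddCircle) ≤ D * ∫ x, g x ∂μ := by
      intro i j
      have h2 := hκ.1 (g.comp (mulC (p ^ (a k + i) * q ^ (b k + j)))) (fun x => hg _)
      have h3 := (inv_iff (p ^ (a k + i) * q ^ (b k + j))).mp (hS hμp hμq _ _) g
      simp only [ContinuousMap.comp_apply, mulC_apply] at h2
      rw [h3] at h2
      exact h2
    unfold RA
    rw [inv_mul_le_iff₀ (by positivity)]
    calc ∑ i ∈ Finset.range (L k), ∑ j ∈ Finset.range (M k),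
          ∫ x, g ((p ^ (a k + i) * q ^ (b k + j)) • x) ∂(κ : Measure UnitAddCircle)
        ≤ ∑ _i ∈ Finset.range (L k), ∑ _j ∈ Finset.range (M k), D * ∫ x, g x ∂μ :=
          Finset.sum_le_sum fun i _ => Finset.sum_le_sum fun j _ => h1 i j
      _ = (L k : ℝ) * M k * (D * ∫ x, g x ∂μ) := by
          simp only [Finset.sum_const, Finset.card_range, nsmul_eq_mul]; ring
  have d2 : ∀ g : C(UnitAddCircle, ℝ), (∀ x, 0 ≤ g x) →
      ∫ x, g x ∂(κ' : Measure UnitAddCircle) ≤ D * ∫ x, smo θ g x ∂ω' := by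
    intro g hg
    refine le_of_tendsto_of_tendsto (hlim2 g)
      (((hlim (smo θ g)).mono_left hUtop).const_mul D) ?_
    filter_upwards [hpos] with k hk
    have hLR : (0 : ℝ) < L k := by exact_mod_cast hk.1
    have hMR : (0 : ℝ) < M k := by exact_mod_cast hk.2
    have h1 : ∀ i j : ℕ, ∫ x, g ((p ^ (a k + i) * q ^ (b k + j)) • x)
        ∂(κ : Measure UnitAddCircle) ≤
        D * ∫ x, smo θ g ((p ^ (a k + i) * q ^ (b k + j)) • x) ∂ω := by
      intro i j
      have h2 := hκ.2 (g.comp (mulC (p ^ (a k + i) * q ^ (b k + j)))) (fun x => hg _)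
      have h3 : ∀ w, smo θ (g.comp (mulC (p ^ (a k + i) * q ^ (b k + j)))) w =
          smo θ g ((p ^ (a k + i) * q ^ (b k + j)) • w) := fun w =>
        smo_mul (hS (hθinv hμp) (hθinv hμq) (a k + i) (b k + j)) g w
      rw [integral_congr_ae (Eventually.of_forall h3)] at h2
      exact h2
    unfold RA
    rw [inv_mul_le_iff₀ (by positivity)]
    have e1 : (L k : ℝ) * M k * (D * (((L k : ℝ) * M k)⁻¹ * ∑ i ∈ Finset.range (L k),
        ∑ j ∈ Finset.range (M k),
          ∫ x, smo θ g ((p ^ (a k + i) * q ^ (b k + j)) • x) ∂ω)) =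
        ∑ i ∈ Finset.range (L k), ∑ j ∈ Finset.range (M k),
          D * ∫ x, smo θ g ((p ^ (a k + i) * q ^ (b k + j)) • x) ∂ω := by
      simp only [← Finset.mul_sum]
      field_simp
    rw [e1]
    exact Finset.sum_le_sum fun i _ => Finset.sum_le_sum fun j _ => h1 i j
  have hJ' : JE (fun x : UnitAddCircle => p • x) (fun x : UnitAddCircle => q • x) μ := hJ
  have hκμ : (κ' : Measure UnitAddCircle) = μ :=
    hJ'.eq (fun x => circ_comm p q x) hμp hμq hκp hκq (ac_of_le hD d1)
  have hsing := noise_core2 (q := q) hp hμp hμq hJ hvol (ω := ω') hωp hωq hat hc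
  rw [← law_conv] at hsing
  have : IsProbabilityMeasure ((θ.prod ω').map
      (fun z : UnitAddCircle × UnitAddCircle => z.1 + z.2)) :=
    Measure.isProbabilityMeasure_map add_meas.aemeasurable
  have hac : μ ≪ ((θ.prod ω').map (fun z : UnitAddCircle × UnitAddCircle => z.1 + z.2)) := by
    refine ac_of_le hD (fun g hg => ?_)
    have h1 := d2 g hg
    rw [hκμ] at h1
    rw [int_law]
    exact h1
  have h0 : μ = 0 := Measure.eq_zero_of_absolutelyContinuous_of_mutuallySingular hac hsing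
  have : μ Set.univ = 1 := measure_univ
  rw [h0] at this
  simp at this

end Pool.Agent.Zk32
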