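import Mathlib
import Pool.Agent.Zk32.Chn13
import Pool.Agent.Zk32.Unif

set_option autoImplicit false

open MeasureTheory Filter Topology Set
open scoped ENNReal

namespace Pool.Agent.Zk32

/-- the points of finite order -/
def Tor : Set UnitAddCircle := {u | ∃ K : ℕ, 0 < K ∧ K • u = 0}

lemma tor_countable : Tor.Countable := by
  have h1 : Tor = ⋃ K : {K : ℕ // 0 < K}, {u : UnitAddCircle | (K : ℕ) • u = 0} := by
    ext u
    simp only [Tor, Set.mem_ofPred_eq, Set.mem_iUnion, Subtype.exists, exists_prop]
  rw [h1]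
  exact Set.countable_iUnion fun K => (AddCircle.finite_torsion (p := (1 : ℝ)) K.2).countable

lemma tor_meas : MeasurableSet Tor := tor_countable.measurableSet

lemma nsmul_tor {n : ℕ} (hn : 0 < n) (u : UnitAddCircle) : n • u ∈ Tor ↔ u ∈ Tor := by
  constructor
  · rintro ⟨K, hK, h⟩
    refine ⟨K * n, Nat.mul_pos hK hn, ?_⟩
    rw [mul_nsmul', h]
  · rintro ⟨K, hK, h⟩
    refine ⟨K, hK, ?_⟩
    rw [← mul_nsmul', mul_nsmul, h, nsmul_zero]

/-- the atoms of an invariant measure are torsion points -/
lemma atom_tor {p : ℕ} (hp : 2 ≤ p) {ω : Measure UnitAddCircle} [IsFiniteMeasure ω]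
    (hωp : MeasurePreserving (fun x : UnitAddCircle => p • x) ω ω) {x : UnitAddCircle}
    (hx : x ∉ Tor) : ω {x} = 0 := by
  by_contra h0
  have h1 : ∀ i : ℕ, ω {x} ≤ ω {(p ^ i) • x} := by
    intro i
    induction i with
    | zero => simp
    | succ i ih =>
      refine ih.trans ?_
      have h2 := hωp.measure_preimage
        (measurableSet_singleton ((p ^ (i + 1)) • x)).nullMeasurableSet
      rw [← h2]
      refine measure_mono ?_
      rintro y rfl
      change p • ((p ^ i) • x) = (p ^ (i + 1)) • x
      rw [← mul_nsmul', pow_succ']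
  have hinj : Function.Injective (fun i : ℕ => (p ^ i) • x) := by
    have key : ∀ i j : ℕ, i < j → (p ^ i) • x ≠ (p ^ j) • x := by
      intro i j hij he
      apply hx
      refine ⟨p ^ j - p ^ i, Nat.sub_pos_of_lt (Nat.pow_lt_pow_right (by omega) hij), ?_⟩
      have h3 : (p ^ j - p ^ i) • x + (p ^ i) • x = (p ^ j) • x := by
        rw [← add_nsmul, Nat.sub_add_cancel (Nat.pow_le_pow_right (by omega) hij.le)]
      rw [← he] at h3
      exact add_eq_right.mp h3
    intro i j h
    rcases lt_trichotomy i j with h2 | h2 | h2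
    · exact absurd h (key i j h2)
    · exact h2
    · exact absurd h.symm (key j i h2)
  have hinf : (Set.range (fun i : ℕ => (p ^ i) • x)).Infinite := Set.infinite_range_of_injective hinj
  have htop := hinf.meas_eq_top (μ := ω) ⟨ω {x}, h0, by
    rintro _ ⟨i, rfl⟩
    exact h1 i⟩
  exact measure_ne_top ω _ htop

/-- ergodicity of the images -/
lemma JE.image {p q : ℕ} {μ : Measure UnitAddCircle}
    (hJ : JE (fun x : UnitAddCircle => p • x) (fun x : UnitAddCircle => q • x) μ) (c : ℤ) :
    JE (fun x : UnitAddCircle => p • x) (fun x : UnitAddCircle => q • x)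
      (μ.map (fun x : UnitAddCircle => c • x)) := by
  intro E hE h1 h2
  rw [Measure.map_apply (zsmul_meas c) hE]
  refine hJ _ (zsmul_meas c hE) ?_ ?_
  · ext x
    change c • (p • x) ∈ E ↔ c • x ∈ E
    rw [smul_comm c p x]
    change c • x ∈ (fun x : UnitAddCircle => p • x) ⁻¹' E ↔ _
    rw [h1]
  · ext x
    change c • (q • x) ∈ E ↔ c • x ∈ E
    rw [smul_comm c q x]
    change c • x ∈ (fun x : UnitAddCircle => q • x) ⁻¹' E ↔ _
    rw [h2]

/-- invariance of the images -/
lemma image_inv {r : ℕ} {μ : Measure UnitAddCircle}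
    (hμ : MeasurePreserving (fun x : UnitAddCircle => r • x) μ μ) (c : ℤ) :
    MeasurePreserving (fun x : UnitAddCircle => r • x)
      (μ.map (fun x : UnitAddCircle => c • x)) (μ.map (fun x : UnitAddCircle => c • x)) := by
  refine ((zsmul_meas c).measurePreserving μ).of_semiconj hμ ?_ (nsmul_meas r)
  intro x
  change c • (r • x) = r • (c • x)
  exact smul_comm c r x

/-- two ergodic measures are equal or singular -/
lemma JE.eq_of_not_singular {p q : ℕ} {μ ν : Measure UnitAddCircle} [IsProbabilityMeasure μ]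
    [IsProbabilityMeasure ν]
    (hμp : MeasurePreserving (fun x : UnitAddCircle => p • x) μ μ)
    (hμq : MeasurePreserving (fun x : UnitAddCircle => q • x) μ μ)
    (hνp : MeasurePreserving (fun x : UnitAddCircle => p • x) ν ν)
    (hνq : MeasurePreserving (fun x : UnitAddCircle => q • x) ν ν)
    (hJ : JE (fun x : UnitAddCircle => p • x) (fun x : UnitAddCircle => q • x) μ)
    (hJ2 : JE (fun x : UnitAddCircle => p • x) (fun x : UnitAddCircle => q • x) ν)
    (hns : ¬ μ.MutuallySingular ν) : μ = ν := by
  obtain ⟨A, hA, hfA, hgA, -, hνA, hres⟩ := hJ.dichotomy (fun x => circ_comm p q x) hμp hμq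
    hνp hνq hns
  have h1 : ν A = 1 := by
    rcases hJ2 A hA hfA hgA with h | h
    · exact absurd h hνA
    · exact h
  rw [h1, one_smul] at hres
  have h2 : ν.restrict A = ν := by
    refine Measure.restrict_eq_self_of_ae_mem ?_
    rw [← prob_compl_eq_zero_iff hA] at h1
    rw [ae_iff]
    exact h1
  rw [← hres, h2]

/-- **Singularity to the law of `c x + w` for every independent `w`**, when no torsion prevents it. -/
theorem sing_all {p q : ℕ} (hp : 2 ≤ p) {μ : Measure UnitAddCircle} [IsProbabilityMeasure μ]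
    (hμp : MeasurePreserving (fun x : UnitAddCircle => p • x) μ μ)
    (hμq : MeasurePreserving (fun x : UnitAddCircle => q • x) μ μ)
    (hJ : ∀ E : Set UnitAddCircle, MeasurableSet E →
      (fun x : UnitAddCircle => p • x) ⁻¹' E = E → (fun x : UnitAddCircle => q • x) ⁻¹' E = E →
        μ E = 0 ∨ μ E = 1)
    (hvol : μ ≠ volume) {c : ℤ} (hc : c ≠ 0)
    (hne : ∀ d : ℕ, 1 ≤ d → μ.map (fun x : UnitAddCircle => (d * c : ℤ) • x) ≠
      μ.map (fun x : UnitAddCircle => (d : ℤ) • x))
    (ω : Measure UnitAddCircle) [IsProbabilityMeasure ω] :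
    μ.MutuallySingular (((μ.map (fun x : UnitAddCircle => c • x)).prod ω).map
      (fun z : UnitAddCircle × UnitAddCircle => z.1 + z.2)) := by
  have hJ' : JE (fun x : UnitAddCircle => p • x) (fun x : UnitAddCircle => q • x) μ := hJ
  have ha := add_meas
  have hcm := zsmul_meas c
  set θ := μ.map (fun x : UnitAddCircle => c • x) with hθ
  have hθprob : IsProbabilityMeasure θ := Measure.isProbabilityMeasure_map hcm.aemeasurable
  -- the case q = 0
  have hq0 : 0 < q := by
    rcases Nat.eq_zero_or_pos q with h0 | h0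
    · exfalso
      have h3 : ∀ n : ℤ, μ.map (fun x : UnitAddCircle => n • x) = Measure.dirac 0 := by
        intro n
        have h1 := hμq.map_eq
        have h2 : (fun x : UnitAddCircle => q • x) = fun _ => (0 : UnitAddCircle) := by
          funext x; simp [h0]
        rw [h2, Measure.map_const, measure_univ, one_smul] at h1
        rw [← h1, Measure.map_dirac' (zsmul_meas n), smul_zero]
      exact hne 1 le_rfl (by rw [h3, h3])
    · exact h0
  by_contra hns
  obtain ⟨D, hD, κ, hκ⟩ := dom_of_not_singular hns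
  obtain ⟨κ₁, ω₁, d1, i1, j1, -, -⟩ := Dom.avg p hμp (image_inv hμp c) κ ⟨ω, inferInstance⟩ hκ
  obtain ⟨κ₂, ω₂, d2, i2, j2, i3, j3⟩ := Dom.avg q hμq (image_inv hμq c) κ₁ ω₁ d1
  have i4 := i3 p i1
  have j4 := j3 p j1
  have hκμ : (κ₂ : Measure UnitAddCircle) = μ :=
    hJ'.eq (fun x => circ_comm p q x) hμp hμq i4 i2 (ac_of_le hD d2.1)
  have hac : μ ≪ ((θ.prod (ω₂ : Measure UnitAddCircle)).map
      (fun z : UnitAddCircle × UnitAddCircle => z.1 + z.2)) := by
    have : IsProbabilityMeasure ((θ.prod (ω₂ : Measure UnitAddCircle)).map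
      (fun z : UnitAddCircle × UnitAddCircle => z.1 + z.2)) :=
      Measure.isProbabilityMeasure_map ha.aemeasurable
    refine ac_of_le hD (fun g hg => ?_)
    have h1 := d2.2 g hg
    rw [hκμ] at h1
    rw [int_law]
    exact h1
  -- the diffuse part
  obtain ⟨S₁, hS₁, hS₁μ, hS₁w⟩ : ∃ S : Set UnitAddCircle, MeasurableSet S ∧ μ S = 0 ∧
      ∀ᵐ w ∂(ω₂ : Measure UnitAddCircle), w ∈ Torᶜ → θ {x | x + w ∉ S} = 0 := by
    set ν := (ω₂ : Measure UnitAddCircle).restrict Torᶜ with hν
    by_cases hz : ν = 0
    · refine ⟨∅, MeasurableSet.empty, measure_empty, ?_⟩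
      have h1 : (ω₂ : Measure UnitAddCircle) Torᶜ = 0 := Measure.restrict_eq_zero.mp hz
      have h2 : ∀ᵐ w ∂(ω₂ : Measure UnitAddCircle), w ∉ Torᶜ := measure_eq_zero_iff_ae_notMem.mp h1
      filter_upwards [h2] with w hw h
      exact absurd h hw
    · have hz0 : ν Set.univ ≠ 0 := fun h => hz (Measure.measure_univ_eq_zero.mp h)
      set ν' := (ν Set.univ)⁻¹ • ν with hν'
      have hprob : IsProbabilityMeasure ν' := by
        constructor
        rw [hν', Measure.smul_apply, smul_eq_mul, ENNReal.inv_mul_cancel hz0 (measure_ne_top _ _)]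
      have hinv : ∀ {r : ℕ}, 0 < r → MeasurePreserving (fun x : UnitAddCircle => r • x)
          (ω₂ : Measure UnitAddCircle) ω₂ →
          MeasurePreserving (fun x : UnitAddCircle => r • x) ν' ν' := by
        intro r hr h
        have h2 := h.restrict_preimage tor_meas.compl
        have h3 : (fun x : UnitAddCircle => r • x) ⁻¹' Torᶜ = Torᶜ := by
          ext z
          simp only [Set.mem_preimage, Set.mem_compl_iff, nsmul_tor hr]
        rw [h3] at h2
        exact h2.smul_measure _
      have hat : ∀ x : UnitAddCircle, ν' {x} = 0 := by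
        intro x
        rw [hν', Measure.smul_apply, hν, Measure.restrict_apply (measurableSet_singleton x)]
        by_cases hx : x ∈ Tor
        · have : ({x} : Set UnitAddCircle) ∩ Torᶜ = ∅ := by
            ext y
            simp only [Set.mem_inter_iff, Set.mem_singleton_iff, Set.mem_compl_iff,
              Set.mem_empty_iff_false, iff_false, not_and, not_not]
            rintro rfl; exact hx
          rw [this, measure_empty, smul_zero]
        · have h1 : (ω₂ : Measure UnitAddCircle) ({x} ∩ Torᶜ) = 0 :=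
            measure_mono_null Set.inter_subset_left (atom_tor hp j4 hx)
          rw [h1, smul_zero]
      obtain ⟨s, hs, hs1, hs2⟩ := noise_core2 (q := q) hp hμp hμq hJ hvol (ω := ν')
        (hinv (by omega) j4) (hinv hq0 j2) hat hc
      refine ⟨s, hs, hs1, ?_⟩
      have hl := lc_meas c
      rw [Measure.map_apply hl hs.compl, Measure.prod_apply_symm (hl hs.compl),
        lintegral_eq_zero_iff (measurable_measure_prodMk_right (hl hs.compl))] at hs2
      have h4 : ∀ᵐ w ∂ν, μ ((fun x => (x, w)) ⁻¹'
          ((fun z : UnitAddCircle × UnitAddCircle => c • z.1 + z.2) ⁻¹' sᶜ)) = 0 := by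
        have h5 : ν ≪ ν' := by
          refine Measure.absolutelyContinuous_of_le_smul (c := ν Set.univ) ?_
          rw [hν', smul_smul, ENNReal.mul_inv_cancel hz0 (measure_ne_top _ _), one_smul]
        exact h5.ae_le hs2
      rw [hν, ae_restrict_iff' tor_meas.compl] at h4
      filter_upwards [h4] with w hw h
      have hm : MeasurableSet {x : UnitAddCircle | x + w ∉ s} := by
        have : Measurable (fun x : UnitAddCircle => x + w) := by fun_prop
        exact this hs.compl
      rw [hθ, Measure.map_apply hcm hm]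
      exact hw h
  -- the torsion translations
  have htor : ∀ r ∈ Tor, ∃ S : Set UnitAddCircle, MeasurableSet S ∧ μ S = 0 ∧
      θ {x | x + r ∉ S} = 0 := by
    intro r hr
    obtain ⟨d, hd, hdr⟩ := hr
    have hdm := zsmul_meas (d : ℤ)
    have h1 : (μ.map (fun x : UnitAddCircle => (d : ℤ) • x)).MutuallySingular
        (μ.map (fun x : UnitAddCircle => (d * c : ℤ) • x)) := by
      have p1 : IsProbabilityMeasure (μ.map (fun x : UnitAddCircle => (d : ℤ) • x)) :=
        Measure.isProbabilityMeasure_map hdm.aemeasurable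
      have p2 : IsProbabilityMeasure (μ.map (fun x : UnitAddCircle => (d * c : ℤ) • x)) :=
        Measure.isProbabilityMeasure_map (zsmul_meas _).aemeasurable
      by_contra h
      exact hne d hd (JE.eq_of_not_singular (image_inv hμp _) (image_inv hμq _)
        (image_inv hμp _) (image_inv hμq _) (hJ'.image _) (hJ'.image _) h).symm
    obtain ⟨s, hs, hs1, hs2⟩ := h1
    refine ⟨(fun x : UnitAddCircle => (d : ℤ) • x) ⁻¹' s, hdm hs, ?_, ?_⟩
    · rw [← Measure.map_apply hdm hs]; exact hs1
    · have hm : MeasurableSet {x : UnitAddCircle | x + r ∉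
          (fun x : UnitAddCircle => (d : ℤ) • x) ⁻¹' s} := by
        have : Measurable (fun x : UnitAddCircle => x + r) := by fun_prop
        exact this (hdm hs).compl
      rw [hθ, Measure.map_apply hcm hm]
      rw [Measure.map_apply (zsmul_meas _) hs.compl] at hs2
      convert hs2 using 2
      ext x
      simp only [Set.mem_preimage, Set.mem_ofPred_eq, Set.mem_compl_iff]
      have : (d : ℤ) • (c • x + r) = ((d : ℤ) * c) • x := by
        rw [smul_add, natCast_zsmul r d, hdr, add_zero, mul_smul]
      rw [this]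
  choose! T hT1 hT2 hT3 using htor
  set S := S₁ ∪ ⋃ r ∈ Tor, T r with hS
  have hSm : MeasurableSet S := hS₁.union (MeasurableSet.biUnion tor_countable hT1)
  have hS0 : μ S = 0 := by
    rw [hS, measure_union_null_iff]
    exact ⟨hS₁μ, (measure_biUnion_null_iff tor_countable).mpr hT2⟩
  have hlaw : ((θ.prod (ω₂ : Measure UnitAddCircle)).map
      (fun z : UnitAddCircle × UnitAddCircle => z.1 + z.2)) Sᶜ = 0 := by
    rw [Measure.map_apply ha hSm.compl, Measure.prod_apply_symm (ha hSm.compl),
      lintegral_eq_zero_iff (measurable_measure_prodMk_right (ha hSm.compl))]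
    filter_upwards [hS₁w] with w hw
    by_cases hwt : w ∈ Tor
    · refine measure_mono_null (fun x hx => ?_) (hT3 w hwt)
      have hx' : x + w ∉ S := hx
      intro h
      exact hx' (Or.inr (Set.mem_biUnion hwt h))
    · refine measure_mono_null (fun x hx => ?_) (hw hwt)
      have hx' : x + w ∉ S := hx
      intro h
      exact hx' (Or.inl h)
  have hsing : μ.MutuallySingular ((θ.prod (ω₂ : Measure UnitAddCircle)).map
      (fun z : UnitAddCircle × UnitAddCircle => z.1 + z.2)) := ⟨S, hSm, hS0, hlaw⟩
  have h0 : μ = 0 := Measure.eq_zero_of_absolutelyContinuous_of_mutuallySingular hac hsing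
  have : μ Set.univ = 1 := measure_univ
  rw [h0] at this
  simp at this

/-- **One set for all translates of the image.** -/
theorem trans_all {p q : ℕ} (hp : 2 ≤ p) {μ : Measure UnitAddCircle} [IsProbabilityMeasure μ]
    (hμp : MeasurePreserving (fun x : UnitAddCircle => p • x) μ μ)
    (hμq : MeasurePreserving (fun x : UnitAddCircle => q • x) μ μ)
    (hJ : ∀ E : Set UnitAddCircle, MeasurableSet E →
      (fun x : UnitAddCircle => p • x) ⁻¹' E = E → (fun x : UnitAddCircle => q • x) ⁻¹' E = E →
        μ E = 0 ∨ μ E = 1)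
    (hvol : μ ≠ volume) {c : ℤ} (hc : c ≠ 0)
    (hne : ∀ d : ℕ, 1 ≤ d → μ.map (fun x : UnitAddCircle => (d * c : ℤ) • x) ≠
      μ.map (fun x : UnitAddCircle => (d : ℤ) • x)) :
    ∃ A : Set UnitAddCircle, MeasurableSet A ∧ μ Aᶜ = 0 ∧
      ∀ t : UnitAddCircle, μ {x | c • x + t ∈ A} = 0 := by
  have hcm := zsmul_meas c
  have : IsProbabilityMeasure (μ.map (fun x : UnitAddCircle => c • x)) :=
    Measure.isProbabilityMeasure_map hcm.aemeasurable
  obtain ⟨A, hA, hA1, hA2⟩ := unif_set (μ := μ) (θ := μ.map (fun x : UnitAddCircle => c • x))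
    (fun ω _ => sing_all hp hμp hμq hJ hvol hc hne ω)
  refine ⟨A, hA, hA1, fun t => ?_⟩
  have h1 := hA2 t
  have hm : MeasurableSet {x : UnitAddCircle | x + t ∈ A} := by
    have : Measurable (fun x : UnitAddCircle => x + t) := by fun_prop
    exact this hA
  rw [Measure.map_apply hcm hm] at h1
  exact h1

end Pool.Agent.Zk32
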