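import Mathlib
import Pool.Agent.Zk32.TrD

set_option autoImplicit false

open MeasureTheory Filter Topology Set
open scoped ENNReal

namespace Pool.Agent.Zk32

/-- the points killed by `d` -/
def kd (d : ℕ) : AddSubgroup UnitAddCircle := (nsmulAddMonoidHom (α := UnitAddCircle) d).ker

lemma mem_kd {d : ℕ} {t : UnitAddCircle} : t ∈ kd d ↔ d • t = 0 := by
  simp [kd, AddMonoidHom.mem_ker]

lemma finite_kd {d : ℕ} (hd : 0 < d) : Finite (kd d) := by
  have h := AddCircle.finite_torsion (p := (1 : ℝ)) hd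
  refine Set.Finite.to_subtype (h.subset ?_)
  intro t ht
  exact mem_kd.mp ht

/-- a measurable section of multiplication by `d` -/
noncomputable def sec (d : ℕ) (y : UnitAddCircle) : UnitAddCircle :=
  (((AddCircle.measurableEquivIco 1 0 y : ℝ) / d : ℝ) : UnitAddCircle)

lemma sec_meas (d : ℕ) : Measurable (sec d) := by
  unfold sec
  have h1 : Measurable (fun r : ℝ => (r : UnitAddCircle)) := AddCircle.measurable_mk'
  have h2 : Measurable (fun y : UnitAddCircle => (AddCircle.measurableEquivIco 1 0 y : ℝ)) :=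
    measurable_subtype_coe.comp (AddCircle.measurableEquivIco 1 0).measurable
  exact h1.comp (h2.div_const _)

lemma sec_smul {d : ℕ} (hd : 0 < d) (y : UnitAddCircle) : d • sec d y = y := by
  unfold sec
  rw [← AddCircle.coe_nsmul, nsmul_eq_mul, mul_div_cancel₀]
  · exact (AddCircle.equivIco 1 0).symm_apply_apply y
  · exact_mod_cast hd.ne'

lemma fold {d : ℕ} (hd : 0 < d) [Fintype (kd d)] (F : UnitAddCircle → ℝ≥0∞) (z : UnitAddCircle) :
    ∑ t : kd d, F (sec d (d • z) + t) = ∑ t : kd d, F (z + t) := by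
  have h1 : sec d (d • z) - z ∈ kd d := by
    rw [mem_kd, smul_sub, sec_smul hd, sub_self]
  set u : kd d := ⟨sec d (d • z) - z, h1⟩ with hu
  rw [← Equiv.sum_comp (Equiv.addLeft u) (fun t : kd d => F (z + t))]
  refine Finset.sum_congr rfl fun t _ => ?_
  congr 1
  simp only [Equiv.coe_addLeft, AddSubgroup.coe_add, hu]
  abel

/-- the sum over the translates by the points killed by `d` -/
lemma sum_trans {μ : Measure UnitAddCircle} [IsProbabilityMeasure μ] {c : ℤ} {d : ℕ} (hd : 0 < d)
    [Fintype (kd d)]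
    (h : μ.map (fun x : UnitAddCircle => (d * c : ℤ) • x) =
      μ.map (fun x : UnitAddCircle => (d : ℤ) • x)) {A : Set UnitAddCircle} (hA : MeasurableSet A) :
    ∑ t : kd d, μ {x | c • x + t ∈ A} = ∑ t : kd d, μ {x | x + t ∈ A} := by
  set F : UnitAddCircle → ℝ≥0∞ := A.indicator 1 with hF
  have hFm : Measurable F := measurable_one.indicator hA
  set G : UnitAddCircle → ℝ≥0∞ := fun y => ∑ t : kd d, F (sec d y + t) with hG
  have hGm : Measurable G := by
    refine Finset.measurable_sum _ fun t _ => ?_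
    exact hFm.comp ((sec_meas d).add_const _)
  have key : ∀ e : ℤ, ∑ t : kd d, μ {x | e • x + t ∈ A} = ∫⁻ x, G ((d * e : ℤ) • x) ∂μ := by
    intro e
    have h1 : ∀ x : UnitAddCircle, G ((d * e : ℤ) • x) = ∑ t : kd d, F (e • x + t) := by
      intro x
      rw [hG]
      simp only
      have h2 : ((d : ℤ) * e) • x = d • (e • x) := by
        rw [mul_smul, natCast_zsmul]
      rw [h2]
      exact fold hd F (e • x)
    simp_rw [h1]
    rw [lintegral_finsetSum]
    · refine Finset.sum_congr rfl fun t _ => ?_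
      have hm : MeasurableSet {x : UnitAddCircle | e • x + t ∈ A} :=
        ((zsmul_meas e).add_const (t : UnitAddCircle)) hA
      rw [← lintegral_indicator_one hm]
      rfl
    · intro t _
      exact hFm.comp ((zsmul_meas e).add_const _)
  have e1 := key c
  have e2 := key 1
  simp only [one_smul, mul_one] at e2
  rw [e1, e2, ← lintegral_map hGm (zsmul_meas _), ← lintegral_map hGm (zsmul_meas _), h]

/-- **The converse.** -/
theorem trans_conv {μ : Measure UnitAddCircle} [IsProbabilityMeasure μ] {c : ℤ} {d : ℕ}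
    (hd : 1 ≤ d)
    (h : μ.map (fun x : UnitAddCircle => (d * c : ℤ) • x) =
      μ.map (fun x : UnitAddCircle => (d : ℤ) • x)) {A : Set UnitAddCircle}
    (hA : MeasurableSet A) (hA1 : μ Aᶜ = 0) :
    ∃ t : UnitAddCircle, d • t = 0 ∧ μ {x | c • x + t ∈ A} ≠ 0 := by
  have hfin := finite_kd (d := d) (by omega)
  have := Fintype.ofFinite (kd d)
  by_contra hcon
  push Not at hcon
  have h1 : ∑ t : kd d, μ {x | c • x + t ∈ A} = 0 :=
    Finset.sum_eq_zero fun t _ => hcon t (mem_kd.mp t.2)
  rw [sum_trans (by omega) h hA] at h1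
  have h2 := (Finset.sum_eq_zero_iff.mp h1) 0 (Finset.mem_univ _)
  have h3 : {x : UnitAddCircle | x + ((0 : kd d) : UnitAddCircle) ∈ A} = A := by
    ext x; simp
  rw [h3] at h2
  have h4 : μ Set.univ ≤ μ A + μ Aᶜ := by
    rw [← Set.union_compl_self A]
    exact measure_union_le _ _
  rw [h2, hA1, measure_univ, add_zero] at h4
  exact absurd h4 (by simp)

/-- **The equivalence.** -/
theorem trans_iff {p q : ℕ} (hp : 2 ≤ p) {μ : Measure UnitAddCircle} [IsProbabilityMeasure μ]
    (hμp : MeasurePreserving (fun x : UnitAddCircle => p • x) μ μ)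
    (hμq : MeasurePreserving (fun x : UnitAddCircle => q • x) μ μ)
    (hJ : ∀ E : Set UnitAddCircle, MeasurableSet E →
      (fun x : UnitAddCircle => p • x) ⁻¹' E = E → (fun x : UnitAddCircle => q • x) ⁻¹' E = E →
        μ E = 0 ∨ μ E = 1)
    (hvol : μ ≠ volume) {c : ℤ} (hc : c ≠ 0) :
    (∃ A : Set UnitAddCircle, MeasurableSet A ∧ μ Aᶜ = 0 ∧
      ∀ t : UnitAddCircle, μ {x | c • x + t ∈ A} = 0) ↔
    ∀ d : ℕ, 1 ≤ d → μ.map (fun x : UnitAddCircle => (d * c : ℤ) • x) ≠
      μ.map (fun x : UnitAddCircle => (d : ℤ) • x) := by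
  constructor
  · rintro ⟨A, hA, hA1, hA2⟩ d hd h
    obtain ⟨t, -, ht⟩ := trans_conv hd h hA hA1
    exact ht (hA2 t)
  · intro h
    exact trans_all hp hμp hμq hJ hvol hc h

end Pool.Agent.Zk32
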