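import Mathlib
import Pool.Agent.Zk32.TrD
import Pool.Agent.Zk32.MeanF

/-!
Averages over finite sets of exponents, Folner sequences and generic points
-/

set_option autoImplicit false

open MeasureTheory Filter Topology Set
open scoped ENNReal

namespace Pool.Agent.Zk32

/-- the average of `g (p ^ i * q ^ j * x)` over a finite set of exponents `(i, j)` -/
noncomputable def ave (p q : ℕ) (F : Finset (ℕ × ℕ)) (g : UnitAddCircle → ℝ)
    (x : UnitAddCircle) : ℝ :=
  (F.card : ℝ)⁻¹ * ∑ n ∈ F, g ((p ^ n.1 * q ^ n.2) • x)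

/-- `F k` is a Folner sequence of finite nonempty subsets of `ℕ × ℕ`: the proportion of the elements
which leave `F k` under `(i, j) ↦ (i + 1, j)`, and under `(i, j) ↦ (i, j + 1)`, tends to zero. -/
def Folner (F : ℕ → Finset (ℕ × ℕ)) : Prop :=
  (∀ k, (F k).Nonempty) ∧
  Tendsto (fun k => (((F k).filter fun n => (n.1 + 1, n.2) ∉ F k).card : ℝ) / (F k).card)
    atTop (𝓝 0) ∧
  Tendsto (fun k => (((F k).filter fun n => (n.1, n.2 + 1) ∉ F k).card : ℝ) / (F k).card)
    atTop (𝓝 0)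

/-- the points which are generic for `μ` along `F` -/
def Gen (p q : ℕ) (F : ℕ → Finset (ℕ × ℕ)) (μ : Measure UnitAddCircle) : Set UnitAddCircle :=
  {x | ∀ g : C(UnitAddCircle, ℝ), Tendsto (fun k => ave p q (F k) g x) atTop (𝓝 (∫ y, g y ∂μ))}

/-- the averages over `F k` of the images of `ω` converge weakly to `κ` -/
def Lim (p q : ℕ) (F : ℕ → Finset (ℕ × ℕ)) (ω κ : Measure UnitAddCircle) : Prop :=
  ∀ g : C(UnitAddCircle, ℝ), Tendsto (fun k => ∫ x, ave p q (F k) g x ∂ω) atTop (𝓝 (∫ y, g y ∂κ))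

end Pool.Agent.Zk32
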