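import Mathlib
import Pool.Agent.Zk32.Gp0
import Pool.Agent.Zk32.Chn13

set_option autoImplicit false
set_option linter.unusedSectionVars false

open MeasureTheory Filter Topology Set
open scoped ENNReal NNReal BoundedContinuousFunction

namespace Pool.Agent.Zk32

section Gen

variable {X : Type*} [AddCommGroup X] [MetricSpace X] [IsTopologicalAddGroup X]
  [CompactSpace X] [MeasurableSpace X] [BorelSpace X]

lemma int_contX (κ : Measure X) [IsFiniteMeasure κ] (g : C(X, ℝ)) : Integrable g κ :=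
  g.continuous.integrable_of_hasCompactSupport (HasCompactSupport.of_compactSpace g)

/-- approximating a closed set from above by continuous functions -/
lemma exists_cont_aboveX (σ : Measure X) [IsFiniteMeasure σ] {F : Set X}
    (hF : IsClosed F) {ε : ℝ} (hε : 0 < ε) :
    ∃ g : C(X, ℝ), (∀ x, 0 ≤ g x) ∧ (∀ x, g x ≤ 1) ∧ (∀ x ∈ F, g x = 1) ∧
      ∫ x, g x ∂σ < σ.real F + ε := by
  have hpos : ∀ n : ℕ, (0 : ℝ) < 1 / ((n : ℝ) + 1) := fun n => by positivity
  have h := tendsto_integral_thickenedIndicator_of_isClosed σ hF hpos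
    tendsto_one_div_add_atTop_nhds_zero_nat
  have hev := (tendsto_order.mp h).2 (σ.real F + ε) (by linarith)
  obtain ⟨n, hn⟩ := hev.exists
  refine ⟨⟨fun x => ((thickenedIndicator (hpos n) F x : ℝ≥0) : ℝ), ?_⟩, ?_, ?_, ?_, ?_⟩
  · exact NNReal.continuous_coe.comp (thickenedIndicator (hpos n) F).continuous
  · intro x; exact NNReal.coe_nonneg _
  · intro x
    have := thickenedIndicator_le_one (hpos n) F x
    exact_mod_cast this
  · intro x hx
    have := thickenedIndicator_one (hpos n) F hx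
    change ((thickenedIndicator (hpos n) F x : ℝ≥0) : ℝ) = 1
    rw [this]; rfl
  · exact hn

/-- domination of integrals of continuous functions implies absolute continuity -/
lemma ac_of_leX {κ σ : Measure X} [IsFiniteMeasure κ] [IsFiniteMeasure σ] {D : ℝ}
    (hD : 0 < D) (h : ∀ g : C(X, ℝ), (∀ x, 0 ≤ g x) → ∫ x, g x ∂κ ≤ D * ∫ x, g x ∂σ) :
    κ ≪ σ := by
  intro S hS
  obtain ⟨S', hSS', hS'm, hS'0⟩ := exists_measurable_superset_of_null hS
  refine measure_mono_null hSS' ?_
  rw [hS'm.measure_eq_iSup_isClosed_of_ne_top (measure_ne_top κ _)]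
  simp only [ENNReal.iSup_eq_zero]
  intro F hFS hF
  have hσF : σ.real F = 0 := by
    rw [Measure.real, measure_mono_null hFS hS'0]; rfl
  have hκ : κ.real F ≤ 0 := by
    refine le_of_forall_pos_le_add (fun ε hε => ?_)
    obtain ⟨g, hg0, hg1, hgF, hg⟩ := exists_cont_aboveX σ hF (ε := ε / D) (by positivity)
    have h1 := h g hg0
    have h2 : κ.real F ≤ ∫ x, g x ∂κ := by
      have : ∫ x, F.indicator (fun _ => (1 : ℝ)) x ∂κ ≤ ∫ x, g x ∂κ := by
        apply integral_mono ((integrable_const _).indicator hF.measurableSet) (int_contX κ g)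
        intro x
        by_cases hx : x ∈ F
        · simp only; rw [Set.indicator_of_mem hx, hgF x hx]
        · simp only; rw [Set.indicator_of_notMem hx]; exact hg0 x
      rw [integral_indicator_const _ hF.measurableSet] at this
      simpa using this
    have h3 : D * ∫ x, g x ∂σ ≤ D * (ε / D) := by
      apply mul_le_mul_of_nonneg_left _ hD.le
      rw [hσF] at hg
      linarith
    have h4 : D * (ε / D) = ε := by field_simp
    linarith
  have h5 : κ.real F = 0 := le_antisymm hκ measureReal_nonneg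
  exact (measureReal_eq_zero_iff (measure_ne_top κ F)).mp h5

lemma nsmul_cont (n : ℕ) : Continuous (fun x : X => n • x) := continuous_nsmul n

lemma nsmul_measX (n : ℕ) : Measurable (fun x : X => n • x) := (nsmul_cont n).measurable

/-- multiplication as a continuous map -/
def mulX (n : ℕ) : C(X, X) := ⟨fun x => n • x, nsmul_cont n⟩

lemma mulX_apply (n : ℕ) (x : X) : mulX n x = n • x := rfl

lemma inv_iffX {κ : Measure X} [IsFiniteMeasure κ] (n : ℕ) :
    MeasurePreserving (fun x : X => n • x) κ κ ↔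
      ∀ g : C(X, ℝ), ∫ x, g (n • x) ∂κ = ∫ x, g x ∂κ := by
  constructor
  · intro h g
    have := integral_map (μ := κ) h.measurable.aemeasurable (f := g)
      g.continuous.aestronglyMeasurable
    rw [h.map_eq] at this
    exact this.symm
  · intro h
    refine ⟨nsmul_measX n, ?_⟩
    have : IsFiniteMeasure (κ.map (fun x : X => n • x)) := by infer_instance
    refine ext_of_forall_integral_eq_of_IsFiniteMeasure fun f => ?_
    rw [integral_map (nsmul_measX n).aemeasurable f.continuous.aestronglyMeasurable]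
    exact h f.toContinuousMap

/-- averages over exponents, in general -/
noncomputable def aveX (p q : ℕ) (F : Finset (ℕ × ℕ)) (g : X → ℝ) (x : X) : ℝ :=
  (F.card : ℝ)⁻¹ * ∑ n ∈ F, g ((p ^ n.1 * q ^ n.2) • x)

lemma cont_boundX (g : C(X, ℝ)) : ∃ B : ℝ, 0 ≤ B ∧ ∀ x, |g x| ≤ B := by
  obtain ⟨B, hB⟩ := (isCompact_univ (X := X)).exists_bound_of_continuousOn
    g.continuous.continuousOn
  exact ⟨B, (norm_nonneg _).trans (hB 0 (Set.mem_univ _)), fun x => hB x (Set.mem_univ _)⟩

omit [MetricSpace X] [IsTopologicalAddGroup X] [CompactSpace X] [MeasurableSpace X]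
  [BorelSpace X] in
lemma aveX_le {p q : ℕ} {F : Finset (ℕ × ℕ)} {g : X → ℝ} {B : ℝ} (hB0 : 0 ≤ B)
    (hB : ∀ x, |g x| ≤ B) (x : X) : |aveX p q F g x| ≤ B := by
  unfold aveX
  rw [abs_mul, abs_of_nonneg (by positivity : (0 : ℝ) ≤ (F.card : ℝ)⁻¹)]
  rcases F.eq_empty_or_nonempty with h | h
  · subst h; simpa using hB0
  · have hc : (0 : ℝ) < F.card := by exact_mod_cast h.card_pos
    rw [inv_mul_le_iff₀ hc]
    calc |∑ n ∈ F, g ((p ^ n.1 * q ^ n.2) • x)| ≤ ∑ n ∈ F, |g ((p ^ n.1 * q ^ n.2) • x)| :=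
          Finset.abs_sum_le_sum_abs _ _
      _ ≤ ∑ _n ∈ F, B := Finset.sum_le_sum fun n _ => hB _
      _ = F.card * B := by rw [Finset.sum_const, nsmul_eq_mul]

lemma aveX_cont {p q : ℕ} {F : Finset (ℕ × ℕ)} (g : C(X, ℝ)) :
    Continuous (aveX p q F g) := by
  unfold aveX
  refine continuous_const.mul (continuous_finsetSum _ fun n _ => ?_)
  exact g.continuous.comp (nsmul_cont _)

/-- the averages are given by a probability measure -/
lemma aveX_exists {p q : ℕ} {F : Finset (ℕ × ℕ)} (hF : F.Nonempty) (σ : ProbabilityMeasure X) :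
    ∃ τ : ProbabilityMeasure X, ∀ g : C(X, ℝ),
      ∫ x, g x ∂(τ : Measure X) = ∫ x, aveX p q F g x ∂(σ : Measure X) := by
  set ν : Measure X := ((F.card : ℝ≥0) : ℝ≥0∞)⁻¹ • ∑ n ∈ F,
    (σ : Measure X).map (fun x : X => (p ^ n.1 * q ^ n.2) • x) with hν
  have hcR : (0 : ℝ≥0) < F.card := by exact_mod_cast hF.card_pos
  have hp : IsProbabilityMeasure ν := by
    constructor
    rw [hν, Measure.smul_apply, Measure.finsetSum_apply]
    have h1 : ∀ n ∈ F, (σ : Measure X).map (fun x : X => (p ^ n.1 * q ^ n.2) • x) Set.univ = 1 := by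
      intro n _
      rw [Measure.map_apply (nsmul_measX _) MeasurableSet.univ, Set.preimage_univ, measure_univ]
    rw [Finset.sum_congr rfl h1]
    simp only [Finset.sum_const, smul_eq_mul, nsmul_eq_mul, mul_one]
    rw [show ((F.card : ℝ≥0∞)) = ((F.card : ℝ≥0) : ℝ≥0∞) by push_cast; rfl]
    exact ENNReal.inv_mul_cancel (by rw [ENNReal.coe_ne_zero]; exact hcR.ne') ENNReal.coe_ne_top
  refine ⟨⟨ν, hp⟩, fun g => ?_⟩
  change ∫ x, g x ∂ν = _
  rw [hν, integral_smul_measure, integral_finsetSum_measure]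
  · unfold aveX
    rw [integral_const_mul, smul_eq_mul]
    congr 1
    · rw [ENNReal.toReal_inv]; simp
    · rw [integral_finsetSum]
      · refine Finset.sum_congr rfl fun n _ => ?_
        rw [integral_map (nsmul_measX _).aemeasurable g.continuous.aestronglyMeasurable]
      · intro n _
        exact int_contX _ (g.comp (mulX (p ^ n.1 * q ^ n.2)))
  · intro n _
    exact int_contX _ g

end Gen

/-- shifting a finite set of exponents -/
lemma shift_sumF {F : Finset (ℕ × ℕ)} {s : ℕ × ℕ → ℕ × ℕ} (hs : Function.Injective s)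
    {f : ℕ × ℕ → ℝ} {B : ℝ} (h : ∀ n, |f n| ≤ B) :
    |∑ n ∈ F, f (s n) - ∑ n ∈ F, f n| ≤ 2 * B * (F.filter fun n => s n ∉ F).card := by
  classical
  have e1 : ∑ n ∈ F, f (s n) = ∑ m ∈ F.image s, f m :=
    (Finset.sum_image fun a _ b _ hab => hs hab).symm
  have hc1 : (F.image s \ F).card = (F.filter fun n => s n ∉ F).card := by
    have : F.image s \ F = (F.filter fun n => s n ∉ F).image s := by
      ext m
      simp only [Finset.mem_sdiff, Finset.mem_image, Finset.mem_filter]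
      constructor
      · rintro ⟨⟨a, ha, rfl⟩, hm⟩
        exact ⟨a, ⟨ha, hm⟩, rfl⟩
      · rintro ⟨a, ⟨ha, hm⟩, rfl⟩
        exact ⟨⟨a, ha, rfl⟩, hm⟩
    rw [this, Finset.card_image_of_injective _ hs]
  have hc2 : (F \ F.image s).card = (F.filter fun n => s n ∉ F).card := by
    rw [← hc1]
    have h1 := Finset.card_sdiff_add_card_inter F (F.image s)
    have h2 := Finset.card_sdiff_add_card_inter (F.image s) F
    rw [Finset.inter_comm, Finset.card_image_of_injective _ hs] at h2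
    omega
  rw [e1, ← Finset.sum_sdiff_sub_sum_sdiff]
  have b : ∀ S : Finset (ℕ × ℕ), |∑ n ∈ S, f n| ≤ B * S.card := by
    intro S
    calc |∑ n ∈ S, f n| ≤ ∑ n ∈ S, |f n| := Finset.abs_sum_le_sum_abs _ _
      _ ≤ ∑ _n ∈ S, B := Finset.sum_le_sum fun n _ => h n
      _ = B * S.card := by rw [Finset.sum_const, nsmul_eq_mul]; ring
  have b1 := b (F.image s \ F)
  have b2 := b (F \ F.image s)
  rw [hc1] at b1
  rw [hc2] at b2
  have h1 := abs_sub (∑ n ∈ F.image s \ F, f n) (∑ n ∈ F \ F.image s, f n)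
  linarith

section Inv

variable {X : Type*} [AddCommGroup X] [MetricSpace X] [IsTopologicalAddGroup X]
  [CompactSpace X] [MeasurableSpace X] [BorelSpace X]

omit [MetricSpace X] [IsTopologicalAddGroup X] [CompactSpace X] [MeasurableSpace X]
  [BorelSpace X] in
lemma aveX_shift_p {p q : ℕ} {F : Finset (ℕ × ℕ)} {g : X → ℝ} {B : ℝ}
    (hB : ∀ x, |g x| ≤ B) (x : X) :
    |aveX p q F (fun y => g (p • y)) x - aveX p q F g x| ≤
      2 * B * (((F.filter fun n => (n.1 + 1, n.2) ∉ F).card : ℝ) / F.card) := by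
  have hs : Function.Injective (fun n : ℕ × ℕ => (n.1 + 1, n.2)) := by
    rintro ⟨a, b⟩ ⟨c, d⟩ h
    simp only [Prod.mk.injEq, add_left_inj] at h
    rw [Prod.mk.injEq]; exact h
  have h1 := shift_sumF (F := F) hs (f := fun n => g ((p ^ n.1 * q ^ n.2) • x)) (B := B)
    (fun n => hB _)
  have e : ∀ n : ℕ × ℕ, g (p • ((p ^ n.1 * q ^ n.2) • x)) =
      g ((p ^ (n.1 + 1) * q ^ n.2) • x) := by
    intro n
    rw [smul_smul]; congr 2; ring
  unfold aveX
  simp only [e]
  rw [← mul_sub, abs_mul, abs_of_nonneg (by positivity : (0 : ℝ) ≤ (F.card : ℝ)⁻¹)]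
  calc (F.card : ℝ)⁻¹ * _ ≤ (F.card : ℝ)⁻¹ *
        (2 * B * (F.filter fun n => (n.1 + 1, n.2) ∉ F).card) :=
        mul_le_mul_of_nonneg_left h1 (by positivity)
    _ = _ := by ring

omit [MetricSpace X] [IsTopologicalAddGroup X] [CompactSpace X] [MeasurableSpace X]
  [BorelSpace X] in
lemma aveX_shift_q {p q : ℕ} {F : Finset (ℕ × ℕ)} {g : X → ℝ} {B : ℝ}
    (hB : ∀ x, |g x| ≤ B) (x : X) :
    |aveX p q F (fun y => g (q • y)) x - aveX p q F g x| ≤
      2 * B * (((F.filter fun n => (n.1, n.2 + 1) ∉ F).card : ℝ) / F.card) := by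
  have hs : Function.Injective (fun n : ℕ × ℕ => (n.1, n.2 + 1)) := by
    rintro ⟨a, b⟩ ⟨c, d⟩ h
    simp only [Prod.mk.injEq, add_left_inj] at h
    rw [Prod.mk.injEq]; exact h
  have h1 := shift_sumF (F := F) hs (f := fun n => g ((p ^ n.1 * q ^ n.2) • x)) (B := B)
    (fun n => hB _)
  have e : ∀ n : ℕ × ℕ, g (q • ((p ^ n.1 * q ^ n.2) • x)) =
      g ((p ^ n.1 * q ^ (n.2 + 1)) • x) := by
    intro n
    rw [smul_smul]; congr 2; ring
  unfold aveX
  simp only [e]
  rw [← mul_sub, abs_mul, abs_of_nonneg (by positivity : (0 : ℝ) ≤ (F.card : ℝ)⁻¹)]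
  calc (F.card : ℝ)⁻¹ * _ ≤ (F.card : ℝ)⁻¹ *
        (2 * B * (F.filter fun n => (n.1, n.2 + 1) ∉ F).card) :=
        mul_le_mul_of_nonneg_left h1 (by positivity)
    _ = _ := by ring

/-- limits of averages along a Folner sequence are invariant -/
lemma lim_inv {p q : ℕ} {F : ℕ → Finset (ℕ × ℕ)} (hF : Folner F) {𝒰 : Filter ℕ} [NeBot 𝒰]
    (h𝒰 : 𝒰 ≤ atTop) {σ σ' : Measure X} [IsProbabilityMeasure σ] [IsFiniteMeasure σ']
    (h : ∀ g : C(X, ℝ), Tendsto (fun k => ∫ x, aveX p q (F k) g x ∂σ) 𝒰 (𝓝 (∫ x, g x ∂σ'))) :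
    MeasurePreserving (fun x : X => p • x) σ' σ' ∧
      MeasurePreserving (fun x : X => q • x) σ' σ' := by
  have key : ∀ (r : ℕ) (δ : ℕ → ℝ), Tendsto δ atTop (𝓝 0) →
      (∀ (g : X → ℝ) (B : ℝ), (∀ x, |g x| ≤ B) → ∀ k x,
        |aveX p q (F k) (fun y => g (r • y)) x - aveX p q (F k) g x| ≤ 2 * B * δ k) →
      MeasurePreserving (fun x : X => r • x) σ' σ' := by
    intro r δ hδ hb
    rw [inv_iffX]
    intro g
    obtain ⟨B, hB0, hB⟩ := cont_boundX g
    have h1 := (h (g.comp (mulX r))).sub (h g)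
    have h2 : Tendsto (fun k => ∫ x, aveX p q (F k) (g.comp (mulX r)) x ∂σ -
        ∫ x, aveX p q (F k) g x ∂σ) 𝒰 (𝓝 0) := by
      have h3 : Tendsto (fun k => 2 * B * δ k) 𝒰 (𝓝 0) := by
        have h4 := (hδ.const_mul (2 * B)).mono_left h𝒰
        rwa [mul_zero] at h4
      refine squeeze_zero_norm (fun k => ?_) h3
      have i1 : Integrable (aveX p q (F k) (g.comp (mulX r))) σ :=
        int_contX σ ⟨_, aveX_cont (g.comp (mulX r))⟩
      have i2 : Integrable (aveX p q (F k) g) σ := int_contX σ ⟨_, aveX_cont g⟩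
      rw [← integral_sub i1 i2]
      have h5 := norm_integral_le_of_norm_le_const (μ := σ)
        (f := fun x => aveX p q (F k) (g.comp (mulX r)) x - aveX p q (F k) g x)
        (C := 2 * B * δ k) (Eventually.of_forall fun x => hb g B hB k x)
      simpa using h5
    have h3 := tendsto_nhds_unique h1 h2
    have h4 : ∫ x, (g.comp (mulX r)) x ∂σ' = ∫ x, g x ∂σ' := by linarith
    exact h4
  exact ⟨key p _ hF.2.1 fun g B hB k x => aveX_shift_p hB x,
    key q _ hF.2.2 fun g B hB k x => aveX_shift_q hB x⟩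

/-- existence of limits along an ultrafilter -/
lemma lim_exists {p q : ℕ} {F : ℕ → Finset (ℕ × ℕ)} (hF : Folner F) (𝒰 : Ultrafilter ℕ)
    (σ : Measure X) [IsProbabilityMeasure σ] :
    ∃ κ : Measure X, IsProbabilityMeasure κ ∧ ∀ g : C(X, ℝ),
      Tendsto (fun k => ∫ x, aveX p q (F k) g x ∂σ) (𝒰 : Filter ℕ) (𝓝 (∫ x, g x ∂κ)) := by
  choose τ hτ using fun k => aveX_exists (p := p) (q := q) (hF.1 k)
    (⟨σ, inferInstance⟩ : ProbabilityMeasure X)
  obtain ⟨κ, -, hκ⟩ := (isCompact_univ (X := ProbabilityMeasure X)).ultrafilter_le_nhds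
      (𝒰.map τ) (by simp)
  refine ⟨(κ : Measure X), inferInstance, fun g => ?_⟩
  have h1 : Tendsto τ (𝒰 : Filter ℕ) (𝓝 κ) := hκ
  rw [ProbabilityMeasure.tendsto_iff_forall_integral_tendsto] at h1
  refine (h1 (BoundedContinuousFunction.mkOfCompact g)).congr fun k => ?_
  exact hτ k g

end Inv

end Pool.Agent.Zk32
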