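import Mathlib
import Pool.Agent.Zk32.Gp1

set_option autoImplicit false
set_option linter.unusedSectionVars false

open MeasureTheory Filter Topology Set
open scoped ENNReal NNReal BoundedContinuousFunction

namespace Pool.Agent.Zk32

/-- the smoothing of a function of two variables -/
noncomputable def smo2 (θ : Measure UnitAddCircle) [IsFiniteMeasure θ]
    (G : C(UnitAddCircle × UnitAddCircle, ℝ)) : C(UnitAddCircle, ℝ) where
  toFun s := ∫ v, G (v + s, s) ∂θ
  continuous_toFun := by
    obtain ⟨B, hB0, hB⟩ := cont_boundX G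
    apply continuous_of_dominated (bound := fun _ => B)
    · intro w
      have : Continuous (fun v : UnitAddCircle => G (v + w, w)) := by fun_prop
      exact this.aestronglyMeasurable
    · intro w
      exact Eventually.of_forall fun v => hB _
    · exact integrable_const B
    · refine Eventually.of_forall fun v => ?_
      fun_prop

lemma smo2_apply (θ : Measure UnitAddCircle) [IsFiniteMeasure θ]
    (G : C(UnitAddCircle × UnitAddCircle, ℝ)) (s : UnitAddCircle) :
    smo2 θ G s = ∫ v, G (v + s, s) ∂θ := rfl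

lemma phi_meas : Measurable (fun z : UnitAddCircle × UnitAddCircle => (z.1 + z.2, z.2)) := by
  fun_prop

lemma psi_cont (c : ℤ) :
    Continuous (fun z : UnitAddCircle × UnitAddCircle => (c • z.1 + z.2, z.2)) := by
  fun_prop

lemma int_phi (θ κ : Measure UnitAddCircle) [IsProbabilityMeasure θ] [IsProbabilityMeasure κ]
    (G : C(UnitAddCircle × UnitAddCircle, ℝ)) :
    ∫ z, G z ∂((θ.prod κ).map (fun z : UnitAddCircle × UnitAddCircle => (z.1 + z.2, z.2))) =
      ∫ s, smo2 θ G s ∂κ := by
  rw [integral_map phi_meas.aemeasurable G.continuous.aestronglyMeasurable]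
  have hc : Continuous (fun z : UnitAddCircle × UnitAddCircle => G (z.1 + z.2, z.2)) := by fun_prop
  have hi : Integrable (fun z : UnitAddCircle × UnitAddCircle => G (z.1 + z.2, z.2))
      (θ.prod κ) := int_contX _ ⟨_, hc⟩
  rw [integral_prod_symm _ hi]
  rfl

/-- one multiplier -/
lemma int_one {μ ω : Measure UnitAddCircle} [IsProbabilityMeasure μ] [IsProbabilityMeasure ω]
    {n : ℕ} (hn : MeasurePreserving (fun x : UnitAddCircle => n • x) μ μ) (c : ℤ)
    [IsProbabilityMeasure (μ.map (fun x : UnitAddCircle => c • x))]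
    (G : C(UnitAddCircle × UnitAddCircle, ℝ)) :
    ∫ z, G (n • (c • z.1 + z.2, z.2)) ∂(μ.prod ω) =
      ∫ y, smo2 (μ.map (fun x : UnitAddCircle => c • x)) G (n • y) ∂ω := by
  have hc : Continuous (fun z : UnitAddCircle × UnitAddCircle => G (n • (c • z.1 + z.2, z.2))) := by
    fun_prop
  have hi : Integrable (fun z : UnitAddCircle × UnitAddCircle => G (n • (c • z.1 + z.2, z.2)))
      (μ.prod ω) := int_contX _ ⟨_, hc⟩
  rw [integral_prod_symm _ hi]
  congr 1; funext y
  have hc2 : Continuous (fun v : UnitAddCircle => G (v + n • y, n • y)) := by fun_prop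
  rw [smo2_apply, integral_map (zsmul_meas c).aemeasurable hc2.aestronglyMeasurable]
  have hc3 : Continuous (fun x : UnitAddCircle => G (c • x + n • y, n • y)) := by fun_prop
  have h1 := integral_map (μ := μ) hn.measurable.aemeasurable
    (f := fun x => G (c • x + n • y, n • y)) hc3.aestronglyMeasurable
  rw [hn.map_eq] at h1
  rw [h1]
  congr 1; funext x
  simp only [Prod.smul_mk, smul_add]
  rw [smul_comm n c x]

/-- **The core theorem on generic points.** -/
theorem core {p q : ℕ} (hp : 2 ≤ p) {μ : Measure UnitAddCircle} [IsProbabilityMeasure μ]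
    (hμp : MeasurePreserving (fun x : UnitAddCircle => p • x) μ μ)
    (hμq : MeasurePreserving (fun x : UnitAddCircle => q • x) μ μ)
    (hJ : ∀ E : Set UnitAddCircle, MeasurableSet E →
      (fun x : UnitAddCircle => p • x) ⁻¹' E = E → (fun x : UnitAddCircle => q • x) ⁻¹' E = E →
        μ E = 0 ∨ μ E = 1)
    (hvol : μ ≠ volume) {F : ℕ → Finset (ℕ × ℕ)} (hF : Folner F) {c : ℤ} (hc : c ≠ 0)
    (ω : Measure UnitAddCircle) [IsProbabilityMeasure ω]
    {E : Set (UnitAddCircle × UnitAddCircle)} (hEm : MeasurableSet E)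
    (hE0 : (μ.prod ω) E ≠ 0) (hEG : ∀ z ∈ E, c • z.1 + z.2 ∈ Gen p q F μ)
    (𝒰 : Ultrafilter ℕ) (h𝒰 : (𝒰 : Filter ℕ) ≤ atTop)
    {κ : Measure UnitAddCircle} [IsProbabilityMeasure κ]
    (hκ : ∀ g : C(UnitAddCircle, ℝ), Tendsto (fun k => ∫ z, ave p q (F k) g z.2
      ∂(ProbabilityTheory.cond (μ.prod ω) E)) (𝒰 : Filter ℕ) (𝓝 (∫ x, g x ∂κ))) :
    κ Torᶜ = 0 := by
  by_contra hκ0
  set θ := μ.map (fun x : UnitAddCircle => c • x) with hθ
  have hθprob : IsProbabilityMeasure θ := Measure.isProbabilityMeasure_map (zsmul_meas c).aemeasurable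
  have hS : ∀ i j : ℕ, MeasurePreserving (fun x : UnitAddCircle => (p ^ i * q ^ j) • x) μ μ := by
    intro i j
    have h3 := ((act_pow hμp).mp i).comp ((act_pow hμq).mp j)
    convert h3 using 1
    funext x
    simp only [Function.comp, mul_smul]
  set ρ₀ := ProbabilityTheory.cond (μ.prod ω) E with hρ₀
  have hρ₀p : IsProbabilityMeasure ρ₀ := ProbabilityTheory.cond_isProbabilityMeasure hE0
  have hψ : Measurable (fun z : UnitAddCircle × UnitAddCircle => (c • z.1 + z.2, z.2)) :=
    (psi_cont c).measurable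
  set ρ := ρ₀.map (fun z : UnitAddCircle × UnitAddCircle => (c • z.1 + z.2, z.2)) with hρ
  have hρp : IsProbabilityMeasure ρ := Measure.isProbabilityMeasure_map hψ.aemeasurable
  obtain ⟨J, hJp, hJl⟩ := lim_exists (X := UnitAddCircle × UnitAddCircle) (p := p) (q := q) hF 𝒰 ρ
  obtain ⟨κ₁, hκ₁p, hκ₁⟩ := lim_exists (X := UnitAddCircle) (p := p) (q := q) hF 𝒰 ω
  obtain ⟨hJi, hJi'⟩ := lim_inv hF h𝒰 hJl
  obtain ⟨hκi, hκi'⟩ := lim_inv hF h𝒰 hκ₁
  have hint : ∀ (G : C(UnitAddCircle × UnitAddCircle, ℝ)) (k : ℕ),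
      ∫ z, aveX p q (F k) G z ∂ρ =
        ∫ z, aveX p q (F k) G (c • z.1 + z.2, z.2) ∂ρ₀ := by
    intro G k
    rw [hρ, integral_map hψ.aemeasurable (aveX_cont G).aestronglyMeasurable]
  have hEae : ∀ᵐ z ∂ρ₀, z ∈ E := ProbabilityTheory.ae_cond_mem hEm
  -- the first marginal
  have hfst : J.map Prod.fst = μ := by
    have : IsFiniteMeasure (J.map (Prod.fst : UnitAddCircle × UnitAddCircle → UnitAddCircle)) := by
      infer_instance
    refine ext_of_forall_integral_eq_of_IsFiniteMeasure fun f => ?_
    rw [integral_map measurable_fst.aemeasurable f.continuous.aestronglyMeasurable]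
    set g : C(UnitAddCircle, ℝ) := f.toContinuousMap with hg
    obtain ⟨B, hB0, hB⟩ := cont_boundX g
    have h1 := hJl (g.comp ⟨Prod.fst, continuous_fst⟩)
    have h2 : ∀ k, ∫ z, aveX p q (F k) (g.comp ⟨Prod.fst, continuous_fst⟩) z ∂ρ =
        ∫ z, ave p q (F k) g (c • z.1 + z.2) ∂ρ₀ := by
      intro k
      rw [hint]
      rfl
    have h3 : Tendsto (fun k => ∫ z, ave p q (F k) g (c • z.1 + z.2) ∂ρ₀) atTop
        (𝓝 (∫ _z, (∫ y, g y ∂μ) ∂ρ₀)) := by
      refine tendsto_integral_of_dominated_convergence (fun _ => B) (fun k => ?_)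
        (integrable_const B) (fun k => ?_) ?_
      · have : Continuous (fun z : UnitAddCircle × UnitAddCircle =>
            aveX p q (F k) g (c • z.1 + z.2)) := (aveX_cont g).comp (by fun_prop)
        exact this.aestronglyMeasurable
      · exact Eventually.of_forall fun z => aveX_le hB0 hB _
      · filter_upwards [hEae] with z hz
        exact hEG z hz g
    rw [integral_const, probReal_univ, one_smul] at h3
    have h4 := tendsto_nhds_unique (h1.congr h2) (h3.mono_left h𝒰)
    exact h4
  -- the second marginal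
  have hsnd : J.map Prod.snd = κ := by
    have : IsFiniteMeasure (J.map (Prod.snd : UnitAddCircle × UnitAddCircle → UnitAddCircle)) := by
      infer_instance
    refine ext_of_forall_integral_eq_of_IsFiniteMeasure fun f => ?_
    rw [integral_map measurable_snd.aemeasurable f.continuous.aestronglyMeasurable]
    set g : C(UnitAddCircle, ℝ) := f.toContinuousMap with hg
    have h1 := hJl (g.comp ⟨Prod.snd, continuous_snd⟩)
    have h2 : ∀ k, ∫ z, aveX p q (F k) (g.comp ⟨Prod.snd, continuous_snd⟩) z ∂ρ =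
        ∫ z, ave p q (F k) g z.2 ∂ρ₀ := by
      intro k
      rw [hint]
      rfl
    exact tendsto_nhds_unique (h1.congr h2) (hκ g)
  have hq0 : 0 < q := by
    rcases Nat.eq_zero_or_pos q with h0 | h0
    · exfalso
      apply hκ0
      rw [← hsnd, Measure.map_apply measurable_snd tor_meas.compl]
      have h1 := hJi'.measure_preimage (measurable_snd tor_meas.compl).nullMeasurableSet
      rw [← h1]
      have h2 : (fun x : UnitAddCircle × UnitAddCircle => q • x) ⁻¹' (Prod.snd ⁻¹' Torᶜ) = ∅ := by
        ext z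
        simp only [Set.mem_preimage, Set.mem_compl_iff, Set.mem_empty_iff_false, iff_false, not_not,
          h0, zero_smul]
        exact ⟨1, one_pos, smul_zero 1⟩
      rw [h2, measure_empty]
    · exact h0
  -- domination
  set Φ := (θ.prod κ₁).map (fun z : UnitAddCircle × UnitAddCircle => (z.1 + z.2, z.2)) with hΦ
  have hΦp : IsProbabilityMeasure Φ := Measure.isProbabilityMeasure_map phi_meas.aemeasurable
  set D : ℝ := (((μ.prod ω) E)⁻¹).toReal with hD
  have hD0 : 0 < D := ENNReal.toReal_pos (ENNReal.inv_ne_zero.mpr (measure_ne_top _ _))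
    (ENNReal.inv_ne_top.mpr hE0)
  have hJΦ : J ≪ Φ := by
    refine ac_of_leX hD0 fun G hG => ?_
    rw [hΦ, int_phi]
    refine le_of_tendsto_of_tendsto (hJl G) ((hκ₁ (smo2 θ G)).const_mul D) ?_
    refine Eventually.of_forall fun k => ?_
    show ∫ z, aveX p q (F k) G z ∂ρ ≤ D * ∫ x, aveX p q (F k) (smo2 θ G) x ∂ω
    rw [hint]
    have hcc : Continuous (fun z : UnitAddCircle × UnitAddCircle =>
        aveX p q (F k) G (c • z.1 + z.2, z.2)) := (aveX_cont G).comp (psi_cont c)
    have hnn : ∀ z, 0 ≤ aveX p q (F k) G z := by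
      intro z
      unfold aveX
      exact mul_nonneg (by positivity) (Finset.sum_nonneg fun n _ => hG _)
    have h1 : ∫ z, aveX p q (F k) G (c • z.1 + z.2, z.2) ∂ρ₀ ≤
        D * ∫ z, aveX p q (F k) G (c • z.1 + z.2, z.2) ∂(μ.prod ω) := by
      rw [hρ₀, ProbabilityTheory.cond, integral_smul_measure, smul_eq_mul]
      apply mul_le_mul_of_nonneg_left _ hD0.le
      exact setIntegral_le_integral (int_contX _ ⟨_, hcc⟩) (Eventually.of_forall fun z => hnn _)
    refine h1.trans (le_of_eq ?_)
    congr 1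
    unfold aveX
    rw [integral_const_mul, integral_const_mul]
    congr 1
    rw [integral_finsetSum, integral_finsetSum]
    · refine Finset.sum_congr rfl fun n _ => ?_
      exact int_one (hS n.1 n.2) c G
    · intro n _
      exact int_contX _ ((smo2 θ G).comp (mulX (p ^ n.1 * q ^ n.2)))
    · intro n _
      exact int_contX _ (((G.comp (mulX (p ^ n.1 * q ^ n.2))).comp ⟨_, psi_cont c⟩))
  -- restriction
  set S : Set (UnitAddCircle × UnitAddCircle) := Prod.snd ⁻¹' Torᶜ with hS'
  have hSm : MeasurableSet S := measurable_snd tor_meas.compl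
  have hSinv : ∀ {r : ℕ}, 0 < r →
      (fun z : UnitAddCircle × UnitAddCircle => r • z) ⁻¹' S = S := by
    intro r hr
    ext z
    simp only [hS', Set.mem_preimage, Prod.smul_snd, Set.mem_compl_iff, nsmul_tor hr]
  set β := (J.restrict S).map Prod.fst with hβ
  have hβf : IsFiniteMeasure β := by rw [hβ]; infer_instance
  have hβi : ∀ {r : ℕ}, 0 < r →
      MeasurePreserving (fun z : UnitAddCircle × UnitAddCircle => r • z) J J →
      MeasurePreserving (fun x : UnitAddCircle => r • x) β β := by
    intro r hr h1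
    have h2 := h1.restrict_preimage hSm
    rw [hSinv hr] at h2
    refine (measurable_fst.measurePreserving (J.restrict S)).of_semiconj h2 ?_ (nsmul_meas r)
    intro z
    rfl
  have hβμ : β ≪ μ := by
    rw [hβ, ← hfst]
    exact (Measure.absolutelyContinuous_of_le Measure.restrict_le_self).map measurable_fst
  have hβu : β Set.univ ≠ 0 := by
    rw [hβ, Measure.map_apply measurable_fst MeasurableSet.univ, Set.preimage_univ,
      Measure.restrict_apply_univ, hS', ← Measure.map_apply measurable_snd tor_meas.compl, hsnd]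
    exact hκ0
  have hJ' : JE (fun x : UnitAddCircle => p • x) (fun x : UnitAddCircle => q • x) μ := hJ
  have hβe := hJ'.eq_smul (fun x => circ_comm p q x) hμp hμq (hβi (by omega) hJi) (hβi hq0 hJi') hβμ
  have hμβ : μ ≪ β := by
    rw [hβe]
    exact Measure.absolutelyContinuous_smul hβu
  have hr1 : (θ.prod κ₁).restrict ((fun z : UnitAddCircle × UnitAddCircle =>
      (z.1 + z.2, z.2)) ⁻¹' S) = θ.prod (κ₁.restrict Torᶜ) := by
    have h1 : (fun z : UnitAddCircle × UnitAddCircle => (z.1 + z.2, z.2)) ⁻¹' S =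
        Set.univ ×ˢ Torᶜ := by
      ext z
      simp [hS']
    rw [h1, ← Measure.prod_restrict, Measure.restrict_univ]
  have hβ2 : β ≪ (θ.prod (κ₁.restrict Torᶜ)).map
      (fun z : UnitAddCircle × UnitAddCircle => z.1 + z.2) := by
    have h1 : J.restrict S ≪ Φ.restrict S := hJΦ.restrict S
    have h2 := h1.map (measurable_fst (α := UnitAddCircle) (β := UnitAddCircle))
    rw [hΦ, Measure.restrict_map phi_meas hSm, hr1,
      Measure.map_map measurable_fst phi_meas] at h2
    exact h2
  have hκ₂0 : κ₁ Torᶜ ≠ 0 := by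
    intro h0
    rw [Measure.restrict_eq_zero.mpr h0, Measure.prod_zero, Measure.map_zero] at hβ2
    have h1 := hβ2 (show (0 : Measure UnitAddCircle) Set.univ = 0 by simp)
    exact hβu h1
  set κ₃ := ProbabilityTheory.cond κ₁ Torᶜ with hκ₃
  have hκ₃p : IsProbabilityMeasure κ₃ := ProbabilityTheory.cond_isProbabilityMeasure hκ₂0
  have hκ₃i : ∀ {r : ℕ}, 0 < r →
      MeasurePreserving (fun x : UnitAddCircle => r • x) κ₁ κ₁ →
      MeasurePreserving (fun x : UnitAddCircle => r • x) κ₃ κ₃ := by
    intro r hr h1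
    have h2 := h1.restrict_preimage tor_meas.compl
    have h3 : (fun x : UnitAddCircle => r • x) ⁻¹' Torᶜ = Torᶜ := by
      ext x
      simp only [Set.mem_preimage, Set.mem_compl_iff, nsmul_tor hr]
    rw [h3] at h2
    exact h2.smul_measure _
  have hκ₃a : ∀ x : UnitAddCircle, κ₃ {x} = 0 := by
    intro x
    by_cases hx : x ∈ Tor
    · rw [hκ₃, ProbabilityTheory.cond_apply tor_meas.compl]
      have : Torᶜ ∩ {x} = ∅ := by
        ext y
        simp only [Set.mem_inter_iff, Set.mem_compl_iff, Set.mem_singleton_iff,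
          Set.mem_empty_iff_false, iff_false, not_and]
        rintro h1 rfl
        exact h1 hx
      rw [this, measure_empty, mul_zero]
    · exact atom_tor hp (hκ₃i (by omega) hκi) hx
  have hsing := noise_core2 (q := q) hp hμp hμq hJ hvol (ω := κ₃) (hκ₃i (by omega) hκi)
    (hκ₃i hq0 hκi') hκ₃a hc
  rw [← law_conv] at hsing
  have hac2 : μ ≪ ((θ.prod κ₃).map (fun z : UnitAddCircle × UnitAddCircle => z.1 + z.2)) := by
    refine (hμβ.trans hβ2).trans ?_
    refine Measure.AbsolutelyContinuous.map ?_ add_meas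
    refine Measure.AbsolutelyContinuous.rfl.prod ?_
    rw [hκ₃, ProbabilityTheory.cond]
    exact Measure.absolutelyContinuous_smul (ENNReal.inv_ne_zero.mpr (measure_ne_top _ _))
  have h0 : μ = 0 := Measure.eq_zero_of_absolutelyContinuous_of_mutuallySingular hac2 hsing
  have : μ Set.univ = 1 := measure_univ
  rw [h0] at this
  simp at this

end Pool.Agent.Zk32
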