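import Mathlib
import Pool.Agent.Zk32.Gp2

set_option autoImplicit false
set_option linter.unusedSectionVars false

open MeasureTheory Filter Topology Set
open scoped ENNReal NNReal BoundedContinuousFunction

namespace Pool.Agent.Zk32

/-- domination of integrals of continuous functions is domination of measures -/
lemma le_of_le {κ σ : Measure UnitAddCircle} [IsFiniteMeasure κ] [IsFiniteMeasure σ] {D : ℝ}
    (hD : 0 < D) (h : ∀ g : C(UnitAddCircle, ℝ), (∀ x, 0 ≤ g x) → ∫ x, g x ∂κ ≤ D * ∫ x, g x ∂σ)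
    {S : Set UnitAddCircle} (hS : MeasurableSet S) : κ.real S ≤ D * σ.real S := by
  have key : ∀ F : Set UnitAddCircle, IsClosed F → F ⊆ S → κ.real F ≤ D * σ.real S := by
    intro F hF hFS
    have h0 : σ.real F ≤ σ.real S := measureReal_mono hFS
    refine le_trans ?_ (mul_le_mul_of_nonneg_left h0 hD.le)
    refine le_of_forall_pos_le_add (fun ε hε => ?_)
    obtain ⟨g, hg0, hg1, hgF, hg⟩ := exists_cont_above σ hF (ε := ε / D) (by positivity)
    have h1 := h g hg0
    have h2 : κ.real F ≤ ∫ x, g x ∂κ := by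
      have : ∫ x, F.indicator (fun _ => (1 : ℝ)) x ∂κ ≤ ∫ x, g x ∂κ := by
        apply integral_mono ((integrable_const _).indicator hF.measurableSet) (int_cont κ g)
        intro x
        by_cases hx : x ∈ F
        · simp only; rw [Set.indicator_of_mem hx, hgF x hx]
        · simp only; rw [Set.indicator_of_notMem hx]; exact hg0 x
      rw [integral_indicator_const _ hF.measurableSet] at this
      simpa using this
    have h3 : D * ∫ x, g x ∂σ ≤ D * (σ.real F + ε / D) :=
      mul_le_mul_of_nonneg_left hg.le hD.le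
    have h4 : D * (σ.real F + ε / D) = D * σ.real F + ε := by field_simp
    linarith
  have hle : κ S ≤ ENNReal.ofReal (D * σ.real S) := by
    rw [hS.measure_eq_iSup_isClosed_of_ne_top (measure_ne_top κ _)]
    simp only [iSup_le_iff]
    intro F hFS hF
    rw [← ENNReal.ofReal_toReal (measure_ne_top κ F)]
    exact ENNReal.ofReal_le_ofReal (key F hF hFS)
  have h5 := ENNReal.toReal_mono ENNReal.ofReal_ne_top hle
  rw [ENNReal.toReal_ofReal (by positivity)] at h5
  exact h5

section
variable {p q : ℕ} {μ : Measure UnitAddCircle} [IsProbabilityMeasure μ]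

lemma hyper_le : ((Filter.hyperfilter ℕ : Ultrafilter ℕ) : Filter ℕ) ≤ atTop := by
  rw [← Nat.cofinite_eq_atTop]; exact Filter.hyperfilter_le_cofinite

/-- **Random noise: the mass of the torsion points in the limit is a bound.** -/
theorem gen_noise (hp : 2 ≤ p)
    (hμp : MeasurePreserving (fun x : UnitAddCircle => p • x) μ μ)
    (hμq : MeasurePreserving (fun x : UnitAddCircle => q • x) μ μ)
    (hJ : ∀ E : Set UnitAddCircle, MeasurableSet E →
      (fun x : UnitAddCircle => p • x) ⁻¹' E = E → (fun x : UnitAddCircle => q • x) ⁻¹' E = E →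
        μ E = 0 ∨ μ E = 1)
    (hvol : μ ≠ volume) {F : ℕ → Finset (ℕ × ℕ)} (hF : Folner F) {c : ℤ} (hc : c ≠ 0)
    (ω κ : Measure UnitAddCircle) [IsProbabilityMeasure ω] [IsProbabilityMeasure κ]
    (𝒰 : Ultrafilter ℕ) (h𝒰 : (𝒰 : Filter ℕ) ≤ atTop)
    (hκ : ∀ g : C(UnitAddCircle, ℝ), Tendsto (fun k => ∫ x, ave p q (F k) g x ∂ω)
      (𝒰 : Filter ℕ) (𝓝 (∫ x, g x ∂κ)))
    {E : Set (UnitAddCircle × UnitAddCircle)} (hEm : MeasurableSet E)
    (hEG : ∀ z ∈ E, c • z.1 + z.2 ∈ Gen p q F μ) :
    (μ.prod ω) E ≤ κ Tor := by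
  by_cases hE0 : (μ.prod ω) E = 0
  · rw [hE0]; exact zero_le
  set ρ₀ := ProbabilityTheory.cond (μ.prod ω) E with hρ₀
  have hρ₀p : IsProbabilityMeasure ρ₀ := ProbabilityTheory.cond_isProbabilityMeasure hE0
  set σ := ρ₀.map (Prod.snd : UnitAddCircle × UnitAddCircle → UnitAddCircle) with hσ
  have hσp : IsProbabilityMeasure σ := Measure.isProbabilityMeasure_map measurable_snd.aemeasurable
  have hint : ∀ (g : C(UnitAddCircle, ℝ)), ∫ x, g x ∂σ = ∫ z, g z.2 ∂ρ₀ := by
    intro g
    rw [hσ, integral_map measurable_snd.aemeasurable g.continuous.aestronglyMeasurable]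
  obtain ⟨κ', hκ'p, hκ'⟩ := lim_exists (X := UnitAddCircle) (p := p) (q := q) hF 𝒰 σ
  have h1 : κ' Torᶜ = 0 := by
    refine core hp hμp hμq hJ hvol hF hc ω hEm hE0 hEG 𝒰 h𝒰 fun g => ?_
    refine (hκ' g).congr fun k => ?_
    exact hint ⟨_, aveX_cont g⟩
  set D : ℝ := (((μ.prod ω) E)⁻¹).toReal with hD
  have hD0 : 0 < D := ENNReal.toReal_pos (ENNReal.inv_ne_zero.mpr (measure_ne_top _ _))
    (ENNReal.inv_ne_top.mpr hE0)
  have hdom : ∀ g : C(UnitAddCircle, ℝ), (∀ x, 0 ≤ g x) → ∫ x, g x ∂σ ≤ D * ∫ x, g x ∂ω := by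
    intro g hg
    have hcc : Continuous (fun z : UnitAddCircle × UnitAddCircle => g z.2) := by fun_prop
    rw [hint, hρ₀, ProbabilityTheory.cond, integral_smul_measure, smul_eq_mul]
    apply mul_le_mul_of_nonneg_left _ hD0.le
    refine (setIntegral_le_integral (int_contX _ ⟨_, hcc⟩)
      (Eventually.of_forall fun z => hg _)).trans (le_of_eq ?_)
    have hi : Integrable (fun z : UnitAddCircle × UnitAddCircle => g z.2) (μ.prod ω) :=
      int_contX _ ⟨_, hcc⟩
    change ∫ z : UnitAddCircle × UnitAddCircle, g z.2 ∂(μ.prod ω) = ∫ x, g x ∂ω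
    rw [integral_prod_symm _ hi]
    simp
  have hdom2 : ∀ g : C(UnitAddCircle, ℝ), (∀ x, 0 ≤ g x) →
      ∫ x, g x ∂κ' ≤ D * ∫ x, g x ∂κ := by
    intro g hg
    refine le_of_tendsto_of_tendsto (hκ' g) ((hκ g).const_mul D) (Eventually.of_forall fun k => ?_)
    refine hdom ⟨_, aveX_cont g⟩ fun x => ?_
    exact mul_nonneg (by positivity) (Finset.sum_nonneg fun n _ => hg _)
  have h2 := le_of_le hD0 hdom2 tor_meas
  have h3 : κ'.real Tor = 1 := by
    have := prob_compl_eq_zero_iff (μ := κ') tor_meas.compl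
    rw [compl_compl] at this
    rw [Measure.real, (prob_compl_eq_zero_iff tor_meas).mp h1]
    rfl
  rw [h3] at h2
  have h4 : (μ.prod ω).real E ≤ κ.real Tor := by
    have h5 : (μ.prod ω).real E * D = 1 := by
      rw [hD, Measure.real, ENNReal.toReal_inv, mul_inv_cancel₀]
      exact (ENNReal.toReal_pos hE0 (measure_ne_top _ _)).ne'
    have h6 : 0 ≤ (μ.prod ω).real E := measureReal_nonneg
    calc (μ.prod ω).real E = (μ.prod ω).real E * 1 := by ring
      _ ≤ (μ.prod ω).real E * (D * κ.real Tor) := mul_le_mul_of_nonneg_left h2 h6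
      _ = ((μ.prod ω).real E * D) * κ.real Tor := by ring
      _ = κ.real Tor := by rw [h5, one_mul]
  exact (ENNReal.toReal_le_toReal (measure_ne_top _ _) (measure_ne_top _ _)).mp h4

/-- **Fixed points.** -/
theorem gen_point (hp : 2 ≤ p)
    (hμp : MeasurePreserving (fun x : UnitAddCircle => p • x) μ μ)
    (hμq : MeasurePreserving (fun x : UnitAddCircle => q • x) μ μ)
    (hJ : ∀ E : Set UnitAddCircle, MeasurableSet E →
      (fun x : UnitAddCircle => p • x) ⁻¹' E = E → (fun x : UnitAddCircle => q • x) ⁻¹' E = E →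
        μ E = 0 ∨ μ E = 1)
    (hvol : μ ≠ volume) {F : ℕ → Finset (ℕ × ℕ)} (hF : Folner F) {c : ℤ} (hc : c ≠ 0)
    (hG : MeasurableSet (Gen p q F μ)) (t : UnitAddCircle)
    (κ : Measure UnitAddCircle) [IsProbabilityMeasure κ]
    (hκ : ∀ g : C(UnitAddCircle, ℝ), Tendsto (fun k => ave p q (F k) g t) atTop
      (𝓝 (∫ x, g x ∂κ))) (hκ0 : κ Tor < 1) :
    μ {x | c • x + t ∈ Gen p q F μ} = 0 := by
  by_contra h0
  set E : Set (UnitAddCircle × UnitAddCircle) := {z | c • z.1 + z.2 ∈ Gen p q F μ} with hE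
  have hEm : MeasurableSet E := (lc_meas c) hG
  have hE0 : (μ.prod (Measure.dirac t)) E ≠ 0 := by
    rw [Measure.prod_dirac, Measure.map_apply (by fun_prop) hEm]
    exact h0
  have h1 : κ Torᶜ = 0 := by
    refine core hp hμp hμq hJ hvol hF hc (Measure.dirac t) hEm hE0 (fun z hz => hz)
      (Filter.hyperfilter ℕ) hyper_le fun g => ?_
    have h2 : ∀ k, ∫ z, ave p q (F k) g z.2
        ∂(ProbabilityTheory.cond (μ.prod (Measure.dirac t)) E) = ave p q (F k) g t := by
      intro k
      have hρ₀p : IsProbabilityMeasure (ProbabilityTheory.cond (μ.prod (Measure.dirac t)) E) :=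
        ProbabilityTheory.cond_isProbabilityMeasure hE0
      have h3 : ∀ᵐ z ∂(ProbabilityTheory.cond (μ.prod (Measure.dirac t)) E), z.2 = t := by
        refine ProbabilityTheory.cond_absolutelyContinuous.ae_le ?_
        change ∀ᵐ z ∂(μ.prod (Measure.dirac t)), z.2 = t
        have hmt : MeasurableSet {z : UnitAddCircle × UnitAddCircle | z.2 = t} :=
          measurable_snd (measurableSet_singleton t)
        have hmm : Measurable (fun x : UnitAddCircle => (x, t)) := by fun_prop
        rw [Measure.prod_dirac, ae_map_iff hmm.aemeasurable hmt]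
        exact Eventually.of_forall fun x => rfl
      have h4 : ∫ z, ave p q (F k) g z.2
          ∂(ProbabilityTheory.cond (μ.prod (Measure.dirac t)) E) =
          ∫ _z, ave p q (F k) g t ∂(ProbabilityTheory.cond (μ.prod (Measure.dirac t)) E) := by
        refine integral_congr_ae ?_
        filter_upwards [h3] with z hz
        rw [hz]
      rw [h4, integral_const, probReal_univ, one_smul]
    exact ((hκ g).mono_left hyper_le).congr fun k => (h2 k).symm
  rw [(prob_compl_eq_zero_iff tor_meas).mp h1] at hκ0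
  exact lt_irrefl _ hκ0

/-- **The converse for points whose averages concentrate at zero.** -/
theorem gen_conv {F : ℕ → Finset (ℕ × ℕ)} (hF : Folner F) {t : UnitAddCircle}
    (ht : ∀ g : C(UnitAddCircle, ℝ), Tendsto (fun k => ave p q (F k) g t) atTop (𝓝 (g 0)))
    (x : UnitAddCircle) : x ∈ Gen p q F μ → x + t ∈ Gen p q F μ := by
  intro hx g
  have h1 := hx g
  have h2 : Tendsto (fun k => ave p q (F k) g (x + t) - ave p q (F k) g x) atTop (𝓝 0) := by
    rw [Metric.tendsto_atTop]
    intro ε hε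
    obtain ⟨B, hB0, hB⟩ := cont_bound g
    have hu : UniformContinuous g := CompactSpace.uniformContinuous_of_continuous g.continuous
    obtain ⟨δ, hδ, hδg⟩ := Metric.uniformContinuous_iff.mp hu (ε / 4) (by positivity)
    -- a tent function
    set T : C(UnitAddCircle, ℝ) := ⟨fun y => ‖y‖ / δ, by fun_prop⟩ with hT
    have h3 : ∀ y z : UnitAddCircle, |g (y + z) - g y| ≤ ε / 4 + 2 * B * T z := by
      intro y z
      have hT0 : 0 ≤ T z := by
        change 0 ≤ ‖z‖ / δ
        positivity
      by_cases hz : ‖z‖ < δ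
      · have h4 := hδg (a := y + z) (b := y) (by simpa [dist_eq_norm] using hz)
        rw [Real.dist_eq] at h4
        have : 0 ≤ 2 * B * T z := by positivity
        linarith
      · have h4 : 1 ≤ T z := by
          change 1 ≤ ‖z‖ / δ
          rw [le_div_iff₀ hδ]
          linarith
        have h5 : |g (y + z) - g y| ≤ 2 * B := by
          have := abs_sub (g (y + z)) (g y)
          linarith [hB (y + z), hB y]
        have : 2 * B * 1 ≤ 2 * B * T z := by gcongr
        linarith
    have h6 := ht T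
    have hT00 : T 0 = 0 := by
      change ‖(0 : UnitAddCircle)‖ / δ = 0
      simp
    rw [hT00] at h6
    have h7 : Tendsto (fun k => ε / 4 + 2 * B * ave p q (F k) T t) atTop (𝓝 (ε / 4)) := by
      have := (h6.const_mul (2 * B)).const_add (ε / 4)
      rwa [mul_zero, add_zero] at this
    obtain ⟨k₀, hk₀⟩ := (Metric.tendsto_atTop.mp h7) (ε / 4) (by positivity)
    refine ⟨k₀, fun k hk => ?_⟩
    have h8 := hk₀ k hk
    rw [Real.dist_eq] at h8
    rw [Real.dist_eq, sub_zero]
    have h9 : |ave p q (F k) g (x + t) - ave p q (F k) g x| ≤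
        ε / 4 + 2 * B * ave p q (F k) T t := by
      unfold ave
      have hcard : (0 : ℝ) < (F k).card := by exact_mod_cast (hF.1 k).card_pos
      rw [← mul_sub, ← Finset.sum_sub_distrib, abs_mul,
        abs_of_nonneg (by positivity : (0 : ℝ) ≤ ((F k).card : ℝ)⁻¹), inv_mul_le_iff₀ hcard]
      calc |∑ n ∈ F k, (g ((p ^ n.1 * q ^ n.2) • (x + t)) - g ((p ^ n.1 * q ^ n.2) • x))|
          ≤ ∑ n ∈ F k, |g ((p ^ n.1 * q ^ n.2) • (x + t)) - g ((p ^ n.1 * q ^ n.2) • x)| :=
            Finset.abs_sum_le_sum_abs _ _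
        _ ≤ ∑ n ∈ F k, (ε / 4 + 2 * B * T ((p ^ n.1 * q ^ n.2) • t)) :=
            Finset.sum_le_sum fun n _ => by
              rw [smul_add]
              exact h3 _ _
        _ = (F k).card * (ε / 4 + 2 * B * (((F k).card : ℝ)⁻¹ *
              ∑ n ∈ F k, T ((p ^ n.1 * q ^ n.2) • t))) := by
            rw [Finset.sum_add_distrib, Finset.sum_const, nsmul_eq_mul, ← Finset.mul_sum]
            field_simp
    have h10 := abs_lt.mp h8
    linarith
  have h3 := h2.add h1
  rw [zero_add] at h3
  refine h3.congr fun k => ?_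
  ring

end

end Pool.Agent.Zk32
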