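import Mathlib
import Pool.Agent.Zk32.Gp3

set_option autoImplicit false
set_option linter.unusedSectionVars false

open MeasureTheory Filter Topology Set
open scoped ENNReal NNReal BoundedContinuousFunction

namespace Pool.Agent.Zk32

/-- the largest set where a measure is absolutely continuous -/
lemma exists_ac_set {μ ν : Measure UnitAddCircle} [IsProbabilityMeasure μ] [IsProbabilityMeasure ν]
    (hns : ¬ μ.MutuallySingular ν) :
    ∃ S : Set UnitAddCircle, MeasurableSet S ∧ ν S ≠ 0 ∧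
      ∀ B : Set UnitAddCircle, MeasurableSet B → μ B = 0 → ν (B ∩ S) = 0 := by
  have hld : ν.HaveLebesgueDecomposition μ :=
    Measure.haveLebesgueDecomposition_of_sigmaFinite ν μ
  obtain ⟨N, hN, hN1, hN2⟩ := Measure.mutuallySingular_singularPart ν μ
  refine ⟨N, hN, fun h0 => hns ?_, fun B hB hB0 => ?_⟩
  · exact ⟨Nᶜ, hN.compl, hN2, by rw [compl_compl]; exact h0⟩
  · have h1 : ν = ν.singularPart μ + μ.withDensity (ν.rnDeriv μ) :=
      (Measure.haveLebesgueDecomposition_spec ν μ).2.2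
    rw [h1, Measure.add_apply, measure_mono_null Set.inter_subset_right hN1, zero_add]
    exact withDensity_absolutelyContinuous μ _ (measure_mono_null Set.inter_subset_left hB0)

lemma Folner.comp {F : ℕ → Finset (ℕ × ℕ)} (hF : Folner F) {φ : ℕ → ℕ}
    (hφ : Tendsto φ atTop atTop) : Folner (F ∘ φ) :=
  ⟨fun k => hF.1 _, hF.2.1.comp hφ, hF.2.2.comp hφ⟩

/-- some Folner sequence has no limit carried by the torsion points -/
def NonRigid (p q : ℕ) (ρ : Measure UnitAddCircle) : Prop :=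
  ∃ F : ℕ → Finset (ℕ × ℕ), Folner F ∧ ∀ 𝒰 : Ultrafilter ℕ, (𝒰 : Filter ℕ) ≤ atTop →
    ∀ κ : Measure UnitAddCircle, IsProbabilityMeasure κ →
      (∀ g : C(UnitAddCircle, ℝ), Tendsto (fun k => ∫ x, ave p q (F k) g x ∂ρ)
        (𝒰 : Filter ℕ) (𝓝 (∫ x, g x ∂κ))) → κ Tor < 1

/-- a criterion with one limit -/
lemma NonRigid.of_lim {p q : ℕ} {ρ κ : Measure UnitAddCircle} [IsProbabilityMeasure κ]
    {F : ℕ → Finset (ℕ × ℕ)} (hF : Folner F) (h : Lim p q F ρ κ) (hκ : κ Tor < 1) :
    NonRigid p q ρ := by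
  refine ⟨F, hF, fun 𝒰 h𝒰 κ' hκ' hl => ?_⟩
  have : κ' = κ := by
    refine ext_of_forall_integral_eq_of_IsFiniteMeasure fun f => ?_
    exact tendsto_nhds_unique (hl f.toContinuousMap) ((h f.toContinuousMap).mono_left h𝒰)
  rw [this]; exact hκ

section
variable {p q : ℕ} {μ : Measure UnitAddCircle} [IsProbabilityMeasure μ]

/-- **Noise without a rigid part**, in terms of ultrafilters -/
theorem noise_rigid_u (hp : 2 ≤ p)
    (hμp : MeasurePreserving (fun x : UnitAddCircle => p • x) μ μ)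
    (hμq : MeasurePreserving (fun x : UnitAddCircle => q • x) μ μ)
    (hJ : ∀ E : Set UnitAddCircle, MeasurableSet E →
      (fun x : UnitAddCircle => p • x) ⁻¹' E = E → (fun x : UnitAddCircle => q • x) ⁻¹' E = E →
        μ E = 0 ∨ μ E = 1)
    (hvol : μ ≠ volume)
    (hG : ∀ F : ℕ → Finset (ℕ × ℕ), MeasurableSet (Gen p q F μ))
    (hFS : ∀ F : ℕ → Finset (ℕ × ℕ), Folner F →
      ∃ φ : ℕ → ℕ, StrictMono φ ∧ μ (Gen p q (F ∘ φ) μ) = 1)
    (ω : Measure UnitAddCircle) [IsProbabilityMeasure ω]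
    (hω : ∀ D : Set UnitAddCircle, MeasurableSet D → ω D ≠ 0 → NonRigid p q
      (ProbabilityTheory.cond ω D))
    {c : ℤ} (hc : c ≠ 0) :
    μ.MutuallySingular ((μ.prod ω).map (fun z : UnitAddCircle × UnitAddCircle =>
      c • z.1 + z.2)) := by
  by_contra hns
  have hs := lc_meas c
  have hνp : IsProbabilityMeasure ((μ.prod ω).map (fun z : UnitAddCircle × UnitAddCircle =>
      c • z.1 + z.2)) := Measure.isProbabilityMeasure_map hs.aemeasurable
  obtain ⟨S, hS, hS0, hSac⟩ := exists_ac_set hns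
  have hE₀m : MeasurableSet {z : UnitAddCircle × UnitAddCircle | c • z.1 + z.2 ∈ S} := hs hS
  have hE₀ : (μ.prod ω) {z : UnitAddCircle × UnitAddCircle | c • z.1 + z.2 ∈ S} ≠ 0 := by
    rw [Measure.map_apply hs hS] at hS0
    exact hS0
  set h : UnitAddCircle → ℝ≥0∞ := fun y => μ ((fun x => (x, y)) ⁻¹'
    {z : UnitAddCircle × UnitAddCircle | c • z.1 + z.2 ∈ S}) with hh
  have hhm : Measurable h := measurable_measure_prodMk_right hE₀m
  -- a level
  obtain ⟨δ, hδ0, hδt, hδ⟩ : ∃ δ : ℝ≥0∞, δ ≠ 0 ∧ δ ≠ ∞ ∧ ω {y | δ ≤ h y} ≠ 0 := by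
    by_contra hcon
    push Not at hcon
    apply hE₀
    rw [Measure.prod_apply_symm hE₀m, lintegral_eq_zero_iff hhm]
    have h1 : ∀ᵐ y ∂ω, ∀ n : ℕ, ¬ (((n : ℝ≥0∞) + 1)⁻¹ ≤ h y) := by
      rw [ae_all_iff]
      intro n
      rw [ae_iff]
      simp only [not_not]
      exact hcon _ (by
        rw [ENNReal.inv_ne_zero]
        exact ENNReal.add_ne_top.mpr ⟨ENNReal.natCast_ne_top n, ENNReal.one_ne_top⟩) (by
        rw [ENNReal.inv_ne_top]
        simp)
    filter_upwards [h1] with y hy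
    by_contra h2
    obtain ⟨n, hn⟩ := ENNReal.exists_inv_nat_lt h2
    refine hy n (le_trans ?_ hn.le)
    rw [ENNReal.inv_le_inv]
    exact le_self_add
  set D := {y | δ ≤ h y} with hD
  have hDm : MeasurableSet D := measurableSet_le measurable_const hhm
  obtain ⟨F₀, hF₀, hall⟩ := hω D hDm hδ
  obtain ⟨φ, hφ, hφ1⟩ := hFS F₀ hF₀
  set F := F₀ ∘ φ with hFdef
  have hF : Folner F := hF₀.comp hφ.tendsto_atTop
  set 𝒰 : Ultrafilter ℕ := Filter.hyperfilter ℕ with h𝒰
  have hcondp : IsProbabilityMeasure (ProbabilityTheory.cond ω D) :=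
    ProbabilityTheory.cond_isProbabilityMeasure hδ
  obtain ⟨κ, hκp, hlim⟩ := lim_exists (X := UnitAddCircle) (p := p) (q := q) hF 𝒰
    (ProbabilityTheory.cond ω D)
  have hκT : κ Tor < 1 := by
    refine hall (𝒰.map φ) ?_ κ hκp fun g => ?_
    · rw [Ultrafilter.coe_map]
      exact (Filter.map_mono hyper_le).trans hφ.tendsto_atTop
    · rw [Ultrafilter.coe_map, Filter.tendsto_map'_iff]
      exact hlim g
  set G := Gen p q F μ with hGdef
  have hGm : MeasurableSet G := hG F
  have hGc : μ Gᶜ = 0 := (prob_compl_eq_zero_iff hGm).mpr hφ1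
  set E : Set (UnitAddCircle × UnitAddCircle) := {z | z.2 ∈ D ∧ c • z.1 + z.2 ∈ S ∩ G} with hE
  have hEm : MeasurableSet E := (measurable_snd hDm).inter (hs (hS.inter hGm))
  -- the slices
  have hslice : ∀ᵐ y ∂ω, y ∈ D → δ ≤ μ ((fun x => (x, y)) ⁻¹' E) := by
    have h1 := hSac Gᶜ hGm.compl hGc
    rw [Measure.map_apply hs (hGm.compl.inter hS), Measure.prod_apply_symm
      (hs (hGm.compl.inter hS)), lintegral_eq_zero_iff
      (measurable_measure_prodMk_right (hs (hGm.compl.inter hS)))] at h1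
    filter_upwards [h1] with y hy hyD
    have h2 : δ ≤ h y := hyD
    refine h2.trans ?_
    have h3 : (fun x => (x, y)) ⁻¹' {z : UnitAddCircle × UnitAddCircle | c • z.1 + z.2 ∈ S} ⊆
        ((fun x => (x, y)) ⁻¹' E) ∪ ((fun x => (x, y)) ⁻¹'
          ((fun z : UnitAddCircle × UnitAddCircle => c • z.1 + z.2) ⁻¹' (Gᶜ ∩ S))) := by
      intro x hx
      have hx' : c • x + y ∈ S := hx
      by_cases hg : c • x + y ∈ G
      · left; exact ⟨hyD, hx', hg⟩
      · right; exact ⟨hg, hx'⟩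
    refine (measure_mono h3).trans ((measure_union_le _ _).trans ?_)
    have h4 : μ ((fun x => (x, y)) ⁻¹'
          ((fun z : UnitAddCircle × UnitAddCircle => c • z.1 + z.2) ⁻¹' (Gᶜ ∩ S))) = 0 := hy
    rw [h4, add_zero]
  set M := ((μ.prod ω).restrict E).map (Prod.snd : UnitAddCircle × UnitAddCircle → UnitAddCircle)
    with hM
  have hMle : δ • ω.restrict D ≤ M := by
    refine Measure.le_iff.mpr fun B hB => ?_
    rw [Measure.smul_apply, smul_eq_mul, Measure.restrict_apply hB, hM,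
      Measure.map_apply measurable_snd hB, Measure.restrict_apply (measurable_snd hB),
      Measure.prod_apply_symm ((measurable_snd hB).inter hEm)]
    calc δ * ω (B ∩ D) = ∫⁻ _y in B ∩ D, δ ∂ω := by
          rw [setLIntegral_const]
      _ ≤ ∫⁻ y in B ∩ D, μ ((fun x => (x, y)) ⁻¹' (Prod.snd ⁻¹' B ∩ E)) ∂ω := by
          refine lintegral_mono_ae ?_
          filter_upwards [ae_restrict_of_ae hslice, ae_restrict_mem (hB.inter hDm)] with y h1 h2
          refine (h1 h2.2).trans (measure_mono fun x hx => ⟨h2.1, hx⟩)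
      _ ≤ ∫⁻ y, μ ((fun x => (x, y)) ⁻¹' (Prod.snd ⁻¹' B ∩ E)) ∂ω := setLIntegral_le_lintegral _ _
  have hE0 : (μ.prod ω) E ≠ 0 := by
    intro h0
    have h1 := hMle Set.univ
    rw [hM, Measure.map_apply measurable_snd MeasurableSet.univ, Set.preimage_univ,
      Measure.restrict_apply_univ, h0, Measure.smul_apply, Measure.restrict_apply_univ,
      smul_eq_mul] at h1
    rcases mul_eq_zero.mp (le_antisymm h1 zero_le) with h2 | h2
    · exact hδ0 h2
    · exact hδ h2
  set ρ₀ := ProbabilityTheory.cond (μ.prod ω) E with hρ₀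
  have hρ₀p : IsProbabilityMeasure ρ₀ := ProbabilityTheory.cond_isProbabilityMeasure hE0
  set σ := ρ₀.map (Prod.snd : UnitAddCircle × UnitAddCircle → UnitAddCircle) with hσ
  have hσp : IsProbabilityMeasure σ := Measure.isProbabilityMeasure_map measurable_snd.aemeasurable
  have hint : ∀ (g : C(UnitAddCircle, ℝ)), ∫ x, g x ∂σ = ∫ z, g z.2 ∂ρ₀ := by
    intro g
    rw [hσ, integral_map measurable_snd.aemeasurable g.continuous.aestronglyMeasurable]
  obtain ⟨κ', hκ'p, hκ'⟩ := lim_exists (X := UnitAddCircle) (p := p) (q := q) hF 𝒰 σ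
  have h1 : κ' Torᶜ = 0 := by
    refine core hp hμp hμq hJ hvol hF hc ω hEm hE0 (fun z hz => hz.2.2) 𝒰 hyper_le fun g => ?_
    refine (hκ' g).congr fun k => ?_
    exact hint ⟨_, aveX_cont g⟩
  -- domination
  set C : ℝ≥0∞ := (ω D)⁻¹ * δ⁻¹ * (μ.prod ω) E with hC
  have hωD : ω D ≠ ∞ := measure_ne_top _ _
  have hCt : C ≠ ∞ := ENNReal.mul_ne_top (ENNReal.mul_ne_top (ENNReal.inv_ne_top.mpr hδ)
    (ENNReal.inv_ne_top.mpr hδ0)) (measure_ne_top _ _)
  have hC0 : C ≠ 0 := mul_ne_zero (mul_ne_zero (ENNReal.inv_ne_zero.mpr hωD)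
    (ENNReal.inv_ne_zero.mpr hδt)) hE0
  have hσM : C • σ = ((ω D)⁻¹ * δ⁻¹) • M := by
    rw [hσ, hρ₀, ProbabilityTheory.cond, Measure.map_smul, smul_smul, hC, mul_assoc _ _ ((μ.prod ω) E)⁻¹,
      ENNReal.mul_inv_cancel hE0 (measure_ne_top _ _), mul_one]
  have hle : ProbabilityTheory.cond ω D ≤ C • σ := by
    rw [hσM]
    have h2 : ProbabilityTheory.cond ω D = ((ω D)⁻¹ * δ⁻¹) • (δ • ω.restrict D) := by
      rw [ProbabilityTheory.cond, smul_smul, mul_assoc, ENNReal.inv_mul_cancel hδ0 hδt, mul_one]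
    rw [h2]
    refine Measure.le_iff.mpr fun B _ => ?_
    rw [Measure.smul_apply, Measure.smul_apply ((ω D)⁻¹ * δ⁻¹) M]
    exact mul_le_mul_right (hMle B) _
  have hdom : ∀ g : C(UnitAddCircle, ℝ), (∀ x, 0 ≤ g x) →
      ∫ x, g x ∂(ProbabilityTheory.cond ω D) ≤ C.toReal * ∫ x, g x ∂σ := by
    intro g hg
    rw [← smul_eq_mul, ← integral_smul_measure]
    have : IsFiniteMeasure (C • σ) := ⟨by
      rw [Measure.smul_apply, measure_univ, smul_eq_mul, mul_one]
      exact lt_top_iff_ne_top.mpr hCt⟩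
    exact integral_mono_measure hle (Eventually.of_forall hg) (int_cont _ g)
  have hdom2 : ∀ g : C(UnitAddCircle, ℝ), (∀ x, 0 ≤ g x) →
      ∫ x, g x ∂κ ≤ C.toReal * ∫ x, g x ∂κ' := by
    intro g hg
    refine le_of_tendsto_of_tendsto (hlim g) ((hκ' g).const_mul C.toReal)
      (Eventually.of_forall fun k => ?_)
    refine hdom ⟨_, aveX_cont g⟩ fun x => ?_
    exact mul_nonneg (by positivity) (Finset.sum_nonneg fun n _ => hg _)
  have hac : κ ≪ κ' := ac_of_le (ENNReal.toReal_pos hC0 hCt) hdom2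
  have h2 : κ Torᶜ = 0 := hac h1
  rw [(prob_compl_eq_zero_iff tor_meas).mp h2] at hκT
  exact lt_irrefl _ hκT

/-- **Invariant noise and translations.** -/
theorem gen_inv (hp : 2 ≤ p)
    (hμp : MeasurePreserving (fun x : UnitAddCircle => p • x) μ μ)
    (hμq : MeasurePreserving (fun x : UnitAddCircle => q • x) μ μ)
    (hJ : ∀ E : Set UnitAddCircle, MeasurableSet E →
      (fun x : UnitAddCircle => p • x) ⁻¹' E = E → (fun x : UnitAddCircle => q • x) ⁻¹' E = E →
        μ E = 0 ∨ μ E = 1)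
    (hvol : μ ≠ volume) {F : ℕ → Finset (ℕ × ℕ)} (hF : Folner F) {c : ℤ} (hc : c ≠ 0)
    (hG : MeasurableSet (Gen p q F μ))
    (ν : Measure UnitAddCircle) [IsProbabilityMeasure ν]
    (hνp : MeasurePreserving (fun x : UnitAddCircle => p • x) ν ν)
    (hνq : MeasurePreserving (fun x : UnitAddCircle => q • x) ν ν)
    (hat : ∀ x : UnitAddCircle, ν {x} = 0) (t : UnitAddCircle) :
    (μ.prod ν) {z : UnitAddCircle × UnitAddCircle | c • z.1 + z.2 + t ∈ Gen p q F μ} = 0 := by
  have hmt : Measurable (fun y : UnitAddCircle => y + t) := by fun_prop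
  set ω := ν.map (fun y : UnitAddCircle => y + t) with hω
  have hωp : IsProbabilityMeasure ω := Measure.isProbabilityMeasure_map hmt.aemeasurable
  set 𝒰 : Ultrafilter ℕ := Filter.hyperfilter ℕ with h𝒰
  obtain ⟨κ, hκp, hκ⟩ := lim_exists (X := UnitAddCircle) (p := p) (q := q) hF 𝒰 ω
  obtain ⟨κ₁, hκ₁p, hκ₁⟩ := lim_exists (X := UnitAddCircle) (p := p) (q := q) hF 𝒰
    (Measure.dirac t)
  have hS : ∀ i j : ℕ, MeasurePreserving (fun x : UnitAddCircle => (p ^ i * q ^ j) • x) ν ν := by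
    intro i j
    have h3 := ((act_pow hνp).mp i).comp ((act_pow hνq).mp j)
    convert h3 using 1
    funext x
    simp only [Function.comp, mul_smul]
  have hκe : κ = (ν.prod κ₁).map (fun z : UnitAddCircle × UnitAddCircle => z.1 + z.2) := by
    have : IsProbabilityMeasure ((ν.prod κ₁).map
      (fun z : UnitAddCircle × UnitAddCircle => z.1 + z.2)) :=
      Measure.isProbabilityMeasure_map add_meas.aemeasurable
    refine ext_of_forall_integral_eq_of_IsFiniteMeasure fun f => ?_
    set g : C(UnitAddCircle, ℝ) := f.toContinuousMap with hg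
    have e := int_law ν κ₁ g
    have h1 := hκ g
    have h2 := hκ₁ (smo ν g)
    have h3 : ∀ k, ∫ x, aveX p q (F k) g x ∂ω =
        ∫ x, aveX p q (F k) (smo ν g) x ∂(Measure.dirac t) := by
      intro k
      rw [integral_dirac, hω, integral_map hmt.aemeasurable (aveX_cont g).aestronglyMeasurable]
      unfold aveX
      rw [integral_const_mul, integral_finsetSum]
      · congr 1
        refine Finset.sum_congr rfl fun n _ => ?_
        rw [← smo_mul (hS n.1 n.2), smo_apply]
        rfl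
      · intro n _
        have hcc : Continuous (fun y : UnitAddCircle => g ((p ^ n.1 * q ^ n.2) • (y + t))) := by
          fun_prop
        exact int_cont ν ⟨_, hcc⟩
    have h4 := tendsto_nhds_unique (h1.congr h3) h2
    exact h4.trans e.symm
  have hκT : κ Tor = 0 := by
    have hx : ∀ x : UnitAddCircle, κ {x} = 0 := by
      intro x
      rw [hκe, Measure.map_apply add_meas (measurableSet_singleton x),
        Measure.prod_apply_symm (add_meas (measurableSet_singleton x))]
      have h1 : ∀ w : UnitAddCircle, ν ((fun y => (y, w)) ⁻¹'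
          ((fun z : UnitAddCircle × UnitAddCircle => z.1 + z.2) ⁻¹' {x})) = 0 := by
        intro w
        have h2 : ((fun y => (y, w)) ⁻¹'
          ((fun z : UnitAddCircle × UnitAddCircle => z.1 + z.2) ⁻¹' {x})) = {x - w} := by
          ext y
          simp only [Set.mem_preimage, Set.mem_singleton_iff]
          exact eq_sub_iff_add_eq.symm
        rw [h2]; exact hat _
      simp only [h1, lintegral_zero]
    have : NullSingletonClass κ := ⟨hx⟩
    exact tor_countable.measure_zero κ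
  have hEm : MeasurableSet {z : UnitAddCircle × UnitAddCircle | c • z.1 + z.2 ∈ Gen p q F μ} :=
    (lc_meas c) hG
  have h1 := gen_noise hp hμp hμq hJ hvol hF hc ω κ 𝒰 hyper_le hκ hEm (fun z hz => hz)
  rw [hκT] at h1
  have h2 := le_antisymm h1 zero_le
  have h3 : μ.prod ω = (μ.prod ν).map (Prod.map id (fun y : UnitAddCircle => y + t)) := by
    rw [← Measure.map_prod_map _ _ measurable_id hmt, Measure.map_id]
  rw [h3, Measure.map_apply (measurable_id.prodMap hmt) hEm] at h2
  refine measure_mono_null (fun z hz => ?_) h2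
  change c • z.1 + (z.2 + t) ∈ Gen p q F μ
  rw [← add_assoc]
  exact hz

end

end Pool.Agent.Zk32
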