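import Mathlib
import Pool.Agent.Zk32.Gp4
import Pool.Agent.W764.HL.Arc

set_option autoImplicit false
set_option linter.unusedSectionVars false

open MeasureTheory Filter Topology Set
open scoped ENNReal NNReal BoundedContinuousFunction

namespace Pool.Agent.Zk32

open Pool.Agent.W764.HL (win mem_win near_inv arc_win card_large)
open Pool.Agent.W764.SH (pow_mul_inj)

open Classical in
/-- the exponents of the elements `X ≤ p ^ i * q ^ j < Y` -/
noncomputable def winE (p q : ℕ) (X Y : ℝ) : Finset (ℕ × ℕ) :=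
  ((Finset.range ⌈Y⌉₊) ×ˢ (Finset.range ⌈Y⌉₊)).filter fun u =>
    X ≤ ((p ^ u.1 * q ^ u.2 : ℕ) : ℝ) ∧ ((p ^ u.1 * q ^ u.2 : ℕ) : ℝ) < Y

section
variable {p q : ℕ} (hp : 2 ≤ p) (hq : 2 ≤ q)
include hp hq

lemma mem_winE {X Y : ℝ} {u : ℕ × ℕ} : u ∈ winE p q X Y ↔
    X ≤ ((p ^ u.1 * q ^ u.2 : ℕ) : ℝ) ∧ ((p ^ u.1 * q ^ u.2 : ℕ) : ℝ) < Y := by
  unfold winE
  rw [Finset.mem_filter, Finset.mem_product, Finset.mem_range, Finset.mem_range, Nat.lt_ceil,
    Nat.lt_ceil]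
  constructor
  · rintro ⟨-, h⟩; exact h
  · rintro ⟨h1, h2⟩
    refine ⟨⟨?_, ?_⟩, h1, h2⟩
    · refine lt_of_le_of_lt ?_ h2
      have h3 : u.1 < p ^ u.1 := Nat.lt_pow_self (by omega)
      have h4 : p ^ u.1 ≤ p ^ u.1 * q ^ u.2 := Nat.le_mul_of_pos_right _ (by positivity)
      exact_mod_cast (h3.le.trans h4)
    · refine lt_of_le_of_lt ?_ h2
      have h3 : u.2 < q ^ u.2 := Nat.lt_pow_self (by omega)
      have h4 : q ^ u.2 ≤ p ^ u.1 * q ^ u.2 := Nat.le_mul_of_pos_left _ (by positivity)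
      exact_mod_cast (h3.le.trans h4)

open Classical in
lemma image_winE {X Y : ℝ} : (winE p q X Y).image (fun u => p ^ u.1 * q ^ u.2) = win p q X Y := by
  ext n
  rw [Finset.mem_image, mem_win]
  constructor
  · rintro ⟨u, hu, rfl⟩
    exact ⟨⟨u.1, u.2, rfl⟩, (mem_winE hp hq).mp hu⟩
  · rintro ⟨⟨a, b, rfl⟩, h⟩
    exact ⟨(a, b), (mem_winE hp hq).mpr h, rfl⟩

lemma card_winE (hirr : Irrational (Real.log p / Real.log q)) {X Y : ℝ} :
    (winE p q X Y).card = (win p q X Y).card := by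
  classical
  rw [← image_winE hp hq, Finset.card_image_of_injective _ (pow_mul_inj hp hq hirr)]

lemma sum_winE (hirr : Irrational (Real.log p / Real.log q)) {X Y : ℝ} (f : ℕ → ℝ) :
    ∑ u ∈ winE p q X Y, f (p ^ u.1 * q ^ u.2) = ∑ n ∈ win p q X Y, f n := by
  classical
  rw [← image_winE hp hq, Finset.sum_image]
  intro a _ b _ h
  exact pow_mul_inj hp hq hirr h

end

/-- translation of exponents -/
def shE (a b : ℕ) : ℕ × ℕ ↪ ℕ × ℕ :=
  ⟨fun u => (a + u.1, b + u.2), by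
    rintro ⟨x, y⟩ ⟨z, w⟩ h
    simp only [Prod.mk.injEq, add_right_inj] at h
    rw [Prod.mk.injEq]; exact h⟩

section
variable {p q : ℕ} (hp : 2 ≤ p) (hq : 2 ≤ q)
include hp hq

lemma ave_shift_win (hirr : Irrational (Real.log p / Real.log q)) (a b : ℕ) {X Y : ℝ}
    (g : UnitAddCircle → ℝ) (w : UnitAddCircle) :
    ave p q ((winE p q X Y).map (shE a b)) g w =
      ((win p q X Y).card : ℝ)⁻¹ * ∑ n ∈ win p q X Y, g (n • ((p ^ a * q ^ b) • w)) := by
  unfold ave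
  rw [Finset.card_map, card_winE hp hq hirr, Finset.sum_map,
    ← sum_winE hp hq hirr (fun n => g (n • ((p ^ a * q ^ b) • w)))]
  congr 1
  refine Finset.sum_congr rfl fun u _ => ?_
  change g ((p ^ (a + u.1) * q ^ (b + u.2)) • w) = _
  rw [smul_smul]
  congr 2
  ring

lemma leave_p (hirr : Irrational (Real.log p / Real.log q)) (a b : ℕ) {X Y : ℝ} :
    ((((winE p q X Y).map (shE a b)).filter fun n =>
      (n.1 + 1, n.2) ∉ (winE p q X Y).map (shE a b)).card : ℝ) ≤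
      ((win p q X Y).filter fun n => Y ≤ ((p * n : ℕ) : ℝ)).card := by
  classical
  have h1 : (((winE p q X Y).map (shE a b)).filter fun n =>
      (n.1 + 1, n.2) ∉ (winE p q X Y).map (shE a b)) ⊆
      ((winE p q X Y).filter fun u => Y ≤ ((p * (p ^ u.1 * q ^ u.2) : ℕ) : ℝ)).map (shE a b) := by
    intro n hn
    rw [Finset.mem_filter, Finset.mem_map] at hn
    obtain ⟨⟨u, hu, rfl⟩, hn2⟩ := hn
    rw [Finset.mem_map]
    refine ⟨u, ?_, rfl⟩
    rw [Finset.mem_filter]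
    refine ⟨hu, ?_⟩
    by_contra hcon
    push Not at hcon
    apply hn2
    rw [Finset.mem_map]
    refine ⟨(u.1 + 1, u.2), ?_, ?_⟩
    · rw [mem_winE hp hq] at hu ⊢
      have e : (p ^ (u.1 + 1) * q ^ u.2 : ℕ) = p * (p ^ u.1 * q ^ u.2) := by ring
      simp only [e]
      refine ⟨hu.1.trans ?_, hcon⟩
      have : p ^ u.1 * q ^ u.2 ≤ p * (p ^ u.1 * q ^ u.2) := Nat.le_mul_of_pos_left _ (by omega)
      exact_mod_cast this
    · change (a + (u.1 + 1), b + u.2) = (a + u.1 + 1, b + u.2)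
      rw [add_assoc]
  have h2 : (((winE p q X Y).filter fun u =>
      Y ≤ ((p * (p ^ u.1 * q ^ u.2) : ℕ) : ℝ)).image (fun u => p ^ u.1 * q ^ u.2)) ⊆
      ((win p q X Y).filter fun n => Y ≤ ((p * n : ℕ) : ℝ)) := by
    intro n hn
    rw [Finset.mem_image] at hn
    obtain ⟨u, hu, rfl⟩ := hn
    rw [Finset.mem_filter] at hu ⊢
    refine ⟨?_, hu.2⟩
    rw [← image_winE hp hq, Finset.mem_image]
    exact ⟨u, hu.1, rfl⟩
  have h3 := Finset.card_le_card h1
  have h4 := Finset.card_le_card h2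
  rw [Finset.card_map] at h3
  rw [Finset.card_image_of_injective _ (pow_mul_inj hp hq hirr)] at h4
  exact_mod_cast h3.trans h4

lemma leave_q (hirr : Irrational (Real.log p / Real.log q)) (a b : ℕ) {X Y : ℝ} :
    ((((winE p q X Y).map (shE a b)).filter fun n =>
      (n.1, n.2 + 1) ∉ (winE p q X Y).map (shE a b)).card : ℝ) ≤
      ((win p q X Y).filter fun n => Y ≤ ((q * n : ℕ) : ℝ)).card := by
  classical
  have h1 : (((winE p q X Y).map (shE a b)).filter fun n =>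
      (n.1, n.2 + 1) ∉ (winE p q X Y).map (shE a b)) ⊆
      ((winE p q X Y).filter fun u => Y ≤ ((q * (p ^ u.1 * q ^ u.2) : ℕ) : ℝ)).map (shE a b) := by
    intro n hn
    rw [Finset.mem_filter, Finset.mem_map] at hn
    obtain ⟨⟨u, hu, rfl⟩, hn2⟩ := hn
    rw [Finset.mem_map]
    refine ⟨u, ?_, rfl⟩
    rw [Finset.mem_filter]
    refine ⟨hu, ?_⟩
    by_contra hcon
    push Not at hcon
    apply hn2
    rw [Finset.mem_map]
    refine ⟨(u.1, u.2 + 1), ?_, ?_⟩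
    · rw [mem_winE hp hq] at hu ⊢
      have e : (p ^ u.1 * q ^ (u.2 + 1) : ℕ) = q * (p ^ u.1 * q ^ u.2) := by ring
      simp only [e]
      refine ⟨hu.1.trans ?_, hcon⟩
      have : p ^ u.1 * q ^ u.2 ≤ q * (p ^ u.1 * q ^ u.2) := Nat.le_mul_of_pos_left _ (by omega)
      exact_mod_cast this
    · change (a + u.1, b + (u.2 + 1)) = (a + u.1, b + u.2 + 1)
      rw [add_assoc]
  have h2 : (((winE p q X Y).filter fun u =>
      Y ≤ ((q * (p ^ u.1 * q ^ u.2) : ℕ) : ℝ)).image (fun u => p ^ u.1 * q ^ u.2)) ⊆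
      ((win p q X Y).filter fun n => Y ≤ ((q * n : ℕ) : ℝ)) := by
    intro n hn
    rw [Finset.mem_image] at hn
    obtain ⟨u, hu, rfl⟩ := hn
    rw [Finset.mem_filter] at hu ⊢
    refine ⟨?_, hu.2⟩
    rw [← image_winE hp hq, Finset.mem_image]
    exact ⟨u, hu.1, rfl⟩
  have h3 := Finset.card_le_card h1
  have h4 := Finset.card_le_card h2
  rw [Finset.card_map] at h3
  rw [Finset.card_image_of_injective _ (pow_mul_inj hp hq hirr)] at h4
  exact_mod_cast h3.trans h4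

end

lemma exists_min_pos {f : ℕ → ℝ} (hf : ∀ j, 0 < f j) (m : ℕ) : ∃ δ : ℝ, 0 < δ ∧ ∀ j ≤ m, δ ≤ f j := by
  induction m with
  | zero =>
    refine ⟨f 0, hf 0, fun j hj => ?_⟩
    rw [Nat.le_zero.mp hj]
  | succ m ih =>
    obtain ⟨δ, hδ, h⟩ := ih
    refine ⟨min δ (f (m + 1)), lt_min hδ (hf _), fun j hj => ?_⟩
    rcases Nat.lt_or_ge j (m + 1) with h1 | h1
    · exact (min_le_left _ _).trans (h j (by omega))
    · have : j = m + 1 := by omega
      rw [this]; exact min_le_right _ _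

/-- the radii -/
noncomputable def rad (j : ℕ) : ℝ := 1 / (8 * ((j : ℝ) + 1))

lemma rad_pos (j : ℕ) : 0 < rad j := by unfold rad; positivity

lemma rad_le (j : ℕ) : rad j ≤ 1 / 8 := by
  unfold rad
  rw [div_le_div_iff₀ (by positivity) (by norm_num)]
  have : (0 : ℝ) ≤ j := Nat.cast_nonneg j
  linarith

/-- good windows -/
lemma good_windows {p q : ℕ} (hp : 2 ≤ p) (hq : 2 ≤ q)
    (hirr : Irrational (Real.log p / Real.log q)) {C : ℝ} (hC : 1 ≤ C) (m : ℕ) :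
    ∃ H δ : ℝ, 0 < δ ∧ ∀ τ : ℝ, 0 < τ → τ < δ →
      0 < (win p q (1 / τ) (H / τ)).card ∧
      (((win p q (1 / τ) (H / τ)).filter fun n => H / τ ≤ ((p * n : ℕ) : ℝ)).card : ℝ) ≤
        (1 / ((m : ℝ) + 1)) * (win p q (1 / τ) (H / τ)).card ∧
      (((win p q (1 / τ) (H / τ)).filter fun n => H / τ ≤ ((q * n : ℕ) : ℝ)).card : ℝ) ≤
        (1 / ((m : ℝ) + 1)) * (win p q (1 / τ) (H / τ)).card ∧
      ∀ z : UnitAddCircle, τ ≤ ‖z‖ → ‖z‖ ≤ C * τ → ∀ j ≤ m, ∀ c : UnitAddCircle,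
        (((win p q (1 / τ) (H / τ)).filter fun n => ‖n • z - c‖ ≤ rad j).card : ℝ) ≤
          (80 * rad j + 1 / ((m : ℝ) + 1)) * (win p q (1 / τ) (H / τ)).card := by
  have hm : (0 : ℝ) < 1 / ((m : ℝ) + 1) := by positivity
  obtain ⟨Hp, -, h1⟩ := near_inv hp hq hirr hp hm
  obtain ⟨Hq, -, h2⟩ := near_inv hp hq hirr hq hm
  set H : ℝ := max (max Hp Hq) (max C (Real.exp 2)) with hH
  have e1 : Hp ≤ H := (le_max_left _ _).trans (le_max_left _ _)
  have e2 : Hq ≤ H := (le_max_right _ _).trans (le_max_left _ _)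
  have e3 : C ≤ H := (le_max_left _ _).trans (le_max_right _ _)
  have e4 : Real.exp 2 ≤ H := (le_max_right _ _).trans (le_max_right _ _)
  have hH0 : 0 < H := (Real.exp_pos 2).trans_le e4
  have e5 : 2 ≤ Real.log H := (Real.le_log_iff_exp_le hH0).2 e4
  have hH1 : 1 < H := by
    by_contra hcon
    push Not at hcon
    have := Real.log_nonpos hH0.le hcon
    linarith
  obtain ⟨δp, hδp, h1⟩ := h1 H e1
  obtain ⟨δq, hδq, h2⟩ := h2 H e2
  obtain ⟨δc, hδc, h3⟩ := card_large hp hq hirr hH1 1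
  choose f hf h4 using fun j : ℕ => arc_win hp hq hirr hC e3 e5 (rad_pos j) (rad_le j) hm
  obtain ⟨δa, hδa, h5⟩ := exists_min_pos hf m
  refine ⟨H, min (min δp δq) (min δc δa), by positivity, fun τ hτ hτδ => ?_⟩
  have t1 : τ < δp := hτδ.trans_le ((min_le_left _ _).trans (min_le_left _ _))
  have t2 : τ < δq := hτδ.trans_le ((min_le_left _ _).trans (min_le_right _ _))
  have t3 : τ < δc := hτδ.trans_le ((min_le_right _ _).trans (min_le_left _ _))
  have t4 : τ < δa := hτδ.trans_le ((min_le_right _ _).trans (min_le_right _ _))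
  refine ⟨?_, h1 τ hτ t1, h2 τ hτ t2, fun z hz1 hz2 j hj c => ?_⟩
  · have := h3 τ hτ t3
    have h6 : (0 : ℝ) < ((win p q (1 / τ) (H / τ)).card : ℝ) := by linarith
    exact_mod_cast h6
  · exact h4 j τ hτ (t4.trans_le (h5 j hj)) z hz1 hz2 c

end Pool.Agent.Zk32
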