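import Mathlib
import Pool.Agent.Zk32.Gp5

set_option autoImplicit false
set_option linter.unusedSectionVars false

open MeasureTheory Filter Topology Set
open scoped ENNReal NNReal BoundedContinuousFunction

namespace Pool.Agent.Zk32

open Pool.Agent.W764.HL (win mem_win)

/-- existence of limits along an ultrafilter, for varying measures -/
lemma lim_exists' {p q : ℕ} {F : ℕ → Finset (ℕ × ℕ)} (hF : ∀ k, (F k).Nonempty)
    (𝒰 : Ultrafilter ℕ) (σ : ℕ → Measure UnitAddCircle) (hσ : ∀ k, IsProbabilityMeasure (σ k)) :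
    ∃ κ : Measure UnitAddCircle, IsProbabilityMeasure κ ∧ ∀ g : C(UnitAddCircle, ℝ),
      Tendsto (fun k => ∫ x, aveX p q (F k) g x ∂(σ k)) (𝒰 : Filter ℕ) (𝓝 (∫ x, g x ∂κ)) := by
  choose τ hτ using fun k => aveX_exists (p := p) (q := q) (hF k)
    (⟨σ k, hσ k⟩ : ProbabilityMeasure UnitAddCircle)
  obtain ⟨κ, -, hκ⟩ := (isCompact_univ (X := ProbabilityMeasure UnitAddCircle)).ultrafilter_le_nhds
      (𝒰.map τ) (by simp)
  refine ⟨(κ : Measure UnitAddCircle), inferInstance, fun g => ?_⟩
  have h1 : Tendsto τ (𝒰 : Filter ℕ) (𝓝 κ) := hκ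
  rw [ProbabilityMeasure.tendsto_iff_forall_integral_tendsto] at h1
  refine (h1 (BoundedContinuousFunction.mkOfCompact g)).congr fun k => ?_
  exact hτ k g

/-- a tent -/
noncomputable def tent (x : UnitAddCircle) (r : ℝ) : C(UnitAddCircle, ℝ) :=
  ⟨fun y => max 0 (1 - ‖y - x‖ / r), by fun_prop⟩

lemma tent_nonneg (x : UnitAddCircle) (r : ℝ) (y : UnitAddCircle) : 0 ≤ tent x r y :=
  le_max_left _ _

lemma tent_le_one (x : UnitAddCircle) {r : ℝ} (hr : 0 < r) (y : UnitAddCircle) :
    tent x r y ≤ 1 := by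
  refine max_le zero_le_one ?_
  have : 0 ≤ ‖y - x‖ / r := by positivity
  linarith

lemma tent_self (x : UnitAddCircle) (r : ℝ) : tent x r x = 1 := by
  change max 0 (1 - ‖x - x‖ / r) = 1
  simp

lemma tent_zero (x : UnitAddCircle) {r : ℝ} (hr : 0 < r) {y : UnitAddCircle} (h : r < ‖y - x‖) :
    tent x r y = 0 := by
  change max 0 (1 - ‖y - x‖ / r) = 0
  refine max_eq_left ?_
  have : 1 ≤ ‖y - x‖ / r := by rw [le_div_iff₀ hr]; linarith
  linarith

/-- **Noise with mass at one scale is not rigid.** -/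
theorem bump_nonrigid {p q : ℕ} (hp : 2 ≤ p) (hq : 2 ≤ q)
    (hirr : Irrational (Real.log p / Real.log q)) (ρ : Measure UnitAddCircle)
    [IsProbabilityMeasure ρ] {b C : ℝ} (hb : 0 < b) (hC : 1 ≤ C) {a a' : ℕ → ℕ} {d : ℕ → ℝ}
    (hd : ∀ k, 0 < d k) (hd0 : Tendsto d atTop (𝓝 0))
    (h : ∀ k, b ≤ ρ.real {w | d k ≤ ‖(p ^ a k * q ^ a' k) • w‖ ∧
      ‖(p ^ a k * q ^ a' k) • w‖ ≤ C * d k}) : NonRigid p q ρ := by
  choose H δ hδ hgood using fun m : ℕ => good_windows hp hq hirr hC m
  have hk : ∀ m, ∃ k, d k < δ m := fun m =>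
    ((tendsto_order.mp hd0).2 (δ m) (hδ m)).exists
  choose k hk using hk
  set τ : ℕ → ℝ := fun m => d (k m) with hτ
  have hτ0 : ∀ m, 0 < τ m := fun m => hd _
  set W : ℕ → Finset ℕ := fun m => win p q (1 / τ m) (H m / τ m) with hW
  have hg := fun m => hgood m (τ m) (hτ0 m) (hk m)
  have hcard : ∀ m, (0 : ℝ) < (W m).card := fun m => by exact_mod_cast (hg m).1
  set F : ℕ → Finset (ℕ × ℕ) := fun m =>
    (winE p q (1 / τ m) (H m / τ m)).map (shE (a (k m)) (a' (k m))) with hFd
  have hFc : ∀ m, ((F m).card : ℝ) = (W m).card := fun m => by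
    simp only [hFd, hW, Finset.card_map, card_winE hp hq hirr]
  have h1m : Tendsto (fun m : ℕ => 1 / ((m : ℝ) + 1)) atTop (𝓝 0) :=
    tendsto_one_div_add_atTop_nhds_zero_nat
  have hF : Folner F := by
    refine ⟨fun m => ?_, ?_, ?_⟩
    · rw [← Finset.card_pos]
      have h2 := hcard m
      rw [← hFc m] at h2
      exact_mod_cast h2
    · refine squeeze_zero (fun m => by positivity) (fun m => ?_) h1m
      rw [hFc m, div_le_iff₀ (hcard m)]
      exact (leave_p hp hq hirr _ _).trans (hg m).2.1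
    · refine squeeze_zero (fun m => by positivity) (fun m => ?_) h1m
      rw [hFc m, div_le_iff₀ (hcard m)]
      exact (leave_q hp hq hirr _ _).trans (hg m).2.2.1
  refine ⟨F, hF, fun 𝒰 h𝒰 κ hκ hl => ?_⟩
  set N : ℕ → ℕ := fun m => p ^ a (k m) * q ^ a' (k m) with hN
  set S : ℕ → Set UnitAddCircle := fun m => {w | τ m ≤ ‖N m • w‖ ∧ ‖N m • w‖ ≤ C * τ m} with hS
  have hSm : ∀ m, MeasurableSet (S m) := by
    intro m
    have hc : Continuous (fun w : UnitAddCircle => ‖N m • w‖) := by fun_prop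
    exact (isClosed_le continuous_const hc).measurableSet.inter
      (isClosed_le hc continuous_const).measurableSet
  have hSb : ∀ m, b ≤ ρ.real (S m) := fun m => h (k m)
  have hS0 : ∀ m, ρ (S m) ≠ 0 := by
    intro m h0
    have := hSb m
    rw [Measure.real, h0] at this
    simp only [ENNReal.toReal_zero] at this
    linarith
  have hσp : ∀ m, IsProbabilityMeasure (ProbabilityTheory.cond ρ (S m)) := fun m =>
    ProbabilityTheory.cond_isProbabilityMeasure (hS0 m)
  obtain ⟨κ', hκ'p, hκ'⟩ := lim_exists' (p := p) (q := q) hF.1 𝒰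
    (fun m => ProbabilityTheory.cond ρ (S m)) hσp
  have hb1 : 0 < b⁻¹ := inv_pos.mpr hb
  have hdom : ∀ g : C(UnitAddCircle, ℝ), (∀ x, 0 ≤ g x) →
      ∫ x, g x ∂κ' ≤ b⁻¹ * ∫ x, g x ∂κ := by
    intro g hg0
    refine le_of_tendsto_of_tendsto (hκ' g) ((hl g).const_mul b⁻¹)
      (Eventually.of_forall fun m => ?_)
    have hnn : ∀ x, 0 ≤ aveX p q (F m) g x := fun x =>
      mul_nonneg (by positivity) (Finset.sum_nonneg fun n _ => hg0 _)
    have hi : Integrable (aveX p q (F m) g) ρ := int_contX ρ ⟨_, aveX_cont g⟩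
    have h2 : ∫ x, aveX p q (F m) g x ∂(ProbabilityTheory.cond ρ (S m)) =
        (ρ.real (S m))⁻¹ * ∫ x in S m, aveX p q (F m) g x ∂ρ := by
      rw [ProbabilityTheory.cond, integral_smul_measure, smul_eq_mul, ENNReal.toReal_inv]
      rfl
    change ∫ x, aveX p q (F m) g x ∂(ProbabilityTheory.cond ρ (S m)) ≤
      b⁻¹ * ∫ x, aveX p q (F m) g x ∂ρ
    rw [h2]
    have h3 : ∫ x in S m, aveX p q (F m) g x ∂ρ ≤ ∫ x, aveX p q (F m) g x ∂ρ :=
      setIntegral_le_integral hi (Eventually.of_forall hnn)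
    have h4 : 0 ≤ ∫ x in S m, aveX p q (F m) g x ∂ρ := integral_nonneg hnn
    have h5 : (ρ.real (S m))⁻¹ ≤ b⁻¹ := inv_anti₀ hb (hSb m)
    exact mul_le_mul h5 h3 h4 hb1.le
  have hatom : ∀ x : UnitAddCircle, κ' {x} = 0 := by
    intro x
    have h2 : ∀ j : ℕ, κ'.real {x} ≤ 80 * rad j := by
      intro j
      have h3 : κ'.real {x} ≤ ∫ y, tent x (rad j) y ∂κ' := by
        have : ∫ y, ({x} : Set UnitAddCircle).indicator (fun _ => (1 : ℝ)) y ∂κ' ≤
            ∫ y, tent x (rad j) y ∂κ' := by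
          apply integral_mono ((integrable_const _).indicator (measurableSet_singleton x))
            (int_cont κ' _)
          intro y
          by_cases hy : y ∈ ({x} : Set UnitAddCircle)
          · simp only
            rw [Set.indicator_of_mem hy, Set.mem_singleton_iff.mp hy, tent_self]
          · simp only
            rw [Set.indicator_of_notMem hy]
            exact tent_nonneg _ _ _
        rw [integral_indicator_const _ (measurableSet_singleton x)] at this
        simpa using this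
      refine h3.trans ?_
      have h4 : Tendsto (fun m : ℕ => 80 * rad j + 1 / ((m : ℝ) + 1)) (𝒰 : Filter ℕ)
          (𝓝 (80 * rad j)) := by
        have := (h1m.const_add (80 * rad j)).mono_left h𝒰
        rwa [add_zero] at this
      refine le_of_tendsto_of_tendsto (hκ' (tent x (rad j))) h4 ?_
      filter_upwards [h𝒰 (eventually_ge_atTop j)] with m hm
      have h5 : ∀ᵐ w ∂(ProbabilityTheory.cond ρ (S m)), w ∈ S m :=
        ProbabilityTheory.ae_cond_mem (hSm m)
      have h6 : ∀ᵐ w ∂(ProbabilityTheory.cond ρ (S m)), aveX p q (F m) (tent x (rad j)) w ≤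
          80 * rad j + 1 / ((m : ℝ) + 1) := by
        filter_upwards [h5] with w hw
        have e : aveX p q (F m) (tent x (rad j)) w =
            ((W m).card : ℝ)⁻¹ * ∑ n ∈ W m, tent x (rad j) (n • (N m • w)) :=
          ave_shift_win hp hq hirr _ _ _ _
        rw [e, inv_mul_le_iff₀ (hcard m)]
        have h7 := (hg m).2.2.2 (N m • w) hw.1 hw.2 j hm x
        have h8 : ∑ n ∈ W m, tent x (rad j) (n • (N m • w)) ≤
            ((W m).filter fun n => ‖n • (N m • w) - x‖ ≤ rad j).card := by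
          have h9 : ∑ n ∈ W m, tent x (rad j) (n • (N m • w)) ≤
              ∑ n ∈ W m, if ‖n • (N m • w) - x‖ ≤ rad j then (1 : ℝ) else 0 := by
            refine Finset.sum_le_sum fun n _ => ?_
            split_ifs with h10
            · exact tent_le_one x (rad_pos j) _
            · exact (tent_zero x (rad_pos j) (not_le.mp h10)).le
          refine h9.trans (le_of_eq ?_)
          rw [Finset.sum_boole]
        refine h8.trans (h7.trans (le_of_eq ?_))
        ring
      have h7 : ∫ w, aveX p q (F m) (tent x (rad j)) w ∂(ProbabilityTheory.cond ρ (S m)) ≤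
          ∫ _w, (80 * rad j + 1 / ((m : ℝ) + 1)) ∂(ProbabilityTheory.cond ρ (S m)) :=
        integral_mono_ae (int_contX _ ⟨_, aveX_cont (tent x (rad j))⟩) (integrable_const _) h6
      rw [integral_const, probReal_univ, one_smul] at h7
      exact h7
    have h3 : Tendsto (fun j : ℕ => 80 * rad j) atTop (𝓝 0) := by
      have h4 : ∀ j : ℕ, 80 * rad j = 10 * (1 / ((j : ℝ) + 1)) := by
        intro j
        unfold rad
        field_simp
        norm_num
      simp only [h4]
      have := h1m.const_mul 10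
      rwa [mul_zero] at this
    have h4 : κ'.real {x} ≤ 0 := ge_of_tendsto' h3 h2
    have h5 : κ'.real {x} = 0 := le_antisymm h4 measureReal_nonneg
    exact (measureReal_eq_zero_iff (measure_ne_top _ _)).mp h5
  have hκ'T : κ' Tor = 0 := by
    have : NullSingletonClass κ' := ⟨hatom⟩
    exact tor_countable.measure_zero κ'
  have h2 := le_of_le hb1 hdom tor_meas.compl
  have h3 : κ'.real Torᶜ = 1 := by
    rw [Measure.real, (prob_compl_eq_one_iff tor_meas).mpr hκ'T]; rfl
  rw [h3] at h2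
  refine lt_of_le_of_ne prob_le_one fun h4 => ?_
  have h5 : κ Torᶜ = 0 := (prob_compl_eq_zero_iff tor_meas).mpr h4
  rw [Measure.real, h5] at h2
  simp only [ENNReal.toReal_zero, mul_zero] at h2
  linarith

end Pool.Agent.Zk32
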