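import Mathlib
import Pool.Agent.Zk32.Gp6

/-!
Rigid measures: three equivalent forms, and the largest rigid part of a measure
-/

set_option autoImplicit false
set_option linter.unusedSectionVars false

open MeasureTheory Filter Topology Set
open scoped ENNReal NNReal BoundedContinuousFunction

namespace Pool.Agent.Zk32

/-- limits exist for finite measures -/
lemma lim_existsF {p q : ℕ} {F : ℕ → Finset (ℕ × ℕ)} (hF : ∀ k, (F k).Nonempty)
    (𝒰 : Ultrafilter ℕ) (ρ : Measure UnitAddCircle) [IsFiniteMeasure ρ] :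
    ∃ κ : Measure UnitAddCircle, IsFiniteMeasure κ ∧ κ univ = ρ univ ∧
      ∀ g : C(UnitAddCircle, ℝ), Tendsto (fun k => ∫ x, ave p q (F k) g x ∂ρ) (𝒰 : Filter ℕ)
        (𝓝 (∫ x, g x ∂κ)) := by
  by_cases h0 : ρ univ = 0
  · have : ρ = 0 := Measure.measure_univ_eq_zero.mp h0
    subst this
    refine ⟨0, inferInstance, rfl, fun g => ?_⟩
    simp
  · have ht : ρ univ ≠ ∞ := measure_ne_top _ _
    have hp : IsProbabilityMeasure ((ρ univ)⁻¹ • ρ) := ⟨by
      rw [Measure.smul_apply, smul_eq_mul, ENNReal.inv_mul_cancel h0 ht]⟩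
    obtain ⟨κ, hκ, h⟩ := lim_exists' (p := p) (q := q) hF 𝒰 (fun _ => (ρ univ)⁻¹ • ρ) (fun _ => hp)
    refine ⟨ρ univ • κ, ⟨?_⟩, ?_, fun g => ?_⟩
    · rw [Measure.smul_apply, smul_eq_mul, measure_univ (μ := κ), mul_one]
      exact lt_top_iff_ne_top.mpr ht
    · rw [Measure.smul_apply, smul_eq_mul, measure_univ (μ := κ), mul_one]
    · rw [integral_smul_measure]
      have h1 := (h g).const_mul (ρ univ).toReal
      refine h1.congr fun k => ?_
      rw [integral_smul_measure, smul_eq_mul, ← mul_assoc, ENNReal.toReal_inv, mul_inv_cancel₀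
        (ENNReal.toReal_pos h0 ht).ne', one_mul]
      rfl

/-- every limit along every Folner sequence is carried by the torsion points -/
def RigU (p q : ℕ) (ρ : Measure UnitAddCircle) : Prop :=
  ∀ F : ℕ → Finset (ℕ × ℕ), Folner F → ∀ 𝒰 : Ultrafilter ℕ, (𝒰 : Filter ℕ) ≤ atTop →
    ∀ κ : Measure UnitAddCircle, IsFiniteMeasure κ →
      (∀ g : C(UnitAddCircle, ℝ), Tendsto (fun k => ∫ x, ave p q (F k) g x ∂ρ)
        (𝒰 : Filter ℕ) (𝓝 (∫ x, g x ∂κ))) → κ Torᶜ = 0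

lemma RigU.of_le {p q : ℕ} {ρ ρ' : Measure UnitAddCircle} [IsFiniteMeasure ρ] [IsFiniteMeasure ρ']
    (h : RigU p q ρ) {C : ℝ≥0∞} (hC0 : C ≠ 0) (hC : C ≠ ∞) (hle : ρ' ≤ C • ρ) : RigU p q ρ' := by
  intro F hF 𝒰 h𝒰 κ' hκ' hl
  obtain ⟨κ, hκ, -, hκl⟩ := lim_existsF (p := p) (q := q) hF.1 𝒰 ρ
  have h1 := h F hF 𝒰 h𝒰 κ hκ hκl
  have hdom : ∀ g : C(UnitAddCircle, ℝ), (∀ x, 0 ≤ g x) →
      ∫ x, g x ∂κ' ≤ C.toReal * ∫ x, g x ∂κ := by
    intro g hg
    refine le_of_tendsto_of_tendsto (hl g) ((hκl g).const_mul C.toReal)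
      (Eventually.of_forall fun k => ?_)
    have hnn : ∀ x, 0 ≤ aveX p q (F k) g x := fun x =>
      mul_nonneg (by positivity) (Finset.sum_nonneg fun n _ => hg _)
    change ∫ x, aveX p q (F k) g x ∂ρ' ≤ C.toReal * ∫ x, aveX p q (F k) g x ∂ρ
    rw [← smul_eq_mul, ← integral_smul_measure]
    have : IsFiniteMeasure (C • ρ) := ⟨by
      rw [Measure.smul_apply, smul_eq_mul]
      exact ENNReal.mul_lt_top (lt_top_iff_ne_top.mpr hC) (measure_lt_top _ _)⟩
    exact integral_mono_measure hle (Eventually.of_forall hnn) (int_contX _ ⟨_, aveX_cont g⟩)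
  exact ac_of_le (ENNReal.toReal_pos hC0 hC) hdom h1

lemma RigU.mono {p q : ℕ} {ρ ρ' : Measure UnitAddCircle} [IsFiniteMeasure ρ] [IsFiniteMeasure ρ']
    (h : RigU p q ρ) (hle : ρ' ≤ ρ) : RigU p q ρ' :=
  h.of_le one_ne_zero ENNReal.one_ne_top (by rwa [one_smul])

lemma lim_add {p q : ℕ} {F : ℕ → Finset (ℕ × ℕ)} {𝒰 : Ultrafilter ℕ}
    {ρ ρ' κ κ₁ κ₂ : Measure UnitAddCircle} [IsFiniteMeasure ρ] [IsFiniteMeasure ρ']
    [IsFiniteMeasure κ] [IsFiniteMeasure κ₁] [IsFiniteMeasure κ₂]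
    (h : ∀ g : C(UnitAddCircle, ℝ), Tendsto (fun k => ∫ x, ave p q (F k) g x ∂(ρ + ρ'))
        (𝒰 : Filter ℕ) (𝓝 (∫ x, g x ∂κ)))
    (h1 : ∀ g : C(UnitAddCircle, ℝ), Tendsto (fun k => ∫ x, ave p q (F k) g x ∂ρ)
        (𝒰 : Filter ℕ) (𝓝 (∫ x, g x ∂κ₁)))
    (h2 : ∀ g : C(UnitAddCircle, ℝ), Tendsto (fun k => ∫ x, ave p q (F k) g x ∂ρ')
        (𝒰 : Filter ℕ) (𝓝 (∫ x, g x ∂κ₂))) : κ = κ₁ + κ₂ := by
  refine ext_of_forall_integral_eq_of_IsFiniteMeasure fun f => ?_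
  rw [integral_add_measure (f.integrable _) (f.integrable _)]
  refine tendsto_nhds_unique (h f.toContinuousMap)
    (((h1 f.toContinuousMap).add (h2 f.toContinuousMap)).congr fun k => ?_)
  exact (integral_add_measure (int_contX ρ ⟨_, aveX_cont f.toContinuousMap⟩)
    (int_contX ρ' ⟨_, aveX_cont f.toContinuousMap⟩)).symm

lemma RigU.add {p q : ℕ} {ρ ρ' : Measure UnitAddCircle} [IsFiniteMeasure ρ] [IsFiniteMeasure ρ']
    (h : RigU p q ρ) (h' : RigU p q ρ') : RigU p q (ρ + ρ') := by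
  intro F hF 𝒰 h𝒰 κ hκ hl
  obtain ⟨κ₁, hκ₁, -, hl₁⟩ := lim_existsF (p := p) (q := q) hF.1 𝒰 ρ
  obtain ⟨κ₂, hκ₂, -, hl₂⟩ := lim_existsF (p := p) (q := q) hF.1 𝒰 ρ'
  rw [lim_add hl hl₁ hl₂, Measure.add_apply, h F hF 𝒰 h𝒰 κ₁ hκ₁ hl₁, h' F hF 𝒰 h𝒰 κ₂ hκ₂ hl₂,
    add_zero]

/-- the sets where `ρ` is rigid -/
def RSet (p q : ℕ) (ρ : Measure UnitAddCircle) (D : Set UnitAddCircle) : Prop :=
  MeasurableSet D ∧ RigU p q (ρ.restrict D)

section
variable {p q : ℕ} {ρ : Measure UnitAddCircle} [IsFiniteMeasure ρ]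

lemma RSet.subset {D D' : Set UnitAddCircle} (h : RSet p q ρ D) (hD' : MeasurableSet D')
    (hs : D' ⊆ D) : RSet p q ρ D' :=
  ⟨hD', h.2.mono (Measure.restrict_mono hs le_rfl)⟩

lemma RSet.union {D D' : Set UnitAddCircle} (h : RSet p q ρ D) (h' : RSet p q ρ D') :
    RSet p q ρ (D ∪ D') :=
  ⟨h.1.union h'.1, (h.2.add h'.2).mono (Measure.restrict_union_le _ _)⟩

lemma rset_empty : RSet p q ρ ∅ := by
  refine ⟨MeasurableSet.empty, fun F hF 𝒰 h𝒰 κ hκ hl => ?_⟩
  rw [Measure.restrict_empty] at hl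
  have : κ = 0 := by
    refine ext_of_forall_integral_eq_of_IsFiniteMeasure fun f => ?_
    rw [integral_zero_measure]
    refine tendsto_nhds_unique (hl f.toContinuousMap) ?_
    simp
  rw [this]; simp

lemma RSet.iUnion {D : ℕ → Set UnitAddCircle} (h : ∀ n, RSet p q ρ (D n)) :
    RSet p q ρ (⋃ n, D n) := by
  have hm : MeasurableSet (⋃ n, D n) := MeasurableSet.iUnion fun n => (h n).1
  refine ⟨hm, fun F hF 𝒰 h𝒰 κ hκ hl => ?_⟩
  set V : ℕ → Set UnitAddCircle := fun n => Set.accumulate D n with hV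
  have hVr : ∀ n, RSet p q ρ (V n) := by
    intro n
    induction n with
    | zero =>
      have : V 0 = D 0 := by simp [hV, Set.accumulate]
      rw [this]; exact h 0
    | succ n ih =>
      have : V (n + 1) = V n ∪ D (n + 1) := by
        simp only [hV]
        exact Set.accumulate_succ D n
      rw [this]; exact ih.union (h _)
  have hVU : (⋃ n, V n) = ⋃ n, D n := Set.iUnion_accumulate
  have hmono : Monotone V := Set.monotone_accumulate
  have hlim : Tendsto (fun n => ρ ((⋃ n, D n) \ V n)) atTop (𝓝 0) := by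
    have h1 : Tendsto (fun n => ρ ((⋃ n, D n) \ V n)) atTop (𝓝 (ρ (⋂ n, (⋃ n, D n) \ V n))) := by
      apply tendsto_measure_iInter_atTop
      · intro n; exact (hm.diff (hVr n).1).nullMeasurableSet
      · intro a b hab; exact Set.sdiff_subset_sdiff_right (hmono hab)
      · exact ⟨0, measure_ne_top _ _⟩
    have h2 : (⋂ n, (⋃ n, D n) \ V n) = ∅ := by
      rw [← Set.sdiff_iUnion, hVU, Set.sdiff_self]
    rwa [h2, measure_empty] at h1
  refine le_antisymm (ge_of_tendsto' hlim fun n => ?_) zero_le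
  obtain ⟨κ₁, hκ₁, -, hl₁⟩ := lim_existsF (p := p) (q := q) hF.1 𝒰 (ρ.restrict (V n))
  obtain ⟨κ₂, hκ₂, hu, hl₂⟩ := lim_existsF (p := p) (q := q) hF.1 𝒰
    (ρ.restrict ((⋃ n, D n) \ V n))
  have hsum : ρ.restrict (⋃ n, D n) = ρ.restrict (V n) + ρ.restrict ((⋃ n, D n) \ V n) := by
    have hVs : V n ⊆ ⋃ n, D n := by rw [← hVU]; exact Set.subset_iUnion V n
    rw [← Measure.restrict_union disjoint_sdiff_right (hm.diff (hVr n).1),
      Set.union_sdiff_cancel hVs]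
  rw [hsum] at hl
  rw [lim_add hl hl₁ hl₂, Measure.add_apply, (hVr n).2 F hF 𝒰 h𝒰 κ₁ hκ₁ hl₁, zero_add]
  refine (measure_mono (Set.subset_univ _)).trans (le_of_eq ?_)
  rw [hu, Measure.restrict_apply_univ]

/-- **The largest rigid part.** -/
theorem exists_rigid (p q : ℕ) (ρ : Measure UnitAddCircle) [IsFiniteMeasure ρ] :
    ∃ R : Set UnitAddCircle, RSet p q ρ R ∧ ∀ D, RSet p q ρ D → ρ (D \ R) = 0 := by
  set s : ℝ≥0∞ := ⨆ D : {D // RSet p q ρ D}, ρ D.1 with hs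
  have hne : Nonempty {D // RSet p q ρ D} := ⟨⟨∅, rset_empty⟩⟩
  have hst : s ≠ ∞ := by
    refine ne_top_of_le_ne_top (measure_ne_top ρ univ) ?_
    exact iSup_le fun D => measure_mono (Set.subset_univ _)
  have h1 : ∀ n : ℕ, ∃ D, RSet p q ρ D ∧ s ≤ ρ D + (((n : ℝ≥0∞) + 1)⁻¹) := by
    intro n
    have hpos : (((n : ℝ≥0∞) + 1)⁻¹) ≠ 0 := by
      rw [ENNReal.inv_ne_zero]
      exact ENNReal.add_ne_top.mpr ⟨ENNReal.natCast_ne_top n, ENNReal.one_ne_top⟩
    by_contra hcon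
    push Not at hcon
    have h2 : s ≤ s - (((n : ℝ≥0∞) + 1)⁻¹) := by
      refine iSup_le fun D => ?_
      exact ENNReal.le_sub_of_add_le_right (by
        rw [ENNReal.inv_ne_top]; simp) (hcon D.1 D.2).le
    have h3 : s = 0 := by
      by_contra h4
      exact absurd h2 (not_le.mpr (ENNReal.sub_lt_self hst h4 hpos))
    have h4 := hcon ∅ rset_empty
    rw [h3] at h4
    exact not_lt_zero h4
  choose D hD hDs using h1
  refine ⟨⋃ n, D n, RSet.iUnion hD, fun E hE => ?_⟩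
  set U := ⋃ n, D n with hU
  have hUr : RSet p q ρ U := RSet.iUnion hD
  have h2 : s ≤ ρ U := by
    refine le_of_tendsto_of_tendsto' tendsto_const_nhds
      (?_ : Tendsto (fun n : ℕ => ρ U + (((n : ℝ≥0∞) + 1)⁻¹)) atTop (𝓝 (ρ U))) fun n => ?_
    · have h3 : Tendsto (fun n : ℕ => (((n : ℝ≥0∞) + 1)⁻¹)) atTop (𝓝 0) := by
        have := (tendsto_add_atTop_iff_nat 1).mpr ENNReal.tendsto_inv_nat_nhds_zero
        refine this.congr fun n => ?_
        push_cast
        rfl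
      have := h3.const_add (ρ U)
      rwa [add_zero] at this
    · exact (hDs n).trans (add_le_add (measure_mono (Set.subset_iUnion D n)) le_rfl)
  have h3 : ρ (U ∪ E) ≤ s := le_iSup (fun D : {D // RSet p q ρ D} => ρ D.1) ⟨_, hUr.union hE⟩
  have h4 : ρ (U ∪ E) = ρ U + ρ (E \ U) := by
    rw [← measure_union disjoint_sdiff_right (hE.1.diff hUr.1), Set.union_sdiff_self]
  rw [h4] at h3
  have h5 : ρ U + ρ (E \ U) ≤ ρ U + 0 := by rw [add_zero]; exact h3.trans h2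
  exact le_antisymm (ENNReal.le_of_add_le_add_left (measure_ne_top _ _) h5) zero_le

end

/-- a measure which is not rigid in the sense of ultrafilters has a Folner sequence with a limit -/
theorem exists_seq {p q : ℕ} {ρ : Measure UnitAddCircle} [IsProbabilityMeasure ρ]
    (h : ¬ RigU p q ρ) : ∃ F : ℕ → Finset (ℕ × ℕ), Folner F ∧ ∃ κ : Measure UnitAddCircle,
      IsProbabilityMeasure κ ∧ Lim p q F ρ κ ∧ κ Tor < 1 := by
  unfold RigU at h
  push Not at h
  obtain ⟨F, hF, 𝒰, h𝒰, κ, hκ, hl, hT⟩ := h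
  choose τ hτ using fun k => aveX_exists (p := p) (q := q) (hF.1 k)
    (⟨ρ, inferInstance⟩ : ProbabilityMeasure UnitAddCircle)
  obtain ⟨κ', -, hκ'⟩ := (isCompact_univ (X := ProbabilityMeasure UnitAddCircle)).ultrafilter_le_nhds
      (𝒰.map τ) (by simp)
  have h1 : Tendsto τ (𝒰 : Filter ℕ) (𝓝 κ') := hκ'
  have h2 : (κ' : Measure UnitAddCircle) = κ := by
    refine ext_of_forall_integral_eq_of_IsFiniteMeasure fun f => ?_
    have h3 := (ProbabilityMeasure.tendsto_iff_forall_integral_tendsto.mp h1) f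
    refine tendsto_nhds_unique h3 ((hl f.toContinuousMap).congr fun k => ?_)
    exact (hτ k f.toContinuousMap).symm
  have h3 : MapClusterPt κ' atTop τ := by
    have h4 : MapClusterPt κ' (𝒰 : Filter ℕ) τ := h1.mapClusterPt
    exact h4.mono h𝒰
  obtain ⟨ψ, hψ, hψl⟩ := MapClusterPt.tendsto_subseq h3
  refine ⟨F ∘ ψ, hF.comp hψ.tendsto_atTop, κ', inferInstance, fun g => ?_, ?_⟩
  · have h4 := (ProbabilityMeasure.tendsto_iff_forall_integral_tendsto.mp hψl)
      (BoundedContinuousFunction.mkOfCompact g)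
    refine h4.congr fun k => ?_
    exact hτ (ψ k) g
  · refine lt_of_le_of_ne prob_le_one fun h4 => hT ?_
    rw [← h2]
    exact (prob_compl_eq_zero_iff tor_meas).mpr h4

/-- rigid measures: every limit of averages along every Folner sequence is carried by the torsion
points -/
def Rigid (p q : ℕ) (ρ : Measure UnitAddCircle) : Prop :=
  ∀ F : ℕ → Finset (ℕ × ℕ), Folner F → ∀ κ : Measure UnitAddCircle, IsProbabilityMeasure κ →
    Lim p q F ρ κ → κ Tor = 1

theorem rigid_iff {p q : ℕ} {ρ : Measure UnitAddCircle} [IsProbabilityMeasure ρ] :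
    Rigid p q ρ ↔ RigU p q ρ := by
  constructor
  · intro h
    by_contra hcon
    obtain ⟨F, hF, κ, hκ, hl, hT⟩ := exists_seq hcon
    rw [h F hF κ hκ hl] at hT
    exact lt_irrefl _ hT
  · intro h F hF κ hκ hl
    have := h F hF (Filter.hyperfilter ℕ) hyper_le κ inferInstance
      fun g => (hl g).mono_left hyper_le
    exact (prob_compl_eq_zero_iff tor_meas).mp this

theorem nonRigid_iff {p q : ℕ} {ρ : Measure UnitAddCircle} [IsProbabilityMeasure ρ] :
    NonRigid p q ρ ↔ ¬ Rigid p q ρ := by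
  rw [rigid_iff]
  constructor
  · rintro ⟨F, hF, h⟩ hR
    obtain ⟨κ, hκ, hu, hl⟩ := lim_existsF (p := p) (q := q) hF.1 (Filter.hyperfilter ℕ) ρ
    have hκp : IsProbabilityMeasure κ := ⟨by rw [hu, measure_univ]⟩
    have h1 := h _ hyper_le κ hκp hl
    have h2 := hR F hF _ hyper_le κ hκ hl
    rw [(prob_compl_eq_zero_iff tor_meas).mp h2] at h1
    exact lt_irrefl _ h1
  · intro h
    obtain ⟨F, hF, κ, hκ, hl, hT⟩ := exists_seq h
    exact NonRigid.of_lim hF hl hT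

end Pool.Agent.Zk32
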