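import Mathlib
import Pool.Agent.Zk32.Tu0
import Pool.Agent.Zk32.Gp7

/-!
The points all of whose limits along a sequence of sets of exponents are singular
-/

set_option autoImplicit false

open MeasureTheory Filter Topology Set

namespace Pool.Agent.Zk32

/-- the points `x` such that all the limits, along ultrafilters, of the empirical measures of `x`
on the sets `F k` are singular to Lebesgue measure -/
def Det (p q : ℕ) (F : ℕ → Finset (ℕ × ℕ)) : Set UnitAddCircle :=
  {x | ∀ 𝒰 : Ultrafilter ℕ, (𝒰 : Filter ℕ) ≤ atTop → ∀ κ : Measure UnitAddCircle,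
    IsProbabilityMeasure κ → (∀ g : C(UnitAddCircle, ℝ), Tendsto (fun k => ave p q (F k) g x)
      (𝒰 : Filter ℕ) (𝓝 (∫ y, g y ∂κ))) → κ ⟂ₘ (volume : Measure UnitAddCircle)}

/-- the limits exist -/
lemma lim_point {p q : ℕ} {F : ℕ → Finset (ℕ × ℕ)} (hF : ∀ k, (F k).Nonempty)
    (𝒰 : Ultrafilter ℕ) (x : UnitAddCircle) :
    ∃ κ : Measure UnitAddCircle, IsProbabilityMeasure κ ∧
      ∀ g : C(UnitAddCircle, ℝ), Tendsto (fun k => ave p q (F k) g x) (𝒰 : Filter ℕ)
        (𝓝 (∫ y, g y ∂κ)) := by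
  obtain ⟨κ, hκ, hu, hl⟩ := lim_existsF (p := p) (q := q) hF 𝒰 (Measure.dirac x)
  refine ⟨κ, ⟨by rw [hu]; exact measure_univ⟩, fun g => (hl g).congr fun k => ?_⟩
  exact integral_dirac' _ _ (aveX_cont (p := p) (q := q) (F := F k) g).stronglyMeasurable

end Pool.Agent.Zk32
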