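import Mathlib
import Pool.Agent.Zk32.Tu0

/-!
The maximal inequality along sequences with Tempelman's condition (helper80)
-/

set_option autoImplicit false
set_option linter.all false

open MeasureTheory Filter Topology Set

namespace Pool.Agent.Zk32

/-- Wiener's covering lemma -/
theorem tu_cover {C : ℝ} {F : ℕ → Finset (ℕ × ℕ)} (hT : Temp C F) (hne : ∀ n, (F n).Nonempty)
    (n : ℕ × ℕ → ℕ) : ∀ (m : ℕ) (E : Finset (ℕ × ℕ)), E.card = m →
    ∃ E' ⊆ E, (∀ x ∈ E', ∀ y ∈ E', x ≠ y →
      Disjoint ((F (n x)).image (fun c => x + c)) ((F (n y)).image (fun c => y + c))) ∧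
      (E.card : ℝ) ≤ C * ∑ x ∈ E', ((F (n x)).card : ℝ) := by
  classical
  intro m
  induction m using Nat.strong_induction_on with
  | _ m ih =>
    intro E hE
    rcases E.eq_empty_or_nonempty with rfl | hEn
    · exact ⟨∅, Finset.Subset.refl _, by simp, by simp⟩
    obtain ⟨x, hxE, hmax⟩ := E.exists_max_image n hEn
    set R := E.filter fun y => ¬ Disjoint ((F (n x)).image (fun c => x + c))
      ((F (n y)).image (fun c => y + c)) with hR
    have hxR : x ∈ R := by
      rw [hR, Finset.mem_filter]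
      refine ⟨hxE, ?_⟩
      rw [disjoint_self]
      intro h
      obtain ⟨c, hc⟩ := hne (n x)
      have : x + c ∈ (F (n x)).image (fun c => x + c) := Finset.mem_image_of_mem _ hc
      rw [h] at this
      exact absurd this (Finset.notMem_empty _)
    have hcard : (R.card : ℝ) ≤ C * (F (n x)).card := by
      obtain ⟨G, hG, hG2⟩ := hT (n x)
      refine le_trans ?_ hG
      have h1 : R.card ≤ G.card := by
        apply Finset.card_le_card_of_injOn (fun y : ℕ × ℕ => ((y.1 : ℤ) - x.1, (y.2 : ℤ) - x.2))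
        · intro y hy
          have hy' := (Finset.mem_filter.1 hy)
          obtain ⟨hyE, hy2⟩ := hy'
          rw [Finset.not_disjoint_iff] at hy2
          obtain ⟨w, hw1, hw2⟩ := hy2
          rw [Finset.mem_image] at hw1 hw2
          obtain ⟨a, ha, rfl⟩ := hw1
          obtain ⟨b, hb, hab⟩ := hw2
          have h2 := hG2 (n y) (hmax y hyE) a ha b hb
          have h3 : (y.1 : ℤ) - x.1 = (a.1 : ℤ) - b.1 := by
            have := congrArg Prod.fst hab
            simp only [Prod.fst_add] at this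
            omega
          have h4 : (y.2 : ℤ) - x.2 = (a.2 : ℤ) - b.2 := by
            have := congrArg Prod.snd hab
            simp only [Prod.snd_add] at this
            omega
          show ((y.1 : ℤ) - x.1, (y.2 : ℤ) - x.2) ∈ (G : Set (ℤ × ℤ))
          rw [h3, h4]
          exact h2
        · intro y _ z _ h
          have h1 := congrArg Prod.fst h
          have h2 := congrArg Prod.snd h
          simp only at h1 h2
          refine Prod.ext ?_ ?_ <;> omega
      exact_mod_cast h1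
    have hRE : R ⊆ E := Finset.filter_subset _ _
    have hlt : (E \ R).card < m := by
      rw [← hE]
      apply Finset.card_lt_card
      refine ⟨Finset.sdiff_subset, fun h => ?_⟩
      exact (Finset.mem_sdiff.1 (h hxE)).2 hxR
    obtain ⟨E'', hsub, hdis, hc⟩ := ih _ hlt (E \ R) rfl
    have hx'' : x ∉ E'' := fun h => (Finset.mem_sdiff.1 (hsub h)).2 hxR
    have hdx : ∀ y ∈ E'', Disjoint ((F (n x)).image (fun c => x + c))
        ((F (n y)).image (fun c => y + c)) := by
      intro y hy
      by_contra h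
      exact (Finset.mem_sdiff.1 (hsub hy)).2
        (Finset.mem_filter.2 ⟨(Finset.mem_sdiff.1 (hsub hy)).1, h⟩)
    refine ⟨insert x E'', ?_, ?_, ?_⟩
    · intro y hy
      rcases Finset.mem_insert.1 hy with rfl | hy
      · exact hxE
      · exact (Finset.mem_sdiff.1 (hsub hy)).1
    · intro y hy z hz hyz
      rcases Finset.mem_insert.1 hy with hy1 | hy1
      · rcases Finset.mem_insert.1 hz with hz1 | hz1
        · exact absurd (hy1.trans hz1.symm) hyz
        · rw [hy1]
          exact hdx z hz1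
      · rcases Finset.mem_insert.1 hz with hz1 | hz1
        · rw [hz1]
          exact (hdx y hy1).symm
        · exact hdis y hy1 z hz1 hyz
    · rw [Finset.sum_insert hx'', mul_add]
      have h1 : (E.card : ℝ) = R.card + (E \ R).card := by
        have := Finset.card_sdiff_add_card_eq_card hRE
        have h2 : E.card = R.card + (E \ R).card := by omega
        exact_mod_cast h2
      rw [h1]
      exact add_le_add hcard hc

theorem tu_smul_add' (p q : ℕ) (b c : ℕ × ℕ) (x : UnitAddCircle) :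
    (p ^ (b + c).1 * q ^ (b + c).2) • x = (p ^ c.1 * q ^ c.2) • ((p ^ b.1 * q ^ b.2) • x) := by
  rw [← mul_smul]
  congr 1
  simp only [Prod.fst_add, Prod.snd_add, pow_add]
  ring

theorem tu_mp_pow {p : ℕ} {ν : Measure UnitAddCircle}
    (hnp : MeasurePreserving (fun x : UnitAddCircle => p • x) ν ν) (i : ℕ) :
    MeasurePreserving (fun x : UnitAddCircle => (p ^ i) • x) ν ν := by
  induction i with
  | zero =>
    have : (fun x : UnitAddCircle => (p ^ 0) • x) = id := by
      funext x
      simp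
    rw [this]
    exact MeasurePreserving.id ν
  | succ i ih =>
    have : (fun x : UnitAddCircle => (p ^ (i + 1)) • x) =
        (fun x : UnitAddCircle => p • x) ∘ (fun x : UnitAddCircle => (p ^ i) • x) := by
      funext x
      simp only [Function.comp_apply]
      rw [← mul_smul]
      congr 1
      ring
    rw [this]
    exact hnp.comp ih

theorem tu_mp_both {p q : ℕ} {ν : Measure UnitAddCircle}
    (hnp : MeasurePreserving (fun x : UnitAddCircle => p • x) ν ν)
    (hnq : MeasurePreserving (fun x : UnitAddCircle => q • x) ν ν) (c : ℕ × ℕ) :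
    MeasurePreserving (fun x : UnitAddCircle => (p ^ c.1 * q ^ c.2) • x) ν ν := by
  have : (fun x : UnitAddCircle => (p ^ c.1 * q ^ c.2) • x) =
      (fun x : UnitAddCircle => (p ^ c.1) • x) ∘ (fun x : UnitAddCircle => (q ^ c.2) • x) := by
    funext x
    simp only [Function.comp_apply]
    rw [← mul_smul]
  rw [this]
  exact (tu_mp_pow hnp _).comp (tu_mp_pow hnq _)

theorem tu_meas_ave {p q : ℕ} {ν : Measure UnitAddCircle}
    (hnp : MeasurePreserving (fun x : UnitAddCircle => p • x) ν ν)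
    (hnq : MeasurePreserving (fun x : UnitAddCircle => q • x) ν ν) (F : Finset (ℕ × ℕ))
    {f : UnitAddCircle → ℝ} (hf : Measurable f) : Measurable (ave p q F f) := by
  unfold ave
  apply Measurable.const_mul
  apply Finset.measurable_sum
  intro c _
  exact hf.comp (tu_mp_both hnp hnq c).measurable

/-- the tu_pointwise inequality -/
theorem tu_pointwise {p q : ℕ} {F : ℕ → Finset (ℕ × ℕ)} (hne : ∀ n, (F n).Nonempty) {C : ℝ}
    (hC : 0 < C) (hT : Temp C F) {f : UnitAddCircle → ℝ} (hf0 : ∀ x, 0 ≤ f x) {l : ℝ}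
    (hl : 0 < l) (K D : ℕ) (hD : ∀ n ≤ K, ∀ c ∈ F n, c.1 < D ∧ c.2 < D) (M : ℕ)
    (x : UnitAddCircle) [DecidablePred fun b : ℕ × ℕ =>
      ∃ n ≤ K, l < ave p q (F n) f ((p ^ b.1 * q ^ b.2) • x)] :
    l * (((Finset.range M ×ˢ Finset.range M).filter fun b =>
      ∃ n ≤ K, l < ave p q (F n) f ((p ^ b.1 * q ^ b.2) • x)).card : ℝ) ≤
      C * ∑ c ∈ Finset.range (M + D) ×ˢ Finset.range (M + D), f ((p ^ c.1 * q ^ c.2) • x) := by
  classical
  set E := (Finset.range M ×ˢ Finset.range M).filter fun b =>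
      ∃ n ≤ K, l < ave p q (F n) f ((p ^ b.1 * q ^ b.2) • x) with hE
  have hch : ∀ b : ℕ × ℕ, ∃ n, b ∈ E → n ≤ K ∧ l < ave p q (F n) f ((p ^ b.1 * q ^ b.2) • x) := by
    intro b
    by_cases hb : b ∈ E
    · obtain ⟨n, h1, h2⟩ := (Finset.mem_filter.1 hb).2
      exact ⟨n, fun _ => ⟨h1, h2⟩⟩
    · exact ⟨0, fun h => absurd h hb⟩
  choose n hn using hch
  obtain ⟨E', hsub, hdis, hcard⟩ := tu_cover hT hne n _ E rfl
  have h1 : ∀ b ∈ E', l * ((F (n b)).card : ℝ) ≤
      ∑ c ∈ (F (n b)).image (fun c => b + c), f ((p ^ c.1 * q ^ c.2) • x) := by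
    intro b hb
    obtain ⟨h2, h3⟩ := hn b (hsub hb)
    rw [Finset.sum_image (fun a _ c _ h => add_left_cancel h)]
    unfold ave at h3
    have hpos : (0 : ℝ) < (F (n b)).card := by
      exact_mod_cast Finset.card_pos.2 (hne _)
    rw [inv_mul_eq_div, lt_div_iff₀ hpos] at h3
    refine h3.le.trans (le_of_eq ?_)
    apply Finset.sum_congr rfl
    intro c _
    rw [tu_smul_add']
  have h2 : ∑ b ∈ E', ∑ c ∈ (F (n b)).image (fun c => b + c), f ((p ^ c.1 * q ^ c.2) • x) ≤
      ∑ c ∈ Finset.range (M + D) ×ˢ Finset.range (M + D), f ((p ^ c.1 * q ^ c.2) • x) := by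
    rw [← Finset.sum_biUnion (fun a ha b hb hab => hdis a ha b hb hab)]
    apply Finset.sum_le_sum_of_subset_of_nonneg
    · intro w hw
      rw [Finset.mem_biUnion] at hw
      obtain ⟨b, hb, hw⟩ := hw
      rw [Finset.mem_image] at hw
      obtain ⟨c, hc, rfl⟩ := hw
      have h3 := (Finset.mem_filter.1 (hsub hb)).1
      rw [Finset.mem_product, Finset.mem_range, Finset.mem_range] at h3 ⊢
      have h4 := hD _ (hn b (hsub hb)).1 c hc
      simp only [Prod.fst_add, Prod.snd_add]
      omega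
    · intro c _ _
      exact hf0 _
  calc l * (E.card : ℝ) ≤ l * (C * ∑ b ∈ E', ((F (n b)).card : ℝ)) :=
        mul_le_mul_of_nonneg_left hcard hl.le
    _ = C * ∑ b ∈ E', l * ((F (n b)).card : ℝ) := by
        rw [Finset.mul_sum, Finset.mul_sum, Finset.mul_sum]
        apply Finset.sum_congr rfl
        intro b _
        ring
    _ ≤ C * ∑ c ∈ Finset.range (M + D) ×ˢ Finset.range (M + D), f ((p ^ c.1 * q ^ c.2) • x) :=
        mul_le_mul_of_nonneg_left ((Finset.sum_le_sum h1).trans h2) hC.le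

theorem tu_maximal_K {p q : ℕ} {ν : Measure UnitAddCircle} [IsProbabilityMeasure ν]
    (hnp : MeasurePreserving (fun x : UnitAddCircle => p • x) ν ν)
    (hnq : MeasurePreserving (fun x : UnitAddCircle => q • x) ν ν)
    {F : ℕ → Finset (ℕ × ℕ)} (hne : ∀ n, (F n).Nonempty) {C : ℝ} (hC : 0 < C) (hT : Temp C F)
    {f : UnitAddCircle → ℝ} (hf : Measurable f) (hf0 : ∀ x, 0 ≤ f x) (hfi : Integrable f ν)
    {l : ℝ} (hl : 0 < l) (K : ℕ) :
    ν.real {x | ∃ n ≤ K, l < ave p q (F n) f x} ≤ C / l * ∫ x, f x ∂ν := by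
  classical
  set Bad : Set UnitAddCircle := {x | ∃ n ≤ K, l < ave p q (F n) f x} with hBad
  have hBm : MeasurableSet Bad := by
    have : Bad = ⋃ n ∈ Finset.range (K + 1), {x | l < ave p q (F n) f x} := by
      ext x
      simp only [hBad, Set.mem_setOf_eq, Set.mem_iUnion, Finset.mem_range, exists_prop,
        Nat.lt_succ_iff]
    rw [this]
    apply Finset.measurableSet_biUnion
    intro n _
    exact measurableSet_lt measurable_const (tu_meas_ave hnp hnq _ hf)
  obtain ⟨D, hD⟩ : ∃ D, ∀ n ≤ K, ∀ c ∈ F n, c.1 < D ∧ c.2 < D := by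
    refine ⟨(∑ n ∈ Finset.range (K + 1), ∑ c ∈ F n, (c.1 + c.2)) + 1, fun n hn c hc => ?_⟩
    have h1 : c.1 + c.2 ≤ ∑ c ∈ F n, (c.1 + c.2) :=
      Finset.single_le_sum (f := fun c : ℕ × ℕ => c.1 + c.2) (fun _ _ => Nat.zero_le _) hc
    have h2 : ∑ c ∈ F n, (c.1 + c.2) ≤ ∑ n ∈ Finset.range (K + 1), ∑ c ∈ F n, (c.1 + c.2) :=
      Finset.single_le_sum (f := fun n => ∑ c ∈ F n, (c.1 + c.2)) (fun _ _ => Nat.zero_le _)
        (Finset.mem_range.2 (Nat.lt_succ_iff.2 hn))
    omega
  set I := ∫ x, f x ∂ν with hI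
  -- the inequality for `M`
  have key : ∀ M : ℕ, l * ((M : ℝ) ^ 2 * ν.real Bad) ≤ C * (((M : ℝ) + D) ^ 2 * I) := by
    intro M
    have hfc : ∀ c : ℕ × ℕ, Integrable (fun x => f ((p ^ c.1 * q ^ c.2) • x)) ν := fun c =>
      ((tu_mp_both hnp hnq c).integrable_comp hf.aestronglyMeasurable).2 hfi
    have hic : ∀ c : ℕ × ℕ, ∫ x, f ((p ^ c.1 * q ^ c.2) • x) ∂ν = I := by
      intro c
      have h1 := (tu_mp_both hnp hnq c)
      have h2 := integral_map (μ := ν) h1.measurable.aemeasurable
        (f := f) (by rw [h1.map_eq]; exact hf.aestronglyMeasurable)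
      rw [h1.map_eq] at h2
      exact h2.symm
    have hbi : ∀ b : ℕ × ℕ, Integrable (fun x => Bad.indicator (fun _ => (1 : ℝ))
        ((p ^ b.1 * q ^ b.2) • x)) ν := fun b =>
      ((tu_mp_both hnp hnq b).integrable_comp
        (measurable_const.indicator hBm).aestronglyMeasurable).2
        ((integrable_const (1 : ℝ)).indicator hBm)
    have hbc : ∀ b : ℕ × ℕ, ∫ x, Bad.indicator (fun _ => (1 : ℝ)) ((p ^ b.1 * q ^ b.2) • x) ∂ν =
        ν.real Bad := by
      intro b
      have h1 := (tu_mp_both hnp hnq b)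
      have h2 := integral_map (μ := ν) h1.measurable.aemeasurable
        (f := Bad.indicator (fun _ => (1 : ℝ)))
        (measurable_const.indicator hBm).aestronglyMeasurable
      rw [h1.map_eq] at h2
      rw [← h2, integral_indicator hBm]
      simp
    have hpt : ∀ x, l * ∑ b ∈ Finset.range M ×ˢ Finset.range M,
        Bad.indicator (fun _ => (1 : ℝ)) ((p ^ b.1 * q ^ b.2) • x) ≤
        C * ∑ c ∈ Finset.range (M + D) ×ˢ Finset.range (M + D), f ((p ^ c.1 * q ^ c.2) • x) := by
      intro x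
      have h1 := tu_pointwise (p := p) (q := q) hne hC hT hf0 hl K D hD M x
      refine le_trans (le_of_eq ?_) h1
      congr 1
      rw [Finset.card_filter, Nat.cast_sum]
      apply Finset.sum_congr rfl
      intro b _
      by_cases hb : (p ^ b.1 * q ^ b.2) • x ∈ Bad
      · have hb' : ∃ n ≤ K, l < ave p q (F n) f ((p ^ b.1 * q ^ b.2) • x) := hb
        rw [Set.indicator_of_mem hb, if_pos hb']
        simp
      · have hb' : ¬ ∃ n ≤ K, l < ave p q (F n) f ((p ^ b.1 * q ^ b.2) • x) := hb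
        rw [Set.indicator_of_notMem hb, if_neg hb']
        simp
    have hint := integral_mono (μ := ν)
      ((integrable_finsetSum _ fun b _ => hbi b).const_mul l)
      ((integrable_finsetSum _ fun c _ => hfc c).const_mul C) hpt
    rw [integral_const_mul, integral_const_mul, integral_finsetSum _ (fun b _ => hbi b),
      integral_finsetSum _ (fun c _ => hfc c)] at hint
    simp only [hbc, hic, Finset.sum_const, Finset.card_product, Finset.card_range,
      nsmul_eq_mul] at hint
    push_cast at hint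
    rw [pow_two, pow_two]
    exact hint
  have hlim : Tendsto (fun M : ℕ => C * ((1 + (D : ℝ) / M) ^ 2 * I)) atTop (𝓝 (C * ((1 + 0) ^ 2 * I))) := by
    apply Tendsto.const_mul
    apply Tendsto.mul_const
    apply Tendsto.pow
    exact (tendsto_const_div_atTop_nhds_zero_nat (D : ℝ)).const_add 1
  have hfin : l * ν.real Bad ≤ C * ((1 + 0) ^ 2 * I) := by
    refine ge_of_tendsto hlim ?_
    filter_upwards [eventually_gt_atTop 0] with M hM
    have hMp : (0 : ℝ) < M := by exact_mod_cast hM
    have h1 := key M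
    have h2 : C * ((1 + (D : ℝ) / M) ^ 2 * I) = (C * (((M : ℝ) + D) ^ 2 * I)) / (M : ℝ) ^ 2 := by
      field_simp
    rw [h2, le_div_iff₀ (by positivity)]
    calc l * ν.real Bad * (M : ℝ) ^ 2 = l * ((M : ℝ) ^ 2 * ν.real Bad) := by ring
      _ ≤ _ := h1
  rw [div_mul_eq_mul_div, le_div_iff₀ hl]
  calc ν.real Bad * l = l * ν.real Bad := mul_comm _ _
    _ ≤ _ := hfin
    _ = C * I := by ring

/-- the maximal inequality -/
theorem maximal {p q : ℕ} {ν : Measure UnitAddCircle} [IsProbabilityMeasure ν]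
    (hnp : MeasurePreserving (fun x : UnitAddCircle => p • x) ν ν)
    (hnq : MeasurePreserving (fun x : UnitAddCircle => q • x) ν ν)
    {F : ℕ → Finset (ℕ × ℕ)} (hne : ∀ n, (F n).Nonempty) {C : ℝ} (hC : 0 < C) (hT : Temp C F)
    {f : UnitAddCircle → ℝ} (hf : Measurable f) (hf0 : ∀ x, 0 ≤ f x) (hfi : Integrable f ν)
    {l : ℝ} (hl : 0 < l) :
    ν.real {x | ∃ n, l < ave p q (F n) f x} ≤ C / l * ∫ x, f x ∂ν := by
  have h1 : {x | ∃ n, l < ave p q (F n) f x} = ⋃ K : ℕ, {x | ∃ n ≤ K, l < ave p q (F n) f x} := by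
    ext x
    simp only [Set.mem_setOf_eq, Set.mem_iUnion]
    constructor
    · rintro ⟨n, hn⟩
      exact ⟨n, n, le_rfl, hn⟩
    · rintro ⟨K, n, _, hn⟩
      exact ⟨n, hn⟩
  have hmono : Monotone fun K : ℕ => {x : UnitAddCircle | ∃ n ≤ K, l < ave p q (F n) f x} := by
    intro K K' hK x
    rintro ⟨n, hn, h⟩
    exact ⟨n, hn.trans hK, h⟩
  have h2 := tendsto_measure_iUnion_atTop (μ := ν) hmono
  have h3 : Tendsto (fun K : ℕ => ν.real {x : UnitAddCircle | ∃ n ≤ K, l < ave p q (F n) f x}) atTop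
      (𝓝 (ν.real (⋃ K : ℕ, {x : UnitAddCircle | ∃ n ≤ K, l < ave p q (F n) f x}))) := by
    exact (ENNReal.tendsto_toReal (measure_ne_top _ _)).comp h2
  rw [h1]
  exact le_of_tendsto' h3 fun K => tu_maximal_K hnp hnq hne hC hT hf hf0 hfi hl K

end Pool.Agent.Zk32
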