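import Mathlib
import Pool.Agent.Zk32.Gp7
import Pool.Agent.Zk26.FS

/-!
Independent noise: everything except a rigid part makes the sum singular
-/

set_option autoImplicit false
set_option linter.unusedSectionVars false

open MeasureTheory Filter Topology Set
open scoped ENNReal NNReal BoundedContinuousFunction

namespace Pool.Agent.Zk32

lemma cond_rigid {p q : ℕ} {ω : Measure UnitAddCircle} [IsProbabilityMeasure ω]
    {B : Set UnitAddCircle} (hB : MeasurableSet B) (h0 : ω B ≠ 0) :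
    Rigid p q (ProbabilityTheory.cond ω B) ↔ RSet p q ω B := by
  have hc : IsProbabilityMeasure (ProbabilityTheory.cond ω B) :=
    ProbabilityTheory.cond_isProbabilityMeasure h0
  have ht : ω B ≠ ∞ := measure_ne_top _ _
  rw [rigid_iff]
  constructor
  · intro h
    refine ⟨hB, h.of_le h0 ht (le_of_eq ?_)⟩
    rw [ProbabilityTheory.cond, smul_smul, ENNReal.mul_inv_cancel h0 ht, one_smul]
  · rintro ⟨-, h⟩
    exact h.of_le (ENNReal.inv_ne_zero.mpr ht) (ENNReal.inv_ne_top.mpr h0) le_rfl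

/-- **The largest rigid part**, in terms of conditional laws -/
theorem exists_rigid' (p q : ℕ) (ω : Measure UnitAddCircle) [IsProbabilityMeasure ω] :
    ∃ R : Set UnitAddCircle, MeasurableSet R ∧ ∀ B : Set UnitAddCircle, MeasurableSet B →
      ω B ≠ 0 → (Rigid p q (ProbabilityTheory.cond ω B) ↔ ω (B \ R) = 0) := by
  obtain ⟨R, hR, hmax⟩ := exists_rigid p q ω
  refine ⟨R, hR.1, fun B hB h0 => ?_⟩
  rw [cond_rigid hB h0]
  constructor
  · exact hmax B
  · intro h
    have h1 : RSet p q ω (B ∩ R) := hR.subset (hB.inter hR.1) Set.inter_subset_right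
    have h2 : ω.restrict B = ω.restrict (B ∩ R) := by
      refine Measure.restrict_congr_set ?_
      have h3 : (B \ R : Set UnitAddCircle) =ᵐ[ω] (∅ : Set UnitAddCircle) := ae_eq_empty.mpr h
      have h4 : ((B ∩ R) ∪ (B \ R) : Set UnitAddCircle) =ᵐ[ω] ((B ∩ R) ∪ ∅ : Set UnitAddCircle) :=
        (ae_eq_refl _).union h3
      rw [Set.inter_union_sdiff, Set.union_empty] at h4
      exact h4
    exact ⟨hB, by rw [h2]; exact h1.2⟩

/-- **No mass at one scale on the rigid part.** -/
theorem rigid_scale {p q : ℕ} (hp : 2 ≤ p) (hq : 2 ≤ q)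
    (hirr : Irrational (Real.log p / Real.log q)) (ω : Measure UnitAddCircle)
    [IsProbabilityMeasure ω] {R : Set UnitAddCircle} (hR : MeasurableSet R)
    (h : ω R ≠ 0 → Rigid p q (ProbabilityTheory.cond ω R)) {C ε : ℝ} (hC : 1 ≤ C) (hε : 0 < ε) :
    ∃ δ : ℝ, 0 < δ ∧ ∀ (a b : ℕ) (d : ℝ), 0 < d → d < δ →
      ω.real {w | w ∈ R ∧ d ≤ ‖(p ^ a * q ^ b) • w‖ ∧ ‖(p ^ a * q ^ b) • w‖ ≤ C * d} ≤ ε := by
  by_contra hcon
  push Not at hcon
  have h1 : ∀ k : ℕ, ∃ (a b : ℕ) (d : ℝ), 0 < d ∧ d < 1 / ((k : ℝ) + 1) ∧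
      ε < ω.real {w | w ∈ R ∧ d ≤ ‖(p ^ a * q ^ b) • w‖ ∧ ‖(p ^ a * q ^ b) • w‖ ≤ C * d} :=
    fun k => hcon _ (by positivity)
  choose a b d hd0 hd1 hm using h1
  have hR0 : ω R ≠ 0 := by
    intro h0
    have h2 := hm 0
    have h3 : ω.real {w | w ∈ R ∧ d 0 ≤ ‖(p ^ a 0 * q ^ b 0) • w‖ ∧
        ‖(p ^ a 0 * q ^ b 0) • w‖ ≤ C * d 0} = 0 := by
      rw [Measure.real, measure_mono_null (fun w hw => hw.1) h0]; rfl
    rw [h3] at h2
    exact absurd h2 (not_lt.mpr hε.le)
  have hcp : IsProbabilityMeasure (ProbabilityTheory.cond ω R) :=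
    ProbabilityTheory.cond_isProbabilityMeasure hR0
  have hd : Tendsto d atTop (𝓝 0) :=
    squeeze_zero (fun k => (hd0 k).le) (fun k => (hd1 k).le)
      tendsto_one_div_add_atTop_nhds_zero_nat
  have hnr : NonRigid p q (ProbabilityTheory.cond ω R) := by
    refine bump_nonrigid hp hq hirr _ hε hC hd0 hd (a := a) (a' := b) fun k => ?_
    set S : Set UnitAddCircle := {w | d k ≤ ‖(p ^ a k * q ^ b k) • w‖ ∧
      ‖(p ^ a k * q ^ b k) • w‖ ≤ C * d k} with hS
    have h2 : ε < ω.real (R ∩ S) := hm k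
    have h3 : (ProbabilityTheory.cond ω R).real S = (ω.real R)⁻¹ * ω.real (R ∩ S) := by
      rw [Measure.real, ProbabilityTheory.cond_apply hR, ENNReal.toReal_mul, ENNReal.toReal_inv]
      rfl
    rw [h3]
    have h4 : ω.real R ≤ 1 := by
      have := measureReal_mono (μ := ω) (Set.subset_univ R)
      rwa [probReal_univ] at this
    have h5 : 0 < ω.real R := ENNReal.toReal_pos hR0 (measure_ne_top _ _)
    have h6 : 1 ≤ (ω.real R)⁻¹ := (one_le_inv₀ h5).mpr h4
    have h7 : 0 ≤ ω.real (R ∩ S) := measureReal_nonneg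
    nlinarith
  exact nonRigid_iff.mp hnr (h hR0)

section
variable {p q : ℕ} {μ : Measure UnitAddCircle} [IsProbabilityMeasure μ]

/-- **Outside the rigid part the sum is singular.** -/
theorem noise_outside (hp : 2 ≤ p)
    (hμp : MeasurePreserving (fun x : UnitAddCircle => p • x) μ μ)
    (hμq : MeasurePreserving (fun x : UnitAddCircle => q • x) μ μ)
    (hJ : ∀ E : Set UnitAddCircle, MeasurableSet E →
      (fun x : UnitAddCircle => p • x) ⁻¹' E = E → (fun x : UnitAddCircle => q • x) ⁻¹' E = E →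
        μ E = 0 ∨ μ E = 1)
    (hvol : μ ≠ volume)
    (ω : Measure UnitAddCircle) [IsProbabilityMeasure ω] {R : Set UnitAddCircle}
    (hR : MeasurableSet R) (hmax : ∀ B : Set UnitAddCircle, MeasurableSet B → ω B ≠ 0 →
      Rigid p q (ProbabilityTheory.cond ω B) → ω (B \ R) = 0) :
    ∃ A : Set UnitAddCircle, MeasurableSet A ∧ μ A = 1 ∧ ∀ c : ℤ, c ≠ 0 →
      (μ.prod ω) {z : UnitAddCircle × UnitAddCircle | z.2 ∉ R ∧ c • z.1 + z.2 ∈ A} = 0 := by
  by_cases h0 : ω Rᶜ = 0
  · refine ⟨univ, MeasurableSet.univ, measure_univ, fun c _ => ?_⟩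
    have h1 : (μ.prod ω) (univ ×ˢ Rᶜ) = 0 := by rw [Measure.prod_prod, h0, mul_zero]
    refine measure_mono_null (t := univ ×ˢ Rᶜ) (fun z hz => ?_) h1
    exact ⟨trivial, hz.1⟩
  · have hcp : IsProbabilityMeasure (ProbabilityTheory.cond ω Rᶜ) :=
      ProbabilityTheory.cond_isProbabilityMeasure h0
    have hω : ∀ D : Set UnitAddCircle, MeasurableSet D → ProbabilityTheory.cond ω Rᶜ D ≠ 0 →
        NonRigid p q (ProbabilityTheory.cond (ProbabilityTheory.cond ω Rᶜ) D) := by
      intro D hD hD0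
      have h1 : ω (Rᶜ ∩ D) ≠ 0 := by
        intro h2
        apply hD0
        rw [ProbabilityTheory.cond_apply hR.compl, h2, mul_zero]
      rw [ProbabilityTheory.cond_cond_eq_cond_inter hR.compl hD]
      have hcp' : IsProbabilityMeasure (ProbabilityTheory.cond ω (Rᶜ ∩ D)) :=
        ProbabilityTheory.cond_isProbabilityMeasure h1
      rw [nonRigid_iff]
      intro h2
      have h3 := hmax (Rᶜ ∩ D) (hR.compl.inter hD) h1 h2
      apply h1
      have h4 : (Rᶜ ∩ D) \ R = Rᶜ ∩ D := by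
        ext x
        constructor
        · exact fun h => h.1
        · exact fun h => ⟨h, h.1⟩
      rwa [h4] at h3
    have hall : ∀ c : ℤ, c ≠ 0 → ∃ A : Set UnitAddCircle, MeasurableSet A ∧ μ Aᶜ = 0 ∧
        (μ.prod (ProbabilityTheory.cond ω Rᶜ)) {z : UnitAddCircle × UnitAddCircle |
          c • z.1 + z.2 ∈ A} = 0 := by
      intro c hc
      obtain ⟨s, hs, hs1, hs2⟩ := noise_rigid_u hp hμp hμq hJ hvol
        (fun F => Pool.Agent.Zk26.FS.gen_meas p q F μ)
        (fun F hF => Pool.Agent.Zk26.FS.folner_subseq hμp hμq hJ hF)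
        (ProbabilityTheory.cond ω Rᶜ) hω hc
      refine ⟨sᶜ, hs.compl, by rwa [compl_compl], ?_⟩
      rwa [Measure.map_apply (lc_meas c) hs.compl] at hs2
    choose! A hA hA1 hA2 using hall
    refine ⟨⋂ (c : ℤ) (_ : c ≠ 0), A c, ?_, ?_, fun c hc => ?_⟩
    · exact MeasurableSet.iInter fun c => MeasurableSet.iInter fun hc => hA c hc
    · refine (prob_compl_eq_zero_iff ?_).mp ?_
      · exact MeasurableSet.iInter fun c => MeasurableSet.iInter fun hc => hA c hc
      · simp only [Set.compl_iInter]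
        exact measure_iUnion_null fun c => measure_iUnion_null fun hc => hA1 c hc
    · set A₀ := ⋂ (c : ℤ) (_ : c ≠ 0), A c with hA₀
      have hsub : A₀ ⊆ A c := Set.iInter₂_subset c hc
      have h1 := hA2 c hc
      have hm : MeasurableSet {z : UnitAddCircle × UnitAddCircle | c • z.1 + z.2 ∈ A c} :=
        (lc_meas c) (hA c hc)
      rw [Measure.prod_apply_symm hm, lintegral_eq_zero_iff
        (measurable_measure_prodMk_right hm)] at h1
      have h2 : ∀ᵐ w ∂(ω.restrict Rᶜ), μ ((fun x => (x, w)) ⁻¹'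
          {z : UnitAddCircle × UnitAddCircle | c • z.1 + z.2 ∈ A c}) = 0 := by
        rw [ProbabilityTheory.cond] at h1
        have hne : (ω Rᶜ)⁻¹ ≠ 0 := ENNReal.inv_ne_zero.mpr (measure_ne_top ω Rᶜ)
        rw [Filter.EventuallyEq, Measure.ae_ennreal_smul_measure_eq hne] at h1
        exact h1
      rw [ae_restrict_iff' hR.compl] at h2
      have hm2 : MeasurableSet {z : UnitAddCircle × UnitAddCircle | z.2 ∉ R ∧
          c • z.1 + z.2 ∈ A c} := (measurable_snd hR.compl).inter hm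
      have h3 : (μ.prod ω) {z : UnitAddCircle × UnitAddCircle | z.2 ∉ R ∧
          c • z.1 + z.2 ∈ A c} = 0 := by
        rw [Measure.prod_apply_symm hm2, lintegral_eq_zero_iff
          (measurable_measure_prodMk_right hm2)]
        filter_upwards [h2] with w hw
        by_cases hwR : w ∈ R
        · have : ((fun x => (x, w)) ⁻¹' {z : UnitAddCircle × UnitAddCircle | z.2 ∉ R ∧
              c • z.1 + z.2 ∈ A c}) = ∅ := by
            ext x
            simp [hwR]
          change μ ((fun x => (x, w)) ⁻¹' {z : UnitAddCircle × UnitAddCircle | z.2 ∉ R ∧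
              c • z.1 + z.2 ∈ A c}) = 0
          rw [this, measure_empty]
        · exact measure_mono_null (fun x hx => hx.2) (hw hwR)
      refine measure_mono_null (fun z hz => ?_) h3
      exact ⟨hz.1, hsub hz.2⟩

end

end Pool.Agent.Zk32
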