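import Mathlib
import Pool.Agent.Zk32.Gp8
import Pool.Agent.Zk78.PW
import Pool.Agent.R477.XQ.Furst

/-!
Rectangles: one explicit set of full measure
-/

set_option autoImplicit false
set_option linter.unusedSectionVars false

open MeasureTheory Filter Topology Set
open scoped ENNReal NNReal BoundedContinuousFunction

namespace Pool.Agent.Zk32

/-- the points whose averages over rectangles of exponents converge to `μ` when both sides tend to
infinity, in any manner -/
def RGen (p q : ℕ) (μ : Measure UnitAddCircle) : Set UnitAddCircle :=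
  {x | ∀ g : C(UnitAddCircle, ℝ), Tendsto (fun n : ℕ × ℕ =>
    ave p q (Finset.range n.1 ×ˢ Finset.range n.2) g x) atTop (𝓝 (∫ y, g y ∂μ))}

/-- a limit of the images of `ρ` over rectangles with sides tending to infinity -/
def RLim (p q : ℕ) (ρ κ : Measure UnitAddCircle) : Prop :=
  ∃ L M : ℕ → ℕ, Tendsto L atTop atTop ∧ Tendsto M atTop atTop ∧
    Lim p q (fun k => Finset.range (L k) ×ˢ Finset.range (M k)) ρ κ

lemma folner_rect {L M : ℕ → ℕ} (hL : Tendsto L atTop atTop) (hM : Tendsto M atTop atTop)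
    (hL0 : ∀ k, 0 < L k) (hM0 : ∀ k, 0 < M k) :
    Folner (fun k => Finset.range (L k) ×ˢ Finset.range (M k)) := by
  classical
  have hLr : Tendsto (fun k => (1 : ℝ) / L k) atTop (𝓝 0) := by
    have := tendsto_one_div_atTop_nhds_zero_nat (𝕜 := ℝ)
    exact this.comp hL
  have hMr : Tendsto (fun k => (1 : ℝ) / M k) atTop (𝓝 0) := by
    have := tendsto_one_div_atTop_nhds_zero_nat (𝕜 := ℝ)
    exact this.comp hM
  refine ⟨fun k => ?_, ?_, ?_⟩
  · rw [Finset.nonempty_product, Finset.nonempty_range_iff, Finset.nonempty_range_iff]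
    exact ⟨(hL0 k).ne', (hM0 k).ne'⟩
  · refine squeeze_zero (fun k => by positivity) (fun k => ?_) hLr
    have hl : (0 : ℝ) < L k := by exact_mod_cast hL0 k
    have hm : (0 : ℝ) < M k := by exact_mod_cast hM0 k
    have h1 : (((Finset.range (L k) ×ˢ Finset.range (M k)).filter fun n =>
        (n.1 + 1, n.2) ∉ Finset.range (L k) ×ˢ Finset.range (M k)).card : ℝ) ≤ M k := by
      have h2 : ((Finset.range (L k) ×ˢ Finset.range (M k)).filter fun n =>
          (n.1 + 1, n.2) ∉ Finset.range (L k) ×ˢ Finset.range (M k)) ⊆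
          {L k - 1} ×ˢ Finset.range (M k) := by
        intro n hn
        simp only [Finset.mem_filter, Finset.mem_product, Finset.mem_range, not_and, not_lt,
          Finset.mem_singleton] at hn ⊢
        omega
      have h3 := Finset.card_le_card h2
      rw [Finset.card_product, Finset.card_singleton, one_mul, Finset.card_range] at h3
      exact_mod_cast h3
    rw [Finset.card_product, Finset.card_range, Finset.card_range, Nat.cast_mul,
      div_le_div_iff₀ (by positivity) hl]
    nlinarith
  · refine squeeze_zero (fun k => by positivity) (fun k => ?_) hMr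
    have hl : (0 : ℝ) < L k := by exact_mod_cast hL0 k
    have hm : (0 : ℝ) < M k := by exact_mod_cast hM0 k
    have h1 : (((Finset.range (L k) ×ˢ Finset.range (M k)).filter fun n =>
        (n.1, n.2 + 1) ∉ Finset.range (L k) ×ˢ Finset.range (M k)).card : ℝ) ≤ L k := by
      have h2 : ((Finset.range (L k) ×ˢ Finset.range (M k)).filter fun n =>
          (n.1, n.2 + 1) ∉ Finset.range (L k) ×ˢ Finset.range (M k)) ⊆
          Finset.range (L k) ×ˢ {M k - 1} := by
        intro n hn
        simp only [Finset.mem_filter, Finset.mem_product, Finset.mem_range, not_and, not_lt,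
          Finset.mem_singleton] at hn ⊢
        omega
      have h3 := Finset.card_le_card h2
      rw [Finset.card_product, Finset.card_singleton, mul_one, Finset.card_range] at h3
      exact_mod_cast h3
    rw [Finset.card_product, Finset.card_range, Finset.card_range, Nat.cast_mul,
      div_le_div_iff₀ (by positivity) hm]
    nlinarith

lemma rgen_seq {p q : ℕ} {μ : Measure UnitAddCircle} {x : UnitAddCircle} (hx : x ∈ RGen p q μ)
    {L M : ℕ → ℕ} (hL : Tendsto L atTop atTop) (hM : Tendsto M atTop atTop)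
    (g : C(UnitAddCircle, ℝ)) :
    Tendsto (fun k => ave p q (Finset.range (L k) ×ˢ Finset.range (M k)) g x) atTop
      (𝓝 (∫ y, g y ∂μ)) := by
  have h1 : Tendsto (fun k : ℕ => (L k, M k)) atTop atTop := by
    rw [← prod_atTop_atTop_eq]
    exact hL.prodMk hM
  have h2 : Tendsto (fun n : ℕ × ℕ => ave p q (Finset.range n.1 ×ˢ Finset.range n.2) g x) atTop
    (𝓝 (∫ y, g y ∂μ)) := hx g
  have h3 := h2.comp h1
  rw [Function.comp_def] at h3
  exact h3

/-- rectangle limits are limits along a Folner sequence of rectangles -/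
lemma RLim.folner {p q : ℕ} {ρ κ : Measure UnitAddCircle} (h : RLim p q ρ κ) :
    ∃ F : ℕ → Finset (ℕ × ℕ), Folner F ∧ Lim p q F ρ κ ∧
      ∀ μ : Measure UnitAddCircle, RGen p q μ ⊆ Gen p q F μ := by
  obtain ⟨L, M, hL, hM, hl⟩ := h
  obtain ⟨k₁, hk₁⟩ := eventually_atTop.mp (hL.eventually (eventually_gt_atTop 0))
  obtain ⟨k₂, hk₂⟩ := eventually_atTop.mp (hM.eventually (eventually_gt_atTop 0))
  set m := max k₁ k₂ with hm
  have ht : Tendsto (fun k : ℕ => k + m) atTop atTop := tendsto_add_atTop_nat m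
  refine ⟨fun k => Finset.range (L (k + m)) ×ˢ Finset.range (M (k + m)), ?_, ?_, ?_⟩
  · exact folner_rect (hL.comp ht) (hM.comp ht)
      (fun k => hk₁ _ ((le_max_left _ _).trans (Nat.le_add_left _ _)))
      (fun k => hk₂ _ ((le_max_right _ _).trans (Nat.le_add_left _ _)))
  · exact fun g => (hl g).comp ht
  · intro μ x hx g
    exact rgen_seq hx (hL.comp ht) (hM.comp ht) g

lemma mem_RGen_of_seq {p q : ℕ} {μ : Measure UnitAddCircle}
    [IsProbabilityMeasure μ] {x : UnitAddCircle}
    (h : ∀ m : ℕ, Tendsto (fun n : ℕ × ℕ => ave p q (Finset.range n.1 ×ˢ Finset.range n.2)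
      (TopologicalSpace.denseSeq C(UnitAddCircle, ℝ) m) x) atTop
      (𝓝 (∫ y, (TopologicalSpace.denseSeq C(UnitAddCircle, ℝ) m) y ∂μ))) : x ∈ RGen p q μ := by
  intro g
  refine tendsto_of_seq_tendsto fun u hu => ?_
  exact Pool.Agent.Zk26.FS.mem_Gen_of_seq (F := fun k => Finset.range (u k).1 ×ˢ
    Finset.range (u k).2) (fun m => (h m).comp hu) g

lemma RGen_eq (p q : ℕ) (μ : Measure UnitAddCircle)
    [IsProbabilityMeasure μ] : RGen p q μ = ⋂ m : ℕ, {x | Tendsto (fun n : ℕ × ℕ =>
      ave p q (Finset.range n.1 ×ˢ Finset.range n.2)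
      (TopologicalSpace.denseSeq C(UnitAddCircle, ℝ) m) x) atTop
      (𝓝 (∫ y, (TopologicalSpace.denseSeq C(UnitAddCircle, ℝ) m) y ∂μ))} := by
  ext x
  rw [mem_iInter]
  exact ⟨fun h m => h _, fun h => mem_RGen_of_seq h⟩

theorem rgen_meas (p q : ℕ) (μ : Measure UnitAddCircle)
    [IsProbabilityMeasure μ] : MeasurableSet (RGen p q μ) := by
  rw [RGen_eq]
  refine MeasurableSet.iInter fun m => ?_
  exact measurableSet_tendsto (𝓝 _) fun n => (Pool.Agent.Zk26.FS.ave_cont p q _ _).measurable

/-- **Almost every point is generic for rectangles.** -/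
theorem rgen_full {p q : ℕ} {μ : Measure UnitAddCircle} [IsProbabilityMeasure μ]
    (hμp : MeasurePreserving (fun x : UnitAddCircle => p • x) μ μ)
    (hμq : MeasurePreserving (fun x : UnitAddCircle => q • x) μ μ)
    (hJ : ∀ E, MeasurableSet E → (fun x : UnitAddCircle => p • x) ⁻¹' E = E →
      (fun x : UnitAddCircle => q • x) ⁻¹' E = E → μ E = 0 ∨ μ E = 1) :
    μ (RGen p q μ) = 1 := by
  have hSp : ∀ (r i : ℕ) (x : UnitAddCircle), (fun x : UnitAddCircle => r • x)^[i] x = r ^ i • x := by
    intro r i x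
    induction i with
    | zero => simp
    | succ i ih => rw [Function.iterate_succ_apply', ih, smul_smul, pow_succ']
  have hae : ∀ᵐ x ∂μ, ∀ m : ℕ, Tendsto (fun n : ℕ × ℕ =>
      ave p q (Finset.range n.1 ×ˢ Finset.range n.2)
      (TopologicalSpace.denseSeq C(UnitAddCircle, ℝ) m) x) atTop
      (𝓝 (∫ y, (TopologicalSpace.denseSeq C(UnitAddCircle, ℝ) m) y ∂μ)) := by
    rw [ae_all_iff]
    intro m
    set g := TopologicalSpace.denseSeq C(UnitAddCircle, ℝ) m with hg
    obtain ⟨B, hB0, hB⟩ := cont_bound g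
    set f : UnitAddCircle → ℝ := fun x => (B + 1)⁻¹ * g x with hf
    have hfm : Measurable f := (g.continuous.measurable).const_mul _
    have hfb : ∀ x, |f x| ≤ 1 := by
      intro x
      rw [hf]
      simp only
      rw [abs_mul, abs_of_nonneg (by positivity), inv_mul_le_iff₀ (by positivity)]
      linarith [hB x]
    have h1 := Pool.Agent.Zk78.PW.rect_pointwise (S := fun x : UnitAddCircle => p • x)
      (T := fun x : UnitAddCircle => q • x) (mu := μ) hJ hμp hμq
      (fun x => by simp only [smul_smul]; rw [mul_comm]) hfm hfb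
    filter_upwards [h1] with x hx
    have h2 := hx.const_mul (B + 1)
    have h3 : (B + 1) * ∫ y, f y ∂μ = ∫ y, g y ∂μ := by
      rw [← integral_const_mul]
      congr 1
      funext y
      simp only [hf]
      field_simp
    rw [h3] at h2
    refine h2.congr fun n => ?_
    unfold ave
    rw [Finset.card_product, Finset.card_range, Finset.card_range, Nat.cast_mul,
      Finset.sum_product, ← mul_assoc, mul_comm (B + 1) _, mul_assoc, Finset.mul_sum]
    congr 1
    refine Finset.sum_congr rfl fun i _ => ?_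
    rw [Finset.mul_sum]
    refine Finset.sum_congr rfl fun j _ => ?_
    simp only [hf]
    rw [hSp, hSp, smul_smul, mul_comm (q ^ j)]
    field_simp
  have hG : ∀ᵐ x ∂μ, x ∈ RGen p q μ := by
    filter_upwards [hae] with x hx
    exact mem_RGen_of_seq hx
  exact (mem_ae_iff_prob_eq_one (rgen_meas p q μ)).1 hG

/-- **Points whose rectangle averages concentrate at zero do not matter.** -/
theorem rgen_conv {p q : ℕ} {μ : Measure UnitAddCircle} [IsProbabilityMeasure μ]
    {t : UnitAddCircle}
    (ht : ∀ g : C(UnitAddCircle, ℝ), Tendsto (fun n : ℕ × ℕ =>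
      ave p q (Finset.range n.1 ×ˢ Finset.range n.2) g t) atTop (𝓝 (g 0)))
    {x : UnitAddCircle} (hx : x ∈ RGen p q μ) : x + t ∈ RGen p q μ := by
  intro g
  refine tendsto_of_seq_tendsto fun u hu => ?_
  have hu1 : Tendsto (fun k => (u k).1) atTop atTop := by
    have := hu
    rw [← prod_atTop_atTop_eq] at this
    exact tendsto_fst.comp this
  have hu2 : Tendsto (fun k => (u k).2) atTop atTop := by
    have := hu
    rw [← prod_atTop_atTop_eq] at this
    exact tendsto_snd.comp this
  obtain ⟨k₁, hk₁⟩ := eventually_atTop.mp (hu1.eventually (eventually_gt_atTop 0))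
  obtain ⟨k₂, hk₂⟩ := eventually_atTop.mp (hu2.eventually (eventually_gt_atTop 0))
  set m := max k₁ k₂ with hm
  have htt : Tendsto (fun k : ℕ => k + m) atTop atTop := tendsto_add_atTop_nat m
  have hF : Folner (fun k => Finset.range (u (k + m)).1 ×ˢ Finset.range (u (k + m)).2) :=
    folner_rect (hu1.comp htt) (hu2.comp htt)
      (fun k => hk₁ _ ((le_max_left _ _).trans (Nat.le_add_left _ _)))
      (fun k => hk₂ _ ((le_max_right _ _).trans (Nat.le_add_left _ _)))
  have h1 := gen_conv (μ := μ) hF (t := t) (fun g => (ht g).comp (hu.comp htt)) x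
    (fun g => (hx g).comp (hu.comp htt)) g
  exact (tendsto_add_atTop_iff_nat m).mp h1

section
variable {p q : ℕ} {μ : Measure UnitAddCircle} [IsProbabilityMeasure μ]

/-- **The explicit set**: noise with a rectangle limit -/
theorem rgen_noise (hp : 2 ≤ p)
    (hμp : MeasurePreserving (fun x : UnitAddCircle => p • x) μ μ)
    (hμq : MeasurePreserving (fun x : UnitAddCircle => q • x) μ μ)
    (hJ : ∀ E : Set UnitAddCircle, MeasurableSet E →
      (fun x : UnitAddCircle => p • x) ⁻¹' E = E → (fun x : UnitAddCircle => q • x) ⁻¹' E = E →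
        μ E = 0 ∨ μ E = 1)
    (hvol : μ ≠ volume) {c : ℤ} (hc : c ≠ 0)
    (ω κ : Measure UnitAddCircle) [IsProbabilityMeasure ω] [IsProbabilityMeasure κ]
    (hκ : RLim p q ω κ) :
    (μ.prod ω) {z : UnitAddCircle × UnitAddCircle | c • z.1 + z.2 ∈ RGen p q μ} ≤ κ Tor := by
  obtain ⟨F, hF, hl, hs⟩ := hκ.folner
  exact gen_noise hp hμp hμq hJ hvol hF hc ω κ (Filter.hyperfilter ℕ) hyper_le
    (fun g => (hl g).mono_left hyper_le) ((lc_meas c) (rgen_meas p q μ)) (fun z hz => hs μ hz)

/-- **The explicit set**: translations -/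
theorem rgen_point (hp : 2 ≤ p)
    (hμp : MeasurePreserving (fun x : UnitAddCircle => p • x) μ μ)
    (hμq : MeasurePreserving (fun x : UnitAddCircle => q • x) μ μ)
    (hJ : ∀ E : Set UnitAddCircle, MeasurableSet E →
      (fun x : UnitAddCircle => p • x) ⁻¹' E = E → (fun x : UnitAddCircle => q • x) ⁻¹' E = E →
        μ E = 0 ∨ μ E = 1)
    (hvol : μ ≠ volume) {c : ℤ} (hc : c ≠ 0) (t : UnitAddCircle)
    (κ : Measure UnitAddCircle) [IsProbabilityMeasure κ]
    (hκ : RLim p q (Measure.dirac t) κ) (hκ0 : κ Tor < 1) :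
    μ {x | c • x + t ∈ RGen p q μ} = 0 := by
  obtain ⟨F, hF, hl, hs⟩ := hκ.folner
  have h1 := gen_point hp hμp hμq hJ hvol hF hc (Pool.Agent.Zk26.FS.gen_meas p q F μ) t κ
    (fun g => by
      refine (hl g).congr fun k => ?_
      exact integral_dirac _ _) hκ0
  refine measure_mono_null (fun x hx => ?_) h1
  have hx' : c • x + t ∈ RGen p q μ := hx
  exact hs μ hx'

/-- **The explicit set**: invariant atomless noise and translations -/
theorem rgen_inv (hp : 2 ≤ p)
    (hμp : MeasurePreserving (fun x : UnitAddCircle => p • x) μ μ)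
    (hμq : MeasurePreserving (fun x : UnitAddCircle => q • x) μ μ)
    (hJ : ∀ E : Set UnitAddCircle, MeasurableSet E →
      (fun x : UnitAddCircle => p • x) ⁻¹' E = E → (fun x : UnitAddCircle => q • x) ⁻¹' E = E →
        μ E = 0 ∨ μ E = 1)
    (hvol : μ ≠ volume) {c : ℤ} (hc : c ≠ 0)
    (ν : Measure UnitAddCircle) [IsProbabilityMeasure ν]
    (hνp : MeasurePreserving (fun x : UnitAddCircle => p • x) ν ν)
    (hνq : MeasurePreserving (fun x : UnitAddCircle => q • x) ν ν)
    (hat : ∀ x : UnitAddCircle, ν {x} = 0) (t : UnitAddCircle) :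
    (μ.prod ν) {z : UnitAddCircle × UnitAddCircle | c • z.1 + z.2 + t ∈ RGen p q μ} = 0 := by
  obtain ⟨L, hL, hL0⟩ : ∃ L : ℕ → ℕ, Tendsto L atTop atTop ∧ ∀ k, 0 < L k :=
    ⟨fun k => k + 1, tendsto_add_atTop_nat 1, fun k => Nat.succ_pos k⟩
  have hF : Folner (fun k : ℕ => Finset.range (L k) ×ˢ Finset.range (L k)) :=
    folner_rect hL hL hL0 hL0
  have h1 := gen_inv hp hμp hμq hJ hvol hF hc (Pool.Agent.Zk26.FS.gen_meas p q _ μ) ν hνp hνq hat t
  refine measure_mono_null (fun z hz => ?_) h1
  have hz' : c • z.1 + z.2 + t ∈ RGen p q μ := hz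
  exact fun g => rgen_seq hz' hL hL g

end

end Pool.Agent.Zk32
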