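import Mathlib
import Pool.Agent.Zk32.Gp9

/-!
Irrational numbers, and numbers normal in one base
-/

set_option autoImplicit false
set_option linter.unusedSectionVars false

open MeasureTheory Filter Topology Set
open scoped ENNReal NNReal BoundedContinuousFunction

namespace Pool.Agent.Zk32

lemma near_zero {p q : ℕ} (hp : 2 ≤ p) (hq : 2 ≤ q) (hirr : Irrational (Real.log p / Real.log q))
    {t : UnitAddCircle} (ht : t ∉ Tor) {ε : ℝ} (hε : 0 < ε) :
    ∃ a b : ℕ, 0 < ‖(p ^ a * q ^ b) • t‖ ∧ ‖(p ^ a * q ^ b) • t‖ < ε := by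
  set O : Set UnitAddCircle := {y | ∃ a b : ℕ, y = (p ^ a * q ^ b) • t} with hO
  have hinf : (closure O).Infinite := by
    refine Set.Infinite.mono subset_closure ?_
    refine Set.infinite_of_injective_forall_mem (f := fun a : ℕ => (p ^ a) • t) ?_ fun a => ?_
    · have key : ∀ a b : ℕ, a < b → (p ^ a) • t ≠ (p ^ b) • t := by
        intro a b hab h
        apply ht
        have h1 : p ^ a < p ^ b := Nat.pow_lt_pow_right (by omega) hab
        refine ⟨p ^ b - p ^ a, by omega, ?_⟩
        have h2 : (p ^ b - p ^ a + p ^ a) • t = (p ^ b) • t := by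
          rw [Nat.sub_add_cancel h1.le]
        rw [add_smul, h] at h2
        exact add_eq_right.mp h2
      intro a b hab
      rcases lt_trichotomy a b with h | h | h
      · exact absurd hab (key a b h)
      · exact h
      · exact absurd hab.symm (key b a h)
    · exact ⟨a, 0, by simp⟩
  have hinv : Pool.Agent.H847R3.XpXq.Inv p q (closure O) := by
    intro x hx
    constructor
    · exact map_mem_closure (continuous_nsmul p) hx (by
        rintro y ⟨a, b, rfl⟩
        exact ⟨a + 1, b, by rw [smul_smul]; congr 1; ring⟩)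
    · exact map_mem_closure (continuous_nsmul q) hx (by
        rintro y ⟨a, b, rfl⟩
        exact ⟨a, b + 1, by rw [smul_smul]; congr 1; ring⟩)
  have hu := Pool.Agent.R477.XQ.furst hp hq hirr isClosed_closure hinv hinf
  have h0 : (0 : UnitAddCircle) ∈ closure O := by rw [hu]; trivial
  obtain ⟨y, ⟨a, b, rfl⟩, hy⟩ := Metric.mem_closure_iff.mp h0 ε hε
  refine ⟨a, b, ?_, ?_⟩
  · rw [norm_pos_iff]
    intro h
    exact ht ⟨p ^ a * q ^ b, by positivity, h⟩
  · rw [dist_comm, dist_zero_right] at hy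
    exact hy

/-- **Irrational numbers are not rigid.** -/
theorem point_nonrigid {p q : ℕ} (hp : 2 ≤ p) (hq : 2 ≤ q)
    (hirr : Irrational (Real.log p / Real.log q)) {t : UnitAddCircle} (ht : t ∉ Tor) :
    NonRigid p q (Measure.dirac t) := by
  choose a b h1 h2 using fun k : ℕ => near_zero hp hq hirr ht
    (show (0 : ℝ) < 1 / ((k : ℝ) + 1) by positivity)
  refine bump_nonrigid hp hq hirr _ one_pos le_rfl (a := a) (a' := b)
    (d := fun k => ‖(p ^ a k * q ^ b k) • t‖) h1 ?_ fun k => ?_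
  · exact squeeze_zero (fun k => norm_nonneg _) (fun k => (h2 k).le)
      tendsto_one_div_add_atTop_nhds_zero_nat
  · have h3 : t ∈ {w : UnitAddCircle | ‖(p ^ a k * q ^ b k) • t‖ ≤ ‖(p ^ a k * q ^ b k) • w‖ ∧
        ‖(p ^ a k * q ^ b k) • w‖ ≤ 1 * ‖(p ^ a k * q ^ b k) • t‖} := ⟨le_rfl, by rw [one_mul]⟩
    rw [Measure.real, Measure.dirac_apply_of_mem h3]
    simp

/-- the rigid part has no irrational atoms -/
theorem no_irrational {p q : ℕ} (hp : 2 ≤ p) (hq : 2 ≤ q)
    (hirr : Irrational (Real.log p / Real.log q)) (ω : Measure UnitAddCircle)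
    [IsProbabilityMeasure ω] {R : Set UnitAddCircle} (hmax : ∀ B : Set UnitAddCircle,
      MeasurableSet B → ω B ≠ 0 → (Rigid p q (ProbabilityTheory.cond ω B) ↔ ω (B \ R) = 0))
    {t : UnitAddCircle} (ht : t ∉ Tor) (hat : ω {t} ≠ 0) : t ∉ R := by
  intro hR
  have h1 := (hmax {t} (measurableSet_singleton t) hat).mpr (by
    rw [Set.sdiff_eq_empty.mpr (Set.singleton_subset_iff.mpr hR), measure_empty])
  have h2 : ProbabilityTheory.cond ω {t} = Measure.dirac t := by
    rw [ProbabilityTheory.cond, Measure.restrict_singleton, smul_smul,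
      ENNReal.inv_mul_cancel hat (measure_ne_top _ _), one_smul]
  rw [h2] at h1
  exact nonRigid_iff.mp (point_nonrigid hp hq hirr ht) h1

lemma exists_diag (u : ℕ → ℕ → ℕ → ℝ) (c : ℕ → ℝ)
    (h : ∀ k m, Tendsto (fun L => u k L m) atTop (𝓝 (c m))) :
    ∃ L : ℕ → ℕ, Tendsto L atTop atTop ∧ ∀ m, Tendsto (fun k => u k (L k) m) atTop (𝓝 (c m)) := by
  have h1 : ∀ k : ℕ, ∃ L : ℕ, k ≤ L ∧ ∀ m ≤ k, |u k L m - c m| < 1 / ((k : ℝ) + 1) := by
    intro k
    have h2 : ∀ᶠ L in atTop, ∀ m ∈ Finset.range (k + 1), |u k L m - c m| < 1 / ((k : ℝ) + 1) := by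
      rw [eventually_all_finset]
      intro m _
      have h3 := Metric.tendsto_atTop.mp (h k m) (1 / ((k : ℝ) + 1)) (by positivity)
      obtain ⟨N, hN⟩ := h3
      filter_upwards [eventually_ge_atTop N] with L hL
      have := hN L hL
      rwa [Real.dist_eq] at this
    obtain ⟨L, hL1, hL2⟩ := (h2.and (eventually_ge_atTop k)).exists
    exact ⟨L, hL2, fun m hm => hL1 m (Finset.mem_range.mpr (by omega))⟩
  choose L hL1 hL2 using h1
  refine ⟨L, tendsto_atTop_mono hL1 tendsto_id, fun m => ?_⟩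
  rw [Metric.tendsto_atTop]
  intro ε hε
  obtain ⟨N, hN⟩ := exists_nat_one_div_lt hε
  refine ⟨max N m, fun k hk => ?_⟩
  rw [Real.dist_eq]
  refine (hL2 k m ((le_max_right _ _).trans hk)).trans (lt_of_le_of_lt ?_ hN)
  have h3 : (N : ℝ) ≤ k := by exact_mod_cast (le_max_left _ _).trans hk
  exact one_div_le_one_div_of_le (by positivity) (by linarith)

lemma vol_tor : (volume : Measure UnitAddCircle) Tor = 0 := by
  have h1 : ∀ x : UnitAddCircle, (volume : Measure UnitAddCircle) {x} = 0 := by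
    intro x
    have h2 : ∀ k : ℕ, (volume : Measure UnitAddCircle) {x} ≤
        ENNReal.ofReal (2 * (1 / ((k : ℝ) + 1))) := by
      intro k
      refine (measure_mono (Set.singleton_subset_iff.mpr
        (Metric.mem_closedBall_self (show (0 : ℝ) ≤ 1 / ((k : ℝ) + 1) by positivity)))).trans ?_
      rw [AddCircle.volume_closedBall]
      exact ENNReal.ofReal_le_ofReal (min_le_right _ _)
    have h3 : Tendsto (fun k : ℕ => ENNReal.ofReal (2 * (1 / ((k : ℝ) + 1)))) atTop (𝓝 0) := by
      have h4 := (tendsto_one_div_add_atTop_nhds_zero_nat (𝕜 := ℝ)).const_mul 2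
      rw [mul_zero] at h4
      have h5 := ENNReal.tendsto_ofReal h4
      rwa [ENNReal.ofReal_zero] at h5
    exact le_antisymm (ge_of_tendsto' h3 h2) zero_le
  have : NullSingletonClass (volume : Measure UnitAddCircle) := ⟨h1⟩
  exact tor_countable.measure_zero volume

lemma vol_pres {n : ℕ} (hn : 0 < n) (g : C(UnitAddCircle, ℝ)) :
    ∫ x : UnitAddCircle, g (n • x) = ∫ x : UnitAddCircle, g x := by
  have h0 : MeasurePreserving (fun x : UnitAddCircle => ((n : ℤ)) • x) volume volume :=
    MeasureTheory.Measure.measurePreserving_zsmul volume (by exact_mod_cast hn.ne')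
  have h1 : MeasurePreserving (fun x : UnitAddCircle => n • x) volume volume := by
    simpa only [natCast_zsmul] using h0
  rw [← h1.map_eq, integral_map h1.measurable.aemeasurable g.continuous.aestronglyMeasurable,
    h1.map_eq]

/-- **A number normal in base `p` has a rectangle limit equal to Lebesgue measure.** -/
theorem rlim_normal_p {p q : ℕ} (hq : 1 ≤ q) {t : UnitAddCircle}
    (ht : ∀ g : C(UnitAddCircle, ℝ), Tendsto (fun N : ℕ =>
      (N : ℝ)⁻¹ * ∑ i ∈ Finset.range N, g ((p ^ i) • t)) atTop (𝓝 (∫ x : UnitAddCircle, g x))) :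
    RLim p q (Measure.dirac t) volume := by
  set D : ℕ → C(UnitAddCircle, ℝ) := TopologicalSpace.denseSeq C(UnitAddCircle, ℝ) with hD
  have h1 : ∀ (k : ℕ) (g : C(UnitAddCircle, ℝ)), Tendsto (fun L : ℕ =>
      ave p q (Finset.range L ×ˢ Finset.range (k + 1)) g t) atTop
      (𝓝 (∫ x : UnitAddCircle, g x)) := by
    intro k g
    have h2 : Tendsto (fun L : ℕ => ((k : ℝ) + 1)⁻¹ * ∑ j ∈ Finset.range (k + 1),
        ((L : ℝ)⁻¹ * ∑ i ∈ Finset.range L, g ((q ^ j) • ((p ^ i) • t)))) atTop
        (𝓝 (((k : ℝ) + 1)⁻¹ * ∑ _j ∈ Finset.range (k + 1), ∫ x : UnitAddCircle, g x)) := by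
      refine Tendsto.const_mul _ (tendsto_finsetSum _ fun j _ => ?_)
      have h3 := ht (g.comp ⟨fun x : UnitAddCircle => (q ^ j) • x, continuous_nsmul _⟩)
      have h4 : ∫ x : UnitAddCircle, (g.comp ⟨fun x : UnitAddCircle => (q ^ j) • x,
          continuous_nsmul _⟩) x = ∫ x : UnitAddCircle, g x := vol_pres (pow_pos hq j) g
      rw [h4] at h3
      exact h3
    rw [Finset.sum_const, Finset.card_range, nsmul_eq_mul, ← mul_assoc] at h2
    push_cast at h2
    rw [inv_mul_cancel₀ (by positivity), one_mul] at h2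
    refine h2.congr fun L => ?_
    unfold ave
    rw [Finset.card_product, Finset.card_range, Finset.card_range, Finset.sum_product_right,
      Nat.cast_mul, mul_inv, ← Finset.mul_sum, ← mul_assoc, mul_comm ((L : ℝ)⁻¹)]
    push_cast
    congr 1
    refine Finset.sum_congr rfl fun j _ => ?_
    refine Finset.sum_congr rfl fun i _ => ?_
    rw [smul_smul, mul_comm]
  obtain ⟨L, hL, hLm⟩ := exists_diag (fun k L m =>
    ave p q (Finset.range L ×ˢ Finset.range (k + 1)) (D m) t) (fun m => ∫ x : UnitAddCircle, D m x)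
    (fun k m => h1 k (D m))
  refine ⟨L, fun k => k + 1, hL, tendsto_add_atTop_nat 1, fun g => ?_⟩
  have h2 := Pool.Agent.Zk26.FS.mem_Gen_of_seq (p := p) (q := q) (μ := volume)
    (F := fun k => Finset.range (L k) ×ˢ Finset.range (k + 1)) (x := t) hLm g
  refine h2.congr fun k => ?_
  exact (integral_dirac _ _).symm

/-- **A number normal in base `q` has a rectangle limit equal to Lebesgue measure.** -/
theorem rlim_normal_q {p q : ℕ} (hp : 1 ≤ p) {t : UnitAddCircle}
    (ht : ∀ g : C(UnitAddCircle, ℝ), Tendsto (fun N : ℕ =>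
      (N : ℝ)⁻¹ * ∑ i ∈ Finset.range N, g ((q ^ i) • t)) atTop (𝓝 (∫ x : UnitAddCircle, g x))) :
    RLim p q (Measure.dirac t) volume := by
  set D : ℕ → C(UnitAddCircle, ℝ) := TopologicalSpace.denseSeq C(UnitAddCircle, ℝ) with hD
  have h1 : ∀ (k : ℕ) (g : C(UnitAddCircle, ℝ)), Tendsto (fun L : ℕ =>
      ave p q (Finset.range (k + 1) ×ˢ Finset.range L) g t) atTop
      (𝓝 (∫ x : UnitAddCircle, g x)) := by
    intro k g
    have h2 : Tendsto (fun L : ℕ => ((k : ℝ) + 1)⁻¹ * ∑ j ∈ Finset.range (k + 1),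
        ((L : ℝ)⁻¹ * ∑ i ∈ Finset.range L, g ((p ^ j) • ((q ^ i) • t)))) atTop
        (𝓝 (((k : ℝ) + 1)⁻¹ * ∑ _j ∈ Finset.range (k + 1), ∫ x : UnitAddCircle, g x)) := by
      refine Tendsto.const_mul _ (tendsto_finsetSum _ fun j _ => ?_)
      have h3 := ht (g.comp ⟨fun x : UnitAddCircle => (p ^ j) • x, continuous_nsmul _⟩)
      have h4 : ∫ x : UnitAddCircle, (g.comp ⟨fun x : UnitAddCircle => (p ^ j) • x,
          continuous_nsmul _⟩) x = ∫ x : UnitAddCircle, g x := vol_pres (pow_pos hp j) g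
      rw [h4] at h3
      exact h3
    rw [Finset.sum_const, Finset.card_range, nsmul_eq_mul, ← mul_assoc] at h2
    push_cast at h2
    rw [inv_mul_cancel₀ (by positivity), one_mul] at h2
    refine h2.congr fun L => ?_
    unfold ave
    rw [Finset.card_product, Finset.card_range, Finset.card_range, Finset.sum_product,
      Nat.cast_mul, mul_inv, ← Finset.mul_sum, ← mul_assoc]
    push_cast
    congr 1
    refine Finset.sum_congr rfl fun j _ => ?_
    refine Finset.sum_congr rfl fun i _ => ?_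
    rw [smul_smul]
  obtain ⟨L, hL, hLm⟩ := exists_diag (fun k L m =>
    ave p q (Finset.range (k + 1) ×ˢ Finset.range L) (D m) t) (fun m => ∫ x : UnitAddCircle, D m x)
    (fun k m => h1 k (D m))
  refine ⟨fun k => k + 1, L, tendsto_add_atTop_nat 1, hL, fun g => ?_⟩
  have h2 := Pool.Agent.Zk26.FS.mem_Gen_of_seq (p := p) (q := q) (μ := volume)
    (F := fun k => Finset.range (k + 1) ×ˢ Finset.range (L k)) (x := t) hLm g
  refine h2.congr fun k => ?_
  exact (integral_dirac _ _).symm

end Pool.Agent.Zk32
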