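import Mathlib
import Pool.Agent.Zk32.Gp7

/-!
Measures all of whose limits are of a null type, and thin measures
-/

set_option autoImplicit false
set_option linter.unusedSectionVars false

open MeasureTheory Filter Topology Set
open scoped ENNReal NNReal BoundedContinuousFunction

namespace Pool.Agent.Zk32

/-- a class of measures closed under absolute continuity, sums and approximation -/
structure NullType (P : Measure UnitAddCircle → Prop) : Prop where
  mono : ∀ κ κ' : Measure UnitAddCircle, IsFiniteMeasure κ → IsFiniteMeasure κ' → P κ → κ' ≪ κ → P κ'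
  add : ∀ κ κ' : Measure UnitAddCircle, IsFiniteMeasure κ → IsFiniteMeasure κ' → P κ → P κ' →
    P (κ + κ')
  lim : ∀ κ : Measure UnitAddCircle, IsFiniteMeasure κ → (∀ ε : ℝ≥0∞, 0 < ε →
    ∃ κ₁ κ₂ : Measure UnitAddCircle, κ = κ₁ + κ₂ ∧ P κ₁ ∧ κ₂ univ ≤ ε) → P κ
  zero : P 0

/-- every limit along every Folner sequence is in the class -/
def AllP (P : Measure UnitAddCircle → Prop) (p q : ℕ) (ρ : Measure UnitAddCircle) : Prop :=
  ∀ F : ℕ → Finset (ℕ × ℕ), Folner F → ∀ 𝒰 : Ultrafilter ℕ, (𝒰 : Filter ℕ) ≤ atTop →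
    ∀ κ : Measure UnitAddCircle, IsFiniteMeasure κ →
      (∀ g : C(UnitAddCircle, ℝ), Tendsto (fun k => ∫ x, ave p q (F k) g x ∂ρ)
        (𝒰 : Filter ℕ) (𝓝 (∫ x, g x ∂κ))) → P κ

variable {P : Measure UnitAddCircle → Prop}

lemma AllP.of_le (hP : NullType P) {p q : ℕ} {ρ ρ' : Measure UnitAddCircle} [IsFiniteMeasure ρ]
    [IsFiniteMeasure ρ'] (h : AllP P p q ρ) {C : ℝ≥0∞} (hC0 : C ≠ 0) (hC : C ≠ ∞)
    (hle : ρ' ≤ C • ρ) : AllP P p q ρ' := by
  intro F hF 𝒰 h𝒰 κ' hκ' hl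
  obtain ⟨κ, hκ, -, hκl⟩ := lim_existsF (p := p) (q := q) hF.1 𝒰 ρ
  have h1 := h F hF 𝒰 h𝒰 κ hκ hκl
  have hdom : ∀ g : C(UnitAddCircle, ℝ), (∀ x, 0 ≤ g x) →
      ∫ x, g x ∂κ' ≤ C.toReal * ∫ x, g x ∂κ := by
    intro g hg
    refine le_of_tendsto_of_tendsto (hl g) ((hκl g).const_mul C.toReal)
      (Eventually.of_forall fun k => ?_)
    have hnn : ∀ x, 0 ≤ aveX p q (F k) g x := fun x =>
      mul_nonneg (by positivity) (Finset.sum_nonneg fun n _ => hg _)
    change ∫ x, aveX p q (F k) g x ∂ρ' ≤ C.toReal * ∫ x, aveX p q (F k) g x ∂ρ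
    rw [← smul_eq_mul, ← integral_smul_measure]
    have : IsFiniteMeasure (C • ρ) := ⟨by
      rw [Measure.smul_apply, smul_eq_mul]
      exact ENNReal.mul_lt_top (lt_top_iff_ne_top.mpr hC) (measure_lt_top _ _)⟩
    exact integral_mono_measure hle (Eventually.of_forall hnn) (int_contX _ ⟨_, aveX_cont g⟩)
  exact hP.mono κ κ' hκ hκ' h1 (ac_of_le (ENNReal.toReal_pos hC0 hC) hdom)

lemma AllP.mono (hP : NullType P) {p q : ℕ} {ρ ρ' : Measure UnitAddCircle} [IsFiniteMeasure ρ]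
    [IsFiniteMeasure ρ'] (h : AllP P p q ρ) (hle : ρ' ≤ ρ) : AllP P p q ρ' :=
  h.of_le hP one_ne_zero ENNReal.one_ne_top (by rwa [one_smul])

lemma AllP.add (hP : NullType P) {p q : ℕ} {ρ ρ' : Measure UnitAddCircle} [IsFiniteMeasure ρ]
    [IsFiniteMeasure ρ'] (h : AllP P p q ρ) (h' : AllP P p q ρ') : AllP P p q (ρ + ρ') := by
  intro F hF 𝒰 h𝒰 κ hκ hl
  obtain ⟨κ₁, hκ₁, -, hl₁⟩ := lim_existsF (p := p) (q := q) hF.1 𝒰 ρ
  obtain ⟨κ₂, hκ₂, -, hl₂⟩ := lim_existsF (p := p) (q := q) hF.1 𝒰 ρ'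
  rw [lim_add hl hl₁ hl₂]
  exact hP.add _ _ hκ₁ hκ₂ (h F hF 𝒰 h𝒰 κ₁ hκ₁ hl₁) (h' F hF 𝒰 h𝒰 κ₂ hκ₂ hl₂)

/-- the sets where all limits are in the class -/
def PSet (P : Measure UnitAddCircle → Prop) (p q : ℕ) (ρ : Measure UnitAddCircle)
    (D : Set UnitAddCircle) : Prop :=
  MeasurableSet D ∧ AllP P p q (ρ.restrict D)

section
variable {p q : ℕ} {ρ : Measure UnitAddCircle} [IsFiniteMeasure ρ]

lemma PSet.subset (hP : NullType P) {D D' : Set UnitAddCircle} (h : PSet P p q ρ D)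
    (hD' : MeasurableSet D') (hs : D' ⊆ D) : PSet P p q ρ D' :=
  ⟨hD', h.2.mono hP (Measure.restrict_mono hs le_rfl)⟩

lemma PSet.union (hP : NullType P) {D D' : Set UnitAddCircle} (h : PSet P p q ρ D)
    (h' : PSet P p q ρ D') : PSet P p q ρ (D ∪ D') :=
  ⟨h.1.union h'.1, (h.2.add hP h'.2).mono hP (Measure.restrict_union_le _ _)⟩

lemma pset_empty (hP : NullType P) : PSet P p q ρ ∅ := by
  refine ⟨MeasurableSet.empty, fun F hF 𝒰 h𝒰 κ hκ hl => ?_⟩
  rw [Measure.restrict_empty] at hl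
  have : κ = 0 := by
    refine ext_of_forall_integral_eq_of_IsFiniteMeasure fun f => ?_
    rw [integral_zero_measure]
    refine tendsto_nhds_unique (hl f.toContinuousMap) ?_
    simp
  rw [this]; exact hP.zero

lemma PSet.iUnion (hP : NullType P) {D : ℕ → Set UnitAddCircle} (h : ∀ n, PSet P p q ρ (D n)) :
    PSet P p q ρ (⋃ n, D n) := by
  have hm : MeasurableSet (⋃ n, D n) := MeasurableSet.iUnion fun n => (h n).1
  refine ⟨hm, fun F hF 𝒰 h𝒰 κ hκ hl => ?_⟩
  set V : ℕ → Set UnitAddCircle := fun n => Set.accumulate D n with hV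
  have hVr : ∀ n, PSet P p q ρ (V n) := by
    intro n
    induction n with
    | zero =>
      have : V 0 = D 0 := by simp [hV, Set.accumulate]
      rw [this]; exact h 0
    | succ n ih =>
      have : V (n + 1) = V n ∪ D (n + 1) := by
        simp only [hV]
        exact Set.accumulate_succ D n
      rw [this]; exact ih.union hP (h _)
  have hVU : (⋃ n, V n) = ⋃ n, D n := Set.iUnion_accumulate
  have hmono : Monotone V := Set.monotone_accumulate
  have hlim : Tendsto (fun n => ρ ((⋃ n, D n) \ V n)) atTop (𝓝 0) := by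
    have h1 : Tendsto (fun n => ρ ((⋃ n, D n) \ V n)) atTop (𝓝 (ρ (⋂ n, (⋃ n, D n) \ V n))) := by
      apply tendsto_measure_iInter_atTop
      · intro n; exact (hm.diff (hVr n).1).nullMeasurableSet
      · intro a b hab; exact Set.sdiff_subset_sdiff_right (hmono hab)
      · exact ⟨0, measure_ne_top _ _⟩
    have h2 : (⋂ n, (⋃ n, D n) \ V n) = ∅ := by
      rw [← Set.sdiff_iUnion, hVU, Set.sdiff_self]
    rwa [h2, measure_empty] at h1
  refine hP.lim κ hκ fun ε hε => ?_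
  obtain ⟨n, hn⟩ := ((tendsto_order.mp hlim).2 ε hε).exists
  obtain ⟨κ₁, hκ₁, -, hl₁⟩ := lim_existsF (p := p) (q := q) hF.1 𝒰 (ρ.restrict (V n))
  obtain ⟨κ₂, hκ₂, hu, hl₂⟩ := lim_existsF (p := p) (q := q) hF.1 𝒰
    (ρ.restrict ((⋃ n, D n) \ V n))
  have hsum : ρ.restrict (⋃ n, D n) = ρ.restrict (V n) + ρ.restrict ((⋃ n, D n) \ V n) := by
    have hVs : V n ⊆ ⋃ n, D n := by rw [← hVU]; exact Set.subset_iUnion V n
    rw [← Measure.restrict_union disjoint_sdiff_right (hm.diff (hVr n).1),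
      Set.union_sdiff_cancel hVs]
  rw [hsum] at hl
  refine ⟨κ₁, κ₂, lim_add hl hl₁ hl₂, (hVr n).2 F hF 𝒰 h𝒰 κ₁ hκ₁ hl₁, ?_⟩
  rw [hu, Measure.restrict_apply_univ]
  exact hn.le

/-- **The largest part all of whose limits are in the class.** -/
theorem exists_largest (hP : NullType P) (p q : ℕ) (ρ : Measure UnitAddCircle)
    [IsFiniteMeasure ρ] :
    ∃ R : Set UnitAddCircle, PSet P p q ρ R ∧ ∀ D, PSet P p q ρ D → ρ (D \ R) = 0 := by
  set s : ℝ≥0∞ := ⨆ D : {D // PSet P p q ρ D}, ρ D.1 with hs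
  have hne : Nonempty {D // PSet P p q ρ D} := ⟨⟨∅, pset_empty hP⟩⟩
  have hst : s ≠ ∞ := by
    refine ne_top_of_le_ne_top (measure_ne_top ρ univ) ?_
    exact iSup_le fun D => measure_mono (Set.subset_univ _)
  have h1 : ∀ n : ℕ, ∃ D, PSet P p q ρ D ∧ s ≤ ρ D + (((n : ℝ≥0∞) + 1)⁻¹) := by
    intro n
    have hpos : (((n : ℝ≥0∞) + 1)⁻¹) ≠ 0 := by
      rw [ENNReal.inv_ne_zero]
      exact ENNReal.add_ne_top.mpr ⟨ENNReal.natCast_ne_top n, ENNReal.one_ne_top⟩
    by_contra hcon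
    push Not at hcon
    have h2 : s ≤ s - (((n : ℝ≥0∞) + 1)⁻¹) := by
      refine iSup_le fun D => ?_
      exact ENNReal.le_sub_of_add_le_right (by
        rw [ENNReal.inv_ne_top]; simp) (hcon D.1 D.2).le
    have h3 : s = 0 := by
      by_contra h4
      exact absurd h2 (not_le.mpr (ENNReal.sub_lt_self hst h4 hpos))
    have h4 := hcon ∅ (pset_empty hP)
    rw [h3] at h4
    exact not_lt_zero h4
  choose D hD hDs using h1
  refine ⟨⋃ n, D n, PSet.iUnion hP hD, fun E hE => ?_⟩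
  set U := ⋃ n, D n with hU
  have hUr : PSet P p q ρ U := PSet.iUnion hP hD
  have h2 : s ≤ ρ U := by
    refine le_of_tendsto_of_tendsto' tendsto_const_nhds
      (?_ : Tendsto (fun n : ℕ => ρ U + (((n : ℝ≥0∞) + 1)⁻¹)) atTop (𝓝 (ρ U))) fun n => ?_
    · have h3 : Tendsto (fun n : ℕ => (((n : ℝ≥0∞) + 1)⁻¹)) atTop (𝓝 0) := by
        have := (tendsto_add_atTop_iff_nat 1).mpr ENNReal.tendsto_inv_nat_nhds_zero
        refine this.congr fun n => ?_
        push_cast
        rfl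
      have := h3.const_add (ρ U)
      rwa [add_zero] at this
    · exact (hDs n).trans (add_le_add (measure_mono (Set.subset_iUnion D n)) le_rfl)
  have h3 : ρ (U ∪ E) ≤ s := le_iSup (fun D : {D // PSet P p q ρ D} => ρ D.1) ⟨_, hUr.union hP hE⟩
  have h4 : ρ (U ∪ E) = ρ U + ρ (E \ U) := by
    rw [← measure_union disjoint_sdiff_right (hE.1.diff hUr.1), Set.union_sdiff_self]
  rw [h4] at h3
  have h5 : ρ U + ρ (E \ U) ≤ ρ U + 0 := by rw [add_zero]; exact h3.trans h2
  exact le_antisymm (ENNReal.le_of_add_le_add_left (measure_ne_top _ _) h5) zero_le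

end

/-- a measure with a limit outside of the class has a Folner sequence converging to such a limit -/
theorem exists_seqP {p q : ℕ} {ρ : Measure UnitAddCircle} [IsProbabilityMeasure ρ]
    (h : ¬ AllP P p q ρ) : ∃ F : ℕ → Finset (ℕ × ℕ), Folner F ∧ ∃ κ : Measure UnitAddCircle,
      IsProbabilityMeasure κ ∧ Lim p q F ρ κ ∧ ¬ P κ := by
  unfold AllP at h
  push Not at h
  obtain ⟨F, hF, 𝒰, h𝒰, κ, hκ, hl, hT⟩ := h
  choose τ hτ using fun k => aveX_exists (p := p) (q := q) (hF.1 k)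
    (⟨ρ, inferInstance⟩ : ProbabilityMeasure UnitAddCircle)
  obtain ⟨κ', -, hκ'⟩ := (isCompact_univ (X := ProbabilityMeasure UnitAddCircle)).ultrafilter_le_nhds
      (𝒰.map τ) (by simp)
  have h1 : Tendsto τ (𝒰 : Filter ℕ) (𝓝 κ') := hκ'
  have h2 : (κ' : Measure UnitAddCircle) = κ := by
    refine ext_of_forall_integral_eq_of_IsFiniteMeasure fun f => ?_
    have h3 := (ProbabilityMeasure.tendsto_iff_forall_integral_tendsto.mp h1) f
    refine tendsto_nhds_unique h3 ((hl f.toContinuousMap).congr fun k => ?_)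
    exact (hτ k f.toContinuousMap).symm
  have h3 : MapClusterPt κ' atTop τ := by
    have h4 : MapClusterPt κ' (𝒰 : Filter ℕ) τ := h1.mapClusterPt
    exact h4.mono h𝒰
  obtain ⟨ψ, hψ, hψl⟩ := MapClusterPt.tendsto_subseq h3
  refine ⟨F ∘ ψ, hF.comp hψ.tendsto_atTop, κ', inferInstance, fun g => ?_, by rw [h2]; exact hT⟩
  have h4 := (ProbabilityMeasure.tendsto_iff_forall_integral_tendsto.mp hψl)
    (BoundedContinuousFunction.mkOfCompact g)
  refine h4.congr fun k => ?_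
  exact hτ (ψ k) g

/-- thin measures: every limit of averages along every Folner sequence is singular to Lebesgue
measure -/
def Thin (p q : ℕ) (ρ : Measure UnitAddCircle) : Prop :=
  ∀ F : ℕ → Finset (ℕ × ℕ), Folner F → ∀ κ : Measure UnitAddCircle, IsProbabilityMeasure κ →
    Lim p q F ρ κ → κ.MutuallySingular volume

lemma sing_null : NullType (fun κ => κ.MutuallySingular (volume : Measure UnitAddCircle)) := by
  refine ⟨fun κ κ' _ _ h hac => h.mono_ac hac Measure.AbsolutelyContinuous.rfl,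
    fun κ κ' _ _ h h' => h.add_left h', fun κ hκ h => ?_, Measure.MutuallySingular.zero_left⟩
  have h1 : ∀ n : ℕ, ∃ N : Set UnitAddCircle, MeasurableSet N ∧ volume N = 0 ∧
      κ Nᶜ ≤ ((n : ℝ≥0∞) + 1)⁻¹ := by
    intro n
    obtain ⟨κ₁, κ₂, rfl, hs, hle⟩ := h (((n : ℝ≥0∞) + 1)⁻¹) (by
      rw [pos_iff_ne_zero, ENNReal.inv_ne_zero]
      exact ENNReal.add_ne_top.mpr ⟨ENNReal.natCast_ne_top n, ENNReal.one_ne_top⟩)
    obtain ⟨N, hN, hN1, hN2⟩ := hs
    refine ⟨Nᶜ, hN.compl, hN2, ?_⟩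
    rw [compl_compl, Measure.add_apply, hN1, zero_add]
    exact (measure_mono (Set.subset_univ _)).trans hle
  choose N hN hN1 hN2 using h1
  refine ⟨(⋃ n, N n)ᶜ, (MeasurableSet.iUnion hN).compl, ?_, ?_⟩
  · refine le_antisymm (ge_of_tendsto' (?_ : Tendsto (fun n : ℕ => (((n : ℝ≥0∞) + 1)⁻¹)) atTop
      (𝓝 0)) fun n => ?_) zero_le
    · have := (tendsto_add_atTop_iff_nat 1).mpr ENNReal.tendsto_inv_nat_nhds_zero
      refine this.congr fun n => ?_
      push_cast
      rfl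
    · refine (measure_mono ?_).trans (hN2 n)
      exact Set.compl_subset_compl.mpr (Set.subset_iUnion N n)
  · rw [compl_compl]
    exact measure_iUnion_null hN1

theorem thin_iff {p q : ℕ} {ρ : Measure UnitAddCircle} [IsProbabilityMeasure ρ] :
    Thin p q ρ ↔ AllP (fun κ => κ.MutuallySingular (volume : Measure UnitAddCircle)) p q ρ := by
  constructor
  · intro h
    by_contra hcon
    obtain ⟨F, hF, κ, hκ, hl, hT⟩ := exists_seqP hcon
    exact hT (h F hF κ hκ hl)
  · intro h F hF κ hκ hl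
    exact h F hF (Filter.hyperfilter ℕ) hyper_le κ inferInstance
      fun g => (hl g).mono_left hyper_le

/-- conditional laws -/
lemma cond_thin {p q : ℕ} {ω : Measure UnitAddCircle} [IsProbabilityMeasure ω]
    {B : Set UnitAddCircle} (hB : MeasurableSet B) (h0 : ω B ≠ 0) :
    Thin p q (ProbabilityTheory.cond ω B) ↔
      PSet (fun κ => κ.MutuallySingular (volume : Measure UnitAddCircle)) p q ω B := by
  have hc : IsProbabilityMeasure (ProbabilityTheory.cond ω B) :=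
    ProbabilityTheory.cond_isProbabilityMeasure h0
  have ht : ω B ≠ ∞ := measure_ne_top _ _
  rw [thin_iff]
  constructor
  · intro h
    refine ⟨hB, h.of_le sing_null h0 ht (le_of_eq ?_)⟩
    rw [ProbabilityTheory.cond, smul_smul, ENNReal.mul_inv_cancel h0 ht, one_smul]
  · rintro ⟨-, h⟩
    exact h.of_le sing_null (ENNReal.inv_ne_zero.mpr ht) (ENNReal.inv_ne_top.mpr h0) le_rfl

/-- **The largest thin part** -/
theorem exists_thin (p q : ℕ) (ω : Measure UnitAddCircle) [IsProbabilityMeasure ω] :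
    ∃ R : Set UnitAddCircle, MeasurableSet R ∧ ∀ B : Set UnitAddCircle, MeasurableSet B →
      ω B ≠ 0 → (Thin p q (ProbabilityTheory.cond ω B) ↔ ω (B \ R) = 0) := by
  obtain ⟨R, hR, hmax⟩ := exists_largest sing_null p q ω
  refine ⟨R, hR.1, fun B hB h0 => ?_⟩
  rw [cond_thin hB h0]
  constructor
  · exact hmax B
  · intro h
    have h1 := hR.subset sing_null (hB.inter hR.1) Set.inter_subset_right
    have h2 : ω.restrict B = ω.restrict (B ∩ R) := by
      refine Measure.restrict_congr_set ?_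
      have h3 : (B \ R : Set UnitAddCircle) =ᵐ[ω] (∅ : Set UnitAddCircle) := ae_eq_empty.mpr h
      have h4 : ((B ∩ R) ∪ (B \ R) : Set UnitAddCircle) =ᵐ[ω] ((B ∩ R) ∪ ∅ : Set UnitAddCircle) :=
        (ae_eq_refl _).union h3
      rw [Set.inter_union_sdiff, Set.union_empty] at h4
      exact h4
    exact ⟨hB, by rw [h2]; exact h1.2⟩

end Pool.Agent.Zk32
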