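import Mathlib
import Pool.Agent.Zk32.Gp11

/-!
Two invariant measures and noise which is not thin
-/

set_option autoImplicit false
set_option linter.unusedSectionVars false

open MeasureTheory Filter Topology Set
open scoped ENNReal NNReal BoundedContinuousFunction

namespace Pool.Agent.Zk32

section
variable {p q : ℕ} {ν μ : Measure UnitAddCircle} [IsProbabilityMeasure ν] [IsProbabilityMeasure μ]

/-- **The core theorem for pairs.** -/
theorem core_pair
    (hνp : MeasurePreserving (fun x : UnitAddCircle => p • x) ν ν)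
    (hνq : MeasurePreserving (fun x : UnitAddCircle => q • x) ν ν)
    (hμp : MeasurePreserving (fun x : UnitAddCircle => p • x) μ μ)
    (hμq : MeasurePreserving (fun x : UnitAddCircle => q • x) μ μ)
    (hsing : μ.MutuallySingular volume)
    {F : ℕ → Finset (ℕ × ℕ)} (hF : Folner F) (c : ℤ)
    (ω : Measure UnitAddCircle) [IsProbabilityMeasure ω]
    {E : Set (UnitAddCircle × UnitAddCircle)} (hEm : MeasurableSet E)
    (hE0 : (ν.prod ω) E ≠ 0) {K : ℝ≥0∞} (hK : K ≠ ∞)
    (hEK : ∀ B : Set UnitAddCircle, MeasurableSet B →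
      (ν.prod ω) (E ∩ {z : UnitAddCircle × UnitAddCircle | c • z.1 + z.2 ∈ B}) ≤ K * μ B)
    (𝒰 : Ultrafilter ℕ)
    {κ : Measure UnitAddCircle} [IsProbabilityMeasure κ]
    (hκ : ∀ g : C(UnitAddCircle, ℝ), Tendsto (fun k => ∫ z, ave p q (F k) g z.2
      ∂(ProbabilityTheory.cond (ν.prod ω) E)) (𝒰 : Filter ℕ) (𝓝 (∫ x, g x ∂κ))) :
    κ.MutuallySingular volume := by
  by_contra hκ0
  set θ := ν.map (fun x : UnitAddCircle => c • x) with hθ
  have hθprob : IsProbabilityMeasure θ := Measure.isProbabilityMeasure_map (zsmul_meas c).aemeasurable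
  have hS : ∀ i j : ℕ, MeasurePreserving (fun x : UnitAddCircle => (p ^ i * q ^ j) • x) ν ν := by
    intro i j
    have h3 := ((act_pow hνp).mp i).comp ((act_pow hνq).mp j)
    convert h3 using 1
    funext x
    simp only [Function.comp, mul_smul]
  have hSμ : ∀ i j : ℕ, MeasurePreserving (fun x : UnitAddCircle => (p ^ i * q ^ j) • x) μ μ := by
    intro i j
    have h3 := ((act_pow hμp).mp i).comp ((act_pow hμq).mp j)
    convert h3 using 1
    funext x
    simp only [Function.comp, mul_smul]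
  set ρ₀ := ProbabilityTheory.cond (ν.prod ω) E with hρ₀
  have hρ₀p : IsProbabilityMeasure ρ₀ := ProbabilityTheory.cond_isProbabilityMeasure hE0
  have hψ : Measurable (fun z : UnitAddCircle × UnitAddCircle => (c • z.1 + z.2, z.2)) :=
    (psi_cont c).measurable
  set ρ := ρ₀.map (fun z : UnitAddCircle × UnitAddCircle => (c • z.1 + z.2, z.2)) with hρ
  have hρp : IsProbabilityMeasure ρ := Measure.isProbabilityMeasure_map hψ.aemeasurable
  obtain ⟨J, hJp, hJl⟩ := lim_exists (X := UnitAddCircle × UnitAddCircle) (p := p) (q := q) hF 𝒰 ρ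
  obtain ⟨κ₁, hκ₁p, hκ₁⟩ := lim_exists (X := UnitAddCircle) (p := p) (q := q) hF 𝒰 ω
  have hint : ∀ (G : C(UnitAddCircle × UnitAddCircle, ℝ)) (k : ℕ),
      ∫ z, aveX p q (F k) G z ∂ρ =
        ∫ z, aveX p q (F k) G (c • z.1 + z.2, z.2) ∂ρ₀ := by
    intro G k
    rw [hρ, integral_map hψ.aemeasurable (aveX_cont G).aestronglyMeasurable]
  -- the first marginal
  set K' : ℝ≥0∞ := ((ν.prod ω) E)⁻¹ * K with hK'
  have hK't : K' ≠ ∞ := ENNReal.mul_ne_top (ENNReal.inv_ne_top.mpr hE0) hK
  have hK0 : K ≠ 0 := by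
    rintro rfl
    have h1 := hEK Set.univ MeasurableSet.univ
    rw [zero_mul] at h1
    apply hE0
    refine le_antisymm (le_trans (measure_mono ?_) h1) zero_le
    intro z hz
    exact ⟨hz, trivial⟩
  have hK'0 : K' ≠ 0 := mul_ne_zero (ENNReal.inv_ne_zero.mpr (measure_ne_top _ _)) hK0
  have hfst : J.map Prod.fst ≪ μ := by
    have : IsFiniteMeasure (J.map (Prod.fst : UnitAddCircle × UnitAddCircle → UnitAddCircle)) := by
      infer_instance
    refine ac_of_le (ENNReal.toReal_pos hK'0 hK't) fun g hg => ?_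
    rw [integral_map measurable_fst.aemeasurable g.continuous.aestronglyMeasurable]
    have h1 := hJl (g.comp ⟨Prod.fst, continuous_fst⟩)
    have hlaw : ρ₀.map (fun z : UnitAddCircle × UnitAddCircle => c • z.1 + z.2) ≤ K' • μ := by
      refine Measure.le_iff.mpr fun B hB => ?_
      rw [Measure.map_apply (lc_meas c) hB, hρ₀, ProbabilityTheory.cond_apply hEm,
        Measure.smul_apply, smul_eq_mul, hK', mul_assoc]
      exact mul_le_mul_right (hEK B hB) _
    have h2 : ∀ k, ∫ z, aveX p q (F k) (g.comp ⟨Prod.fst, continuous_fst⟩) z ∂ρ ≤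
        K'.toReal * ∫ x, g x ∂μ := by
      intro k
      rw [hint]
      have hnn : ∀ x, 0 ≤ aveX p q (F k) g x := fun x =>
        mul_nonneg (by positivity) (Finset.sum_nonneg fun n _ => hg _)
      have h3 : ∫ z, aveX p q (F k) (g.comp ⟨Prod.fst, continuous_fst⟩) (c • z.1 + z.2, z.2) ∂ρ₀ =
          ∫ x, aveX p q (F k) g x
            ∂(ρ₀.map (fun z : UnitAddCircle × UnitAddCircle => c • z.1 + z.2)) := by
        rw [integral_map (lc_meas c).aemeasurable (aveX_cont g).aestronglyMeasurable]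
        rfl
      have h4 : ∫ x, aveX p q (F k) g x
            ∂(ρ₀.map (fun z : UnitAddCircle × UnitAddCircle => c • z.1 + z.2)) ≤
          K'.toReal * ∫ x, aveX p q (F k) g x ∂μ := by
        rw [← smul_eq_mul, ← integral_smul_measure]
        have : IsFiniteMeasure (K' • μ) := ⟨by
          rw [Measure.smul_apply, measure_univ, smul_eq_mul, mul_one]
          exact lt_top_iff_ne_top.mpr hK't⟩
        exact integral_mono_measure hlaw (Eventually.of_forall hnn) (int_contX _ ⟨_, aveX_cont g⟩)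
      have h5 : ∫ x, aveX p q (F k) g x ∂μ = ∫ x, g x ∂μ := by
        unfold aveX
        rw [integral_const_mul, integral_finsetSum]
        · have h6 : ∀ n ∈ F k, ∫ x, g ((p ^ n.1 * q ^ n.2) • x) ∂μ = ∫ x, g x ∂μ := by
            intro n _
            have h7 := integral_map (μ := μ) (hSμ n.1 n.2).measurable.aemeasurable
              (f := fun x => g x) g.continuous.aestronglyMeasurable
            rw [(hSμ n.1 n.2).map_eq] at h7
            exact h7.symm
          rw [Finset.sum_congr rfl h6, Finset.sum_const, nsmul_eq_mul, ← mul_assoc,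
            inv_mul_cancel₀, one_mul]
          exact_mod_cast (hF.1 k).card_pos.ne'
        · intro n _
          exact int_contX _ (g.comp (mulX (p ^ n.1 * q ^ n.2)))
      rw [h3]
      rwa [h5] at h4
    exact le_of_tendsto h1 (Eventually.of_forall h2)
  -- the second marginal
  have hsnd : J.map Prod.snd = κ := by
    have : IsFiniteMeasure (J.map (Prod.snd : UnitAddCircle × UnitAddCircle → UnitAddCircle)) := by
      infer_instance
    refine ext_of_forall_integral_eq_of_IsFiniteMeasure fun f => ?_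
    rw [integral_map measurable_snd.aemeasurable f.continuous.aestronglyMeasurable]
    set g : C(UnitAddCircle, ℝ) := f.toContinuousMap with hg
    have h1 := hJl (g.comp ⟨Prod.snd, continuous_snd⟩)
    have h2 : ∀ k, ∫ z, aveX p q (F k) (g.comp ⟨Prod.snd, continuous_snd⟩) z ∂ρ =
        ∫ z, ave p q (F k) g z.2 ∂ρ₀ := by
      intro k
      rw [hint]
      rfl
    exact tendsto_nhds_unique (h1.congr h2) (hκ g)
  -- domination
  set Φ := (θ.prod κ₁).map (fun z : UnitAddCircle × UnitAddCircle => (z.1 + z.2, z.2)) with hΦ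
  have hΦp : IsProbabilityMeasure Φ := Measure.isProbabilityMeasure_map phi_meas.aemeasurable
  set D : ℝ := (((ν.prod ω) E)⁻¹).toReal with hD
  have hD0 : 0 < D := ENNReal.toReal_pos (ENNReal.inv_ne_zero.mpr (measure_ne_top _ _))
    (ENNReal.inv_ne_top.mpr hE0)
  have hJΦ : J ≪ Φ := by
    refine ac_of_leX hD0 fun G hG => ?_
    rw [hΦ, int_phi]
    refine le_of_tendsto_of_tendsto (hJl G) ((hκ₁ (smo2 θ G)).const_mul D) ?_
    refine Eventually.of_forall fun k => ?_
    show ∫ z, aveX p q (F k) G z ∂ρ ≤ D * ∫ x, aveX p q (F k) (smo2 θ G) x ∂ω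
    rw [hint]
    have hcc : Continuous (fun z : UnitAddCircle × UnitAddCircle =>
        aveX p q (F k) G (c • z.1 + z.2, z.2)) := (aveX_cont G).comp (psi_cont c)
    have hnn : ∀ z, 0 ≤ aveX p q (F k) G z := by
      intro z
      unfold aveX
      exact mul_nonneg (by positivity) (Finset.sum_nonneg fun n _ => hG _)
    have h1 : ∫ z, aveX p q (F k) G (c • z.1 + z.2, z.2) ∂ρ₀ ≤
        D * ∫ z, aveX p q (F k) G (c • z.1 + z.2, z.2) ∂(ν.prod ω) := by
      rw [hρ₀, ProbabilityTheory.cond, integral_smul_measure, smul_eq_mul]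
      apply mul_le_mul_of_nonneg_left _ hD0.le
      exact setIntegral_le_integral (int_contX _ ⟨_, hcc⟩) (Eventually.of_forall fun z => hnn _)
    refine h1.trans (le_of_eq ?_)
    congr 1
    unfold aveX
    rw [integral_const_mul, integral_const_mul]
    congr 1
    rw [integral_finsetSum, integral_finsetSum]
    · refine Finset.sum_congr rfl fun n _ => ?_
      exact int_one (hS n.1 n.2) c G
    · intro n _
      exact int_contX _ ((smo2 θ G).comp (mulX (p ^ n.1 * q ^ n.2)))
    · intro n _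
      exact int_contX _ (((G.comp (mulX (p ^ n.1 * q ^ n.2))).comp ⟨_, psi_cont c⟩))
  -- the singular part of the limit of the noise
  obtain ⟨N, hN, hN1, hN2⟩ := Measure.mutuallySingular_singularPart κ₁
    (volume : Measure UnitAddCircle)
  have hκN : κ N ≠ 0 := fun h0 => hκ0 ⟨N, hN, h0, hN2⟩
  have hac : ∀ B : Set UnitAddCircle, volume B = 0 → κ₁ (N ∩ B) = 0 := by
    intro B hB
    have h1 : κ₁ = κ₁.singularPart volume + volume.withDensity (κ₁.rnDeriv volume) :=
      (Measure.haveLebesgueDecomposition_spec κ₁ volume).2.2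
    rw [h1, Measure.add_apply, measure_mono_null Set.inter_subset_left hN1, zero_add]
    exact withDensity_absolutelyContinuous volume _ (measure_mono_null Set.inter_subset_right hB)
  obtain ⟨M, hM, hM1, hM2⟩ := hsing
  have hJ1 : J (Prod.fst ⁻¹' M) = 0 := by
    rw [← Measure.map_apply measurable_fst hM]
    exact hfst hM1
  have hJ2 : J (Prod.fst ⁻¹' Mᶜ ∩ Prod.snd ⁻¹' N) = 0 := by
    apply hJΦ
    have hm : MeasurableSet ((Prod.fst ⁻¹' Mᶜ ∩ Prod.snd ⁻¹' N :
        Set (UnitAddCircle × UnitAddCircle))) := (measurable_fst hM.compl).inter (measurable_snd hN)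
    rw [hΦ, Measure.map_apply phi_meas hm, Measure.prod_apply (phi_meas hm)]
    have h1 : ∀ v : UnitAddCircle, κ₁ (Prod.mk v ⁻¹' ((fun z : UnitAddCircle × UnitAddCircle =>
        (z.1 + z.2, z.2)) ⁻¹' (Prod.fst ⁻¹' Mᶜ ∩ Prod.snd ⁻¹' N))) = 0 := by
      intro v
      have h2 : (Prod.mk v ⁻¹' ((fun z : UnitAddCircle × UnitAddCircle =>
        (z.1 + z.2, z.2)) ⁻¹' (Prod.fst ⁻¹' Mᶜ ∩ Prod.snd ⁻¹' N))) =
          N ∩ ((fun y => v + y) ⁻¹' Mᶜ) := by
        ext y
        simp only [Set.mem_preimage, Set.mem_inter_iff]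
        exact and_comm
      rw [h2]
      apply hac
      rw [measure_preimage_add]
      exact hM2
    simp only [h1, lintegral_zero]
  apply hκN
  rw [← hsnd, Measure.map_apply measurable_snd hN]
  refine measure_mono_null (t := Prod.fst ⁻¹' M ∪ (Prod.fst ⁻¹' Mᶜ ∩ Prod.snd ⁻¹' N)) ?_
    (measure_union_null hJ1 hJ2)
  intro z hz
  by_cases h : z.1 ∈ M
  · left; exact h
  · right; exact ⟨h, hz⟩

/-- a set where the law is bounded by a multiple of `μ` -/
lemma exists_bdd_set {μ N : Measure UnitAddCircle} [IsProbabilityMeasure μ] [IsProbabilityMeasure N]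
    (hns : ¬ μ.MutuallySingular N) :
    ∃ (S : Set UnitAddCircle) (K : ℕ), MeasurableSet S ∧ N S ≠ 0 ∧
      ∀ B : Set UnitAddCircle, MeasurableSet B → N (S ∩ B) ≤ (K : ℝ≥0∞) * μ B := by
  obtain ⟨S, hS, hS0, hac⟩ := exists_ac_set hns
  have hac' : N.restrict S ≪ μ := by
    refine Measure.AbsolutelyContinuous.mk fun B hB hB0 => ?_
    rw [Measure.restrict_apply hB]
    exact hac B hB hB0
  have hld : (N.restrict S).HaveLebesgueDecomposition μ :=
    Measure.haveLebesgueDecomposition_of_sigmaFinite _ _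
  set f := (N.restrict S).rnDeriv μ with hf
  have hfm : Measurable f := Measure.measurable_rnDeriv _ _
  have hwd : μ.withDensity f = N.restrict S := Measure.withDensity_rnDeriv_eq _ _ hac'
  have hlt : ∀ᵐ x ∂μ, f x < ∞ := Measure.rnDeriv_lt_top _ _
  set T : ℕ → Set UnitAddCircle := fun K => {x | f x ≤ K} with hT
  have hTm : ∀ K, MeasurableSet (T K) := fun K => measurableSet_le hfm measurable_const
  have hex : ∃ K, N (S ∩ T K) ≠ 0 := by
    by_contra hcon
    push Not at hcon
    apply hS0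
    have h1 : N (S ∩ ⋃ K, T K) = 0 := by
      rw [Set.inter_iUnion]
      exact measure_iUnion_null hcon
    have h2 : N (S ∩ (⋃ K, T K)ᶜ) = 0 := by
      have h3 : (N.restrict S) ((⋃ K, T K)ᶜ) = 0 := by
        apply hac'
        refine measure_mono_null (fun x hx => ?_) hlt
        intro hx2
        apply hx
        obtain ⟨n, hn⟩ := ENNReal.exists_nat_gt hx2.ne
        exact Set.mem_iUnion.mpr ⟨n, hn.le⟩
      rw [Measure.restrict_apply (MeasurableSet.iUnion hTm).compl, Set.inter_comm] at h3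
      exact h3
    refine measure_mono_null (t := (S ∩ ⋃ K, T K) ∪ (S ∩ (⋃ K, T K)ᶜ)) (fun x hx => ?_)
      (measure_union_null h1 h2)
    by_cases h : x ∈ ⋃ K, T K
    · left; exact ⟨hx, h⟩
    · right; exact ⟨hx, h⟩
  obtain ⟨K, hK⟩ := hex
  refine ⟨S ∩ T K, K, hS.inter (hTm K), hK, fun B hB => ?_⟩
  have h1 : N (S ∩ T K ∩ B) = (N.restrict S) (T K ∩ B) := by
    rw [Measure.restrict_apply ((hTm K).inter hB)]
    congr 1
    ext x
    simp only [Set.mem_inter_iff]
    tauto
  rw [h1, ← hwd, withDensity_apply _ ((hTm K).inter hB)]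
  calc ∫⁻ x in T K ∩ B, f x ∂μ ≤ ∫⁻ _x in T K ∩ B, (K : ℝ≥0∞) ∂μ := by
        refine setLIntegral_mono measurable_const fun x hx => hx.1
    _ = K * μ (T K ∩ B) := setLIntegral_const _ _
    _ ≤ K * μ B := mul_le_mul_right (measure_mono Set.inter_subset_right) _

/-- a level set of the slices -/
lemma exists_levelP {N ω : Measure UnitAddCircle} [IsProbabilityMeasure N] [IsProbabilityMeasure ω]
    {E : Set (UnitAddCircle × UnitAddCircle)} (hE : MeasurableSet E) (hE0 : (N.prod ω) E ≠ 0) :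
    ∃ δ : ℝ≥0∞, δ ≠ 0 ∧ δ ≠ ∞ ∧ MeasurableSet {y | δ ≤ N ((fun x => (x, y)) ⁻¹' E)} ∧
      ω {y | δ ≤ N ((fun x => (x, y)) ⁻¹' E)} ≠ 0 := by
  set h : UnitAddCircle → ℝ≥0∞ := fun y => N ((fun x => (x, y)) ⁻¹' E) with hh
  have hhm : Measurable h := measurable_measure_prodMk_right hE
  by_contra hcon
  push Not at hcon
  apply hE0
  rw [Measure.prod_apply_symm hE, lintegral_eq_zero_iff hhm]
  have h1 : ∀ᵐ y ∂ω, ∀ n : ℕ, ¬ (((n : ℝ≥0∞) + 1)⁻¹ ≤ h y) := by
    rw [ae_all_iff]
    intro n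
    rw [ae_iff]
    simp only [not_not]
    refine hcon _ ?_ ?_ (measurableSet_le measurable_const hhm)
    · rw [ENNReal.inv_ne_zero]
      exact ENNReal.add_ne_top.mpr ⟨ENNReal.natCast_ne_top n, ENNReal.one_ne_top⟩
    · rw [ENNReal.inv_ne_top]
      simp
  filter_upwards [h1] with y hy
  by_contra h2
  obtain ⟨n, hn⟩ := ENNReal.exists_inv_nat_lt h2
  refine hy n (le_trans ?_ hn.le)
  rw [ENNReal.inv_le_inv]
  exact le_self_add

/-- **Pairs of invariant measures and noise which is not thin** -/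
theorem pair_singular
    (hνp : MeasurePreserving (fun x : UnitAddCircle => p • x) ν ν)
    (hνq : MeasurePreserving (fun x : UnitAddCircle => q • x) ν ν)
    (hμp : MeasurePreserving (fun x : UnitAddCircle => p • x) μ μ)
    (hμq : MeasurePreserving (fun x : UnitAddCircle => q • x) μ μ)
    (hsing : μ.MutuallySingular volume) (c : ℤ)
    (ω : Measure UnitAddCircle) [IsProbabilityMeasure ω]
    (hω : ∀ D : Set UnitAddCircle, MeasurableSet D → ω D ≠ 0 →
      ¬ Thin p q (ProbabilityTheory.cond ω D)) :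
    μ.MutuallySingular ((ν.prod ω).map (fun z : UnitAddCircle × UnitAddCircle =>
      c • z.1 + z.2)) := by
  by_contra hns
  have hs := lc_meas c
  have hNp : IsProbabilityMeasure ((ν.prod ω).map (fun z : UnitAddCircle × UnitAddCircle =>
      c • z.1 + z.2)) := Measure.isProbabilityMeasure_map hs.aemeasurable
  obtain ⟨S, K, hS, hS0, hSK⟩ := exists_bdd_set hns
  have hE₀m : MeasurableSet {z : UnitAddCircle × UnitAddCircle | c • z.1 + z.2 ∈ S} := hs hS
  have hE₀ : (ν.prod ω) {z : UnitAddCircle × UnitAddCircle | c • z.1 + z.2 ∈ S} ≠ 0 := by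
    rw [Measure.map_apply hs hS] at hS0
    exact hS0
  obtain ⟨δ, hδ0, hδt, hDm, hδ⟩ := exists_levelP hE₀m hE₀
  set h : UnitAddCircle → ℝ≥0∞ := fun y => ν ((fun x => (x, y)) ⁻¹'
    {z : UnitAddCircle × UnitAddCircle | c • z.1 + z.2 ∈ S}) with hh
  set D := {y | δ ≤ h y} with hD
  have hcondp : IsProbabilityMeasure (ProbabilityTheory.cond ω D) :=
    ProbabilityTheory.cond_isProbabilityMeasure hδ
  have hnt := hω D hDm hδ
  unfold Thin at hnt
  push Not at hnt
  obtain ⟨F, hF, κ, hκp, hlim, hκs⟩ := hnt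
  set 𝒰 : Ultrafilter ℕ := Filter.hyperfilter ℕ with h𝒰
  set E : Set (UnitAddCircle × UnitAddCircle) := {z | z.2 ∈ D ∧ c • z.1 + z.2 ∈ S} with hE
  have hEm : MeasurableSet E := (measurable_snd hDm).inter (hs hS)
  set M := ((ν.prod ω).restrict E).map (Prod.snd : UnitAddCircle × UnitAddCircle → UnitAddCircle)
    with hM
  have hMle : δ • ω.restrict D ≤ M := by
    refine Measure.le_iff.mpr fun B hB => ?_
    rw [Measure.smul_apply, smul_eq_mul, Measure.restrict_apply hB, hM,
      Measure.map_apply measurable_snd hB, Measure.restrict_apply (measurable_snd hB),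
      Measure.prod_apply_symm ((measurable_snd hB).inter hEm)]
    calc δ * ω (B ∩ D) = ∫⁻ _y in B ∩ D, δ ∂ω := by
          rw [setLIntegral_const]
      _ ≤ ∫⁻ y in B ∩ D, ν ((fun x => (x, y)) ⁻¹' (Prod.snd ⁻¹' B ∩ E)) ∂ω := by
          refine lintegral_mono_ae ?_
          filter_upwards [ae_restrict_mem (hB.inter hDm)] with y h2
          have h3 : δ ≤ h y := h2.2
          exact h3.trans (measure_mono fun x hx => ⟨h2.1, h2.2, hx⟩)
      _ ≤ ∫⁻ y, ν ((fun x => (x, y)) ⁻¹' (Prod.snd ⁻¹' B ∩ E)) ∂ω := setLIntegral_le_lintegral _ _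
  have hE0 : (ν.prod ω) E ≠ 0 := by
    intro h0
    have h1 := hMle Set.univ
    rw [hM, Measure.map_apply measurable_snd MeasurableSet.univ, Set.preimage_univ,
      Measure.restrict_apply_univ, h0, Measure.smul_apply, Measure.restrict_apply_univ,
      smul_eq_mul] at h1
    rcases mul_eq_zero.mp (le_antisymm h1 zero_le) with h2 | h2
    · exact hδ0 h2
    · exact hδ h2
  set ρ₀ := ProbabilityTheory.cond (ν.prod ω) E with hρ₀
  have hρ₀p : IsProbabilityMeasure ρ₀ := ProbabilityTheory.cond_isProbabilityMeasure hE0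
  set σ := ρ₀.map (Prod.snd : UnitAddCircle × UnitAddCircle → UnitAddCircle) with hσ
  have hσp : IsProbabilityMeasure σ := Measure.isProbabilityMeasure_map measurable_snd.aemeasurable
  have hint : ∀ (g : C(UnitAddCircle, ℝ)), ∫ x, g x ∂σ = ∫ z, g z.2 ∂ρ₀ := by
    intro g
    rw [hσ, integral_map measurable_snd.aemeasurable g.continuous.aestronglyMeasurable]
  obtain ⟨κ', hκ'p, hκ'⟩ := lim_exists (X := UnitAddCircle) (p := p) (q := q) hF 𝒰 σ
  have h1 : κ'.MutuallySingular volume := by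
    refine core_pair hνp hνq hμp hμq hsing hF c ω hEm hE0 (K := (K : ℝ≥0∞))
      (ENNReal.natCast_ne_top K) (fun B hB => ?_) 𝒰 fun g => ?_
    · refine le_trans ?_ (hSK B hB)
      rw [Measure.map_apply hs (hS.inter hB)]
      exact measure_mono fun z hz => ⟨hz.1.2, hz.2⟩
    · refine (hκ' g).congr fun k => ?_
      exact hint ⟨_, aveX_cont g⟩
  -- domination
  set C : ℝ≥0∞ := (ω D)⁻¹ * δ⁻¹ * (ν.prod ω) E with hC
  have hωD : ω D ≠ ∞ := measure_ne_top _ _
  have hCt : C ≠ ∞ := ENNReal.mul_ne_top (ENNReal.mul_ne_top (ENNReal.inv_ne_top.mpr hδ)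
    (ENNReal.inv_ne_top.mpr hδ0)) (measure_ne_top _ _)
  have hC0 : C ≠ 0 := mul_ne_zero (mul_ne_zero (ENNReal.inv_ne_zero.mpr hωD)
    (ENNReal.inv_ne_zero.mpr hδt)) hE0
  have hσM : C • σ = ((ω D)⁻¹ * δ⁻¹) • M := by
    rw [hσ, hρ₀, ProbabilityTheory.cond, Measure.map_smul, smul_smul, hC, mul_assoc _ _ ((ν.prod ω) E)⁻¹,
      ENNReal.mul_inv_cancel hE0 (measure_ne_top _ _), mul_one]
  have hle : ProbabilityTheory.cond ω D ≤ C • σ := by
    rw [hσM]
    have h2 : ProbabilityTheory.cond ω D = ((ω D)⁻¹ * δ⁻¹) • (δ • ω.restrict D) := by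
      rw [ProbabilityTheory.cond, smul_smul, mul_assoc, ENNReal.inv_mul_cancel hδ0 hδt, mul_one]
    rw [h2]
    refine Measure.le_iff.mpr fun B _ => ?_
    rw [Measure.smul_apply, Measure.smul_apply ((ω D)⁻¹ * δ⁻¹) M]
    exact mul_le_mul_right (hMle B) _
  have hdom : ∀ g : C(UnitAddCircle, ℝ), (∀ x, 0 ≤ g x) →
      ∫ x, g x ∂(ProbabilityTheory.cond ω D) ≤ C.toReal * ∫ x, g x ∂σ := by
    intro g hg
    rw [← smul_eq_mul, ← integral_smul_measure]
    have : IsFiniteMeasure (C • σ) := ⟨by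
      rw [Measure.smul_apply, measure_univ, smul_eq_mul, mul_one]
      exact lt_top_iff_ne_top.mpr hCt⟩
    exact integral_mono_measure hle (Eventually.of_forall hg) (int_cont _ g)
  have hdom2 : ∀ g : C(UnitAddCircle, ℝ), (∀ x, 0 ≤ g x) →
      ∫ x, g x ∂κ ≤ C.toReal * ∫ x, g x ∂κ' := by
    intro g hg
    refine le_of_tendsto_of_tendsto ((hlim g).mono_left hyper_le) ((hκ' g).const_mul C.toReal)
      (Eventually.of_forall fun k => ?_)
    refine hdom ⟨_, aveX_cont g⟩ fun x => ?_
    exact mul_nonneg (by positivity) (Finset.sum_nonneg fun n _ => hg _)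
  have hac : κ ≪ κ' := ac_of_le (ENNReal.toReal_pos hC0 hCt) hdom2
  exact hκs (h1.mono_ac hac Measure.AbsolutelyContinuous.rfl)

end

end Pool.Agent.Zk32
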