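import Mathlib
import Pool.Agent.Zk32.Gp12
import Pool.Agent.Zk32.Gp10

/-!
Noise with mass at one scale is not thin
-/

set_option autoImplicit false
set_option linter.unusedSectionVars false

open MeasureTheory Filter Topology Set
open scoped ENNReal NNReal BoundedContinuousFunction

namespace Pool.Agent.Zk32

open Pool.Agent.W764.HL (win mem_win)

lemma rad_tendsto : Tendsto rad atTop (𝓝 0) := by
  have h4 : ∀ j : ℕ, rad j = (1 / 8) * (1 / ((j : ℝ) + 1)) := by
    intro j
    unfold rad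
    field_simp
  simp only [funext h4]
  have := (tendsto_one_div_add_atTop_nhds_zero_nat (𝕜 := ℝ)).const_mul (1 / 8 : ℝ)
  rwa [mul_zero] at this

/-- a bound for small arcs gives absolute continuity -/
theorem ac_of_tent {κ : Measure UnitAddCircle} [IsProbabilityMeasure κ] {C : ℝ} (hC : 0 < C)
    (h : ∀ (x : UnitAddCircle) (j : ℕ), ∫ z, tent x (rad j) z ∂κ ≤ C * rad j) : κ ≪ volume := by
  refine ac_of_le (D := 2 * C) (by positivity) fun g hg => le_of_forall_pos_le_add fun ε hε => ?_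
  have hu : UniformContinuous g := CompactSpace.uniformContinuous_of_continuous g.continuous
  obtain ⟨δ, hδ, hδg⟩ := Metric.uniformContinuous_iff.mp hu ε hε
  obtain ⟨r, hr0, hr8, hj, h⟩ : ∃ r : ℝ, 0 < r ∧ r ≤ 1 / 8 ∧ r < δ ∧
      ∀ x : UnitAddCircle, ∫ z, tent x r z ∂κ ≤ C * r := by
    obtain ⟨j, hj⟩ := ((tendsto_order.mp rad_tendsto).2 δ hδ).exists
    exact ⟨rad j, rad_pos j, rad_le j, hj, fun x => h x j⟩
  set c : ℝ := ∫ x : UnitAddCircle, tent x r 0 with hc
  have hcz : ∀ z : UnitAddCircle, ∫ x : UnitAddCircle, tent x r z = c := by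
    intro z
    rw [← integral_add_right_eq_self (μ := (volume : Measure UnitAddCircle))
      (fun x => tent x r z) z]
    congr 1
    funext x
    change max 0 (1 - ‖z - (x + z)‖ / r) = max 0 (1 - ‖0 - x‖ / r)
    congr 3
    congr 1
    abel
  have hcr : r / 2 ≤ c := by
    have h1 : ∫ x : UnitAddCircle, (Metric.closedBall (0 : UnitAddCircle) (r / 2)).indicator
        (fun _ => (1 / 2 : ℝ)) x ≤ c := by
      rw [hc]
      have hcx : Continuous (fun x : UnitAddCircle => tent x r 0) := by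
        change Continuous (fun x : UnitAddCircle => max 0 (1 - ‖0 - x‖ / r))
        fun_prop
      refine integral_mono ((integrable_const _).indicator Metric.isClosed_closedBall.measurableSet)
        (int_cont volume ⟨_, hcx⟩) fun x => ?_
      by_cases hx : x ∈ Metric.closedBall (0 : UnitAddCircle) (r / 2)
      · simp only
        rw [Set.indicator_of_mem hx]
        refine le_max_of_le_right ?_
        rw [mem_closedBall_zero_iff] at hx
        have : ‖(0 : UnitAddCircle) - x‖ / r ≤ 1 / 2 := by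
          rw [zero_sub, norm_neg, div_le_iff₀ hr0]
          linarith
        linarith
      · simp only
        rw [Set.indicator_of_notMem hx]
        exact tent_nonneg _ _ _
    rw [integral_indicator_const _ Metric.isClosed_closedBall.measurableSet, Measure.real,
      AddCircle.volume_closedBall, smul_eq_mul] at h1
    have h2 : min (1 : ℝ) (2 * (r / 2)) = r := by
      have e : 2 * (r / 2) = r := by ring
      rw [e]
      exact min_eq_right (by linarith)
    rw [h2, ENNReal.toReal_ofReal hr0.le] at h1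
    linarith
  have hc0 : 0 < c := by linarith
  -- the lower bound
  have h1 : ∀ z : UnitAddCircle, (g z - ε) * c ≤ ∫ x : UnitAddCircle, g x * tent x r z := by
    intro z
    have hcx : Continuous (fun x : UnitAddCircle => tent x r z) := by
      change Continuous (fun x : UnitAddCircle => max 0 (1 - ‖z - x‖ / r))
      fun_prop
    have hcg : Continuous (fun x : UnitAddCircle => g x * tent x r z) := g.continuous.mul hcx
    rw [← hcz z, ← integral_const_mul]
    refine integral_mono ((int_cont volume ⟨_, hcx⟩).const_mul _)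
      (int_cont volume ⟨_, hcg⟩) fun x => ?_
    simp only
    by_cases hx : r < ‖z - x‖
    · rw [tent_zero x hr0 hx, mul_zero, mul_zero]
    · refine mul_le_mul_of_nonneg_right ?_ (tent_nonneg _ _ _)
      have h2 := hδg (a := z) (b := x) (by
        rw [dist_eq_norm]; exact (not_lt.mp hx).trans_lt hj)
      rw [Real.dist_eq] at h2
      linarith [(abs_lt.mp h2).2]
  have hjc : Continuous (fun u : UnitAddCircle × UnitAddCircle => g u.2 * tent u.2 r u.1) := by
    change Continuous (fun u : UnitAddCircle × UnitAddCircle => g u.2 *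
      max 0 (1 - ‖u.1 - u.2‖ / r))
    fun_prop
  have hint : Integrable (Function.uncurry fun (z x : UnitAddCircle) => g x * tent x r z)
      (κ.prod volume) := int_contX _ ⟨_, hjc⟩
  have h2 : ∫ z, (g z - ε) * c ∂κ ≤ ∫ z, (∫ x : UnitAddCircle, g x * tent x r z) ∂κ := by
    refine integral_mono (((int_cont κ g).sub (integrable_const _)).mul_const _) ?_ h1
    exact hint.integral_prod_left
  rw [integral_integral_swap hint, integral_mul_const, integral_sub (int_cont κ g)
    (integrable_const _), integral_const, probReal_univ, one_smul] at h2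
  have h3 : ∫ x : UnitAddCircle, ∫ z, g x * tent x r z ∂κ ≤ ∫ x : UnitAddCircle, g x * (C * r) := by
    refine integral_mono hint.integral_prod_right ((int_cont volume g).mul_const _) fun x => ?_
    simp only
    rw [integral_const_mul]
    exact mul_le_mul_of_nonneg_left (h x) (hg x)
  rw [integral_mul_const] at h3
  have h4 : 0 ≤ ∫ x : UnitAddCircle, g x := integral_nonneg hg
  have h5 : (∫ x, g x ∂κ - ε) * c ≤ (∫ x : UnitAddCircle, g x) * (C * r) := h2.trans h3
  have h6 : (∫ x : UnitAddCircle, g x) * (C * r) ≤ (2 * C * ∫ x : UnitAddCircle, g x) * c := by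
    have h7 : (∫ x : UnitAddCircle, g x) * (C * r) ≤ (∫ x : UnitAddCircle, g x) * (C * (2 * c)) := by
      apply mul_le_mul_of_nonneg_left _ h4
      apply mul_le_mul_of_nonneg_left _ hC.le
      linarith
    linarith
  have h8 : ∫ x, g x ∂κ - ε ≤ 2 * C * ∫ x : UnitAddCircle, g x :=
    le_of_mul_le_mul_right (h5.trans h6) hc0
  linarith


/-- **Noise with mass at one scale is not thin.** -/
theorem bump_thin {p q : ℕ} (hp : 2 ≤ p) (hq : 2 ≤ q)
    (hirr : Irrational (Real.log p / Real.log q)) (ρ : Measure UnitAddCircle)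
    [IsProbabilityMeasure ρ] {b C : ℝ} (hb : 0 < b) (hC : 1 ≤ C) {a a' : ℕ → ℕ} {d : ℕ → ℝ}
    (hd : ∀ k, 0 < d k) (hd0 : Tendsto d atTop (𝓝 0))
    (h : ∀ k, b ≤ ρ.real {w | d k ≤ ‖(p ^ a k * q ^ a' k) • w‖ ∧
      ‖(p ^ a k * q ^ a' k) • w‖ ≤ C * d k}) : ¬ Thin p q ρ := by
  choose H δ hδ hgood using fun m : ℕ => good_windows hp hq hirr hC m
  have hk : ∀ m, ∃ k, d k < δ m := fun m =>
    ((tendsto_order.mp hd0).2 (δ m) (hδ m)).exists
  choose k hk using hk
  set τ : ℕ → ℝ := fun m => d (k m) with hτ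
  have hτ0 : ∀ m, 0 < τ m := fun m => hd _
  set W : ℕ → Finset ℕ := fun m => win p q (1 / τ m) (H m / τ m) with hW
  have hg := fun m => hgood m (τ m) (hτ0 m) (hk m)
  have hcard : ∀ m, (0 : ℝ) < (W m).card := fun m => by exact_mod_cast (hg m).1
  set F : ℕ → Finset (ℕ × ℕ) := fun m =>
    (winE p q (1 / τ m) (H m / τ m)).map (shE (a (k m)) (a' (k m))) with hFd
  have hFc : ∀ m, ((F m).card : ℝ) = (W m).card := fun m => by
    simp only [hFd, hW, Finset.card_map, card_winE hp hq hirr]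
  have h1m : Tendsto (fun m : ℕ => 1 / ((m : ℝ) + 1)) atTop (𝓝 0) :=
    tendsto_one_div_add_atTop_nhds_zero_nat
  have hF : Folner F := by
    refine ⟨fun m => ?_, ?_, ?_⟩
    · rw [← Finset.card_pos]
      have h2 := hcard m
      rw [← hFc m] at h2
      exact_mod_cast h2
    · refine squeeze_zero (fun m => by positivity) (fun m => ?_) h1m
      rw [hFc m, div_le_iff₀ (hcard m)]
      exact (leave_p hp hq hirr _ _).trans (hg m).2.1
    · refine squeeze_zero (fun m => by positivity) (fun m => ?_) h1m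
      rw [hFc m, div_le_iff₀ (hcard m)]
      exact (leave_q hp hq hirr _ _).trans (hg m).2.2.1
  rw [thin_iff]
  intro hall
  obtain ⟨𝒰, h𝒰⟩ : ∃ 𝒰 : Ultrafilter ℕ, (𝒰 : Filter ℕ) ≤ atTop := ⟨_, hyper_le⟩
  obtain ⟨κ, hκ, -, hl⟩ := lim_existsF (p := p) (q := q) hF.1 𝒰 ρ
  have hκv : κ.MutuallySingular volume := hall F hF 𝒰 h𝒰 κ hκ hl
  set N : ℕ → ℕ := fun m => p ^ a (k m) * q ^ a' (k m) with hN
  set S : ℕ → Set UnitAddCircle := fun m => {w | τ m ≤ ‖N m • w‖ ∧ ‖N m • w‖ ≤ C * τ m} with hS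
  have hSm : ∀ m, MeasurableSet (S m) := by
    intro m
    have hc : Continuous (fun w : UnitAddCircle => ‖N m • w‖) := by fun_prop
    exact (isClosed_le continuous_const hc).measurableSet.inter
      (isClosed_le hc continuous_const).measurableSet
  have hSb : ∀ m, b ≤ ρ.real (S m) := fun m => h (k m)
  have hS0 : ∀ m, ρ (S m) ≠ 0 := by
    intro m h0
    have := hSb m
    rw [Measure.real, h0] at this
    simp only [ENNReal.toReal_zero] at this
    linarith
  have hσp : ∀ m, IsProbabilityMeasure (ProbabilityTheory.cond ρ (S m)) := fun m =>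
    ProbabilityTheory.cond_isProbabilityMeasure (hS0 m)
  obtain ⟨κ', hκ'p, hκ'⟩ := lim_exists' (p := p) (q := q) hF.1 𝒰
    (fun m => ProbabilityTheory.cond ρ (S m)) hσp
  have hb1 : 0 < b⁻¹ := inv_pos.mpr hb
  have hdom : ∀ g : C(UnitAddCircle, ℝ), (∀ x, 0 ≤ g x) →
      ∫ x, g x ∂κ' ≤ b⁻¹ * ∫ x, g x ∂κ := by
    intro g hg0
    refine le_of_tendsto_of_tendsto (hκ' g) ((hl g).const_mul b⁻¹)
      (Eventually.of_forall fun m => ?_)
    have hnn : ∀ x, 0 ≤ aveX p q (F m) g x := fun x =>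
      mul_nonneg (by positivity) (Finset.sum_nonneg fun n _ => hg0 _)
    have hi : Integrable (aveX p q (F m) g) ρ := int_contX ρ ⟨_, aveX_cont g⟩
    have h2 : ∫ x, aveX p q (F m) g x ∂(ProbabilityTheory.cond ρ (S m)) =
        (ρ.real (S m))⁻¹ * ∫ x in S m, aveX p q (F m) g x ∂ρ := by
      rw [ProbabilityTheory.cond, integral_smul_measure, smul_eq_mul, ENNReal.toReal_inv]
      rfl
    change ∫ x, aveX p q (F m) g x ∂(ProbabilityTheory.cond ρ (S m)) ≤
      b⁻¹ * ∫ x, aveX p q (F m) g x ∂ρ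
    rw [h2]
    have h3 : ∫ x in S m, aveX p q (F m) g x ∂ρ ≤ ∫ x, aveX p q (F m) g x ∂ρ :=
      setIntegral_le_integral hi (Eventually.of_forall hnn)
    have h4 : 0 ≤ ∫ x in S m, aveX p q (F m) g x ∂ρ := integral_nonneg hnn
    have h5 : (ρ.real (S m))⁻¹ ≤ b⁻¹ := inv_anti₀ hb (hSb m)
    exact mul_le_mul h5 h3 h4 hb1.le
  have htent : ∀ (x : UnitAddCircle) (j : ℕ), ∫ y, tent x (rad j) y ∂κ' ≤ 80 * rad j := by
    intro x j
    have h4 : Tendsto (fun m : ℕ => 80 * rad j + 1 / ((m : ℝ) + 1)) (𝒰 : Filter ℕ)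
        (𝓝 (80 * rad j)) := by
      have := (h1m.const_add (80 * rad j)).mono_left h𝒰
      rwa [add_zero] at this
    refine le_of_tendsto_of_tendsto (hκ' (tent x (rad j))) h4 ?_
    filter_upwards [h𝒰 (eventually_ge_atTop j)] with m hm
    have h5 : ∀ᵐ w ∂(ProbabilityTheory.cond ρ (S m)), w ∈ S m :=
      ProbabilityTheory.ae_cond_mem (hSm m)
    have h6 : ∀ᵐ w ∂(ProbabilityTheory.cond ρ (S m)), aveX p q (F m) (tent x (rad j)) w ≤
        80 * rad j + 1 / ((m : ℝ) + 1) := by
      filter_upwards [h5] with w hw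
      have e : aveX p q (F m) (tent x (rad j)) w =
          ((W m).card : ℝ)⁻¹ * ∑ n ∈ W m, tent x (rad j) (n • (N m • w)) :=
        ave_shift_win hp hq hirr _ _ _ _
      rw [e, inv_mul_le_iff₀ (hcard m)]
      have h7 := (hg m).2.2.2 (N m • w) hw.1 hw.2 j hm x
      have h8 : ∑ n ∈ W m, tent x (rad j) (n • (N m • w)) ≤
          ((W m).filter fun n => ‖n • (N m • w) - x‖ ≤ rad j).card := by
        have h9 : ∑ n ∈ W m, tent x (rad j) (n • (N m • w)) ≤
            ∑ n ∈ W m, if ‖n • (N m • w) - x‖ ≤ rad j then (1 : ℝ) else 0 := by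
          refine Finset.sum_le_sum fun n _ => ?_
          split_ifs with h10
          · exact tent_le_one x (rad_pos j) _
          · exact (tent_zero x (rad_pos j) (not_le.mp h10)).le
        refine h9.trans (le_of_eq ?_)
        rw [Finset.sum_boole]
      refine h8.trans (h7.trans (le_of_eq ?_))
      ring
    have h7 : ∫ w, aveX p q (F m) (tent x (rad j)) w ∂(ProbabilityTheory.cond ρ (S m)) ≤
        ∫ _w, (80 * rad j + 1 / ((m : ℝ) + 1)) ∂(ProbabilityTheory.cond ρ (S m)) :=
      integral_mono_ae (int_contX _ ⟨_, aveX_cont (tent x (rad j))⟩) (integrable_const _) h6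
    rw [integral_const, probReal_univ, one_smul] at h7
    exact h7
  have hac : κ' ≪ volume := ac_of_tent (by norm_num) htent
  have hac2 : κ' ≪ κ := ac_of_le hb1 hdom
  have h0 : κ' = 0 := Measure.eq_zero_of_absolutelyContinuous_of_mutuallySingular hac
    (hκv.mono_ac hac2 Measure.AbsolutelyContinuous.rfl)
  have h1 : κ' Set.univ = 1 := measure_univ
  rw [h0] at h1
  simp at h1


/-- **Irrational numbers are not thin.** -/
theorem point_thin {p q : ℕ} (hp : 2 ≤ p) (hq : 2 ≤ q)
    (hirr : Irrational (Real.log p / Real.log q)) {t : UnitAddCircle} (ht : t ∉ Tor) :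
    ¬ Thin p q (Measure.dirac t) := by
  choose a b h1 h2 using fun k : ℕ => near_zero hp hq hirr ht
    (show (0 : ℝ) < 1 / ((k : ℝ) + 1) by positivity)
  refine bump_thin hp hq hirr _ one_pos le_rfl (a := a) (a' := b)
    (d := fun k => ‖(p ^ a k * q ^ b k) • t‖) h1 ?_ fun k => ?_
  · exact squeeze_zero (fun k => norm_nonneg _) (fun k => (h2 k).le)
      tendsto_one_div_add_atTop_nhds_zero_nat
  · have h3 : t ∈ {w : UnitAddCircle | ‖(p ^ a k * q ^ b k) • t‖ ≤ ‖(p ^ a k * q ^ b k) • w‖ ∧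
        ‖(p ^ a k * q ^ b k) • w‖ ≤ 1 * ‖(p ^ a k * q ^ b k) • t‖} := ⟨le_rfl, by rw [one_mul]⟩
    rw [Measure.real, Measure.dirac_apply_of_mem h3]
    simp

/-- the thin part has no irrational atoms -/
theorem no_irrational_thin {p q : ℕ} (hp : 2 ≤ p) (hq : 2 ≤ q)
    (hirr : Irrational (Real.log p / Real.log q)) (ω : Measure UnitAddCircle)
    [IsProbabilityMeasure ω] {R : Set UnitAddCircle} (hmax : ∀ B : Set UnitAddCircle,
      MeasurableSet B → ω B ≠ 0 → (Thin p q (ProbabilityTheory.cond ω B) ↔ ω (B \ R) = 0))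
    {t : UnitAddCircle} (ht : t ∉ Tor) (hat : ω {t} ≠ 0) : t ∉ R := by
  intro hR
  have h1 := (hmax {t} (measurableSet_singleton t) hat).mpr (by
    rw [Set.sdiff_eq_empty.mpr (Set.singleton_subset_iff.mpr hR), measure_empty])
  have h2 : ProbabilityTheory.cond ω {t} = Measure.dirac t := by
    rw [ProbabilityTheory.cond, Measure.restrict_singleton, smul_smul,
      ENNReal.inv_mul_cancel hat (measure_ne_top _ _), one_smul]
  rw [h2] at h1
  exact point_thin hp hq hirr ht h1

/-- **No mass at one scale on the thin part.** -/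
theorem thin_scale {p q : ℕ} (hp : 2 ≤ p) (hq : 2 ≤ q)
    (hirr : Irrational (Real.log p / Real.log q)) (ω : Measure UnitAddCircle)
    [IsProbabilityMeasure ω] {R : Set UnitAddCircle} (hR : MeasurableSet R)
    (h : ω R ≠ 0 → Thin p q (ProbabilityTheory.cond ω R)) {C ε : ℝ} (hC : 1 ≤ C) (hε : 0 < ε) :
    ∃ δ : ℝ, 0 < δ ∧ ∀ (a b : ℕ) (d : ℝ), 0 < d → d < δ →
      ω.real {w | w ∈ R ∧ d ≤ ‖(p ^ a * q ^ b) • w‖ ∧ ‖(p ^ a * q ^ b) • w‖ ≤ C * d} ≤ ε := by
  by_contra hcon
  push Not at hcon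
  have h1 : ∀ k : ℕ, ∃ (a b : ℕ) (d : ℝ), 0 < d ∧ d < 1 / ((k : ℝ) + 1) ∧
      ε < ω.real {w | w ∈ R ∧ d ≤ ‖(p ^ a * q ^ b) • w‖ ∧ ‖(p ^ a * q ^ b) • w‖ ≤ C * d} :=
    fun k => hcon _ (by positivity)
  choose a b d hd0 hd1 hm using h1
  have hR0 : ω R ≠ 0 := by
    intro h0
    have h2 := hm 0
    have h3 : ω.real {w | w ∈ R ∧ d 0 ≤ ‖(p ^ a 0 * q ^ b 0) • w‖ ∧
        ‖(p ^ a 0 * q ^ b 0) • w‖ ≤ C * d 0} = 0 := by
      rw [Measure.real, measure_mono_null (fun w hw => hw.1) h0]; rfl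
    rw [h3] at h2
    exact absurd h2 (not_lt.mpr hε.le)
  have hcp : IsProbabilityMeasure (ProbabilityTheory.cond ω R) :=
    ProbabilityTheory.cond_isProbabilityMeasure hR0
  have hd : Tendsto d atTop (𝓝 0) :=
    squeeze_zero (fun k => (hd0 k).le) (fun k => (hd1 k).le)
      tendsto_one_div_add_atTop_nhds_zero_nat
  refine bump_thin hp hq hirr (ProbabilityTheory.cond ω R) hε hC hd0 hd (a := a) (a' := b)
    (fun k => ?_) (h hR0)
  set S : Set UnitAddCircle := {w | d k ≤ ‖(p ^ a k * q ^ b k) • w‖ ∧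
    ‖(p ^ a k * q ^ b k) • w‖ ≤ C * d k} with hS
  have h2 : ε < ω.real (R ∩ S) := hm k
  have h3 : (ProbabilityTheory.cond ω R).real S = (ω.real R)⁻¹ * ω.real (R ∩ S) := by
    rw [Measure.real, ProbabilityTheory.cond_apply hR, ENNReal.toReal_mul, ENNReal.toReal_inv]
    rfl
  rw [h3]
  have h4 : ω.real R ≤ 1 := by
    have := measureReal_mono (μ := ω) (Set.subset_univ R)
    rwa [probReal_univ] at this
  have h5 : 0 < ω.real R := ENNReal.toReal_pos hR0 (measure_ne_top _ _)
  have h6 : 1 ≤ (ω.real R)⁻¹ := (one_le_inv₀ h5).mpr h4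
  have h7 : 0 ≤ ω.real (R ∩ S) := measureReal_nonneg
  nlinarith

end Pool.Agent.Zk32
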