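import Mathlib
import Pool.Agent.Zk32.Tu0
import Pool.Agent.Zk32.Gp13

/-!
A Folner sequence of far strips with Tempelman's condition
-/

set_option autoImplicit false
set_option linter.unusedSectionVars false

open MeasureTheory Filter Topology Set

namespace Pool.Agent.Zk32

open Pool.Agent.W764.HL (win mem_win near_inv arc_win card_large)

/-- good windows, as thick as one likes -/
lemma good_windowsH {p q : ℕ} (hp : 2 ≤ p) (hq : 2 ≤ q)
    (hirr : Irrational (Real.log p / Real.log q)) {C : ℝ} (hC : 1 ≤ C) (m : ℕ) (H₀ : ℝ) :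
    ∃ H δ : ℝ, H₀ ≤ H ∧ 0 < δ ∧ ∀ τ : ℝ, 0 < τ → τ < δ →
      0 < (win p q (1 / τ) (H / τ)).card ∧
      (((win p q (1 / τ) (H / τ)).filter fun n => H / τ ≤ ((p * n : ℕ) : ℝ)).card : ℝ) ≤
        (1 / ((m : ℝ) + 1)) * (win p q (1 / τ) (H / τ)).card ∧
      (((win p q (1 / τ) (H / τ)).filter fun n => H / τ ≤ ((q * n : ℕ) : ℝ)).card : ℝ) ≤
        (1 / ((m : ℝ) + 1)) * (win p q (1 / τ) (H / τ)).card ∧
      ∀ z : UnitAddCircle, τ ≤ ‖z‖ → ‖z‖ ≤ C * τ → ∀ j ≤ m, ∀ c : UnitAddCircle,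
        (((win p q (1 / τ) (H / τ)).filter fun n => ‖n • z - c‖ ≤ rad j).card : ℝ) ≤
          (80 * rad j + 1 / ((m : ℝ) + 1)) * (win p q (1 / τ) (H / τ)).card := by
  have hm : (0 : ℝ) < 1 / ((m : ℝ) + 1) := by positivity
  obtain ⟨Hp, -, h1⟩ := near_inv hp hq hirr hp hm
  obtain ⟨Hq, -, h2⟩ := near_inv hp hq hirr hq hm
  set H : ℝ := max (max (max Hp Hq) (max C (Real.exp 2))) H₀ with hH
  have e1 : Hp ≤ H := ((le_max_left _ _).trans (le_max_left _ _)).trans (le_max_left _ _)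
  have e2 : Hq ≤ H := ((le_max_right _ _).trans (le_max_left _ _)).trans (le_max_left _ _)
  have e3 : C ≤ H := ((le_max_left _ _).trans (le_max_right _ _)).trans (le_max_left _ _)
  have e4 : Real.exp 2 ≤ H := ((le_max_right _ _).trans (le_max_right _ _)).trans (le_max_left _ _)
  have hH0 : 0 < H := (Real.exp_pos 2).trans_le e4
  have e5 : 2 ≤ Real.log H := (Real.le_log_iff_exp_le hH0).2 e4
  have hH1 : 1 < H := by
    by_contra hcon
    push Not at hcon
    have := Real.log_nonpos hH0.le hcon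
    linarith
  obtain ⟨δp, hδp, h1⟩ := h1 H e1
  obtain ⟨δq, hδq, h2⟩ := h2 H e2
  obtain ⟨δc, hδc, h3⟩ := card_large hp hq hirr hH1 1
  choose f hf h4 using fun j : ℕ => arc_win hp hq hirr hC e3 e5 (rad_pos j) (rad_le j) hm
  obtain ⟨δa, hδa, h5⟩ := exists_min_pos hf m
  refine ⟨H, min (min δp δq) (min δc δa), le_max_right _ _, by positivity, fun τ hτ hτδ => ?_⟩
  have t1 : τ < δp := hτδ.trans_le ((min_le_left _ _).trans (min_le_left _ _))
  have t2 : τ < δq := hτδ.trans_le ((min_le_left _ _).trans (min_le_right _ _))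
  have t3 : τ < δc := hτδ.trans_le ((min_le_right _ _).trans (min_le_left _ _))
  have t4 : τ < δa := hτδ.trans_le ((min_le_right _ _).trans (min_le_right _ _))
  refine ⟨?_, h1 τ hτ t1, h2 τ hτ t2, fun z hz1 hz2 j hj c => ?_⟩
  · have := h3 τ hτ t3
    have h6 : (0 : ℝ) < ((win p q (1 / τ) (H / τ)).card : ℝ) := by linarith
    exact_mod_cast h6
  · exact h4 j τ hτ (t4.trans_le (h5 j hj)) z hz1 hz2 c

/-- the number of integer points in a strip, from above -/
lemma strip_card {lp lq : ℝ} (hlq : 0 < lq) (A B : ℤ) (hAB : A ≤ B) {α β : ℝ} (hαβ : α ≤ β) :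
    ∃ G : Finset (ℤ × ℤ), (G.card : ℝ) ≤ ((B : ℝ) - A + 1) * ((β - α) / lq + 1) ∧
      ∀ x y : ℤ, A ≤ x → x ≤ B → α ≤ x * lp + y * lq → x * lp + y * lq ≤ β → (x, y) ∈ G := by
  classical
  refine ⟨(Finset.Icc A B).biUnion fun x =>
    (Finset.Icc ⌈(α - x * lp) / lq⌉ ⌊(β - x * lp) / lq⌋).image fun y => (x, y), ?_, ?_⟩
  · have h1 : ∀ x ∈ Finset.Icc A B, ((((Finset.Icc ⌈(α - x * lp) / lq⌉
        ⌊(β - x * lp) / lq⌋).image fun y => (x, y)).card : ℕ) : ℝ) ≤ (β - α) / lq + 1 := by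
      intro x _
      have h2 : (((Finset.Icc ⌈(α - x * lp) / lq⌉
        ⌊(β - x * lp) / lq⌋).image fun y => (x, y)).card : ℝ) ≤
          (Finset.Icc ⌈(α - x * lp) / lq⌉ ⌊(β - x * lp) / lq⌋).card := by
        exact_mod_cast Finset.card_image_le
      refine h2.trans ?_
      rw [Int.card_Icc]
      have h3 : (⌊(β - x * lp) / lq⌋ : ℝ) ≤ (β - x * lp) / lq := Int.floor_le _
      have h4 : (α - x * lp) / lq ≤ (⌈(α - x * lp) / lq⌉ : ℝ) := Int.le_ceil _
      have h5 : (β - x * lp) / lq - (α - x * lp) / lq = (β - α) / lq := by ring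
      have h6 : 0 ≤ (β - α) / lq := div_nonneg (by linarith) hlq.le
      rcases le_or_gt 0 (⌊(β - x * lp) / lq⌋ + 1 - ⌈(α - x * lp) / lq⌉) with h7 | h7
      · have h8 : (((⌊(β - x * lp) / lq⌋ + 1 - ⌈(α - x * lp) / lq⌉).toNat : ℕ) : ℝ) =
            (⌊(β - x * lp) / lq⌋ : ℝ) + 1 - ⌈(α - x * lp) / lq⌉ := by
          have : (((⌊(β - x * lp) / lq⌋ + 1 - ⌈(α - x * lp) / lq⌉).toNat : ℤ) : ℝ) =
            ((⌊(β - x * lp) / lq⌋ + 1 - ⌈(α - x * lp) / lq⌉ : ℤ) : ℝ) := by
            rw [Int.toNat_of_nonneg h7]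
          push_cast at this
          exact_mod_cast this
        rw [h8]
        linarith
      · rw [Int.toNat_of_nonpos h7.le]
        push_cast
        linarith
    have h2 : (((Finset.Icc A B).biUnion fun x =>
        (Finset.Icc ⌈(α - x * lp) / lq⌉ ⌊(β - x * lp) / lq⌋).image fun y => (x, y)).card : ℝ) ≤
        ∑ x ∈ Finset.Icc A B, ((β - α) / lq + 1) := by
      have h3 := Finset.card_biUnion_le (s := Finset.Icc A B) (t := fun x =>
        (Finset.Icc ⌈(α - x * lp) / lq⌉ ⌊(β - x * lp) / lq⌋).image fun y => (x, y))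
      have h4 : (((Finset.Icc A B).biUnion fun x =>
        (Finset.Icc ⌈(α - x * lp) / lq⌉ ⌊(β - x * lp) / lq⌋).image fun y => (x, y)).card : ℝ) ≤
          ∑ x ∈ Finset.Icc A B, ((((Finset.Icc ⌈(α - x * lp) / lq⌉
        ⌊(β - x * lp) / lq⌋).image fun y => (x, y)).card : ℕ) : ℝ) := by exact_mod_cast h3
      exact h4.trans (Finset.sum_le_sum h1)
    refine h2.trans (le_of_eq ?_)
    rw [Finset.sum_const, nsmul_eq_mul, Int.card_Icc]
    have h5 : (((B + 1 - A).toNat : ℕ) : ℝ) = (B : ℝ) - A + 1 := by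
      have : (((B + 1 - A).toNat : ℤ) : ℝ) = ((B + 1 - A : ℤ) : ℝ) := by
        rw [Int.toNat_of_nonneg (by omega)]
      push_cast at this
      have h6 : (((B + 1 - A).toNat : ℕ) : ℝ) = (B : ℝ) + 1 - A := by exact_mod_cast this
      rw [h6]; ring
    rw [h5]
  · intro x y hx1 hx2 h1 h2
    rw [Finset.mem_biUnion]
    refine ⟨x, Finset.mem_Icc.2 ⟨hx1, hx2⟩, Finset.mem_image.2 ⟨y, ?_, rfl⟩⟩
    rw [Finset.mem_Icc]
    constructor
    · rw [Int.ceil_le, div_le_iff₀ hlq]; linarith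
    · rw [Int.le_floor, le_div_iff₀ hlq]; linarith

/-- the number of exponents in a window, from below -/
lemma card_winE_ge {p q : ℕ} (hp : 2 ≤ p) (hq : 2 ≤ q) {X Y : ℝ} (hX : 1 ≤ X) (hXY : X ≤ Y) :
    (Real.log X / Real.log q) * ((Real.log Y - Real.log X) / Real.log p - 1) ≤
      (winE p q X Y).card := by
  classical
  have hlp : 0 < Real.log p := Real.log_pos (by exact_mod_cast (by omega : 1 < p))
  have hlq : 0 < Real.log q := Real.log_pos (by exact_mod_cast (by omega : 1 < q))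
  have hX0 : 0 < X := by linarith
  have hY0 : 0 < Y := by linarith
  set s := Real.log X with hs
  have hs0 : 0 ≤ s := Real.log_nonneg hX
  set h := Real.log Y - Real.log X with hh
  have hh0 : 0 ≤ h := by
    have := Real.log_le_log hX0 hXY
    rw [hh]; linarith
  set J : ℕ := ⌊s / Real.log q⌋₊ + 1 with hJ
  set T : ℕ := ⌊h / Real.log p⌋₊ with hT
  have hmap : ((Finset.range J ×ˢ Finset.range T).image fun z : ℕ × ℕ =>
      (⌈(s - z.1 * Real.log q) / Real.log p⌉₊ + z.2, z.1)) ⊆ winE p q X Y := by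
    intro u hu
    obtain ⟨⟨j, t⟩, hz, rfl⟩ := Finset.mem_image.1 hu
    rw [Finset.mem_product, Finset.mem_range, Finset.mem_range] at hz
    rw [mem_winE hp hq]
    have hj : (j : ℝ) * Real.log q ≤ s := by
      have h1 : (j : ℝ) ≤ (⌊s / Real.log q⌋₊ : ℝ) := by
        exact_mod_cast (by omega : j ≤ ⌊s / Real.log q⌋₊)
      have h2 : (⌊s / Real.log q⌋₊ : ℝ) ≤ s / Real.log q := Nat.floor_le (by positivity)
      have h3 : (j : ℝ) ≤ s / Real.log q := h1.trans h2
      rwa [le_div_iff₀ hlq] at h3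
    have ha : 0 ≤ (s - j * Real.log q) / Real.log p := div_nonneg (by linarith) hlp.le
    have h1 := Nat.le_ceil ((s - j * Real.log q) / Real.log p)
    have h2 := Nat.ceil_lt_add_one ha
    have h3 : (t : ℝ) + 1 ≤ h / Real.log p := by
      have h4 : ((t + 1 : ℕ) : ℝ) ≤ (T : ℝ) := by exact_mod_cast (by omega : t + 1 ≤ T)
      have h5 : (T : ℝ) ≤ h / Real.log p := Nat.floor_le (by positivity)
      push_cast at h4
      linarith
    set i : ℕ := ⌈(s - j * Real.log q) / Real.log p⌉₊ + t with hi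
    have hiR : (i : ℝ) = (⌈(s - j * Real.log q) / Real.log p⌉₊ : ℝ) + t := by
      rw [hi]; push_cast; ring
    have h6 : s - j * Real.log q ≤ i * Real.log p := by
      have : (s - j * Real.log q) / Real.log p ≤ i := by
        rw [hiR]
        have : (0 : ℝ) ≤ t := Nat.cast_nonneg t
        linarith
      rwa [div_le_iff₀ hlp] at this
    have h7 : i * Real.log p < s - j * Real.log q + h := by
      have : (i : ℝ) < (s - j * Real.log q + h) / Real.log p := by
        rw [hiR, add_div]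
        linarith
      rwa [lt_div_iff₀ hlp] at this
    have hn : (0 : ℝ) < ((p ^ i * q ^ j : ℕ) : ℝ) := by
      have : 0 < p ^ i * q ^ j := by positivity
      exact_mod_cast this
    have hlog : Real.log ((p ^ i * q ^ j : ℕ) : ℝ) = i * Real.log p + j * Real.log q := by
      push_cast
      rw [Real.log_mul (by positivity) (by positivity), Real.log_pow, Real.log_pow]
    constructor
    · rw [← Real.log_le_log_iff hX0 hn, hlog]
      linarith
    · rw [← Real.log_lt_log_iff hn hY0, hlog]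
      have : Real.log Y = s + h := by rw [hh]; ring
      rw [this]
      linarith
  have hinj : ((Finset.range J ×ˢ Finset.range T).image fun z : ℕ × ℕ =>
      (⌈(s - z.1 * Real.log q) / Real.log p⌉₊ + z.2, z.1)).card = J * T := by
    rw [Finset.card_image_of_injective, Finset.card_product, Finset.card_range, Finset.card_range]
    rintro ⟨j, t⟩ ⟨j', t'⟩ h
    simp only [Prod.mk.injEq] at h
    obtain ⟨h1, h2⟩ := h
    subst h2
    rw [Prod.mk.injEq]
    exact ⟨rfl, by omega⟩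
  have h1 : ((J * T : ℕ) : ℝ) ≤ (winE p q X Y).card := by
    rw [← hinj]
    exact_mod_cast Finset.card_le_card hmap
  refine le_trans ?_ h1
  push_cast
  have h2 : s / Real.log q ≤ J := by
    have := Nat.lt_floor_add_one (s / Real.log q)
    rw [hJ]; push_cast; linarith
  have h3 : h / Real.log p - 1 ≤ T := by
    have := Nat.lt_floor_add_one (h / Real.log p)
    linarith
  have h4 : (0 : ℝ) ≤ T := Nat.cast_nonneg T
  have h5 : 0 ≤ s / Real.log q := by positivity
  calc s / Real.log q * (h / Real.log p - 1) ≤ s / Real.log q * T := by gcongr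
    _ ≤ J * T := by gcongr

end Pool.Agent.Zk32
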