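import Mathlib
import Pool.Agent.Zk32.Tu3

/-!
The construction of the strips
-/

set_option autoImplicit false
set_option linter.unusedSectionVars false

open MeasureTheory Filter Topology Set

namespace Pool.Agent.Zk32

open Pool.Agent.W764.HL (win mem_win)

lemma log_winE {p q : ℕ} (hp : 2 ≤ p) (hq : 2 ≤ q) {X Y : ℝ} (hX : 0 < X) {u : ℕ × ℕ}
    (hu : u ∈ winE p q X Y) :
    Real.log X ≤ u.1 * Real.log p + u.2 * Real.log q ∧
      u.1 * Real.log p + u.2 * Real.log q < Real.log Y := by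
  rw [mem_winE hp hq] at hu
  have hn : (0 : ℝ) < ((p ^ u.1 * q ^ u.2 : ℕ) : ℝ) := hX.trans_le hu.1
  have hlog : Real.log ((p ^ u.1 * q ^ u.2 : ℕ) : ℝ) = u.1 * Real.log p + u.2 * Real.log q := by
    have hp0 : (p : ℝ) ≠ 0 := by positivity
    have hq0 : (q : ℝ) ≠ 0 := by positivity
    push_cast
    rw [Real.log_mul (pow_ne_zero _ hp0) (pow_ne_zero _ hq0), Real.log_pow, Real.log_pow]
  rw [← hlog]
  exact ⟨Real.log_le_log hX hu.1, Real.log_lt_log hn hu.2⟩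

/-- the difference sets of one strip -/
lemma strip_diff {p q : ℕ} (hp : 2 ≤ p) (hq : 2 ≤ q) (D a₀ b₀ : ℕ) {τ H : ℝ} (hτ : 0 < τ)
    (hH : 2 * Real.log p + Real.log q + D * (Real.log p + Real.log q) ≤ Real.log H)
    (hτH : Real.log H ≤ -Real.log τ) (hH0 : 0 < H) :
    ∃ Gd : Finset (ℤ × ℤ),
      (Gd.card : ℝ) ≤ 54 * ((winE p q (1 / τ) (H / τ)).map (shE a₀ b₀)).card ∧
      (∀ a ∈ (winE p q (1 / τ) (H / τ)).map (shE a₀ b₀),
        ∀ b ∈ (winE p q (1 / τ) (H / τ)).map (shE a₀ b₀),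
          ((a.1 : ℤ) - b.1, (a.2 : ℤ) - b.2) ∈ Gd) ∧
      ∀ a ∈ (winE p q (1 / τ) (H / τ)).map (shE a₀ b₀), ∀ b : ℕ × ℕ, b.1 ≤ D → b.2 ≤ D →
        ((a.1 : ℤ) - b.1, (a.2 : ℤ) - b.2) ∈ Gd := by
  classical
  have hlp : 0 < Real.log p := Real.log_pos (by exact_mod_cast (by omega : 1 < p))
  have hlq : 0 < Real.log q := Real.log_pos (by exact_mod_cast (by omega : 1 < q))
  set lp := Real.log p with hlpd
  set lq := Real.log q with hlqd
  set s := -Real.log τ with hs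
  set h := Real.log H with hh
  have hD0 : (0 : ℝ) ≤ D := Nat.cast_nonneg D
  have hDl : 0 ≤ (D : ℝ) * (lp + lq) := by positivity
  have hh0 : 0 < h := by linarith
  have hs0 : 0 < s := by linarith
  have hX : Real.log (1 / τ) = s := by rw [one_div, Real.log_inv]
  have hY : Real.log (H / τ) = s + h := by
    rw [Real.log_div hH0.ne' hτ.ne', hs, hh]; ring
  have hX0 : (0 : ℝ) < 1 / τ := by positivity
  have hX1 : 1 ≤ 1 / τ := by
    rw [← Real.log_nonneg_iff hX0, hX]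
    exact hs0.le
  have hXY : 1 / τ ≤ H / τ := by
    rw [← Real.log_le_log_iff hX0 (by positivity), hX, hY]
    linarith
  have hlow := card_winE_ge hp hq hX1 hXY
  rw [hX, hY, add_sub_cancel_left, ← hlpd, ← hlqd] at hlow
  set A₀ : ℤ := ⌊(s + h) / lp⌋ with hA₀
  have hA₀r : (A₀ : ℝ) ≤ (s + h) / lp := Int.floor_le _
  have hA₀0 : 0 ≤ A₀ := Int.floor_nonneg.2 (by positivity)
  obtain ⟨G₁, hG₁c, hG₁⟩ := strip_card (lp := lp) hlq (-A₀) A₀ (by omega)
    (α := -h) (β := h) (by linarith)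
  obtain ⟨G₂, hG₂c, hG₂⟩ := strip_card (lp := lp) hlq (-(D : ℤ)) A₀ (by omega)
    (α := s - D * (lp + lq)) (β := s + h) (by linarith)
  have hu1 : ∀ u ∈ winE p q (1 / τ) (H / τ), ((u.1 : ℕ) : ℤ) ≤ A₀ := by
    intro u hu
    obtain ⟨-, h2⟩ := log_winE hp hq hX0 hu
    rw [hY, ← hlpd, ← hlqd] at h2
    rw [hA₀, Int.le_floor, le_div_iff₀ hlp]
    have : (0 : ℝ) ≤ u.2 * lq := by positivity
    push_cast
    linarith
  refine ⟨G₁ ∪ G₂.image (fun z => (z.1 + a₀, z.2 + b₀)), ?_, ?_, ?_⟩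
  · rw [Finset.card_map]
    have h1 : ((G₁ ∪ G₂.image (fun z => (z.1 + (a₀ : ℤ), z.2 + (b₀ : ℤ)))).card : ℝ) ≤
        G₁.card + G₂.card := by
      have h2 := Finset.card_union_le G₁ (G₂.image (fun z => (z.1 + (a₀ : ℤ), z.2 + (b₀ : ℤ))))
      have h3 := Finset.card_image_le (s := G₂) (f := fun z => (z.1 + (a₀ : ℤ), z.2 + (b₀ : ℤ)))
      exact_mod_cast h2.trans (Nat.add_le_add_left h3 _)
    refine h1.trans ?_
    -- the upper bounds
    have e1 : 1 ≤ s / lp := by rw [le_div_iff₀ hlp]; linarith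
    have e2 : 1 ≤ h / lq := by rw [le_div_iff₀ hlq]; nlinarith
    have e3 : (s + h) / lp ≤ 2 * (s / lp) := by
      rw [add_div]
      have : h / lp ≤ s / lp := by gcongr
      linarith
    have e4 : (D : ℝ) ≤ s / lp := by
      rw [le_div_iff₀ hlp]
      nlinarith
    have b1 : (G₁.card : ℝ) ≤ (5 * (s / lp)) * (3 * (h / lq)) := by
      refine hG₁c.trans ?_
      have f1 : ((A₀ : ℝ) - ((-A₀ : ℤ) : ℝ) + 1) ≤ 5 * (s / lp) := by push_cast; linarith
      have f2 : (h - -h) / lq + 1 ≤ 3 * (h / lq) := by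
        have : (h - -h) / lq = 2 * (h / lq) := by ring
        rw [this]; linarith
      have f3 : 0 ≤ (h - -h) / lq + 1 := by
        have : (h - -h) / lq = 2 * (h / lq) := by ring
        rw [this]; linarith
      exact mul_le_mul f1 f2 f3 (by positivity)
    have b2 : (G₂.card : ℝ) ≤ (4 * (s / lp)) * (3 * (h / lq)) := by
      refine hG₂c.trans ?_
      have f1 : ((A₀ : ℝ) - ((-(D : ℤ) : ℤ) : ℝ) + 1) ≤ 4 * (s / lp) := by push_cast; linarith
      have f0 : (s + h - (s - D * (lp + lq))) / lq ≤ 2 * (h / lq) := by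
        rw [← mul_div_assoc, div_le_div_iff_of_pos_right hlq]
        linarith
      have f2 : (s + h - (s - D * (lp + lq))) / lq + 1 ≤ 3 * (h / lq) := by linarith
      have f3 : 0 ≤ (s + h - (s - D * (lp + lq))) / lq + 1 := by
        have : 0 ≤ (s + h - (s - D * (lp + lq))) / lq := div_nonneg (by linarith) hlq.le
        linarith
      exact mul_le_mul f1 f2 f3 (by positivity)
    have b3 : h / lp / 2 ≤ h / lp - 1 := by
      have : 2 ≤ h / lp := by rw [le_div_iff₀ hlp]; nlinarith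
      linarith
    have b4 : (s / lq) * (h / lp / 2) ≤ (winE p q (1 / τ) (H / τ)).card := by
      refine le_trans ?_ hlow
      have : 0 ≤ s / lq := by positivity
      gcongr
    have b5 : (s / lp) * (h / lq) = (s / lq) * (h / lp) := by
      field_simp
    calc (G₁.card : ℝ) + G₂.card ≤ (5 * (s / lp)) * (3 * (h / lq)) + (4 * (s / lp)) * (3 * (h / lq)) :=
          add_le_add b1 b2
      _ = 54 * ((s / lq) * (h / lp / 2)) := by linear_combination 27 * b5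
      _ ≤ 54 * (winE p q (1 / τ) (H / τ)).card := by gcongr
  · intro a ha b hb
    rw [Finset.mem_map] at ha hb
    obtain ⟨u, hu, rfl⟩ := ha
    obtain ⟨v, hv, rfl⟩ := hb
    refine Finset.mem_union_left _ ?_
    obtain ⟨g1, g2⟩ := log_winE hp hq hX0 hu
    obtain ⟨g3, g4⟩ := log_winE hp hq hX0 hv
    rw [hX, ← hlpd, ← hlqd] at g1 g3
    rw [hY, ← hlpd, ← hlqd] at g2 g4
    have e1 : ((((shE a₀ b₀) u).1 : ℕ) : ℤ) - (((shE a₀ b₀) v).1 : ℕ) = (u.1 : ℤ) - v.1 := by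
      change ((a₀ + u.1 : ℕ) : ℤ) - ((a₀ + v.1 : ℕ) : ℤ) = _
      push_cast; ring
    have e2 : ((((shE a₀ b₀) u).2 : ℕ) : ℤ) - (((shE a₀ b₀) v).2 : ℕ) = (u.2 : ℤ) - v.2 := by
      change ((b₀ + u.2 : ℕ) : ℤ) - ((b₀ + v.2 : ℕ) : ℤ) = _
      push_cast; ring
    rw [e1, e2]
    have k1 := hu1 u hu
    have k2 := hu1 v hv
    refine hG₁ _ _ (by omega) (by omega) ?_ ?_
    · push_cast; linarith
    · push_cast; linarith
  · intro a ha b hb1 hb2
    rw [Finset.mem_map] at ha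
    obtain ⟨u, hu, rfl⟩ := ha
    refine Finset.mem_union_right _ (Finset.mem_image.2 ⟨((u.1 : ℤ) - b.1, (u.2 : ℤ) - b.2), ?_, ?_⟩)
    · obtain ⟨g1, g2⟩ := log_winE hp hq hX0 hu
      rw [hX, ← hlpd, ← hlqd] at g1
      rw [hY, ← hlpd, ← hlqd] at g2
      have k1 := hu1 u hu
      have c1 : (b.1 : ℝ) ≤ D := by exact_mod_cast hb1
      have c2 : (b.2 : ℝ) ≤ D := by exact_mod_cast hb2
      have c3 : (0 : ℝ) ≤ b.1 := Nat.cast_nonneg _
      have c4 : (0 : ℝ) ≤ b.2 := Nat.cast_nonneg _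
      refine hG₂ _ _ (by omega) (by omega) ?_ ?_
      · push_cast; nlinarith
      · push_cast; nlinarith
    · change ((u.1 : ℤ) - b.1 + a₀, (u.2 : ℤ) - b.2 + b₀) =
        (((a₀ + u.1 : ℕ) : ℤ) - b.1, ((b₀ + u.2 : ℕ) : ℤ) - b.2)
      push_cast
      rw [Prod.mk.injEq]
      exact ⟨by ring, by ring⟩

/-- one step of the construction -/
lemma strip_step {p q : ℕ} (hp : 2 ≤ p) (hq : 2 ≤ q)
    (hirr : Irrational (Real.log p / Real.log q)) {t : UnitAddCircle} (ht : t ∉ Tor) (m D : ℕ) :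
    ∃ G : Finset (ℕ × ℕ), G.Nonempty ∧
      (((G.filter fun n => (n.1 + 1, n.2) ∉ G).card : ℝ) / G.card ≤ 1 / ((m : ℝ) + 1)) ∧
      (((G.filter fun n => (n.1, n.2 + 1) ∉ G).card : ℝ) / G.card ≤ 1 / ((m : ℝ) + 1)) ∧
      (∃ Gd : Finset (ℤ × ℤ), (Gd.card : ℝ) ≤ 54 * G.card ∧
        (∀ a ∈ G, ∀ b ∈ G, ((a.1 : ℤ) - b.1, (a.2 : ℤ) - b.2) ∈ Gd) ∧
        ∀ a ∈ G, ∀ b : ℕ × ℕ, b.1 ≤ D → b.2 ≤ D → ((a.1 : ℤ) - b.1, (a.2 : ℤ) - b.2) ∈ Gd) ∧
      ∀ j ≤ m, ∀ c : UnitAddCircle,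
        ave p q G (tent c (rad j)) t ≤ 80 * rad j + 1 / ((m : ℝ) + 1) := by
  have hlp : 0 < Real.log p := Real.log_pos (by exact_mod_cast (by omega : 1 < p))
  have hlq : 0 < Real.log q := Real.log_pos (by exact_mod_cast (by omega : 1 < q))
  set h₀ : ℝ := 2 * Real.log p + Real.log q + D * (Real.log p + Real.log q) with hh₀
  obtain ⟨H, δ, hHH, hδ, hgood⟩ := good_windowsH hp hq hirr (C := 1) le_rfl m (Real.exp h₀)
  have hH0 : 0 < H := (Real.exp_pos _).trans_le hHH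
  have hlogH : h₀ ≤ Real.log H := (Real.le_log_iff_exp_le hH0).2 hHH
  obtain ⟨a₀, b₀, h1, h2⟩ := near_zero hp hq hirr ht
    (show (0 : ℝ) < min δ (Real.exp (-Real.log H)) from lt_min hδ (Real.exp_pos _))
  set τ : ℝ := ‖(p ^ a₀ * q ^ b₀) • t‖ with hτ
  have hτδ : τ < δ := h2.trans_le (min_le_left _ _)
  have hτH : Real.log H ≤ -Real.log τ := by
    have h3 : τ ≤ Real.exp (-Real.log H) := (h2.trans_le (min_le_right _ _)).le
    have h4 := Real.log_le_log h1 h3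
    rw [Real.log_exp] at h4
    linarith
  obtain ⟨g1, g2, g3, g4⟩ := hgood τ h1 hτδ
  have hcard : (0 : ℝ) < (win p q (1 / τ) (H / τ)).card := by exact_mod_cast g1
  have hFc : ((((winE p q (1 / τ) (H / τ)).map (shE a₀ b₀)).card : ℕ) : ℝ) =
      (win p q (1 / τ) (H / τ)).card := by
    rw [Finset.card_map, card_winE hp hq hirr]
  refine ⟨(winE p q (1 / τ) (H / τ)).map (shE a₀ b₀), ?_, ?_, ?_,
    strip_diff hp hq D a₀ b₀ h1 hlogH hτH hH0, ?_⟩
  · rw [← Finset.card_pos]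
    have h3 := hcard
    rw [← hFc] at h3
    exact_mod_cast h3
  · rw [hFc, div_le_iff₀ hcard]
    exact (leave_p hp hq hirr _ _).trans g2
  · rw [hFc, div_le_iff₀ hcard]
    exact (leave_q hp hq hirr _ _).trans g3
  · intro j hj c
    rw [ave_shift_win hp hq hirr, inv_mul_le_iff₀ hcard]
    have h7 := g4 ((p ^ a₀ * q ^ b₀) • t) le_rfl (by rw [one_mul]) j hj c
    have h8 : ∑ n ∈ win p q (1 / τ) (H / τ), tent c (rad j) (n • ((p ^ a₀ * q ^ b₀) • t)) ≤
        ((win p q (1 / τ) (H / τ)).filter fun n =>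
          ‖n • ((p ^ a₀ * q ^ b₀) • t) - c‖ ≤ rad j).card := by
      have h9 : ∑ n ∈ win p q (1 / τ) (H / τ), tent c (rad j) (n • ((p ^ a₀ * q ^ b₀) • t)) ≤
          ∑ n ∈ win p q (1 / τ) (H / τ),
            if ‖n • ((p ^ a₀ * q ^ b₀) • t) - c‖ ≤ rad j then (1 : ℝ) else 0 := by
        refine Finset.sum_le_sum fun n _ => ?_
        split_ifs with h10
        · exact tent_le_one c (rad_pos j) _
        · exact (tent_zero c (rad_pos j) (not_le.mp h10)).le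
      refine h9.trans (le_of_eq ?_)
      rw [Finset.sum_boole]
    refine h8.trans (h7.trans (le_of_eq ?_))
    ring

/-- **The sequence of the strips.** -/
theorem exists_strips {p q : ℕ} (hp : 2 ≤ p) (hq : 2 ≤ q)
    (hirr : Irrational (Real.log p / Real.log q)) {θ : ℕ → UnitAddCircle}
    (hθ : ∀ l, θ l ∉ Tor) :
    ∃ F : ℕ → Finset (ℕ × ℕ), Folner F ∧ Temp 54 F ∧
      ∀ (m : ℕ), ∀ j ≤ m, ∀ c : UnitAddCircle,
        ave p q (F m) (tent c (rad j)) (θ (Nat.unpair m).1) ≤ 80 * rad j + 1 / ((m : ℝ) + 1) := by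
  choose G hG1 hG2 hG3 hG4 hG5 using fun (m D : ℕ) =>
    strip_step hp hq hirr (hθ (Nat.unpair m).1) m D
  -- a bound for a finite set
  have hbd : ∀ E : Finset (ℕ × ℕ), ∃ B : ℕ, ∀ b ∈ E, b.1 ≤ B ∧ b.2 ≤ B := by
    intro E
    refine ⟨E.sup fun b => max b.1 b.2, fun b hb => ?_⟩
    have h1 := Finset.le_sup (f := fun b : ℕ × ℕ => max b.1 b.2) hb
    exact ⟨(le_max_left _ _).trans h1, (le_max_right _ _).trans h1⟩
  choose bd hbd using hbd
  let D : ℕ → ℕ := fun n => Nat.rec 0 (fun m d => max d (bd (G m d))) n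
  have hD : ∀ m, D (m + 1) = max (D m) (bd (G m (D m))) := fun m => rfl
  have hmono : Monotone D := monotone_nat_of_le_succ fun m => by
    rw [hD]
    exact le_max_left _ _
  have h1m : Tendsto (fun m : ℕ => 1 / ((m : ℝ) + 1)) atTop (𝓝 0) :=
    tendsto_one_div_add_atTop_nhds_zero_nat
  refine ⟨fun m => G m (D m), ⟨fun m => hG1 m _, ?_, ?_⟩, ?_, fun m j hj c => hG5 m _ j hj c⟩
  · exact squeeze_zero (fun m => by positivity) (fun m => hG2 m _) h1m
  · exact squeeze_zero (fun m => by positivity) (fun m => hG3 m _) h1m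
  · intro n
    obtain ⟨Gd, hc, h1, h2⟩ := hG4 n (D n)
    refine ⟨Gd, hc, fun k hk a ha b hb => ?_⟩
    rcases hk.lt_or_eq with hk | rfl
    · have h3 := hbd (G k (D k)) b hb
      have h4 : bd (G k (D k)) ≤ D n := by
        refine le_trans ?_ (hmono (Nat.succ_le_of_lt hk))
        rw [Nat.succ_eq_add_one, hD]
        exact le_max_right _ _
      exact h2 a ha b (h3.1.trans h4) (h3.2.trans h4)
    · exact h1 a ha b hb

end Pool.Agent.Zk32
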