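import Mathlib
import Pool.Agent.Zk32.Tu5
import Pool.Agent.Zk32.Gp13

/-!
The set of the points with singular limits is a Borel set
-/

set_option autoImplicit false

open MeasureTheory Filter Topology Set
open scoped ENNReal

namespace Pool.Agent.Zk32

/-- a dense sequence of continuous functions with values in `[0, 1]` -/
noncomputable def phi (i : ℕ) : C(UnitAddCircle, ℝ) :=
  ⟨fun x => max 0 (min 1 (TopologicalSpace.denseSeq C(UnitAddCircle, ℝ) i x)), by fun_prop⟩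

lemma phi_nonneg (i : ℕ) (x : UnitAddCircle) : 0 ≤ phi i x := le_max_left _ _

lemma phi_le_one (i : ℕ) (x : UnitAddCircle) : phi i x ≤ 1 :=
  max_le zero_le_one (min_le_left _ _)

lemma phi_dense (g : C(UnitAddCircle, ℝ)) (h0 : ∀ x, 0 ≤ g x) (h1 : ∀ x, g x ≤ 1) {ε : ℝ}
    (hε : 0 < ε) : ∃ i, ∀ x, |phi i x - g x| ≤ ε := by
  obtain ⟨i, hi⟩ : ∃ i, dist g (TopologicalSpace.denseSeq C(UnitAddCircle, ℝ) i) < ε := by
    have hd := TopologicalSpace.denseRange_denseSeq C(UnitAddCircle, ℝ)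
    exact hd.exists_dist_lt g hε
  refine ⟨i, fun x => ?_⟩
  have h2 : |g x - TopologicalSpace.denseSeq C(UnitAddCircle, ℝ) i x| ≤ ε := by
    rw [← Real.dist_eq]
    exact (ContinuousMap.dist_apply_le_dist x).trans hi.le
  have h3 : phi i x = max 0 (min 1 (TopologicalSpace.denseSeq C(UnitAddCircle, ℝ) i x)) := rfl
  set z := TopologicalSpace.denseSeq C(UnitAddCircle, ℝ) i x with hz
  rw [h3]
  have g0 := h0 x
  have g1 := h1 x
  rw [abs_le] at h2 ⊢
  constructor
  · have : g x - ε ≤ max 0 (min 1 z) := by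
      refine le_max_of_le_right (le_min ?_ ?_) <;> linarith
    linarith
  · have : max 0 (min 1 z) ≤ g x + ε := by
      refine max_le (by linarith) ((min_le_right _ _).trans ?_)
      linarith
    linarith

/-- a singular measure is seen by the functions of the sequence -/
lemma phi_of_sing {κ : Measure UnitAddCircle} [IsProbabilityMeasure κ]
    (h : κ ⟂ₘ (volume : Measure UnitAddCircle)) {ε : ℝ} (hε : 0 < ε) :
    ∃ i, ∫ x, phi i x ≤ ε ∧ 1 - ε < ∫ x, phi i x ∂κ := by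
  obtain ⟨N, hN, hN1, hN2⟩ := h
  have hN1' : κ Nᶜ = 1 := by
    rw [prob_compl_eq_one_iff hN]; exact hN1
  obtain ⟨V, hVN, hVc, hV⟩ := hN.compl.exists_isCompact_lt_add
    (μ := κ) (measure_ne_top _ _) (ε := ENNReal.ofReal (ε / 4)) (by positivity)
  have hκV : 1 - ε / 4 < κ.real V := by
    rw [hN1'] at hV
    have h1 : (1 : ℝ) < κ.real V + ε / 4 := by
      have h2 := (ENNReal.toReal_lt_toReal ENNReal.one_ne_top (by finiteness)).2 hV
      rw [ENNReal.toReal_one, ENNReal.toReal_add (measure_ne_top _ _) ENNReal.ofReal_ne_top,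
        ENNReal.toReal_ofReal (by positivity)] at h2
      exact h2
    linarith
  have hvV : (volume : Measure UnitAddCircle).real V = 0 := by
    rw [measureReal_def, measure_mono_null hVN hN2]
    rfl
  obtain ⟨g, hg0, hg1, hgV, hgi⟩ := exists_cont_aboveX (volume : Measure UnitAddCircle)
    hVc.isClosed (ε := ε / 4) (by positivity)
  rw [hvV, zero_add] at hgi
  obtain ⟨i, hi⟩ := phi_dense g hg0 hg1 (ε := ε / 4) (by positivity)
  have hint : ∀ (σ : Measure UnitAddCircle) [IsProbabilityMeasure σ],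
      |∫ x, phi i x ∂σ - ∫ x, g x ∂σ| ≤ ε / 4 := by
    intro σ _
    rw [← integral_sub (int_contX σ _) (int_contX σ _)]
    have h5 := norm_integral_le_of_norm_le_const (μ := σ)
      (f := fun x => phi i x - g x) (C := ε / 4) (Eventually.of_forall fun x => hi x)
    simpa using h5
  have h1 := abs_le.1 (hint volume)
  have h2 := abs_le.1 (hint κ)
  have h3 : κ.real V ≤ ∫ x, g x ∂κ := by
    rw [← integral_indicator_one hVc.measurableSet]
    refine integral_mono ((integrable_const (1 : ℝ)).indicator hVc.measurableSet)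
      (int_contX κ g) fun x => ?_
    by_cases hx : x ∈ V
    · rw [indicator_of_mem hx]; exact (hgV x hx).ge
    · rw [indicator_of_notMem hx]; exact hg0 x
  exact ⟨i, by linarith [h1.2], by linarith [h2.1]⟩

/-- the converse -/
lemma sing_of_phi {κ : Measure UnitAddCircle} [IsProbabilityMeasure κ]
    (h : ∀ k : ℕ, ∃ g : C(UnitAddCircle, ℝ), (∀ x, 0 ≤ g x) ∧ (∀ x, g x ≤ 1) ∧
      ∫ x, g x ≤ (1 / 2 : ℝ) ^ k ∧ 1 - (1 / 2 : ℝ) ^ k ≤ ∫ x, g x ∂κ) :
    κ ⟂ₘ (volume : Measure UnitAddCircle) := by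
  choose g hg0 hg1 hgv hgκ using h
  set O : ℕ → Set UnitAddCircle := fun k => {x | 1 / 2 < g k x} with hO
  have hOm : ∀ k, MeasurableSet (O k) := fun k =>
    (isOpen_lt continuous_const (g k).continuous).measurableSet
  have hv : ∀ k, (volume : Measure UnitAddCircle) (O k) ≤ ENNReal.ofReal (2 * (1 / 2 : ℝ) ^ k) := by
    intro k
    have h1 := mul_meas_ge_le_integral_of_nonneg (μ := (volume : Measure UnitAddCircle))
      (Eventually.of_forall (hg0 k)) (int_contX _ (g k)) (1 / 2)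
    have h2 : (volume : Measure UnitAddCircle).real (O k) ≤
        (volume : Measure UnitAddCircle).real {x | 1 / 2 ≤ g k x} :=
      measureReal_mono fun x (hx : 1 / 2 < g k x) => hx.le
    rw [← ofReal_measureReal (measure_ne_top _ _)]
    refine ENNReal.ofReal_le_ofReal ?_
    have h3 := hgv k
    linarith
  have hκ : ∀ k, κ (O k)ᶜ ≤ ENNReal.ofReal (2 * (1 / 2 : ℝ) ^ k) := by
    intro k
    have h0 : ∀ x, 0 ≤ 1 - g k x := fun x => by linarith [hg1 k x]
    have hi : Integrable (fun x => 1 - g k x) κ := (integrable_const _).sub (int_contX κ _)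
    have h1 := mul_meas_ge_le_integral_of_nonneg (μ := κ) (Eventually.of_forall h0) hi (1 / 2)
    have h2 : κ.real (O k)ᶜ ≤ κ.real {x | 1 / 2 ≤ 1 - g k x} := by
      refine measureReal_mono fun x hx => ?_
      have : ¬ 1 / 2 < g k x := hx
      show 1 / 2 ≤ 1 - g k x
      linarith
    rw [← ofReal_measureReal (measure_ne_top _ _)]
    refine ENNReal.ofReal_le_ofReal ?_
    have h3 : ∫ x, (1 - g k x) ∂κ = 1 - ∫ x, g k x ∂κ := by
      rw [integral_sub (integrable_const _) (int_contX κ _), integral_const, probReal_univ,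
        one_smul]
    have h4 := hgκ k
    rw [h3] at h1
    linarith
  have hsum : ∀ f : ℕ → ℝ≥0∞, (∀ k, f k ≤ ENNReal.ofReal (2 * (1 / 2 : ℝ) ^ k)) →
      ∑' k, f k ≠ ∞ := by
    intro f hf
    refine ne_top_of_le_ne_top ?_ (ENNReal.tsum_le_tsum hf)
    rw [← ENNReal.ofReal_tsum_of_nonneg (fun j => by positivity)
      ((summable_geometric_of_lt_one (by norm_num) (by norm_num)).mul_left 2)]
    exact ENNReal.ofReal_ne_top
  -- the set of the points which are in infinitely many of the sets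
  refine ⟨(limsup O atTop)ᶜ, ?_, ?_, ?_⟩
  · exact (MeasurableSet.measurableSet_limsup hOm).compl
  · have h1 := ae_eventually_notMem (hsum _ hκ)
    rw [← mem_ae_iff]
    filter_upwards [h1] with x hx
    rw [mem_limsup_iff_frequently_mem]
    refine (hx.mono fun k hk => ?_).frequently
    exact notMem_compl_iff.1 hk
  · rw [compl_compl]
    exact measure_limsup_atTop_eq_zero (hsum _ hv)

lemma ave_mono_cont {p q : ℕ} {E : Finset (ℕ × ℕ)} (g : C(UnitAddCircle, ℝ)) :
    Continuous (ave p q E g) := aveX_cont g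

/-- **A Borel description.** -/
theorem det_iff {p q : ℕ} {F : ℕ → Finset (ℕ × ℕ)} (hF : ∀ k, (F k).Nonempty)
    (x : UnitAddCircle) : x ∈ Det p q F ↔ ∀ k : ℕ, ∃ R : ℕ, ∀ n, R ≤ n → ∃ i, i ≤ R ∧
      ∫ y, phi i y ≤ (1 / 2 : ℝ) ^ k ∧ 1 - (1 / 2 : ℝ) ^ k ≤ ave p q (F n) (phi i) x := by
  constructor
  · intro hx k
    by_contra hcon
    push Not at hcon
    choose n hnR hn using hcon
    -- the ultrafilter
    set 𝒰 : Ultrafilter ℕ := (Filter.hyperfilter ℕ).map n with h𝒰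
    have hnt : Tendsto n atTop atTop := tendsto_atTop_mono hnR tendsto_id
    have h𝒰a : (𝒰 : Filter ℕ) ≤ atTop := by
      rw [h𝒰, Ultrafilter.coe_map]
      exact (hnt.mono_left hyper_le)
    obtain ⟨κ, hκ, hl⟩ := lim_point (p := p) (q := q) hF 𝒰 x
    have hs := hx 𝒰 h𝒰a κ hκ hl
    obtain ⟨i, hi1, hi2⟩ := phi_of_sing hs (ε := (1 / 2 : ℝ) ^ k) (by positivity)
    have h1 : ∫ y, phi i y ∂κ ≤ 1 - (1 / 2 : ℝ) ^ k := by
      refine le_of_tendsto (hl (phi i)) ?_
      rw [h𝒰, Ultrafilter.coe_map, eventually_map]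
      filter_upwards [hyper_le (eventually_ge_atTop i)] with R hR
      exact (hn R i hR hi1).le
    linarith
  · intro h 𝒰 h𝒰 κ hκ hl
    refine sing_of_phi fun k => ?_
    obtain ⟨R, hR⟩ := h k
    have h1 : ∀ᶠ n in (𝒰 : Filter ℕ), ∃ i ∈ Finset.range (R + 1),
        ∫ y, phi i y ≤ (1 / 2 : ℝ) ^ k ∧ 1 - (1 / 2 : ℝ) ^ k ≤ ave p q (F n) (phi i) x := by
      filter_upwards [h𝒰 (eventually_ge_atTop R)] with n hn
      obtain ⟨i, hi, h2⟩ := hR n hn
      exact ⟨i, Finset.mem_range.2 (by omega), h2⟩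
    have h2 : ∃ i ∈ Finset.range (R + 1), ∀ᶠ n in (𝒰 : Filter ℕ),
        ∫ y, phi i y ≤ (1 / 2 : ℝ) ^ k ∧ 1 - (1 / 2 : ℝ) ^ k ≤ ave p q (F n) (phi i) x := by
      by_contra hcon
      have h3 : ∀ i ∈ Finset.range (R + 1), ∀ᶠ n in (𝒰 : Filter ℕ),
          ¬ (∫ y, phi i y ≤ (1 / 2 : ℝ) ^ k ∧
            1 - (1 / 2 : ℝ) ^ k ≤ ave p q (F n) (phi i) x) := fun i hi =>
        Ultrafilter.eventually_not.2 fun hh => hcon ⟨i, hi, hh⟩
      have h4 := (Finset.eventually_all (Finset.range (R + 1))).2 h3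
      obtain ⟨n, hn1, hn2⟩ := (h1.and h4).exists
      obtain ⟨i, hi, h5⟩ := hn1
      exact hn2 i hi h5
    obtain ⟨i, -, hi⟩ := h2
    obtain ⟨n, hn⟩ := hi.exists
    refine ⟨phi i, phi_nonneg i, phi_le_one i, hn.1, ?_⟩
    exact ge_of_tendsto (hl (phi i)) (hi.mono fun n hn => hn.2)

/-- **The set is Borel.** -/
theorem det_meas {p q : ℕ} {F : ℕ → Finset (ℕ × ℕ)} (hF : ∀ k, (F k).Nonempty) :
    MeasurableSet (Det p q F) := by
  have e : Det p q F = ⋂ k : ℕ, ⋃ R : ℕ, ⋂ n : ℕ, {x | R ≤ n → ∃ i, i ≤ R ∧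
      ∫ y, phi i y ≤ (1 / 2 : ℝ) ^ k ∧ 1 - (1 / 2 : ℝ) ^ k ≤ ave p q (F n) (phi i) x} := by
    ext x
    rw [det_iff hF]
    simp only [mem_iInter, mem_iUnion]
    rfl
  rw [e]
  refine MeasurableSet.iInter fun k => MeasurableSet.iUnion fun R => MeasurableSet.iInter fun n => ?_
  by_cases hRn : R ≤ n
  · have e2 : {x | R ≤ n → ∃ i, i ≤ R ∧
        ∫ y, phi i y ≤ (1 / 2 : ℝ) ^ k ∧ 1 - (1 / 2 : ℝ) ^ k ≤ ave p q (F n) (phi i) x} =
        ⋃ i : ℕ, {x | (i ≤ R ∧ ∫ y, phi i y ≤ (1 / 2 : ℝ) ^ k) ∧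
          1 - (1 / 2 : ℝ) ^ k ≤ ave p q (F n) (phi i) x} := by
      ext x
      simp only [mem_iUnion, hRn, true_imp_iff]
      constructor
      · rintro ⟨i, h1, h2, h3⟩
        exact ⟨i, ⟨h1, h2⟩, h3⟩
      · rintro ⟨i, ⟨h1, h2⟩, h3⟩
        exact ⟨i, h1, h2, h3⟩
    rw [e2]
    refine MeasurableSet.iUnion fun i => ?_
    refine (MeasurableSet.const _).inter ?_
    exact (isClosed_le continuous_const (ave_mono_cont (phi i))).measurableSet
  · have e2 : {x | R ≤ n → ∃ i, i ≤ R ∧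
        ∫ y, phi i y ≤ (1 / 2 : ℝ) ^ k ∧ 1 - (1 / 2 : ℝ) ^ k ≤ ave p q (F n) (phi i) x} =
        univ := by
      ext x
      simp only [hRn, false_imp_iff]
      rfl
    rw [e2]
    exact MeasurableSet.univ

end Pool.Agent.Zk32
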