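import Mathlib
import Pool.Agent.Zk32.Tu6

/-!
Every singular invariant measure is carried by the set of the points with singular limits, and the
set does not contain the points for which the strips were made
-/

set_option autoImplicit false

open MeasureTheory Filter Topology Set
open scoped ENNReal

namespace Pool.Agent.Zk32

/-- the maps `x ↦ p ^ i * q ^ j * x` preserve the measure -/
lemma mp_pq {p q : ℕ} {ν : Measure UnitAddCircle}
    (hνp : MeasurePreserving (fun x : UnitAddCircle => p • x) ν ν)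
    (hνq : MeasurePreserving (fun x : UnitAddCircle => q • x) ν ν) (i j : ℕ) :
    MeasurePreserving (fun x : UnitAddCircle => (p ^ i * q ^ j) • x) ν ν := by
  have hpow : ∀ (r : ℕ), MeasurePreserving (fun x : UnitAddCircle => r • x) ν ν →
      ∀ i : ℕ, MeasurePreserving (fun x : UnitAddCircle => r ^ i • x) ν ν := by
    intro r hr i
    induction i with
    | zero =>
      have e : (fun x : UnitAddCircle => r ^ 0 • x) = id := by
        funext x
        simp
      rw [e]
      exact MeasurePreserving.id ν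
    | succ i ih =>
      have e : (fun x : UnitAddCircle => r ^ (i + 1) • x) =
          (fun x : UnitAddCircle => r • x) ∘ fun x => r ^ i • x := by
        funext x
        show r ^ (i + 1) • x = r • (r ^ i • x)
        rw [smul_smul, pow_succ, mul_comm]
      rw [e]
      exact hr.comp ih
  have e : (fun x : UnitAddCircle => (p ^ i * q ^ j) • x) =
      (fun x : UnitAddCircle => p ^ i • x) ∘ fun x => q ^ j • x := by
    funext x
    show (p ^ i * q ^ j) • x = p ^ i • (q ^ j • x)
    rw [mul_smul]
  rw [e]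
  exact (hpow p hνp i).comp (hpow q hνq j)

/-- **Every singular invariant measure is carried by the set.** -/
theorem det_ae {p q : ℕ} {F : ℕ → Finset (ℕ × ℕ)} (hF : ∀ k, (F k).Nonempty)
    {ν : Measure UnitAddCircle} [IsProbabilityMeasure ν]
    (hνp : MeasurePreserving (fun x : UnitAddCircle => p • x) ν ν)
    (hνq : MeasurePreserving (fun x : UnitAddCircle => q • x) ν ν)
    (hsing : ν ⟂ₘ (volume : Measure UnitAddCircle))
    (hconv : ∀ g : C(UnitAddCircle, ℝ), ∀ᵐ x ∂ν, ∃ c : ℝ,
      Tendsto (fun k => ave p q (F k) g x) atTop (𝓝 c)) :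
    ∀ᵐ x ∂ν, x ∈ Det p q F := by
  -- the condition of `det_iff`
  set B : ℕ → UnitAddCircle → Prop := fun k x => ∃ R : ℕ, ∀ n, R ≤ n → ∃ i, i ≤ R ∧
      ∫ y, phi i y ≤ (1 / 2 : ℝ) ^ k ∧ 1 - (1 / 2 : ℝ) ^ k ≤ ave p q (F n) (phi i) x with hB
  have hBmono : ∀ k l x, k ≤ l → B l x → B k x := by
    rintro k l x hkl ⟨R, hR⟩
    have h1 : (1 / 2 : ℝ) ^ l ≤ (1 / 2 : ℝ) ^ k :=
      pow_le_pow_of_le_one (by norm_num) (by norm_num) hkl
    refine ⟨R, fun n hn => ?_⟩
    obtain ⟨i, hi, h2, h3⟩ := hR n hn
    exact ⟨i, hi, h2.trans h1, by linarith⟩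
  -- one step
  have hstep : ∀ k : ℕ, ν {x | ¬ B k x} ≤ ENNReal.ofReal (2 * (1 / 2 : ℝ) ^ k) := by
    intro k
    set e : ℝ := (1 / 2 : ℝ) ^ k with he
    have he0 : 0 < e := by positivity
    have he1 : e ≤ 1 := pow_le_one₀ (by norm_num) (by norm_num)
    obtain ⟨i, hi1, hi2⟩ := phi_of_sing hsing (ε := e * e) (by positivity)
    have hi1' : ∫ y, phi i y ≤ e := hi1.trans (by nlinarith)
    -- the limit function
    have hc : ∀ᵐ x ∂ν, ∃ c : ℝ, Tendsto (fun k => ave p q (F k) (phi i) x) atTop (𝓝 c) :=
      hconv (phi i)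
    set h : UnitAddCircle → ℝ := fun x => limUnder atTop fun k => ave p q (F k) (phi i) x with hh
    have hlim : ∀ᵐ x ∂ν, Tendsto (fun k => ave p q (F k) (phi i) x) atTop (𝓝 (h x)) := by
      filter_upwards [hc] with x hx
      exact tendsto_nhds_limUnder hx
    have hb0 : ∀ k x, 0 ≤ ave p q (F k) (phi i) x := fun k x =>
      mul_nonneg (by positivity) (Finset.sum_nonneg fun n _ => phi_nonneg i _)
    have hb1 : ∀ k x, ave p q (F k) (phi i) x ≤ 1 := by
      intro k x
      unfold ave
      have hcard : (0 : ℝ) < (F k).card := by exact_mod_cast (hF k).card_pos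
      rw [inv_mul_le_iff₀ hcard, mul_one]
      calc ∑ n ∈ F k, phi i ((p ^ n.1 * q ^ n.2) • x) ≤ ∑ n ∈ F k, (1 : ℝ) :=
            Finset.sum_le_sum fun n _ => phi_le_one i _
        _ = (F k).card := by rw [Finset.sum_const, nsmul_eq_mul, mul_one]
    have hint : ∀ k, ∫ x, ave p q (F k) (phi i) x ∂ν = ∫ x, phi i x ∂ν := by
      intro k
      have hcard : (0 : ℝ) < (F k).card := by exact_mod_cast (hF k).card_pos
      unfold ave
      rw [integral_const_mul, integral_finsetSum _ fun n _ =>
        int_contX ν ((phi i).comp (mulX (p ^ n.1 * q ^ n.2)))]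
      have h1 : ∀ n ∈ F k, ∫ x, phi i ((p ^ n.1 * q ^ n.2) • x) ∂ν = ∫ x, phi i x ∂ν := by
        intro n _
        have hm := mp_pq hνp hνq n.1 n.2
        exact integral_map hm.measurable.aemeasurable
          (phi i).continuous.aestronglyMeasurable ▸ by rw [hm.map_eq]
      rw [Finset.sum_congr rfl h1, Finset.sum_const, nsmul_eq_mul, inv_mul_cancel_left₀ hcard.ne']
    have hhint : ∫ x, h x ∂ν = ∫ x, phi i x ∂ν := by
      have h1 := tendsto_integral_of_dominated_convergence (μ := ν) (fun _ => (1 : ℝ))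
        (F := fun k x => ave p q (F k) (phi i) x) (f := h)
        (fun k => (aveX_cont (phi i)).aestronglyMeasurable) (integrable_const _)
        (fun k => Eventually.of_forall fun x => by
          rw [Real.norm_eq_abs, abs_of_nonneg (hb0 k x)]
          exact hb1 k x) hlim
      simp only [hint] at h1
      exact tendsto_nhds_unique h1 tendsto_const_nhds |>.symm ▸ rfl
    have hh0 : ∀ᵐ x ∂ν, 0 ≤ 1 - h x := by
      filter_upwards [hlim] with x hx
      have := le_of_tendsto' hx fun k => hb1 k x
      linarith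
    have hhi : Integrable h ν := by
      refine Integrable.mono' (integrable_const (1 : ℝ))
        (aestronglyMeasurable_of_tendsto_ae atTop
          (fun k => (aveX_cont (p := p) (q := q) (F := F k) (phi i)).aestronglyMeasurable) hlim) ?_
      filter_upwards [hlim] with x hx
      rw [Real.norm_eq_abs, abs_le]
      have h1 := le_of_tendsto' hx fun k => hb1 k x
      have h2 := ge_of_tendsto' hx fun k => hb0 k x
      constructor <;> linarith
    have hmk := mul_meas_ge_le_integral_of_nonneg (μ := ν) hh0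
      ((integrable_const (1 : ℝ)).sub hhi) (e / 2)
    have h3 : ∫ x, (1 - h x) ∂ν = 1 - ∫ x, phi i x ∂ν := by
      rw [integral_sub (integrable_const _) hhi, integral_const, probReal_univ, one_smul, hhint]
    have hsub : ν {x | ¬ B k x} ≤ ν {x | e / 2 ≤ 1 - h x} := by
      refine measure_mono_ae ?_
      filter_upwards [hlim] with x hx hnB
      by_contra hcon
      apply hnB
      have h4 : 1 - e < h x := by
        have : ¬ e / 2 ≤ 1 - h x := hcon
        linarith
      obtain ⟨R, hR⟩ := eventually_atTop.1 ((tendsto_order.1 hx).1 _ h4)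
      refine ⟨max R i, fun n hn => ⟨i, le_max_right _ _, hi1', ?_⟩⟩
      exact (hR n ((le_max_left _ _).trans hn)).le
    refine hsub.trans ?_
    rw [← ofReal_measureReal (measure_ne_top _ _)]
    refine ENNReal.ofReal_le_ofReal ?_
    have h5 : e / 2 * ν.real {x | e / 2 ≤ 1 - h x} ≤ e * e := by
      refine hmk.trans ?_
      have : ∫ x, (1 - h x) ∂ν ≤ e * e := by rw [h3]; linarith
      exact this
    have h6 : ν.real {x | e / 2 ≤ 1 - h x} ≤ 2 * e := by
      by_contra hcon
      push Not at hcon
      nlinarith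
    exact h6
  have hall : ∀ k : ℕ, ν {x | ¬ B k x} = 0 := by
    intro k
    refine le_antisymm (ge_of_tendsto' (?_ : Tendsto (fun l : ℕ =>
      ENNReal.ofReal (2 * (1 / 2 : ℝ) ^ (k + l))) atTop (𝓝 0)) fun l => ?_) zero_le
    · have h1 : Tendsto (fun l : ℕ => 2 * (1 / 2 : ℝ) ^ (k + l)) atTop (𝓝 (2 * 0)) := by
        refine Tendsto.const_mul 2 ?_
        have h2 := (tendsto_pow_atTop_nhds_zero_of_lt_one (r := (1 / 2 : ℝ)) (by norm_num)
          (by norm_num)).comp (tendsto_add_atTop_nat k)
        refine h2.congr fun l => ?_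
        simp only [Function.comp_apply, add_comm]
      rw [mul_zero] at h1
      have := ENNReal.tendsto_ofReal h1
      rwa [ENNReal.ofReal_zero] at this
    · refine (measure_mono fun x hx => ?_).trans (hstep (k + l))
      exact fun h => hx (hBmono k (k + l) x (by omega) h)
  have h1 : ∀ᵐ x ∂ν, ∀ k, B k x := by
    rw [ae_all_iff]
    intro k
    exact measure_eq_zero_iff_ae_notMem.1 (hall k) |>.mono fun x hx => not_not.1 hx
  filter_upwards [h1] with x hx
  exact (det_iff hF x).2 hx

/-- **The set does not contain the points for which the strips were made.** -/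
theorem det_notMem {p q : ℕ} {F : ℕ → Finset (ℕ × ℕ)} (hF : ∀ k, (F k).Nonempty)
    {θ : ℕ → UnitAddCircle}
    (h : ∀ (m : ℕ), ∀ j ≤ m, ∀ c : UnitAddCircle,
      ave p q (F m) (tent c (rad j)) (θ (Nat.unpair m).1) ≤ 80 * rad j + 1 / ((m : ℝ) + 1))
    (l : ℕ) : θ l ∉ Det p q F := by
  intro hx
  set 𝒰 : Ultrafilter ℕ := (Filter.hyperfilter ℕ).map fun k => Nat.pair l k with h𝒰
  have hnt : Tendsto (fun k => Nat.pair l k) atTop atTop :=
    tendsto_atTop_mono (fun k => Nat.right_le_pair l k) tendsto_id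
  have h𝒰a : (𝒰 : Filter ℕ) ≤ atTop := by
    rw [h𝒰, Ultrafilter.coe_map]
    exact hnt.mono_left hyper_le
  obtain ⟨κ, hκ, hl⟩ := lim_point (p := p) (q := q) hF 𝒰 (θ l)
  have hs := hx 𝒰 h𝒰a κ hκ hl
  have hac : κ ≪ volume := by
    refine ac_of_tent (C := 80) (by norm_num) fun c j => ?_
    have h1m : Tendsto (fun m : ℕ => 80 * rad j + 1 / ((m : ℝ) + 1)) (𝒰 : Filter ℕ)
        (𝓝 (80 * rad j)) := by
      have := (tendsto_one_div_add_atTop_nhds_zero_nat (𝕜 := ℝ)).const_add (80 * rad j)
      rw [add_zero] at this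
      exact this.mono_left h𝒰a
    refine le_of_tendsto_of_tendsto (hl (tent c (rad j))) h1m ?_
    rw [h𝒰, Ultrafilter.coe_map, EventuallyLE, eventually_map]
    filter_upwards [hyper_le (eventually_ge_atTop j)] with k hk
    have h1 := h (Nat.pair l k) j (hk.trans (Nat.right_le_pair l k)) c
    rw [Nat.unpair_pair] at h1
    exact h1
  have h0 : κ = 0 := Measure.eq_zero_of_absolutelyContinuous_of_mutuallySingular hac hs
  have h1 : κ univ = 1 := measure_univ
  rw [h0] at h1
  simp at h1

end Pool.Agent.Zk32
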