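import Mathlib
import Pool.Agent.Zk32.Tu1
import Pool.Agent.Zk32.Tu4
import Pool.Agent.Zk32.Tu7
import Pool.Agent.Zk24.SL.DetG
import Pool.Agent.Zk24.SL.Lin
import Pool.Agent.Zk85.Tu2

/-!
A Borel rational subspace which carries all the singular invariant measures
-/

set_option autoImplicit false

open MeasureTheory Filter Topology Set
open scoped ENNReal
open Pool.Agent.Zk24.SL (lin_one)

namespace Pool.Agent.Zk32

/-- the numbers with a multiple in a Borel group are a Borel set -/
lemma linH_meas {H : AddSubgroup UnitAddCircle} (hH : MeasurableSet (H : Set UnitAddCircle)) :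
    MeasurableSet (Pool.Agent.Zk24.SL.lin H : Set ℝ) := by
  have e : (Pool.Agent.Zk24.SL.lin H : Set ℝ) = ⋃ n : ℕ,
      {X : ℝ | 0 < n ∧ (((n : ℝ) * X : ℝ) : UnitAddCircle) ∈ (H : Set UnitAddCircle)} := by
    ext X
    simp only [mem_iUnion]
    rfl
  rw [e]
  refine MeasurableSet.iUnion fun n => (MeasurableSet.const _).inter ?_
  have h1 : Measurable fun X : ℝ => (((n : ℝ) * X : ℝ) : UnitAddCircle) :=
    AddCircle.measurable_mk'.comp (measurable_const_mul (n : ℝ))
  exact h1 hH

/-- **The universal rational subspace.** One Borel rational subspace carries every singular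
invariant measure, and it contains no irrational number of a given countable field. -/
theorem exists_univ {p q : ℕ} (hp : 2 ≤ p) (hq : 2 ≤ q) (hpq : Nat.Coprime p q)
    {K : Subfield ℝ} (hK : (K : Set ℝ).Countable) :
    ∃ L : Submodule ℚ ℝ, MeasurableSet (L : Set ℝ) ∧ (1 : ℝ) ∈ L ∧
      (∀ x ∈ L, x ∈ K → ∃ a : ℚ, x = a) ∧
      ∀ ν : Measure UnitAddCircle, IsProbabilityMeasure ν →
        MeasurePreserving (fun x : UnitAddCircle => p • x) ν ν →
        MeasurePreserving (fun x : UnitAddCircle => q • x) ν ν →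
        ν ⟂ₘ (volume : Measure UnitAddCircle) →
        ∀ᵐ x ∂ν, ∀ X : ℝ, (X : UnitAddCircle) = x → X ∈ L := by
  have hirr := Pool.Agent.Zk24.SC.irr_of_coprime hp hq hpq
  -- an enumeration of the irrational numbers of the field
  set I : Set ℝ := {x | x ∈ K ∧ Irrational x} ∪ {√2} with hI
  have hIc : I.Countable := (hK.mono fun x hx => hx.1).union (countable_singleton _)
  obtain ⟨f, hf⟩ := hIc.exists_eq_range ⟨√2, Or.inr rfl⟩
  have hfi : ∀ k, Irrational (f k) := by
    intro k
    have h1 : f k ∈ I := hf ▸ mem_range_self k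
    rcases h1 with h1 | h1
    · exact h1.2
    · rw [mem_singleton_iff.1 h1]
      exact irrational_sqrt_two
  have hft : ∀ k, ((f k : ℝ) : UnitAddCircle) ∉ Tor := by
    rintro k ⟨n, hn, h0⟩
    have hfin : IsOfFinAddOrder ((f k : ℝ) : UnitAddCircle) :=
      isOfFinAddOrder_iff_nsmul_eq_zero.2 ⟨n, hn, h0⟩
    obtain ⟨a, ha⟩ := Pool.Agent.Zk24.SL.rat_of_torsion hfin
    exact hfi k ⟨a, ha.symm⟩
  obtain ⟨F, hF, hT, hθ⟩ := exists_strips hp hq hirr (θ := fun k => ((f k : ℝ) : UnitAddCircle)) hft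
  obtain ⟨H, hH⟩ := Pool.Agent.Zk24.SL.det_group hp hq hpq hF
  have hHm : MeasurableSet (H : Set UnitAddCircle) := by
    rw [hH]
    exact det_meas hF.1
  refine ⟨Pool.Agent.Zk24.SL.lin H, linH_meas hHm, lin_one H, ?_, ?_⟩
  · rintro x ⟨n, hn, hx⟩ hxK
    by_contra hne
    have hi : Irrational x := fun ⟨a, ha⟩ => hne ⟨a, ha.symm⟩
    have hnx : Irrational ((n : ℝ) * x) := by
      exact_mod_cast hi.natCast_mul hn.ne'
    have hmem : (n : ℝ) * x ∈ I := by
      left
      exact ⟨K.mul_mem (natCast_mem K n) hxK, hnx⟩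
    rw [hf] at hmem
    obtain ⟨k, hk⟩ := hmem
    have h0 : ((f k : ℝ) : UnitAddCircle) ∉ Det p q F :=
      det_notMem (θ := fun k => ((f k : ℝ) : UnitAddCircle)) hF.1 hθ k
    apply h0
    rw [← hH, hk]
    exact hx
  · intro ν hν hνp hνq hsing
    have h1 : ∀ᵐ x ∂ν, x ∈ Det p q F := by
      refine det_ae hF.1 hνp hνq hsing fun g => ?_
      exact Pool.Agent.Zk85.Tu.ae_conv hνp hνq hF (C := 54) (by norm_num)
        (fun φ hφ hφ0 hφi l hl => maximal hνp hνq hF.1 (by norm_num) hT hφ hφ0 hφi hl) g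
    filter_upwards [h1] with x hx X hX
    refine ⟨1, one_pos, ?_⟩
    rw [Nat.cast_one, one_mul, hX]
    have h2 : x ∈ (H : Set UnitAddCircle) := by rw [hH]; exact hx
    exact h2

end Pool.Agent.Zk32
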