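import Mathlib
import Pool.Agent.Zk32.Gp13
import Pool.Agent.Zk32.Unif

/-!
One Borel set for all invariant measures
-/

set_option autoImplicit false
set_option linter.unusedSectionVars false

open MeasureTheory Filter Topology Set
open scoped ENNReal NNReal BoundedContinuousFunction

namespace Pool.Agent.Zk32

/-- averaging a function of `c x + w` over the noise -/
noncomputable def SW (ω : Measure UnitAddCircle) [IsFiniteMeasure ω] (c : ℤ)
    (g : C(UnitAddCircle, ℝ)) : C(UnitAddCircle, ℝ) where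
  toFun x := ∫ w, g (c • x + w) ∂ω
  continuous_toFun := by
    obtain ⟨B, hB0, hB⟩ := cont_bound g
    apply continuous_of_dominated (bound := fun _ => B)
    · intro x
      have : Continuous (fun w : UnitAddCircle => g (c • x + w)) := by fun_prop
      exact this.aestronglyMeasurable
    · intro x
      exact Eventually.of_forall fun w => hB _
    · exact integrable_const B
    · refine Eventually.of_forall fun w => ?_
      fun_prop

lemma SW_apply (ω : Measure UnitAddCircle) [IsFiniteMeasure ω] (c : ℤ)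
    (g : C(UnitAddCircle, ℝ)) (x : UnitAddCircle) : SW ω c g x = ∫ w, g (c • x + w) ∂ω := rfl

lemma SW_add (ω : Measure UnitAddCircle) [IsFiniteMeasure ω] (c : ℤ) (g h : C(UnitAddCircle, ℝ)) :
    SW ω c (g + h) = SW ω c g + SW ω c h := by
  ext x
  rw [ContinuousMap.add_apply, SW_apply, SW_apply, SW_apply]
  have hi : ∀ g : C(UnitAddCircle, ℝ), Integrable (fun w => g (c • x + w)) ω := fun g =>
    int_cont ω (g.comp ⟨fun w => c • x + w, by fun_prop⟩)
  rw [← integral_add (hi g) (hi h)]
  rfl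

lemma SW_smul (ω : Measure UnitAddCircle) [IsFiniteMeasure ω] (c : ℤ) (a : ℝ)
    (g : C(UnitAddCircle, ℝ)) : SW ω c (a • g) = a • SW ω c g := by
  ext x
  rw [ContinuousMap.smul_apply, SW_apply, SW_apply, smul_eq_mul, ← integral_const_mul]
  rfl

lemma SW_nonneg (ω : Measure UnitAddCircle) [IsFiniteMeasure ω] (c : ℤ) {g : C(UnitAddCircle, ℝ)}
    (h : ∀ x, 0 ≤ g x) (x : UnitAddCircle) : 0 ≤ SW ω c g x := by
  rw [SW_apply]; exact integral_nonneg (fun w => h _)

lemma int_SW (ν ω : Measure UnitAddCircle) [IsProbabilityMeasure ν] [IsProbabilityMeasure ω]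
    (c : ℤ) (g : C(UnitAddCircle, ℝ)) :
    ∫ x, g x ∂((ν.prod ω).map (fun z : UnitAddCircle × UnitAddCircle => c • z.1 + z.2)) =
      ∫ x, SW ω c g x ∂ν := by
  rw [integral_map (lc_meas c).aemeasurable g.continuous.aestronglyMeasurable]
  have hc : Continuous (fun z : UnitAddCircle × UnitAddCircle => g (c • z.1 + z.2)) := by fun_prop
  have hi : Integrable (fun z : UnitAddCircle × UnitAddCircle => g (c • z.1 + z.2))
      (ν.prod ω) := int_contX _ ⟨_, hc⟩
  rw [integral_prod _ hi]
  rfl

/-- invariance under multiplication by `r` -/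
def InvM (r : ℕ) (ν : Measure UnitAddCircle) : Prop :=
  ∀ g : C(UnitAddCircle, ℝ), ∫ x, g (r • x) ∂ν = ∫ x, g x ∂ν

lemma invM_iff {r : ℕ} {ν : Measure UnitAddCircle} [IsFiniteMeasure ν] :
    InvM r ν ↔ MeasurePreserving (fun x : UnitAddCircle => r • x) ν ν := by
  constructor
  · intro h
    refine ⟨nsmul_meas r, ?_⟩
    have : IsFiniteMeasure (ν.map (fun x : UnitAddCircle => r • x)) := inferInstance
    refine ext_of_forall_integral_eq_of_IsFiniteMeasure fun f => ?_
    rw [integral_map (nsmul_meas r).aemeasurable f.continuous.aestronglyMeasurable]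
    exact h f.toContinuousMap
  · intro h g
    have h7 := integral_map (μ := ν) h.measurable.aemeasurable
      (f := fun x => g x) g.continuous.aestronglyMeasurable
    rw [h.map_eq] at h7
    exact h7.symm

/-- integration of a continuous function is continuous on probability measures -/
lemma cont_integral (g : C(UnitAddCircle, ℝ)) :
    Continuous (fun ν : ProbabilityMeasure UnitAddCircle => ∫ x, g x ∂(ν : Measure UnitAddCircle)) := by
  rw [continuous_iff_continuousAt]
  intro ν
  have h : Tendsto (fun ν : ProbabilityMeasure UnitAddCircle => ν) (𝓝 ν) (𝓝 ν) := tendsto_id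
  exact (ProbabilityMeasure.tendsto_iff_forall_integral_tendsto.mp h)
    (BoundedContinuousFunction.mkOfCompact g)

/-- the functions with integral below `ε` for all invariant measures -/
def OI (p q : ℕ) (ε : ℝ) : Set C(UnitAddCircle, ℝ) :=
  {f | ∀ ν : Measure UnitAddCircle, IsProbabilityMeasure ν → InvM p ν → InvM q ν → ∫ x, f x ∂ν < ε}

lemma OI_open (p q : ℕ) (ε : ℝ) : IsOpen (OI p q ε) := by
  rw [Metric.isOpen_iff]
  intro f hf
  set V : Set (ProbabilityMeasure UnitAddCircle) :=
    {ν | InvM p (ν : Measure UnitAddCircle) ∧ InvM q (ν : Measure UnitAddCircle)} with hV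
  have hVc : IsClosed V := by
    have h1 : ∀ r : ℕ, IsClosed {ν : ProbabilityMeasure UnitAddCircle |
        InvM r (ν : Measure UnitAddCircle)} := by
      intro r
      have : {ν : ProbabilityMeasure UnitAddCircle | InvM r (ν : Measure UnitAddCircle)} =
          ⋂ g : C(UnitAddCircle, ℝ), {ν : ProbabilityMeasure UnitAddCircle |
            ∫ x, (g.comp (mulX r)) x ∂(ν : Measure UnitAddCircle) =
            ∫ x, g x ∂(ν : Measure UnitAddCircle)} := by
        ext ν
        simp only [Set.mem_ofPred_eq, Set.mem_iInter]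
        exact Iff.rfl
      rw [this]
      exact isClosed_iInter fun g => isClosed_eq (cont_integral _) (cont_integral _)
    exact (h1 p).inter (h1 q)
  by_cases hne : V.Nonempty
  · obtain ⟨ν₀, hν₀, hmax⟩ := hVc.isCompact.exists_isMaxOn hne (cont_integral f).continuousOn
    have h1 : ∫ x, f x ∂(ν₀ : Measure UnitAddCircle) < ε := hf _ inferInstance hν₀.1 hν₀.2
    refine ⟨ε - ∫ x, f x ∂(ν₀ : Measure UnitAddCircle), by linarith, fun f' hf' => ?_⟩
    intro ν hν hνp hνq
    have h2 : ∫ x, f x ∂ν ≤ ∫ x, f x ∂(ν₀ : Measure UnitAddCircle) :=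
      hmax (show (⟨ν, hν⟩ : ProbabilityMeasure UnitAddCircle) ∈ V from ⟨hνp, hνq⟩)
    have h3 : ∫ x, f' x ∂ν - ∫ x, f x ∂ν ≤ dist f' f := by
      rw [← integral_sub (int_cont ν f') (int_cont ν f)]
      have h4 : ∫ x, (f' x - f x) ∂ν ≤ ∫ _x, dist f' f ∂ν := by
        refine integral_mono ((int_cont ν f').sub (int_cont ν f)) (integrable_const _) fun x => ?_
        have h5 := ContinuousMap.dist_apply_le_dist (f := f') (g := f) x
        rw [Real.dist_eq] at h5
        exact (le_abs_self _).trans h5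
      rwa [integral_const, probReal_univ, one_smul] at h4
    have h6 : dist f' f < ε - ∫ x, f x ∂(ν₀ : Measure UnitAddCircle) := hf'
    linarith
  · refine ⟨1, one_pos, fun f' _ => ?_⟩
    intro ν hν hνp hνq
    exact absurd ⟨(⟨ν, hν⟩ : ProbabilityMeasure UnitAddCircle), hνp, hνq⟩ hne

/-- the minimax step -/
theorem unif_inv {p q : ℕ} {μ ω : Measure UnitAddCircle} [IsProbabilityMeasure μ]
    [IsProbabilityMeasure ω] (c : ℤ)
    (h : ∀ ν : Measure UnitAddCircle, IsProbabilityMeasure ν → InvM p ν → InvM q ν →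
      μ.MutuallySingular ((ν.prod ω).map (fun z : UnitAddCircle × UnitAddCircle =>
        c • z.1 + z.2)))
    {ε : ℝ} (hε : 0 < ε) :
    ∃ g : C(UnitAddCircle, ℝ), (∀ x, 0 ≤ g x) ∧ (∀ x, g x ≤ 1) ∧
      (∀ ν : Measure UnitAddCircle, IsProbabilityMeasure ν → InvM p ν → InvM q ν →
        ∫ x, SW ω c g x ∂ν < ε) ∧ 1 - ∫ x, g x ∂μ < ε := by
  by_contra hcon
  push Not at hcon
  have hc0 : ∀ g : C(UnitAddCircle, ℝ), (∀ x, g x ≤ 1) → 0 ≤ 1 - ∫ x, g x ∂μ := by
    intro g hg
    have : ∫ x, g x ∂μ ≤ ∫ _, (1 : ℝ) ∂μ := integral_mono (int_cont μ g) (integrable_const _) hg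
    simp only [integral_const, probReal_univ, smul_eq_mul, mul_one] at this
    linarith
  -- there is an invariant measure
  have hinv : InvM p (Measure.dirac (0 : UnitAddCircle)) ∧
      InvM q (Measure.dirac (0 : UnitAddCircle)) := by
    constructor <;>
    · intro g
      rw [integral_dirac, integral_dirac, smul_zero]
  set O : Set C(UnitAddCircle, ℝ) := OI p q ε with hO
  set S : Set C(UnitAddCircle, ℝ) := {f | ∃ g : C(UnitAddCircle, ℝ), (∀ x, 0 ≤ g x) ∧
    (∀ x, g x ≤ 1) ∧ ∀ t, f t = SW ω c g t + (1 - ∫ x, g x ∂μ)} with hS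
  have hOo : IsOpen O := OI_open p q ε
  have hOc : Convex ℝ O := by
    intro f hf g hg a b ha hb hab ν hν hνp hνq
    have h1 := hf ν hν hνp hνq
    have h2 := hg ν hν hνp hνq
    have h3 : ∫ x, (a • f + b • g) x ∂ν = a * ∫ x, f x ∂ν + b * ∫ x, g x ∂ν := by
      rw [← integral_const_mul, ← integral_const_mul,
        ← integral_add ((int_cont ν f).const_mul a) ((int_cont ν g).const_mul b)]
      rfl
    rw [h3]
    rcases ha.eq_or_lt with h0 | h0
    · rw [← h0] at hab ⊢
      have : b = 1 := by linarith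
      rw [this]; linarith
    · nlinarith
  have hSc : Convex ℝ S := by
    rintro f ⟨g, hg0, hg1, hg⟩ f' ⟨g', hg0', hg1', hg'⟩ a b ha hb hab
    refine ⟨a • g + b • g', fun x => ?_, fun x => ?_, fun t => ?_⟩
    · change 0 ≤ a * g x + b * g' x
      have := mul_nonneg ha (hg0 x)
      have := mul_nonneg hb (hg0' x)
      linarith
    · change a * g x + b * g' x ≤ 1
      have := mul_le_mul_of_nonneg_left (hg1 x) ha
      have := mul_le_mul_of_nonneg_left (hg1' x) hb
      linarith
    · rw [SW_add, SW_smul, SW_smul]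
      change a * f t + b * f' t = (a * SW ω c g t + b * SW ω c g' t) + _
      have h3 : ∫ x, (a • g + b • g') x ∂μ = a * ∫ x, g x ∂μ + b * ∫ x, g' x ∂μ := by
        rw [← integral_const_mul, ← integral_const_mul,
          ← integral_add ((int_cont μ g).const_mul a) ((int_cont μ g').const_mul b)]
        rfl
      rw [h3, hg t, hg' t]
      linear_combination hab
  have hcst : ∀ (ν : Measure UnitAddCircle) [IsProbabilityMeasure ν] (g : C(UnitAddCircle, ℝ))
      (a : ℝ), ∫ x, (SW ω c g x + a) ∂ν = ∫ x, SW ω c g x ∂ν + a := by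
    intro ν _ g a
    rw [integral_add (int_cont ν _) (integrable_const _), integral_const, probReal_univ, one_smul]
  have hdis : Disjoint O S := by
    rw [Set.disjoint_left]
    rintro f hf ⟨g, hg0, hg1, hg⟩
    have h2 := hc0 g hg1
    have h1 : ∀ ν : Measure UnitAddCircle, IsProbabilityMeasure ν → InvM p ν → InvM q ν →
        ∫ x, SW ω c g x ∂ν + (1 - ∫ x, g x ∂μ) < ε := by
      intro ν hν hνp hνq
      rw [← hcst ν g]
      have := hf ν hν hνp hνq
      simpa only [hg] using this
    have h3 : ∀ ν : Measure UnitAddCircle, IsProbabilityMeasure ν → InvM p ν → InvM q ν →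
        ∫ x, SW ω c g x ∂ν < ε := fun ν hν hνp hνq => by
      have := h1 ν hν hνp hνq
      linarith
    have h4 := hcon g hg0 hg1 h3
    have h5 := h1 _ inferInstance hinv.1 hinv.2
    have h6 : 0 ≤ ∫ x, SW ω c g x ∂(Measure.dirac (0 : UnitAddCircle)) :=
      integral_nonneg (SW_nonneg ω c hg0)
    linarith
  obtain ⟨L, u, hL1, hL2⟩ := geometric_hahn_banach_open hOc hOo hSc hdis
  have h0O : (0 : C(UnitAddCircle, ℝ)) ∈ O := fun ν _ _ _ => by
    change ∫ _x, (0 : ℝ) ∂ν < ε
    rw [integral_zero]; exact hε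
  have hu0 : 0 < u := by
    have := hL1 0 h0O
    rwa [map_zero] at this
  have hpos : ∀ g : C(UnitAddCircle, ℝ), (∀ x, 0 ≤ g x) → 0 ≤ L g := by
    intro g hg
    by_contra hneg
    push Not at hneg
    have h1 : ∀ t : ℝ, 0 ≤ t → -t * L g < u := by
      intro t ht
      have h2 : (-t) • g ∈ O := by
        intro ν hν _ _
        change ∫ x, -t * g x ∂ν < ε
        rw [integral_const_mul]
        have h3 : 0 ≤ ∫ x, g x ∂ν := integral_nonneg hg
        have := mul_nonneg ht h3
        linarith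
      have h3 := hL1 _ h2
      rw [map_smul] at h3
      exact h3
    have h2 := h1 (u / (-L g)) (by
      apply div_nonneg hu0.le; linarith)
    have h3 : -(u / (-L g)) * L g = u := by
      have : L g ≠ 0 := hneg.ne
      field_simp
    linarith
  have hS0 : ∃ f, f ∈ S := by
    refine ⟨⟨fun _ => 1, continuous_const⟩, 0, fun x => le_rfl, fun x => zero_le_one, fun t => ?_⟩
    rw [SW_apply]
    simp
  have hL1pos : 0 < L 1 := by
    have h1 : 0 ≤ L 1 := hpos 1 (fun x => zero_le_one)
    rcases h1.eq_or_lt with h2 | h2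
    · exfalso
      obtain ⟨f, hf⟩ := hS0
      have h3 := hL2 f hf
      have h4 : L f ≤ 0 := by
        have h5 : 0 ≤ L (‖f‖ • (1 : C(UnitAddCircle, ℝ)) - f) := by
          apply hpos
          intro x
          change 0 ≤ ‖f‖ * 1 - f x
          have := (abs_le.mp (by simpa using f.norm_coe_le_norm x : |f x| ≤ ‖f‖)).2
          linarith
        rw [map_sub, map_smul, ← h2, smul_zero] at h5
        linarith
      linarith
    · exact h2
  set L' : C(UnitAddCircle, ℝ) →L[ℝ] ℝ := (L 1)⁻¹ • L with hL'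
  have hL'a : ∀ g, L' g = (L 1)⁻¹ * L g := fun g => rfl
  obtain ⟨ν, hν, hνL⟩ := riesz_prob L' (fun g hg => by
    rw [hL'a]; exact mul_nonneg (inv_nonneg.mpr hL1pos.le) (hpos g hg)) (by
    rw [hL'a, inv_mul_cancel₀ hL1pos.ne'])
  have hνinv : ∀ r : ℕ, (r = p ∨ r = q) → InvM r ν := by
    intro r hr g
    have key : L (g.comp (mulX r) - g) = 0 := by
      have h1 : ∀ t : ℝ, t * L (g.comp (mulX r) - g) < u := by
        intro t
        have h2 : t • (g.comp (mulX r) - g) ∈ O := by
          intro ν' hν' hp' hq'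
          change ∫ x, t * (g (r • x) - g x) ∂ν' < ε
          have h3 : InvM r ν' := by
            rcases hr with rfl | rfl
            · exact hp'
            · exact hq'
          have h4 : ∫ x, (g (r • x) - g x) ∂ν' = ∫ x, g (r • x) ∂ν' - ∫ x, g x ∂ν' :=
            integral_sub (int_cont ν' (g.comp (mulX r))) (int_cont ν' g)
          rw [integral_const_mul, h4, h3 g, sub_self, mul_zero]
          exact hε
        have h3 := hL1 _ h2
        rw [map_smul] at h3
        exact h3
      by_contra hne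
      have h2 := h1 (u / L (g.comp (mulX r) - g))
      rw [div_mul_cancel₀ _ hne] at h2
      exact lt_irrefl _ h2
    have h1 := hνL (g.comp (mulX r))
    have h2 := hνL g
    rw [hL'a] at h1 h2
    rw [map_sub] at key
    have h3 : L (g.comp (mulX r)) = L g := by linarith
    rw [h3] at h1
    exact h1.trans h2.symm
  have hue : ε ≤ (L 1)⁻¹ * u := by
    refine le_of_forall_pos_lt_add (fun η hη => ?_)
    have h1 : (ε - η) • (1 : C(UnitAddCircle, ℝ)) ∈ O := by
      intro ν' hν' _ _
      change ∫ _x, (ε - η) * 1 ∂ν' < ε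
      rw [integral_const, probReal_univ, one_smul]
      linarith
    have h2 := hL1 _ h1
    rw [map_smul, smul_eq_mul] at h2
    have h3 : (ε - η) < (L 1)⁻¹ * u := by
      rw [inv_mul_eq_div, lt_div_iff₀ hL1pos]; exact h2
    linarith
  have hkey : ∀ g : C(UnitAddCircle, ℝ), (∀ x, 0 ≤ g x) → (∀ x, g x ≤ 1) →
      ε ≤ ∫ w, SW ω c g w ∂ν + (1 - ∫ x, g x ∂μ) := by
    intro g hg0 hg1
    have h1 : SW ω c g + (1 - ∫ x, g x ∂μ) • (1 : C(UnitAddCircle, ℝ)) ∈ S := by
      refine ⟨g, hg0, hg1, fun t => ?_⟩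
      change SW ω c g t + (1 - ∫ x, g x ∂μ) * 1 = _
      rw [mul_one]
    have h2 := hL2 _ h1
    have h3 : (L 1)⁻¹ * u ≤ L' (SW ω c g + (1 - ∫ x, g x ∂μ) • (1 : C(UnitAddCircle, ℝ))) := by
      rw [hL'a]
      exact mul_le_mul_of_nonneg_left h2 (inv_nonneg.mpr hL1pos.le)
    rw [map_add, map_smul, ← hνL, hL'a 1, inv_mul_cancel₀ hL1pos.ne', smul_eq_mul, mul_one] at h3
    linarith
  -- the contradiction
  set ν' := (ν.prod ω).map (fun z : UnitAddCircle × UnitAddCircle => c • z.1 + z.2) with hν'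
  have hν'p : IsProbabilityMeasure ν' := Measure.isProbabilityMeasure_map (lc_meas c).aemeasurable
  obtain ⟨B, hB, hB1, hB2⟩ := h ν hν (hνinv p (Or.inl rfl)) (hνinv q (Or.inr rfl))
  have hμB : μ Bᶜ = 1 := (prob_compl_eq_one_iff hB).mpr hB1
  obtain ⟨F, hFB, hF, hFμ⟩ : ∃ F ⊆ Bᶜ, IsClosed F ∧ 1 - ENNReal.ofReal (ε / 2) < μ F := by
    apply hB.compl.exists_lt_isClosed_of_ne_top (measure_ne_top _ _)
    rw [hμB]
    apply ENNReal.sub_lt_self ENNReal.one_ne_top one_ne_zero
    simpa using hε
  obtain ⟨g, hg0, hg1, hgF, hg⟩ := exists_cont_above ν' hF (ε := ε / 2) (by linarith)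
  have hνF : ν'.real F = 0 := by
    rw [Measure.real, measure_mono_null hFB hB2]; rfl
  rw [hνF, zero_add, hν', int_SW ν ω c g] at hg
  have h1 := hkey g hg0 hg1
  have h2 : μ.real F ≤ ∫ x, g x ∂μ := by
    have : ∫ x, F.indicator (fun _ => (1 : ℝ)) x ∂μ ≤ ∫ x, g x ∂μ := by
      apply integral_mono ((integrable_const _).indicator hF.measurableSet) (int_cont μ g)
      intro x
      by_cases hx : x ∈ F
      · simp only; rw [Set.indicator_of_mem hx, hgF x hx]
      · simp only; rw [Set.indicator_of_notMem hx]; exact hg0 x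
    rw [integral_indicator_const _ hF.measurableSet] at this
    simpa using this
  have h3 : 1 - ε / 2 ≤ μ.real F := by
    have h4 : (1 : ℝ≥0∞) ≤ μ F + ENNReal.ofReal (ε / 2) := by
      exact tsub_le_iff_right.mp hFμ.le
    have h5 := ENNReal.toReal_mono (by finiteness) h4
    rw [ENNReal.toReal_one, ENNReal.toReal_add (measure_ne_top _ _) ENNReal.ofReal_ne_top,
      ENNReal.toReal_ofReal (by linarith)] at h5
    change 1 - ε / 2 ≤ (μ F).toReal
    linarith
  linarith

/-- one set for all invariant measures -/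
theorem unif_inv_set {p q : ℕ} {μ ω : Measure UnitAddCircle} [IsProbabilityMeasure μ]
    [IsProbabilityMeasure ω] (c : ℤ)
    (h : ∀ ν : Measure UnitAddCircle, IsProbabilityMeasure ν → InvM p ν → InvM q ν →
      μ.MutuallySingular ((ν.prod ω).map (fun z : UnitAddCircle × UnitAddCircle =>
        c • z.1 + z.2))) :
    ∃ A : Set UnitAddCircle, MeasurableSet A ∧ μ Aᶜ = 0 ∧
      ∀ ν : Measure UnitAddCircle, IsProbabilityMeasure ν → InvM p ν → InvM q ν →
        (ν.prod ω) {z : UnitAddCircle × UnitAddCircle | c • z.1 + z.2 ∈ A} = 0 := by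
  have hex : ∀ n : ℕ, ∃ g : C(UnitAddCircle, ℝ), (∀ x, 0 ≤ g x) ∧ (∀ x, g x ≤ 1) ∧
      (∀ ν : Measure UnitAddCircle, IsProbabilityMeasure ν → InvM p ν → InvM q ν →
        ∫ x, SW ω c g x ∂ν < (1 / 2) ^ n) ∧ 1 - ∫ x, g x ∂μ < (1 / 2) ^ n := fun n =>
    unif_inv c h (by positivity)
  choose g hg0 hg1 hgt hgμ using hex
  set F : ℕ → Set UnitAddCircle := fun n => {x | 1 / 2 ≤ g n x} with hF
  have hFm : ∀ n, MeasurableSet (F n) := fun n =>
    measurableSet_le measurable_const (g n).continuous.measurable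
  have hμ : ∀ n, μ (F n)ᶜ ≤ ENNReal.ofReal (2 * (1 / 2) ^ n) := by
    intro n
    have h1 : 1 / 2 * μ.real (F n)ᶜ ≤ 1 - ∫ x, g n x ∂μ := by
      have h2 : ∫ x, (F n)ᶜ.indicator (fun _ => (1 / 2 : ℝ)) x ∂μ ≤ ∫ x, (1 - g n x) ∂μ := by
        apply integral_mono ((integrable_const _).indicator (hFm n).compl)
          ((integrable_const _).sub (int_cont μ (g n)))
        intro x
        by_cases hx : x ∈ F n
        · change (F n)ᶜ.indicator (fun _ => (1 / 2 : ℝ)) x ≤ 1 - g n x
          rw [Set.indicator_of_notMem (by simpa using hx)]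
          linarith [hg1 n x]
        · change (F n)ᶜ.indicator (fun _ => (1 / 2 : ℝ)) x ≤ 1 - g n x
          rw [Set.indicator_of_mem (by simpa using hx)]
          have : g n x < 1 / 2 := not_le.mp hx
          linarith
      rw [integral_indicator_const _ (hFm n).compl, integral_sub (integrable_const _)
        (int_cont μ (g n))] at h2
      simp only [smul_eq_mul, integral_const, probReal_univ, mul_one] at h2
      linarith
    have h3 := hgμ n
    rw [← ENNReal.ofReal_toReal (measure_ne_top μ (F n)ᶜ)]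
    apply ENNReal.ofReal_le_ofReal
    change μ.real (F n)ᶜ ≤ _
    linarith
  have hsum : ∑' n, ENNReal.ofReal (2 * (1 / 2 : ℝ) ^ n) ≠ ∞ := by
    have hs : Summable (fun n : ℕ => 2 * (1 / 2 : ℝ) ^ n) :=
      (summable_geometric_of_lt_one (by norm_num) (by norm_num)).mul_left 2
    rw [← ENNReal.ofReal_tsum_of_nonneg (fun n => by positivity) hs]
    exact ENNReal.ofReal_ne_top
  have hBC := ae_eventually_notMem (μ := μ) (s := fun n => (F n)ᶜ)
    (ne_top_of_le_ne_top hsum (ENNReal.tsum_le_tsum hμ))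
  set A : Set UnitAddCircle := ⋃ m : ℕ, ⋂ n : ℕ, ⋂ (_ : m ≤ n), F n with hA
  refine ⟨A, MeasurableSet.iUnion fun m => MeasurableSet.iInter fun n =>
    MeasurableSet.iInter fun _ => hFm n, ?_, fun ν hν hνp hνq => ?_⟩
  · have : ∀ᵐ x ∂μ, x ∈ A := by
      filter_upwards [hBC] with x hx
      obtain ⟨m, hm⟩ := eventually_atTop.mp hx
      rw [hA, Set.mem_iUnion]
      refine ⟨m, ?_⟩
      simp only [Set.mem_iInter]
      intro n hn
      have := hm n hn
      simpa using this
    exact this
  · have e : {z : UnitAddCircle × UnitAddCircle | c • z.1 + z.2 ∈ A} =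
        ⋃ m : ℕ, ⋂ n : ℕ, ⋂ (_ : m ≤ n), {z | c • z.1 + z.2 ∈ F n} := by
      ext x
      simp [hA]
    rw [e, measure_iUnion_null_iff]
    intro m
    have hle : ∀ n : ℕ, m ≤ n → (ν.prod ω) (⋂ n : ℕ, ⋂ (_ : m ≤ n),
        {z : UnitAddCircle × UnitAddCircle | c • z.1 + z.2 ∈ F n}) ≤
        ENNReal.ofReal (2 * (1 / 2) ^ n) := by
      intro n hn
      have hsub : (⋂ n : ℕ, ⋂ (_ : m ≤ n),
          {z : UnitAddCircle × UnitAddCircle | c • z.1 + z.2 ∈ F n}) ⊆
          {z | c • z.1 + z.2 ∈ F n} := by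
        intro x hx
        simp only [Set.mem_iInter] at hx
        exact hx n hn
      refine (measure_mono hsub).trans ?_
      have hm' : MeasurableSet {z : UnitAddCircle × UnitAddCircle | c • z.1 + z.2 ∈ F n} :=
        (lc_meas c) (hFm n)
      have h1 : 1 / 2 * (ν.prod ω).real {z : UnitAddCircle × UnitAddCircle | c • z.1 + z.2 ∈ F n} ≤
          ∫ x, SW ω c (g n) x ∂ν := by
        rw [← int_SW, integral_map (lc_meas c).aemeasurable
          (g n).continuous.aestronglyMeasurable]
        have hc : Continuous (fun z : UnitAddCircle × UnitAddCircle => g n (c • z.1 + z.2)) := by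
          fun_prop
        have h2 : ∫ z, {z : UnitAddCircle × UnitAddCircle | c • z.1 + z.2 ∈ F n}.indicator
            (fun _ => (1 / 2 : ℝ)) z ∂(ν.prod ω) ≤
            ∫ z : UnitAddCircle × UnitAddCircle, g n (c • z.1 + z.2) ∂(ν.prod ω) := by
          apply integral_mono ((integrable_const _).indicator hm') (int_contX _ ⟨_, hc⟩)
          intro z
          by_cases hx : c • z.1 + z.2 ∈ F n
          · simp only
            rw [Set.indicator_of_mem (by exact hx)]
            exact hx
          · simp only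
            rw [Set.indicator_of_notMem (by exact hx)]
            exact hg0 n _
        rw [integral_indicator_const _ hm', smul_eq_mul] at h2
        linarith
      have h3 := hgt n ν hν hνp hνq
      rw [← ENNReal.ofReal_toReal (measure_ne_top (ν.prod ω) _)]
      apply ENNReal.ofReal_le_ofReal
      change (ν.prod ω).real {z : UnitAddCircle × UnitAddCircle | c • z.1 + z.2 ∈ F n} ≤ _
      linarith
    have hlim : Tendsto (fun n : ℕ => ENNReal.ofReal (2 * (1 / 2 : ℝ) ^ n)) atTop (𝓝 0) := by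
      have h1 : Tendsto (fun n : ℕ => 2 * (1 / 2 : ℝ) ^ n) atTop (𝓝 (2 * 0)) :=
        (tendsto_pow_atTop_nhds_zero_of_lt_one (by norm_num) (by norm_num)).const_mul 2
      rw [mul_zero] at h1
      have h2 := ENNReal.tendsto_ofReal h1
      rwa [ENNReal.ofReal_zero] at h2
    refine le_antisymm (ge_of_tendsto hlim ?_) (zero_le)
    filter_upwards [eventually_ge_atTop m] with n hn
    exact hle n hn

/-- from the conditional law back to the law -/
lemma prod_cond_null {ν ω : Measure UnitAddCircle} [IsProbabilityMeasure ν] [IsProbabilityMeasure ω]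
    {R : Set UnitAddCircle} (hR : MeasurableSet R) (c : ℤ) {A : Set UnitAddCircle}
    (hA : MeasurableSet A)
    (h : (ν.prod (ProbabilityTheory.cond ω Rᶜ)) {z : UnitAddCircle × UnitAddCircle |
      c • z.1 + z.2 ∈ A} = 0) :
    (ν.prod ω) {z : UnitAddCircle × UnitAddCircle | z.2 ∉ R ∧ c • z.1 + z.2 ∈ A} = 0 := by
  have hm : MeasurableSet {z : UnitAddCircle × UnitAddCircle | c • z.1 + z.2 ∈ A} :=
    (lc_meas c) hA
  rw [Measure.prod_apply_symm hm, lintegral_eq_zero_iff
    (measurable_measure_prodMk_right hm)] at h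
  have h2 : ∀ᵐ w ∂(ω.restrict Rᶜ), ν ((fun x => (x, w)) ⁻¹'
      {z : UnitAddCircle × UnitAddCircle | c • z.1 + z.2 ∈ A}) = 0 := by
    rw [ProbabilityTheory.cond] at h
    have hne : (ω Rᶜ)⁻¹ ≠ 0 := ENNReal.inv_ne_zero.mpr (measure_ne_top ω Rᶜ)
    rw [Filter.EventuallyEq, Measure.ae_ennreal_smul_measure_eq hne] at h
    exact h
  rw [ae_restrict_iff' hR.compl] at h2
  have hm2 : MeasurableSet {z : UnitAddCircle × UnitAddCircle | z.2 ∉ R ∧
      c • z.1 + z.2 ∈ A} := (measurable_snd hR.compl).inter hm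
  rw [Measure.prod_apply_symm hm2, lintegral_eq_zero_iff
    (measurable_measure_prodMk_right hm2)]
  filter_upwards [h2] with w hw
  by_cases hwR : w ∈ R
  · have : ((fun x => (x, w)) ⁻¹' {z : UnitAddCircle × UnitAddCircle | z.2 ∉ R ∧
        c • z.1 + z.2 ∈ A}) = ∅ := by
      ext x
      simp [hwR]
    change ν ((fun x => (x, w)) ⁻¹' {z : UnitAddCircle × UnitAddCircle | z.2 ∉ R ∧
        c • z.1 + z.2 ∈ A}) = 0
    rw [this, measure_empty]
  · exact measure_mono_null (fun x hx => hx.2) (hw hwR)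

/-- **Outside the thin part: all invariant measures.** -/
theorem pair_outside {p q : ℕ} {μ : Measure UnitAddCircle} [IsProbabilityMeasure μ]
    (hμp : MeasurePreserving (fun x : UnitAddCircle => p • x) μ μ)
    (hμq : MeasurePreserving (fun x : UnitAddCircle => q • x) μ μ)
    (hsing : μ.MutuallySingular volume)
    (ω : Measure UnitAddCircle) [IsProbabilityMeasure ω] {R : Set UnitAddCircle}
    (hR : MeasurableSet R) (hmax : ∀ B : Set UnitAddCircle, MeasurableSet B → ω B ≠ 0 →
      Thin p q (ProbabilityTheory.cond ω B) → ω (B \ R) = 0) :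
    ∃ A : Set UnitAddCircle, MeasurableSet A ∧ μ A = 1 ∧ ∀ c : ℤ,
      ∀ ν : Measure UnitAddCircle, IsProbabilityMeasure ν →
        MeasurePreserving (fun x : UnitAddCircle => p • x) ν ν →
        MeasurePreserving (fun x : UnitAddCircle => q • x) ν ν →
        (ν.prod ω) {z : UnitAddCircle × UnitAddCircle | z.2 ∉ R ∧ c • z.1 + z.2 ∈ A} = 0 := by
  by_cases h0 : ω Rᶜ = 0
  · refine ⟨univ, MeasurableSet.univ, measure_univ, fun c ν hν _ _ => ?_⟩
    have h1 : (ν.prod ω) (univ ×ˢ Rᶜ) = 0 := by rw [Measure.prod_prod, h0, mul_zero]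
    refine measure_mono_null (t := univ ×ˢ Rᶜ) (fun z hz => ?_) h1
    exact ⟨trivial, hz.1⟩
  · have hcp : IsProbabilityMeasure (ProbabilityTheory.cond ω Rᶜ) :=
      ProbabilityTheory.cond_isProbabilityMeasure h0
    have hω : ∀ D : Set UnitAddCircle, MeasurableSet D → ProbabilityTheory.cond ω Rᶜ D ≠ 0 →
        ¬ Thin p q (ProbabilityTheory.cond (ProbabilityTheory.cond ω Rᶜ) D) := by
      intro D hD hD0 h2
      have h1 : ω (Rᶜ ∩ D) ≠ 0 := by
        intro h2
        apply hD0
        rw [ProbabilityTheory.cond_apply hR.compl, h2, mul_zero]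
      rw [ProbabilityTheory.cond_cond_eq_cond_inter hR.compl hD] at h2
      have h3 := hmax (Rᶜ ∩ D) (hR.compl.inter hD) h1 h2
      apply h1
      have h4 : (Rᶜ ∩ D) \ R = Rᶜ ∩ D := by
        ext x
        constructor
        · exact fun h => h.1
        · exact fun h => ⟨h, h.1⟩
      rwa [h4] at h3
    have hall : ∀ c : ℤ, ∃ A : Set UnitAddCircle, MeasurableSet A ∧ μ Aᶜ = 0 ∧
        ∀ ν : Measure UnitAddCircle, IsProbabilityMeasure ν → InvM p ν → InvM q ν →
          (ν.prod (ProbabilityTheory.cond ω Rᶜ)) {z : UnitAddCircle × UnitAddCircle |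
            c • z.1 + z.2 ∈ A} = 0 := by
      intro c
      refine unif_inv_set c fun ν hν hνp hνq => ?_
      exact pair_singular (invM_iff.mp hνp) (invM_iff.mp hνq) hμp hμq hsing c _ hω
    choose A hA hA1 hA2 using hall
    refine ⟨⋂ c : ℤ, A c, MeasurableSet.iInter hA, ?_, fun c ν hν hνp hνq => ?_⟩
    · refine (prob_compl_eq_zero_iff (MeasurableSet.iInter hA)).mp ?_
      rw [Set.compl_iInter]
      exact measure_iUnion_null hA1
    · have h1 := prod_cond_null hR c (hA c) (hA2 c ν hν (invM_iff.mpr hνp) (invM_iff.mpr hνq))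
      refine measure_mono_null (fun z hz => ?_) h1
      exact ⟨hz.1, Set.mem_iInter.mp hz.2 c⟩

end Pool.Agent.Zk32
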