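import Mathlib
import Pool.Agent.Zk32.Gp14

/-!
Pairs of invariant measures and generic points
-/

set_option autoImplicit false
set_option linter.unusedSectionVars false

open MeasureTheory Filter Topology Set
open scoped ENNReal NNReal BoundedContinuousFunction

namespace Pool.Agent.Zk32

section
variable {p q : ℕ} {ν μ : Measure UnitAddCircle} [IsProbabilityMeasure ν] [IsProbabilityMeasure μ]

/-- **The core theorem for pairs and generic points.** -/
theorem core_pair_gen
    (hνp : MeasurePreserving (fun x : UnitAddCircle => p • x) ν ν)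
    (hνq : MeasurePreserving (fun x : UnitAddCircle => q • x) ν ν)
    (hsing : μ.MutuallySingular volume)
    {F : ℕ → Finset (ℕ × ℕ)} (hF : Folner F) (c : ℤ)
    (ω : Measure UnitAddCircle) [IsProbabilityMeasure ω]
    {E : Set (UnitAddCircle × UnitAddCircle)} (hEm : MeasurableSet E)
    (hE0 : (ν.prod ω) E ≠ 0) (hEG : ∀ z ∈ E, c • z.1 + z.2 ∈ Gen p q F μ)
    (𝒰 : Ultrafilter ℕ) (h𝒰 : (𝒰 : Filter ℕ) ≤ atTop)
    {κ : Measure UnitAddCircle} [IsProbabilityMeasure κ]
    (hκ : ∀ g : C(UnitAddCircle, ℝ), Tendsto (fun k => ∫ z, ave p q (F k) g z.2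
      ∂(ProbabilityTheory.cond (ν.prod ω) E)) (𝒰 : Filter ℕ) (𝓝 (∫ x, g x ∂κ))) :
    κ.MutuallySingular volume := by
  by_contra hκ0
  set θ := ν.map (fun x : UnitAddCircle => c • x) with hθ
  have hθprob : IsProbabilityMeasure θ := Measure.isProbabilityMeasure_map (zsmul_meas c).aemeasurable
  have hS : ∀ i j : ℕ, MeasurePreserving (fun x : UnitAddCircle => (p ^ i * q ^ j) • x) ν ν := by
    intro i j
    have h3 := ((act_pow hνp).mp i).comp ((act_pow hνq).mp j)
    convert h3 using 1
    funext x
    simp only [Function.comp, mul_smul]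
  set ρ₀ := ProbabilityTheory.cond (ν.prod ω) E with hρ₀
  have hρ₀p : IsProbabilityMeasure ρ₀ := ProbabilityTheory.cond_isProbabilityMeasure hE0
  have hψ : Measurable (fun z : UnitAddCircle × UnitAddCircle => (c • z.1 + z.2, z.2)) :=
    (psi_cont c).measurable
  set ρ := ρ₀.map (fun z : UnitAddCircle × UnitAddCircle => (c • z.1 + z.2, z.2)) with hρ
  have hρp : IsProbabilityMeasure ρ := Measure.isProbabilityMeasure_map hψ.aemeasurable
  obtain ⟨J, hJp, hJl⟩ := lim_exists (X := UnitAddCircle × UnitAddCircle) (p := p) (q := q) hF 𝒰 ρ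
  obtain ⟨κ₁, hκ₁p, hκ₁⟩ := lim_exists (X := UnitAddCircle) (p := p) (q := q) hF 𝒰 ω
  have hint : ∀ (G : C(UnitAddCircle × UnitAddCircle, ℝ)) (k : ℕ),
      ∫ z, aveX p q (F k) G z ∂ρ =
        ∫ z, aveX p q (F k) G (c • z.1 + z.2, z.2) ∂ρ₀ := by
    intro G k
    rw [hρ, integral_map hψ.aemeasurable (aveX_cont G).aestronglyMeasurable]
  -- the first marginal
  have hEae : ∀ᵐ z ∂ρ₀, z ∈ E := ProbabilityTheory.ae_cond_mem hEm
  have hfst' : J.map Prod.fst = μ := by
    have : IsFiniteMeasure (J.map (Prod.fst : UnitAddCircle × UnitAddCircle → UnitAddCircle)) := by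
      infer_instance
    refine ext_of_forall_integral_eq_of_IsFiniteMeasure fun f => ?_
    rw [integral_map measurable_fst.aemeasurable f.continuous.aestronglyMeasurable]
    set g : C(UnitAddCircle, ℝ) := f.toContinuousMap with hg
    obtain ⟨B, hB0, hB⟩ := cont_boundX g
    have h1 := hJl (g.comp ⟨Prod.fst, continuous_fst⟩)
    have h2 : ∀ k, ∫ z, aveX p q (F k) (g.comp ⟨Prod.fst, continuous_fst⟩) z ∂ρ =
        ∫ z, ave p q (F k) g (c • z.1 + z.2) ∂ρ₀ := by
      intro k
      rw [hint]
      rfl
    have h3 : Tendsto (fun k => ∫ z, ave p q (F k) g (c • z.1 + z.2) ∂ρ₀) atTop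
        (𝓝 (∫ _z, (∫ y, g y ∂μ) ∂ρ₀)) := by
      refine tendsto_integral_of_dominated_convergence (fun _ => B) (fun k => ?_)
        (integrable_const B) (fun k => ?_) ?_
      · have : Continuous (fun z : UnitAddCircle × UnitAddCircle =>
            aveX p q (F k) g (c • z.1 + z.2)) := (aveX_cont g).comp (by fun_prop)
        exact this.aestronglyMeasurable
      · exact Eventually.of_forall fun z => aveX_le hB0 hB _
      · filter_upwards [hEae] with z hz
        exact hEG z hz g
    rw [integral_const, probReal_univ, one_smul] at h3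
    have h4 := tendsto_nhds_unique (h1.congr h2) (h3.mono_left h𝒰)
    exact h4
  have hfst : J.map Prod.fst ≪ μ := by rw [hfst']
  -- the second marginal
  have hsnd : J.map Prod.snd = κ := by
    have : IsFiniteMeasure (J.map (Prod.snd : UnitAddCircle × UnitAddCircle → UnitAddCircle)) := by
      infer_instance
    refine ext_of_forall_integral_eq_of_IsFiniteMeasure fun f => ?_
    rw [integral_map measurable_snd.aemeasurable f.continuous.aestronglyMeasurable]
    set g : C(UnitAddCircle, ℝ) := f.toContinuousMap with hg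
    have h1 := hJl (g.comp ⟨Prod.snd, continuous_snd⟩)
    have h2 : ∀ k, ∫ z, aveX p q (F k) (g.comp ⟨Prod.snd, continuous_snd⟩) z ∂ρ =
        ∫ z, ave p q (F k) g z.2 ∂ρ₀ := by
      intro k
      rw [hint]
      rfl
    exact tendsto_nhds_unique (h1.congr h2) (hκ g)
  -- domination
  set Φ := (θ.prod κ₁).map (fun z : UnitAddCircle × UnitAddCircle => (z.1 + z.2, z.2)) with hΦ
  have hΦp : IsProbabilityMeasure Φ := Measure.isProbabilityMeasure_map phi_meas.aemeasurable
  set D : ℝ := (((ν.prod ω) E)⁻¹).toReal with hD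
  have hD0 : 0 < D := ENNReal.toReal_pos (ENNReal.inv_ne_zero.mpr (measure_ne_top _ _))
    (ENNReal.inv_ne_top.mpr hE0)
  have hJΦ : J ≪ Φ := by
    refine ac_of_leX hD0 fun G hG => ?_
    rw [hΦ, int_phi]
    refine le_of_tendsto_of_tendsto (hJl G) ((hκ₁ (smo2 θ G)).const_mul D) ?_
    refine Eventually.of_forall fun k => ?_
    show ∫ z, aveX p q (F k) G z ∂ρ ≤ D * ∫ x, aveX p q (F k) (smo2 θ G) x ∂ω
    rw [hint]
    have hcc : Continuous (fun z : UnitAddCircle × UnitAddCircle =>
        aveX p q (F k) G (c • z.1 + z.2, z.2)) := (aveX_cont G).comp (psi_cont c)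
    have hnn : ∀ z, 0 ≤ aveX p q (F k) G z := by
      intro z
      unfold aveX
      exact mul_nonneg (by positivity) (Finset.sum_nonneg fun n _ => hG _)
    have h1 : ∫ z, aveX p q (F k) G (c • z.1 + z.2, z.2) ∂ρ₀ ≤
        D * ∫ z, aveX p q (F k) G (c • z.1 + z.2, z.2) ∂(ν.prod ω) := by
      rw [hρ₀, ProbabilityTheory.cond, integral_smul_measure, smul_eq_mul]
      apply mul_le_mul_of_nonneg_left _ hD0.le
      exact setIntegral_le_integral (int_contX _ ⟨_, hcc⟩) (Eventually.of_forall fun z => hnn _)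
    refine h1.trans (le_of_eq ?_)
    congr 1
    unfold aveX
    rw [integral_const_mul, integral_const_mul]
    congr 1
    rw [integral_finsetSum, integral_finsetSum]
    · refine Finset.sum_congr rfl fun n _ => ?_
      exact int_one (hS n.1 n.2) c G
    · intro n _
      exact int_contX _ ((smo2 θ G).comp (mulX (p ^ n.1 * q ^ n.2)))
    · intro n _
      exact int_contX _ (((G.comp (mulX (p ^ n.1 * q ^ n.2))).comp ⟨_, psi_cont c⟩))
  -- the singular part of the limit of the noise
  obtain ⟨N, hN, hN1, hN2⟩ := Measure.mutuallySingular_singularPart κ₁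
    (volume : Measure UnitAddCircle)
  have hκN : κ N ≠ 0 := fun h0 => hκ0 ⟨N, hN, h0, hN2⟩
  have hac : ∀ B : Set UnitAddCircle, volume B = 0 → κ₁ (N ∩ B) = 0 := by
    intro B hB
    have h1 : κ₁ = κ₁.singularPart volume + volume.withDensity (κ₁.rnDeriv volume) :=
      (Measure.haveLebesgueDecomposition_spec κ₁ volume).2.2
    rw [h1, Measure.add_apply, measure_mono_null Set.inter_subset_left hN1, zero_add]
    exact withDensity_absolutelyContinuous volume _ (measure_mono_null Set.inter_subset_right hB)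
  obtain ⟨M, hM, hM1, hM2⟩ := hsing
  have hJ1 : J (Prod.fst ⁻¹' M) = 0 := by
    rw [← Measure.map_apply measurable_fst hM]
    exact hfst hM1
  have hJ2 : J (Prod.fst ⁻¹' Mᶜ ∩ Prod.snd ⁻¹' N) = 0 := by
    apply hJΦ
    have hm : MeasurableSet ((Prod.fst ⁻¹' Mᶜ ∩ Prod.snd ⁻¹' N :
        Set (UnitAddCircle × UnitAddCircle))) := (measurable_fst hM.compl).inter (measurable_snd hN)
    rw [hΦ, Measure.map_apply phi_meas hm, Measure.prod_apply (phi_meas hm)]
    have h1 : ∀ v : UnitAddCircle, κ₁ (Prod.mk v ⁻¹' ((fun z : UnitAddCircle × UnitAddCircle =>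
        (z.1 + z.2, z.2)) ⁻¹' (Prod.fst ⁻¹' Mᶜ ∩ Prod.snd ⁻¹' N))) = 0 := by
      intro v
      have h2 : (Prod.mk v ⁻¹' ((fun z : UnitAddCircle × UnitAddCircle =>
        (z.1 + z.2, z.2)) ⁻¹' (Prod.fst ⁻¹' Mᶜ ∩ Prod.snd ⁻¹' N))) =
          N ∩ ((fun y => v + y) ⁻¹' Mᶜ) := by
        ext y
        simp only [Set.mem_preimage, Set.mem_inter_iff]
        exact and_comm
      rw [h2]
      apply hac
      rw [measure_preimage_add]
      exact hM2
    simp only [h1, lintegral_zero]
  apply hκN
  rw [← hsnd, Measure.map_apply measurable_snd hN]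
  refine measure_mono_null (t := Prod.fst ⁻¹' M ∪ (Prod.fst ⁻¹' Mᶜ ∩ Prod.snd ⁻¹' N)) ?_
    (measure_union_null hJ1 hJ2)
  intro z hz
  by_cases h : z.1 ∈ M
  · left; exact h
  · right; exact ⟨h, hz⟩

/-- **Translation by a point with a limit which is not singular** -/
theorem gen_pair_point
    (hνp : MeasurePreserving (fun x : UnitAddCircle => p • x) ν ν)
    (hνq : MeasurePreserving (fun x : UnitAddCircle => q • x) ν ν)
    (hsing : μ.MutuallySingular volume) {F : ℕ → Finset (ℕ × ℕ)} (hF : Folner F) (c : ℤ)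
    (t : UnitAddCircle) (κ : Measure UnitAddCircle) [IsProbabilityMeasure κ]
    (hκ : Lim p q F (Measure.dirac t) κ) (hκ0 : ¬ κ.MutuallySingular volume) :
    ν {x | c • x + t ∈ Gen p q F μ} = 0 := by
  by_contra h0
  set E : Set (UnitAddCircle × UnitAddCircle) := {z | c • z.1 + z.2 ∈ Gen p q F μ} with hE
  have hEm : MeasurableSet E := (lc_meas c) (Pool.Agent.Zk26.FS.gen_meas p q F μ)
  have hE0 : (ν.prod (Measure.dirac t)) E ≠ 0 := by
    rw [Measure.prod_dirac, Measure.map_apply (by fun_prop) hEm]
    exact h0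
  apply hκ0
  refine core_pair_gen hνp hνq hsing hF c (Measure.dirac t) hEm hE0 (fun z hz => hz)
    (Filter.hyperfilter ℕ) hyper_le fun g => ?_
  have hρ₀p : IsProbabilityMeasure (ProbabilityTheory.cond (ν.prod (Measure.dirac t)) E) :=
    ProbabilityTheory.cond_isProbabilityMeasure hE0
  have h2 : ∀ k, ∫ z, ave p q (F k) g z.2
      ∂(ProbabilityTheory.cond (ν.prod (Measure.dirac t)) E) = ave p q (F k) g t := by
    intro k
    have h3 : ∀ᵐ z ∂(ProbabilityTheory.cond (ν.prod (Measure.dirac t)) E), z.2 = t := by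
      refine ProbabilityTheory.cond_absolutelyContinuous.ae_le ?_
      change ∀ᵐ z ∂(ν.prod (Measure.dirac t)), z.2 = t
      have hmt : MeasurableSet {z : UnitAddCircle × UnitAddCircle | z.2 = t} :=
        measurable_snd (measurableSet_singleton t)
      have hmm : Measurable (fun x : UnitAddCircle => (x, t)) := by fun_prop
      rw [Measure.prod_dirac, ae_map_iff hmm.aemeasurable hmt]
      exact Eventually.of_forall fun x => rfl
    have h4 : ∫ z, ave p q (F k) g z.2
        ∂(ProbabilityTheory.cond (ν.prod (Measure.dirac t)) E) =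
        ∫ _z, ave p q (F k) g t ∂(ProbabilityTheory.cond (ν.prod (Measure.dirac t)) E) := by
      refine integral_congr_ae ?_
      filter_upwards [h3] with z hz
      rw [hz]
    rw [h4, integral_const, probReal_univ, one_smul]
  refine ((hκ g).mono_left hyper_le).congr fun k => ?_
  rw [h2 k]
  exact integral_dirac _ _

/-- the same for the explicit set of the points which are generic for rectangles -/
theorem rgen_pair_point
    (hνp : MeasurePreserving (fun x : UnitAddCircle => p • x) ν ν)
    (hνq : MeasurePreserving (fun x : UnitAddCircle => q • x) ν ν)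
    (hsing : μ.MutuallySingular volume) (c : ℤ)
    (t : UnitAddCircle) (κ : Measure UnitAddCircle) [IsProbabilityMeasure κ]
    (hκ : RLim p q (Measure.dirac t) κ) (hκ0 : ¬ κ.MutuallySingular volume) :
    ν {x | c • x + t ∈ RGen p q μ} = 0 := by
  obtain ⟨F, hF, hl, hs⟩ := hκ.folner
  refine measure_mono_null (fun x hx => ?_)
    (gen_pair_point hνp hνq hsing hF c t κ hl hκ0 (μ := μ))
  have hx' : c • x + t ∈ RGen p q μ := hx
  exact hs μ hx'

end

lemma vol_not_sing : ¬ (volume : Measure UnitAddCircle).MutuallySingular volume := by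
  intro h
  have h0 : (volume : Measure UnitAddCircle) = 0 :=
    Measure.eq_zero_of_absolutelyContinuous_of_mutuallySingular Measure.AbsolutelyContinuous.rfl h
  have h1 : (volume : Measure UnitAddCircle) Set.univ = 1 := measure_univ
  rw [h0] at h1
  simp at h1

/-- rigid implies thin -/
lemma Rigid.thin {p q : ℕ} {ρ : Measure UnitAddCircle} (h : Rigid p q ρ) : Thin p q ρ := by
  intro F hF κ hκ hl
  have h1 := h F hF κ hκ hl
  exact ⟨Torᶜ, tor_meas.compl, (prob_compl_eq_zero_iff tor_meas).mpr h1, by
    rw [compl_compl]; exact vol_tor⟩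

/-- an ergodic invariant measure other than Lebesgue measure is singular to it -/
lemma sing_of_erg {p q : ℕ} (hp : 2 ≤ p) {μ : Measure UnitAddCircle} [IsProbabilityMeasure μ]
    (hμp : MeasurePreserving (fun x : UnitAddCircle => p • x) μ μ)
    (hμq : MeasurePreserving (fun x : UnitAddCircle => q • x) μ μ)
    (hJ : ∀ E : Set UnitAddCircle, MeasurableSet E →
      (fun x : UnitAddCircle => p • x) ⁻¹' E = E → (fun x : UnitAddCircle => q • x) ⁻¹' E = E →
        μ E = 0 ∨ μ E = 1)
    (hvol : μ ≠ volume) (hq : 1 ≤ q) : μ.MutuallySingular volume := by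
  have herg : Ergodic (fun x : UnitAddCircle => p • x) (volume : Measure UnitAddCircle) :=
    AddCircle.ergodic_nsmul (by omega)
  have h0 : MeasurePreserving (fun x : UnitAddCircle => ((q : ℤ)) • x) volume volume :=
    MeasureTheory.Measure.measurePreserving_zsmul volume (by exact_mod_cast (by omega : q ≠ 0))
  have h1 : MeasurePreserving (fun x : UnitAddCircle => q • x)
      (volume : Measure UnitAddCircle) volume := by
    simpa only [natCast_zsmul] using h0
  have hJv : JE (fun x : UnitAddCircle => p • x) (fun x : UnitAddCircle => q • x)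
      (volume : Measure UnitAddCircle) := by
    intro E hE h2 _
    exact herg.toPreErgodic.prob_eq_zero_or_one hE h2
  by_contra hns
  exact hvol (JE.eq_of_not_singular hμp hμq herg.toMeasurePreserving h1 hJ hJv hns)

end Pool.Agent.Zk32
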