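import Mathlib
import Pool.Agent.Zk32.Gp11
import Pool.Agent.Zk32.Gp15

/-!
Fat measures: the part of a law outside its largest thin part
-/

set_option autoImplicit false

open MeasureTheory Filter Topology Set
open scoped ENNReal

namespace Pool.Agent.Zk32

/-- every piece of the measure can be moved by the semigroup, by a definite amount, out of any
closed set of measure at most one half -/
def Fat (p q : ℕ) (η : Measure UnitAddCircle) : Prop :=
  ∀ B : Set UnitAddCircle, MeasurableSet B → η B ≠ 0 → ∃ c : ℝ, c < 1 ∧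
    ∀ W : Set UnitAddCircle, IsClosed W → (volume : Measure UnitAddCircle).real W ≤ 1 / 2 →
      ∃ n : ℕ × ℕ, η.real (B ∩ (fun x => (p ^ n.1 * q ^ n.2) • x) ⁻¹' W) ≤ c * η.real B

lemma mp_vol {n : ℕ} (hn : n ≠ 0) : MeasurePreserving (fun x : UnitAddCircle => n • x)
    (volume : Measure UnitAddCircle) volume := by
  have h0 : MeasurePreserving (fun x : UnitAddCircle => ((n : ℤ)) • x) volume volume :=
    MeasureTheory.Measure.measurePreserving_zsmul volume (by exact_mod_cast hn)
  simpa only [natCast_zsmul] using h0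

/-- an invariant measure which is not singular to Lebesgue measure is at least a multiple of it -/
lemma vol_part {p : ℕ} (hp : 2 ≤ p) {κ : Measure UnitAddCircle} [IsFiniteMeasure κ]
    (hκ : MeasurePreserving (fun x : UnitAddCircle => p • x) κ κ)
    (hns : ¬ κ.MutuallySingular (volume : Measure UnitAddCircle)) :
    ∃ a : ℝ≥0∞, a ≠ 0 ∧ a • (volume : Measure UnitAddCircle) ≤ κ := by
  set T : UnitAddCircle → UnitAddCircle := fun x => p • x with hT
  have hTm : Measurable T := hκ.measurable
  have hv : MeasurePreserving T (volume : Measure UnitAddCircle) volume := mp_vol (by omega)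
  obtain ⟨s, hs, hs1, hs2⟩ := Measure.mutuallySingular_singularPart κ
    (volume : Measure UnitAddCircle)
  set N : Set UnitAddCircle := ⋃ i : ℕ, T^[i] ⁻¹' sᶜ with hN
  have hNm : MeasurableSet N := MeasurableSet.iUnion fun i => (hTm.iterate i) hs.compl
  have hN0 : (volume : Measure UnitAddCircle) N = 0 := by
    refine measure_iUnion_null fun i => ?_
    rw [(hv.iterate i).measure_preimage hs.compl.nullMeasurableSet]
    exact hs2
  have hNs : T ⁻¹' N ⊆ N := by
    intro x hx
    obtain ⟨i, hi⟩ := mem_iUnion.1 (show T x ∈ N from hx)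
    exact mem_iUnion.2 ⟨i + 1, by rwa [Function.iterate_succ]⟩
  have hN1 : κ (N \ T ⁻¹' N) = 0 := by
    rw [measure_sdiff hNs (hTm hNm).nullMeasurableSet (measure_ne_top _ _),
      hκ.measure_preimage hNm.nullMeasurableSet, tsub_self]
  have hac : κ.restrict Nᶜ ≪ (volume : Measure UnitAddCircle) := by
    have h1 : κ.restrict Nᶜ ≤ (volume : Measure UnitAddCircle).withDensity (κ.rnDeriv volume) := by
      refine Measure.le_iff.2 fun A hA => ?_
      rw [Measure.restrict_apply hA]
      conv_lhs => rw [Measure.haveLebesgueDecomposition_add κ (volume : Measure UnitAddCircle)]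
      rw [Measure.add_apply]
      have h2 : (κ.singularPart (volume : Measure UnitAddCircle)) (A ∩ Nᶜ) = 0 := by
        refine measure_mono_null (fun x hx => ?_) hs1
        by_contra hxs
        exact hx.2 (mem_iUnion.2 ⟨0, hxs⟩)
      rw [h2, zero_add]
      exact measure_mono inter_subset_left
    exact (Measure.absolutelyContinuous_of_le h1).trans
      (withDensity_absolutelyContinuous _ _)
  have hinv : MeasurePreserving T (κ.restrict Nᶜ) (κ.restrict Nᶜ) := by
    refine ⟨hTm, ?_⟩
    ext A hA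
    rw [Measure.map_apply hTm hA, Measure.restrict_apply (hTm hA), Measure.restrict_apply hA]
    have h1 : κ (T ⁻¹' (A ∩ Nᶜ)) = κ (A ∩ Nᶜ) :=
      hκ.measure_preimage (hA.inter hNm.compl).nullMeasurableSet
    rw [← h1]
    refine measure_congr ?_
    have h2 : (T ⁻¹' N : Set UnitAddCircle) =ᵐ[κ] N := by
      refine (ae_le_set.2 ?_).antisymm (ae_le_set.2 hN1)
      rw [sdiff_eq_empty.2 hNs, measure_empty]
    have h3 : (T ⁻¹' A ∩ Nᶜ : Set UnitAddCircle) =ᵐ[κ] (T ⁻¹' A ∩ (T ⁻¹' N)ᶜ : Set _) :=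
      (ae_eq_refl _).inter h2.symm.compl
    exact h3
  have herg : Ergodic T (volume : Measure UnitAddCircle) := AddCircle.ergodic_nsmul (by omega)
  obtain ⟨a, ha⟩ := herg.eq_smul_of_absolutelyContinuous hinv hac
  refine ⟨a, ?_, ?_⟩
  · rintro rfl
    apply hns
    refine ⟨Nᶜ, hNm.compl, ?_, by rwa [compl_compl]⟩
    rw [zero_smul] at ha
    have := congrArg (fun m : Measure UnitAddCircle => m univ) ha
    simpa using this
  · rw [← ha]
    exact Measure.restrict_le_self

/-- **Outside of its largest thin part a law is fat.** -/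
theorem fat_of_thin {p q : ℕ} (hp : 2 ≤ p) {ω : Measure UnitAddCircle} [IsProbabilityMeasure ω]
    {S : Set UnitAddCircle} (hS : MeasurableSet S)
    (hmax : ∀ B : Set UnitAddCircle, MeasurableSet B → ω B ≠ 0 →
      Thin p q (ProbabilityTheory.cond ω B) → ω (B \ S) = 0) : Fat p q (ω.restrict Sᶜ) := by
  intro B hB hB0
  rw [Measure.restrict_apply hB] at hB0
  set D := B ∩ Sᶜ with hD
  have hDm : MeasurableSet D := hB.inter hS.compl
  set ρ := ProbabilityTheory.cond ω D with hρ
  have hc : IsProbabilityMeasure ρ := ProbabilityTheory.cond_isProbabilityMeasure hB0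
  have hnt : ¬ Thin p q ρ := by
    intro h
    apply hB0
    have h1 := hmax D hDm hB0 h
    have h2 : D \ S = D := by
      ext x
      exact ⟨fun h => h.1, fun h => ⟨h, h.2⟩⟩
    rwa [h2] at h1
  unfold Thin at hnt
  push Not at hnt
  obtain ⟨F, hF, κ, hκ, hl, hns⟩ := hnt
  have hinv := lim_inv (p := p) (q := q) hF (𝒰 := atTop) le_rfl (σ := ρ) (σ' := κ) hl
  obtain ⟨a, ha0, ha⟩ := vol_part hp hinv.1 hns
  have ha1 : a ≤ 1 := by
    have := ha univ
    simpa using this
  have hat : a ≠ ∞ := ne_top_of_le_ne_top ENNReal.one_ne_top ha1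
  have har : 0 < a.toReal := ENNReal.toReal_pos ha0 hat
  refine ⟨1 - a.toReal / 4, by linarith, fun W hW hWv => ?_⟩
  -- the mass of `W`
  have hκW : κ.real W ≤ 1 - a.toReal / 2 := by
    have h1 : a.toReal * (volume : Measure UnitAddCircle).real Wᶜ ≤ κ.real Wᶜ := by
      have h2 := ha Wᶜ
      have h3 := ENNReal.toReal_mono (measure_ne_top κ _) h2
      rw [Measure.smul_apply, smul_eq_mul, ENNReal.toReal_mul] at h3
      exact h3
    rw [probReal_compl_eq_one_sub hW.measurableSet] at h1
    rw [probReal_compl_eq_one_sub hW.measurableSet] at h1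
    nlinarith
  obtain ⟨g, hg0, hg1, hgW, hgi⟩ := exists_cont_aboveX κ hW (ε := a.toReal / 8) (by positivity)
  have hlg := hl g
  have hev := (tendsto_order.mp hlg).2 (1 - a.toReal / 4) (by linarith)
  obtain ⟨k, hk⟩ := hev.exists
  have hFk := hF.1 k
  have hcard : (0 : ℝ) < (F k).card := by exact_mod_cast hFk.card_pos
  have hex : ∃ n ∈ F k, ρ.real ((fun x => (p ^ n.1 * q ^ n.2) • x) ⁻¹' W) ≤ 1 - a.toReal / 4 := by
    by_contra hcon
    push Not at hcon
    have hgn : ∀ n : ℕ × ℕ, Integrable (fun x => g ((p ^ n.1 * q ^ n.2) • x)) ρ := fun n =>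
      int_contX ρ (g.comp (mulX (p ^ n.1 * q ^ n.2)))
    have h1 : ∫ x, ave p q (F k) g x ∂ρ =
        ((F k).card : ℝ)⁻¹ * ∑ n ∈ F k, ∫ x, g ((p ^ n.1 * q ^ n.2) • x) ∂ρ := by
      unfold ave
      rw [integral_const_mul, integral_finsetSum _ fun n _ => hgn n]
    have h2 : ∀ n ∈ F k, 1 - a.toReal / 4 ≤ ∫ x, g ((p ^ n.1 * q ^ n.2) • x) ∂ρ := by
      intro n hn
      refine (hcon n hn).le.trans ?_
      have hm : MeasurableSet ((fun x : UnitAddCircle => (p ^ n.1 * q ^ n.2) • x) ⁻¹' W) :=
        (nsmul_measX _) hW.measurableSet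
      rw [← integral_indicator_one hm]
      refine integral_mono ((integrable_const (1 : ℝ)).indicator hm) (hgn n) fun x => ?_
      by_cases hx : (p ^ n.1 * q ^ n.2) • x ∈ W
      · rw [indicator_of_mem (show x ∈ _ from hx)]
        exact (hgW _ hx).ge
      · rw [indicator_of_notMem (show x ∉ _ from hx)]
        exact hg0 _
    have h3 : ((F k).card : ℝ) * (1 - a.toReal / 4) ≤
        ∑ n ∈ F k, ∫ x, g ((p ^ n.1 * q ^ n.2) • x) ∂ρ := by
      rw [← nsmul_eq_mul]
      exact Finset.card_nsmul_le_sum _ _ _ h2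
    rw [h1] at hk
    have h4 : ((F k).card : ℝ)⁻¹ * (((F k).card : ℝ) * (1 - a.toReal / 4)) ≤
        ((F k).card : ℝ)⁻¹ * ∑ n ∈ F k, ∫ x, g ((p ^ n.1 * q ^ n.2) • x) ∂ρ :=
      mul_le_mul_of_nonneg_left h3 (by positivity)
    rw [inv_mul_cancel_left₀ hcard.ne'] at h4
    linarith
  obtain ⟨n, -, hn⟩ := hex
  refine ⟨n, ?_⟩
  have hm : MeasurableSet ((fun x : UnitAddCircle => (p ^ n.1 * q ^ n.2) • x) ⁻¹' W) :=
    (nsmul_measX _) hW.measurableSet
  have h1 : (ω.restrict Sᶜ).real (B ∩ (fun x => (p ^ n.1 * q ^ n.2) • x) ⁻¹' W) =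
      ω.real D * ρ.real ((fun x => (p ^ n.1 * q ^ n.2) • x) ⁻¹' W) := by
    rw [measureReal_restrict_apply (hB.inter hm), hρ, measureReal_def (ProbabilityTheory.cond ω D),
      ProbabilityTheory.cond_apply hDm, ENNReal.toReal_mul, ENNReal.toReal_inv,
      ← measureReal_def, ← measureReal_def]
    have h2 : ω.real D ≠ 0 := by
      rw [measureReal_def]
      exact ENNReal.toReal_ne_zero.2 ⟨hB0, measure_ne_top _ _⟩
    rw [mul_inv_cancel_left₀ h2]
    congr 1
    ext x
    simp only [mem_inter_iff, hD]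
    tauto
  rw [h1, measureReal_restrict_apply hB, mul_comm]
  exact mul_le_mul_of_nonneg_right hn measureReal_nonneg

end Pool.Agent.Zk32
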