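import Mathlib
import Pool.Agent.Zk32.Tl1

/-!
The choice of the exponents
-/

set_option autoImplicit false

open MeasureTheory Filter Topology Set
open scoped ENNReal

namespace Pool.Agent.Zk32

lemma Fat.map {p q : ℕ} {η : Measure UnitAddCircle} (h : Fat p q η) {n : ℕ} (hn : n ≠ 0) :
    Fat p q (η.map fun x => n • x) := by
  intro B hB hB0
  have hm := nsmul_measX (X := UnitAddCircle) n
  rw [Measure.map_apply hm hB] at hB0
  obtain ⟨c, hc, h1⟩ := h _ (hm hB) hB0
  refine ⟨c, hc, fun W hW hWv => ?_⟩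
  obtain ⟨m, h2⟩ := h1 ((fun x => n • x) ⁻¹' W) (hW.preimage (nsmul_cont n)) (by
    rw [(mp_vol hn).measureReal_preimage hW.measurableSet.nullMeasurableSet]
    exact hWv)
  refine ⟨m, ?_⟩
  have hm2 : MeasurableSet ((fun x : UnitAddCircle => (p ^ m.1 * q ^ m.2) • x) ⁻¹' W) :=
    (nsmul_measX _) hW.measurableSet
  rw [map_measureReal_apply hm (hB.inter hm2), map_measureReal_apply hm hB]
  have e : (fun x : UnitAddCircle => n • x) ⁻¹'
      (B ∩ (fun x : UnitAddCircle => (p ^ m.1 * q ^ m.2) • x) ⁻¹' W) =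
      (fun x : UnitAddCircle => n • x) ⁻¹' B ∩ (fun x : UnitAddCircle =>
        (p ^ m.1 * q ^ m.2) • x) ⁻¹' ((fun x => n • x) ⁻¹' W) := by
    ext x
    show (n • x ∈ B ∧ (p ^ m.1 * q ^ m.2) • n • x ∈ W) ↔
      (n • x ∈ B ∧ n • (p ^ m.1 * q ^ m.2) • x ∈ W)
    rw [smul_comm]
  rw [e]
  exact h2

/-- a nearly optimal choice -/
lemma exists_near (p q : ℕ) (η : Measure UnitAddCircle) (D W : Set UnitAddCircle) {ε : ℝ}
    (hε : 0 < ε) : ∃ n : ℕ × ℕ, ∀ m : ℕ × ℕ,
      η.real (D ∩ (fun x => (p ^ n.1 * q ^ n.2) • x) ⁻¹' W) ≤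
        η.real (D ∩ (fun x => (p ^ m.1 * q ^ m.2) • x) ⁻¹' W) + ε := by
  set f : ℕ × ℕ → ℝ := fun n => η.real (D ∩ (fun x => (p ^ n.1 * q ^ n.2) • x) ⁻¹' W) with hf
  have hb : BddBelow (range f) := ⟨0, by
    rintro _ ⟨n, rfl⟩
    exact measureReal_nonneg⟩
  obtain ⟨n, hn⟩ := exists_lt_of_ciInf_lt (lt_add_of_pos_right (⨅ n, f n) hε)
  exact ⟨n, fun m => hn.le.trans (by linarith [ciInf_le hb m])⟩

/-- the sets of the points which have not been moved out of the closed sets -/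
def stay (p q : ℕ) (W : ℕ → Set UnitAddCircle)
    (f : ℕ → (ℕ × ℕ → Set UnitAddCircle) → ℕ × ℕ) : ℕ → ℕ × ℕ → Set UnitAddCircle
  | 0 => fun _ => univ
  | J + 1 => fun k => stay p q W f J k ∩ {x | k.2 ≤ J →
      (p ^ (f J (stay p q W f J)).1 * q ^ (f J (stay p q W f J)).2) • x ∈ W J}

/-- **The choice of the exponents.** Fat measures can be moved out of any sequence of closed
sets. -/
theorem greedy {p q : ℕ} {η : ℕ → Measure UnitAddCircle} (hη : ∀ l, IsFiniteMeasure (η l))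
    (hfat : ∀ l, Fat p q (η l)) {W : ℕ → Set UnitAddCircle} (hW : ∀ j, IsClosed (W j))
    (hWv : ∀ j, (volume : Measure UnitAddCircle).real (W j) ≤ 1 / 2) :
    ∃ n : ℕ → ℕ × ℕ, ∀ l, η l {x | ∃ s : ℕ, ∀ j, s ≤ j →
      (p ^ (n j).1 * q ^ (n j).2) • x ∈ W j} = 0 := by
  -- the pair which is handled at step `J`
  set hd : ℕ → ℕ × ℕ := fun J => Nat.unpair (Nat.unpair J).1 with hhd
  have hch : ∀ (J : ℕ) (σ : ℕ × ℕ → Set UnitAddCircle), ∃ n : ℕ × ℕ, ∀ m : ℕ × ℕ,
      (η (hd J).1).real (σ (hd J) ∩ (fun x => (p ^ n.1 * q ^ n.2) • x) ⁻¹' W J) ≤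
        (η (hd J).1).real (σ (hd J) ∩ (fun x => (p ^ m.1 * q ^ m.2) • x) ⁻¹' W J) +
          (1 / 2 : ℝ) ^ J := fun J σ => exists_near p q _ _ _ (by positivity)
  choose f hf using hch
  set σ := stay p q W f with hσ
  refine ⟨fun J => f J (σ J), fun l => ?_⟩
  have hsucc : ∀ J k, σ (J + 1) k = σ J k ∩ {x | k.2 ≤ J →
      (p ^ (f J (σ J)).1 * q ^ (f J (σ J)).2) • x ∈ W J} := fun J k => rfl
  have hmem : ∀ J k x, (∀ j, k.2 ≤ j → (p ^ (f j (σ j)).1 * q ^ (f j (σ j)).2) • x ∈ W j) →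
      x ∈ σ J k := by
    intro J k x hx
    induction J with
    | zero => exact mem_univ x
    | succ J ih =>
      rw [hsucc]
      exact ⟨ih, fun h => hx J h⟩
  have hmeas : ∀ J k, MeasurableSet (σ J k) := by
    intro J k
    induction J with
    | zero => exact MeasurableSet.univ
    | succ J ih =>
      rw [hsucc]
      refine ih.inter ?_
      by_cases h : k.2 ≤ J
      · simp only [h, true_imp_iff]
        exact (nsmul_measX _) (hW J).measurableSet
      · simp only [h, false_imp_iff]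
        exact MeasurableSet.univ
  have hanti : ∀ k, Antitone fun J => σ J k := fun k =>
    antitone_nat_of_succ_le fun J => by
      rw [hsucc]
      exact inter_subset_left
  have hsub : {x : UnitAddCircle | ∃ s : ℕ, ∀ j, s ≤ j →
      (p ^ (f j (σ j)).1 * q ^ (f j (σ j)).2) • x ∈ W j} ⊆ ⋃ s : ℕ, ⋂ J : ℕ, σ J (l, s) := by
    rintro x ⟨s, hs⟩
    exact mem_iUnion.2 ⟨s, mem_iInter.2 fun J => hmem J (l, s) x hs⟩
  refine measure_mono_null hsub (measure_iUnion_null fun s => ?_)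
  by_contra hne
  have : IsFiniteMeasure (η l) := hη l
  set E := ⋂ J : ℕ, σ J (l, s) with hE
  have hEm : MeasurableSet E := MeasurableSet.iInter fun J => hmeas J _
  obtain ⟨c, hc, hcW⟩ := hfat l E hEm hne
  have hEpos : 0 < (η l).real E := by
    rw [measureReal_def]
    exact ENNReal.toReal_pos hne (measure_ne_top _ _)
  have hlim : Tendsto (fun J => (η l).real (σ J (l, s))) atTop (𝓝 ((η l).real E)) := by
    have h1 : Tendsto (fun J => (η l) (σ J (l, s))) atTop (𝓝 ((η l) E)) :=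
      tendsto_measure_iInter_atTop (fun J => (hmeas J _).nullMeasurableSet) (hanti _)
        ⟨0, measure_ne_top _ _⟩
    exact (ENNReal.tendsto_toReal (measure_ne_top _ _)).comp h1
  -- the steps which handle the pair
  set φ : ℕ → ℕ := fun k => Nat.pair (Nat.pair l s) k with hφ
  have hφt : Tendsto φ atTop atTop :=
    tendsto_atTop_mono (fun k => Nat.right_le_pair _ k) tendsto_id
  have hdφ : ∀ k, hd (φ k) = (l, s) := by
    intro k
    simp only [hhd, hφ, Nat.unpair_pair]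
  have hstep : ∀ k, s ≤ φ k → (η l).real E ≤
      c * (η l).real E + ((η l).real (σ (φ k) (l, s)) - (η l).real E) + (1 / 2 : ℝ) ^ (φ k) := by
    intro k hk
    set J := φ k with hJ
    obtain ⟨m, hm⟩ := hcW (W J) (hW J) (hWv J)
    have h1 := hf J (σ J) m
    rw [hdφ k] at h1
    have h2 : (η l).real E ≤ (η l).real (σ J (l, s) ∩
        (fun x => (p ^ (f J (σ J)).1 * q ^ (f J (σ J)).2) • x) ⁻¹' W J) := by
      refine measureReal_mono ?_
      intro x hx
      have hx1 : x ∈ σ (J + 1) (l, s) := mem_iInter.1 hx (J + 1)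
      rw [hsucc] at hx1
      exact ⟨hx1.1, hx1.2 hk⟩
    have hEs : E ⊆ σ J (l, s) := iInter_subset _ J
    have h3 : (η l).real (σ J (l, s) ∩ (fun x => (p ^ m.1 * q ^ m.2) • x) ⁻¹' W J) ≤
        (η l).real (E ∩ (fun x => (p ^ m.1 * q ^ m.2) • x) ⁻¹' W J) +
          ((η l).real (σ J (l, s)) - (η l).real E) := by
      rw [← measureReal_sdiff hEs hEm]
      refine (measureReal_mono ?_).trans (measureReal_union_le _ _)
      intro x hx
      by_cases h : x ∈ E
      · exact Or.inl ⟨h, hx.2⟩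
      · exact Or.inr ⟨hx.1, h⟩
    linarith
  have hR : Tendsto (fun k => c * (η l).real E + ((η l).real (σ (φ k) (l, s)) - (η l).real E) +
      (1 / 2 : ℝ) ^ (φ k)) atTop (𝓝 (c * (η l).real E + ((η l).real E - (η l).real E) + 0)) := by
    refine (((hlim.comp hφt).sub_const _).const_add _).add ?_
    exact (tendsto_pow_atTop_nhds_zero_of_lt_one (by norm_num) (by norm_num)).comp hφt
  have hfin := ge_of_tendsto hR ((hφt.eventually_ge_atTop s).mono hstep)
  nlinarith

end Pool.Agent.Zk32
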