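import Mathlib
import Pool.Agent.Zk32.Tl2
import Pool.Agent.Zk24.SL.Lin

/-!
A rational subspace which carries given singular invariant measures and is avoided by given fat
measures
-/

set_option autoImplicit false

open MeasureTheory Filter Topology Set
open scoped ENNReal
open Pool.Agent.Zk24.SL (sm sy sm_mono sm_add sm_neg sm_compact sm_cover sy_zero sy_neg sub_sy
  sy_compact sy_cover lin_closed lin_one exists_mean essInj)

namespace Pool.Agent.Zk32

lemma sm_vol {V : Set UnitAddCircle} {C : Finset UnitAddCircle} {r : ℝ} (hr : 0 ≤ r)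
    (hV : V ⊆ ⋃ c ∈ C, Metric.closedBall c r) (k : ℕ) {b : ℝ} (hb : 0 ≤ b)
    (hs : (C.card : ℝ) ^ k * (2 * (k * r)) ≤ b) :
    (volume : Measure UnitAddCircle).real (sm V k) ≤ b := by
  obtain ⟨C', hC', h⟩ := sm_cover hV k
  have hvol : (volume : Measure UnitAddCircle) (sm V k) ≤ ENNReal.ofReal b := by
    calc (volume : Measure UnitAddCircle) (sm V k)
        ≤ (volume : Measure UnitAddCircle) (⋃ c ∈ C', Metric.closedBall c (k * r)) := measure_mono h
      _ ≤ ∑ c ∈ C', (volume : Measure UnitAddCircle) (Metric.closedBall c (k * r)) :=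
          measure_biUnion_finset_le _ _
      _ ≤ ∑ c ∈ C', ENNReal.ofReal (2 * (k * r)) := by
          refine Finset.sum_le_sum fun c _ => ?_
          rw [AddCircle.volume_closedBall]
          exact ENNReal.ofReal_le_ofReal (min_le_right _ _)
      _ = ENNReal.ofReal (C'.card * (2 * (k * r))) := by
          rw [Finset.sum_const, nsmul_eq_mul,
            ENNReal.ofReal_mul (p := (C'.card : ℝ)) (by positivity), ENNReal.ofReal_natCast]
      _ ≤ ENNReal.ofReal ((C.card : ℝ) ^ k * (2 * (k * r))) := by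
          refine ENNReal.ofReal_le_ofReal ?_
          have : (C'.card : ℝ) ≤ (C.card : ℝ) ^ k := by exact_mod_cast hC'
          gcongr
      _ ≤ ENNReal.ofReal b := ENNReal.ofReal_le_ofReal hs
  rw [measureReal_def]
  exact ENNReal.toReal_le_of_le_ofReal hb hvol

/-- one stage of the construction -/
theorem stageV {p : ℕ} (hp : 2 ≤ p) {ν : Measure UnitAddCircle} [IsProbabilityMeasure ν]
    (hνp : MeasurePreserving (fun x : UnitAddCircle => p • x) ν ν)
    (hE : Pool.Agent.W764.FB.EssInj p ν) {κ : ℝ} (hκ : 0 < κ) (k : ℕ) :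
    ∃ V : Set UnitAddCircle, IsCompact V ∧ ν.real Vᶜ ≤ κ ∧
      (volume : Measure UnitAddCircle).real (sm (sy V) k) ≤ 1 / 2 := by
  obtain ⟨K, cen, ρ, hK, hρ, hρK, hU⟩ := Pool.Agent.Zk24.SL.coveringK hp ν hνp hE hκ
    (c := 1 / (3 ^ k * (2 * k + 1) * 2)) (by positivity) k
  refine ⟨Pool.Agent.H706R2.Ren.U cen ρ, ?_, hU, ?_⟩
  · exact isCompact_iUnion fun a => isCompact_closedBall _ _
  · obtain ⟨C, hC, hcov⟩ := sy_cover cen hρ.le
    have hKR : (1 : ℝ) ≤ K := by exact_mod_cast hK
    have hCR : (C.card : ℝ) ≤ 3 * K := by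
      have : (C.card : ℝ) ≤ 2 * K + 1 := by exact_mod_cast hC
      linarith
    refine sm_vol hρ.le hcov k (by norm_num) ?_
    calc (C.card : ℝ) ^ k * (2 * (k * ρ)) ≤ (3 * K) ^ k * (2 * (k * ρ)) := by gcongr
      _ = (ρ * (K : ℝ) ^ k) * (3 ^ k * (2 * k)) := by rw [mul_pow]; ring
      _ ≤ (1 / (3 ^ k * (2 * k + 1) * 2)) * (3 ^ k * (2 * k)) := by gcongr
      _ ≤ 1 / 2 := by
          rw [one_div_mul_eq_div, div_le_div_iff₀ (by positivity) (by norm_num)]
          have h3 : (0 : ℝ) < 3 ^ k := by positivity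
          nlinarith

/-- **A group of full measure which is avoided by countably many fat measures.** -/
theorem exists_groupF {p q : ℕ} (hp : 2 ≤ p)
    {ν : Measure UnitAddCircle} [IsProbabilityMeasure ν]
    (hνp : MeasurePreserving (fun x : UnitAddCircle => p • x) ν ν)
    (hνq : MeasurePreserving (fun x : UnitAddCircle => q • x) ν ν)
    (hE : Pool.Agent.W764.FB.EssInj p ν) {η : ℕ → Measure UnitAddCircle}
    (hη : ∀ l, IsFiniteMeasure (η l)) (hfat : ∀ l, Fat p q (η l)) :
    ∃ H : AddSubgroup UnitAddCircle,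
      (∃ C : ℕ → Set UnitAddCircle, (∀ k, IsClosed (C k)) ∧ (H : Set UnitAddCircle) = ⋃ k, C k) ∧
      ν (H : Set UnitAddCircle)ᶜ = 0 ∧ ∀ l, η l (H : Set UnitAddCircle) = 0 := by
  have hex : ∀ j : ℕ, ∃ V : Set UnitAddCircle, IsCompact V ∧ ν.real Vᶜ ≤ (1 / 2 : ℝ) ^ j ∧
      (volume : Measure UnitAddCircle).real (sm (sy V) j) ≤ 1 / 2 := fun j =>
    stageV hp hνp hE (κ := (1 / 2 : ℝ) ^ j) (by positivity) j
  choose V hVc hVm hVv using hex
  obtain ⟨n, hn⟩ := greedy hη hfat (W := fun j => sm (sy (V j)) j)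
    (fun j => (sm_compact (sy_compact (hVc j)) j).isClosed) hVv
  set m : ℕ → ℕ := fun j => p ^ (n j).1 * q ^ (n j).2 with hm
  have hmp : ∀ j, MeasurePreserving (fun x : UnitAddCircle => m j • x) ν ν := by
    intro j
    have h1 := (Pool.Agent.H706R2.Ren.mp_pow p ν hνp (n j).1).comp
      (Pool.Agent.H706R2.Ren.mp_pow q ν hνq (n j).2)
    have e : (fun x : UnitAddCircle => m j • x) =
        (fun x : UnitAddCircle => p ^ (n j).1 • x) ∘ fun x => q ^ (n j).2 • x := by
      funext x
      show (p ^ (n j).1 * q ^ (n j).2) • x = p ^ (n j).1 • (q ^ (n j).2 • x)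
      rw [mul_smul]
    rw [e]
    exact h1
  let H : AddSubgroup UnitAddCircle :=
    { carrier := {x | ∃ k : ℕ, ∀ j, k ≤ j → m j • x ∈ sm (sy (V j)) k}
      zero_mem' := ⟨0, fun j _ => by
        show m j • (0 : UnitAddCircle) = 0
        rw [smul_zero]⟩
      add_mem' := by
        rintro x y ⟨k, hk⟩ ⟨l, hl⟩
        refine ⟨k + l, fun j hj => ?_⟩
        rw [smul_add]
        exact sm_add (hk j (by omega)) (hl j (by omega))
      neg_mem' := by
        rintro x ⟨k, hk⟩
        refine ⟨k, fun j hj => ?_⟩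
        rw [smul_neg]
        exact sm_neg sy_neg (hk j hj) }
  have hHc : (H : Set UnitAddCircle) = ⋃ k : ℕ, ⋂ j : ℕ, ⋂ (_ : k ≤ j),
      (fun x : UnitAddCircle => m j • x) ⁻¹' sm (sy (V j)) k := by
    ext x
    simp only [mem_iUnion, mem_iInter, mem_preimage]
    rfl
  refine ⟨H, ?_, ?_, ?_⟩
  · refine ⟨_, fun k => ?_, hHc⟩
    refine isClosed_iInter fun j => isClosed_iInter fun _ => ?_
    exact (sm_compact (sy_compact (hVc j)) k).isClosed.preimage (continuous_nsmul (m j))
  · have hsum : ∑' j, ν ((fun x : UnitAddCircle => m j • x) ⁻¹' (V j)ᶜ) ≠ ∞ := by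
      have h1 : ∀ j, ν ((fun x : UnitAddCircle => m j • x) ⁻¹' (V j)ᶜ) ≤
          ENNReal.ofReal ((1 / 2 : ℝ) ^ j) := by
        intro j
        rw [(hmp j).measure_preimage (hVc j).measurableSet.compl.nullMeasurableSet]
        rw [← ofReal_measureReal (measure_ne_top _ _)]
        exact ENNReal.ofReal_le_ofReal (hVm j)
      refine ne_top_of_le_ne_top ?_ (ENNReal.tsum_le_tsum h1)
      rw [← ENNReal.ofReal_tsum_of_nonneg (fun j => by positivity)
        (summable_geometric_of_lt_one (by norm_num) (by norm_num))]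
      exact ENNReal.ofReal_ne_top
    have hae := ae_eventually_notMem hsum
    rw [← mem_ae_iff]
    filter_upwards [hae] with x hx
    obtain ⟨k, hk⟩ := eventually_atTop.1 hx
    refine ⟨k + 1, fun j hj => ?_⟩
    have h1 := hk j (by omega)
    rw [preimage_compl, notMem_compl_iff] at h1
    exact sm_mono (sy_zero _) (by omega : 1 ≤ k + 1) ⟨0, rfl, _, sub_sy _ h1, (zero_add _).symm⟩
  · intro l
    refine measure_mono_null ?_ (hn l)
    rintro x ⟨k, hk⟩
    exact ⟨k, fun j hj => sm_mono (sy_zero _) hj (hk j hj)⟩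

/-- point masses at points of infinite order are fat -/
lemma fat_dirac {p q : ℕ} (hp : 2 ≤ p) (hq : 2 ≤ q)
    (hirr : Irrational (Real.log p / Real.log q)) {θ : UnitAddCircle}
    (hθ : ¬ IsOfFinAddOrder θ) : Fat p q (Measure.dirac θ) := by
  intro B hB _
  refine ⟨0, one_pos, fun W hW hWv => ?_⟩
  have hne : (Wᶜ).Nonempty := by
    by_contra h
    rw [not_nonempty_iff_eq_empty, compl_empty_iff] at h
    rw [h, measureReal_def, measure_univ] at hWv
    norm_num at hWv
  obtain ⟨w, hw, hwO⟩ := (Pool.Agent.H847R3.XpXq.dense_orbit hp hq hirr hθ).exists_mem_open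
    hW.isOpen_compl hne
  obtain ⟨i, j, rfl⟩ := hw
  refine ⟨(i, j), ?_⟩
  rw [zero_mul]
  have hm : MeasurableSet ((fun x : UnitAddCircle => (p ^ i * q ^ j) • x) ⁻¹' W) :=
    (nsmul_measX _) hW.measurableSet
  rw [measureReal_def, Measure.dirac_apply' _ (hB.inter hm), indicator_of_notMem, ENNReal.toReal_zero]
  exact fun h => hwO h.2

/-- **A rational subspace which carries countably many singular invariant measures and is avoided
by countably many fat measures.** -/
theorem exists_linF {p q : ℕ} (hp : 2 ≤ p) (hq : 2 ≤ q) (hpq : Nat.Coprime p q)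
    {N : Set (Measure UnitAddCircle)} (hN : N.Countable)
    (h : ∀ ν ∈ N, IsProbabilityMeasure ν ∧ MeasurePreserving (fun x : UnitAddCircle => p • x) ν ν ∧
      MeasurePreserving (fun x : UnitAddCircle => q • x) ν ν ∧
      ν ⟂ₘ (volume : Measure UnitAddCircle))
    {η : ℕ → Measure UnitAddCircle} (hη : ∀ l, IsFiniteMeasure (η l))
    (hfat : ∀ l, Fat p q (η l)) :
    ∃ L : Submodule ℚ ℝ, (∃ F : ℕ → Set ℝ, (∀ k, IsClosed (F k)) ∧ (L : Set ℝ) = ⋃ k, F k) ∧
      (1 : ℝ) ∈ L ∧ (∀ ν ∈ N, ∀ᵐ x ∂ν, ∀ X : ℝ, (X : UnitAddCircle) = x → X ∈ L) ∧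
      ∀ l, η l {w | ∃ X : ℝ, (X : UnitAddCircle) = w ∧ X ∈ L} = 0 := by
  -- the point mass at zero makes the set nonempty
  have h0 : IsProbabilityMeasure (Measure.dirac (0 : UnitAddCircle)) ∧
      MeasurePreserving (fun x : UnitAddCircle => p • x) (Measure.dirac (0 : UnitAddCircle))
        (Measure.dirac (0 : UnitAddCircle)) ∧
      MeasurePreserving (fun x : UnitAddCircle => q • x) (Measure.dirac (0 : UnitAddCircle))
        (Measure.dirac (0 : UnitAddCircle)) ∧
      (Measure.dirac (0 : UnitAddCircle)) ⟂ₘ (volume : Measure UnitAddCircle) := by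
    have hd : ∀ r : ℕ, MeasurePreserving (fun x : UnitAddCircle => r • x)
        (Measure.dirac (0 : UnitAddCircle)) (Measure.dirac (0 : UnitAddCircle)) := fun r =>
      ⟨nsmul_measX r, by rw [Measure.map_dirac' (nsmul_measX r), smul_zero]⟩
    refine ⟨inferInstance, hd p, hd q, ?_⟩
    exact ⟨{0}ᶜ, (measurableSet_singleton _).compl, by
      rw [Measure.dirac_apply' _ (measurableSet_singleton _).compl]
      simp, by
      rw [compl_compl]
      refine measure_mono_null (singleton_subset_iff.2 ?_) vol_tor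
      exact ⟨1, one_pos, smul_zero _⟩⟩
  obtain ⟨μ, hμ, hμp, hμq, hμs, hac⟩ := exists_mean (p := p) (q := q)
    (N := insert (Measure.dirac (0 : UnitAddCircle)) N) (hN.insert _) (insert_nonempty _ _) (by
      rintro ν (rfl | hν)
      · exact h0
      · exact h ν hν)
  obtain ⟨H, hH, hH1, hH2⟩ := exists_groupF (q := q) hp
    hμp hμq (essInj hp hq hpq hμp hμq hμs)
    (η := fun k => (η (Nat.unpair k).1).map fun x => ((Nat.unpair k).2 + 1) • x)
    (fun k => by
      have := hη (Nat.unpair k).1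
      exact Measure.isFiniteMeasure_map _ _)
    (fun k => (hfat _).map (Nat.succ_ne_zero _))
  have hHm : MeasurableSet (H : Set UnitAddCircle) := by
    obtain ⟨C, hC, e⟩ := hH
    rw [e]
    exact MeasurableSet.iUnion fun k => (hC k).measurableSet
  refine ⟨Pool.Agent.Zk24.SL.lin H, lin_closed hH, lin_one H, ?_, ?_⟩
  · intro ν hν
    have h1 : ∀ᵐ x ∂ν, x ∈ H := by
      have h2 := hac ν (mem_insert_of_mem _ hν) hH1
      rw [← mem_ae_iff] at h2
      exact h2
    filter_upwards [h1] with x hx X hX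
    refine ⟨1, one_pos, ?_⟩
    rw [Nat.cast_one, one_mul, hX]
    exact hx
  · intro l
    refine measure_mono_null (t := ⋃ k : ℕ, (fun x => (k + 1) • x) ⁻¹' (H : Set UnitAddCircle)) ?_
      (measure_iUnion_null fun k => ?_)
    · rintro w ⟨X, rfl, n, hn, hX⟩
      refine mem_iUnion.2 ⟨n - 1, ?_⟩
      show (n - 1 + 1) • (X : UnitAddCircle) ∈ H
      rw [Nat.sub_add_cancel hn, ← AddCircle.coe_nsmul, nsmul_eq_mul]
      exact hX
    · have h1 := hH2 (Nat.pair l k)
      simp only [Nat.unpair_pair] at h1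
      rwa [Measure.map_apply (nsmul_measX _) hHm] at h1

end Pool.Agent.Zk32
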