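import Mathlib
import Pool.Agent.Zk32.Tl3
import Pool.Agent.Zk24.SL.LinC

/-!
Driven vectors and Borel subspaces over the rationals
-/

set_option autoImplicit false

open MeasureTheory Filter Topology Set
open scoped ENNReal
open Pool.Agent.Zk24.SL (Driven driven_zero torus_driven' rep coe_rep rep_meas)

namespace Pool.Agent.Zk32

universe u v

/-- **A dichotomy.** A linear combination of the coordinates of a driven vector is not in a Borel
rational subspace unless all the coefficients are in it. -/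
theorem driven_out {Ω : Type u} [MeasurableSpace Ω] {d : ℕ} {P : Measure Ω} {S : Ω → Ω}
    {X : Ω → Fin d → ℝ} (h : Driven P S X) {L : Submodule ℚ ℝ}
    (hL : MeasurableSet (L : Set ℝ)) {τ : Fin d → ℝ} {t : ℝ}
    (hout : ¬ ((∀ i, τ i ∈ L) ∧ t ∈ L)) :
    P {ω | ∑ i, τ i * X ω i + t ∈ L} = 0 := by
  have hψ : ∃ ψ : ℝ →ₗ[ℚ] ℚ, ((∃ i, ψ (τ i) ≠ 0) ∨ ψ t ≠ 0) ∧ ∀ x ∈ L, ψ x = 0 := by
    rw [not_and_or] at hout
    rcases hout with hout | hout
    · push Not at hout
      obtain ⟨i, hi⟩ := hout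
      obtain ⟨ψ, h1, h2⟩ := Submodule.exists_le_ker_of_notMem hi
      exact ⟨ψ, Or.inl ⟨i, h1⟩, fun x hx => LinearMap.mem_ker.1 (h2 hx)⟩
    · obtain ⟨ψ, h1, h2⟩ := Submodule.exists_le_ker_of_notMem hout
      exact ⟨ψ, Or.inr h1, fun x hx => LinearMap.mem_ker.1 (h2 hx)⟩
  obtain ⟨ψ, hψ1, hψL⟩ := hψ
  have hXi : ∀ i, Measurable fun ω => X ω i := fun i => (measurable_pi_apply i).comp h.2.1
  refine driven_zero h (((Finset.measurable_sum _ fun i _ => (hXi i).const_mul _).add_const _) hL)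
    (a := fun i => ψ (τ i)) (β := ψ t) ?_ fun ω ω' R v hR hv hω hω' => ?_
  · rcases hψ1 with ⟨i, hi⟩ | h
    · exact Or.inl fun h0 => hi (congrFun h0 i)
    · exact Or.inr h
  · have h1 : ∑ i, τ i * v i + (1 - (R : ℝ)) * t ∈ L := by
      have h2 : ∑ i, τ i * v i + (1 - (R : ℝ)) * t =
          (∑ i, τ i * X ω' i + t) - R • (∑ i, τ i * X ω i + t) := by
        have h3 : ∑ i, τ i * X ω' i = (R : ℝ) * ∑ i, τ i * X ω i + ∑ i, τ i * v i := by
          rw [Finset.mul_sum, ← Finset.sum_add_distrib]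
          refine Finset.sum_congr rfl fun i _ => ?_
          rw [hv]
          ring
        rw [h3, Rat.smul_def]
        ring
      rw [h2]
      exact L.sub_mem hω' (L.smul_mem R hω)
    have h4 : ∑ i, ψ (τ i) * v i + (1 - R) * ψ t = 0 := by
      have h5 := hψL _ h1
      have h6 : ∀ (x : ℝ) (s : ℚ), ψ (x * s) = ψ x * s := by
        intro x s
        have : x * (s : ℝ) = s • x := by rw [Rat.smul_def, mul_comm]
        rw [this, map_smul, smul_eq_mul, mul_comm]
      have h7 : (1 - (R : ℝ)) * t = t * ((1 - R : ℚ) : ℝ) := by push_cast; ring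
      rw [map_add, map_sum, h7, h6] at h5
      simp_rw [h6] at h5
      rw [mul_comm (1 - R)]
      exact h5
    have h8 : (∑ i, (ψ (τ i) : ℝ) * v i) + (1 - (R : ℝ)) * ψ t = 0 := by exact_mod_cast h4
    have h9 : ∑ i, (ψ (τ i) : ℝ) * X ω' i =
        (R : ℝ) * ∑ i, (ψ (τ i) : ℝ) * X ω i + ∑ i, (ψ (τ i) : ℝ) * v i := by
      rw [Finset.mul_sum, ← Finset.sum_add_distrib]
      refine Finset.sum_congr rfl fun i _ => ?_
      rw [hv]
      ring
    rw [h9]
    linear_combination h8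

/-- all the lifts of the points of the torus -/
theorem torus_out {d : ℕ} {n : ℤ} (hn : 2 ≤ |n|) {κ : Measure (Fin d → UnitAddCircle)}
    (hκ : Conservative (fun x : Fin d → UnitAddCircle => n • x) κ)
    (hat : ∀ m : Fin d → ℤ, m ≠ 0 → ∀ c : UnitAddCircle, IsOfFinAddOrder c →
      κ {x | ∑ i, m i • x i = c} = 0)
    {L : Submodule ℚ ℝ} (hL : MeasurableSet (L : Set ℝ))
    {τ : Fin d → ℝ} {t : ℝ} (hout : ¬ ((∀ i, τ i ∈ L) ∧ t ∈ L)) :
    ∀ᵐ x ∂κ, ∀ X : Fin d → ℝ, (∀ i, ((X i : ℝ) : UnitAddCircle) = x i) →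
      ∑ i, τ i * X i + t ∉ L := by
  have hD := torus_driven' hn hκ hat
  have key : ∀ j : Fin d → ℤ, ∀ᵐ x ∂κ, ∑ i, τ i * rep (x i) + (t + ∑ i, τ i * j i) ∉ L := by
    intro j
    refine measure_eq_zero_iff_ae_notMem.1 (driven_out hD hL ?_)
    rintro ⟨h1, h2⟩
    refine hout ⟨h1, ?_⟩
    have h3 : ∑ i, τ i * (j i : ℝ) ∈ L := L.sum_mem fun i _ => by
      have := L.smul_mem (j i : ℚ) (h1 i)
      rw [Rat.smul_def, mul_comm] at this
      exact_mod_cast this
    have := L.sub_mem h2 h3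
    rwa [add_sub_cancel_right] at this
  filter_upwards [ae_all_iff.2 key] with x hx X hX hmem
  have hj : ∀ i, ∃ j : ℤ, X i = rep (x i) + j := by
    intro i
    have h1 : ((X i - rep (x i) : ℝ) : UnitAddCircle) = 0 := by
      rw [AddCircle.coe_sub, coe_rep, hX, sub_self]
    rw [AddCircle.coe_eq_zero_iff] at h1
    obtain ⟨j, hj⟩ := h1
    refine ⟨j, ?_⟩
    rw [zsmul_eq_mul, mul_one] at hj
    linarith
  choose j hj using hj
  apply hx j
  have e : ∑ i, τ i * rep (x i) + (t + ∑ i, τ i * j i) = ∑ i, τ i * X i + t := by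
    have h2 : ∑ i, τ i * X i = ∑ i, τ i * rep (x i) + ∑ i, τ i * j i := by
      rw [← Finset.sum_add_distrib]
      refine Finset.sum_congr rfl fun i _ => ?_
      rw [hj i]
      ring
    rw [h2]
    ring
  rw [e]
  exact hmem

/-- the points of the circle with a representative in `L` -/
def cir (L : Submodule ℚ ℝ) : Set UnitAddCircle := {w | ∃ T : ℝ, (T : UnitAddCircle) = w ∧ T ∈ L}

lemma int_mem {L : Submodule ℚ ℝ} (hL1 : (1 : ℝ) ∈ L) (j : ℤ) : (j : ℝ) ∈ L := by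
  have := L.smul_mem (j : ℚ) hL1
  rw [Rat.smul_def, mul_one] at this
  exact_mod_cast this

lemma coe_cir {L : Submodule ℚ ℝ} (hL1 : (1 : ℝ) ∈ L) (T : ℝ) :
    (T : UnitAddCircle) ∈ cir L ↔ T ∈ L := by
  constructor
  · rintro ⟨T', h, hT'⟩
    have h1 : ((T - T' : ℝ) : UnitAddCircle) = 0 := by
      rw [AddCircle.coe_sub, h, sub_self]
    rw [AddCircle.coe_eq_zero_iff] at h1
    obtain ⟨j, hj⟩ := h1
    rw [zsmul_eq_mul, mul_one] at hj
    have e : T = T' + j := by linarith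
    rw [e]
    exact L.add_mem hT' (int_mem hL1 j)
  · exact fun h => ⟨T, rfl, h⟩

lemma rep_cir {L : Submodule ℚ ℝ} (hL1 : (1 : ℝ) ∈ L) (w : UnitAddCircle) :
    w ∈ cir L ↔ rep w ∈ L := by
  rw [← coe_cir hL1, coe_rep]

lemma cir_meas {L : Submodule ℚ ℝ} (hL1 : (1 : ℝ) ∈ L) (hL : MeasurableSet (L : Set ℝ)) :
    MeasurableSet (cir L) := by
  have e : cir L = {w | rep w ∈ L} := by
    ext w
    exact rep_cir hL1 w
  rw [e]
  exact rep_meas hL

lemma cir_add {L : Submodule ℚ ℝ} {x y : UnitAddCircle} (hx : x ∈ cir L) (hy : y ∈ cir L) :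
    x + y ∈ cir L := by
  obtain ⟨X, rfl, hX⟩ := hx
  obtain ⟨Y, rfl, hY⟩ := hy
  exact ⟨X + Y, AddCircle.coe_add _ _ _, L.add_mem hX hY⟩

lemma cir_zsmul {L : Submodule ℚ ℝ} {x : UnitAddCircle} (hx : x ∈ cir L) (c : ℤ) :
    c • x ∈ cir L := by
  obtain ⟨X, rfl, hX⟩ := hx
  refine ⟨c • X, by rw [AddCircle.coe_zsmul], ?_⟩
  have := L.smul_mem (c : ℚ) hX
  rw [Rat.smul_def] at this
  rw [zsmul_eq_mul]
  exact_mod_cast this

lemma cir_sum {L : Submodule ℚ ℝ} {r : ℕ} {y : Fin r → UnitAddCircle} (hy : ∀ j, y j ∈ cir L)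
    (c : Fin r → ℤ) : ∑ j, c j • y j ∈ cir L := by
  have h0 : (0 : UnitAddCircle) ∈ cir L := ⟨0, AddCircle.coe_zero _, L.zero_mem⟩
  exact Finset.sum_induction (fun j => c j • y j) (fun x => x ∈ cir L)
    (fun _ _ => cir_add) h0 fun j _ => cir_zsmul (hy j) (c j)

lemma cir_sub {L : Submodule ℚ ℝ} {x y : UnitAddCircle} (hx : x ∈ cir L) (hy : y ∈ cir L) :
    x - y ∈ cir L := by
  have h := cir_zsmul hy (-1)
  rw [neg_one_zsmul] at h
  rw [sub_eq_add_neg]
  exact cir_add hx h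

/-- **Sums.** Let `φ` be a random number such that `φ + t` is not in `L` for all `t` outside of `L`.
Adding an independent copy of `φ` and dependent points of the subspace does not bring a point
back to the subspace. -/
theorem sum_gen {Ω : Type u} [MeasurableSpace Ω] {P : Measure Ω} [SFinite P]
    {φ : Ω → ℝ} (hφ : Measurable φ) {L : Submodule ℚ ℝ}
    (hL : MeasurableSet (L : Set ℝ)) (hL1 : (1 : ℝ) ∈ L)
    (hφL : ∀ t : ℝ, t ∉ L → P {ω | φ ω + t ∈ L} = 0)
    {Ω' : Type v} [MeasurableSpace Ω'] {Q : Measure Ω'} [SFinite Q] {r : ℕ}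
    {y : Fin r → Ω' → UnitAddCircle} (hy : ∀ j, Measurable (y j))
    (hyL : ∀ j, ∀ᵐ o ∂Q, y j o ∈ cir L)
    {w : Ω' → UnitAddCircle} (hw : Measurable w) {D : Set UnitAddCircle} (hD : MeasurableSet D)
    (hwL : Q {o | w o ∈ D ∧ w o ∈ cir L} = 0) (c : Fin r → ℤ) :
    (P.prod Q) {z : Ω × Ω' | w z.2 ∈ D ∧
      ((φ z.1 : ℝ) : UnitAddCircle) + ∑ j, c j • y j z.2 + w z.2 ∈ cir L} = 0 := by
  have hcm := cir_meas hL1 hL
  have hm : MeasurableSet {z : Ω × Ω' | w z.2 ∈ D ∧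
      ((φ z.1 : ℝ) : UnitAddCircle) + ∑ j, c j • y j z.2 + w z.2 ∈ cir L} := by
    refine ((hw.comp measurable_snd) hD).inter ?_
    have h1 : Measurable fun z : Ω × Ω' => ((φ z.1 : ℝ) : UnitAddCircle) :=
      AddCircle.measurable_mk'.comp (hφ.comp measurable_fst)
    have h2 : Measurable fun z : Ω × Ω' => ∑ j, c j • y j z.2 :=
      Finset.measurable_sum _ fun j _ =>
        ((continuous_zsmul (c j)).measurable.comp ((hy j).comp measurable_snd))
    exact ((h1.add h2).add (hw.comp measurable_snd)) hcm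
  rw [Measure.prod_apply_symm hm, lintegral_eq_zero_iff (measurable_measure_prodMk_right hm)]
  have hwL' := measure_eq_zero_iff_ae_notMem.1 hwL
  filter_upwards [hwL', ae_all_iff.2 hyL] with o ho hyo
  by_cases hDo : w o ∈ D
  · have hwo : w o ∉ cir L := fun hc => ho ⟨hDo, hc⟩
    -- the constant term
    set b : UnitAddCircle := ∑ j, c j • y j o + w o with hb
    have hbo : b ∉ cir L := by
      intro hc
      apply hwo
      have h1 := cir_sub hc (cir_sum hyo c)
      rwa [hb, add_sub_cancel_left] at h1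
    have ht : rep b ∉ L := fun hc => hbo ((rep_cir hL1 b).2 hc)
    refine measure_mono_null (fun ω hω => ?_) (hφL (rep b) ht)
    have h2 : ((φ ω : ℝ) : UnitAddCircle) + ∑ j, c j • y j o + w o ∈ cir L := hω.2
    rw [add_assoc, ← hb] at h2
    show φ ω + rep b ∈ L
    rw [← coe_cir hL1, AddCircle.coe_add, coe_rep]
    exact h2
  · refine measure_mono_null (fun ω hω => ?_) measure_empty
    exact hDo hω.1

/-- the same if `φ + t` is not in `L` for all `t`: any independent point -/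
theorem coef_gen {Ω : Type u} [MeasurableSpace Ω] {P : Measure Ω} [SFinite P]
    {φ : Ω → ℝ} (hφ : Measurable φ) {L : Submodule ℚ ℝ}
    (hL : MeasurableSet (L : Set ℝ)) (hL1 : (1 : ℝ) ∈ L)
    (hφL : ∀ t : ℝ, P {ω | φ ω + t ∈ L} = 0)
    {Ω' : Type v} [MeasurableSpace Ω'] {Q : Measure Ω'} [SFinite Q]
    {w : Ω' → UnitAddCircle} (hw : Measurable w) :
    (P.prod Q) {z : Ω × Ω' | ((φ z.1 : ℝ) : UnitAddCircle) + w z.2 ∈ cir L} = 0 := by
  have hcm := cir_meas hL1 hL
  have hm : MeasurableSet {z : Ω × Ω' | ((φ z.1 : ℝ) : UnitAddCircle) + w z.2 ∈ cir L} := by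
    have h1 : Measurable fun z : Ω × Ω' => ((φ z.1 : ℝ) : UnitAddCircle) :=
      AddCircle.measurable_mk'.comp (hφ.comp measurable_fst)
    exact (h1.add (hw.comp measurable_snd)) hcm
  rw [Measure.prod_apply_symm hm, lintegral_eq_zero_iff (measurable_measure_prodMk_right hm)]
  refine Eventually.of_forall fun o => ?_
  refine measure_mono_null (fun ω hω => ?_) (hφL (rep (w o)))
  have h2 : ((φ ω : ℝ) : UnitAddCircle) + w o ∈ cir L := hω
  show φ ω + rep (w o) ∈ L
  rw [← coe_cir hL1, AddCircle.coe_add, coe_rep]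
  exact h2

end Pool.Agent.Zk32
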