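import Mathlib
import Pool.Agent.Zk32.Tl4

/-!
Assembly
-/

set_option autoImplicit false

open MeasureTheory Filter Topology Set
open scoped ENNReal
open Pool.Agent.Zk24.SL (Driven rep coe_rep rep_meas meas_of_closed rec_null rigid_any)

namespace Pool.Agent.Zk32

universe u v

/-- conditionally on any event, some Folner limit is not singular to Lebesgue measure -/
def Thick (p q : ℕ) (ω : Measure UnitAddCircle) : Prop :=
  ∀ B : Set UnitAddCircle, MeasurableSet B → ω B ≠ 0 →
    ∃ F : ℕ → Finset (ℕ × ℕ), Folner F ∧ ∃ κ : Measure UnitAddCircle, IsProbabilityMeasure κ ∧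
      Lim p q F (ProbabilityTheory.cond ω B) κ ∧ ¬ κ ⟂ₘ (volume : Measure UnitAddCircle)

lemma Thick.fat {p q : ℕ} (hp : 2 ≤ p) {ω : Measure UnitAddCircle} [IsProbabilityMeasure ω]
    (h : Thick p q ω) : Fat p q ω := by
  have h1 := fat_of_thin (p := p) (q := q) hp (ω := ω) MeasurableSet.empty (by
    intro B hB h0 ht
    obtain ⟨F, hF, κ, hκ, hl, hns⟩ := h B hB h0
    exact absurd (ht F hF κ hκ hl) hns)
  rwa [compl_empty, Measure.restrict_univ] at h1

/-- fat measures in a sequence with the point masses at the irrational numbers of a countable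
field -/
theorem exists_linK {p q : ℕ} (hp : 2 ≤ p) (hq : 2 ≤ q) (hpq : Nat.Coprime p q)
    {K : Set ℝ} (hK : K.Countable)
    {N : Set (Measure UnitAddCircle)} (hN : N.Countable)
    (h : ∀ ν ∈ N, IsProbabilityMeasure ν ∧ MeasurePreserving (fun x : UnitAddCircle => p • x) ν ν ∧
      MeasurePreserving (fun x : UnitAddCircle => q • x) ν ν ∧
      ν ⟂ₘ (volume : Measure UnitAddCircle))
    {ω : ℕ → Measure UnitAddCircle} (hω : ∀ l, IsProbabilityMeasure (ω l))
    (hfat : ∀ l, Fat p q (ω l)) :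
    ∃ L : Submodule ℚ ℝ, (∃ F : ℕ → Set ℝ, (∀ k, IsClosed (F k)) ∧ (L : Set ℝ) = ⋃ k, F k) ∧
      (1 : ℝ) ∈ L ∧ (∀ ν ∈ N, ∀ᵐ x ∂ν, ∀ X : ℝ, (X : UnitAddCircle) = x → X ∈ L) ∧
      (∀ l, ω l (cir L) = 0) ∧ ∀ x ∈ L, x ∈ K → ∃ a : ℚ, x = a := by
  have hirr := Pool.Agent.Zk24.SC.irr_of_coprime hp hq hpq
  -- an enumeration of the irrational numbers in the set
  set I : Set ℝ := {x | x ∈ K ∧ Irrational x} ∪ {√2} with hI
  have hIc : I.Countable := (hK.mono fun x hx => hx.1).union (countable_singleton _)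
  obtain ⟨f, hf⟩ := hIc.exists_eq_range ⟨√2, Or.inr rfl⟩
  have hfi : ∀ k, Irrational (f k) := by
    intro k
    have h1 : f k ∈ I := hf ▸ mem_range_self k
    rcases h1 with h1 | h1
    · exact h1.2
    · rw [mem_singleton_iff.1 h1]
      exact irrational_sqrt_two
  have hft : ∀ k, ¬ IsOfFinAddOrder ((f k : ℝ) : UnitAddCircle) := by
    intro k hfin
    obtain ⟨a, ha⟩ := Pool.Agent.Zk24.SL.rat_of_torsion hfin
    exact hfi k ⟨a, ha.symm⟩
  obtain ⟨L, hLc, hL1, hLN, hLη⟩ := exists_linF hp hq hpq hN h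
    (η := fun k => if Even k then ω (k / 2) else Measure.dirac ((f (k / 2) : ℝ) : UnitAddCircle))
    (fun k => by
      show IsFiniteMeasure (if Even k then ω (k / 2) else _)
      split_ifs
      · have := hω (k / 2)
        infer_instance
      · infer_instance)
    (fun k => by
      show Fat p q (if Even k then ω (k / 2) else _)
      split_ifs
      · exact hfat _
      · exact fat_dirac hp hq hirr (hft _))
  refine ⟨L, hLc, hL1, hLN, fun l => ?_, fun x hx hxK => ?_⟩
  · have h1 := hLη (2 * l)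
    rw [if_pos (even_two_mul l), Nat.mul_div_cancel_left l two_pos] at h1
    exact h1
  · by_contra hne
    have hi : Irrational x := fun ⟨a, ha⟩ => hne ⟨a, ha.symm⟩
    have hxI : x ∈ range f := hf ▸ (Or.inl ⟨hxK, hi⟩ : x ∈ I)
    obtain ⟨k, rfl⟩ := hxI
    have h1 := hLη (2 * k + 1)
    have h2 : ¬ Even (2 * k + 1) := by
      rw [Nat.not_even_iff_odd]
      exact ⟨k, rfl⟩
    have h3 : (2 * k + 1) / 2 = k := by omega
    rw [if_neg h2, h3] at h1
    have hm : MeasurableSet (cir L) := cir_meas hL1 (meas_of_closed hLc)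
    change Measure.dirac _ (cir L) = 0 at h1
    rw [Measure.dirac_apply' _ hm, indicator_of_mem ((coe_cir hL1 _).2 hx)] at h1
    exact one_ne_zero h1

/-- **Rigidity.** Let `φ` be a random number, `w`, `y j` random points, not necessarily
independent of each other, but independent of `φ`.  An invariant measure is Lebesgue measure if
it is absolutely continuous with respect to the law of `φ + ∑ c j • y j + w`, and one of the two
alternatives holds. -/
theorem rigid_gen {p q : ℕ} (hp : 2 ≤ p) (hq : 2 ≤ q) (hpq : Nat.Coprime p q)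
    {Ω : Type u} [MeasurableSpace Ω] {P : Measure Ω} [IsProbabilityMeasure P]
    {φ : Ω → ℝ} (hφ : Measurable φ)
    {Ω' : Type v} [MeasurableSpace Ω'] {Q : Measure Ω'} [IsProbabilityMeasure Q] {r : ℕ}
    {y : Fin r → Ω' → UnitAddCircle} (hy : ∀ j, Measurable (y j))
    {w : Ω' → UnitAddCircle} (hw : Measurable w) (c : Fin r → ℤ)
    (hor : (∃ θ : ℝ, Irrational θ ∧ ∀ L : Submodule ℚ ℝ, MeasurableSet (L : Set ℝ) →
      (1 : ℝ) ∈ L → θ ∉ L → ∀ t : ℝ, P {ω | φ ω + t ∈ L} = 0) ∨
      ((∀ L : Submodule ℚ ℝ, MeasurableSet (L : Set ℝ) → (1 : ℝ) ∈ L →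
        ∀ t : ℝ, t ∉ L → P {ω | φ ω + t ∈ L} = 0) ∧ Thick p q (Q.map w) ∧ ∀ j,
      MeasurePreserving (fun x : UnitAddCircle => p • x) (Q.map (y j)) (Q.map (y j)) ∧
      MeasurePreserving (fun x : UnitAddCircle => q • x) (Q.map (y j)) (Q.map (y j)) ∧
      Q.map (y j) ⟂ₘ (volume : Measure UnitAddCircle)))
    {μ : Measure UnitAddCircle} [IsProbabilityMeasure μ]
    (hμp : MeasurePreserving (fun x : UnitAddCircle => p • x) μ μ)
    (hμq : MeasurePreserving (fun x : UnitAddCircle => q • x) μ μ)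
    (hac : μ ≪ (P.prod Q).map (fun z : Ω × Ω' =>
      ((φ z.1 : ℝ) : UnitAddCircle) + ∑ j, c j • y j z.2 + w z.2)) :
    μ = volume := by
  refine rigid_any hp hq (fun ν hν hνp hνq hsing => ?_) hμp hμq hac
  have h2 : Measurable fun z : Ω × Ω' => ∑ j, c j • y j z.2 :=
    Finset.measurable_sum _ fun j _ =>
      ((continuous_zsmul (c j)).measurable.comp ((hy j).comp measurable_snd))
  have hmeas : Measurable fun z : Ω × Ω' =>
      ((φ z.1 : ℝ) : UnitAddCircle) + ∑ j, c j • y j z.2 + w z.2 := by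
    have h1 : Measurable fun z : Ω × Ω' => ((φ z.1 : ℝ) : UnitAddCircle) :=
      AddCircle.measurable_mk'.comp (hφ.comp measurable_fst)
    exact (h1.add h2).add (hw.comp measurable_snd)
  suffices hs : ∃ L : Submodule ℚ ℝ, MeasurableSet (L : Set ℝ) ∧ (1 : ℝ) ∈ L ∧
      (∀ᵐ x ∂ν, ∀ X : ℝ, (X : UnitAddCircle) = x → X ∈ L) ∧
      (P.prod Q) {z : Ω × Ω' | ((φ z.1 : ℝ) : UnitAddCircle) +
        ∑ j, c j • y j z.2 + w z.2 ∈ cir L} = 0 by
    obtain ⟨L, hL, hL1, hLν, h0⟩ := hs
    have hAm := cir_meas hL1 hL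
    refine ⟨(cir L)ᶜ, hAm.compl, ?_, ?_⟩
    · have h1 : ∀ᵐ x ∂ν, x ∈ cir L := by
        filter_upwards [hLν] with x hx
        exact ⟨rep x, coe_rep x, hx (rep x) (coe_rep x)⟩
      exact mem_ae_iff.1 h1
    · rw [compl_compl, Measure.map_apply hmeas hAm]
      exact h0
  rcases hor with ⟨θ, hθ, hφL⟩ | ⟨hφL, hth, hyN⟩
  · obtain ⟨L, hLc, hL1, hLN, -, hLK⟩ := exists_linK hp hq hpq
      (K := {θ}) (countable_singleton _)
      (N := {ν}) (countable_singleton _)
      (by
        intro σ hσ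
        rw [mem_singleton_iff] at hσ
        subst hσ
        exact ⟨hν, hνp, hνq, hsing⟩)
      (ω := fun _ => Measure.dirac ((√2 : ℝ) : UnitAddCircle)) (fun _ => inferInstance)
      (fun _ => fat_dirac hp hq (Pool.Agent.Zk24.SC.irr_of_coprime hp hq hpq) (by
        intro hfin
        obtain ⟨a, ha⟩ := Pool.Agent.Zk24.SL.rat_of_torsion hfin
        exact irrational_sqrt_two ⟨a, ha.symm⟩))
    have hL := meas_of_closed hLc
    refine ⟨L, hL, hL1, hLN ν rfl, ?_⟩
    have hiL : θ ∉ L := by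
      intro hc
      obtain ⟨a, ha⟩ := hLK _ hc rfl
      exact hθ ⟨a, ha.symm⟩
    have hw' : Measurable fun o : Ω' => ∑ j, c j • y j o + w o := by
      have h3 : Measurable fun o : Ω' => ∑ j, c j • y j o :=
        Finset.measurable_sum _ fun j _ => (continuous_zsmul (c j)).measurable.comp (hy j)
      exact h3.add hw
    refine measure_mono_null (fun z hz => ?_) (coef_gen hφ hL hL1 (hφL L hL hL1 hiL) (Q := Q) hw')
    show ((φ z.1 : ℝ) : UnitAddCircle) + (∑ j, c j • y j z.2 + w z.2) ∈ cir L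
    rw [← add_assoc]
    exact hz
  · have hprob : IsProbabilityMeasure (Q.map w) := Measure.isProbabilityMeasure_map hw.aemeasurable
    obtain ⟨L, hLc, hL1, hLN, hLω, -⟩ := exists_linK hp hq hpq
      (K := ∅) countable_empty
      (N := insert ν (range fun j => Q.map (y j))) ((countable_range _).insert _)
      (by
        rintro σ (rfl | ⟨j, rfl⟩)
        · exact ⟨hν, hνp, hνq, hsing⟩
        · exact ⟨Measure.isProbabilityMeasure_map (hy j).aemeasurable, hyN j⟩)
      (ω := fun _ => Q.map w) (fun _ => hprob) (fun _ => hth.fat hp)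
    have hL := meas_of_closed hLc
    have hAm := cir_meas hL1 hL
    refine ⟨L, hL, hL1, hLN ν (mem_insert _ _), ?_⟩
    have h1 := sum_gen hφ hL hL1 (hφL L hL hL1) (Q := Q) hy (fun j => ?_) hw MeasurableSet.univ ?_ c
    · refine measure_mono_null (fun z hz => ?_) h1
      exact ⟨mem_univ _, hz⟩
    · have h2 := hLN _ (mem_insert_of_mem _ (mem_range_self j))
      have h3 : ∀ᵐ x ∂(Q.map (y j)), x ∈ cir L := by
        filter_upwards [h2] with x hx
        exact ⟨rep x, coe_rep x, hx (rep x) (coe_rep x)⟩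
      exact ae_of_ae_map (hy j).aemeasurable h3
    · have h2 := hLω 0
      rw [Measure.map_apply hw hAm] at h2
      refine measure_mono_null (fun o ho => ?_) h2
      exact ho.2

end Pool.Agent.Zk32
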