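import Mathlib
import Pool.Agent.Zk32.Tu5

/-!
Tempered sequences of finite sets of exponents
-/

set_option autoImplicit false

open MeasureTheory Filter Topology Set

namespace Pool.Agent.Zk32

/-- tempered sequences: the differences of `F n` and of the strictly earlier sets `F k`, `k < n`,
all lie in a set of at most `C * card (F n)` elements -/
def Temper (C : ℝ) (F : ℕ → Finset (ℕ × ℕ)) : Prop :=
  ∀ n, ∃ G : Finset (ℤ × ℤ), (G.card : ℝ) ≤ C * (F n).card ∧
    ∀ k < n, ∀ a ∈ F n, ∀ b ∈ F k, ((a.1 : ℤ) - b.1, (a.2 : ℤ) - b.2) ∈ G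

end Pool.Agent.Zk32
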