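import Mathlib
import Pool.Agent.Zk32.Tv0
import Pool.Agent.Zk32.Tu6
import Pool.Agent.Zk32.Tl1
import Pool.Agent.Zk26.FS

/-!
Laws with a nonsingular limit are moved out of the sets of the points with singular averages
-/

set_option autoImplicit false

open MeasureTheory Filter Topology Set
open scoped ENNReal

namespace Pool.Agent.Zk32

/-- the points with nearly singular averages over `E` -/
def near (p q : ℕ) (e : ℝ) (R : ℕ) (E : Finset (ℕ × ℕ)) : Set UnitAddCircle :=
  {w | ∃ i, i ≤ R ∧ ∫ y, phi i y ≤ e ∧ 1 - e ≤ ave p q E (phi i) w}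

lemma near_closed (p q : ℕ) (e : ℝ) (R : ℕ) (E : Finset (ℕ × ℕ)) : IsClosed (near p q e R E) := by
  have e2 : near p q e R E = ⋃ i ∈ Finset.range (R + 1), {w | ∫ y, phi i y ≤ e ∧
      1 - e ≤ ave p q E (phi i) w} := by
    ext w
    simp only [mem_iUnion, Finset.mem_range]
    constructor
    · rintro ⟨i, h1, h2⟩
      exact ⟨i, by omega, h2⟩
    · rintro ⟨i, h1, h2⟩
      exact ⟨i, by omega, h2⟩
  rw [e2]
  refine (Finset.range (R + 1)).finite_toSet.isClosed_biUnion fun i _ => ?_
  by_cases h : ∫ y, phi i y ≤ e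
  · simp only [h, true_and]
    exact isClosed_le continuous_const (ave_mono_cont (phi i))
  · simp only [h, false_and]
    exact isClosed_empty

lemma box_at (p q : ℕ) (g : UnitAddCircle → ℝ) (N : ℕ) (n : ℕ × ℕ) (x : UnitAddCircle) :
    Pool.Agent.Zk26.FS.box p q g N n x =
      Pool.Agent.Zk26.FS.box p q g N (0, 0) ((p ^ n.1 * q ^ n.2) • x) := by
  unfold Pool.Agent.Zk26.FS.box
  congr 1
  refine Finset.sum_congr rfl fun i _ => ?_
  congr 1
  refine Finset.sum_congr rfl fun j _ => ?_
  rw [smul_smul]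
  congr 2
  ring

lemma box_le_one (p q : ℕ) {g : UnitAddCircle → ℝ} (hg : ∀ x, g x ≤ 1) {N : ℕ} (hN : 0 < N)
    (n : ℕ × ℕ) (x : UnitAddCircle) : Pool.Agent.Zk26.FS.box p q g N n x ≤ 1 := by
  have hN0 : (0 : ℝ) < N := by exact_mod_cast hN
  have h1 : ∀ i ∈ Finset.range N, (N : ℝ)⁻¹ * ∑ j ∈ Finset.range N,
      g ((p ^ (n.1 + i) * q ^ (n.2 + j)) • x) ≤ 1 := by
    intro i _
    rw [inv_mul_le_iff₀ hN0, mul_one]
    calc ∑ j ∈ Finset.range N, g ((p ^ (n.1 + i) * q ^ (n.2 + j)) • x)
        ≤ ∑ j ∈ Finset.range N, (1 : ℝ) := Finset.sum_le_sum fun j _ => hg _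
      _ = N := by rw [Finset.sum_const, Finset.card_range, nsmul_eq_mul, mul_one]
  unfold Pool.Agent.Zk26.FS.box
  rw [inv_mul_le_iff₀ hN0, mul_one]
  calc ∑ i ∈ Finset.range N, ((N : ℝ)⁻¹ * ∑ j ∈ Finset.range N,
      g ((p ^ (n.1 + i) * q ^ (n.2 + j)) • x)) ≤ ∑ i ∈ Finset.range N, (1 : ℝ) :=
        Finset.sum_le_sum h1
    _ = N := by rw [Finset.sum_const, Finset.card_range, nsmul_eq_mul, mul_one]

/-- **A law with a nonsingular limit is moved.** -/
theorem key_move {p q : ℕ} (hp : 2 ≤ p) (hq : 1 ≤ q) {F : ℕ → Finset (ℕ × ℕ)} (hF : Folner F)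
    {ρ κ : Measure UnitAddCircle} [IsProbabilityMeasure ρ] [IsProbabilityMeasure κ]
    (hl : Lim p q F ρ κ) {a : ℝ} (ha0 : 0 < a) (ha1 : a ≤ 1)
    (ha : ∀ W : Set UnitAddCircle, MeasurableSet W →
      a * (volume : Measure UnitAddCircle).real W ≤ κ.real W)
    {e : ℝ} (he : e ≤ a / 16) (R : ℕ) :
    ∀ᶠ t in atTop, ρ.real (near p q e R (F t)) < 1 - a / 8 := by
  classical
  have hvp : MeasurePreserving (fun x : UnitAddCircle => p • x)
      (volume : Measure UnitAddCircle) volume := mp_vol (by omega)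
  have hvq : MeasurePreserving (fun x : UnitAddCircle => q • x)
      (volume : Measure UnitAddCircle) volume := mp_vol (by omega)
  have herg : Ergodic (fun x : UnitAddCircle => p • x) (volume : Measure UnitAddCircle) :=
    AddCircle.ergodic_nsmul (by omega)
  have hJ : ∀ E, MeasurableSet E → (fun x : UnitAddCircle => p • x) ⁻¹' E = E →
      (fun x : UnitAddCircle => q • x) ⁻¹' E = E →
      (volume : Measure UnitAddCircle) E = 0 ∨ (volume : Measure UnitAddCircle) E = 1 :=
    fun E hE h1 _ => herg.toPreErgodic.prob_eq_zero_or_one hE h1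
  have hR : (0 : ℝ) < 32 * ((R : ℝ) + 1) := by positivity
  choose N hN0 hN using fun i : ℕ => Pool.Agent.Zk26.FS.box_mean hvp hvq hJ (phi i)
    (show (0 : ℝ) < 1 / (32 * ((R : ℝ) + 1)) by positivity)
  set B : ℕ → UnitAddCircle → ℝ := fun i => Pool.Agent.Zk26.FS.box p q (phi i) (N i) (0, 0) with hB
  have hBc : ∀ i, Continuous (B i) := fun i => Pool.Agent.Zk26.FS.box_cont p q (phi i) _ _
  set Hs : ℕ → Set UnitAddCircle := fun i =>
    if ∫ y, phi i y ≤ e then {y | 1 / 2 ≤ B i y} else ∅ with hHs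
  have hHsc : ∀ i, IsClosed (Hs i) := by
    intro i
    simp only [hHs]
    split_ifs
    · exact isClosed_le continuous_const (hBc i)
    · exact isClosed_empty
  set H : Set UnitAddCircle := ⋃ i ∈ Finset.range (R + 1), Hs i with hH
  have hHc : IsClosed H := (Finset.range (R + 1)).finite_toSet.isClosed_biUnion fun i _ => hHsc i
  have hHsv : ∀ i, (volume : Measure UnitAddCircle).real (Hs i) ≤ 1 / (8 * ((R : ℝ) + 1)) := by
    intro i
    simp only [hHs]
    split_ifs with h
    · have hi : Integrable (fun x => |B i x - ∫ y, phi i y|) (volume : Measure UnitAddCircle) :=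
        int_contX _ ⟨_, ((hBc i).sub continuous_const).abs⟩
      have h1 := mul_meas_ge_le_integral_of_nonneg (μ := (volume : Measure UnitAddCircle))
        (Eventually.of_forall fun x => abs_nonneg (B i x - ∫ y, phi i y)) hi (1 / 4)
      have h2 : (volume : Measure UnitAddCircle).real {y | 1 / 2 ≤ B i y} ≤
          (volume : Measure UnitAddCircle).real {x | 1 / 4 ≤ |B i x - ∫ y, phi i y|} := by
        refine measureReal_mono fun y (hy : 1 / 2 ≤ B i y) => ?_
        show 1 / 4 ≤ |B i y - ∫ y, phi i y|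
        refine le_trans ?_ (le_abs_self _)
        linarith
      have h3 := hN i (0, 0)
      have h4 : (1 : ℝ) / (8 * ((R : ℝ) + 1)) = 4 * (1 / (32 * ((R : ℝ) + 1))) := by
        field_simp
        norm_num
      rw [h4]
      linarith
    · rw [measureReal_empty]
      positivity
  have hHv : (volume : Measure UnitAddCircle).real H ≤ 1 / 8 := by
    calc (volume : Measure UnitAddCircle).real H
        ≤ ∑ i ∈ Finset.range (R + 1), (volume : Measure UnitAddCircle).real (Hs i) :=
          measureReal_biUnion_finset_le _ _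
      _ ≤ ∑ _i ∈ Finset.range (R + 1), 1 / (8 * ((R : ℝ) + 1)) :=
          Finset.sum_le_sum fun i _ => hHsv i
      _ = 1 / 8 := by
          rw [Finset.sum_const, Finset.card_range, nsmul_eq_mul]
          push_cast
          field_simp
  have hκH : κ.real H ≤ 1 - 7 * a / 8 := by
    have h1 := ha Hᶜ hHc.measurableSet.compl
    rw [probReal_compl_eq_one_sub hHc.measurableSet,
      probReal_compl_eq_one_sub hHc.measurableSet] at h1
    nlinarith
  obtain ⟨g, hg0, hg1, hgH, hgi⟩ := exists_cont_aboveX κ hHc (ε := a / 16) (by positivity)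
  -- the error
  set M : ℝ := ∑ i ∈ Finset.range (R + 1), (N i : ℝ) with hM
  have hNM : ∀ i, i ≤ R → (N i : ℝ) ≤ M := fun i hi =>
    Finset.single_le_sum (f := fun i => (N i : ℝ)) (fun j _ => Nat.cast_nonneg _)
      (Finset.mem_range.2 (by omega))
  set δ : ℕ → ℝ := fun t => 2 * M * ((((F t).filter fun n => (n.1 + 1, n.2) ∉ F t).card : ℝ) /
      (F t).card + (((F t).filter fun n => (n.1, n.2 + 1) ∉ F t).card : ℝ) / (F t).card) with hδ
  have hδ0 : Tendsto δ atTop (𝓝 0) := by
    have := (hF.2.1.add hF.2.2).const_mul (2 * M)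
    simpa using this
  have hM0 : 0 ≤ M := Finset.sum_nonneg fun i _ => Nat.cast_nonneg _
  have hphin : ∀ i, ‖phi i‖ ≤ 1 := fun i =>
    (ContinuousMap.norm_le _ zero_le_one).2 fun x => by
      rw [Real.norm_eq_abs, abs_of_nonneg (phi_nonneg i x)]
      exact phi_le_one i x
  have hev1 := (tendsto_order.1 (hl g)).2 (1 - 3 * a / 4) (by linarith)
  have hev2 := (tendsto_order.1 hδ0).2 (a / 32) (by positivity)
  filter_upwards [hev1, hev2] with t ht1 ht2
  by_contra hcon
  push Not at hcon
  have hcard : (0 : ℝ) < (F t).card := by exact_mod_cast (hF.1 t).card_pos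
  -- on the set the average of `g` is large
  have hbig : ∀ w ∈ near p q e R (F t), 1 - 2 * e - 2 * δ t ≤ ave p q (F t) g w := by
    rintro w ⟨i, hi, hie, hw⟩
    have h1 := Pool.Agent.Zk26.FS.ave_box p q (F t) (phi i) (hN0 i) w
    have h2 : 2 * ‖phi i‖ * (N i) * ((((F t).filter fun n => (n.1 + 1, n.2) ∉ F t).card : ℝ) /
        (F t).card + (((F t).filter fun n => (n.1, n.2 + 1) ∉ F t).card : ℝ) / (F t).card) ≤
        δ t := by
      simp only [hδ]
      have h3 := hphin i
      have h4 := hNM i hi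
      have h5 : ‖phi i‖ * (N i) ≤ 1 * M := mul_le_mul h3 h4 (Nat.cast_nonneg _) zero_le_one
      have h6 : 2 * ‖phi i‖ * (N i) ≤ 2 * M := by linarith
      exact mul_le_mul_of_nonneg_right h6 (by positivity)
    have h3 : 1 - e - δ t ≤ ((F t).card : ℝ)⁻¹ * ∑ n ∈ F t,
        Pool.Agent.Zk26.FS.box p q (phi i) (N i) n w := by
      have := (abs_le.1 (h1.trans h2)).1
      linarith
    have h4 : ∀ n ∈ F t, 2 * Pool.Agent.Zk26.FS.box p q (phi i) (N i) n w - 1 ≤
        g ((p ^ n.1 * q ^ n.2) • w) := by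
      intro n _
      rw [box_at]
      set y := (p ^ n.1 * q ^ n.2) • w with hy
      by_cases hby : 1 / 2 ≤ B i y
      · have hyH : y ∈ H := by
          refine mem_biUnion (Finset.mem_coe.2 (Finset.mem_range.2 (by omega : i < R + 1))) ?_
          simp only [hHs]
          rw [if_pos hie]
          exact hby
        rw [hgH y hyH]
        have := box_le_one p q (phi_le_one i) (hN0 i) (0, 0) y
        linarith
      · have h5 : B i y < 1 / 2 := not_le.1 hby
        have h6 := hg0 y
        change 2 * B i y - 1 ≤ g y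
        linarith
    have h5 : ((F t).card : ℝ)⁻¹ * ∑ n ∈ F t,
        (2 * Pool.Agent.Zk26.FS.box p q (phi i) (N i) n w - 1) ≤ ave p q (F t) g w := by
      unfold ave
      exact mul_le_mul_of_nonneg_left (Finset.sum_le_sum h4) (by positivity)
    rw [Finset.sum_sub_distrib, ← Finset.mul_sum, Finset.sum_const, nsmul_eq_mul, mul_one,
      mul_sub, inv_mul_cancel₀ hcard.ne', mul_left_comm] at h5
    linarith
  have hSm : MeasurableSet (near p q e R (F t)) := (near_closed p q e R (F t)).measurableSet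
  have hnn : ∀ w, 0 ≤ ave p q (F t) g w := fun w =>
    mul_nonneg (by positivity) (Finset.sum_nonneg fun n _ => hg0 _)
  have hint : Integrable (ave p q (F t) g) ρ := int_contX ρ ⟨_, aveX_cont g⟩
  have hlow : (1 - 2 * e - 2 * δ t) * ρ.real (near p q e R (F t)) ≤ ∫ w, ave p q (F t) g w ∂ρ := by
    calc (1 - 2 * e - 2 * δ t) * ρ.real (near p q e R (F t))
        = ∫ w, (near p q e R (F t)).indicator (fun _ => 1 - 2 * e - 2 * δ t) w ∂ρ := by
          rw [integral_indicator_const _ hSm, smul_eq_mul, mul_comm]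
      _ ≤ ∫ w, ave p q (F t) g w ∂ρ := by
          refine integral_mono ((integrable_const _).indicator hSm) hint fun w => ?_
          by_cases hw : w ∈ near p q e R (F t)
          · rw [indicator_of_mem hw]
            exact hbig w hw
          · rw [indicator_of_notMem hw]
            exact hnn w
  have hc0 : 0 ≤ 1 - 2 * e - 2 * δ t := by linarith
  have h1 : (1 - 2 * e - 2 * δ t) * (1 - a / 8) ≤
      (1 - 2 * e - 2 * δ t) * ρ.real (near p q e R (F t)) := mul_le_mul_of_nonneg_left hcon hc0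
  have h2 : 1 - 5 * a / 16 ≤ (1 - 2 * e - 2 * δ t) * (1 - a / 8) := by
    have h3 : 1 - 3 * a / 16 ≤ 1 - 2 * e - 2 * δ t := by linarith
    have h4 : (1 - 3 * a / 16) * (1 - a / 8) ≤ (1 - 2 * e - 2 * δ t) * (1 - a / 8) :=
      mul_le_mul_of_nonneg_right h3 (by linarith)
    nlinarith
  linarith

end Pool.Agent.Zk32
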