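import Mathlib
import Pool.Agent.Zk32.Tv3
import Pool.Agent.Zk98.Tv5
import Pool.Agent.Zk32.Tl5

/-!
A tempered Folner sequence along which almost no point of given thick laws has only singular limits
-/

set_option autoImplicit false

open MeasureTheory Filter Topology Set
open scoped ENNReal

namespace Pool.Agent.Zk32

/-- the finite sets which are allowed at step `m`, if the earlier ones lie in `[0, D] ^ 2` -/
def Allowed (m D : ℕ) (G : Finset (ℕ × ℕ)) : Prop :=
  G.Nonempty ∧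
  (((G.filter fun n => (n.1 + 1, n.2) ∉ G).card : ℝ) / G.card ≤ 1 / ((m : ℝ) + 1)) ∧
  (((G.filter fun n => (n.1, n.2 + 1) ∉ G).card : ℝ) / G.card ≤ 1 / ((m : ℝ) + 1)) ∧
  ∃ Gd : Finset (ℤ × ℤ), (Gd.card : ℝ) ≤ 2 * G.card ∧
    ∀ a ∈ G, ∀ b : ℕ × ℕ, b.1 ≤ D → b.2 ≤ D → ((a.1 : ℤ) - b.1, (a.2 : ℤ) - b.2) ∈ Gd

lemma allowed_of_folner {F : ℕ → Finset (ℕ × ℕ)} (hF : Folner F) (m D : ℕ) :
    ∀ᶠ t in atTop, Allowed m D (F t) := by
  have hm : (0 : ℝ) < 1 / ((m : ℝ) + 1) := by positivity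
  have hD : (0 : ℝ) < 1 / (2 * ((D : ℝ) + 1) ^ 2) := by positivity
  filter_upwards [(tendsto_order.1 hF.2.1).2 _ hm, (tendsto_order.1 hF.2.2).2 _ hm,
    (tendsto_order.1 hF.2.1).2 _ hD, (tendsto_order.1 hF.2.2).2 _ hD] with t h1 h2 h3 h4
  refine ⟨hF.1 t, h1.le, h2.le, ?_⟩
  obtain ⟨Gd, hc, hG⟩ := temper_diff (F t) D
  have hcard : (0 : ℝ) < (F t).card := by exact_mod_cast (hF.1 t).card_pos
  refine ⟨Gd, hc.trans ?_, hG⟩
  rw [div_lt_iff₀ hcard] at h3 h4
  have hD2 : (0 : ℝ) < ((D : ℝ) + 1) ^ 2 := by positivity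
  have h5 : ((D : ℝ) + 1) ^ 2 * (((((F t).filter fun n => (n.1 + 1, n.2) ∉ F t).card : ℕ) : ℝ) +
      ((((F t).filter fun n => (n.1, n.2 + 1) ∉ F t).card : ℕ) : ℝ)) ≤
      ((D : ℝ) + 1) ^ 2 * (1 / (2 * ((D : ℝ) + 1) ^ 2) * (F t).card +
        1 / (2 * ((D : ℝ) + 1) ^ 2) * (F t).card) := by gcongr
  have h6 : ((D : ℝ) + 1) ^ 2 * (1 / (2 * ((D : ℝ) + 1) ^ 2) * ((F t).card : ℝ) +
        1 / (2 * ((D : ℝ) + 1) ^ 2) * (F t).card) = (F t).card := by
    field_simp
    norm_num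
  linarith

/-- a nearly optimal allowed set -/
lemma exists_nearG {A : Finset (ℕ × ℕ) → Prop} (hA : ∃ G, A G) (v : Finset (ℕ × ℕ) → ℝ)
    (hv : ∀ G, 0 ≤ v G) {ε : ℝ} (hε : 0 < ε) : ∃ G, A G ∧ ∀ G', A G' → v G ≤ v G' + ε := by
  obtain ⟨G₀, hG₀⟩ := hA
  have : Nonempty {G // A G} := ⟨⟨G₀, hG₀⟩⟩
  have hb : BddBelow (range fun G : {G // A G} => v G.1) := ⟨0, by
    rintro _ ⟨G, rfl⟩
    exact hv G.1⟩
  obtain ⟨G, hG⟩ := exists_lt_of_ciInf_lt
    (lt_add_of_pos_right (⨅ G : {G // A G}, v G.1) hε)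
  exact ⟨G.1, G.2, fun G' hG' => hG.le.trans (by linarith [ciInf_le hb ⟨G', hG'⟩])⟩

/-- the state of the construction: a bound for the earlier sets, and the sets of the points which
are nearly singular for all the earlier sets -/
def St : Type := ℕ × (ℕ × ℕ → Set UnitAddCircle)

/-- the construction -/
noncomputable def runS (p q : ℕ) (bd : Finset (ℕ × ℕ) → ℕ)
    (f : ℕ → ℕ → (ℕ × ℕ → Set UnitAddCircle) → Finset (ℕ × ℕ)) :
    ℕ → ℕ × (ℕ × ℕ → Set UnitAddCircle)
  | 0 => (0, fun _ => univ)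
  | J + 1 =>
    (max (runS p q bd f J).1 (bd (f J (runS p q bd f J).1 (runS p q bd f J).2)),
      fun k => (runS p q bd f J).2 k ∩ {w | k.2 ≤ J → w ∈ near p q ((1 / 2 : ℝ) ^ k.1) k.2
        (f J (runS p q bd f J).1 (runS p q bd f J).2)})

lemma near_mono {p q : ℕ} {e : ℝ} {R R' : ℕ} (h : R ≤ R') (E : Finset (ℕ × ℕ)) :
    near p q e R E ⊆ near p q e R' E := by
  rintro w ⟨i, hi, h1⟩
  exact ⟨i, hi.trans h, h1⟩

/-- **A tempered Folner sequence for thick laws.** -/
theorem exists_thickF {p q : ℕ} (hp : 2 ≤ p) (hq : 1 ≤ q) {ω : ℕ → Measure UnitAddCircle}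
    (hω : ∀ l, IsProbabilityMeasure (ω l)) (hth : ∀ l, Thick p q (ω l)) :
    ∃ F : ℕ → Finset (ℕ × ℕ), Folner F ∧ Temper 2 F ∧ ∀ l, ω l (Det p q F) = 0 := by
  classical
  -- some Folner sequence
  obtain ⟨F₀, hF₀, -⟩ := hth 0 univ MeasurableSet.univ (by
    have := hω 0
    rw [measure_univ]
    exact one_ne_zero)
  have hbd : ∀ E : Finset (ℕ × ℕ), ∃ B : ℕ, ∀ b ∈ E, b.1 ≤ B ∧ b.2 ≤ B := by
    intro E
    refine ⟨E.sup fun b => max b.1 b.2, fun b hb => ?_⟩
    have h1 := Finset.le_sup (f := fun b : ℕ × ℕ => max b.1 b.2) hb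
    exact ⟨(le_max_left _ _).trans h1, (le_max_right _ _).trans h1⟩
  choose bd hbd using hbd
  -- the triple which is handled at step `J`
  set hl : ℕ → ℕ := fun J => (Nat.unpair (Nat.unpair J).1).1 with hhl
  set hk : ℕ → ℕ × ℕ := fun J => Nat.unpair (Nat.unpair (Nat.unpair J).1).2 with hhk
  have hch : ∀ (J D : ℕ) (σ : ℕ × ℕ → Set UnitAddCircle), ∃ G, Allowed J D G ∧
      ∀ G', Allowed J D G' →
        (ω (hl J)).real (σ (hk J) ∩ near p q ((1 / 2 : ℝ) ^ (hk J).1) (hk J).2 G) ≤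
        (ω (hl J)).real (σ (hk J) ∩ near p q ((1 / 2 : ℝ) ^ (hk J).1) (hk J).2 G') +
          (1 / 2 : ℝ) ^ J := by
    intro J D σ
    refine exists_nearG (A := Allowed J D)
      (by obtain ⟨t, ht⟩ := (allowed_of_folner hF₀ J D).exists; exact ⟨_, ht⟩)
      (fun G => (ω (hl J)).real (σ (hk J) ∩ near p q ((1 / 2 : ℝ) ^ (hk J).1) (hk J).2 G))
      (fun G => measureReal_nonneg) (by positivity)
  choose f hfA hfm using hch
  set s := runS p q bd f with hs
  set F : ℕ → Finset (ℕ × ℕ) := fun J => f J (s J).1 (s J).2 with hFd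
  have hs1 : ∀ J, (s (J + 1)).1 = max (s J).1 (bd (F J)) := fun J => rfl
  have hs2 : ∀ J k, (s (J + 1)).2 k = (s J).2 k ∩ {w | k.2 ≤ J →
      w ∈ near p q ((1 / 2 : ℝ) ^ k.1) k.2 (F J)} := fun J k => rfl
  have hA : ∀ J, Allowed J (s J).1 (F J) := fun J => hfA J _ _
  have h1m : Tendsto (fun m : ℕ => 1 / ((m : ℝ) + 1)) atTop (𝓝 0) :=
    tendsto_one_div_add_atTop_nhds_zero_nat
  have hF : Folner F := ⟨fun J => (hA J).1,
    squeeze_zero (fun m => by positivity) (fun m => (hA m).2.1) h1m,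
    squeeze_zero (fun m => by positivity) (fun m => (hA m).2.2.1) h1m⟩
  have hmono : Monotone fun J => (s J).1 := monotone_nat_of_le_succ fun J => by
    show (s J).1 ≤ (s (J + 1)).1
    rw [hs1]
    exact le_max_left _ _
  have hT : Temper 2 F := by
    intro n
    obtain ⟨Gd, hc, h2⟩ := (hA n).2.2.2
    refine ⟨Gd, hc, fun k hk a ha b hb => ?_⟩
    have h3 := hbd (F k) b hb
    have h4 : bd (F k) ≤ (s n).1 := by
      refine le_trans ?_ (hmono (Nat.succ_le_of_lt hk))
      show bd (F k) ≤ (s (k + 1)).1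
      rw [hs1]
      exact le_max_right _ _
    exact h2 a ha b (h3.1.trans h4) (h3.2.trans h4)
  refine ⟨F, hF, hT, fun l => ?_⟩
  -- the sets of the state
  have hmem : ∀ J k w, (w ∈ (s J).2 k ↔ ∀ n, k.2 ≤ n → n < J →
      w ∈ near p q ((1 / 2 : ℝ) ^ k.1) k.2 (F n)) := by
    intro J k w
    induction J with
    | zero => exact ⟨fun _ n _ hn => absurd hn (Nat.not_lt_zero n), fun _ => mem_univ w⟩
    | succ J ih =>
      rw [hs2]
      constructor
      · rintro ⟨h1, h2⟩ n hn1 hn2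
        rcases Nat.lt_succ_iff_lt_or_eq.1 hn2 with h3 | rfl
        · exact ih.1 h1 n hn1 h3
        · exact h2 hn1
      · intro h
        exact ⟨ih.2 fun n hn1 hn2 => h n hn1 (by omega), fun hJ => h J hJ (Nat.lt_succ_self J)⟩
  have hmeas : ∀ J k, MeasurableSet ((s J).2 k) := by
    intro J k
    induction J with
    | zero => exact MeasurableSet.univ
    | succ J ih =>
      rw [hs2]
      refine ih.inter ?_
      by_cases h : k.2 ≤ J
      · simp only [h, true_imp_iff]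
        exact (near_closed _ _ _ _ _).measurableSet
      · simp only [h, false_imp_iff]
        exact MeasurableSet.univ
  have hanti : ∀ k, Antitone fun J => (s J).2 k := fun k =>
    antitone_nat_of_succ_le fun J => by
      rw [hs2]
      exact inter_subset_left
  have hDm : MeasurableSet (Det p q F) := det_meas hF.1
  have hωl := hω l
  by_contra hne
  obtain ⟨F', hF', κ, hκ, hlim, hns⟩ := hth l (Det p q F) hDm hne
  have hρp : IsProbabilityMeasure (ProbabilityTheory.cond (ω l) (Det p q F)) :=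
    ProbabilityTheory.cond_isProbabilityMeasure hne
  set ρ := ProbabilityTheory.cond (ω l) (Det p q F) with hρ
  have hinv := lim_inv (p := p) (q := q) hF' (𝒰 := atTop) le_rfl (σ := ρ) (σ' := κ) hlim
  obtain ⟨a', ha'0, ha'⟩ := vol_part hp hinv.1 hns
  have ha'1 : a' ≤ 1 := by
    have := ha' univ
    simpa using this
  have hat : a' ≠ ∞ := ne_top_of_le_ne_top ENNReal.one_ne_top ha'1
  set a : ℝ := a'.toReal with ha
  have ha0 : 0 < a := ENNReal.toReal_pos ha'0 hat
  have ha1 : a ≤ 1 := by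
    have := ENNReal.toReal_mono ENNReal.one_ne_top ha'1
    simpa using this
  have haW : ∀ W : Set UnitAddCircle, MeasurableSet W →
      a * (volume : Measure UnitAddCircle).real W ≤ κ.real W := by
    intro W _
    have h3 := ENNReal.toReal_mono (measure_ne_top κ _) (ha' W)
    rw [Measure.smul_apply, smul_eq_mul, ENNReal.toReal_mul] at h3
    exact h3
  obtain ⟨k, hk16⟩ : ∃ k : ℕ, (1 / 2 : ℝ) ^ k < a / 16 :=
    exists_pow_lt_of_lt_one (by positivity) (by norm_num)
  -- the limit sets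
  set E : ℕ → Set UnitAddCircle := fun R => ⋂ J : ℕ, (s J).2 (k, R) with hE
  have hEm : ∀ R, MeasurableSet (E R) := fun R => MeasurableSet.iInter fun J => hmeas J _
  have hEmem : ∀ R w, w ∈ E R ↔ ∀ n, R ≤ n → w ∈ near p q ((1 / 2 : ℝ) ^ k) R (F n) := by
    intro R w
    rw [hE, mem_iInter]
    constructor
    · intro h n hn
      exact (hmem (n + 1) (k, R) w).1 (h (n + 1)) n hn (Nat.lt_succ_self n)
    · intro h J
      exact (hmem J (k, R) w).2 fun n hn _ => h n hn
  have hEmono : Monotone E := by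
    intro R R' hRR w hw
    rw [hEmem] at hw ⊢
    exact fun n hn => near_mono hRR _ (hw n (hRR.trans hn))
  have hDE : Det p q F ⊆ ⋃ R, E R := by
    intro w hw
    obtain ⟨R, hR⟩ := (det_iff hF.1 w).1 hw k
    refine mem_iUnion.2 ⟨R, (hEmem R w).2 fun n hn => ?_⟩
    obtain ⟨i, hi, h2⟩ := hR n hn
    exact ⟨i, hi, h2⟩
  have hρD : ρ (⋃ R, E R) = 1 := by
    refine le_antisymm prob_le_one ?_
    have h1 : ρ (Det p q F) = 1 := ProbabilityTheory.cond_apply_self hne (measure_ne_top _ _)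
    rw [← h1]
    exact measure_mono hDE
  obtain ⟨R, hR⟩ : ∃ R, 1 - a / 16 < ρ.real (E R) := by
    have h1 : Tendsto (fun R => ρ (E R)) atTop (𝓝 (ρ (⋃ R, E R))) :=
      tendsto_measure_iUnion_atTop hEmono
    rw [hρD] at h1
    have h2 := (ENNReal.tendsto_toReal ENNReal.one_ne_top).comp h1
    rw [ENNReal.toReal_one] at h2
    exact ((tendsto_order.1 h2).1 (1 - a / 16) (by linarith)).exists
  set d : ℝ := (ω l).real (Det p q F) with hd
  have hd0 : 0 < d := ENNReal.toReal_pos hne (measure_ne_top _ _)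
  -- the steps which handle the triple
  set φ : ℕ → ℕ := fun j => Nat.pair (Nat.pair l (Nat.pair k R)) j with hφ
  have hφt : Tendsto φ atTop atTop :=
    tendsto_atTop_mono (fun j => Nat.right_le_pair _ j) tendsto_id
  have hlφ : ∀ j, hl (φ j) = l := fun j => by simp only [hhl, hφ, Nat.unpair_pair]
  have hkφ : ∀ j, hk (φ j) = (k, R) := fun j => by simp only [hhk, hφ, Nat.unpair_pair]
  have hstep : ∀ j, R ≤ φ j → d * (a / 16) ≤
      ((ω l).real ((s (φ j)).2 (k, R)) - (ω l).real (E R)) + (1 / 2 : ℝ) ^ (φ j) := by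
    intro j hj
    set J := φ j with hJ
    obtain ⟨t, ht1, ht2⟩ := ((allowed_of_folner hF' J (s J).1).and
      (key_move hp hq hF' hlim ha0 ha1 haW hk16.le R)).exists
    have h1 := hfm J (s J).1 (s J).2 (F' t) ht1
    rw [hlφ j, hkφ j] at h1
    have hnm : MeasurableSet (near p q ((1 / 2 : ℝ) ^ k) R (F' t)) :=
      (near_closed _ _ _ _ _).measurableSet
    -- the near optimal set
    have h2 : (ω l).real (E R) ≤
        (ω l).real ((s J).2 (k, R) ∩ near p q ((1 / 2 : ℝ) ^ k) R (F J)) := by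
      refine measureReal_mono fun w hw => ?_
      have hw1 : w ∈ (s (J + 1)).2 (k, R) := mem_iInter.1 hw (J + 1)
      rw [hs2] at hw1
      exact ⟨hw1.1, hw1.2 hj⟩
    have hEs : E R ⊆ (s J).2 (k, R) := iInter_subset _ J
    have h3 : (ω l).real ((s J).2 (k, R) ∩ near p q ((1 / 2 : ℝ) ^ k) R (F' t)) ≤
        (ω l).real (E R ∩ near p q ((1 / 2 : ℝ) ^ k) R (F' t)) +
          ((ω l).real ((s J).2 (k, R)) - (ω l).real (E R)) := by
      rw [← measureReal_sdiff hEs (hEm R)]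
      refine (measureReal_mono ?_).trans (measureReal_union_le _ _)
      intro x hx
      by_cases h : x ∈ E R
      · exact Or.inl ⟨h, hx.2⟩
      · exact Or.inr ⟨hx.1, h⟩
    -- the mass which is moved
    have h4 : d * (a / 16) ≤ (ω l).real (E R \ near p q ((1 / 2 : ℝ) ^ k) R (F' t)) := by
      have h5 : ρ.real (E R \ near p q ((1 / 2 : ℝ) ^ k) R (F' t)) =
          d⁻¹ * (ω l).real (Det p q F ∩ (E R \ near p q ((1 / 2 : ℝ) ^ k) R (F' t))) := by
        rw [hρ, measureReal_def, ProbabilityTheory.cond_apply hDm, ENNReal.toReal_mul,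
          ENNReal.toReal_inv]
        rfl
      have h6 : a / 16 ≤ ρ.real (E R \ near p q ((1 / 2 : ℝ) ^ k) R (F' t)) := by
        have h7 : ρ.real (E R) ≤ ρ.real (E R \ near p q ((1 / 2 : ℝ) ^ k) R (F' t)) +
            ρ.real (near p q ((1 / 2 : ℝ) ^ k) R (F' t)) := by
          refine (measureReal_mono ?_).trans (measureReal_union_le _ _)
          intro x hx
          by_cases h : x ∈ near p q ((1 / 2 : ℝ) ^ k) R (F' t)
          · exact Or.inr h
          · exact Or.inl ⟨hx, h⟩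
        linarith
      rw [h5] at h6
      have h8 : (ω l).real (Det p q F ∩ (E R \ near p q ((1 / 2 : ℝ) ^ k) R (F' t))) ≤
          (ω l).real (E R \ near p q ((1 / 2 : ℝ) ^ k) R (F' t)) :=
        measureReal_mono inter_subset_right
      have h9 : d * (a / 16) ≤
          (ω l).real (Det p q F ∩ (E R \ near p q ((1 / 2 : ℝ) ^ k) R (F' t))) := by
        have := mul_le_mul_of_nonneg_left h6 hd0.le
        rwa [mul_inv_cancel_left₀ hd0.ne'] at this
      exact h9.trans h8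
    have h5 : (ω l).real (E R ∩ near p q ((1 / 2 : ℝ) ^ k) R (F' t)) +
        (ω l).real (E R \ near p q ((1 / 2 : ℝ) ^ k) R (F' t)) = (ω l).real (E R) :=
      measureReal_inter_add_sdiff hnm
    have h1' : (ω l).real ((s J).2 (k, R) ∩ near p q ((1 / 2 : ℝ) ^ k) R (F J)) ≤
        (ω l).real ((s J).2 (k, R) ∩ near p q ((1 / 2 : ℝ) ^ k) R (F' t)) + (1 / 2 : ℝ) ^ J := h1
    linarith
  have hlimE : Tendsto (fun J => (ω l).real ((s J).2 (k, R))) atTop (𝓝 ((ω l).real (E R))) := by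
    have h1 : Tendsto (fun J => (ω l) ((s J).2 (k, R))) atTop (𝓝 ((ω l) (E R))) :=
      tendsto_measure_iInter_atTop (fun J => (hmeas J _).nullMeasurableSet) (hanti _)
        ⟨0, measure_ne_top _ _⟩
    exact (ENNReal.tendsto_toReal (measure_ne_top _ _)).comp h1
  have hRlim : Tendsto (fun j => ((ω l).real ((s (φ j)).2 (k, R)) - (ω l).real (E R)) +
      (1 / 2 : ℝ) ^ (φ j)) atTop (𝓝 (((ω l).real (E R) - (ω l).real (E R)) + 0)) := by
    refine ((hlimE.comp hφt).sub_const _).add ?_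
    exact (tendsto_pow_atTop_nhds_zero_of_lt_one (by norm_num) (by norm_num)).comp hφt
  have hfin := ge_of_tendsto hRlim ((hφt.eventually_ge_atTop R).mono hstep)
  have : 0 < d * (a / 16) := by positivity
  linarith

end Pool.Agent.Zk32
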