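import Mathlib
import Pool.Agent.Zk32.Tv4
import Pool.Agent.Zk32.Tu8
import Pool.Agent.Zk63.Tu.Tv1
import Pool.Agent.Zk85.Tv2

/-!
The universal rational subspace which avoids countably many thick laws
-/

set_option autoImplicit false

open MeasureTheory Filter Topology Set
open scoped ENNReal
open Pool.Agent.Zk24.SL (lin_one)

namespace Pool.Agent.Zk32

lemma ave_nsmul {p q : ℕ} (F : Finset (ℕ × ℕ)) (g : C(UnitAddCircle, ℝ)) (n : ℕ)
    (x : UnitAddCircle) :
    ave p q F g (n • x) = ave p q F (g.comp (mulX n) : C(UnitAddCircle, ℝ)) x := by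
  unfold ave
  congr 1
  refine Finset.sum_congr rfl fun m _ => ?_
  show g ((p ^ m.1 * q ^ m.2) • n • x) = g (n • (p ^ m.1 * q ^ m.2) • x)
  rw [smul_smul, smul_smul, mul_comm n]

/-- multiples of thick laws are thick -/
lemma Thick.map {p q : ℕ} (hp : 2 ≤ p) {ω : Measure UnitAddCircle} [IsProbabilityMeasure ω]
    (h : Thick p q ω) {n : ℕ} (hn : n ≠ 0) : Thick p q (ω.map fun x => n • x) := by
  intro B hB hB0
  have hm : Measurable (fun x : UnitAddCircle => n • x) := nsmul_measX n
  have hA : MeasurableSet ((fun x : UnitAddCircle => n • x) ⁻¹' B) := hm hB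
  have hA0 : ω ((fun x : UnitAddCircle => n • x) ⁻¹' B) ≠ 0 := by
    rwa [Measure.map_apply hm hB] at hB0
  obtain ⟨F, hF, κ, hκ, hl, hns⟩ := h _ hA hA0
  set ρ := ProbabilityTheory.cond ω ((fun x : UnitAddCircle => n • x) ⁻¹' B) with hρ
  have hρp : IsProbabilityMeasure ρ := ProbabilityTheory.cond_isProbabilityMeasure hA0
  have hinv := lim_inv (p := p) (q := q) hF (𝒰 := atTop) le_rfl (σ := ρ) (σ' := κ) hl
  obtain ⟨a, ha0, ha⟩ := vol_part hp hinv.1 hns
  have hc : ProbabilityTheory.cond (ω.map fun x => n • x) B = ρ.map fun x => n • x := by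
    rw [hρ]
    unfold ProbabilityTheory.cond
    rw [Measure.map_smul, Measure.restrict_map hm hB, Measure.map_apply hm hB]
  refine ⟨F, hF, κ.map fun x => n • x, Measure.isProbabilityMeasure_map hm.aemeasurable, ?_, ?_⟩
  · intro g
    have h1 := hl (g.comp (mulX n))
    have h2 : ∫ y, g y ∂(κ.map fun x => n • x) = ∫ y, (g.comp (mulX n)) y ∂κ := by
      rw [integral_map hm.aemeasurable g.continuous.aestronglyMeasurable]
      rfl
    rw [h2]
    refine h1.congr fun k => ?_
    have h3 : AEStronglyMeasurable (fun x => ave p q (F k) g x) (ρ.map fun x => n • x) :=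
      (aveX_cont (p := p) (q := q) (F := F k) g).aestronglyMeasurable
    rw [hc, integral_map hm.aemeasurable h3]
    refine integral_congr_ae (Eventually.of_forall fun x => ?_)
    exact (ave_nsmul (F k) g n x).symm
  · intro hs
    have hv : a • (volume : Measure UnitAddCircle) ≤ κ.map fun x => n • x := by
      have h1 : (a • (volume : Measure UnitAddCircle)).map (fun x => n • x) ≤
          κ.map fun x => n • x := Measure.map_mono ha hm
      rwa [Measure.map_smul, (mp_vol hn).map_eq] at h1
    obtain ⟨S, hS, h1, h2⟩ := hs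
    have h3 : a * (volume : Measure UnitAddCircle) S = 0 := by
      refine le_antisymm ?_ zero_le
      rw [← h1]
      exact hv S
    have h4 : (volume : Measure UnitAddCircle) S = 0 := by
      rcases mul_eq_zero.1 h3 with h | h
      · exact absurd h ha0
      · exact h
    have h5 : (volume : Measure UnitAddCircle) univ = 0 := by
      refine le_antisymm ?_ zero_le
      calc (volume : Measure UnitAddCircle) univ ≤ volume S + volume Sᶜ := by
            rw [← union_compl_self S]
            exact measure_union_le _ _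
        _ = 0 := by rw [h4, h2, add_zero]
    simp at h5

/-- **The universal rational subspace avoids countably many thick laws.** One Borel rational
subspace carries every singular invariant measure, it contains no irrational number of a given
countable field, and it has measure zero for the given thick laws. -/
theorem exists_univT {p q : ℕ} (hp : 2 ≤ p) (hq : 2 ≤ q) (hpq : Nat.Coprime p q)
    {K : Subfield ℝ} (hK : (K : Set ℝ).Countable)
    {ω : ℕ → Measure UnitAddCircle} (hω : ∀ l, IsProbabilityMeasure (ω l))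
    (hth : ∀ l, Thick p q (ω l)) :
    ∃ L : Submodule ℚ ℝ, MeasurableSet (L : Set ℝ) ∧ (1 : ℝ) ∈ L ∧
      (∀ x ∈ L, x ∈ K → ∃ a : ℚ, x = a) ∧ (∀ l, ω l (cir L) = 0) ∧
      ∀ ν : Measure UnitAddCircle, IsProbabilityMeasure ν →
        MeasurePreserving (fun x : UnitAddCircle => p • x) ν ν →
        MeasurePreserving (fun x : UnitAddCircle => q • x) ν ν →
        ν ⟂ₘ (volume : Measure UnitAddCircle) →
        ∀ᵐ x ∂ν, ∀ X : ℝ, (X : UnitAddCircle) = x → X ∈ L := by
  obtain ⟨L₁, hL₁m, hL₁1, hL₁K, hL₁⟩ := exists_univ hp hq hpq hK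
  -- the multiples of the laws
  set η : ℕ → Measure UnitAddCircle := fun m =>
    (ω (Nat.unpair m).1).map fun x => ((Nat.unpair m).2 + 1) • x with hη
  have hηp : ∀ m, IsProbabilityMeasure (η m) := fun m => by
    have := hω (Nat.unpair m).1
    exact Measure.isProbabilityMeasure_map (nsmul_measX _).aemeasurable
  have hηt : ∀ m, Thick p q (η m) := fun m => by
    have := hω (Nat.unpair m).1
    exact (hth _).map hp (Nat.succ_ne_zero _)
  obtain ⟨F, hF, hT, h0⟩ := exists_thickF hp (by omega) hηp hηt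
  obtain ⟨H, hH⟩ := Pool.Agent.Zk24.SL.det_group hp hq hpq hF
  have hHm : MeasurableSet (H : Set UnitAddCircle) := by
    rw [hH]
    exact det_meas hF.1
  refine ⟨Pool.Agent.Zk24.SL.lin H ⊓ L₁, (linH_meas hHm).inter hL₁m, ⟨lin_one H, hL₁1⟩,
    fun x hx hxK => hL₁K x hx.2 hxK, fun l => ?_, fun ν hν hνp hνq hsing => ?_⟩
  · have h1 : cir (Pool.Agent.Zk24.SL.lin H ⊓ L₁) ⊆ ⋃ n : ℕ, {w | (n + 1) • w ∈ Det p q F} := by
      rintro w ⟨T, rfl, hT1, -⟩
      obtain ⟨n, hn, hx⟩ := hT1
      obtain ⟨m, rfl⟩ := Nat.exists_eq_succ_of_ne_zero hn.ne'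
      refine mem_iUnion.2 ⟨m, ?_⟩
      show (m + 1) • (T : UnitAddCircle) ∈ Det p q F
      rw [← hH]
      have e : (m + 1) • (T : UnitAddCircle) = (((((m + 1 : ℕ) : ℝ) * T : ℝ)) : UnitAddCircle) := by
        rw [← AddCircle.coe_nsmul, nsmul_eq_mul]
      rw [e]
      exact hx
    refine measure_mono_null h1 (measure_iUnion_null fun n => ?_)
    have h2 := h0 (Nat.pair l n)
    simp only [hη, Nat.unpair_pair] at h2
    rwa [Measure.map_apply (nsmul_measX _) (det_meas hF.1)] at h2
  · have h1 : ∀ᵐ x ∂ν, x ∈ Det p q F := by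
      refine det_ae hF.1 hνp hνq hsing fun g => ?_
      exact Pool.Agent.Zk85.Tu.ae_convB hνp hνq hF (C := 8 * 2) (by norm_num)
        (fun f hf hf0 hf1 l hl hl1 => Pool.Agent.Zk63.Tu.maximalB hνp hνq hF.1 (by norm_num) hT
          hf hf0 hf1 hl hl1) g
    filter_upwards [h1, hL₁ ν hν hνp hνq hsing] with x hx hx1 X hX
    refine ⟨⟨1, one_pos, ?_⟩, hx1 X hX⟩
    rw [Nat.cast_one, one_mul, hX]
    have h2 : x ∈ (H : Set UnitAddCircle) := by rw [hH]; exact hx
    exact h2

end Pool.Agent.Zk32
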