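import Mathlib
import Pool.Agent.Zk32.Gp0

/-!
Rajchman measures
-/

set_option autoImplicit false

open MeasureTheory Filter Topology Set

namespace Pool.Agent.Zk32

/-- Rajchman measures: the Fourier coefficients tend to zero -/
def Raj (ω : Measure UnitAddCircle) : Prop :=
  Tendsto (fun n : ℤ => ∫ x : UnitAddCircle, (fourier n x : ℂ) ∂ω) cofinite (𝓝 0)

end Pool.Agent.Zk32
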