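import Mathlib
import Pool.Agent.Zk32.Tv6
import Pool.Agent.Zk32.Tw0

/-!
Solid laws: no limit along a Folner sequence of the images of the law, given an event, is singular
to Lebesgue measure.  One universal rational subspace has measure zero for all the solid laws.
-/

set_option autoImplicit false

open MeasureTheory Filter Topology Set
open scoped ENNReal
open Pool.Agent.Zk24.SL (lin_one)

namespace Pool.Agent.Zk32

/-- conditionally on any event, no Folner limit is singular to Lebesgue measure -/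
def Solid (p q : ℕ) (ω : Measure UnitAddCircle) : Prop :=
  ∀ B : Set UnitAddCircle, MeasurableSet B → ω B ≠ 0 →
    ∀ F : ℕ → Finset (ℕ × ℕ), Folner F → ∀ κ : Measure UnitAddCircle, IsProbabilityMeasure κ →
      Lim p q F (ProbabilityTheory.cond ω B) κ → ¬ κ ⟂ₘ (volume : Measure UnitAddCircle)

/-- a subsequence converges -/
lemma subseq_lim {p q : ℕ} {F : ℕ → Finset (ℕ × ℕ)} (hF : Folner F) (ρ : Measure UnitAddCircle)
    [IsProbabilityMeasure ρ] : ∃ ψ : ℕ → ℕ, StrictMono ψ ∧ ∃ κ : Measure UnitAddCircle,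
      IsProbabilityMeasure κ ∧ Lim p q (F ∘ ψ) ρ κ := by
  choose τ hτ using fun k => aveX_exists (p := p) (q := q) (hF.1 k)
    (⟨ρ, inferInstance⟩ : ProbabilityMeasure UnitAddCircle)
  obtain ⟨κ', -, hκ'⟩ := (isCompact_univ (X := ProbabilityMeasure UnitAddCircle)).ultrafilter_le_nhds
      ((Filter.hyperfilter ℕ).map τ) (by simp)
  have h1 : Tendsto τ ((Filter.hyperfilter ℕ : Ultrafilter ℕ) : Filter ℕ) (𝓝 κ') := hκ'
  have h3 : MapClusterPt κ' atTop τ := by
    have h4 : MapClusterPt κ' ((Filter.hyperfilter ℕ : Ultrafilter ℕ) : Filter ℕ) τ :=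
      h1.mapClusterPt
    exact h4.mono hyper_le
  obtain ⟨ψ, hψ, hψl⟩ := MapClusterPt.tendsto_subseq h3
  refine ⟨ψ, hψ, κ', inferInstance, fun g => ?_⟩
  have h4 := (ProbabilityMeasure.tendsto_iff_forall_integral_tendsto.mp hψl)
    (BoundedContinuousFunction.mkOfCompact g)
  refine h4.congr fun k => ?_
  exact hτ (ψ k) g

/-- limits are unique -/
lemma lim_unique {p q : ℕ} {F : ℕ → Finset (ℕ × ℕ)} {ρ κ κ' : Measure UnitAddCircle}
    [IsProbabilityMeasure κ] [IsProbabilityMeasure κ'] (h : Lim p q F ρ κ) (h' : Lim p q F ρ κ') :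
    κ = κ' := by
  refine ext_of_forall_integral_eq_of_IsFiniteMeasure fun f => ?_
  exact tendsto_nhds_unique (h f.toContinuousMap) (h' f.toContinuousMap)

/-- the limits of the laws of the multiples -/
lemma Lim.map {p q : ℕ} {F : ℕ → Finset (ℕ × ℕ)} {ρ κ : Measure UnitAddCircle}
    (h : Lim p q F ρ κ) (n : ℕ) :
    Lim p q F (ρ.map fun x => n • x) (κ.map fun x => n • x) := by
  have hm : Measurable (fun x : UnitAddCircle => n • x) := nsmul_measX n
  intro g
  have h1 := h (g.comp (mulX n))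
  have h2 : ∫ y, g y ∂(κ.map fun x => n • x) = ∫ y, (g.comp (mulX n)) y ∂κ := by
    rw [integral_map hm.aemeasurable g.continuous.aestronglyMeasurable]
    rfl
  rw [h2]
  refine h1.congr fun k => ?_
  have h3 : AEStronglyMeasurable (fun x => ave p q (F k) g x) (ρ.map fun x => n • x) :=
    (aveX_cont (p := p) (q := q) (F := F k) g).aestronglyMeasurable
  rw [integral_map hm.aemeasurable h3]
  refine integral_congr_ae (Eventually.of_forall fun x => ?_)
  exact (ave_nsmul (F k) g n x).symm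

lemma not_sing_of_le {κ : Measure UnitAddCircle} {a : ℝ≥0∞} (ha0 : a ≠ 0)
    (hv : a • (volume : Measure UnitAddCircle) ≤ κ) : ¬ κ ⟂ₘ (volume : Measure UnitAddCircle) := by
  intro hs
  obtain ⟨S, hS, h1, h2⟩ := hs
  have h3 : a * (volume : Measure UnitAddCircle) S = 0 := by
    refine le_antisymm ?_ zero_le
    rw [← h1]
    exact hv S
  have h4 : (volume : Measure UnitAddCircle) S = 0 := by
    rcases mul_eq_zero.1 h3 with h | h
    · exact absurd h ha0
    · exact h
  have h5 : (volume : Measure UnitAddCircle) univ = 0 := by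
    refine le_antisymm ?_ zero_le
    calc (volume : Measure UnitAddCircle) univ ≤ volume S + volume Sᶜ := by
          rw [← union_compl_self S]
          exact measure_union_le _ _
      _ = 0 := by rw [h4, h2, add_zero]
  simp at h5

/-- multiples of solid laws are solid -/
lemma Solid.map {p q : ℕ} (hp : 2 ≤ p) {ω : Measure UnitAddCircle} [IsProbabilityMeasure ω]
    (h : Solid p q ω) {n : ℕ} (hn : n ≠ 0) : Solid p q (ω.map fun x => n • x) := by
  intro B hB hB0 F hF κ hκ hl
  have hm : Measurable (fun x : UnitAddCircle => n • x) := nsmul_measX n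
  have hA : MeasurableSet ((fun x : UnitAddCircle => n • x) ⁻¹' B) := hm hB
  have hA0 : ω ((fun x : UnitAddCircle => n • x) ⁻¹' B) ≠ 0 := by
    rwa [Measure.map_apply hm hB] at hB0
  set ρ := ProbabilityTheory.cond ω ((fun x : UnitAddCircle => n • x) ⁻¹' B) with hρ
  have hρp : IsProbabilityMeasure ρ := ProbabilityTheory.cond_isProbabilityMeasure hA0
  have hc : ProbabilityTheory.cond (ω.map fun x => n • x) B = ρ.map fun x => n • x := by
    rw [hρ]
    unfold ProbabilityTheory.cond
    rw [Measure.map_smul, Measure.restrict_map hm hB, Measure.map_apply hm hB]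
  obtain ⟨ψ, hψ, κ', hκ', hl'⟩ := subseq_lim (p := p) (q := q) hF ρ
  have hFψ : Folner (F ∘ ψ) := hF.comp hψ.tendsto_atTop
  have hns := h _ hA hA0 _ hFψ κ' hκ' hl'
  have hinv := lim_inv (p := p) (q := q) hFψ (𝒰 := atTop) le_rfl (σ := ρ) (σ' := κ') hl'
  obtain ⟨a, ha0, ha⟩ := vol_part hp hinv.1 hns
  have hp' : IsProbabilityMeasure (κ'.map fun x : UnitAddCircle => n • x) :=
    Measure.isProbabilityMeasure_map hm.aemeasurable
  have e : κ = κ'.map fun x => n • x := by
    have h1 : Lim p q (F ∘ ψ) (ProbabilityTheory.cond (ω.map fun x => n • x) B) κ :=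
      fun g => (hl g).comp hψ.tendsto_atTop
    rw [hc] at h1
    exact lim_unique h1 (hl'.map n)
  rw [e]
  refine not_sing_of_le ha0 ?_
  have h1 : (a • (volume : Measure UnitAddCircle)).map (fun x => n • x) ≤
      κ'.map fun x => n • x := Measure.map_mono ha hm
  rwa [Measure.map_smul, (mp_vol hn).map_eq] at h1

/-- **The points with singular limits are a null set for every solid law.** -/
theorem Solid.det_null {p q : ℕ} (hp : 2 ≤ p) (hq : 1 ≤ q) {ω : Measure UnitAddCircle}
    [IsProbabilityMeasure ω] (h : Solid p q ω) {F : ℕ → Finset (ℕ × ℕ)} (hF : Folner F) :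
    ω (Det p q F) = 0 := by
  by_contra hne
  have hDm : MeasurableSet (Det p q F) := det_meas hF.1
  have hρp : IsProbabilityMeasure (ProbabilityTheory.cond ω (Det p q F)) :=
    ProbabilityTheory.cond_isProbabilityMeasure hne
  set ρ := ProbabilityTheory.cond ω (Det p q F) with hρ
  obtain ⟨ψ, hψ, κ, hκ, hlim⟩ := subseq_lim (p := p) (q := q) hF ρ
  have hFψ : Folner (F ∘ ψ) := hF.comp hψ.tendsto_atTop
  have hns := h _ hDm hne _ hFψ κ hκ hlim
  have hinv := lim_inv (p := p) (q := q) hFψ (𝒰 := atTop) le_rfl (σ := ρ) (σ' := κ) hlim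
  obtain ⟨a', ha'0, ha'⟩ := vol_part hp hinv.1 hns
  have ha'1 : a' ≤ 1 := by
    have := ha' univ
    simpa using this
  have hat : a' ≠ ∞ := ne_top_of_le_ne_top ENNReal.one_ne_top ha'1
  set a : ℝ := a'.toReal with ha
  have ha0 : 0 < a := ENNReal.toReal_pos ha'0 hat
  have ha1 : a ≤ 1 := by
    have := ENNReal.toReal_mono ENNReal.one_ne_top ha'1
    simpa using this
  have haW : ∀ W : Set UnitAddCircle, MeasurableSet W →
      a * (volume : Measure UnitAddCircle).real W ≤ κ.real W := by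
    intro W _
    have h3 := ENNReal.toReal_mono (measure_ne_top κ _) (ha' W)
    rw [Measure.smul_apply, smul_eq_mul, ENNReal.toReal_mul] at h3
    exact h3
  obtain ⟨k, hk16⟩ : ∃ k : ℕ, (1 / 2 : ℝ) ^ k < a / 16 :=
    exists_pow_lt_of_lt_one (by positivity) (by norm_num)
  set E : ℕ → Set UnitAddCircle := fun R =>
    {w | ∀ n, R ≤ n → w ∈ near p q ((1 / 2 : ℝ) ^ k) R (F n)} with hE
  have hEmono : Monotone E := by
    intro R R' hRR w hw n hn
    exact near_mono hRR _ (hw n (hRR.trans hn))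
  have hDE : Det p q F ⊆ ⋃ R, E R := by
    intro w hw
    obtain ⟨R, hR⟩ := (det_iff hF.1 w).1 hw k
    refine mem_iUnion.2 ⟨R, fun n hn => ?_⟩
    obtain ⟨i, hi, h2⟩ := hR n hn
    exact ⟨i, hi, h2⟩
  have hρD : ρ (⋃ R, E R) = 1 := by
    refine le_antisymm prob_le_one ?_
    have h1 : ρ (Det p q F) = 1 := ProbabilityTheory.cond_apply_self hne (measure_ne_top _ _)
    rw [← h1]
    exact measure_mono hDE
  obtain ⟨R, hR⟩ : ∃ R, 1 - a / 8 < ρ.real (E R) := by
    have h1 : Tendsto (fun R => ρ (E R)) atTop (𝓝 (ρ (⋃ R, E R))) :=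
      tendsto_measure_iUnion_atTop hEmono
    rw [hρD] at h1
    have h2 := (ENNReal.tendsto_toReal ENNReal.one_ne_top).comp h1
    rw [ENNReal.toReal_one] at h2
    exact ((tendsto_order.1 h2).1 (1 - a / 8) (by linarith)).exists
  obtain ⟨t, ht1, ht2⟩ := ((key_move hp hq hFψ hlim ha0 ha1 haW hk16.le R).and
    (hψ.tendsto_atTop.eventually_ge_atTop R)).exists
  have h1 : ρ.real (E R) ≤ ρ.real (near p q ((1 / 2 : ℝ) ^ k) R ((F ∘ ψ) t)) :=
    measureReal_mono fun w hw => hw (ψ t) ht2
  linarith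

/-- **The universal rational subspace for solid laws.** One Borel rational subspace carries every
singular invariant measure and is a null set for every solid law. -/
theorem exists_solid {p q : ℕ} (hp : 2 ≤ p) (hq : 2 ≤ q) (hpq : Nat.Coprime p q) :
    ∃ L : Submodule ℚ ℝ, MeasurableSet (L : Set ℝ) ∧ (1 : ℝ) ∈ L ∧
      (∀ ω : Measure UnitAddCircle, IsProbabilityMeasure ω → Solid p q ω → ω (cir L) = 0) ∧
      ∀ ν : Measure UnitAddCircle, IsProbabilityMeasure ν →
        MeasurePreserving (fun x : UnitAddCircle => p • x) ν ν →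
        MeasurePreserving (fun x : UnitAddCircle => q • x) ν ν →
        ν ⟂ₘ (volume : Measure UnitAddCircle) →
        ∀ᵐ x ∂ν, ∀ X : ℝ, (X : UnitAddCircle) = x → X ∈ L := by
  have hirr := Pool.Agent.Zk24.SC.irr_of_coprime hp hq hpq
  have hft : ((√2 : ℝ) : UnitAddCircle) ∉ Tor := by
    rintro ⟨n, hn, h0⟩
    have hfin : IsOfFinAddOrder ((√2 : ℝ) : UnitAddCircle) :=
      isOfFinAddOrder_iff_nsmul_eq_zero.2 ⟨n, hn, h0⟩
    obtain ⟨a, ha⟩ := Pool.Agent.Zk24.SL.rat_of_torsion hfin
    exact irrational_sqrt_two ⟨a, ha.symm⟩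
  obtain ⟨F, hF, hT, -⟩ := exists_strips hp hq hirr
    (θ := fun _ => ((√2 : ℝ) : UnitAddCircle)) (fun _ => hft)
  obtain ⟨H, hH⟩ := Pool.Agent.Zk24.SL.det_group hp hq hpq hF
  have hHm : MeasurableSet (H : Set UnitAddCircle) := by
    rw [hH]
    exact det_meas hF.1
  refine ⟨Pool.Agent.Zk24.SL.lin H, linH_meas hHm, lin_one H, fun ω hω hs => ?_,
    fun ν hν hνp hνq hsing => ?_⟩
  · have h1 : cir (Pool.Agent.Zk24.SL.lin H) ⊆ ⋃ n : ℕ, {w | (n + 1) • w ∈ Det p q F} := by
      rintro w ⟨T, rfl, hT1⟩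
      obtain ⟨n, hn, hx⟩ := hT1
      obtain ⟨m, rfl⟩ := Nat.exists_eq_succ_of_ne_zero hn.ne'
      refine mem_iUnion.2 ⟨m, ?_⟩
      show (m + 1) • (T : UnitAddCircle) ∈ Det p q F
      rw [← hH]
      have e : (m + 1) • (T : UnitAddCircle) = (((((m + 1 : ℕ) : ℝ) * T : ℝ)) : UnitAddCircle) := by
        rw [← AddCircle.coe_nsmul, nsmul_eq_mul]
      rw [e]
      exact hx
    refine measure_mono_null h1 (measure_iUnion_null fun n => ?_)
    have hp' : IsProbabilityMeasure (ω.map fun x : UnitAddCircle => (n + 1) • x) :=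
      Measure.isProbabilityMeasure_map (nsmul_measX _).aemeasurable
    have h2 := (hs.map hp (Nat.succ_ne_zero n)).det_null hp (by omega) hF
    rwa [Measure.map_apply (nsmul_measX _) (det_meas hF.1)] at h2
  · have h1 : ∀ᵐ x ∂ν, x ∈ Det p q F := by
      refine det_ae hF.1 hνp hνq hsing fun g => ?_
      exact Pool.Agent.Zk85.Tu.ae_conv hνp hνq hF (C := 54) (by norm_num)
        (fun φ hφ hφ0 hφi l hl => maximal hνp hνq hF.1 (by norm_num) hT hφ hφ0 hφi hl) g
    filter_upwards [h1] with x hx X hX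
    refine ⟨1, one_pos, ?_⟩
    rw [Nat.cast_one, one_mul, hX]
    have h2 : x ∈ (H : Set UnitAddCircle) := by rw [hH]; exact hx
    exact h2

end Pool.Agent.Zk32
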