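import Mathlib
import Pool.Agent.Zk32.Tw2
import Pool.Agent.Zk24.SL.UnivAll

/-!
The universal rational subspaces which are null for all the solid laws
-/

set_option autoImplicit false

open MeasureTheory Filter Topology Set
open scoped ENNReal

namespace Pool.Agent.Zk32

/-- a rational subspace which carries all the singular invariant measures can be made smaller, so
that it is a null set for all the solid laws -/
theorem univ_solid {p q : ℕ} (hp : 2 ≤ p) (hq : 2 ≤ q) (hpq : Nat.Coprime p q)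
    {L₁ : Submodule ℚ ℝ} (hL₁ : MeasurableSet (L₁ : Set ℝ)) (hd : dimH (L₁ : Set ℝ) = 0)
    (h1 : (1 : ℝ) ∈ L₁)
    (hν : ∀ ν : Measure UnitAddCircle, IsProbabilityMeasure ν →
        MeasurePreserving (fun x : UnitAddCircle => p • x) ν ν →
        MeasurePreserving (fun x : UnitAddCircle => q • x) ν ν →
        ν ⟂ₘ (volume : Measure UnitAddCircle) →
        ∀ᵐ x ∂ν, ∀ X : ℝ, (X : UnitAddCircle) = x → X ∈ L₁) :
    ∃ L : Submodule ℚ ℝ, L ≤ L₁ ∧ MeasurableSet (L : Set ℝ) ∧ dimH (L : Set ℝ) = 0 ∧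
      (1 : ℝ) ∈ L ∧ (cir L ⊆ cir L₁) ∧
      (∀ ω : Measure UnitAddCircle, IsProbabilityMeasure ω → Solid p q ω → ω (cir L) = 0) ∧
      ∀ ν : Measure UnitAddCircle, IsProbabilityMeasure ν →
        MeasurePreserving (fun x : UnitAddCircle => p • x) ν ν →
        MeasurePreserving (fun x : UnitAddCircle => q • x) ν ν →
        ν ⟂ₘ (volume : Measure UnitAddCircle) →
        ∀ᵐ x ∂ν, ∀ X : ℝ, (X : UnitAddCircle) = x → X ∈ L := by
  obtain ⟨L₂, hL₂, hL₂1, hL₂ω, hL₂ν⟩ := exists_solid hp hq hpq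
  refine ⟨L₁ ⊓ L₂, inf_le_left, ?_, ?_, ⟨h1, hL₂1⟩, ?_, ?_, ?_⟩
  · rw [Submodule.coe_inf]
    exact hL₁.inter hL₂
  · refine le_antisymm ?_ zero_le
    rw [← hd]
    exact dimH_mono (fun x hx => hx.1)
  · rintro w ⟨T, hT, hTL⟩
    exact ⟨T, hT, hTL.1⟩
  · intro ω hω hs
    refine measure_mono_null ?_ (hL₂ω ω hω hs)
    rintro w ⟨T, hT, hTL⟩
    exact ⟨T, hT, hTL.2⟩
  · intro ν hν' hνp hνq hs
    filter_upwards [hν ν hν' hνp hνq hs, hL₂ν ν hν' hνp hνq hs] with x h3 h4 X hX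
    exact ⟨h3 X hX, h4 X hX⟩

/-- a law all of whose conditional laws have images which converge to Lebesgue measure -/
lemma solid_of_lim {p q : ℕ} {ω : Measure UnitAddCircle}
    (h : ∀ B : Set UnitAddCircle, MeasurableSet B → ω B ≠ 0 → ∀ F : ℕ → Finset (ℕ × ℕ),
      Folner F → Lim p q F (ProbabilityTheory.cond ω B) (volume : Measure UnitAddCircle)) :
    Solid p q ω := by
  intro B hB h0 F hF κ hκ hl
  rw [lim_unique hl (h B hB h0 F hF)]
  exact vol_not_sing

end Pool.Agent.Zk32
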