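import Mathlib
import Pool.Agent.Zk32.Tl5

/-!
A rational subspace of Hausdorff dimension zero which carries given singular invariant measures
-/

set_option autoImplicit false

open MeasureTheory Filter Topology Set
open scoped ENNReal NNReal
open Pool.Agent.Zk24.SL (sm sy sm_mono sm_add sm_neg sm_compact sm_cover sy_zero sy_neg sub_sy
  sy_compact sy_cover lin_closed lin_one exists_mean essInj)

namespace Pool.Agent.Zk32

/-- the sums are monotone in the set -/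
lemma sm_mono_set {V V' : Set UnitAddCircle} (h : V ⊆ V') (k : ℕ) : sm V k ⊆ sm V' k := by
  induction k with
  | zero => exact Subset.rfl
  | succ k ih =>
    rintro x ⟨y, hy, u, hu, rfl⟩
    exact ⟨y, ih hy, u, h hu, rfl⟩

lemma sy_mono {V V' : Set UnitAddCircle} (h : V ⊆ V') : sy V ⊆ sy V' := by
  rintro x ((hx | hx) | hx)
  · exact Or.inl (Or.inl (h hx))
  · exact Or.inl (Or.inr (h hx))
  · exact Or.inr hx

lemma ediam_ball (c : UnitAddCircle) {r : ℝ} (hr : 0 ≤ r) :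
    Metric.ediam (Metric.closedBall c r) ≤ ENNReal.ofReal (2 * r) := by
  have h1 : Metric.closedBall c r = Metric.closedEBall c (ENNReal.ofReal r) := by
    rw [Metric.closedEBall_ofReal hr]
  rw [h1]
  refine Metric.ediam_closedEBall_le.trans ?_
  rw [ENNReal.ofReal_mul (by norm_num)]
  simp

/-- good coverings at a sequence of scales give dimension zero -/
lemma dimH_zero_of_cover {A : Set UnitAddCircle} {n : ℕ} {K : ℕ → ℕ} {ρ : ℕ → ℝ}
    (hK : ∀ k, 1 ≤ K k) (hρ : ∀ k, 0 < ρ k) (hρK : ∀ k, ρ k * (K k : ℝ) ^ k ≤ (1 / 2 : ℝ) ^ k)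
    (hcov : ∀ᶠ k in atTop, ∃ C : Finset UnitAddCircle, (C.card : ℝ) ≤ (3 * K k) ^ n ∧
      A ⊆ ⋃ c ∈ C, Metric.closedBall c (n * ρ k)) : dimH A = 0 := by
  classical
  have hρ1 : ∀ k, ρ k ≤ (1 / 2 : ℝ) ^ k := by
    intro k
    refine le_trans ?_ (hρK k)
    have h1 : (1 : ℝ) ≤ (K k : ℝ) ^ k := one_le_pow₀ (by exact_mod_cast hK k)
    nlinarith [hρ k]
  have hC : ∀ k, ∃ C : Finset UnitAddCircle, ((∃ C : Finset UnitAddCircle,
      (C.card : ℝ) ≤ (3 * K k) ^ n ∧ A ⊆ ⋃ c ∈ C, Metric.closedBall c (n * ρ k)) →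
      (C.card : ℝ) ≤ (3 * K k) ^ n ∧ A ⊆ ⋃ c ∈ C, Metric.closedBall c (n * ρ k)) := by
    intro k
    by_cases h : ∃ C : Finset UnitAddCircle,
      (C.card : ℝ) ≤ (3 * K k) ^ n ∧ A ⊆ ⋃ c ∈ C, Metric.closedBall c (n * ρ k)
    · obtain ⟨C, hC⟩ := h
      exact ⟨C, fun _ => hC⟩
    · exact ⟨∅, fun h' => absurd h' h⟩
  choose C hC using hC
  refine le_antisymm ?_ zero_le
  refine le_of_forall_pos_le_add ?_
  intro d' hd'
  rw [zero_add]
  obtain ⟨d, hd0, hdd'⟩ := ENNReal.lt_iff_exists_nnreal_btwn.1 hd'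
  refine le_trans ?_ hdd'.le
  have hdpos : (0 : ℝ) < d := by exact_mod_cast hd0
  refine dimH_le_of_hausdorffMeasure_ne_top (ne_top_of_le_ne_top ENNReal.zero_ne_top ?_)
  have hpow : Tendsto (fun k : ℕ => (1 / 2 : ℝ) ^ k) atTop (𝓝 0) :=
    tendsto_pow_atTop_nhds_zero_of_lt_one (by norm_num) (by norm_num)
  have hr : Tendsto (fun k : ℕ => ENNReal.ofReal (2 * (n * (1 / 2 : ℝ) ^ k))) atTop (𝓝 0) := by
    have h1 := (hpow.const_mul (n : ℝ)).const_mul 2
    rw [mul_zero, mul_zero] at h1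
    have := ENNReal.tendsto_ofReal h1
    rwa [ENNReal.ofReal_zero] at this
  have hmain := Measure.hausdorffMeasure_le_liminf_sum (d : ℝ) A (l := (atTop : Filter ℕ))
    (fun k : ℕ => ENNReal.ofReal (2 * (n * (1 / 2 : ℝ) ^ k))) hr
    (ι := fun k => {c // c ∈ C k}) (fun k c => Metric.closedBall (c : UnitAddCircle) (n * ρ k))
    (Eventually.of_forall fun k c => by
      refine (ediam_ball _ (by have := (hρ k).le; positivity)).trans
        (ENNReal.ofReal_le_ofReal ?_)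
      have := hρ1 k
      gcongr)
    (hcov.mono fun k hk => by
      refine (hC k hk).2.trans ?_
      intro x hx
      obtain ⟨c, hc, hx⟩ := mem_iUnion₂.1 hx
      exact mem_iUnion.2 ⟨⟨c, hc⟩, hx⟩)
  refine hmain.trans (le_of_eq ?_)
  refine Tendsto.liminf_eq ?_
  -- the bound
  have hB : Tendsto (fun k : ℕ => ENNReal.ofReal
      ((3 : ℝ) ^ n * (2 * n : ℝ) ^ (d : ℝ) * ((1 / 2 : ℝ) ^ k) ^ (d : ℝ))) atTop (𝓝 0) := by
    have h1 : Tendsto (fun k : ℕ => ((1 / 2 : ℝ) ^ k) ^ (d : ℝ)) atTop (𝓝 ((0 : ℝ) ^ (d : ℝ))) :=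
      (Real.continuousAt_rpow_const _ _ (Or.inr hdpos.le)).tendsto.comp hpow
    rw [Real.zero_rpow hdpos.ne'] at h1
    have h2 := h1.const_mul ((3 : ℝ) ^ n * (2 * n : ℝ) ^ (d : ℝ))
    rw [mul_zero] at h2
    have := ENNReal.tendsto_ofReal h2
    rwa [ENNReal.ofReal_zero] at this
  refine tendsto_of_tendsto_of_tendsto_of_le_of_le' tendsto_const_nhds hB
    (Eventually.of_forall fun k => zero_le) ?_
  have hbig : ∀ᶠ k : ℕ in atTop, (n : ℝ) ≤ d * k := by
    have h1 : Tendsto (fun k : ℕ => (d : ℝ) * k) atTop atTop :=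
      tendsto_natCast_atTop_atTop.const_mul_atTop hdpos
    exact h1.eventually_ge_atTop _
  filter_upwards [hcov, hbig] with k hk hkn
  have hcard := (hC k hk).1
  have hρk := (hρ k).le
  have hKR : (1 : ℝ) ≤ K k := by exact_mod_cast hK k
  calc ∑ c : {c // c ∈ C k}, Metric.ediam (Metric.closedBall (c : UnitAddCircle) (n * ρ k)) ^ (d : ℝ)
      ≤ ∑ c : {c // c ∈ C k}, ENNReal.ofReal (2 * (n * ρ k)) ^ (d : ℝ) := by
        refine Finset.sum_le_sum fun c _ => ?_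
        exact ENNReal.rpow_le_rpow (ediam_ball _ (by positivity)) hdpos.le
    _ = ENNReal.ofReal ((C k).card * (2 * (n * ρ k)) ^ (d : ℝ)) := by
        rw [Finset.sum_const, Finset.card_univ, Fintype.card_coe, nsmul_eq_mul,
          ENNReal.ofReal_mul (p := ((C k).card : ℝ)) (by positivity), ENNReal.ofReal_natCast,
          ENNReal.ofReal_rpow_of_nonneg (by positivity) hdpos.le]
    _ ≤ ENNReal.ofReal ((3 : ℝ) ^ n * (2 * n : ℝ) ^ (d : ℝ) * ((1 / 2 : ℝ) ^ k) ^ (d : ℝ)) := by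
        refine ENNReal.ofReal_le_ofReal ?_
        have h1 : (K k : ℝ) ^ n * (ρ k) ^ (d : ℝ) ≤ ((1 / 2 : ℝ) ^ k) ^ (d : ℝ) := by
          calc (K k : ℝ) ^ n * (ρ k) ^ (d : ℝ) = (K k : ℝ) ^ (n : ℝ) * (ρ k) ^ (d : ℝ) := by
                rw [Real.rpow_natCast]
            _ ≤ (K k : ℝ) ^ ((d : ℝ) * k) * (ρ k) ^ (d : ℝ) := by
                have := Real.rpow_le_rpow_of_exponent_le hKR hkn
                gcongr
            _ = ((ρ k) * (K k : ℝ) ^ k) ^ (d : ℝ) := by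
                rw [Real.mul_rpow hρk (by positivity), mul_comm (d : ℝ) k,
                  Real.rpow_natCast_mul (by positivity), mul_comm]
            _ ≤ ((1 / 2 : ℝ) ^ k) ^ (d : ℝ) := by
                have := hρK k
                gcongr
        calc ((C k).card : ℝ) * (2 * (n * ρ k)) ^ (d : ℝ)
            ≤ (3 * K k) ^ n * (2 * (n * ρ k)) ^ (d : ℝ) := by gcongr
          _ = (3 : ℝ) ^ n * (2 * n : ℝ) ^ (d : ℝ) * ((K k : ℝ) ^ n * (ρ k) ^ (d : ℝ)) := by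
              rw [mul_pow, ← mul_assoc 2 (n : ℝ), Real.mul_rpow (by positivity) hρk]
              ring
          _ ≤ (3 : ℝ) ^ n * (2 * n : ℝ) ^ (d : ℝ) * ((1 / 2 : ℝ) ^ k) ^ (d : ℝ) := by gcongr

/-- the inverse image in the real line -/
lemma dimH_lift (A : Set UnitAddCircle) :
    dimH ((fun X : ℝ => (X : UnitAddCircle)) ⁻¹' A) ≤ dimH A := by
  set E : Set ℝ := (fun X : ℝ => (X : UnitAddCircle)) ⁻¹' A with hE
  have hcov : E ⊆ ⋃ j : ℤ, E ∩ Icc ((j : ℝ) / 2) ((j : ℝ) / 2 + 1 / 2) := by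
    intro X hX
    refine mem_iUnion.2 ⟨⌊2 * X⌋, hX, ?_, ?_⟩
    · have := Int.floor_le (2 * X)
      linarith
    · have := Int.lt_floor_add_one (2 * X)
      linarith
  refine (dimH_mono hcov).trans ?_
  rw [dimH_iUnion]
  refine iSup_le fun j => ?_
  set I : Set ℝ := Icc ((j : ℝ) / 2) ((j : ℝ) / 2 + 1 / 2) with hI
  have hiso : Isometry fun X : I => ((X : ℝ) : UnitAddCircle) := by
    refine Isometry.of_dist_eq fun X Y => ?_
    have hX : (j : ℝ) / 2 ≤ X ∧ (X : ℝ) ≤ (j : ℝ) / 2 + 1 / 2 := X.2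
    have hY : (j : ℝ) / 2 ≤ Y ∧ (Y : ℝ) ≤ (j : ℝ) / 2 + 1 / 2 := Y.2
    rw [dist_eq_norm, ← AddCircle.coe_sub, (AddCircle.norm_coe_eq_abs_iff 1 one_ne_zero).2,
      Subtype.dist_eq, Real.dist_eq]
    rw [abs_one, abs_le]
    constructor <;> linarith [hX.1, hX.2, hY.1, hY.2]
  have h1 : E ∩ I = Subtype.val '' (Subtype.val ⁻¹' E : Set I) := by
    rw [Subtype.image_preimage_coe, inter_comm]
  rw [h1, isometry_subtype_coe.dimH_image, ← hiso.dimH_image]
  refine dimH_mono ?_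
  rintro _ ⟨X, hX, rfl⟩
  exact hX

/-- **A group of full measure of dimension zero.** -/
theorem exists_groupD {p : ℕ} (hp : 2 ≤ p)
    {ν : Measure UnitAddCircle} [IsProbabilityMeasure ν]
    (hνp : MeasurePreserving (fun x : UnitAddCircle => p • x) ν ν)
    (hE : Pool.Agent.W764.FB.EssInj p ν) :
    ∃ H : AddSubgroup UnitAddCircle,
      (∃ C : ℕ → Set UnitAddCircle, (∀ k, IsClosed (C k)) ∧ (∀ k, dimH (C k) = 0) ∧
        (H : Set UnitAddCircle) = ⋃ k, C k) ∧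
      ν (H : Set UnitAddCircle)ᶜ = 0 := by
  have hex : ∀ k : ℕ, ∃ (K : ℕ) (cen : Fin K → UnitAddCircle) (ρ : ℝ), 1 ≤ K ∧ 0 < ρ ∧
      ρ * (K : ℝ) ^ k ≤ (1 / 2 : ℝ) ^ k ∧
      ν.real (Pool.Agent.H706R2.Ren.U cen ρ)ᶜ ≤ (1 / 2 : ℝ) ^ k := fun k =>
    Pool.Agent.Zk24.SL.coveringK hp ν hνp hE (by positivity) (by positivity) k
  choose K cen ρ hK hρ hρK hU using hex
  set U : ℕ → Set UnitAddCircle := fun k => Pool.Agent.H706R2.Ren.U (cen k) (ρ k) with hUdef
  have hUc : ∀ k, IsClosed (U k) := fun k =>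
    (isCompact_iUnion fun a => isCompact_closedBall _ _).isClosed
  set V : ℕ → Set UnitAddCircle := fun m => ⋂ k : ℕ, ⋂ (_ : m ≤ k), U k with hV
  have hVc : ∀ m, IsCompact (V m) := fun m =>
    (isClosed_iInter fun k => isClosed_iInter fun _ => hUc k).isCompact
  have hVU : ∀ m k, m ≤ k → V m ⊆ U k := fun m k h =>
    (iInter_subset _ k).trans (iInter_subset _ h)
  have hVm : ∀ m m', m ≤ m' → V m ⊆ V m' := fun m m' h =>
    subset_iInter fun k => subset_iInter fun hk => hVU m k (h.trans hk)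
  let H : AddSubgroup UnitAddCircle :=
    { carrier := {x | ∃ m n : ℕ, x ∈ sm (sy (V m)) n}
      zero_mem' := ⟨0, 0, rfl⟩
      add_mem' := by
        rintro x y ⟨m, n, hx⟩ ⟨m', n', hy⟩
        refine ⟨max m m', n + n', sm_add ?_ ?_⟩
        · exact sm_mono_set (sy_mono (hVm _ _ (le_max_left _ _))) _ hx
        · exact sm_mono_set (sy_mono (hVm _ _ (le_max_right _ _))) _ hy
      neg_mem' := by
        rintro x ⟨m, n, hx⟩
        exact ⟨m, n, sm_neg sy_neg hx⟩ }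
  refine ⟨H, ⟨fun k => sm (sy (V (Nat.unpair k).1)) (Nat.unpair k).2, fun k => ?_, fun k => ?_, ?_⟩,
    ?_⟩
  · exact (sm_compact (sy_compact (hVc _)) _).isClosed
  · refine dimH_zero_of_cover (n := (Nat.unpair k).2) hK hρ hρK ?_
    filter_upwards [eventually_ge_atTop (Nat.unpair k).1] with l hl
    obtain ⟨C, hC, hcov⟩ := sy_cover (cen l) (hρ l).le
    obtain ⟨C', hC', hcov'⟩ := sm_cover hcov (Nat.unpair k).2
    refine ⟨C', ?_, (sm_mono_set (sy_mono (hVU _ l hl)) _).trans hcov'⟩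
    have hKR : (1 : ℝ) ≤ K l := by exact_mod_cast hK l
    have hCR : (C.card : ℝ) ≤ 3 * K l := by
      have : (C.card : ℝ) ≤ 2 * K l + 1 := by exact_mod_cast hC
      linarith
    have h1 : (C'.card : ℝ) ≤ (C.card : ℝ) ^ (Nat.unpair k).2 := by exact_mod_cast hC'
    refine h1.trans ?_
    gcongr
  · ext x
    simp only [mem_iUnion]
    constructor
    · rintro ⟨m, n, hx⟩
      exact ⟨Nat.pair m n, by rw [Nat.unpair_pair]; exact hx⟩
    · rintro ⟨k, hx⟩
      exact ⟨_, _, hx⟩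
  · have hsum : ∑' k, ν (U k)ᶜ ≠ ∞ := by
      have h1 : ∀ k, ν (U k)ᶜ ≤ ENNReal.ofReal ((1 / 2 : ℝ) ^ k) := by
        intro k
        rw [← ofReal_measureReal (measure_ne_top _ _)]
        exact ENNReal.ofReal_le_ofReal (hU k)
      refine ne_top_of_le_ne_top ?_ (ENNReal.tsum_le_tsum h1)
      rw [← ENNReal.ofReal_tsum_of_nonneg (fun j => by positivity)
        (summable_geometric_of_lt_one (by norm_num) (by norm_num))]
      exact ENNReal.ofReal_ne_top
    have hae := ae_eventually_notMem hsum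
    rw [← mem_ae_iff]
    filter_upwards [hae] with x hx
    obtain ⟨m, hm⟩ := eventually_atTop.1 hx
    refine ⟨m, 1, 0, rfl, x, sub_sy _ ?_, (zero_add _).symm⟩
    refine mem_iInter₂.2 fun k hk => ?_
    have h1 := hm k hk
    rwa [notMem_compl_iff] at h1

/-- the rational subspace has dimension zero -/
lemma dimH_lin {H : AddSubgroup UnitAddCircle} {C : ℕ → Set UnitAddCircle}
    (hC : ∀ k, dimH (C k) = 0) (hH : (H : Set UnitAddCircle) = ⋃ k, C k) :
    dimH (Pool.Agent.Zk24.SL.lin H : Set ℝ) = 0 := by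
  refine le_antisymm ?_ zero_le
  have hcov : (Pool.Agent.Zk24.SL.lin H : Set ℝ) ⊆ ⋃ n : ℕ, ⋃ k : ℕ,
      (fun X : ℝ => ((n : ℝ) + 1)⁻¹ * X) '' ((fun X : ℝ => (X : UnitAddCircle)) ⁻¹' C k) := by
    rintro X ⟨n, hn, hX⟩
    have h1 : (((n : ℝ) * X : ℝ) : UnitAddCircle) ∈ (H : Set UnitAddCircle) := hX
    rw [hH] at h1
    obtain ⟨k, hk⟩ := mem_iUnion.1 h1
    refine mem_iUnion₂.2 ⟨n - 1, k, (n : ℝ) * X, hk, ?_⟩
    have h2 : ((n - 1 : ℕ) : ℝ) + 1 = n := by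
      have : ((n - 1 + 1 : ℕ) : ℝ) = n := by rw [Nat.sub_add_cancel hn]
      exact_mod_cast this
    show (((n - 1 : ℕ) : ℝ) + 1)⁻¹ * ((n : ℝ) * X) = X
    have h3 : (n : ℝ) ≠ 0 := by positivity
    rw [h2, inv_mul_cancel_left₀ h3]
  refine (dimH_mono hcov).trans ?_
  rw [dimH_iUnion]
  refine iSup_le fun n => ?_
  rw [dimH_iUnion]
  refine iSup_le fun k => ?_
  have hlip : LipschitzWith ‖((n : ℝ) + 1)⁻¹‖₊ fun X : ℝ => ((n : ℝ) + 1)⁻¹ * X :=
    LipschitzWith.of_dist_le_mul fun X Y => by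
      rw [dist_eq_norm, dist_eq_norm, ← mul_sub, norm_mul]
      rfl
  refine (hlip.dimH_image_le _).trans ((dimH_lift _).trans ?_)
  rw [hC k]

/-- **Rational subspaces of dimension zero.** -/
theorem exists_linD {p q : ℕ} (hp : 2 ≤ p) (hq : 2 ≤ q) (hpq : Nat.Coprime p q)
    {K : Set ℝ} (hK : K.Countable)
    {N : Set (Measure UnitAddCircle)} (hN : N.Countable)
    (h : ∀ ν ∈ N, IsProbabilityMeasure ν ∧ MeasurePreserving (fun x : UnitAddCircle => p • x) ν ν ∧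
      MeasurePreserving (fun x : UnitAddCircle => q • x) ν ν ∧
      ν ⟂ₘ (volume : Measure UnitAddCircle))
    {ω : ℕ → Measure UnitAddCircle} (hω : ∀ l, IsProbabilityMeasure (ω l))
    (hfat : ∀ l, Fat p q (ω l)) :
    ∃ L : Submodule ℚ ℝ, (∃ F : ℕ → Set ℝ, (∀ k, IsClosed (F k)) ∧ (L : Set ℝ) = ⋃ k, F k) ∧
      dimH (L : Set ℝ) = 0 ∧
      (1 : ℝ) ∈ L ∧ (∀ ν ∈ N, ∀ᵐ x ∂ν, ∀ X : ℝ, (X : UnitAddCircle) = x → X ∈ L) ∧
      (∀ l, ω l (cir L) = 0) ∧ ∀ x ∈ L, x ∈ K → ∃ a : ℚ, x = a := by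
  obtain ⟨L₁, hLc, hL1, hLN, hLω, hLK⟩ := exists_linK hp hq hpq hK hN h hω hfat
  -- the point mass at zero makes the set nonempty
  have h0 : IsProbabilityMeasure (Measure.dirac (0 : UnitAddCircle)) ∧
      MeasurePreserving (fun x : UnitAddCircle => p • x) (Measure.dirac (0 : UnitAddCircle))
        (Measure.dirac (0 : UnitAddCircle)) ∧
      MeasurePreserving (fun x : UnitAddCircle => q • x) (Measure.dirac (0 : UnitAddCircle))
        (Measure.dirac (0 : UnitAddCircle)) ∧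
      (Measure.dirac (0 : UnitAddCircle)) ⟂ₘ (volume : Measure UnitAddCircle) := by
    have hd : ∀ r : ℕ, MeasurePreserving (fun x : UnitAddCircle => r • x)
        (Measure.dirac (0 : UnitAddCircle)) (Measure.dirac (0 : UnitAddCircle)) := fun r =>
      ⟨nsmul_measX r, by rw [Measure.map_dirac' (nsmul_measX r), smul_zero]⟩
    refine ⟨inferInstance, hd p, hd q, ?_⟩
    exact ⟨{0}ᶜ, (measurableSet_singleton _).compl, by
      rw [Measure.dirac_apply' _ (measurableSet_singleton _).compl]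
      simp, by
      rw [compl_compl]
      refine measure_mono_null (singleton_subset_iff.2 ?_) vol_tor
      exact ⟨1, one_pos, smul_zero _⟩⟩
  obtain ⟨μ, hμ, hμp, hμq, hμs, hac⟩ := exists_mean (p := p) (q := q)
    (N := insert (Measure.dirac (0 : UnitAddCircle)) N) (hN.insert _) (insert_nonempty _ _) (by
      rintro ν (rfl | hν)
      · exact h0
      · exact h ν hν)
  obtain ⟨H, ⟨C, hCc, hCd, hHC⟩, hH1⟩ := exists_groupD hp hμp (essInj hp hq hpq hμp hμq hμs)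
  obtain ⟨F₁, hF₁, hF₁L⟩ := hLc
  obtain ⟨F₂, hF₂, hF₂L⟩ := lin_closed ⟨C, hCc, hHC⟩
  refine ⟨L₁ ⊓ Pool.Agent.Zk24.SL.lin H, ?_, ?_, ?_, ?_, fun l => ?_, ?_⟩
  · refine ⟨fun k => F₁ (Nat.unpair k).1 ∩ F₂ (Nat.unpair k).2,
      fun k => (hF₁ _).inter (hF₂ _), ?_⟩
    rw [Submodule.coe_inf, hF₁L, hF₂L]
    ext x
    simp only [mem_inter_iff, mem_iUnion]
    constructor
    · rintro ⟨⟨i, hi⟩, j, hj⟩
      exact ⟨Nat.pair i j, by rw [Nat.unpair_pair]; exact ⟨hi, hj⟩⟩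
    · rintro ⟨k, hi, hj⟩
      exact ⟨⟨_, hi⟩, _, hj⟩
  · refine le_antisymm ((dimH_mono ?_).trans (dimH_lin hCd hHC).le) zero_le
    rw [Submodule.coe_inf]
    exact inter_subset_right
  · exact ⟨hL1, lin_one H⟩
  · intro ν hν
    have h1 : ∀ᵐ x ∂ν, x ∈ H := by
      have h2 := hac ν (mem_insert_of_mem _ hν) hH1
      rw [← mem_ae_iff] at h2
      exact h2
    filter_upwards [h1, hLN ν hν] with x hx hx1 X hX
    refine ⟨hx1 X hX, 1, one_pos, ?_⟩
    rw [Nat.cast_one, one_mul, hX]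
    exact hx
  · refine measure_mono_null ?_ (hLω l)
    rintro w ⟨T, hT, hTL⟩
    exact ⟨T, hT, hTL.1⟩
  · intro x hx hxK
    exact hLK x hx.1 hxK

end Pool.Agent.Zk32
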