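import Mathlib
import Pool.Agent.R203.SC.Point
import Pool.Agent.TH461.SST.Stms
import Pool.Agent.Zk32.Circ

set_option autoImplicit false

open MeasureTheory Finset

namespace Pool.Agent.Zk32

open Pool.Agent.R203.SC Pool.Agent.TH461.SST

lemma div_cases {L a d : ℕ} (hL : 0 < L) (hd : d < L) :
    (a + d) / L = a / L ∨ (a + d) / L = a / L + 1 := by
  have h1 := Nat.div_add_mod a L
  have h2 := Nat.mod_lt a hL
  have h3 : a / L ≤ (a + d) / L := Nat.div_le_div_right (by omega)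
  have h4 : (a + d) / L < a / L + 2 := by
    rw [Nat.div_lt_iff_lt_mul hL]
    have : (a / L + 2) * L = L * (a / L) + 2 * L := by ring
    omega
  omega

/-- **Positions with a common ball.** The positions of a box, at most one in every block, for which
the points `p ^ i q ^ j x` lie in one small ball but not very close to the rational numbers of
small denominator: their number is at most linear in the size of the box. -/
theorem one_ball {p q : ℕ} (hp : 2 ≤ p) (hq : 2 ≤ q) (hpq : Nat.Coprime p q)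
    (hcl : ClusterStmt p q) : ∃ C : ℝ, 0 < C ∧ ∀ (A s : ℝ) (m : ℕ), 1 ≤ A → 0 < s → s ≤ 1 / 2 →
      ∃ T₁ : ℝ, ∀ T : ℝ, T₁ ≤ T → ∀ (x w₀ : UnitAddCircle) (L : ℕ), 1 ≤ L →
        (L : ℝ) * (Real.log p + Real.log q) ≤ s * T / 2 → ∀ F : Finset (ℕ × ℕ),
        (∀ v ∈ F, v.1 < m * L ∧ v.2 < m * L) →
        (∀ v ∈ F, ∀ d : ℕ, 1 ≤ d → (d : ℝ) ≤ Real.exp (s * T) →
          Real.exp (-(A * T)) ≤ ‖d • ((p ^ v.1 * q ^ v.2) • x)‖) →
        (∀ v ∈ F, ∀ w ∈ F, v.1 / L = w.1 / L → v.2 / L = w.2 / L → v = w) →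
        (∀ v ∈ F, ‖(p ^ v.1 * q ^ v.2) • x - w₀‖ ≤ 2 * Real.exp (-T)) →
        (F.card : ℝ) * L ^ 2 ≤ 2 * C * A * s * (m + 1) * T ^ 2 := by
  classical
  have hlp : 0 < Real.log p := Real.log_pos (by exact_mod_cast (by omega : 1 < p))
  have hlq : 0 < Real.log q := Real.log_pos (by exact_mod_cast (by omega : 1 < q))
  obtain ⟨C, hC, hpt⟩ := point hp hq hpq hcl
  refine ⟨C, hC, fun A s m hA hs hs2 => ?_⟩
  have hm1 : (0 : ℝ) < (m : ℝ) + 1 := by positivity
  obtain ⟨N₀, hN₀⟩ := hpt (4 * A / s) (1 / (2 * ((m : ℝ) + 1)))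
    (by rw [le_div_iff₀ hs]; linarith) (by positivity)
  refine ⟨max (8 / s) (2 * |N₀| / (((m : ℝ) + 1) * s)), fun T hT x w₀ L hL hLs F hF1 hF2 hF3 hF4 => ?_⟩
  have hT1 : 8 / s ≤ T := (le_max_left _ _).trans hT
  have hT2 : 2 * |N₀| / (((m : ℝ) + 1) * s) ≤ T := (le_max_right _ _).trans hT
  have hT0 : 0 < T := lt_of_lt_of_le (by positivity) hT1
  have hsT : 8 ≤ s * T := by rw [div_le_iff₀ hs] at hT1; linarith
  set N' : ℝ := ((m : ℝ) + 1) * s * T / 2 with hN'
  have hN'0 : N₀ ≤ N' := by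
    rw [div_le_iff₀ (by positivity)] at hT2
    have := le_abs_self N₀
    rw [hN']; nlinarith
  have e1 : 4 * A / s * (1 / (2 * ((m : ℝ) + 1))) * N' = A * T := by
    rw [hN']; field_simp; ring
  have e2 : 1 / (2 * ((m : ℝ) + 1)) * N' = s * T / 4 := by
    rw [hN']; field_simp; ring
  -- the exponentials
  have he2 : Real.exp (-(s * T / 4)) ≤ 1 / 3 := by
    have h1 : Real.exp (-(s * T / 4)) ≤ Real.exp (-2) := Real.exp_le_exp.2 (by linarith)
    have h2 : (3 : ℝ) ≤ Real.exp 2 := by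
      have := Real.add_one_le_exp (2 : ℝ)
      linarith
    refine h1.trans ?_
    rw [Real.exp_neg, one_div]
    exact inv_anti₀ (by norm_num) h2
  have hsmall : 3 * Real.exp (-(s * T / 2)) ≤ Real.exp (-(s * T / 4)) := by
    have h1 : Real.exp (-(s * T / 2)) = Real.exp (-(s * T / 4)) * Real.exp (-(s * T / 4)) := by
      rw [← Real.exp_add]; congr 1; ring
    rw [h1]
    have h2 := Real.exp_pos (-(s * T / 4))
    nlinarith
  -- Dirichlet
  set n : ℕ := ⌊Real.exp (s * T)⌋₊ with hn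
  have hexp1 : (1 : ℝ) ≤ Real.exp (s * T) := Real.one_le_exp (by linarith)
  have hn1 : 0 < n := Nat.floor_pos.2 hexp1
  obtain ⟨b, ⟨hb1, hbn⟩, hb⟩ := AddCircle.exists_norm_nsmul_le (T := (1 : ℝ)) w₀ hn1
  have hbR : (b : ℝ) ≤ Real.exp (s * T) :=
    le_trans (by exact_mod_cast hbn) (Nat.floor_le (Real.exp_pos _).le)
  have hb2 : ‖b • w₀‖ ≤ Real.exp (-(s * T)) := by
    refine hb.trans ?_
    rw [Real.exp_neg, ← one_div]
    apply one_div_le_one_div_of_le (Real.exp_pos _)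
    push_cast
    exact (Nat.lt_floor_add_one _).le
  set z : UnitAddCircle := b • x with hz
  -- the norms at the positions of F
  have hnorm : ∀ v ∈ F, Real.exp (-(A * T)) ≤ ‖b • ((p ^ v.1 * q ^ v.2) • x)‖ ∧
      ‖b • ((p ^ v.1 * q ^ v.2) • x)‖ ≤ 3 * Real.exp (-(s * T)) := by
    intro v hv
    refine ⟨hF2 v hv b hb1 hbR, ?_⟩
    have h1 : b • ((p ^ v.1 * q ^ v.2) • x) = b • w₀ + b • ((p ^ v.1 * q ^ v.2) • x - w₀) := by
      rw [← smul_add, add_sub_cancel]
    rw [h1]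
    refine (norm_add_le _ _).trans ?_
    have h2 : ‖b • ((p ^ v.1 * q ^ v.2) • x - w₀)‖ ≤ b * ‖(p ^ v.1 * q ^ v.2) • x - w₀‖ :=
      norm_nsmul_le
    have h3 : (b : ℝ) * ‖(p ^ v.1 * q ^ v.2) • x - w₀‖ ≤
        Real.exp (s * T) * (2 * Real.exp (-T)) :=
      mul_le_mul hbR (hF4 v hv) (norm_nonneg _) (Real.exp_pos _).le
    have h4 : Real.exp (s * T) * (2 * Real.exp (-T)) ≤ 2 * Real.exp (-(s * T)) := by
      have : Real.exp (s * T) * Real.exp (-T) ≤ Real.exp (-(s * T)) := by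
        rw [← Real.exp_add]
        apply Real.exp_le_exp.2
        nlinarith
      linarith
    linarith
  -- the cells
  set W := cells p q N' (Real.exp (-(A * T))) (Real.exp (-(s * T / 4))) z with hW
  have hWf : W.Finite := cells_finite hp hq _ _ _ _
  have hWc : (W.ncard : ℝ) ≤ C * A * s * (m + 1) * T ^ 2 / 2 := by
    have h1 := hN₀ N' hN'0 z
    rw [e1, e2] at h1
    refine h1.trans (le_of_eq ?_)
    rw [hN']; field_simp; ring
  set D : Finset (ℕ × ℕ) := Finset.range L ×ˢ Finset.range L with hD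
  set t := hWf.toFinset with ht
  have htc : (t.card : ℝ) ≤ C * A * s * (m + 1) * T ^ 2 / 2 := by
    rw [ht, ← Set.ncard_eq_toFinset_card _ hWf]; exact hWc
  have hmaps : ∀ a ∈ F ×ˢ D, (a.1.1 + a.2.1, a.1.2 + a.2.2) ∈ t := by
    rintro ⟨v, δ⟩ ha
    rw [Finset.mem_product] at ha
    obtain ⟨hv, hδ⟩ := ha
    simp only at hv hδ ⊢
    rw [hD, Finset.mem_product, Finset.mem_range, Finset.mem_range] at hδ
    rw [ht, Set.Finite.mem_toFinset, hW]
    have hsize : ∀ i j : ℕ, i ≤ L → j ≤ L → (i : ℝ) * Real.log p + (j : ℝ) * Real.log q ≤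
        s * T / 2 := by
      intro i j hi hj
      have h1 : (i : ℝ) ≤ L := by exact_mod_cast hi
      have h2 : (j : ℝ) ≤ L := by exact_mod_cast hj
      nlinarith
    have hmul : ((p ^ δ.1 * q ^ δ.2 : ℕ) : ℝ) ≤ Real.exp (s * T / 2) := by
      rw [← Real.log_le_iff_le_exp (by positivity)]
      push_cast
      rw [Real.log_mul (by positivity) (by positivity), Real.log_pow, Real.log_pow]
      exact hsize _ _ hδ.1.le hδ.2.le
    have hone : (1 : ℝ) ≤ ((p ^ δ.1 * q ^ δ.2 : ℕ) : ℝ) := by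
      exact_mod_cast Nat.one_le_iff_ne_zero.2 (by positivity)
    obtain ⟨hn1', hn2'⟩ := hnorm v hv
    have hprod : ((p ^ δ.1 * q ^ δ.2 : ℕ) : ℝ) * ‖b • ((p ^ v.1 * q ^ v.2) • x)‖ ≤
        3 * Real.exp (-(s * T / 2)) := by
      calc ((p ^ δ.1 * q ^ δ.2 : ℕ) : ℝ) * ‖b • ((p ^ v.1 * q ^ v.2) • x)‖ ≤
            Real.exp (s * T / 2) * (3 * Real.exp (-(s * T))) :=
            mul_le_mul hmul hn2' (norm_nonneg _) (Real.exp_pos _).le
        _ = 3 * (Real.exp (s * T / 2) * Real.exp (-(s * T))) := by ring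
        _ = 3 * Real.exp (-(s * T / 2)) := by
            rw [← Real.exp_add]; congr 2; ring
    have hle : 3 * Real.exp (-(s * T / 2)) ≤ 1 / 2 := by linarith
    have heq := nsmul_norm_eq (x := b • ((p ^ v.1 * q ^ v.2) • x)) (p ^ δ.1 * q ^ δ.2)
      (hprod.trans hle)
    have hzz : (p ^ (v.1 + δ.1) * q ^ (v.2 + δ.2)) • z =
        (p ^ δ.1 * q ^ δ.2) • (b • ((p ^ v.1 * q ^ v.2) • x)) := by
      rw [hz, smul_smul, smul_smul, smul_smul]
      congr 1
      rw [pow_add, pow_add]; ring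
    refine ⟨?_, ?_, ?_⟩
    · obtain ⟨hv1, hv2⟩ := hF1 v hv
      have h1 : v.1 + δ.1 ≤ (m + 1) * L := by nlinarith
      have h2 : v.2 + δ.2 ≤ (m + 1) * L := by nlinarith
      have h1' : ((v.1 + δ.1 : ℕ) : ℝ) ≤ ((m : ℝ) + 1) * L := by exact_mod_cast h1
      have h2' : ((v.2 + δ.2 : ℕ) : ℝ) ≤ ((m : ℝ) + 1) * L := by exact_mod_cast h2
      calc ((v.1 + δ.1 : ℕ) : ℝ) * Real.log p + ((v.2 + δ.2 : ℕ) : ℝ) * Real.log q ≤
            ((m : ℝ) + 1) * L * Real.log p + ((m : ℝ) + 1) * L * Real.log q := by gcongr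
        _ = ((m : ℝ) + 1) * (L * (Real.log p + Real.log q)) := by ring
        _ ≤ ((m : ℝ) + 1) * (s * T / 2) := by gcongr
        _ = N' := by rw [hN']; ring
    · rw [hzz, heq]
      calc Real.exp (-(A * T)) ≤ ‖b • ((p ^ v.1 * q ^ v.2) • x)‖ := hn1'
        _ = 1 * ‖b • ((p ^ v.1 * q ^ v.2) • x)‖ := (one_mul _).symm
        _ ≤ _ := mul_le_mul_of_nonneg_right hone (norm_nonneg _)
    · rw [hzz, heq]
      exact hprod.trans hsmall
  have hcount : (F ×ˢ D).card ≤ 4 * t.card := by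
    refine Finset.card_le_mul_card_image_of_maps_to hmaps 4 fun u _ => ?_
    set P : Finset (ℕ × ℕ) := ({u.1 / L, u.1 / L - 1} : Finset ℕ) ×ˢ
      ({u.2 / L, u.2 / L - 1} : Finset ℕ) with hP
    have hPc : P.card ≤ 4 := by
      rw [hP, Finset.card_product]
      have h1 : ({u.1 / L, u.1 / L - 1} : Finset ℕ).card ≤ 2 := Finset.card_le_two
      have h2 : ({u.2 / L, u.2 / L - 1} : Finset ℕ).card ≤ 2 := Finset.card_le_two
      nlinarith
    refine le_trans (Finset.card_le_card_of_injOn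
      (fun a : (ℕ × ℕ) × (ℕ × ℕ) => (a.1.1 / L, a.1.2 / L)) ?_ ?_) hPc
    · rintro ⟨v, δ⟩ ha
      rw [Finset.mem_coe, Finset.mem_filter, Finset.mem_product] at ha
      obtain ⟨⟨hv, hδ⟩, hu⟩ := ha
      rw [hD, Finset.mem_product, Finset.mem_range, Finset.mem_range] at hδ
      simp only at hu hδ hv
      have h1 : v.1 + δ.1 = u.1 := by rw [← hu]
      have h2 : v.2 + δ.2 = u.2 := by rw [← hu]
      rw [Finset.mem_coe, hP, Finset.mem_product]
      simp only [Finset.mem_insert, Finset.mem_singleton]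
      constructor
      · rcases div_cases (a := v.1) hL hδ.1 with h3 | h3
        · left; rw [← h1, h3]
        · right; rw [← h1, h3, Nat.add_sub_cancel]
      · rcases div_cases (a := v.2) hL hδ.2 with h4 | h4
        · left; rw [← h2, h4]
        · right; rw [← h2, h4, Nat.add_sub_cancel]
    · rintro ⟨v, δ⟩ ha ⟨v', δ'⟩ ha' hvv
      rw [Finset.mem_coe, Finset.mem_filter, Finset.mem_product] at ha ha'
      obtain ⟨⟨hv, hδ⟩, hu⟩ := ha
      obtain ⟨⟨hv', hδ'⟩, hu'⟩ := ha'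
      simp only [Prod.mk.injEq] at hvv hu hu' hv hv'
      have h1 := hF3 v hv v' hv' hvv.1 hvv.2
      subst h1
      have h2 : (v.1 + δ.1, v.2 + δ.2) = (v.1 + δ'.1, v.2 + δ'.2) := by rw [hu, hu']
      simp only [Prod.mk.injEq, Nat.add_left_cancel_iff] at h2
      exact Prod.ext rfl (Prod.ext h2.1 h2.2)
  have hcR : ((F ×ˢ D).card : ℝ) ≤ 4 * t.card := by exact_mod_cast hcount
  have hFD : ((F ×ˢ D).card : ℝ) = (F.card : ℝ) * L ^ 2 := by
    rw [Finset.card_product, hD, Finset.card_product, Finset.card_range]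
    push_cast; ring
  rw [hFD] at hcR
  linarith

end Pool.Agent.Zk32
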