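import Mathlib
import Pool.Agent.N254.UD.Ball
import Pool.Agent.Zk32.Count2

set_option autoImplicit false

open MeasureTheory Finset

namespace Pool.Agent.Zk32

open Pool.Agent.R203.SC Pool.Agent.TH461.SST Pool.Agent.N254.UD

lemma log_pq {p q : ℕ} (hp : 2 ≤ p) (hq : 2 ≤ q) (i j : ℕ) :
    Real.log ((p ^ i * q ^ j : ℕ) : ℝ) = (i : ℝ) * Real.log p + (j : ℝ) * Real.log q := by
  push_cast
  rw [Real.log_mul (by positivity) (by positivity), Real.log_pow, Real.log_pow]

/-- integral of an indicator along the action -/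
lemma int_ind {p q : ℕ} {μ : Measure UnitAddCircle} [IsProbabilityMeasure μ]
    (hμp : MeasurePreserving (fun x : UnitAddCircle => p • x) μ μ)
    (hμq : MeasurePreserving (fun x : UnitAddCircle => q • x) μ μ) {E : Set UnitAddCircle}
    (hE : MeasurableSet E) (i j : ℕ) :
    Integrable (fun x => (E.indicator (fun _ => (1 : ℝ)) ((p ^ i * q ^ j) • x))) μ ∧
    ∫ x, (E.indicator (fun _ => (1 : ℝ)) ((p ^ i * q ^ j) • x)) ∂μ = μ.real E := by
  have hmp := mp_pow hμp hμq i j
  constructor
  · apply Integrable.of_bound (C := 1)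
    · exact ((measurable_const.indicator hE).comp hmp.measurable).aestronglyMeasurable
    · refine Filter.Eventually.of_forall fun x => ?_
      rw [Real.norm_of_nonneg (Set.indicator_nonneg (fun _ _ => zero_le_one) _)]
      exact Set.indicator_le_self' (fun _ _ => zero_le_one) _ |>.trans le_rfl
  · have e1 : ∫ x, (E.indicator (fun _ => (1 : ℝ)) ((p ^ i * q ^ j) • x)) ∂μ =
        ∫ x, E.indicator (fun _ => (1 : ℝ)) x ∂μ := by
      have h2 := integral_map (μ := μ) (φ := fun x : UnitAddCircle => (p ^ i * q ^ j) • x)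
        hmp.measurable.aemeasurable (f := E.indicator (fun _ => (1 : ℝ)))
        ((measurable_const.indicator hE).aestronglyMeasurable)
      rw [hmp.map_eq] at h2
      exact h2.symm
    rw [e1, integral_indicator hE]
    simp

/-- a maximal separated subset -/
lemma exists_sep {ι : Type*} [DecidableEq ι] (F : Finset ι) (y : ι → UnitAddCircle) (r : ℝ) :
    ∃ V ⊆ F, (∀ u ∈ V, ∀ v ∈ V, u ≠ v → r ≤ dist (y u) (y v)) ∧
      ∀ u ∈ F, u ∉ V → ∃ v ∈ V, dist (y u) (y v) < r := by
  classical
  set 𝒱 : Finset (Finset ι) := F.powerset.filter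
    (fun V => ∀ u ∈ V, ∀ v ∈ V, u ≠ v → r ≤ dist (y u) (y v)) with h𝒱
  have hne : 𝒱.Nonempty := ⟨∅, by rw [h𝒱, Finset.mem_filter]; simp⟩
  obtain ⟨V, hV, hmax⟩ := Finset.exists_max_image 𝒱 Finset.card hne
  rw [h𝒱, Finset.mem_filter, Finset.mem_powerset] at hV
  refine ⟨V, hV.1, hV.2, fun u hu huV => ?_⟩
  by_contra hcon
  push Not at hcon
  have h1 : insert u V ∈ 𝒱 := by
    rw [h𝒱, Finset.mem_filter, Finset.mem_powerset]
    refine ⟨Finset.insert_subset hu hV.1, fun a ha b hb hab => ?_⟩
    rcases Finset.mem_insert.1 ha with rfl | ha' <;> rcases Finset.mem_insert.1 hb with rfl | hb'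
    · exact absurd rfl hab
    · exact hcon b hb'
    · rw [dist_comm]; exact hcon a ha'
    · exact hV.2 a ha' b hb' hab
  have h2 := hmax _ h1
  rw [Finset.card_insert_of_notMem huV] at h2
  omega

/-- **The mass of small balls is smaller than `κ / T ^ 2`, for every `κ`.** -/
theorem ball2 {p q : ℕ} (hp : 2 ≤ p) (hq : 2 ≤ q) (hpq : Nat.Coprime p q) :
    ∃ c : ℝ, 0 < c ∧ c ≤ 1 / 2 ∧ ∀ A ε κ : ℝ, 1 ≤ A → 0 < ε → ε ≤ 1 → 0 < κ →
      ∃ T₀ : ℝ, ∀ T : ℝ, T₀ ≤ T →
      ∀ μ : Measure UnitAddCircle, IsProbabilityMeasure μ →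
      MeasurePreserving (fun x : UnitAddCircle => p • x) μ μ →
      MeasurePreserving (fun x : UnitAddCircle => q • x) μ μ →
        μ.real (heavy μ (κ / T ^ 2) (c * ε / A * T) A T) ≤ ε := by
  classical
  have hlp : 0 < Real.log p := Real.log_pos (by exact_mod_cast (by omega : 1 < p))
  have hlq : 0 < Real.log q := Real.log_pos (by exact_mod_cast (by omega : 1 < q))
  set lam : ℝ := Real.log p + Real.log q with hlam
  have hlam0 : 0 < lam := by positivity
  obtain ⟨c, hc, hme⟩ := measB hp hq hpq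
  obtain ⟨C, hC, hob⟩ := one_ball hp hq hpq (Main.cluster hp hq hpq)
  set c1 : ℝ := min (c / 8) (1 / 2) with hc1
  have hc10 : 0 < c1 := lt_min (by positivity) (by norm_num)
  have hc11 : c1 ≤ c / 8 := min_le_left _ _
  have hc12 : c1 ≤ 1 / 2 := min_le_right _ _
  refine ⟨c1, hc10, hc12, fun A ε κ hA hε hε1 hκ => ?_⟩
  have hA0 : 0 < A := by linarith
  set s : ℝ := c1 * ε / A with hs
  have hs0 : 0 < s := by positivity
  have hs1 : s ≤ 1 / 2 := by
    rw [hs, div_le_iff₀ hA0]
    nlinarith
  -- the number of blocks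
  obtain ⟨m, hm⟩ := exists_nat_ge (2048 * C * A * lam ^ 4 / (κ * ε * s ^ 3))
  have hm0 : (0 : ℝ) < m := lt_of_lt_of_le (by positivity) hm
  have hm1 : 1 ≤ m := by exact_mod_cast hm0
  obtain ⟨T₁, hT₁⟩ := hob A s m hA hs0 hs1
  obtain ⟨T₂, hT₂⟩ := hme (4 * A) (ε / 2) (by linarith) (by linarith)
  refine ⟨max (max T₁ (T₂ + 2)) (max 4 (2 * lam / s)), fun T hT μ hμ hμp hμq => ?_⟩
  have hTa : T₁ ≤ T := (le_max_left _ _).trans ((le_max_left _ _).trans hT)
  have hTb : T₂ + 2 ≤ T := (le_max_right _ _).trans ((le_max_left _ _).trans hT)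
  have hTc : 4 ≤ T := (le_max_left _ _).trans ((le_max_right _ _).trans hT)
  have hTd : 2 * lam / s ≤ T := (le_max_right _ _).trans ((le_max_right _ _).trans hT)
  have hT0 : 0 < T := by linarith
  have hl2 : Real.log 2 ≤ 1 := by
    have := Real.log_two_lt_d9; linarith
  have hl20 : 0 < Real.log 2 := Real.log_pos (by norm_num)
  set T' : ℝ := T - 2 * Real.log 2 with hT'
  have hT'2 : T / 2 ≤ T' := by rw [hT']; linarith
  have hexpT' : Real.exp (-T') = 4 * Real.exp (-T) := by
    rw [hT', show -(T - 2 * Real.log 2) = Real.log 2 + (Real.log 2 + -T) by ring, Real.exp_add,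
      Real.exp_add, Real.exp_log (by norm_num)]
    ring
  have hsh := hT₂ T' (by rw [hT']; linarith) μ hμ hμp hμq
  set E' := shell (c * (ε / 2) / (4 * A) * T') (Real.exp (-(4 * A * T'))) (Real.exp (-T')) with hE'
  have hE'm : MeasurableSet E' := (shell_closed _ _ _).measurableSet
  have hH : s * T / 2 ≤ c * (ε / 2) / (4 * A) * T' := by
    have h1 : c * (ε / 2) / (4 * A) * (T / 2) ≤ c * (ε / 2) / (4 * A) * T' :=
      mul_le_mul_of_nonneg_left hT'2 (by positivity)
    refine le_trans ?_ h1
    have e : c * (ε / 2) / (4 * A) * (T / 2) = (c / 8) * ε / A * T / 2 := by ring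
    rw [e, hs]
    gcongr
  -- the side of the blocks
  set L : ℕ := ⌊s * T / (2 * lam)⌋₊ with hL
  have hy1 : 1 ≤ s * T / (2 * lam) := by
    rw [div_le_iff₀ hs0] at hTd
    rw [le_div_iff₀ (by positivity)]
    linarith
  have hL1 : 1 ≤ L := Nat.floor_pos.2 hy1
  have hLle : (L : ℝ) ≤ s * T / (2 * lam) := Nat.floor_le (by positivity)
  have hLge : s * T / (4 * lam) ≤ L := by
    have h1 := (Nat.lt_floor_add_one (s * T / (2 * lam))).le
    have h2 : (1 : ℝ) ≤ L := by exact_mod_cast hL1
    have h3 : s * T / (4 * lam) = s * T / (2 * lam) / 2 := by field_simp; ring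
    rw [h3]
    linarith
  have hLlam : (L : ℝ) * (Real.log p + Real.log q) ≤ s * T / 2 := by
    have h1 := mul_le_mul_of_nonneg_right hLle hlam0.le
    have e : s * T / (2 * lam) * lam = s * T / 2 := by field_simp
    rw [← hlam]
    linarith
  have hLpos : (0 : ℝ) < L := by exact_mod_cast hL1
  set K : ℝ := κ / T ^ 2 with hK
  have hK0 : 0 < K := by positivity
  set S := heavy μ K (s * T) A T with hS
  have hSm : MeasurableSet S := heavy_meas μ K (s * T) A T
  set W : Finset (ℕ × ℕ) := Finset.range (m * L) ×ˢ Finset.range (m * L) with hW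
  set B₁ : ℝ := 2 * C * A * s * (m + 1) * T ^ 2 / L ^ 2 with hB₁
  have hB₁0 : 0 ≤ B₁ := by positivity
  -- the multipliers inside a block
  have hblk : ∀ i j : ℕ, i < L → j < L → ((p ^ i * q ^ j : ℕ) : ℝ) ≤ Real.exp (s * T / 2) := by
    intro i j hi hj
    rw [← Real.log_le_iff_le_exp (by positivity), log_pq hp hq]
    have h1 : (i : ℝ) ≤ L := by exact_mod_cast hi.le
    have h2 : (j : ℝ) ≤ L := by exact_mod_cast hj.le
    nlinarith
  -- the pointwise count
  have hpt : ∀ x, ∑ u ∈ W, (S.indicator (fun _ => (1 : ℝ)) ((p ^ u.1 * q ^ u.2) • x)) ≤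
      B₁ / K + ∑ u ∈ W, E'.indicator (fun _ => (1 : ℝ))
        ((p ^ (u.1 / L * L) * q ^ (u.2 / L * L)) • x) := by
    intro x
    set y : ℕ × ℕ → UnitAddCircle := fun u => (p ^ u.1 * q ^ u.2) • x with hy
    set F : Finset (ℕ × ℕ) := W.filter fun u => y u ∈ S ∧
      (p ^ (u.1 / L * L) * q ^ (u.2 / L * L)) • x ∉ E' with hF
    have e : ∑ u ∈ W, (S.indicator (fun _ => (1 : ℝ)) ((p ^ u.1 * q ^ u.2) • x)) ≤
        (F.card : ℝ) + ∑ u ∈ W, E'.indicator (fun _ => (1 : ℝ))
          ((p ^ (u.1 / L * L) * q ^ (u.2 / L * L)) • x) := by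
      have h1 : (F.card : ℝ) = ∑ u ∈ W, (if y u ∈ S ∧
          (p ^ (u.1 / L * L) * q ^ (u.2 / L * L)) • x ∉ E' then (1 : ℝ) else 0) := by
        rw [hF, Finset.card_filter]; push_cast; rfl
      rw [h1, ← Finset.sum_add_distrib]
      refine Finset.sum_le_sum fun u _ => ?_
      by_cases h2 : (p ^ u.1 * q ^ u.2) • x ∈ S
      · by_cases h3 : (p ^ (u.1 / L * L) * q ^ (u.2 / L * L)) • x ∈ E'
        · rw [Set.indicator_of_mem h2, Set.indicator_of_mem h3, if_neg (fun h => h.2 h3)]
          norm_num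
        · rw [Set.indicator_of_mem h2, Set.indicator_of_notMem h3, if_pos ⟨h2, h3⟩]
          norm_num
      · rw [Set.indicator_of_notMem h2]
        have h3 : 0 ≤ E'.indicator (fun _ => (1 : ℝ))
          ((p ^ (u.1 / L * L) * q ^ (u.2 / L * L)) • x) :=
          Set.indicator_nonneg (fun _ _ => zero_le_one) _
        split_ifs <;> linarith
    refine e.trans (add_le_add_left ?_ _)
    -- separated positions
    obtain ⟨V, hVF, hVsep, hVcov⟩ := exists_sep F y (2 * Real.exp (-T))
    have hVc : (V.card : ℝ) * K ≤ 1 := by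
      refine disj_balls μ V y (r := Real.exp (-T)) (fun u hu => ?_) hVsep
      have h1 := (Finset.mem_filter.1 (hVF hu)).2.1
      exact h1.1.le
    have hFsub : F ⊆ V.biUnion fun w => F.filter fun u => dist (y u) (y w) < 2 * Real.exp (-T) := by
      intro u hu
      rw [Finset.mem_biUnion]
      by_cases huV : u ∈ V
      · refine ⟨u, huV, ?_⟩
        rw [Finset.mem_filter, dist_self]
        exact ⟨hu, by positivity⟩
      · obtain ⟨v, hv, hd⟩ := hVcov u hu huV
        exact ⟨v, hv, Finset.mem_filter.2 ⟨hu, hd⟩⟩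
    have hone : ∀ w ∈ V, ((F.filter fun u => dist (y u) (y w) < 2 * Real.exp (-T)).card : ℝ) ≤
        B₁ := by
      intro w _
      rw [hB₁, le_div_iff₀ (by positivity)]
      refine hT₁ T hTa x (y w) L hL1 hLlam _ ?_ ?_ ?_ ?_
      · intro v hv
        have h1 := (Finset.mem_filter.1 (Finset.mem_filter.1 hv).1).1
        rw [hW, Finset.mem_product, Finset.mem_range, Finset.mem_range] at h1
        exact h1
      · intro v hv d hd1 hd2
        have h1 := (Finset.mem_filter.1 (Finset.mem_filter.1 hv).1).2.1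
        exact h1.2 d hd1 hd2
      · -- at most one position in every block
        have key : ∀ v v' : ℕ × ℕ, v ∈ F → v' ∈ F → dist (y v) (y w) < 2 * Real.exp (-T) →
            dist (y v') (y w) < 2 * Real.exp (-T) → v.1 / L = v'.1 / L → v.2 / L = v'.2 / L →
            ¬ p ^ (v.1 % L) * q ^ (v.2 % L) < p ^ (v'.1 % L) * q ^ (v'.2 % L) := by
          intro v v' hv hv' hd hd' hb1 hb2 hlt
          have hvS := (Finset.mem_filter.1 hv).2.1
          have hvE := (Finset.mem_filter.1 hv).2.2
          set g := (p ^ (v.1 / L * L) * q ^ (v.2 / L * L)) • x with hg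
          have r1 : v.1 / L * L + v.1 % L = v.1 := by rw [mul_comm]; exact Nat.div_add_mod _ _
          have r2 : v.2 / L * L + v.2 % L = v.2 := by rw [mul_comm]; exact Nat.div_add_mod _ _
          have r3 : v.1 / L * L + v'.1 % L = v'.1 := by
            rw [hb1, mul_comm]; exact Nat.div_add_mod _ _
          have r4 : v.2 / L * L + v'.2 % L = v'.2 := by
            rw [hb2, mul_comm]; exact Nat.div_add_mod _ _
          have ev : y v = (p ^ (v.1 % L) * q ^ (v.2 % L)) • g := by
            rw [hy, hg, smul_smul]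
            simp only
            congr 1
            conv_lhs => rw [← r1, ← r2, pow_add, pow_add]
            ring
          have ev' : y v' = (p ^ (v'.1 % L) * q ^ (v'.2 % L)) • g := by
            rw [hy, hg, smul_smul]
            simp only
            congr 1
            conv_lhs => rw [← r3, ← r4, pow_add, pow_add]
            ring
          set a : ℕ := p ^ (v.1 % L) * q ^ (v.2 % L) with ha
          set b : ℕ := p ^ (v'.1 % L) * q ^ (v'.2 % L) with hb
          set d : ℕ := b - a with hdd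
          have hd1 : 1 ≤ d := by omega
          have hdx : b • g - a • g = d • g := by
            rw [hdd, sub_nsmul _ hlt.le]
            abel
          have hbe : (b : ℝ) ≤ Real.exp (s * T / 2) :=
            hblk _ _ (Nat.mod_lt _ (by omega)) (Nat.mod_lt _ (by omega))
          have hae : (a : ℝ) ≤ Real.exp (s * T / 2) :=
            hblk _ _ (Nat.mod_lt _ (by omega)) (Nat.mod_lt _ (by omega))
          have hde : (d : ℝ) ≤ Real.exp (s * T / 2) := by
            refine le_trans ?_ hbe
            exact_mod_cast Nat.sub_le _ _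
          have h1 : ‖d • g‖ ≤ Real.exp (-T') := by
            rw [← hdx, ← ev, ← ev', hexpT', ← dist_eq_norm]
            have := dist_triangle_right (y v') (y v) (y w)
            linarith
          have h2 : ‖d • g‖ < Real.exp (-(4 * A * T')) := by
            by_contra h3
            push Not at h3
            exact hvE ⟨d, hd1, hde.trans (Real.exp_le_exp.2 hH), h3, h1⟩
          have h3 := hvS.2 d hd1 (hde.trans (Real.exp_le_exp.2 (by nlinarith)))
          have h4 : ‖d • y v‖ ≤ (a : ℝ) * ‖d • g‖ := by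
            rw [ev, smul_comm]
            exact norm_nsmul_le' _ _
          have h5 : (a : ℝ) * ‖d • g‖ ≤ Real.exp (s * T / 2) * Real.exp (-(4 * A * T')) :=
            mul_le_mul hae h2.le (norm_nonneg _) (Real.exp_pos _).le
          rw [← Real.exp_add] at h5
          have h6 : Real.exp (s * T / 2 + -(4 * A * T')) < Real.exp (-(A * T)) := by
            apply Real.exp_lt_exp.2
            have h7 : 4 * A * (T / 2) ≤ 4 * A * T' := mul_le_mul_of_nonneg_left hT'2 (by positivity)
            have h8 : s * T ≤ A * T := mul_le_mul_of_nonneg_right (by linarith) (by linarith)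
            have h9 : 0 < A * T := by positivity
            linarith
          linarith
        intro v hv v' hv' hb1 hb2
        obtain ⟨hvF, hvd⟩ := Finset.mem_filter.1 hv
        obtain ⟨hvF', hvd'⟩ := Finset.mem_filter.1 hv'
        have k1 := key v v' hvF hvF' hvd hvd' hb1 hb2
        have k2 := key v' v hvF' hvF hvd' hvd hb1.symm hb2.symm
        have k3 : p ^ (v.1 % L) * q ^ (v.2 % L) = p ^ (v'.1 % L) * q ^ (v'.2 % L) := by omega
        have k4 := pow_inj hp hq hpq (u := (v.1 % L, v.2 % L)) (v := (v'.1 % L, v'.2 % L)) k3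
        simp only [Prod.mk.injEq] at k4
        have r1 := Nat.div_add_mod v.1 L
        have r2 := Nat.div_add_mod v.2 L
        have r3 := Nat.div_add_mod v'.1 L
        have r4 := Nat.div_add_mod v'.2 L
        rw [hb1, k4.1, r3] at r1
        rw [hb2, k4.2, r4] at r2
        exact Prod.ext r1.symm r2.symm
      · intro v hv
        have h1 := (Finset.mem_filter.1 hv).2
        rw [dist_eq_norm] at h1
        exact h1.le
    calc (F.card : ℝ) ≤ ((V.biUnion fun w => F.filter fun u =>
          dist (y u) (y w) < 2 * Real.exp (-T)).card : ℝ) := by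
          exact_mod_cast Finset.card_le_card hFsub
      _ ≤ ∑ w ∈ V, ((F.filter fun u => dist (y u) (y w) < 2 * Real.exp (-T)).card : ℝ) := by
          exact_mod_cast Finset.card_biUnion_le
      _ ≤ ∑ _w ∈ V, B₁ := Finset.sum_le_sum hone
      _ = V.card * B₁ := by rw [Finset.sum_const, nsmul_eq_mul]
      _ ≤ B₁ / K := by
          rw [le_div_iff₀ hK0]
          calc (V.card : ℝ) * B₁ * K = (V.card * K) * B₁ := by ring
            _ ≤ 1 * B₁ := mul_le_mul_of_nonneg_right hVc hB₁0
            _ = B₁ := one_mul _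
  have hint : Integrable (fun x => B₁ / K + ∑ u ∈ W, E'.indicator (fun _ => (1 : ℝ))
        ((p ^ (u.1 / L * L) * q ^ (u.2 / L * L)) • x)) μ :=
    (integrable_const _).add (integrable_finsetSum _ fun u _ => (int_ind hμp hμq hE'm _ _).1)
  have h1 := avg hμp hμq hSm W hint hpt
  have h2 : ∫ x, (B₁ / K + ∑ u ∈ W, E'.indicator (fun _ => (1 : ℝ))
        ((p ^ (u.1 / L * L) * q ^ (u.2 / L * L)) • x)) ∂μ = B₁ / K + W.card * μ.real E' := by
    rw [integral_add (integrable_const _)
      (integrable_finsetSum _ fun u _ => (int_ind hμp hμq hE'm _ _).1), integral_const,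
      probReal_univ, one_smul, integral_finsetSum _ fun u _ => (int_ind hμp hμq hE'm _ _).1]
    congr 1
    rw [Finset.sum_congr rfl fun u _ => (int_ind hμp hμq hE'm _ _).2, Finset.sum_const,
      nsmul_eq_mul]
  rw [h2] at h1
  have hWc : (W.card : ℝ) = (m * L : ℝ) ^ 2 := by
    rw [hW, Finset.card_product, Finset.card_range]; push_cast; ring
  have hW0 : (0 : ℝ) < W.card := by rw [hWc]; positivity
  have h3 : B₁ / K ≤ (W.card : ℝ) * (ε / 2) := by
    rw [hWc, hB₁, hK]
    have hLsq : s ^ 2 * T ^ 2 / (16 * lam ^ 2) ≤ (L : ℝ) ^ 2 := by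
      have := pow_le_pow_left₀ (by positivity) hLge 2
      refine le_trans (le_of_eq ?_) this
      field_simp; ring
    have hL4 : s ^ 4 * T ^ 4 / (256 * lam ^ 4) ≤ (L : ℝ) ^ 4 := by
      have := pow_le_pow_left₀ (by positivity) hLge 4
      refine le_trans (le_of_eq ?_) this
      field_simp; ring
    have hmm : (m : ℝ) + 1 ≤ 2 * m := by
      have : (1 : ℝ) ≤ m := by exact_mod_cast hm1
      linarith
    rw [div_div_eq_mul_div, div_le_iff₀ hκ, div_mul_eq_mul_div, div_le_iff₀ (by positivity)]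
    have hmk : 2048 * C * A * lam ^ 4 ≤ m * (κ * ε * s ^ 3) := by
      rw [div_le_iff₀ (by positivity)] at hm; exact hm
    calc 2 * C * A * s * (m + 1) * T ^ 2 * T ^ 2 ≤ 2 * C * A * s * (2 * m) * T ^ 2 * T ^ 2 := by
          gcongr
      _ = (2048 * C * A * lam ^ 4) * (m * s * T ^ 4 / (512 * lam ^ 4)) := by
          field_simp; ring
      _ ≤ (m * (κ * ε * s ^ 3)) * (m * s * T ^ 4 / (512 * lam ^ 4)) :=
          mul_le_mul_of_nonneg_right hmk (by positivity)
      _ = m ^ 2 * (ε / 2) * κ * (s ^ 4 * T ^ 4 / (256 * lam ^ 4)) := by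
          field_simp; ring
      _ ≤ m ^ 2 * (ε / 2) * κ * (L : ℝ) ^ 4 := by gcongr
      _ = (m * L : ℝ) ^ 2 * (ε / 2) * κ * (L : ℝ) ^ 2 := by ring
  have h4 : (W.card : ℝ) * μ.real E' ≤ (W.card : ℝ) * (ε / 2) :=
    mul_le_mul_of_nonneg_left hsh hW0.le
  have h5 : (W.card : ℝ) * μ.real S ≤ (W.card : ℝ) * ε := by
    have : (W.card : ℝ) * ε = (W.card : ℝ) * (ε / 2) + (W.card : ℝ) * (ε / 2) := by ring
    linarith
  exact le_of_mul_le_mul_left h5 hW0

end Pool.Agent.Zk32
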