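import Mathlib
import Pool.Agent.N254.UD.Ball
import Pool.Agent.Zk32.Count2
import Pool.Agent.Zk32.Ball2

set_option autoImplicit false

open MeasureTheory Finset

namespace Pool.Agent.Zk32

open Pool.Agent.R203.SC Pool.Agent.TH461.SST Pool.Agent.N254.UD

/-- **Every centre.** -/
theorem ball_all {p q : ℕ} (hp : 2 ≤ p) (hq : 2 ≤ q) (hpq : Nat.Coprime p q) {s κ : ℝ}
    (hs0 : 0 < s) (hs1 : s ≤ 1 / 2) (hκ : 0 < κ) :
    ∃ T₀ : ℝ, ∀ T : ℝ, T₀ ≤ T → ∀ μ : Measure UnitAddCircle, IsProbabilityMeasure μ →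
      MeasurePreserving (fun x : UnitAddCircle => p • x) μ μ →
      MeasurePreserving (fun x : UnitAddCircle => q • x) μ μ →
      ∀ w : UnitAddCircle, (∀ d : ℕ, 1 ≤ d → (d : ℝ) ≤ Real.exp (s * T) →
        Real.exp (-((1 - s) * T)) ≤ ‖d • w‖) →
        μ.real (Metric.ball w (Real.exp (-T))) ≤ κ / T ^ 2 := by
  classical
  have hlp : 0 < Real.log p := Real.log_pos (by exact_mod_cast (by omega : 1 < p))
  have hlq : 0 < Real.log q := Real.log_pos (by exact_mod_cast (by omega : 1 < q))
  set lam : ℝ := Real.log p + Real.log q with hlam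
  have hlam0 : 0 < lam := by positivity
  obtain ⟨C, hC, hob⟩ := one_ball hp hq hpq (Main.cluster hp hq hpq)
  set σ : ℝ := s / 2 with hσ
  have hσ0 : 0 < σ := by positivity
  have hσ1 : σ ≤ 1 / 2 := by rw [hσ]; linarith
  -- the number of blocks
  obtain ⟨m, hm⟩ := exists_nat_ge (1024 * C * lam ^ 4 / (κ * σ ^ 3))
  have hm0 : (0 : ℝ) < m := lt_of_lt_of_le (by positivity) hm
  have hm1 : 1 ≤ m := by exact_mod_cast hm0
  obtain ⟨T₁, hT₁⟩ := hob 1 σ m le_rfl hσ0 hσ1
  refine ⟨max T₁ (max (4 / s) (2 * lam / σ)), fun T hT μ hμ hμp hμq w hw => ?_⟩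
  have hTa : T₁ ≤ T := (le_max_left _ _).trans hT
  have hTc : 4 / s ≤ T := (le_max_left _ _).trans ((le_max_right _ _).trans hT)
  have hTd : 2 * lam / σ ≤ T := (le_max_right _ _).trans ((le_max_right _ _).trans hT)
  have hT0 : 0 < T := lt_of_lt_of_le (by positivity) hTc
  have hsT : 4 ≤ s * T := by
    rw [div_le_iff₀ hs0] at hTc; linarith
  have hσT : σ * T = s * T / 2 := by rw [hσ]; ring
  -- numerical facts
  have he2 : (3 : ℝ) ≤ Real.exp (s * T / 2) := by
    have := Real.add_one_le_exp (s * T / 2)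
    linarith
  have hes : Real.exp (s * T) = Real.exp (s * T / 2) * Real.exp (s * T / 2) := by
    rw [← Real.exp_add]; congr 1; ring
  have hew : Real.exp (-((1 - s) * T)) = Real.exp (s * T) * Real.exp (-T) := by
    rw [← Real.exp_add]; congr 1; ring
  have heT := Real.exp_pos (-T)
  -- the side of the blocks
  set L : ℕ := ⌊σ * T / (2 * lam)⌋₊ with hL
  have hy1 : 1 ≤ σ * T / (2 * lam) := by
    rw [div_le_iff₀ hσ0] at hTd
    rw [le_div_iff₀ (by positivity)]
    linarith
  have hL1 : 1 ≤ L := Nat.floor_pos.2 hy1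
  have hLle : (L : ℝ) ≤ σ * T / (2 * lam) := Nat.floor_le (by positivity)
  have hLge : σ * T / (4 * lam) ≤ L := by
    have h1 := (Nat.lt_floor_add_one (σ * T / (2 * lam))).le
    have h2 : (1 : ℝ) ≤ L := by exact_mod_cast hL1
    have h3 : σ * T / (4 * lam) = σ * T / (2 * lam) / 2 := by field_simp; ring
    rw [h3]
    linarith
  have hLlam : (L : ℝ) * (Real.log p + Real.log q) ≤ σ * T / 2 := by
    have h1 := mul_le_mul_of_nonneg_right hLle hlam0.le
    have e : σ * T / (2 * lam) * lam = σ * T / 2 := by field_simp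
    rw [← hlam]
    linarith
  have hLpos : (0 : ℝ) < L := by exact_mod_cast hL1
  set W : Finset (ℕ × ℕ) := Finset.range (m * L) ×ˢ Finset.range (m * L) with hW
  have hWc : (W.card : ℝ) = (m * L : ℝ) ^ 2 := by
    rw [hW, Finset.card_product, Finset.card_range]; push_cast; ring
  have hW0 : (0 : ℝ) < W.card := by rw [hWc]; positivity
  set B₁ : ℝ := 2 * C * 1 * σ * (m + 1) * T ^ 2 / L ^ 2 with hB₁
  set S := Metric.ball w (Real.exp (-T)) with hS
  -- the multipliers inside a block
  have hblk : ∀ i j : ℕ, i < L → j < L → ((p ^ i * q ^ j : ℕ) : ℝ) ≤ Real.exp (s * T / 2) := by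
    intro i j hi hj
    rw [← Real.log_le_iff_le_exp (by positivity), log_pq hp hq]
    have h1 : (i : ℝ) ≤ L := by exact_mod_cast hi.le
    have h2 : (j : ℝ) ≤ L := by exact_mod_cast hj.le
    nlinarith
  -- the pointwise count
  have hpt : ∀ x, ∑ u ∈ W, (S.indicator (fun _ => (1 : ℝ)) ((p ^ u.1 * q ^ u.2) • x)) ≤ B₁ := by
    intro x
    set y : ℕ × ℕ → UnitAddCircle := fun u => (p ^ u.1 * q ^ u.2) • x with hy
    set F : Finset (ℕ × ℕ) := W.filter fun u => y u ∈ S with hF
    have e : ∑ u ∈ W, (S.indicator (fun _ => (1 : ℝ)) ((p ^ u.1 * q ^ u.2) • x)) = (F.card : ℝ) := by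
      rw [hF, Finset.card_filter]
      push_cast
      exact Finset.sum_congr rfl fun u _ => by rw [Set.indicator_apply]
    rw [e, hB₁, le_div_iff₀ (by positivity)]
    have hnear : ∀ v ∈ F, ‖y v - w‖ < Real.exp (-T) := by
      intro v hv
      have h1 := (Finset.mem_filter.1 hv).2
      rw [hS, Metric.mem_ball, dist_eq_norm] at h1
      exact h1
    refine hT₁ T hTa x w L hL1 hLlam F ?_ ?_ ?_ ?_
    · intro v hv
      have h1 := (Finset.mem_filter.1 hv).1
      rw [hW, Finset.mem_product, Finset.mem_range, Finset.mem_range] at h1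
      exact h1
    · intro v hv d hd1 hd2
      rw [hσT] at hd2
      have h1 := hw d hd1 (hd2.trans (Real.exp_le_exp.2 (by linarith)))
      have h2 := hnear v hv
      have h3 : d • w = d • y v - d • (y v - w) := by rw [← smul_sub, sub_sub_cancel]
      have h4 : ‖d • w‖ ≤ ‖d • y v‖ + ‖d • (y v - w)‖ := by rw [h3]; exact norm_sub_le _ _
      have h5 : ‖d • (y v - w)‖ ≤ d * ‖y v - w‖ := norm_nsmul_le
      have h6 : (d : ℝ) * ‖y v - w‖ ≤ Real.exp (s * T / 2) * Real.exp (-T) :=
        mul_le_mul hd2 h2.le (norm_nonneg _) (Real.exp_pos _).le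
      rw [hew, hes] at h1
      rw [one_mul]
      have h7 : Real.exp (-T) ≤ (Real.exp (s * T / 2) * Real.exp (s * T / 2) -
          Real.exp (s * T / 2)) * Real.exp (-T) := by
        have : (1 : ℝ) ≤ Real.exp (s * T / 2) * Real.exp (s * T / 2) - Real.exp (s * T / 2) := by
          nlinarith
        nlinarith
      change Real.exp (-T) ≤ ‖d • y v‖
      linarith
    · -- at most one position in every block
      have key : ∀ v v' : ℕ × ℕ, v ∈ F → v' ∈ F → v.1 / L = v'.1 / L → v.2 / L = v'.2 / L →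
          ¬ p ^ (v.1 % L) * q ^ (v.2 % L) < p ^ (v'.1 % L) * q ^ (v'.2 % L) := by
        intro v v' hv hv' hb1 hb2 hlt
        have hn := hnear v hv
        have hn' := hnear v' hv'
        set g := (p ^ (v.1 / L * L) * q ^ (v.2 / L * L)) • x with hg
        have r1 : v.1 / L * L + v.1 % L = v.1 := by rw [mul_comm]; exact Nat.div_add_mod _ _
        have r2 : v.2 / L * L + v.2 % L = v.2 := by rw [mul_comm]; exact Nat.div_add_mod _ _
        have r3 : v.1 / L * L + v'.1 % L = v'.1 := by
          rw [hb1, mul_comm]; exact Nat.div_add_mod _ _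
        have r4 : v.2 / L * L + v'.2 % L = v'.2 := by
          rw [hb2, mul_comm]; exact Nat.div_add_mod _ _
        have ev : y v = (p ^ (v.1 % L) * q ^ (v.2 % L)) • g := by
          rw [hy, hg, smul_smul]
          simp only
          congr 1
          conv_lhs => rw [← r1, ← r2, pow_add, pow_add]
          ring
        have ev' : y v' = (p ^ (v'.1 % L) * q ^ (v'.2 % L)) • g := by
          rw [hy, hg, smul_smul]
          simp only
          congr 1
          conv_lhs => rw [← r3, ← r4, pow_add, pow_add]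
          ring
        set a : ℕ := p ^ (v.1 % L) * q ^ (v.2 % L) with ha
        set b : ℕ := p ^ (v'.1 % L) * q ^ (v'.2 % L) with hb
        set d : ℕ := b - a with hdd
        have hd1 : 1 ≤ d := by omega
        have hdx : b • g - a • g = d • g := by
          rw [hdd, sub_nsmul _ hlt.le]
          abel
        have hbe : (b : ℝ) ≤ Real.exp (s * T / 2) :=
          hblk _ _ (Nat.mod_lt _ (by omega)) (Nat.mod_lt _ (by omega))
        have hae : (a : ℝ) ≤ Real.exp (s * T / 2) :=
          hblk _ _ (Nat.mod_lt _ (by omega)) (Nat.mod_lt _ (by omega))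
        have hde : (d : ℝ) ≤ Real.exp (s * T / 2) := by
          refine le_trans ?_ hbe
          exact_mod_cast Nat.sub_le _ _
        have h1 : ‖d • g‖ ≤ 2 * Real.exp (-T) := by
          rw [← hdx, ← ev, ← ev']
          have h2 : y v' - y v = (y v' - w) - (y v - w) := by abel
          rw [h2]
          have := norm_sub_le (y v' - w) (y v - w)
          linarith
        have h3 := hw d hd1 (hde.trans (Real.exp_le_exp.2 (by linarith)))
        have h4 : d • w = a • (d • g) - d • (y v - w) := by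
          rw [smul_sub, ev, smul_comm a d g, sub_sub_cancel]
        have h5 : ‖d • w‖ ≤ a * ‖d • g‖ + d * ‖y v - w‖ := by
          rw [h4]
          refine (norm_sub_le _ _).trans (add_le_add norm_nsmul_le norm_nsmul_le)
        have h6 : (a : ℝ) * ‖d • g‖ ≤ Real.exp (s * T / 2) * (2 * Real.exp (-T)) :=
          mul_le_mul hae h1 (norm_nonneg _) (Real.exp_pos _).le
        have h7 : (d : ℝ) * ‖y v - w‖ ≤ Real.exp (s * T / 2) * Real.exp (-T) :=
          mul_le_mul hde hn.le (norm_nonneg _) (Real.exp_pos _).le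
        have h7' : (d : ℝ) * ‖y v - w‖ < Real.exp (s * T / 2) * Real.exp (-T) := by
          have hdpos : (0 : ℝ) < d := by exact_mod_cast hd1
          calc (d : ℝ) * ‖y v - w‖ < d * Real.exp (-T) := mul_lt_mul_of_pos_left hn hdpos
            _ ≤ _ := mul_le_mul_of_nonneg_right hde heT.le
        rw [hew, hes] at h3
        have h8 : 3 * (Real.exp (s * T / 2) * Real.exp (-T)) ≤
            Real.exp (s * T / 2) * Real.exp (s * T / 2) * Real.exp (-T) := by
          have : 0 < Real.exp (s * T / 2) * Real.exp (-T) := by positivity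
          nlinarith
        linarith
      intro v hv v' hv' hb1 hb2
      have k1 := key v v' hv hv' hb1 hb2
      have k2 := key v' v hv' hv hb1.symm hb2.symm
      have k3 : p ^ (v.1 % L) * q ^ (v.2 % L) = p ^ (v'.1 % L) * q ^ (v'.2 % L) := by omega
      have k4 := pow_inj hp hq hpq (u := (v.1 % L, v.2 % L)) (v := (v'.1 % L, v'.2 % L)) k3
      simp only [Prod.mk.injEq] at k4
      have r1 := Nat.div_add_mod v.1 L
      have r2 := Nat.div_add_mod v.2 L
      have r3 := Nat.div_add_mod v'.1 L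
      have r4 := Nat.div_add_mod v'.2 L
      rw [hb1, k4.1, r3] at r1
      rw [hb2, k4.2, r4] at r2
      exact Prod.ext r1.symm r2.symm
    · intro v hv
      have h1 := hnear v hv
      change ‖y v - w‖ ≤ _
      linarith
  have h1 := avg hμp hμq Metric.isOpen_ball.measurableSet W (g := fun _ => B₁) (E := S)
    (integrable_const _) hpt
  rw [integral_const, probReal_univ, one_smul] at h1
  have h3 : B₁ ≤ (W.card : ℝ) * (κ / T ^ 2) := by
    rw [hWc, hB₁]
    have hL4 : σ ^ 4 * T ^ 4 / (256 * lam ^ 4) ≤ (L : ℝ) ^ 4 := by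
      have := pow_le_pow_left₀ (by positivity) hLge 4
      refine le_trans (le_of_eq ?_) this
      field_simp; ring
    have hmm : (m : ℝ) + 1 ≤ 2 * m := by
      have : (1 : ℝ) ≤ m := by exact_mod_cast hm1
      linarith
    rw [show (m * L : ℝ) ^ 2 * (κ / T ^ 2) = (m * L : ℝ) ^ 2 * κ / T ^ 2 by ring,
      div_le_div_iff₀ (by positivity) (by positivity)]
    have hmk : 1024 * C * lam ^ 4 ≤ m * (κ * σ ^ 3) := by
      rw [div_le_iff₀ (by positivity)] at hm; exact hm
    calc 2 * C * 1 * σ * (m + 1) * T ^ 2 * T ^ 2 ≤ 2 * C * 1 * σ * (2 * m) * T ^ 2 * T ^ 2 := by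
          gcongr
      _ = (1024 * C * lam ^ 4) * (m * σ * T ^ 4 / (256 * lam ^ 4)) := by
          field_simp; ring
      _ ≤ (m * (κ * σ ^ 3)) * (m * σ * T ^ 4 / (256 * lam ^ 4)) :=
          mul_le_mul_of_nonneg_right hmk (by positivity)
      _ = m ^ 2 * κ * (σ ^ 4 * T ^ 4 / (256 * lam ^ 4)) := by
          field_simp
      _ ≤ m ^ 2 * κ * (L : ℝ) ^ 4 := by gcongr
      _ = (m * L : ℝ) ^ 2 * κ * (L : ℝ) ^ 2 := by ring
  exact le_of_mul_le_mul_left (h1.trans h3) hW0

end Pool.Agent.Zk32
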