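import Mathlib
import Pool.Agent.Zk32.Extra
import Pool.Agent.R202.Rot

set_option autoImplicit false

open MeasureTheory Filter Topology Set
open scoped ENNReal BoundedContinuousFunction NNReal

namespace Pool.Agent.Zk32

/-- limits along an ultrafilter -/
lemma exists_lim (𝒰 : Ultrafilter ℕ) (κ : ℕ → ProbabilityMeasure UnitAddCircle) :
    ∃ κ' : ProbabilityMeasure UnitAddCircle,
      (∀ g : C(UnitAddCircle, ℝ), Tendsto (fun k => ∫ x, g x ∂(κ k : Measure UnitAddCircle))
        (𝒰 : Filter ℕ) (𝓝 (∫ x, g x ∂(κ' : Measure UnitAddCircle)))) ∧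
      (∀ g : C(UnitAddCircle, ℂ), Tendsto (fun k => ∫ x, g x ∂(κ k : Measure UnitAddCircle))
        (𝒰 : Filter ℕ) (𝓝 (∫ x, g x ∂(κ' : Measure UnitAddCircle)))) := by
  obtain ⟨κ', -, hκ'⟩ := (isCompact_univ (X := ProbabilityMeasure UnitAddCircle)).ultrafilter_le_nhds
    (𝒰.map κ) (by simp)
  have h1 : Tendsto κ (𝒰 : Filter ℕ) (𝓝 κ') := hκ'
  refine ⟨κ', fun g => ?_, fun g => ?_⟩
  · exact (ProbabilityMeasure.tendsto_iff_forall_integral_tendsto.mp h1)
      (BoundedContinuousFunction.mkOfCompact g)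
  · exact (ProbabilityMeasure.tendsto_iff_forall_integral_rclike_tendsto ℂ).mp h1
      (BoundedContinuousFunction.mkOfCompact g)

/-- the coefficients of the law of a sum -/
lemma coef_law (μ ω : Measure UnitAddCircle) [IsProbabilityMeasure μ] [IsProbabilityMeasure ω]
    (c₁ c₂ m : ℤ) :
    ∫ x, (fourier m x : ℂ) ∂(((lin μ c₁ c₂).prod ω).map
      (fun z : UnitAddCircle × UnitAddCircle => z.1 + z.2)) =
    (∫ x, (fourier (m * c₁) x : ℂ) ∂μ) * (∫ x, (fourier (m * c₂) x : ℂ) ∂μ) *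
      ∫ x, (fourier m x : ℂ) ∂ω := by
  have hadd : Measurable (fun z : UnitAddCircle × UnitAddCircle => z.1 + z.2) :=
    measurable_fst.add measurable_snd
  rw [integral_map hadd.aemeasurable (fou_meas m).aestronglyMeasurable]
  simp only [fou_add']
  rw [integral_prod_mul (fun x : UnitAddCircle => (fourier m x : ℂ))
    (fun x : UnitAddCircle => (fourier m x : ℂ)), lin,
    integral_map (lin_meas c₁ c₂).aemeasurable (fou_meas m).aestronglyMeasurable]
  simp only [fou_add', fou_smul]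
  rw [integral_prod_mul (fun x : UnitAddCircle => (fourier (c₁ * m) x : ℂ))
    (fun x : UnitAddCircle => (fourier (c₂ * m) x : ℂ)), mul_comm c₁, mul_comm c₂]

open Classical in
/-- **Extra multipliers.** -/
theorem extra_main {p q : ℕ} (hp : 2 ≤ p) {μ : Measure UnitAddCircle} [IsProbabilityMeasure μ]
    (hμp : MeasurePreserving (fun x : UnitAddCircle => p • x) μ μ)
    (hμq : MeasurePreserving (fun x : UnitAddCircle => q • x) μ μ)
    (hJ : ∀ E : Set UnitAddCircle, MeasurableSet E →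
      (fun x : UnitAddCircle => p • x) ⁻¹' E = E → (fun x : UnitAddCircle => q • x) ⁻¹' E = E →
        μ E = 0 ∨ μ E = 1)
    (hat : ∀ x : UnitAddCircle, μ {x} = 0) (hvol : μ ≠ volume)
    {c₁ c₂ : ℤ} (hc₁ : c₁ ≠ 0) (hc₂ : c₂ ≠ 0) {ε : ℝ} (hε : 0 < ε) :
    ∃ N₀ : ℕ, ∀ (r : ℤ) (α N : Fin 4 → ℕ), (∀ i, 1 ≤ N i) → Big4 N₀ r N →
      (((boxQ N).filter (fun v =>
        ¬ (img μ (mlt p q c₁ c₂ r α v)).MutuallySingular μ)).card : ℝ) ≤ ε * (boxQ N).card := by
  have hJ' : JE (fun x : UnitAddCircle => p • x) (fun x : UnitAddCircle => q • x) μ := hJ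
  by_contra hcon
  push Not at hcon
  choose r α N hN1 hNb hbad using hcon
  have hne : ∀ k, (boxQ (N k)).Nonempty := by
    intro k
    refine ⟨((0, 0), (0, 0)), ?_⟩
    have h0 := hN1 k 0
    have h1 := hN1 k 1
    have h2 := hN1 k 2
    have h3 := hN1 k 3
    simp only [boxQ, Finset.mem_product, Finset.mem_range]
    omega
  choose M hMr hMc using fun k => exists_avg μ (boxQ (N k)) (hne k)
    (mlt p q c₁ c₂ (r k) (α k))
  set 𝒰 : Ultrafilter ℕ := Filter.hyperfilter ℕ with h𝒰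
  have hUtop : (𝒰 : Filter ℕ) ≤ atTop := by
    rw [← Nat.cofinite_eq_atTop]; exact Filter.hyperfilter_le_cofinite
  obtain ⟨κ, hκr, hκc⟩ := exists_lim 𝒰 M
  obtain ⟨ω, -, hωc⟩ := exists_lim 𝒰 (fun k => ⟨img μ (r k), img_prob μ (r k)⟩)
  -- the limit is a convolution
  have hlaw : (κ : Measure UnitAddCircle) = (((lin μ c₁ c₂).prod (ω : Measure UnitAddCircle)).map
      (fun z : UnitAddCircle × UnitAddCircle => z.1 + z.2)) := by
    have hadd : Measurable (fun z : UnitAddCircle × UnitAddCircle => z.1 + z.2) :=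
      measurable_fst.add measurable_snd
    have : IsProbabilityMeasure (((lin μ c₁ c₂).prod (ω : Measure UnitAddCircle)).map
      (fun z : UnitAddCircle × UnitAddCircle => z.1 + z.2)) :=
      Measure.isProbabilityMeasure_map hadd.aemeasurable
    refine Pool.Agent.R202.ext_fourier fun m => ?_
    rw [coef_law]
    have h1 := hκc (fourier m)
    have h2 : Tendsto (fun k => (∫ x, (fourier (m * c₁) x : ℂ) ∂μ) *
        (∫ x, (fourier (m * c₂) x : ℂ) ∂μ) * ∫ x, (fourier (m * r k) x : ℂ) ∂μ) (𝒰 : Filter ℕ)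
        (𝓝 ((∫ x, (fourier (m * c₁) x : ℂ) ∂μ) * (∫ x, (fourier (m * c₂) x : ℂ) ∂μ) *
          ∫ x, (fourier m x : ℂ) ∂(ω : Measure UnitAddCircle))) := by
      refine Tendsto.const_mul _ ?_
      refine (hωc (fourier m)).congr fun k => ?_
      change ∫ x, (fourier m x : ℂ) ∂(img μ (r k)) = _
      rw [img, integral_map (zsmul_meas _).aemeasurable (fou_meas m).aestronglyMeasurable]
      congr 1; funext x
      rw [fou_smul, mul_comm]
    have h3 : Tendsto (fun k => ∫ x, (fourier m x : ℂ) ∂(M k : Measure UnitAddCircle) -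
        (∫ x, (fourier (m * c₁) x : ℂ) ∂μ) * (∫ x, (fourier (m * c₂) x : ℂ) ∂μ) *
          ∫ x, (fourier (m * r k) x : ℂ) ∂μ) (𝒰 : Filter ℕ) (𝓝 0) := by
      refine Tendsto.mono_left ?_ hUtop
      rw [Metric.tendsto_atTop]
      intro η hη
      obtain ⟨n₀, hn₀⟩ := coef_lim hJ' hμp hμq c₁ c₂ m (half_pos hη)
      refine ⟨n₀, fun k hk => ?_⟩
      rw [dist_zero_right, hMc]
      exact (hn₀ (r k) (α k) (N k) (hN1 k) ((hNb k).mono hk)).trans_lt (half_lt_self hη)
    have h4 := h3.add h2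
    rw [zero_add] at h4
    refine tendsto_nhds_unique h1 (h4.congr fun k => ?_)
    ring
  -- the limit dominates `ε μ`
  have hdom : ∀ g : C(UnitAddCircle, ℝ), (∀ x, 0 ≤ g x) →
      ∫ x, g x ∂μ ≤ ε⁻¹ * ∫ x, g x ∂(κ : Measure UnitAddCircle) := by
    intro g hg
    have h1 : ∀ k, ε * ∫ x, g x ∂μ ≤ ∫ x, g x ∂(M k : Measure UnitAddCircle) := by
      intro k
      rw [hMr]
      set Q := boxQ (N k) with hQ
      have hc : (0 : ℝ) < Q.card := by exact_mod_cast Finset.card_pos.mpr (hne k)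
      set B := Q.filter (fun v => ¬ (img μ (mlt p q c₁ c₂ (r k) (α k) v)).MutuallySingular μ)
        with hB
      have hI0 : ∀ n : ℤ, 0 ≤ ∫ x, g (n • x) ∂μ := fun n => integral_nonneg fun x => hg _
      have h2 : ∑ v ∈ B, ∫ x, g (mlt p q c₁ c₂ (r k) (α k) v • x) ∂μ ≤
          ∑ v ∈ Q, ∫ x, g (mlt p q c₁ c₂ (r k) (α k) v • x) ∂μ :=
        Finset.sum_le_sum_of_subset_of_nonneg (Finset.filter_subset _ _) fun v _ _ => hI0 _
      have h3 : ∑ v ∈ B, ∫ x, g (mlt p q c₁ c₂ (r k) (α k) v • x) ∂μ = B.card * ∫ x, g x ∂μ := by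
        rw [← nsmul_eq_mul]
        refine Finset.sum_eq_card_nsmul fun v hv => ?_
        have h4 := img_eq hJ' hμp hμq (Finset.mem_filter.mp hv).2
        have h5 := integral_map (μ := μ) (zsmul_meas (mlt p q c₁ c₂ (r k) (α k) v)).aemeasurable
          (f := g) g.continuous.aestronglyMeasurable
        rw [← h5]
        change ∫ x, g x ∂(img μ (mlt p q c₁ c₂ (r k) (α k) v)) = _
        rw [h4]
      have h6 : ε * Q.card < B.card := hbad k
      have h7 : 0 ≤ ∫ x, g x ∂μ := integral_nonneg hg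
      rw [inv_mul_eq_div, le_div_iff₀ hc]
      calc ε * (∫ x, g x ∂μ) * Q.card = (ε * Q.card) * ∫ x, g x ∂μ := by ring
        _ ≤ B.card * ∫ x, g x ∂μ := mul_le_mul_of_nonneg_right h6.le h7
        _ ≤ _ := by rw [← h3]; exact h2
    have h8 := ge_of_tendsto (hκr g) (Eventually.of_forall h1)
    rw [inv_mul_eq_div, le_div_iff₀ hε]
    linarith
  have hac : μ ≪ (κ : Measure UnitAddCircle) := ac_of_le (inv_pos.mpr hε) hdom
  have hsing := singular_all hp hμp hμq hJ hat hvol hc₁ hc₂ (ω : Measure UnitAddCircle)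
  rw [← hlaw] at hsing
  have h0 : μ = 0 := Measure.eq_zero_of_absolutelyContinuous_of_mutuallySingular hac hsing
  have : μ Set.univ = 1 := measure_univ
  rw [h0] at this
  simp at this

end Pool.Agent.Zk32
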