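import Mathlib
import Pool.Agent.Zk32.Gp15

/-!
Arbitrary real noise after almost every dilation
-/

set_option autoImplicit false
set_option linter.unusedSectionVars false

open MeasureTheory Filter Topology Set
open scoped ENNReal NNReal BoundedContinuousFunction

namespace Pool.Agent.Zk32

/-- the inverse image of a null set of the circle in the line is a null set -/
lemma null_line {N : Set UnitAddCircle} (hN : MeasurableSet N) (h0 : volume N = 0) :
    volume ((fun x : ℝ => (x : UnitAddCircle)) ⁻¹' N) = 0 := by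
  have h1 : ∀ n : ℤ, volume ((fun x : ℝ => (x : UnitAddCircle)) ⁻¹' N ∩
      Set.Ioc (n : ℝ) (n + 1)) = 0 := by
    intro n
    have h2 := AddCircle.measurePreserving_mk (T := (1 : ℝ)) (n : ℝ)
    have h3 := h2.measure_preimage hN.nullMeasurableSet
    rw [h0, Measure.restrict_apply (h2.measurable hN)] at h3
    exact h3
  have h2 : ((fun x : ℝ => (x : UnitAddCircle)) ⁻¹' N) ⊆
      ⋃ n : ℤ, ((fun x : ℝ => (x : UnitAddCircle)) ⁻¹' N ∩ Set.Ioc (n : ℝ) (n + 1)) := by
    intro x hx
    rw [Set.mem_iUnion]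
    refine ⟨⌈x⌉ - 1, hx, ?_, ?_⟩
    · push_cast
      have := Int.ceil_lt_add_one x
      linarith
    · push_cast
      have := Int.le_ceil x
      linarith
  exact measure_mono_null h2 (measure_iUnion_null h1)

/-- Lebesgue almost every point is generic for Lebesgue measure -/
lemma rgen_vol {p q : ℕ} (hp : 2 ≤ p) (hq : 1 ≤ q) :
    (volume : Measure UnitAddCircle) (RGen p q volume)ᶜ = 0 := by
  have herg : Ergodic (fun x : UnitAddCircle => p • x) (volume : Measure UnitAddCircle) :=
    AddCircle.ergodic_nsmul (by omega)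
  have h0 : MeasurePreserving (fun x : UnitAddCircle => ((q : ℤ)) • x) volume volume :=
    MeasureTheory.Measure.measurePreserving_zsmul volume (by exact_mod_cast (by omega : q ≠ 0))
  have h1 : MeasurePreserving (fun x : UnitAddCircle => q • x)
      (volume : Measure UnitAddCircle) volume := by
    simpa only [natCast_zsmul] using h0
  have h2 := rgen_full herg.toMeasurePreserving h1
    (fun E hE h2 _ => herg.toPreErgodic.prob_eq_zero_or_one hE h2)
  exact (prob_compl_eq_zero_iff (rgen_meas p q volume)).mpr h2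

lemma rlim_of_gen {p q : ℕ} {t : UnitAddCircle} {κ : Measure UnitAddCircle}
    (h : t ∈ RGen p q κ) : RLim p q (Measure.dirac t) κ := by
  refine ⟨fun k => k, fun k => k, tendsto_id, tendsto_id, fun g => ?_⟩
  refine (rgen_seq h tendsto_id tendsto_id g).congr fun k => ?_
  exact (integral_dirac _ _).symm

/-- **Every real noise, almost every dilation.** -/
theorem dilation {p q : ℕ} (hp : 2 ≤ p) (hq : 1 ≤ q) (θ : Measure ℝ) [IsProbabilityMeasure θ]
    (hθ : θ {0} = 0) : ∀ᵐ s : ℝ, ∀ μ : Measure UnitAddCircle, IsProbabilityMeasure μ →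
      μ.MutuallySingular volume → ∀ c : ℤ, ∀ ν : Measure UnitAddCircle, IsProbabilityMeasure ν →
        MeasurePreserving (fun x : UnitAddCircle => p • x) ν ν →
        MeasurePreserving (fun x : UnitAddCircle => q • x) ν ν →
        (ν.prod θ) {z : UnitAddCircle × ℝ |
          c • z.1 + ((s * z.2 : ℝ) : UnitAddCircle) ∈ RGen p q μ} = 0 := by
  set N : Set UnitAddCircle := (RGen p q volume)ᶜ with hN
  have hNm : MeasurableSet N := (rgen_meas p q volume).compl
  have hN0 : volume N = 0 := rgen_vol hp hq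
  have hmk : Continuous (fun x : ℝ => (x : UnitAddCircle)) := AddCircle.continuous_mk' 1
  set Z : Set (ℝ × ℝ) := {u | ((u.1 * u.2 : ℝ) : UnitAddCircle) ∈ N} with hZ
  have hZm : MeasurableSet Z := by
    have : Measurable (fun u : ℝ × ℝ => ((u.1 * u.2 : ℝ) : UnitAddCircle)) :=
      (hmk.comp (continuous_fst.mul continuous_snd)).measurable
    exact this hNm
  have hZ0 : (volume.prod θ) Z = 0 := by
    rw [Measure.prod_apply_symm hZm]
    have h1 : ∀ᵐ w ∂θ, volume ((fun s : ℝ => (s, w)) ⁻¹' Z) = 0 := by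
      have h2 : ∀ᵐ w ∂θ, w ≠ 0 := by
        rw [ae_iff]
        simpa using hθ
      filter_upwards [h2] with w hw
      have h3 : (fun s : ℝ => (s, w)) ⁻¹' Z = (fun s : ℝ => s * w) ⁻¹'
          ((fun x : ℝ => (x : UnitAddCircle)) ⁻¹' N) := rfl
      rw [h3, Real.volume_preimage_mul_right hw, null_line hNm hN0, mul_zero]
    rw [lintegral_congr_ae h1, lintegral_zero]
  have hae : ∀ᵐ s : ℝ, θ (Prod.mk s ⁻¹' Z) = 0 := (Measure.measure_prod_null hZm).mp hZ0
  filter_upwards [hae] with s hs
  intro μ hμ hsing c ν hν hνp hνq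
  have hm : MeasurableSet {z : UnitAddCircle × ℝ |
      c • z.1 + ((s * z.2 : ℝ) : UnitAddCircle) ∈ RGen p q μ} := by
    have : Continuous (fun z : UnitAddCircle × ℝ => c • z.1 + ((s * z.2 : ℝ) : UnitAddCircle)) :=
      (continuous_fst.zsmul c).add (hmk.comp (continuous_const.mul continuous_snd))
    exact this.measurable (rgen_meas p q μ)
  rw [Measure.prod_apply_symm hm]
  have h1 : ∀ᵐ w ∂θ, ν ((fun x : UnitAddCircle => (x, w)) ⁻¹' {z : UnitAddCircle × ℝ |
      c • z.1 + ((s * z.2 : ℝ) : UnitAddCircle) ∈ RGen p q μ}) = 0 := by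
    have h5 : Prod.mk s ⁻¹' Z = {w : ℝ | ((s * w : ℝ) : UnitAddCircle) ∈ N} := rfl
    rw [h5] at hs
    have h2 : ∀ᵐ w ∂θ, w ∉ {w : ℝ | ((s * w : ℝ) : UnitAddCircle) ∈ N} :=
      measure_eq_zero_iff_ae_notMem.mp hs
    filter_upwards [h2] with w hw
    have h6 : ((s * w : ℝ) : UnitAddCircle) ∉ N := hw
    have h3 : ((s * w : ℝ) : UnitAddCircle) ∈ RGen p q volume := by
      rw [hN, Set.notMem_compl_iff] at h6
      exact h6
    have h7 := rgen_pair_point (μ := μ) hνp hνq hsing c _ volume (rlim_of_gen h3) vol_not_sing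
    exact h7
  rw [lintegral_congr_ae h1, lintegral_zero]

end Pool.Agent.Zk32
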