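import Mathlib
import Pool.Agent.Zk32.Tu0
import Pool.Agent.Zk26.FS

/-!
The pointwise ergodic theorem along sequences with a maximal inequality (helper80)
-/

set_option autoImplicit false
set_option linter.all false

open MeasureTheory Filter Topology Set
open scoped ENNReal InnerProductSpace

namespace Pool.Agent.Zk32

section Hilbert

open Pool.Agent.R202.TM (mean)

variable {H : Type*} [NormedAddCommGroup H] [InnerProductSpace ℂ H] [CompleteSpace H]

/-- averages over squares converge to a common fixed vector -/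
theorem tu_hilb {U V : H →L[ℂ] H} (hU : ∀ x, ‖U x‖ = ‖x‖) (hV : ∀ x, ‖V x‖ = ‖x‖)
    (hUV : ∀ x, U (V x) = V (U x)) (f : H) :
    ∃ w, U w = w ∧ V w = w ∧ ∀ ε : ℝ, 0 < ε → ∃ N : ℕ, 1 ≤ N ∧
      ‖av U 0 N (av V 0 N f) - w‖ ≤ ε := by
  have hU1 : ‖U‖ ≤ 1 := ContinuousLinearMap.opNorm_le_bound _ zero_le_one fun w => by
    rw [one_mul, hU]
  have hV1 : ‖V‖ ≤ 1 := ContinuousLinearMap.opNorm_le_bound _ zero_le_one fun w => by
    rw [one_mul, hV]
  obtain ⟨P, hP, hPf, hPe, hPs⟩ := mean U hU1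
  obtain ⟨Q, hQ, hQf, hQe, hQs⟩ := mean V hV1
  have hcommP : ∀ x, V (P x) = P (V x) := by
    intro x
    have hC := (V.continuous.tendsto _).comp (hP x)
    refine tendsto_nhds_unique hC ((hP (V x)).congr fun N => ?_)
    simp only [Function.comp_apply]
    have h3 := av_comm1 hUV 0 N x
    rw [av_shift, av_shift] at h3
    exact h3.symm
  refine ⟨P (Q f), hPf _, by rw [hcommP, hQf], fun ε hε => ?_⟩
  obtain ⟨n₁, hn₁⟩ := av_close hV (hQ f) (hQf f) (half_pos hε)
  obtain ⟨n₂, hn₂⟩ := av_close hU (hP (Q f)) (hPf (Q f)) (half_pos hε)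
  refine ⟨max n₁ n₂ + 1, by omega, ?_⟩
  have a1 := hn₁ (max n₁ n₂ + 1) (by omega) 0
  have a2 := hn₂ (max n₁ n₂ + 1) (by omega) 0
  have e1 : av U 0 (max n₁ n₂ + 1) (av V 0 (max n₁ n₂ + 1) f) - P (Q f) =
      av U 0 (max n₁ n₂ + 1) (av V 0 (max n₁ n₂ + 1) f - Q f) +
        (av U 0 (max n₁ n₂ + 1) (Q f) - P (Q f)) := by
    rw [av_sub]; abel
  rw [e1]
  refine (norm_add_le _ _).trans ?_
  have a3 := (norm_av_le hU 0 (max n₁ n₂ + 1) (av V 0 (max n₁ n₂ + 1) f - Q f)).trans a1
  linarith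

end Hilbert

section Limit

open Pool.Agent.R202.TM (comp comp_coe comp_norm comp_iter)
open Pool.Agent.Zk26.FS (box box_eq box_cont ave_box bdd cont_int ave_cont)

/-- box averages of a continuous function converge in the mean to an invariant function -/
theorem tu_limit {p q : ℕ} {ν : Measure UnitAddCircle} [IsProbabilityMeasure ν]
    (hp : MeasurePreserving (fun x : UnitAddCircle => p • x) ν ν)
    (hq : MeasurePreserving (fun x : UnitAddCircle => q • x) ν ν) (g : C(UnitAddCircle, ℝ)) :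
    ∃ w : UnitAddCircle → ℝ, Measurable w ∧ Integrable w ν ∧ (∀ᵐ x ∂ν, w (p • x) = w x) ∧
      (∀ᵐ x ∂ν, w (q • x) = w x) ∧
      ∀ ε : ℝ, 0 < ε → ∃ N : ℕ, 1 ≤ N ∧ ∫ x, |box p q g N (0, 0) x - w x| ∂ν ≤ ε := by
  set f : UnitAddCircle → ℂ := fun x => ((g x : ℝ) : ℂ) with hf
  have hfm : Measurable f := (Complex.continuous_ofReal.comp g.continuous).measurable
  have hf2 : MemLp f 2 ν := MemLp.of_bound hfm.aestronglyMeasurable ‖g‖
    (Eventually.of_forall fun x => by
      simp only [hf]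
      rw [Complex.norm_real, Real.norm_eq_abs]
      exact bdd g x)
  set G := hf2.toLp with hG
  have hGe : (G : UnitAddCircle → ℂ) =ᵐ[ν] f := hf2.coeFn_toLp
  have hST : ∀ x : UnitAddCircle, p • (q • x) = q • (p • x) := fun x => by
    rw [smul_smul, smul_smul, mul_comm]
  have hcomm : ∀ w, comp hp (comp hq w) = comp hq (comp hp w) := by
    intro w
    apply Lp.ext
    filter_upwards [comp_coe hp (comp hq w), comp_coe hq (comp hp w),
      hp.quasiMeasurePreserving.ae_eq_comp (comp_coe hq w),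
      hq.quasiMeasurePreserving.ae_eq_comp (comp_coe hp w)] with x h1 h2 h3 h4
    rw [h1, h2, h3, h4]
    show w (q • (p • x)) = w (p • (q • x))
    rw [hST]
  obtain ⟨w, h1, h2, hw⟩ := tu_hilb (comp_isom hp) (comp_isom hq) hcomm G
  set u : UnitAddCircle → ℂ := (Lp.aestronglyMeasurable w).mk w with hu
  have hum : Measurable u := (Lp.aestronglyMeasurable w).stronglyMeasurable_mk.measurable
  have hue : ∀ᵐ x ∂ν, w x = u x := (Lp.aestronglyMeasurable w).ae_eq_mk
  have hSu : ∀ᵐ x ∂ν, u (p • x) = u x := by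
    have h3 := comp_coe hp w
    rw [h1] at h3
    filter_upwards [h3, hue, hp.quasiMeasurePreserving.ae hue] with x a b c
    rw [← c, ← b, a]
    rfl
  have hTu : ∀ᵐ x ∂ν, u (q • x) = u x := by
    have h3 := comp_coe hq w
    rw [h2] at h3
    filter_upwards [h3, hue, hq.quasiMeasurePreserving.ae hue] with x a b c
    rw [← c, ← b, a]
    rfl
  have hui : Integrable u ν := by
    have h3 : Integrable (w : UnitAddCircle → ℂ) ν := (Lp.memLp w).integrable (by norm_num)
    exact h3.congr hue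
  refine ⟨fun x => (u x).re, Complex.measurable_re.comp hum, hui.re, ?_, ?_, ?_⟩
  · filter_upwards [hSu] with x hx
    rw [hx]
  · filter_upwards [hTu] with x hx
    rw [hx]
  intro ε hε
  obtain ⟨N, hN1, hN⟩ := hw ε hε
  refine ⟨N, hN1, ?_⟩
  set R := av (comp hp) 0 N (av (comp hq) 0 N G) - w with hR
  have hRe : ∀ᵐ x ∂ν, (R : UnitAddCircle → ℂ) x = ((box p q g N (0, 0) x : ℝ) : ℂ) - u x := by
    filter_upwards [Lp.coeFn_sub (av (comp hp) 0 N (av (comp hq) 0 N G)) w,
      av_av_coe hp hq 0 N 0 N hGe, hue] with x a b c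
    rw [hR, a, Pi.sub_apply, b, c]
    congr 1
    exact (box_eq p q g N (0, 0) x).symm
  have h3 : ∫ x, |box p q g N (0, 0) x - (u x).re| ∂ν ≤ ∫ x, ‖(R : UnitAddCircle → ℂ) x‖ ∂ν := by
    refine integral_mono_ae ?_ ?_ ?_
    · exact ((cont_int (box_cont p q g N (0, 0))).sub hui.re).abs
    · exact ((Lp.memLp R).integrable (by norm_num)).norm
    · filter_upwards [hRe] with x hx
      rw [hx]
      have := Complex.abs_re_le_norm (((box p q g N (0, 0) x : ℝ) : ℂ) - u x)
      simpa using this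
  refine h3.trans (le_trans ?_ hN)
  rw [Lp.norm_def]
  have h4 : ∫ x, ‖(R : UnitAddCircle → ℂ) x‖ ∂ν = (eLpNorm (R : UnitAddCircle → ℂ) 1 ν).toReal := by
    rw [integral_norm_eq_lintegral_enorm (Lp.aestronglyMeasurable R), eLpNorm_one_eq_lintegral_enorm]
  rw [h4]
  refine ENNReal.toReal_mono (Lp.eLpNorm_ne_top R) ?_
  exact eLpNorm_le_eLpNorm_of_exponent_le (by norm_num) (Lp.aestronglyMeasurable R)

/-- almost every point has `w` constant on its orbit -/
lemma tu_orb {p q : ℕ} {ν : Measure UnitAddCircle}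
    (hp : MeasurePreserving (fun x : UnitAddCircle => p • x) ν ν)
    (hq : MeasurePreserving (fun x : UnitAddCircle => q • x) ν ν) {w : UnitAddCircle → ℝ}
    (h1 : ∀ᵐ x ∂ν, w (p • x) = w x) (h2 : ∀ᵐ x ∂ν, w (q • x) = w x) :
    ∀ᵐ x ∂ν, ∀ n : ℕ × ℕ, w ((p ^ n.1 * q ^ n.2) • x) = w x := by
  have hq' : ∀ j : ℕ, ∀ᵐ x ∂ν, w (q ^ j • x) = w x := by
    intro j
    induction j with
    | zero => exact Eventually.of_forall fun x => by simp
    | succ j ih =>
      filter_upwards [hq.quasiMeasurePreserving.ae ih, h2] with x a b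
      rw [pow_succ, mul_smul, a, b]
  have hpq : ∀ i j : ℕ, ∀ᵐ x ∂ν, w ((p ^ i * q ^ j) • x) = w x := by
    intro i j
    induction i with
    | zero => simpa using hq' j
    | succ i ih =>
      filter_upwards [hp.quasiMeasurePreserving.ae ih, h1] with x a b
      rw [show p ^ (i + 1) * q ^ j = (p ^ i * q ^ j) * p by ring, mul_smul, a, b]
  rw [ae_all_iff]
  rintro ⟨i, j⟩
  exact hpq i j

lemma tu_box_shift (p q : ℕ) (g : UnitAddCircle → ℝ) (N : ℕ) (n : ℕ × ℕ) (x : UnitAddCircle) :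
    box p q g N n x = box p q g N (0, 0) ((p ^ n.1 * q ^ n.2) • x) := by
  unfold box
  congr 1
  refine Finset.sum_congr rfl fun i _ => ?_
  congr 1
  refine Finset.sum_congr rfl fun j _ => ?_
  rw [smul_smul]
  congr 2
  simp only [zero_add]
  ring

/-- **The pointwise ergodic theorem** for averages of continuous functions along a Folner sequence
for which the maximal inequality holds. -/
theorem ae_conv {p q : ℕ} {ν : Measure UnitAddCircle} [IsProbabilityMeasure ν]
    (hnp : MeasurePreserving (fun x : UnitAddCircle => p • x) ν ν)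
    (hnq : MeasurePreserving (fun x : UnitAddCircle => q • x) ν ν)
    {F : ℕ → Finset (ℕ × ℕ)} (hF : Folner F) {C : ℝ} (hC : 0 < C)
    (hmax : ∀ f : UnitAddCircle → ℝ, Measurable f → (∀ x, 0 ≤ f x) → Integrable f ν →
      ∀ l : ℝ, 0 < l → ν.real {x | ∃ n, l < ave p q (F n) f x} ≤ C / l * ∫ x, f x ∂ν)
    (g : C(UnitAddCircle, ℝ)) :
    ∀ᵐ x ∂ν, ∃ c : ℝ, Tendsto (fun k => ave p q (F k) g x) atTop (𝓝 c) := by
  obtain ⟨hF1, hF2, hF3⟩ := hF
  obtain ⟨w, hwm, hwi, hwp, hwq, hw⟩ := tu_limit hnp hnq g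
  have horb := tu_orb hnp hnq hwp hwq
  have hkey : ∀ l : ℝ, 0 < l → ∀ᵐ x ∂ν, ∃ k₀ : ℕ, ∀ k, k₀ ≤ k → |ave p q (F k) g x - w x| ≤ l := by
    intro l hl
    rw [ae_iff]
    have hle : ∀ ε : ℝ, 0 < ε → ν.real {x | ¬ ∃ k₀ : ℕ, ∀ k, k₀ ≤ k → |ave p q (F k) g x - w x| ≤ l} ≤
        C / (l / 2) * ε := by
      intro ε hε
      obtain ⟨N, hN1, hN⟩ := hw ε hε
      have hD := hmax (fun x => |box p q g N (0, 0) x - w x|)
        (((box_cont p q g N (0, 0)).measurable.sub hwm).abs) (fun x => abs_nonneg _)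
        (((cont_int (box_cont p q g N (0, 0))).sub hwi).abs) (l / 2) (by positivity)
      refine le_trans ?_ (hD.trans (mul_le_mul_of_nonneg_left hN (by positivity)))
      unfold Measure.real
      refine ENNReal.toReal_mono (measure_ne_top _ _) ?_
      apply measure_mono_ae
      have hlim : Tendsto (fun k => 2 * ‖g‖ * N * ((((F k).filter fun n => (n.1 + 1, n.2) ∉ F k).card : ℝ) /
          (F k).card + (((F k).filter fun n => (n.1, n.2 + 1) ∉ F k).card : ℝ) / (F k).card))
          atTop (𝓝 0) := by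
        have := (hF2.add hF3).const_mul (2 * ‖g‖ * N)
        simpa using this
      have hev := hlim.eventually (gt_mem_nhds (show (0 : ℝ) < l / 2 by positivity))
      obtain ⟨k₀, hk₀⟩ := eventually_atTop.1 hev
      filter_upwards [horb] with x hx hbad
      show ∃ n, l / 2 < ave p q (F n) (fun x => |box p q g N (0, 0) x - w x|) x
      by_contra hcon
      push Not at hcon
      refine hbad ⟨k₀, fun k hk => ?_⟩
      have h1 := ave_box p q (F k) g (show 0 < N by omega) x
      have h2 := hk₀ k hk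
      have h3 := hcon k
      have hcard : (0 : ℝ) < (F k).card := by exact_mod_cast (hF1 k).card_pos
      have h4 : ((F k).card : ℝ)⁻¹ * ∑ n ∈ F k, box p q g N n x - w x =
          ((F k).card : ℝ)⁻¹ * ∑ n ∈ F k, (box p q g N (0, 0) ((p ^ n.1 * q ^ n.2) • x) -
            w ((p ^ n.1 * q ^ n.2) • x)) := by
        simp only [hx, ← tu_box_shift]
        rw [Finset.sum_sub_distrib, Finset.sum_const, nsmul_eq_mul, mul_sub, ← mul_assoc,
          inv_mul_cancel₀ hcard.ne', one_mul]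
      have h5 : |((F k).card : ℝ)⁻¹ * ∑ n ∈ F k, box p q g N n x - w x| ≤ l / 2 := by
        refine le_trans ?_ h3
        rw [h4, abs_mul, abs_inv, Nat.abs_cast]
        unfold ave
        exact mul_le_mul_of_nonneg_left (Finset.abs_sum_le_sum_abs _ _)
          (inv_nonneg.2 (Nat.cast_nonneg _))
      have h6 : |((F k).card : ℝ)⁻¹ * ∑ n ∈ F k, box p q g N n x - ave p q (F k) g x| < l / 2 :=
        lt_of_le_of_lt h1 h2
      rw [abs_le] at h5
      rw [abs_lt] at h6
      rw [abs_le]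
      constructor <;> linarith [h5.1, h5.2, h6.1, h6.2]
    have h0 : ν.real {x | ¬ ∃ k₀ : ℕ, ∀ k, k₀ ≤ k → |ave p q (F k) g x - w x| ≤ l} ≤ 0 := by
      refine le_of_forall_pos_le_add fun δ hδ => ?_
      have hK : 0 < C / (l / 2) := by positivity
      have := hle (δ / (C / (l / 2))) (by positivity)
      rw [mul_div_cancel₀ _ hK.ne'] at this
      linarith
    have h1 := le_antisymm h0 measureReal_nonneg
    exact (measureReal_eq_zero_iff (measure_ne_top _ _)).1 h1
  have hall : ∀ᵐ x ∂ν, ∀ j : ℕ, ∃ k₀ : ℕ, ∀ k, k₀ ≤ k →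
      |ave p q (F k) g x - w x| ≤ 1 / ((j : ℝ) + 1) := by
    rw [ae_all_iff]
    exact fun j => hkey _ (by positivity)
  filter_upwards [hall] with x hx
  refine ⟨w x, ?_⟩
  rw [Metric.tendsto_atTop]
  intro ε hε
  obtain ⟨j, hj⟩ := exists_nat_one_div_lt hε
  obtain ⟨k₀, hk₀⟩ := hx j
  refine ⟨k₀, fun k hk => ?_⟩
  rw [Real.dist_eq]
  exact lt_of_le_of_lt (hk₀ k hk) hj

end Limit

end Pool.Agent.Zk32
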